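import Pool.Agent.HC.Defs

/- HC.Basic -/
section
set_option autoImplicit false

/-!
Project HC (MP_0b9e0b_ag), module B0: basic properties of the homogeneous ideal and the residue
field of a point.
-/

namespace Pool.Agent.HC

open Pool.Agent.Helper16

variable {K σ : Type} [Field K] {N : Type} [Field N] [Algebra K N]

/-- The map `X j ↦ x j T` to polynomials in `T`. -/
noncomputable def coneMap (K : Type) {σ N : Type} [Field K] [Field N] [Algebra K N] (x : σ → N) :
    MvPolynomial σ K →ₐ[K] Polynomial N :=
  MvPolynomial.aeval (fun j => Polynomial.C (x j) * Polynomial.X)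

theorem coneMap_form (x : σ → N) {F : MvPolynomial σ K} {d : ℕ} (hF : F.IsHomogeneous d) :
    coneMap K x F = Polynomial.C (MvPolynomial.aeval x F) * Polynomial.X ^ d := by
  unfold coneMap
  rw [MvPolynomial.aeval_def, MvPolynomial.eval₂_eq, MvPolynomial.aeval_def, MvPolynomial.eval₂_eq,
    map_sum, Finset.sum_mul]
  refine Finset.sum_congr rfl fun e he => ?_
  have h1 : ∑ i ∈ e.support, e i = d := by
    have := hF (MvPolynomial.mem_support_iff.1 he)
    rw [Finsupp.weight_apply] at this
    simpa [Finsupp.sum] using this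
  rw [map_mul, map_prod, mul_assoc]
  congr 1
  rw [← h1, ← Finset.prod_pow_eq_pow_sum, ← Finset.prod_mul_distrib]
  refine Finset.prod_congr rfl fun i _ => ?_
  rw [mul_pow, map_pow]

theorem coneMap_coeff (x : σ → N) (F : MvPolynomial σ K) (n : ℕ) :
    (coneMap K x F).coeff n = MvPolynomial.aeval x (MvPolynomial.homogeneousComponent n F) := by
  conv_lhs => rw [← MvPolynomial.sum_homogeneousComponent F]
  rw [map_sum, Polynomial.finsetSum_coeff]
  have h1 : ∀ i, (coneMap K x (MvPolynomial.homogeneousComponent i F)).coeff n =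
      if i = n then MvPolynomial.aeval x (MvPolynomial.homogeneousComponent n F) else 0 := by
    intro i
    rw [coneMap_form x (MvPolynomial.homogeneousComponent_isHomogeneous i F),
      Polynomial.coeff_C_mul_X_pow]
    by_cases h : i = n
    · subst h; simp
    · rw [if_neg h, if_neg (fun h' => h h'.symm)]
  simp only [h1]
  rw [Finset.sum_ite_eq']
  split_ifs with h
  · rfl
  · rw [Finset.mem_range, not_lt] at h
    rw [MvPolynomial.homogeneousComponent_eq_zero _ _ (by omega), map_zero]

theorem mem_ker_coneMap (x : σ → N) (F : MvPolynomial σ K) :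
    F ∈ RingHom.ker (coneMap K x) ↔
      ∀ n, MvPolynomial.aeval x (MvPolynomial.homogeneousComponent n F) = 0 := by
  rw [RingHom.mem_ker, Polynomial.ext_iff]
  simp only [coneMap_coeff, Polynomial.coeff_zero]

theorem homIdeal_eq_ker (x : σ → N) : homIdeal K x = RingHom.ker (coneMap K x) := by
  refine le_antisymm ?_ ?_
  · unfold homIdeal
    rw [Ideal.span_le]
    rintro F ⟨⟨d, hd⟩, hF⟩
    change coneMap K x F = 0
    rw [coneMap_form x hd, hF, map_zero, zero_mul]
  · intro F hF
    rw [mem_ker_coneMap] at hF
    rw [← MvPolynomial.sum_homogeneousComponent F]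
    refine sum_mem fun i _ => Ideal.subset_span ⟨⟨i, ?_⟩, hF i⟩
    exact MvPolynomial.homogeneousComponent_isHomogeneous i F

theorem mem_homIdeal_iff (x : σ → N) (F : MvPolynomial σ K) :
    F ∈ homIdeal K x ↔
      ∀ n, MvPolynomial.aeval x (MvPolynomial.homogeneousComponent n F) = 0 := by
  rw [homIdeal_eq_ker, mem_ker_coneMap]

theorem mem_homIdeal_form (x : σ → N) {F : MvPolynomial σ K} {d : ℕ} (hF : F.IsHomogeneous d) :
    F ∈ homIdeal K x ↔ MvPolynomial.aeval x F = 0 := by
  rw [homIdeal_eq_ker]
  change coneMap K x F = 0 ↔ _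
  rw [coneMap_form x hF, mul_eq_zero, or_iff_left (pow_ne_zero _ Polynomial.X_ne_zero),
    Polynomial.C_eq_zero]

theorem homIdeal_prime (x : σ → N) : (homIdeal K x).IsPrime := by
  rw [homIdeal_eq_ker]
  exact RingHom.ker_isPrime _

theorem homIdeal_hom (x : σ → N) : ∀ F ∈ homIdeal K x, ∀ n,
    MvPolynomial.homogeneousComponent n F ∈ homIdeal K x := by
  intro F hF n
  rw [mem_homIdeal_form x (MvPolynomial.homogeneousComponent_isHomogeneous n F)]
  exact (mem_homIdeal_iff x F).1 hF n

/-- A homogeneous ideal which contains the same forms as the ideal of a point is this ideal. -/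
theorem eq_homIdeal {P : Ideal (MvPolynomial σ K)} (x : σ → N)
    (hom : ∀ F ∈ P, ∀ n, MvPolynomial.homogeneousComponent n F ∈ P)
    (h : ∀ (d : ℕ) (F : MvPolynomial σ K), F.IsHomogeneous d →
      (F ∈ P ↔ MvPolynomial.aeval x F = 0)) : homIdeal K x = P := by
  ext F
  rw [mem_homIdeal_iff]
  constructor
  · intro h1
    rw [← MvPolynomial.sum_homogeneousComponent F]
    exact sum_mem fun i _ => (h i _ (MvPolynomial.homogeneousComponent_isHomogeneous i F)).2 (h1 i)
  · intro h1 n
    exact (h n _ (MvPolynomial.homogeneousComponent_isHomogeneous n F)).1 (hom F h1 n)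

theorem homIdeal_ext {N' : Type} [Field N'] [Algebra K N'] (x : σ → N) (x' : σ → N')
    (h : ∀ (d : ℕ) (F : MvPolynomial σ K), F.IsHomogeneous d →
      (MvPolynomial.aeval x F = 0 ↔ MvPolynomial.aeval x' F = 0)) :
    homIdeal K x = homIdeal K x' :=
  eq_homIdeal x (homIdeal_hom x') fun d F hF => by
    rw [mem_homIdeal_form x' hF, h d F hF]

theorem aeval_scale (x : σ → N) (c : N) {F : MvPolynomial σ K} {d : ℕ} (hF : F.IsHomogeneous d) :
    MvPolynomial.aeval (fun j => c * x j) F = c ^ d * MvPolynomial.aeval x F := by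
  rw [MvPolynomial.aeval_def, MvPolynomial.eval₂_eq, MvPolynomial.aeval_def, MvPolynomial.eval₂_eq,
    Finset.mul_sum]
  refine Finset.sum_congr rfl fun e he => ?_
  have h1 : ∑ i ∈ e.support, e i = d := by
    have := hF (MvPolynomial.mem_support_iff.1 he)
    rw [Finsupp.weight_apply] at this
    simpa [Finsupp.sum] using this
  simp only [mul_pow]
  rw [Finset.prod_mul_distrib, Finset.prod_pow_eq_pow_sum, h1]
  ring

theorem homIdeal_scale (x : σ → N) {c : N} (hc : c ≠ 0) :
    homIdeal K (fun j => c * x j) = homIdeal K x :=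
  homIdeal_ext _ _ fun d F hF => by
    rw [aeval_scale x c hF, mul_eq_zero_iff_left (pow_ne_zero d hc)]

theorem homIdeal_map {N' : Type} [Field N'] [Algebra K N'] (φ : N →ₐ[K] N') (x : σ → N) :
    homIdeal K (fun j => φ (x j)) = homIdeal K x :=
  homIdeal_ext _ _ fun d F hF => by
    have : MvPolynomial.aeval (fun j => φ (x j)) F = φ (MvPolynomial.aeval x F) := by
      rw [← MvPolynomial.comp_aeval_apply]
    rw [this, map_eq_zero]

theorem ratioField_scale (x : σ → N) {c : N} (hc : c ≠ 0) :
    ratioField K (fun j => c * x j) = ratioField K x := by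
  unfold ratioField
  congr 1
  ext a
  simp only [Set.mem_range, Prod.exists]
  refine exists_congr fun i => exists_congr fun j => ?_
  rw [mul_div_mul_left _ _ hc]

theorem ratioField_map {N' : Type} [Field N'] [Algebra K N'] (φ : N →ₐ[K] N') (x : σ → N) :
    ratioField K (fun j => φ (x j)) = (ratioField K x).map φ := by
  unfold ratioField
  rw [IntermediateField.adjoin_map]
  congr 1
  ext a
  simp only [Set.mem_range, Prod.exists, Set.mem_image]
  constructor
  · rintro ⟨i, j, rfl⟩
    exact ⟨_, ⟨i, j, rfl⟩, map_div₀ φ _ _⟩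
  · rintro ⟨_, ⟨i, j, rfl⟩, rfl⟩
    exact ⟨i, j, (map_div₀ φ _ _).symm⟩

theorem trdeg_ratioField_map {N' : Type} [Field N'] [Algebra K N'] (φ : N →ₐ[K] N') (x : σ → N) :
    Algebra.trdeg K (ratioField K (fun j => φ (x j))) = Algebra.trdeg K (ratioField K x) := by
  rw [ratioField_map]
  exact (IntermediateField.equivMap (ratioField K x) φ).symm.trdeg_eq

theorem div_mem_ratioField (x : σ → N) (i j : σ) : x i / x j ∈ ratioField K x :=
  IntermediateField.subset_adjoin K _ ⟨(i, j), rfl⟩

/-- If one coordinate is `1` then the field of the point is generated by the coordinates. -/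
theorem ratioField_of_one (x : σ → N) (j : σ) (hj : x j = 1) :
    ratioField K x = IntermediateField.adjoin K (Set.range x) := by
  refine le_antisymm ?_ ?_
  · unfold ratioField
    rw [IntermediateField.adjoin_le_iff]
    rintro _ ⟨p, rfl⟩
    exact div_mem (IntermediateField.subset_adjoin K _ ⟨_, rfl⟩)
      (IntermediateField.subset_adjoin K _ ⟨_, rfl⟩)
  · rw [IntermediateField.adjoin_le_iff]
    rintro _ ⟨i, rfl⟩
    have := div_mem_ratioField (K := K) x i j
    rwa [hj, div_one] at this

/-! ### Transcendence degrees -/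

theorem trdeg_of_isAlgebraic (R S : Type) {T : Type} [CommRing R] [CommRing S] [CommRing T]
    [Algebra R S] [Algebra R T] [Algebra S T] [IsScalarTower R S T] [Nontrivial R]
    [NoZeroDivisors T] [FaithfulSMul R S] [FaithfulSMul S T] [Algebra.IsAlgebraic S T] :
    Algebra.trdeg R T = Algebra.trdeg R S := by
  have h1 := trdeg_add_eq R S (A := T)
  have h2 : Algebra.trdeg S T = 0 := trdeg_eq_zero
  rw [← h1, h2, add_zero]

/-- The affine cone over the closure of a point has dimension one more. -/
theorem trdeg_cone {x : σ → N} (hx : x ≠ 0) :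
    Algebra.trdeg K (MvPolynomial σ K ⧸ homIdeal K x) =
      Algebra.trdeg K (ratioField K x) + 1 := by
  classical
  obtain ⟨j0, hj0⟩ := Function.ne_iff.1 hx
  change x j0 ≠ 0 at hj0
  set L := ratioField K x with hL
  let x' : σ → L := fun j => ⟨x j / x j0, div_mem_ratioField x j j0⟩
  have h1 : homIdeal K x' = homIdeal K x := by
    rw [← homIdeal_map L.val x', ← homIdeal_scale x (inv_ne_zero hj0)]
    congr 1
    ext j
    change x j / x j0 = _
    rw [div_eq_mul_inv, mul_comm]
  rw [← h1, homIdeal_eq_ker]
  rw [(Ideal.quotientKerEquivRange (coneMap K x')).trdeg_eq]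
  set S := (coneMap K x').range with hS
  have hX : ∀ j, (Polynomial.C (x' j) * Polynomial.X : Polynomial L) ∈ S := fun j =>
    ⟨MvPolynomial.X j, by
      change coneMap K x' (MvPolynomial.X j) = _
      unfold coneMap
      rw [MvPolynomial.aeval_X]⟩
  have hx'0 : x' j0 = 1 := by
    apply Subtype.ext
    exact div_self hj0
  have hX0 : (Polynomial.X : Polynomial L) ∈ S := by
    have := hX j0
    rwa [hx'0, map_one, one_mul] at this
  have key : ∀ a : N, ∀ ha : a ∈ L,
      IsAlgebraic S (algebraMap (Polynomial L) (RatFunc L) (Polynomial.C ⟨a, ha⟩)) := by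
    intro a ha
    have hmem : ∀ j, IsAlgebraic S (algebraMap (Polynomial L) (RatFunc L)
        (Polynomial.C (x' j))) := by
      intro j
      have e1 : algebraMap (Polynomial L) (RatFunc L) (Polynomial.C (x' j)) =
          algebraMap (Polynomial L) (RatFunc L) (Polynomial.C (x' j) * Polynomial.X) *
          (algebraMap (Polynomial L) (RatFunc L) Polynomial.X)⁻¹ := by
        rw [map_mul, mul_assoc, mul_inv_cancel₀, mul_one]
        exact (map_ne_zero_iff _ (IsFractionRing.injective (Polynomial L) (RatFunc L))).2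
          Polynomial.X_ne_zero
      rw [e1]
      refine IsAlgebraic.mul ?_ (IsAlgebraic.inv ?_)
      · exact isAlgebraic_algebraMap (R := S) (A := RatFunc L) ⟨_, hX j⟩
      · exact isAlgebraic_algebraMap (R := S) (A := RatFunc L) ⟨_, hX0⟩
    have hL' : L = IntermediateField.adjoin K (Set.range fun p : σ × σ => x p.1 / x p.2) := rfl
    revert ha
    have h2 : a ∈ IntermediateField.adjoin K (Set.range fun p : σ × σ => x p.1 / x p.2) →
        ∃ ha : a ∈ L,
          IsAlgebraic S (algebraMap (Polynomial L) (RatFunc L) (Polynomial.C ⟨a, ha⟩)) := by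
      intro ha
      induction ha using IntermediateField.adjoin_induction with
      | mem y hy =>
        obtain ⟨⟨i, j⟩, rfl⟩ := hy
        refine ⟨div_mem_ratioField x i j, ?_⟩
        have e2 : (⟨x i / x j, div_mem_ratioField x i j⟩ : L) = x' i * (x' j)⁻¹ := by
          apply Subtype.ext
          change x i / x j = x i / x j0 * (x j / x j0)⁻¹
          rw [inv_div, div_mul_div_cancel₀ hj0]
        rw [e2]
        have e3 : (Polynomial.C (x' i * (x' j)⁻¹) : Polynomial L) =
            Polynomial.C (x' i) * Polynomial.C (x' j)⁻¹ := map_mul _ _ _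
        rw [e3, map_mul]
        refine IsAlgebraic.mul (hmem i) ?_
        have e4 : algebraMap (Polynomial L) (RatFunc L) (Polynomial.C (x' j)⁻¹) =
            (algebraMap (Polynomial L) (RatFunc L) (Polynomial.C (x' j)))⁻¹ := by
          rw [RatFunc.algebraMap_C, RatFunc.algebraMap_C, map_inv₀]
        rw [e4]
        exact (hmem j).inv
      | algebraMap y =>
        refine ⟨L.algebraMap_mem y, ?_⟩
        have : algebraMap (Polynomial L) (RatFunc L)
            (Polynomial.C ⟨algebraMap K N y, L.algebraMap_mem y⟩) = algebraMap S (RatFunc L)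
              (algebraMap K S y) := rfl
        rw [this]
        exact isAlgebraic_algebraMap _
      | add y z hy hz ihy ihz =>
        obtain ⟨h1, h2⟩ := ihy
        obtain ⟨h3, h4⟩ := ihz
        refine ⟨add_mem h1 h3, ?_⟩
        have : (Polynomial.C (⟨y + z, add_mem h1 h3⟩ : L) : Polynomial L) =
          Polynomial.C ⟨y, h1⟩ + Polynomial.C ⟨z, h3⟩ := by rw [← map_add]; rfl
        rw [this, map_add]
        exact h2.add h4
      | mul y z hy hz ihy ihz =>
        obtain ⟨h1, h2⟩ := ihy
        obtain ⟨h3, h4⟩ := ihz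
        refine ⟨mul_mem h1 h3, ?_⟩
        have : (Polynomial.C (⟨y * z, mul_mem h1 h3⟩ : L) : Polynomial L) =
          Polynomial.C ⟨y, h1⟩ * Polynomial.C ⟨z, h3⟩ := by rw [← map_mul]; rfl
        rw [this, map_mul]
        exact h2.mul h4
      | inv y hy ihy =>
        obtain ⟨h1, h2⟩ := ihy
        refine ⟨inv_mem h1, ?_⟩
        have : algebraMap (Polynomial L) (RatFunc L) (Polynomial.C (⟨y⁻¹, inv_mem h1⟩ : L)) =
            (algebraMap (Polynomial L) (RatFunc L) (Polynomial.C ⟨y, h1⟩))⁻¹ := by
          rw [RatFunc.algebraMap_C, RatFunc.algebraMap_C, ← map_inv₀]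
          rfl
        rw [this]
        exact h2.inv
    intro ha
    exact (h2 ha).2
  have halg : Algebra.IsAlgebraic S (Polynomial L) := by
    constructor
    intro p
    have h3 : IsAlgebraic S (algebraMap (Polynomial L) (RatFunc L) p) := by
      induction p using Polynomial.induction_on' with
      | add p q hp hq => rw [map_add]; exact hp.add hq
      | monomial n a =>
        rw [← Polynomial.C_mul_X_pow_eq_monomial, map_mul, map_pow]
        refine (key a.1 a.2).mul (IsAlgebraic.pow ?_ n)
        exact isAlgebraic_algebraMap (R := S) (A := RatFunc L) ⟨_, hX0⟩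
    exact (isAlgebraic_algebraMap_iff (IsFractionRing.injective (Polynomial L) (RatFunc L))).1 h3
  have : FaithfulSMul K S := inferInstance
  rw [← trdeg_of_isAlgebraic K S (T := Polynomial L), ← trdeg_add_eq K L (A := Polynomial L),
    Polynomial.trdeg_of_isDomain]

end Pool.Agent.HC
end
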