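import Mathlib
import Pool.Agent.Helper16.Place

/- HC.HV1 -/
section
set_option autoImplicit false
set_option linter.style.haveILetI false
set_option linter.unusedSectionVars false

/-! Project HC, part H: Hermitian varieties, the flag parametrisation. -/

namespace Pool.Agent.HC

open Pool.Agent.Helper16 IntermediateField

variable {k : Type} [Field k] {l : ℕ} {κ : Type} [Fintype κ]

/-- The Hermitian form in hyperbolic coordinates, with values in a ring. -/
def hval (q : ℕ) (g : k) {R : Type} [CommRing R] [Algebra k R] (x : Fin l ⊕ Fin l ⊕ κ → R) : R :=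
  ∑ i, (x (Sum.inl i) * x (Sum.inr (Sum.inl i)) ^ q -
    x (Sum.inl i) ^ q * x (Sum.inr (Sum.inl i))) +
      algebraMap k R g * ∑ j, x (Sum.inr (Sum.inr j)) ^ (q + 1)

/-- The Hermitian form in hyperbolic coordinates. -/
noncomputable def hform (l : ℕ) (κ : Type) [Fintype κ] (q : ℕ) (g : k) :
    MvPolynomial (Fin l ⊕ Fin l ⊕ κ) k :=
  hval q g MvPolynomial.X

/-- The parametrisation of the part `X_i = 0` for `i < a`, `X_a = 1`. -/
def psi (q : ℕ) (a : Fin l) {R : Type} [CommRing R] (X v : Fin l → R) (Z : κ → R) :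
    Fin l ⊕ Fin l ⊕ κ → R :=
  Sum.elim (fun i => if i < a then 0 else if i = a then 1 else X i)
    (Sum.elim (fun i => if i < a then v i else
      if i = a then v a + ∑ j ∈ Finset.Ioi a, X j * v j else v i ^ q) Z)

/-- The equation of the Hermitian variety in these parameters. -/
def me (q : ℕ) (g : k) (a : Fin l) {R : Type} [CommRing R] [Algebra k R] (X v : Fin l → R)
    (Z : κ → R) : R :=
  v a ^ q - v a + ∑ j ∈ Finset.Ioi a, X j * (v j ^ (q ^ 2) - v j) +
    algebraMap k R g * ∑ j, Z j ^ (q + 1)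

section ring

variable {R R' : Type} [CommRing R] [CommRing R'] [Algebra k R] [Algebra k R']

theorem hval_map (q : ℕ) (g : k) (φ : R →ₐ[k] R') (x : Fin l ⊕ Fin l ⊕ κ → R) :
    φ (hval q g x) = hval q g (fun j => φ (x j)) := by
  simp [hval]

theorem aeval_hform (q : ℕ) (g : k) (x : Fin l ⊕ Fin l ⊕ κ → R) :
    MvPolynomial.aeval x (hform l κ q g) = hval q g x := by
  unfold hform
  rw [hval_map]
  congr 1
  funext j
  rw [MvPolynomial.aeval_X]

theorem hform_homogeneous (q : ℕ) (g : k) : (hform l κ q g).IsHomogeneous (q + 1) := by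
  unfold hform hval
  refine MvPolynomial.IsHomogeneous.add ?_ ?_
  · refine MvPolynomial.IsHomogeneous.sum _ _ _ fun i _ => ?_
    refine MvPolynomial.IsHomogeneous.sub ?_ ?_
    · have := (MvPolynomial.isHomogeneous_X k (Sum.inl i : Fin l ⊕ Fin l ⊕ κ)).mul
        ((MvPolynomial.isHomogeneous_X k (Sum.inr (Sum.inl i) : Fin l ⊕ Fin l ⊕ κ)).pow q)
      rwa [one_mul, add_comm] at this
    · have := ((MvPolynomial.isHomogeneous_X k (Sum.inl i : Fin l ⊕ Fin l ⊕ κ)).pow q).mul
        (MvPolynomial.isHomogeneous_X k (Sum.inr (Sum.inl i) : Fin l ⊕ Fin l ⊕ κ))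
      rwa [one_mul] at this
  · rw [MvPolynomial.algebraMap_eq]
    refine MvPolynomial.IsHomogeneous.C_mul ?_ g
    refine MvPolynomial.IsHomogeneous.sum _ _ _ fun i _ => ?_
    have := (MvPolynomial.isHomogeneous_X k (Sum.inr (Sum.inr i) : Fin l ⊕ Fin l ⊕ κ)).pow (q + 1)
    rwa [one_mul] at this

theorem psi_map (q : ℕ) (a : Fin l) (φ : R →+* R') (X v : Fin l → R) (Z : κ → R)
    (j : Fin l ⊕ Fin l ⊕ κ) :
    φ (psi q a X v Z j) = psi q a (fun i => φ (X i)) (fun i => φ (v i)) (fun i => φ (Z i)) j := by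
  rcases j with i | i | i
  · simp only [psi, Sum.elim_inl]
    split_ifs <;> simp
  · simp only [psi, Sum.elim_inl, Sum.elim_inr]
    split_ifs <;> simp
  · simp [psi]

theorem me_map (q : ℕ) (g : k) (a : Fin l) (φ : R →ₐ[k] R') (X v : Fin l → R) (Z : κ → R) :
    φ (me q g a X v Z) = me q g a (fun i => φ (X i)) (fun i => φ (v i)) (fun i => φ (Z i)) := by
  simp [me]

theorem psi_X_lt (q : ℕ) (a : Fin l) (X v : Fin l → R) (Z : κ → R) {i : Fin l} (hi : i < a) :
    psi q a X v Z (Sum.inl i) = 0 := by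
  simp [psi, hi]

theorem psi_X_self (q : ℕ) (a : Fin l) (X v : Fin l → R) (Z : κ → R) :
    psi q a X v Z (Sum.inl a) = 1 := by
  simp [psi]

theorem psi_X_gt (q : ℕ) (a : Fin l) (X v : Fin l → R) (Z : κ → R) {i : Fin l} (hi : a < i) :
    psi q a X v Z (Sum.inl i) = X i := by
  simp [psi, hi.not_gt, hi.ne']

theorem psi_Y_lt (q : ℕ) (a : Fin l) (X v : Fin l → R) (Z : κ → R) {i : Fin l} (hi : i < a) :
    psi q a X v Z (Sum.inr (Sum.inl i)) = v i := by
  simp [psi, hi]

theorem psi_Y_self (q : ℕ) (a : Fin l) (X v : Fin l → R) (Z : κ → R) :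
    psi q a X v Z (Sum.inr (Sum.inl a)) = v a + ∑ j ∈ Finset.Ioi a, X j * v j := by
  simp [psi]

theorem psi_Y_gt (q : ℕ) (a : Fin l) (X v : Fin l → R) (Z : κ → R) {i : Fin l} (hi : a < i) :
    psi q a X v Z (Sum.inr (Sum.inl i)) = v i ^ q := by
  simp [psi, hi.not_gt, hi.ne']

theorem psi_Z (q : ℕ) (a : Fin l) (X v : Fin l → R) (Z : κ → R) (i : κ) :
    psi q a X v Z (Sum.inr (Sum.inr i)) = Z i := by
  simp [psi]

/-- The form on the parametrised points. -/
theorem hval_psi {p f : ℕ} [hp : Fact p.Prime] [CharP R p] (g : k) (a : Fin l)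
    (X v : Fin l → R) (Z : κ → R) :
    hval (p ^ f) g (psi (p ^ f) a X v Z) = me (p ^ f) g a X v Z := by
  have hq : 0 < p ^ f := pow_pos hp.out.pos f
  unfold hval me
  congr 1
  · have h1 : ∀ i, psi (p ^ f) a X v Z (Sum.inl i) *
        psi (p ^ f) a X v Z (Sum.inr (Sum.inl i)) ^ (p ^ f) -
        psi (p ^ f) a X v Z (Sum.inl i) ^ (p ^ f) * psi (p ^ f) a X v Z (Sum.inr (Sum.inl i)) =
        (if i = a then v a ^ (p ^ f) - v a + ∑ j ∈ Finset.Ioi a,
          (X j ^ (p ^ f) * v j ^ (p ^ f) - X j * v j) else 0) +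
        (if a < i then X i * v i ^ ((p ^ f) ^ 2) - X i ^ (p ^ f) * v i ^ (p ^ f) else 0) := by
      intro i
      rcases lt_trichotomy i a with hi | rfl | hi
      · rw [psi_X_lt _ _ _ _ _ hi, if_neg hi.ne, if_neg hi.not_gt, zero_pow hq.ne']
        ring
      · rw [psi_X_self, psi_Y_self, if_pos rfl, if_neg (lt_irrefl i), add_pow_char_pow,
          sum_pow_char_pow, Finset.sum_sub_distrib]
        simp only [mul_pow, one_pow]
        ring
      · rw [psi_X_gt _ _ _ _ _ hi, psi_Y_gt _ _ _ _ _ hi, if_neg hi.ne', if_pos hi, ← pow_mul,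
          ← sq]
        ring
    rw [Finset.sum_congr rfl fun i _ => h1 i, Finset.sum_add_distrib, Finset.sum_ite_eq']
    rw [if_pos (Finset.mem_univ a), ← Finset.sum_filter]
    have h2 : Finset.univ.filter (fun i => a < i) = Finset.Ioi a := by
      ext i
      simp
    rw [h2, add_assoc, ← Finset.sum_add_distrib]
    congr 1
    refine Finset.sum_congr rfl fun j _ => ?_
    ring

end ring

end Pool.Agent.HC
end
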