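import Mathlib
import Pool.Agent.Helper16.Place

/- HC.HS2 -/
section
set_option autoImplicit false
set_option linter.style.haveILetI false
set_option linter.unusedSectionVars false

/-! Project HC, part C1: the place of a prime element. -/

namespace Pool.Agent.HC

open Pool.Agent.Helper16 IntermediateField IsDedekindDomain

/-- The place attached to a prime element of a noetherian domain. -/
theorem exists_place_of_prime {k A N : Type} [Field k] [CommRing A] [IsDomain A]
    [IsNoetherianRing A] [Algebra k A] [Field N] [Algebra A N] [IsFractionRing A N] [Algebra k N]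
    [IsScalarTower k A N] (h : A) (hp : Prime h) :
    ∃ v : Place k N, ∀ a : A, v.val (algebraMap A N a) ≤ 1 ∧
      (v.val (algebraMap A N a) < 1 ↔ h ∣ a) := by
  haveI hP : (Ideal.span {h}).IsPrime := (Ideal.span_singleton_prime hp.ne_zero).2 hp
  let P : Ideal A := Ideal.span {h}
  let R := Localization.AtPrime P
  have hle : P.primeCompl ≤ nonZeroDivisors A := P.primeCompl_le_nonZeroDivisors
  letI : Algebra R N := IsLocalization.localizationAlgebraOfSubmonoidLe R N P.primeCompl _ hle
  haveI : IsScalarTower A R N :=
    IsLocalization.localization_isScalarTower_of_submonoid_le R N P.primeCompl _ hle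
  haveI : IsDomain R := IsLocalization.isDomain_localization hle
  haveI : IsNoetherianRing R := IsLocalization.isNoetherianRing P.primeCompl R inferInstance
  haveI : IsFractionRing R N :=
    IsFractionRing.isFractionRing_of_isDomain_of_isLocalization P.primeCompl R N
  have hmax : IsLocalRing.maximalIdeal R = Ideal.span {algebraMap A R h} := by
    rw [← Localization.AtPrime.map_eq_maximalIdeal (I := P), Ideal.map_span, Set.image_singleton]
  have hinj : Function.Injective (algebraMap A R) := IsLocalization.injective R hle
  have hnf : ¬ IsField R := by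
    intro hf
    have h1 := (IsLocalRing.isField_iff_maximalIdeal_eq).1 hf
    rw [hmax, Ideal.span_singleton_eq_bot] at h1
    exact hp.ne_zero (hinj (by rw [h1, map_zero]))
  have hpr : (IsLocalRing.maximalIdeal R).IsPrincipal := ⟨⟨algebraMap A R h, hmax⟩⟩
  haveI : IsDiscreteValuationRing R :=
    ((IsDiscreteValuationRing.TFAE R hnf).out 0 4 :
      IsDiscreteValuationRing R ↔ (IsLocalRing.maximalIdeal R).IsPrincipal).2 hpr
  let M := IsDiscreteValuationRing.maximalIdeal R
  have hmem : ∀ a : A, algebraMap A R a ∈ M.asIdeal ↔ h ∣ a := by
    intro a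
    change algebraMap A R a ∈ IsLocalRing.maximalIdeal R ↔ _
    rw [IsLocalization.AtPrime.to_map_mem_maximal_iff R P a, Ideal.mem_span_singleton]
  refine ⟨{ val := M.valuation N
            surj := M.valuation_surjective N
            triv := ?_ }, ?_⟩
  · intro c hc
    have h1 : algebraMap k N c = algebraMap R N (algebraMap A R (algebraMap k A c)) := by
      rw [← IsScalarTower.algebraMap_apply, ← IsScalarTower.algebraMap_apply]
    rw [h1]
    refine le_antisymm (M.valuation_le_one _) ?_
    rw [← not_lt, M.valuation_lt_one_iff_mem, hmem]
    intro hdvd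
    have hu : IsUnit (algebraMap k A c) := (isUnit_iff_ne_zero.2 hc).map _
    exact hp.not_unit (isUnit_of_dvd_unit hdvd hu)
  · intro a
    change M.valuation N (algebraMap A N a) ≤ 1 ∧ (M.valuation N (algebraMap A N a) < 1 ↔ _)
    rw [IsScalarTower.algebraMap_apply A R N]
    exact ⟨M.valuation_le_one _, by rw [M.valuation_lt_one_iff_mem, hmem]⟩

end Pool.Agent.HC
end
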