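import Mathlib
import Pool.Agent.Helper16.Place
import Pool.Agent.Helper16.DPG.G01

/- Helper16.FF1 -/
section
set_option autoImplicit false
set_option linter.style.haveILetI false

namespace Pool.Agent.Helper16

open Polynomial IntermediateField

section Setup

/-- `N` as a `K[X]`-algebra via `X ↦ s`. -/
@[reducible] noncomputable def algX (K : Type) {N : Type} [Field K] [Field N] [Algebra K N] (s : N) :
    Algebra K[X] N := (aeval s : K[X] →ₐ[K] N).toRingHom.toAlgebra

/-- `K(s)` as a `K[X]`-algebra via `X ↦ s`. -/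
@[reducible] noncomputable def algXF (K : Type) {N : Type} [Field K] [Field N] [Algebra K N] (s : N) :
    Algebra K[X] K⟮s⟯ := (aeval (AdjoinSimple.gen K s) : K[X] →ₐ[K] K⟮s⟯).toRingHom.toAlgebra

variable {K N : Type} [Field K] [Field N] [Algebra K N]

theorem algX_apply (s : N) (p : K[X]) : @algebraMap K[X] N _ _ (algX K s) p = aeval s p := rfl

theorem algXF_apply (s : N) (p : K[X]) : (@algebraMap K[X] K⟮s⟯ _ _ (algXF K s) p : N) = aeval s p := by
  change ((aeval (AdjoinSimple.gen K s) p : K⟮s⟯) : N) = aeval s p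
  have := aeval_algebraMap_apply N (AdjoinSimple.gen K s) p
  rw [AdjoinSimple.algebraMap_gen] at this
  exact this.symm

theorem towerXF (s : N) : @IsScalarTower K[X] K⟮s⟯ N (algXF K s).toSMul _ (algX K s).toSMul := by
  letI := algXF K s
  letI := algX K s
  refine IsScalarTower.of_algebraMap_eq fun p => ?_
  rw [algX_apply]
  exact (algXF_apply s p).symm

theorem towerX (s : N) : @IsScalarTower K K[X] N _ (algX K s).toSMul _ := by
  letI := algX K s
  refine IsScalarTower.of_algebraMap_eq fun p => ?_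
  rw [algX_apply]
  simp

theorem faithfulX (s : N) (hs : Transcendental K s) : @FaithfulSMul K[X] N (algX K s).toSMul := by
  letI := algX K s
  rw [faithfulSMul_iff_algebraMap_injective]
  exact transcendental_iff_injective.1 hs

theorem isFractionRing_algXF (s : N) (hs : Transcendental K s) :
    @IsFractionRing K[X] _ K⟮s⟯ _ (algXF K s) := by
  letI := algXF K s
  letI := algX K s
  haveI := towerXF (K := K) s
  haveI : FaithfulSMul K[X] K⟮s⟯ := by
    rw [faithfulSMul_iff_algebraMap_injective]
    intro p q h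
    apply transcendental_iff_injective.1 hs
    rw [← algXF_apply, ← algXF_apply, h]
  refine IsFractionRing.of_field K[X] K⟮s⟯ fun z => ?_
  obtain ⟨p, q, h⟩ := (mem_adjoin_simple_iff K (z : N)).1 z.2
  refine ⟨p, q, ?_⟩
  apply Subtype.ext
  rw [h]
  simp only [IntermediateField.coe_div, algXF_apply]

end Setup

end Pool.Agent.Helper16
end

/- Helper16.FF2 -/
section
set_option autoImplicit false
set_option linter.style.haveILetI false

namespace Pool.Agent.Helper16

open Polynomial IntermediateField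

section IntOver

variable {K N : Type} [Field K] [Field N] [Algebra K N]

/-- `x` is integral over `K[s]`. -/
def IntOver (K : Type) {N : Type} [Field K] [Field N] [Algebra K N] (s x : N) : Prop :=
  (aeval s : K[X] →ₐ[K] N).toRingHom.IsIntegralElem x

theorem intOver_iff (s x : N) : IntOver K s x ↔ @IsIntegral K[X] N _ _ (algX K s) x := Iff.rfl

theorem IntOver.add {s x y : N} (hx : IntOver K s x) (hy : IntOver K s y) : IntOver K s (x + y) := by
  letI := algX K s
  exact IsIntegral.add (R := K[X]) hx hy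

theorem IntOver.mul {s x y : N} (hx : IntOver K s x) (hy : IntOver K s y) : IntOver K s (x * y) := by
  letI := algX K s
  exact IsIntegral.mul (R := K[X]) hx hy

theorem IntOver.aeval_mem (s : N) (p : K[X]) : IntOver K s (aeval s p) := by
  letI := algX K s
  exact isIntegral_algebraMap (R := K[X]) (A := N) (x := p)

theorem IntOver.self (s : N) : IntOver K s s := by
  simpa using IntOver.aeval_mem (K := K) s X

theorem IntOver.const (s : N) (a : K) : IntOver K s (algebraMap K N a) := by
  simpa using IntOver.aeval_mem (K := K) s (C a)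

theorem IntOver.zero (s : N) : IntOver K s 0 := by
  simpa using IntOver.const (K := K) s 0

theorem IntOver.smul {s x : N} (a : K) (hx : IntOver K s x) : IntOver K s (a • x) := by
  rw [Algebra.smul_def]
  exact (IntOver.const s a).mul hx

theorem IntOver.pow {s x : N} (hx : IntOver K s x) (n : ℕ) : IntOver K s (x ^ n) := by
  letI := algX K s
  exact IsIntegral.pow (R := K[X]) hx n

theorem IntOver.of_isIntegral {s x : N} (hx : IsIntegral K x) : IntOver K s x := by
  letI := algX K s
  haveI := towerX (K := K) s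
  exact IsIntegral.tower_top (R := K) (A := K[X]) hx

theorem IntOver.mem_valuationSubring {s x : N} (hx : IntOver K s x) (V : ValuationSubring N)
    (hK : ∀ a : K, algebraMap K N a ∈ V) (hs : s ∈ V) : x ∈ V := by
  have hmem : ∀ p : K[X], aeval s p ∈ V := by
    intro p
    induction p using Polynomial.induction_on' with
    | add p q hp hq => rw [map_add]; exact V.add_mem _ _ hp hq
    | monomial n a =>
      rw [aeval_monomial]
      exact V.mul_mem _ _ (hK a) (V.toSubring.pow_mem hs n)
  let g : K[X] →+* V := RingHom.codRestrict (aeval s : K[X] →ₐ[K] N).toRingHom V hmem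
  have hcomp : ((algebraMap V N).comp g) = (aeval s : K[X] →ₐ[K] N).toRingHom := by
    ext <;> rfl
  have h1 : (algebraMap V N).IsIntegralElem x := by
    apply RingHom.IsIntegralElem.of_comp (f := g)
    rw [hcomp]
    exact hx
  obtain ⟨y, hy⟩ := IsIntegrallyClosed.isIntegral_iff.1 (show IsIntegral V x from h1)
  rw [← hy]
  exact y.2

/-- An element integral over both `K[s]` and `K[s⁻¹]` is algebraic over `K`. -/
theorem isIntegral_of_intOver_of_intOver_inv {s x : N} (h1 : IntOver K s x)
    (h2 : IntOver K s⁻¹ x) : IsIntegral K x := by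
  have key : x ∈ (integralClosure (Subring.closure (Set.range (algebraMap K N))) N).toSubring := by
    rw [← iInf_valuationSubring_superset]
    rw [Subring.mem_iInf]
    rintro ⟨V, hV⟩
    have hK : ∀ a : K, algebraMap K N a ∈ V := fun a => hV ⟨a, rfl⟩
    rcases V.mem_or_inv_mem s with hs | hs
    · exact h1.mem_valuationSubring V hK hs
    · exact h2.mem_valuationSubring V hK hs
  have h3 : IsIntegral (Subring.closure (Set.range (algebraMap K N))) x := key
  have hcl : ∀ y : Subring.closure (Set.range (algebraMap K N)), ∃ a : K, algebraMap K N a = y := by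
    intro y
    have : Subring.closure (Set.range (algebraMap K N)) ≤ (algebraMap K N).range := by
      rw [Subring.closure_le]
      rintro _ ⟨a, rfl⟩
      exact ⟨a, rfl⟩
    exact this y.2
  obtain ⟨p, hp, hp0⟩ := h3
  have hinj : Function.Injective (algebraMap K N) := (algebraMap K N).injective
  choose c hc using hcl
  let g : (Subring.closure (Set.range (algebraMap K N))) →+* K :=
    { toFun := c
      map_one' := hinj (by rw [hc]; simp)
      map_mul' := fun a b => hinj (by rw [map_mul, hc, hc, hc]; simp)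
      map_zero' := hinj (by rw [hc]; simp)
      map_add' := fun a b => hinj (by rw [map_add, hc, hc, hc]; simp) }
  have hg : (algebraMap K N).comp g = algebraMap (Subring.closure (Set.range (algebraMap K N))) N := by
    ext y
    exact hc y
  have h4 : (algebraMap K N).IsIntegralElem x := by
    apply RingHom.IsIntegralElem.of_comp (f := g)
    rw [hg]
    exact ⟨p, hp, hp0⟩
  exact h4

theorem not_intOver_inv {t : N} (ht : Transcendental K t) : ¬ IntOver K t t⁻¹ := by
  intro h
  letI := algX K t
  letI := algXF K t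
  haveI := towerXF (K := K) t
  haveI := isFractionRing_algXF t ht
  have h1 : @IsIntegral K[X] N _ _ _ t⁻¹ := h
  have h2 : @IsIntegral K[X] K⟮t⟯ _ _ _ (AdjoinSimple.gen K t)⁻¹ := by
    rw [← isIntegral_algebraMap_iff (algebraMap K⟮t⟯ N).injective]
    rw [map_inv₀, AdjoinSimple.algebraMap_gen]
    exact h1
  obtain ⟨p, hp⟩ := IsIntegrallyClosed.isIntegral_iff.1 h2
  have h3 : (aeval t p : N) = t⁻¹ := by
    rw [← algXF_apply, hp]
    simp
  have ht0 : t ≠ 0 := by
    rintro rfl
    exact ht (isAlgebraic_zero)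
  have h4 : aeval t (p * X - 1 : K[X]) = 0 := by
    simp [h3, ht0]
  have h5 : p * X - 1 = 0 := by
    by_contra hne
    exact ht ⟨_, hne, h4⟩
  have h6 := congrArg (Polynomial.eval 0) h5
  simp at h6

/-- Key injectivity: if `b` is integral over `K[s]` and `s * b` is integral over `K[s⁻¹]`
then `b = 0`. -/
theorem eq_zero_of_intOver {s b : N} (hs : Transcendental K s) (h1 : IntOver K s b)
    (h2 : IntOver K s⁻¹ (s * b)) : b = 0 := by
  have hs0 : s ≠ 0 := by
    rintro rfl
    exact hs (isAlgebraic_zero)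
  have hsinv : Transcendental K s⁻¹ := by
    intro h
    apply hs
    simpa using IsAlgebraic.inv h
  have h3 : IntOver K s⁻¹ b := by
    have := (IntOver.self (K := K) s⁻¹).mul h2
    rwa [← mul_assoc, inv_mul_cancel₀ hs0, one_mul] at this
  have h4 : IsIntegral K b := isIntegral_of_intOver_of_intOver_inv h1 h3
  by_contra hb
  have h5 : IntOver K s⁻¹ b⁻¹ := IntOver.of_isIntegral h4.inv
  have h6 := h2.mul h5
  rw [mul_assoc, mul_inv_cancel₀ hb, mul_one] at h6
  apply not_intOver_inv hsinv
  rwa [inv_inv]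

end IntOver

end Pool.Agent.Helper16
end

/- Helper16.FF3 -/
section
set_option autoImplicit false
set_option linter.style.haveILetI false

namespace Pool.Agent.Helper16

open Polynomial IntermediateField

section Claim3

variable {K N : Type} [Field K] [Field N] [Algebra K N]

theorem card_le_of_indep_mod {ι : Type} [Fintype ι] (t : N) (ht : Transcendental K t)
    [FiniteDimensional K⟮t⟯ N] (m : ℕ) (β : ι → N) (hβ : ∀ i, IntOver K t (β i))
    (hind : ∀ c : ι → K, ∀ y : N, IntOver K t y → ∑ i, c i • β i = t ^ m * y → c = 0) :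
    Fintype.card ι ≤ Module.finrank K⟮t⟯ N * m := by
  classical
  letI := algX K t
  letI := algXF K t
  haveI := towerXF (K := K) t
  haveI := towerX (K := K) t
  haveI := isFractionRing_algXF t ht
  haveI := faithfulX t ht
  let M : Submodule K[X] N := Submodule.span K[X] (Set.range β)
  haveI : Module.Finite K[X] M := Module.Finite.span_of_finite K[X] (Set.finite_range β)
  haveI : Module.IsTorsionFree K[X] N := inferInstance
  haveI : Module.Free K[X] M := inferInstance
  let b := Module.Free.chooseBasis K[X] M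
  let J := Module.Free.ChooseBasisIndex K[X] M
  have hJ : Fintype.card J ≤ Module.finrank K⟮t⟯ N := by
    have h1 : LinearIndependent K[X] (fun j => (b j : N)) := by
      have := b.linearIndependent
      exact this.map' M.subtype (Submodule.ker_subtype M)
    have h2 : LinearIndependent K⟮t⟯ (fun j => (b j : N)) :=
      (LinearIndependent.iff_fractionRing K[X] K⟮t⟯).1 h1
    exact h2.fintype_card_le_finrank
  have hMint : ∀ y ∈ M, IntOver K t y := by
    intro y hy
    have : M ≤ Subalgebra.toSubmodule (integralClosure K[X] N) := by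
      rw [Submodule.span_le]
      rintro _ ⟨i, rfl⟩
      exact hβ i
    exact this hy
  have hβM : ∀ i, β i ∈ M := fun i => Submodule.subset_span ⟨i, rfl⟩
  let β' : ι → M := fun i => ⟨β i, hβM i⟩
  let T : (ι → K) →ₗ[K] (J → Fin m → K) :=
    LinearMap.pi fun j => LinearMap.pi fun l =>
      (Polynomial.lcoeff K l.val) ∘ₗ
        (((Finsupp.lapply (R := K[X]) j ∘ₗ b.repr.toLinearMap).restrictScalars K) ∘ₗ
          Fintype.linearCombination K β')
  have hTa : ∀ c j l, T c j l = (b.repr (∑ i, c i • β' i) j).coeff l.val := by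
    intro c j l
    rfl
  have hT : Function.Injective T := by
    rw [injective_iff_map_eq_zero]
    intro c hc
    have h1 : ∀ j, X ^ m ∣ b.repr (∑ i, c i • β' i) j := by
      intro j
      rw [Polynomial.X_pow_dvd_iff]
      intro l hl
      have := congrFun (congrFun hc j) ⟨l, hl⟩
      rw [hTa] at this
      exact this
    choose q hq using h1
    let y : M := ∑ j, q j • b j
    have h2 : ∑ i, c i • β' i = (X ^ m : K[X]) • y := by
      rw [← b.sum_repr (∑ i, c i • β' i), Finset.smul_sum]
      refine Finset.sum_congr rfl fun j _ => ?_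
      rw [hq j, mul_smul]
    refine hind c y (hMint y y.2) ?_
    have h4 : ∑ i, c i • β i = ((∑ i, c i • β' i : M) : N) := by
      rw [AddSubmonoidClass.coe_finsetSum]
      rfl
    rw [h4, h2, Submodule.coe_smul, Algebra.smul_def, algX_apply]
    simp
  have h := LinearMap.finrank_le_finrank_of_injective hT
  simp only [Module.finrank_fintype_fun_eq_card, Module.finrank_pi_fintype, Finset.sum_const,
    Finset.card_univ, smul_eq_mul, Fintype.card_fin] at h
  calc Fintype.card ι ≤ Fintype.card J * m := h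
    _ ≤ _ := Nat.mul_le_mul_right _ hJ

end Claim3

end Pool.Agent.Helper16
end

/- Helper16.FF4 -/
section
set_option autoImplicit false
set_option linter.style.haveILetI false

namespace Pool.Agent.Helper16

open Polynomial IntermediateField

section Fin

variable {K N : Type} [Field K] [Field N] [Algebra K N]

theorem intOver_of_monic {t y : N} (P : N[X]) (hP : P.Monic) (hc : ∀ j, IntOver K t (P.coeff j))
    (hy : P.eval y = 0) : IntOver K t y := by
  letI := algX K t
  let C := integralClosure K[X] N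
  have hl : P ∈ Polynomial.lifts (algebraMap C N) := by
    rw [Polynomial.lifts_iff_coeff_lifts]
    intro j
    exact ⟨⟨P.coeff j, hc j⟩, rfl⟩
  obtain ⟨Q, hQ, -, hQm⟩ := Polynomial.lifts_and_natDegree_eq_and_monic hl hP
  have h1 : IsIntegral C y := by
    refine ⟨Q, hQm, ?_⟩
    rw [← Polynomial.eval_map, hQ, hy]
  exact isIntegral_trans (R := K[X]) (A := C) y h1

theorem intOver_inv_aeval_mul {s : N} (hs0 : s ≠ 0) (a : K[X]) (e : ℕ) (he : a.natDegree ≤ e) :
    IntOver K s⁻¹ (aeval s a * s⁻¹ ^ e) := by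
  rw [Polynomial.aeval_eq_sum_range' (n := e + 1) (by omega), Finset.sum_mul]
  refine Finset.sum_induction _ (fun x => IntOver K s⁻¹ x) (fun _ _ => IntOver.add)
    (IntOver.zero _) ?_
  intro i hi
  rw [Finset.mem_range] at hi
  have h1 : a.coeff i • s ^ i * s⁻¹ ^ e = a.coeff i • (s⁻¹ ^ (e - i)) := by
    rw [smul_mul_assoc]
    congr 1
    have : e = i + (e - i) := by omega
    rw [this, pow_add, ← mul_assoc, ← mul_pow, mul_inv_cancel₀ hs0, one_pow, one_mul]
    congr 1
    omega
  rw [h1]
  exact ((IntOver.self _).pow _).smul _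

theorem exists_twist {s x : N} (hs0 : s ≠ 0) (hx : IntOver K s x) :
    ∃ e : ℕ, ∀ e', e ≤ e' → IntOver K s⁻¹ (s⁻¹ ^ e' * x) := by
  obtain ⟨P, hP, hP0⟩ := hx
  let e := P.support.sup (fun j => (P.coeff j).natDegree)
  have he : ∀ j, (P.coeff j).natDegree ≤ e := by
    intro j
    by_cases hj : j ∈ P.support
    · exact Finset.le_sup (f := fun j => (P.coeff j).natDegree) hj
    · rw [Polynomial.notMem_support_iff.1 hj]; simp
  have main : IntOver K s⁻¹ (s⁻¹ ^ e * x) := by
    let P' : N[X] := P.map (aeval s : K[X] →ₐ[K] N).toRingHom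
    have hP' : P'.Monic := hP.map _
    refine intOver_of_monic (scaleRoots P' (s⁻¹ ^ e)) ?_ ?_ ?_
    · exact (monic_scaleRoots_iff _).2 hP'
    · intro j
      rw [coeff_scaleRoots]
      rcases lt_trichotomy j P'.natDegree with hj | hj | hj
      · obtain ⟨k, hk⟩ : ∃ k, P'.natDegree - j = k + 1 := ⟨P'.natDegree - j - 1, by omega⟩
        rw [hk, pow_succ, mul_comm ((s⁻¹ ^ e) ^ k), ← mul_assoc]
        refine IntOver.mul ?_ (((IntOver.self _).pow _).pow _)
        rw [Polynomial.coeff_map]
        exact intOver_inv_aeval_mul hs0 _ _ (he j)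
      · rw [hj, hP'.coeff_natDegree, Nat.sub_self, pow_zero, one_mul]
        simpa using IntOver.const (K := K) s⁻¹ 1
      · rw [coeff_eq_zero_of_natDegree_lt hj, zero_mul]
        exact IntOver.zero _
    · have h0 : P'.eval x = 0 := by
        rw [Polynomial.eval_map]; exact hP0
      have := scaleRoots_eval₂_mul (f := RingHom.id N) (p := P') (r := x) (s := s⁻¹ ^ e)
      simp only [RingHom.id_apply, eval₂_id] at this
      rw [this, h0, mul_zero]
  refine ⟨e, fun e' he' => ?_⟩
  obtain ⟨d, rfl⟩ := Nat.exists_eq_add_of_le he'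
  rw [pow_add, mul_comm (s⁻¹ ^ e), mul_assoc]
  exact ((IntOver.self _).pow _).mul main

theorem transcendental_ne_zero {s : N} (hs : Transcendental K s) : s ≠ 0 := by
  rintro rfl
  exact hs isAlgebraic_zero

theorem transcendental_inv {s : N} (hs : Transcendental K s) : Transcendental K s⁻¹ := by
  intro h
  apply hs
  simpa using IsAlgebraic.inv h

theorem adjoin_inv_eq (s : N) : K⟮s⁻¹⟯ = K⟮s⟯ := by
  apply le_antisymm
  · rw [adjoin_simple_le_iff]
    exact inv_mem (mem_adjoin_simple_self K s)
  · rw [adjoin_simple_le_iff]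
    have := inv_mem (mem_adjoin_simple_self K s⁻¹)
    rwa [inv_inv] at this

theorem finrank_inv (s : N) : Module.finrank K⟮s⁻¹⟯ N = Module.finrank K⟮s⟯ N := by
  rw [adjoin_inv_eq]

theorem finiteDimensional_inv (s : N) [h : FiniteDimensional K⟮s⟯ N] :
    FiniteDimensional K⟮s⁻¹⟯ N := by
  rw [adjoin_inv_eq]; exact h

/-- The integral closure of `K[s]` in a finite extension of `K(s)` is a finite module. -/
theorem finite_integralClosure (s : N) (hs : Transcendental K s) [FiniteDimensional K⟮s⟯ N] :
    @Module.Finite K[X] (@integralClosure K[X] N _ _ (algX K s)) _ _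
      (@Algebra.toModule _ _ _ _ (@Subalgebra.algebra _ _ _ _ (algX K s) _)) := by
  classical
  letI := algX K s
  letI := algXF K s
  haveI := towerXF (K := K) s
  haveI := towerX (K := K) s
  haveI := isFractionRing_algXF s hs
  haveI := faithfulX s hs
  haveI := finiteDimensional_inv (K := K) s
  have hs0 := transcendental_ne_zero hs
  obtain ⟨S, ω, hω⟩ := FiniteDimensional.exists_is_basis_integral K[X] K⟮s⟯ N
  let B := integralClosure K[X] N
  let ω' : S → B := fun i => ⟨ω i, hω i⟩
  let B₀ : Submodule K[X] B := Submodule.span K[X] (Set.range ω')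
  haveI : Module.Finite K[X] B₀ := Module.Finite.span_of_finite K[X] (Set.finite_range ω')
  have hcardS : Fintype.card S = Module.finrank K⟮s⟯ N := (Module.finrank_eq_card_basis ω).symm
  -- uniform twist for the basis
  choose e he using fun i => exists_twist hs0 (show IntOver K s (ω i) from hω i)
  let E := Finset.univ.sup e
  have hE : ∀ i, IntOver K s⁻¹ (s⁻¹ ^ E * ω i) := fun i =>
    he i E (Finset.le_sup (Finset.mem_univ i))
  haveI : Module.Finite K (B ⧸ B₀) := by
    have hr : Module.rank K (B ⧸ B₀) ≤ ((Module.finrank K⟮s⟯ N * E : ℕ) : Cardinal) := by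
      apply rank_le
      intro T hT
      let bj : T → B := fun j => (B₀.mkQ_surjective j.1).choose
      have hbj : ∀ j, B₀.mkQ (bj j) = j.1 := fun j => (B₀.mkQ_surjective j.1).choose_spec
      choose c hc using fun j => exists_twist hs0 (show IntOver K s ((bj j : B) : N) from (bj j).2)
      let M := Finset.univ.sup c
      let D := M + E
      have hD : ∀ j, IntOver K s⁻¹ (s⁻¹ ^ D * ((bj j : B) : N)) := fun j =>
        hc j D ((Finset.le_sup (Finset.mem_univ j)).trans (Nat.le_add_right M E))
      let γ : (S × Fin (M + 1)) ⊕ T → N := Sum.elim (fun x => s ^ x.2.val * ω x.1) (fun j => (bj j : N))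
      have hγ : ∀ x, IntOver K s (γ x) := by
        rintro (⟨i, a⟩ | j)
        · exact ((IntOver.self s).pow _).mul (hω i)
        · exact (bj j).2
      have hcard := card_le_of_indep_mod (K := K) s⁻¹ (transcendental_inv hs) (D + 1)
        (fun x => s⁻¹ ^ D * γ x) (by
          rintro (⟨i, a⟩ | j)
          · change IntOver K s⁻¹ (s⁻¹ ^ D * (s ^ a.val * ω i))
            have h1 : s⁻¹ ^ D * (s ^ a.val * ω i) = s⁻¹ ^ (M - a.val) * (s⁻¹ ^ E * ω i) := by
              have h2 : D = (M - a.val) + E + a.val := by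
                have := a.isLt
                omega
              rw [h2, pow_add, pow_add]
              have h3 : s⁻¹ ^ a.val * s ^ a.val = 1 := by
                rw [← mul_pow, inv_mul_cancel₀ hs0, one_pow]
              linear_combination (s⁻¹ ^ (M - a.val) * s⁻¹ ^ E * ω i) * h3
            rw [h1]
            exact ((IntOver.self _).pow _).mul (hE i)
          · exact hD j) (by
          intro d y hy hd
          have h1 : ∑ x, d x • (s⁻¹ ^ D * γ x) = s⁻¹ ^ D * ∑ x, d x • γ x := by
            rw [Finset.mul_sum]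
            refine Finset.sum_congr rfl fun x _ => ?_
            rw [mul_smul_comm]
          rw [h1, pow_succ, mul_assoc] at hd
          have h2 : ∑ x, d x • γ x = s⁻¹ * y :=
            mul_left_cancel₀ (pow_ne_zero D (inv_ne_zero hs0)) hd
          have h3 : ∑ x, d x • γ x = 0 := by
            apply eq_zero_of_intOver (K := K) hs
            · exact Finset.sum_induction _ (fun x => IntOver K s x) (fun _ _ => IntOver.add)
                (IntOver.zero _) (fun x _ => (hγ x).smul _)
            · rw [h2, ← mul_assoc, mul_inv_cancel₀ hs0, one_mul]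
              exact hy
          rw [Fintype.sum_sum_type] at h3
          -- reduce modulo B₀
          let z : B := ∑ x : S × Fin (M + 1), (C (d (Sum.inl x)) * X ^ x.2.val : K[X]) • ω' x.1
          have hz : z ∈ B₀ := Submodule.sum_mem _ fun x _ =>
            Submodule.smul_mem _ _ (Submodule.subset_span ⟨x.1, rfl⟩)
          have hzN : (z : N) = ∑ x : S × Fin (M + 1), d (Sum.inl x) • γ (Sum.inl x) := by
            simp only [z, AddSubmonoidClass.coe_finsetSum]
            refine Finset.sum_congr rfl fun x _ => ?_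
            rw [Subalgebra.coe_smul, Algebra.smul_def, algX_apply]
            simp only [map_mul, aeval_C, map_pow, aeval_X, Algebra.smul_def, ω', γ, Sum.elim_inl]
            ring
          have h4 : z + ∑ j, d (Sum.inr j) • bj j = 0 := by
            apply Subtype.ext
            rw [AddMemClass.coe_add, hzN, AddSubmonoidClass.coe_finsetSum]
            exact h3
          have h5 : ∑ j : T, d (Sum.inr j) • (j : B ⧸ B₀) = 0 := by
            have h6 := congrArg (B₀.mkQ) h4
            rw [map_add, map_zero, Submodule.mkQ_apply, (Submodule.Quotient.mk_eq_zero B₀).2 hz,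
              zero_add, map_sum] at h6
            rw [← h6]
            refine Finset.sum_congr rfl fun j _ => ?_
            rw [← hbj j]
            rfl
          have h7 : ∀ j, d (Sum.inr j) = 0 :=
            Fintype.linearIndependent_iff.1 hT (fun j => d (Sum.inr j)) h5
          have h8 : ∑ x : S × Fin (M + 1), d (Sum.inl x) • γ (Sum.inl x) = 0 := by
            rw [← h3]
            simp [h7]
          have h9 : ∀ i : S, (∑ a : Fin (M + 1), C (d (Sum.inl (i, a))) * X ^ a.val : K[X]) = 0 := by
            have hli : LinearIndependent K[X] (fun i => ω i) :=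
              (LinearIndependent.iff_fractionRing K[X] K⟮s⟯).2 ω.linearIndependent
            refine Fintype.linearIndependent_iff.1 hli _ ?_
            rw [← h8, Fintype.sum_prod_type]
            refine Finset.sum_congr rfl fun i _ => ?_
            rw [Finset.sum_smul]
            refine Finset.sum_congr rfl fun a _ => ?_
            rw [Algebra.smul_def, algX_apply]
            simp only [map_mul, aeval_C, map_pow, aeval_X, Algebra.smul_def, γ, Sum.elim_inl]
            ring
          funext x
          rcases x with ⟨i, a⟩ | j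
          · have h10 := congrArg (fun p => Polynomial.coeff p a.val) (h9 i)
            simp only [finsetSum_coeff, coeff_C_mul_X_pow, coeff_zero] at h10
            rw [Finset.sum_eq_single a] at h10
            · simpa using h10
            · intro a' _ ha'
              rw [if_neg]
              intro h
              exact ha' (Fin.ext h.symm)
            · intro h
              exact absurd (Finset.mem_univ a) h
          · exact h7 j)
      rw [Fintype.card_sum, Fintype.card_prod, Fintype.card_fin, hcardS, finrank_inv,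
        Fintype.card_coe] at hcard
      have h11 : D + 1 = (M + 1) + E := by omega
      have h12 : Module.finrank K⟮s⟯ N * (D + 1) =
          Module.finrank K⟮s⟯ N * (M + 1) + Module.finrank K⟮s⟯ N * E := by
        rw [h11, Nat.mul_add]
      rw [h12] at hcard
      exact Nat.le_of_add_le_add_left hcard
    have hlt : Module.rank K (B ⧸ B₀) < Cardinal.aleph0 := lt_of_le_of_lt hr (Cardinal.natCast_lt_aleph0)
    exact Module.rank_lt_aleph0_iff.1 hlt
  haveI : Module.Finite K[X] (B ⧸ B₀) := Module.Finite.of_restrictScalars_finite K K[X] (B ⧸ B₀)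
  exact Module.Finite.of_submodule_quotient B₀

end Fin

end Pool.Agent.Helper16
end

/- Helper16.DP.H16.FF5 -/
section
set_option autoImplicit false
set_option linter.style.haveILetI false

namespace Pool.Agent.Helper16

open Polynomial IntermediateField IsDedekindDomain

theorem valuation_eq_of_le {N : Type} [Field N] (v w : Valuation N (WithZero (Multiplicative ℤ)))
    (hv : Function.Surjective v) (hw : Function.Surjective w)
    (h : ∀ x, w x ≤ 1 → v x ≤ 1) : v = w := by
  have h1 : ∀ x, w x = 1 → v x = 1 := by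
    intro x hx
    have hx0 : x ≠ 0 := by
      rintro rfl
      rw [map_zero] at hx
      exact zero_ne_one hx
    refine le_antisymm (h x hx.le) ?_
    have := h x⁻¹ (by rw [map_inv₀, hx, inv_one])
    rw [map_inv₀] at this
    exact (inv_le_one₀ (zero_lt_iff.2 (by simpa using hx0))).1 this
  obtain ⟨p, hp⟩ := hw (WithZero.exp (-1 : ℤ))
  have hp0 : p ≠ 0 := by
    rintro rfl
    rw [map_zero] at hp
    exact WithZero.exp_ne_zero hp.symm
  have h2 : ∀ x (n : ℤ), x ≠ 0 → w x = WithZero.exp (-n) → v x = (v p) ^ n := by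
    intro x n hx hn
    have h3 : w (x * (p ^ n)⁻¹) = 1 := by
      rw [map_mul, map_inv₀, map_zpow₀, hn, hp, ← WithZero.exp_zsmul]
      simp
    have h4 := h1 _ h3
    rw [map_mul, map_inv₀, map_zpow₀] at h4
    exact (mul_inv_eq_one₀ (zpow_ne_zero _ (by simpa using hp0))).1 h4
  have h5 : v p ≤ 1 := h p (by rw [hp, ← WithZero.exp_zero, WithZero.exp_le_exp]; norm_num)
  have hvp0 : v p ≠ 0 := by simpa using hp0
  have key : ∀ x, x ≠ 0 → WithZero.log (v x) = WithZero.log (v p) * (-WithZero.log (w x)) := by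
    intro x hx
    have hwx : w x ≠ 0 := by simpa using hx
    have := h2 x (-WithZero.log (w x)) hx (by rw [neg_neg, WithZero.exp_log hwx])
    rw [this, WithZero.log_zpow]
    simp [mul_comm]
  obtain ⟨y, hy⟩ := hv (WithZero.exp (-1 : ℤ))
  have hy0 : y ≠ 0 := by
    rintro rfl
    rw [map_zero] at hy
    exact WithZero.exp_ne_zero hy.symm
  have h6 := key y hy0
  rw [hy, WithZero.log_exp] at h6
  have h7 : WithZero.log (v p) ≤ 0 := by
    have := (WithZero.log_le_log hvp0 one_ne_zero).2 h5
    simpa using this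
  have h8 : WithZero.log (v p) = -1 := by
    have h9 : WithZero.log (v p) * WithZero.log (w y) = 1 := by (clear * - h6; linarith)
    rcases Int.eq_one_or_neg_one_of_mul_eq_one h9 with h | h
    · omega
    · exact h
  ext x
  by_cases hx : x = 0
  · subst hx; simp
  · have h10 := key x hx
    rw [h8] at h10
    have h11 : WithZero.log (v x) = WithZero.log (w x) := by (clear * - h10; linarith)
    rw [← WithZero.exp_log (show v x ≠ 0 by simpa using hx), h11,
      WithZero.exp_log (show w x ≠ 0 by simpa using hx)]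

section Ded

variable {K N : Type} [Field K] [Field N] [Algebra K N]

/-- The integral closure of `K[s]` in `N`. -/
@[reducible] noncomputable def IC (K : Type) {N : Type} [Field K] [Field N] [Algebra K N] (s : N) :
    @Subalgebra K[X] N _ _ (algX K s) := @integralClosure K[X] N _ _ (algX K s)

theorem isDedekindDomain_IC (s : N) (hs : Transcendental K s) [FiniteDimensional K⟮s⟯ N] :
    IsDedekindDomain (IC K s) := by
  letI := algX K s
  letI := algXF K s
  haveI := towerXF (K := K) s
  haveI := isFractionRing_algXF s hs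
  haveI := faithfulX s hs
  haveI := finite_integralClosure s hs
  haveI : IsNoetherianRing (IC K s) := IsNoetherianRing.of_finite K[X] (IC K s)
  haveI : IsIntegrallyClosed (IC K s) :=
    integralClosure.isIntegrallyClosedOfFiniteExtension K⟮s⟯
  haveI : Ring.DimensionLEOne (IC K s) := Ring.DimensionLEOne.of_isIntegral K[X] (IC K s)
  exact { }

theorem isFractionRing_IC (s : N) (hs : Transcendental K s) [FiniteDimensional K⟮s⟯ N] :
    IsFractionRing (IC K s) N := by
  letI := algX K s
  letI := algXF K s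
  haveI := towerXF (K := K) s
  haveI := isFractionRing_algXF s hs
  haveI := faithfulX s hs
  exact integralClosure.isFractionRing_of_finite_extension K⟮s⟯ N

end Ded

end Pool.Agent.Helper16
end

/- Helper16.DP.H16.FF6 -/
section
set_option autoImplicit false
set_option linter.style.haveILetI false

namespace Pool.Agent.Helper16

open Polynomial IntermediateField IsDedekindDomain

section Ded

variable {K N : Type} [Field K] [Field N] [Algebra K N]

/-- Elements integral over `K[s]` are regular at all places where `s` is regular. -/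
theorem IntOver.mem_ring {s x : N} (hx : IntOver K s x) (v : Place K N) (hs : v.val s ≤ 1) :
    v.val x ≤ 1 := by
  have := hx.mem_valuationSubring v.val.valuationSubring (fun a => v.val_algebraMap_le a) hs
  exact this

/-- The place attached to a prime of the integral closure of `K[s]`. -/
noncomputable def placeOfPrime (s : N) (hs : Transcendental K s) [FiniteDimensional K⟮s⟯ N]
    (P : HeightOneSpectrum (IC K s)) : Place K N :=
  haveI := isDedekindDomain_IC s hs
  haveI := isFractionRing_IC s hs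
  { val := P.valuation N
    surj := P.valuation_surjective N
    triv := by
      intro a ha
      have h1 : IsUnit (⟨algebraMap K N a, IntOver.const s a⟩ : IC K s) := by
        refine ⟨⟨⟨algebraMap K N a, IntOver.const s a⟩, ⟨algebraMap K N a⁻¹, IntOver.const s a⁻¹⟩,
          ?_, ?_⟩, rfl⟩
        · apply Subtype.ext
          change algebraMap K N a * algebraMap K N a⁻¹ = 1
          rw [← map_mul, mul_inv_cancel₀ ha, map_one]
        · apply Subtype.ext
          change algebraMap K N a⁻¹ * algebraMap K N a = 1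
          rw [← map_mul, inv_mul_cancel₀ ha, map_one]
      have h2 := P.valuation_of_algebraMap (K := N) (⟨algebraMap K N a, IntOver.const s a⟩ : IC K s)
      have h3 : P.intValuation (⟨algebraMap K N a, IntOver.const s a⟩ : IC K s) = 1 := by
        rw [HeightOneSpectrum.intValuation_eq_one_iff]
        intro hmem
        exact P.isPrime.ne_top (Ideal.eq_top_of_isUnit_mem _ hmem h1)
      rw [h3] at h2
      exact h2 }

theorem placeOfPrime_val_algebraMap (s : N) (hs : Transcendental K s) [FiniteDimensional K⟮s⟯ N]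
    (P : HeightOneSpectrum (IC K s)) (b : IC K s) : (placeOfPrime s hs P).val (b : N) ≤ 1 := by
  haveI := isDedekindDomain_IC s hs
  haveI := isFractionRing_IC s hs
  exact P.valuation_le_one (K := N) b

theorem placeOfPrime_val_lt (s : N) (hs : Transcendental K s) [FiniteDimensional K⟮s⟯ N]
    (P : HeightOneSpectrum (IC K s)) (b : IC K s) :
    (placeOfPrime s hs P).val (b : N) < 1 ↔ b ∈ P.asIdeal := by
  haveI := isDedekindDomain_IC s hs
  haveI := isFractionRing_IC s hs
  exact P.valuation_lt_one_iff_mem (K := N) b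

theorem exists_placeOfPrime (s : N) (hs : Transcendental K s) [FiniteDimensional K⟮s⟯ N]
    (v : Place K N) (hv : v.val s ≤ 1) : ∃ P, placeOfPrime s hs P = v := by
  haveI := isDedekindDomain_IC s hs
  haveI := isFractionRing_IC s hs
  let P : Ideal (IC K s) :=
    { carrier := {b | v.val (b : N) < 1}
      add_mem' := fun {a b} ha hb => v.val.map_add_lt ha hb
      zero_mem' := by
        change v.val ((0 : IC K s) : N) < 1
        simp
      smul_mem' := by
        intro c b hb
        change v.val ((c * b : IC K s) : N) < 1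
        have h1 : ((c * b : IC K s) : N) = (c : N) * (b : N) := rfl
        rw [h1, map_mul, mul_comm]
        exact mul_lt_one_of_lt_of_le hb (IntOver.mem_ring (K := K) c.2 v hv) }
  have hmem : ∀ b : IC K s, b ∈ P ↔ v.val (b : N) < 1 := fun b => Iff.rfl
  have hprime : P.IsPrime := by
    refine ⟨?_, ?_⟩
    · rw [Ideal.ne_top_iff_one, hmem]
      have h1 : ((1 : IC K s) : N) = 1 := rfl
      rw [h1, map_one]
      exact lt_irrefl _
    · intro a b hab
      rw [hmem] at hab
      have h1 : ((a * b : IC K s) : N) = (a : N) * (b : N) := rfl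
      rw [h1, map_mul] at hab
      by_contra hcon
      rw [not_or, hmem, hmem, not_lt, not_lt] at hcon
      exact absurd hab (not_lt.2 (one_le_mul hcon.1 hcon.2))
  have hbot : P ≠ ⊥ := by
    intro h0
    obtain ⟨y, hy⟩ := v.surj (WithZero.exp (1 : ℤ))
    obtain ⟨a, b, hb, hab⟩ := IsFractionRing.div_surjective (A := IC K s) y
    have hu : ∀ c : IC K s, c ≠ 0 → v.val (c : N) = 1 := by
      intro c hc
      refine le_antisymm (IntOver.mem_ring (K := K) c.2 v hv) ?_
      by_contra hlt
      rw [not_le] at hlt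
      have : c ∈ P := hlt
      rw [h0] at this
      exact hc this
    have hb0 : b ≠ 0 := nonZeroDivisors.ne_zero hb
    have h1 : v.val (algebraMap (IC K s) N b) = 1 := hu b hb0
    rw [← hab, map_div₀, h1, div_one] at hy
    by_cases ha : a = 0
    · rw [ha, map_zero, map_zero] at hy
      exact WithZero.exp_ne_zero hy.symm
    · have h2 : v.val (algebraMap (IC K s) N a) = 1 := hu a ha
      rw [h2, ← WithZero.exp_zero, WithZero.exp_inj] at hy
      omega
  let Q : HeightOneSpectrum (IC K s) := ⟨P, hprime, hbot⟩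
  refine ⟨Q, ?_⟩
  apply Place.ext_val
  symm
  apply valuation_eq_of_le _ _ v.surj (placeOfPrime s hs Q).surj
  intro x hx
  obtain ⟨n, d, hnd⟩ := Q.exists_primeCompl_mul_eq_of_integer (K := N) x hx
  have hd : v.val (algebraMap (IC K s) N d) = 1 := by
    refine le_antisymm (IntOver.mem_ring (K := K) d.1.2 v hv) ?_
    by_contra hlt
    rw [not_le] at hlt
    exact d.2 hlt
  have h1 := congrArg v.val hnd
  rw [map_mul, hd, mul_one] at h1
  rw [h1]
  exact IntOver.mem_ring (K := K) n.2 v hv

theorem placeOfPrime_injective (s : N) (hs : Transcendental K s) [FiniteDimensional K⟮s⟯ N] :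
    Function.Injective (placeOfPrime (K := K) s hs) := by
  intro P Q h
  apply HeightOneSpectrum.ext
  ext b
  rw [← placeOfPrime_val_lt s hs P, ← placeOfPrime_val_lt s hs Q, h]

end Ded

end Pool.Agent.Helper16
end

/- Helper16.DP.H16.FF7 -/
section
set_option autoImplicit false
set_option linter.style.haveILetI false

namespace Pool.Agent.Helper16

open Polynomial IntermediateField IsDedekindDomain

section Ded

variable {K N : Type} [Field K] [Field N] [Algebra K N]

/-- `s` as an element of the integral closure of `K[s]`. -/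
def sIC (K : Type) {N : Type} [Field K] [Field N] [Algebra K N] (s : N) : IC K s :=
  ⟨s, IntOver.self s⟩

theorem algebraMap_X_IC (s : N) :
    letI := algX K s
    algebraMap K[X] (IC K s) X = sIC K s := by
  letI := algX K s
  apply Subtype.ext
  change aeval s (X : K[X]) = s
  simp

theorem liesOver_of_mem (s : N) (P : HeightOneSpectrum (IC K s)) (h : sIC K s ∈ P.asIdeal) :
    letI := algX K s
    P.asIdeal.LiesOver (Ideal.span {(X : K[X])}) := by
  letI := algX K s
  have hmax : (Ideal.span {(X : K[X])}).IsMaximal :=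
    PrincipalIdealRing.isMaximal_of_irreducible irreducible_X
  refine ⟨?_⟩
  apply hmax.eq_of_le
  · intro h1
    apply P.isPrime.ne_top
    rw [Ideal.eq_top_iff_one] at h1 ⊢
    simpa using h1
  · rw [Ideal.span_singleton_le_iff_mem]
    change algebraMap K[X] (IC K s) X ∈ P.asIdeal
    rw [algebraMap_X_IC]
    exact h

theorem exists_resEquiv (s : N) (hs : Transcendental K s) [FiniteDimensional K⟮s⟯ N]
    (P : HeightOneSpectrum (IC K s)) :
    letI := algX K s
    haveI := towerX (K := K) s
    Nonempty ((IC K s ⧸ P.asIdeal) ≃ₐ[K] (placeOfPrime s hs P).resField) := by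
  letI := algX K s
  haveI := towerX (K := K) s
  haveI := isDedekindDomain_IC s hs
  haveI := isFractionRing_IC s hs
  haveI : P.asIdeal.IsMaximal := P.isMaximal
  let v := placeOfPrime s hs P
  let ψ : IC K s →ₐ[K] v.resField :=
    { toFun := fun b => IsLocalRing.residue v.ring ⟨(b : N), placeOfPrime_val_algebraMap s hs P b⟩
      map_one' := map_one _
      map_mul' := fun a b => by rw [← map_mul]; rfl
      map_zero' := map_zero _
      map_add' := fun a b => by rw [← map_add]; rfl
      commutes' := fun a => by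
        have h1 : (⟨((algebraMap K (IC K s) a : IC K s) : N),
            placeOfPrime_val_algebraMap s hs P _⟩ : v.ring) = algebraMap K v.ring a := by
          rfl
        rw [h1]
        rfl }
  have hψ : ∀ b, ψ b = 0 ↔ b ∈ P.asIdeal := by
    intro b
    change IsLocalRing.residue v.ring _ = 0 ↔ _
    rw [IsLocalRing.residue_eq_zero_iff, Place.mem_maximalIdeal]
    exact placeOfPrime_val_lt s hs P b
  have hsurj : Function.Surjective ψ := by
    intro r
    obtain ⟨⟨x, hx⟩, rfl⟩ := IsLocalRing.residue_surjective r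
    obtain ⟨n, d, hnd⟩ := P.exists_primeCompl_mul_eq_of_integer (K := N) x hx
    obtain ⟨e, i, hi, he⟩ := P.isMaximal.exists_inv d.2
    refine ⟨n * e, ?_⟩
    change IsLocalRing.residue v.ring _ = IsLocalRing.residue v.ring _
    rw [← sub_eq_zero, ← map_sub, IsLocalRing.residue_eq_zero_iff, Place.mem_maximalIdeal]
    have h1 : (n * e : IC K s) = (n : N) * (e : N) := rfl
    have h2 : (e : N) * ((d : IC K s) : N) + (i : N) = 1 := by
      have := congrArg (Subtype.val) he
      exact this
    have h3 : x * ((d : IC K s) : N) = (n : N) := hnd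
    have h4 : ((n * e : IC K s) : N) - x = - (x * (i : N)) := by
      rw [h1, ← h3]
      linear_combination x * h2
    change v.val (((n * e : IC K s) : N) - x) < 1
    rw [h4, Valuation.map_neg, map_mul, mul_comm]
    exact mul_lt_one_of_lt_of_le ((placeOfPrime_val_lt s hs P i).2 hi) hx
  have hker : RingHom.ker ψ = P.asIdeal := by
    ext b
    exact hψ b
  exact ⟨(Ideal.quotientEquivAlgOfEq K hker.symm).trans (Ideal.quotientKerAlgEquivOfSurjective hsurj)⟩

theorem deg_placeOfPrime (s : N) (hs : Transcendental K s) [FiniteDimensional K⟮s⟯ N]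
    (P : HeightOneSpectrum (IC K s)) (h : sIC K s ∈ P.asIdeal) :
    letI := algX K s
    (placeOfPrime s hs P).deg = P.asIdeal.inertiaDeg K[X] ∧
      Module.Finite K (placeOfPrime s hs P).resField := by
  letI := algX K s
  haveI := towerX (K := K) s
  haveI := isDedekindDomain_IC s hs
  haveI := isFractionRing_IC s hs
  haveI := finite_integralClosure s hs
  have hmax : (Ideal.span {(X : K[X])}).IsMaximal :=
    PrincipalIdealRing.isMaximal_of_irreducible irreducible_X
  haveI : P.asIdeal.IsMaximal := P.isMaximal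
  haveI := liesOver_of_mem s P h
  obtain ⟨e1⟩ := exists_resEquiv s hs P
  haveI : Module.Free (K[X] ⧸ Ideal.span {(X : K[X])}) (IC K s ⧸ P.asIdeal) := by
    letI := Ideal.Quotient.field (Ideal.span {(X : K[X])})
    infer_instance
  have h1 : Module.finrank K (K[X] ⧸ Ideal.span {(X : K[X])}) = 1 := by
    rw [finrank_quotient_span_eq_natDegree, natDegree_X]
  constructor
  · rw [Place.deg, ← e1.toLinearEquiv.finrank_eq,
      Ideal.inertiaDeg_eq_of_isMaximal (Ideal.span {(X : K[X])})]
    have h2 := Module.finrank_mul_finrank K (K[X] ⧸ Ideal.span {(X : K[X])}) (IC K s ⧸ P.asIdeal)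
    rw [h1, one_mul] at h2
    exact h2.symm
  · haveI : Module.Finite K (K[X] ⧸ Ideal.span {(X : K[X])}) :=
      Module.finite_of_finrank_pos (by rw [h1]; exact one_pos)
    haveI : Module.Finite (K[X] ⧸ Ideal.span {(X : K[X])}) (IC K s ⧸ P.asIdeal) :=
      Module.Finite.of_restrictScalars_finite K[X] _ _
    haveI : Module.Finite K (IC K s ⧸ P.asIdeal) :=
      Module.Finite.trans (K[X] ⧸ Ideal.span {(X : K[X])}) _
    exact Module.Finite.equiv e1.toLinearEquiv

theorem map_span_X (s : N) :
    letI := algX K s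
    (Ideal.span {(X : K[X])}).map (algebraMap K[X] (IC K s)) = Ideal.span {sIC K s} := by
  letI := algX K s
  rw [Ideal.map_span, Set.image_singleton, algebraMap_X_IC]

theorem sIC_ne_zero {s : N} (hs : Transcendental K s) : sIC K s ≠ 0 := by
  intro h
  exact transcendental_ne_zero hs (congrArg Subtype.val h)

theorem ord_placeOfPrime (s : N) (hs : Transcendental K s) [FiniteDimensional K⟮s⟯ N]
    (P : HeightOneSpectrum (IC K s)) (h : sIC K s ∈ P.asIdeal) :
    letI := algX K s
    (placeOfPrime s hs P).ord s = (P.asIdeal.ramificationIdx K[X] : ℤ) := by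
  letI := algX K s
  haveI := towerX (K := K) s
  haveI := isDedekindDomain_IC s hs
  haveI := isFractionRing_IC s hs
  haveI := liesOver_of_mem s P h
  haveI := P.isPrime
  have hmap := map_span_X (K := K) s
  have hne : (Ideal.span {(X : K[X])}).map (algebraMap K[X] (IC K s)) ≠ ⊥ := by
    rw [hmap]
    simpa using sIC_ne_zero hs
  rw [Ideal.IsDedekindDomain.ramificationIdx_eq_multiplicity (Ideal.span {(X : K[X])}) P.asIdeal hne,
    hmap]
  have h1 := P.valuation_of_algebraMap (K := N) (sIC K s)
  rw [P.intValuation_eq_exp_neg_multiplicity (sIC_ne_zero hs)] at h1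
  have h2 : (placeOfPrime s hs P).val s = WithZero.exp (-(multiplicity P.asIdeal (Ideal.span {sIC K s}) : ℤ)) := h1
  rw [Place.ord, h2, WithZero.log_exp, neg_neg]

/-- The zeros of `s`, and the formula `∑ ord_v(s) deg(v) = [N : K(s)]`. -/
theorem sum_zeros (s : N) (hs : Transcendental K s) [FiniteDimensional K⟮s⟯ N] :
    ∃ S : Finset (Place K N), (∀ v, v ∈ S ↔ v.val s < 1) ∧
      ∑ v ∈ S, v.ord s * (v.deg : ℤ) = (Module.finrank K⟮s⟯ N : ℤ) := by
  classical
  letI := algX K s
  letI := algXF K s
  haveI := towerXF (K := K) s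
  haveI := towerX (K := K) s
  haveI := isFractionRing_algXF s hs
  haveI := faithfulX s hs
  haveI := isDedekindDomain_IC s hs
  haveI := isFractionRing_IC s hs
  haveI := finite_integralClosure s hs
  have hmax : (Ideal.span {(X : K[X])}).IsMaximal :=
    PrincipalIdealRing.isMaximal_of_irreducible irreducible_X
  haveI : (Ideal.span {(X : K[X])}).IsPrime := hmax.isPrime
  let p := Ideal.span {(X : K[X])}
  letI : Fintype (p.primesOver (IC K s)) := Fintype.ofFinite _
  have hp0 : p ≠ ⊥ := by
    simp [p]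
  let F : p.primesOver (IC K s) → HeightOneSpectrum (IC K s) := fun q =>
    ⟨q.1, q.2.1, Ideal.ne_bot_of_mem_primesOver hp0 q.2⟩
  have hF : ∀ q, sIC K s ∈ (F q).asIdeal := by
    intro q
    have h1 : p ≤ q.1.under K[X] := by
      rw [← q.2.2.over]
    have h2 : (X : K[X]) ∈ q.1.under K[X] := h1 (Ideal.mem_span_singleton_self X)
    have h3 : algebraMap K[X] (IC K s) X ∈ q.1 := h2
    rw [algebraMap_X_IC] at h3
    exact h3
  have hFinj : Function.Injective F := by
    intro q r h
    apply Subtype.ext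
    exact congrArg HeightOneSpectrum.asIdeal h
  refine ⟨Finset.univ.image (fun q => placeOfPrime s hs (F q)), ?_, ?_⟩
  · intro v
    rw [Finset.mem_image]
    constructor
    · rintro ⟨q, -, rfl⟩
      exact (placeOfPrime_val_lt s hs (F q) (sIC K s)).2 (hF q)
    · intro hv
      obtain ⟨P, rfl⟩ := exists_placeOfPrime s hs v hv.le
      have h1 : sIC K s ∈ P.asIdeal := (placeOfPrime_val_lt s hs P (sIC K s)).1 hv
      refine ⟨⟨P.asIdeal, P.isPrime, liesOver_of_mem s P h1⟩, Finset.mem_univ _, rfl⟩
  · rw [Finset.sum_image (fun a _ b _ h => hFinj (placeOfPrime_injective s hs h))]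
    have h1 := Ideal.sum_ramification_inertia_eq_finrank p (IC K s)
    have h2 := IsFractionRing.finrank_eq K[X] K⟮s⟯ (IC K s) N
    rw [h2, ← h1]
    push_cast
    refine Finset.sum_congr rfl fun q _ => ?_
    rw [ord_placeOfPrime s hs (F q) (hF q), (deg_placeOfPrime s hs (F q) (hF q)).1]

end Ded

end Pool.Agent.Helper16
end

/- Helper16.DP.H16.FF8 -/
section
set_option autoImplicit false
set_option linter.style.haveILetI false

namespace Pool.Agent.Helper16

open Polynomial IntermediateField IsDedekindDomain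

section

variable {K N : Type} [Field K] [Field N] [Algebra K N]

theorem finiteDimensional_of_fg_of_isAlgebraic (F E : Type) [Field F] [Field E] [Algebra F E]
    [Algebra.EssFiniteType F E] [Algebra.IsAlgebraic F E] : FiniteDimensional F E := by
  obtain ⟨S, hS⟩ := IntermediateField.fg_top F E
  haveI : FiniteDimensional F (IntermediateField.adjoin F (S : Set E)) :=
    IntermediateField.finiteDimensional_adjoin (fun x _ => (Algebra.IsAlgebraic.isAlgebraic x).isIntegral)
  rw [hS] at this
  exact (IntermediateField.topEquiv (F := F) (E := E)).toLinearEquiv.finiteDimensional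

theorem IsFunctionField.finiteDimensional (h : IsFunctionField K N) (f : N)
    (hf : Transcendental K f) : FiniteDimensional K⟮f⟯ N := by
  haveI := h.1
  have h1 : AlgebraicIndependent K (fun _ : Unit => f) :=
    algebraicIndependent_unique_type_iff.2 hf
  have h2 : IsTranscendenceBasis K (fun _ : Unit => f) :=
    h1.isTranscendenceBasis_of_trdeg_le_of_finite (by rw [h.2]; simp)
  have h3 := h2.isAlgebraic_field
  have h4 : Set.range (fun _ : Unit => f) = {f} := Set.range_const
  rw [h4] at h3
  haveI : Algebra.EssFiniteType K⟮f⟯ N := Algebra.EssFiniteType.of_comp K K⟮f⟯ N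
  exact finiteDimensional_of_fg_of_isAlgebraic K⟮f⟯ N

theorem Place.val_eq_one_of_algebraic (v : Place K N) {f : N} (hf : IsAlgebraic K f) (hf0 : f ≠ 0) :
    v.val f = 1 := by
  have h1 : ∀ g : N, IsAlgebraic K g → v.val g ≤ 1 := by
    intro g hg
    have h2 : IntOver K (0 : N) g := IntOver.of_isIntegral hg.isIntegral
    exact h2.mem_ring v (by simp)
  refine le_antisymm (h1 f hf) ?_
  have := h1 f⁻¹ hf.inv
  rw [map_inv₀] at this
  exact (inv_le_one₀ (zero_lt_iff.2 (by simpa using hf0))).1 this

theorem Place.transcendental_of_val_ne_one (v : Place K N) {f : N} (hf0 : f ≠ 0)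
    (hv : v.val f ≠ 1) : Transcendental K f :=
  fun hf => hv (v.val_eq_one_of_algebraic hf hf0)

theorem Place.exists_uniformizer (v : Place K N) : ∃ f : N, f ≠ 0 ∧ v.val f = WithZero.exp (-1 : ℤ) := by
  obtain ⟨f, hf⟩ := v.surj (WithZero.exp (-1 : ℤ))
  refine ⟨f, ?_, hf⟩
  rintro rfl
  rw [map_zero] at hf
  exact WithZero.exp_ne_zero hf.symm

theorem exp_neg_one_lt : WithZero.exp (-1 : ℤ) < 1 := by
  rw [← WithZero.exp_zero, WithZero.exp_lt_exp]; norm_num

theorem Place.finite_resField (hN : IsFunctionField K N) (v : Place K N) :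
    Module.Finite K v.resField := by
  obtain ⟨f, hf0, hf⟩ := v.exists_uniformizer
  have hlt : v.val f < 1 := by rw [hf]; exact exp_neg_one_lt
  have htr := v.transcendental_of_val_ne_one hf0 hlt.ne
  haveI := hN.finiteDimensional f htr
  obtain ⟨P, rfl⟩ := exists_placeOfPrime f htr v hlt.le
  exact (deg_placeOfPrime f htr P ((placeOfPrime_val_lt f htr P (sIC K f)).1 hlt)).2

theorem Place.deg_pos (hN : IsFunctionField K N) (v : Place K N) : 0 < v.deg := by
  haveI := v.finite_resField hN
  exact Module.finrank_pos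

/-- Zeros of a transcendental element. -/
theorem IsFunctionField.zeros (hN : IsFunctionField K N) (f : N) (hf : Transcendental K f) :
    ∃ S : Finset (Place K N), (∀ v, v ∈ S ↔ v.val f < 1) ∧
      ∑ v ∈ S, v.ord f * (v.deg : ℤ) = (Module.finrank K⟮f⟯ N : ℤ) ∧
      0 < Module.finrank K⟮f⟯ N := by
  haveI := hN.finiteDimensional f hf
  obtain ⟨S, h1, h2⟩ := sum_zeros f hf
  exact ⟨S, h1, h2, Module.finrank_pos⟩

/-- The product formula. -/
theorem IsFunctionField.product_formula (hN : IsFunctionField K N) (f : N) :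
    ∃ S : Finset (Place K N), (∀ v, v ∈ S ↔ v.ord f ≠ 0) ∧
      ∑ v ∈ S, v.ord f * (v.deg : ℤ) = 0 := by
  classical
  by_cases hf0 : f = 0
  · subst hf0
    exact ⟨∅, fun v => by simp [v.ord_zero], by simp⟩
  by_cases hf : IsAlgebraic K f
  · refine ⟨∅, fun v => ?_, by simp⟩
    simp [(v.ord_eq_zero_iff hf0).2 (v.val_eq_one_of_algebraic hf hf0)]
  · obtain ⟨S, h1, h2, -⟩ := hN.zeros f hf
    obtain ⟨T, h3, h4, -⟩ := hN.zeros f⁻¹ (transcendental_inv hf)
    rw [finrank_inv] at h4
    have hT : ∀ v : Place K N, v ∈ T ↔ 1 < v.val f := by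
      intro v
      rw [h3, map_inv₀, inv_lt_one₀ (zero_lt_iff.2 (by simpa using hf0))]
    have hdisj : Disjoint S T := by
      rw [Finset.disjoint_left]
      intro v hv hv'
      rw [h1] at hv
      rw [hT] at hv'
      exact lt_asymm hv hv'
    refine ⟨S ∪ T, fun v => ?_, ?_⟩
    · rw [Finset.mem_union, h1, hT, Ne, v.ord_eq_zero_iff hf0]
      constructor
      · rintro (h | h)
        · exact h.ne
        · exact h.ne'
      · intro h
        exact lt_or_gt_of_ne h
    · rw [Finset.sum_union hdisj, h2]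
      have h5 : ∑ v ∈ T, v.ord f * (v.deg : ℤ) = - ∑ v ∈ T, v.ord f⁻¹ * (v.deg : ℤ) := by
        rw [← Finset.sum_neg_distrib]
        refine Finset.sum_congr rfl fun v _ => ?_
        rw [v.ord_inv]
        ring
      rw [h5, h4]
      ring

end

end Pool.Agent.Helper16
end

/- Helper16.DP.H8.AlgCut -/
section
set_option autoImplicit false

/-!
# Hypersurface sections drop the transcendence degree by at most one; curves through points
-/

namespace Pool.Agent.Helper8.AlgCut

open MvPolynomial

theorem trdeg_quot_prime {κ : Type} [Field κ] {s : ℕ} (π : MvPolynomial (Fin s) κ)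
    (hπ : Prime π) (r : ℕ) (hs : r + 1 ≤ s) :
    (r : Cardinal) ≤ Algebra.trdeg κ (MvPolynomial (Fin s) κ ⧸ Ideal.span {π}) := by
  have : (Ideal.span {π}).IsPrime := (Ideal.span_singleton_prime hπ.ne_zero).2 hπ
  obtain ⟨i, hi⟩ : ∃ i, i ∈ π.vars := by
    by_contra hcon
    push Not at hcon
    have h1 : π.vars = ∅ := Finset.eq_empty_of_forall_notMem hcon
    rw [vars_eq_empty_iff_eq_C] at h1
    have h2 : π.coeff 0 ≠ 0 := by
      intro h0
      rw [h0, map_zero] at h1
      exact hπ.ne_zero h1
    apply hπ.not_isUnit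
    rw [h1]
    exact (isUnit_iff_ne_zero.2 h2).map C
  have hdi : π.degreeOf i ≠ 0 := mem_vars_iff_degreeOf_ne_zero.1 hi
  let y : {j : Fin s // j ≠ i} → MvPolynomial (Fin s) κ ⧸ Ideal.span {π} :=
    fun j => Ideal.Quotient.mk _ (X j.1)
  have hy : AlgebraicIndependent κ y := by
    rw [algebraicIndependent_iff]
    intro Q hQ
    by_contra hQ0
    have h1 : aeval y Q = Ideal.Quotient.mk (Ideal.span {π}) (rename Subtype.val Q) := by
      have : (aeval y : MvPolynomial {j : Fin s // j ≠ i} κ →ₐ[κ] _) =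
          (Ideal.Quotient.mkₐ κ (Ideal.span {π})).comp (rename Subtype.val) := by
        apply MvPolynomial.algHom_ext
        intro j
        simp [y]
      rw [this]
      rfl
    rw [h1, Ideal.Quotient.eq_zero_iff_mem, Ideal.mem_span_singleton] at hQ
    obtain ⟨g, hg⟩ := hQ
    have h2 : rename Subtype.val Q ≠ 0 := by
      intro h
      exact hQ0 (rename_injective _ Subtype.val_injective (by simpa using h))
    have h3 : g ≠ 0 := by
      rintro rfl
      rw [mul_zero] at hg
      exact h2 hg
    have h4 := degreeOf_mul_eq (n := i) hπ.ne_zero h3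
    rw [← hg] at h4
    have h5 : (rename Subtype.val Q).degreeOf i = 0 := by
      by_contra h
      have := mem_vars_rename _ _ (mem_vars_iff_degreeOf_ne_zero.2 h)
      obtain ⟨j, -, hj⟩ := this
      exact j.2 hj
    (clear * - r hdi h4 h5; omega)
  have h6 := hy.cardinalMk_le_trdeg
  refine le_trans ?_ h6
  rw [Cardinal.mk_fintype]
  have : Fintype.card {j : Fin s // j ≠ i} = s - 1 := by
    rw [Fintype.card_subtype_compl]; simp
  rw [this]
  exact_mod_cast (by omega : r ≤ s - 1)

theorem cut {κ R : Type} [Field κ] [IsAlgClosed κ] [CommRing R] [IsDomain R] [Algebra κ R]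
    [Algebra.FiniteType κ R] (u : R →ₐ[κ] κ) (r : ℕ) (hr : ((r + 1 : ℕ) : Cardinal) ≤ Algebra.trdeg κ R)
    (f : R) (hf : u f = 0) :
    ∃ 𝔭 : Ideal R, 𝔭.IsPrime ∧ f ∈ 𝔭 ∧ 𝔭 ≤ RingHom.ker u ∧ (r : Cardinal) ≤ Algebra.trdeg κ (R ⧸ 𝔭) := by
  by_cases hf0 : f = 0
  · refine ⟨⊥, Ideal.isPrime_bot, hf0, bot_le, ?_⟩
    have e : (R ⧸ (⊥ : Ideal R)) ≃ₐ[κ] R := AlgEquiv.quotientBot κ R
    rw [e.trdeg_eq]
    refine le_trans ?_ hr
    exact_mod_cast Nat.le_succ r
  obtain ⟨s, g, hgi, hgf⟩ := exists_finite_inj_algHom_of_fg κ R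
  let _ : Algebra (MvPolynomial (Fin s) κ) R := g.toRingHom.toAlgebra
  have hmap : ∀ x, algebraMap (MvPolynomial (Fin s) κ) R x = g x := fun _ => rfl
  have : IsScalarTower κ (MvPolynomial (Fin s) κ) R := IsScalarTower.of_algebraMap_eq'
    (g.comp_algebraMap).symm
  have : Module.Finite (MvPolynomial (Fin s) κ) R := hgf
  have : Algebra.IsIntegral (MvPolynomial (Fin s) κ) R := inferInstance
  have : FaithfulSMul (MvPolynomial (Fin s) κ) R :=
    (faithfulSMul_iff_algebraMap_injective _ _).2 hgi
  have : IsNoetherianRing R := Algebra.FiniteType.isNoetherianRing κ R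
  have htr : Algebra.trdeg κ R = s := by
    have h := trdeg_add_eq κ (MvPolynomial (Fin s) κ) (A := R)
    rw [trdeg_eq_zero (R := MvPolynomial (Fin s) κ) (A := R), add_zero,
      MvPolynomial.trdeg_of_isDomain] at h
    rw [← h]
    simp
  have hs : r + 1 ≤ s := by
    rw [htr] at hr
    exact_mod_cast hr
  have hker : (RingHom.ker u).IsPrime := RingHom.ker_isPrime u
  have hle : Ideal.span {f} ≤ RingHom.ker u := by
    rw [Ideal.span_singleton_le_iff_mem]
    exact hf
  obtain ⟨P, hP, hPu⟩ := Ideal.exists_minimalPrimes_le hle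
  have hPp : P.IsPrime := hP.isPrime
  have hfP : f ∈ P := hP.1.2 (Ideal.mem_span_singleton_self f)
  have hht : P.height ≤ 1 := Ideal.height_le_one_of_isPrincipal_of_mem_minimalPrimes _ P hP
  have hq : P.under (MvPolynomial (Fin s) κ) ≠ ⊥ :=
    Ideal.comap_ne_bot_of_integral_mem hf0 hfP (Algebra.IsIntegral.isIntegral f)
  obtain ⟨π, hπP, hπ⟩ := Ideal.IsPrime.exists_mem_prime_of_ne_bot
    (inferInstance : (P.under (MvPolynomial (Fin s) κ)).IsPrime) hq
  have hπp : (Ideal.span {π}).IsPrime := (Ideal.span_singleton_prime hπ.ne_zero).2 hπ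
  have hqe : Ideal.span {π} = P.under (MvPolynomial (Fin s) κ) := by
    by_contra hne
    have hlt : Ideal.span {π} < P.under (MvPolynomial (Fin s) κ) := by
      refine lt_of_le_of_ne ?_ hne
      rwa [Ideal.span_singleton_le_iff_mem]
    obtain ⟨Q, hQP, hQp, hQo⟩ := Ideal.exists_ideal_lt_liesOver_of_lt P hlt
    have hQ0 : ⊥ < Q := by
      rw [bot_lt_iff_ne_bot]
      rintro rfl
      have h1 : π ∈ (⊥ : Ideal R).under (MvPolynomial (Fin s) κ) := by
        rw [← hQo.over]
        exact Ideal.mem_span_singleton_self π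
      exact hπ.ne_zero (by simpa using h1)
    have hbot : (⊥ : Ideal R).IsPrime := Ideal.isPrime_bot
    have h1 := Ideal.height_strict_mono_of_isPrime hQ0
    have h2 := Ideal.height_strict_mono_of_isPrime hQP
    have h3 : (1 : ℕ∞) ≤ Q.height := Order.one_le_iff_pos.2 (lt_of_le_of_lt bot_le h1)
    exact absurd hht (not_le.2 (lt_of_le_of_lt h3 h2))
  refine ⟨P, hPp, hfP, hPu, ?_⟩
  let φ : (MvPolynomial (Fin s) κ ⧸ Ideal.span {π}) →ₐ[κ] R ⧸ P :=
    Ideal.quotientMapₐ P g (by rw [hqe]; exact le_rfl)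
  have hφ : Function.Injective φ := by
    have hge : (P.comap g.toRingHom) = Ideal.span {π} := hqe.symm
    exact Ideal.quotientMap_injective' (f := g.toRingHom) (H := hge.ge) hge.le
  exact le_trans (trdeg_quot_prime π hπ r hs) (trdeg_le_of_injective φ hφ)

/-- Pulling a prime back from a quotient. -/
theorem pull {κ R : Type} [Field κ] [CommRing R] [Algebra κ R]
    (u : R →ₐ[κ] κ) (P : Ideal R) (hPu : P ≤ RingHom.ker u) (u' : (R ⧸ P) →ₐ[κ] κ)
    (hu' : ∀ x, u' (Ideal.Quotient.mk P x) = u x) (Q : Ideal (R ⧸ P)) (hQ : Q.IsPrime)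
    (hQu : Q ≤ RingHom.ker u') :
    (Q.comap (Ideal.Quotient.mk P)).IsPrime ∧ P ≤ Q.comap (Ideal.Quotient.mk P) ∧
      Q.comap (Ideal.Quotient.mk P) ≤ RingHom.ker u ∧
      Algebra.trdeg κ ((R ⧸ P) ⧸ Q) ≤ Algebra.trdeg κ (R ⧸ Q.comap (Ideal.Quotient.mk P)) := by
  refine ⟨Ideal.comap_isPrime _ _, ?_, ?_, ?_⟩
  · intro x hx
    rw [Ideal.mem_comap, Ideal.Quotient.eq_zero_iff_mem.2 hx]
    exact zero_mem _
  · intro x hx
    have := hQu (Ideal.mem_comap.1 hx)
    rw [RingHom.mem_ker] at this ⊢
    rw [← hu']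
    exact this
  · have hs : Function.Surjective
        (Ideal.quotientMapₐ Q (Ideal.Quotient.mkₐ κ P) le_rfl :
          (R ⧸ Q.comap (Ideal.Quotient.mkₐ κ P)) →ₐ[κ] ((R ⧸ P) ⧸ Q)) :=
      Ideal.quotientMap_surjective (f := (Ideal.Quotient.mkₐ κ P).toRingHom)
        (H := le_rfl) Ideal.Quotient.mk_surjective
    exact trdeg_le_of_surjective _ hs

theorem exists_pos {κ : Type} [Field κ] [IsAlgClosed κ] (r : ℕ) : ∀ {R : Type} [CommRing R]
    [IsDomain R] [Algebra κ R] [Algebra.FiniteType κ R] (u : R →ₐ[κ] κ)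
    (_ : ((r + 1 : ℕ) : Cardinal) ≤ Algebra.trdeg κ R) (f : Fin r → R) (_ : ∀ i, u (f i) = 0),
    ∃ 𝔭 : Ideal R, 𝔭.IsPrime ∧ (∀ i, f i ∈ 𝔭) ∧ 𝔭 ≤ RingHom.ker u ∧
      (1 : Cardinal) ≤ Algebra.trdeg κ (R ⧸ 𝔭) := by
  induction r with
  | zero =>
    intro R _ _ _ _ u hr f hf
    refine ⟨⊥, Ideal.isPrime_bot, fun i => i.elim0, bot_le, ?_⟩
    rw [(AlgEquiv.quotientBot κ R).trdeg_eq]
    simpa using hr
  | succ r ih =>
    intro R _ _ _ _ u hr f hf
    obtain ⟨P, hP, hfP, hPu, htr⟩ := cut u (r + 1) hr (f 0) (hf 0)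
    let u' : (R ⧸ P) →ₐ[κ] κ := Ideal.Quotient.liftₐ P u (fun a ha => hPu ha)
    have hu' : ∀ x, u' (Ideal.Quotient.mk P x) = u x := fun x => rfl
    obtain ⟨Q, hQ, hfQ, hQu, htr'⟩ := ih u' htr (fun i => Ideal.Quotient.mk P (f i.succ))
      (fun i => by rw [hu', hf])
    obtain ⟨h1, h2, h3, h4⟩ := pull u P hPu u' hu' Q hQ hQu
    refine ⟨_, h1, ?_, h3, htr'.trans h4⟩
    intro i
    refine Fin.cases ?_ (fun j => ?_) i
    · exact h2 hfP
    · exact Ideal.mem_comap.2 (hfQ j)

theorem curve_cut {κ R : Type} [Field κ] [IsAlgClosed κ] [CommRing R] [IsDomain R] [Algebra κ R]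
    [Algebra.FiniteType κ R] (u : R →ₐ[κ] κ) (r : ℕ)
    (hr : ((r + 1 : ℕ) : Cardinal) ≤ Algebra.trdeg κ R) (f : Fin r → R) (hf : ∀ i, u (f i) = 0) :
    ∃ 𝔭 : Ideal R, 𝔭.IsPrime ∧ (∀ i, f i ∈ 𝔭) ∧ 𝔭 ≤ RingHom.ker u ∧
      Algebra.trdeg κ (R ⧸ 𝔭) = 1 := by
  have : IsNoetherianRing R := Algebra.FiniteType.isNoetherianRing κ R
  obtain ⟨P, hPS, hmax⟩ := set_has_maximal_iff_noetherian.2 ‹_›
    {𝔭 : Ideal R | 𝔭.IsPrime ∧ (∀ i, f i ∈ 𝔭) ∧ 𝔭 ≤ RingHom.ker u ∧
      (1 : Cardinal) ≤ Algebra.trdeg κ (R ⧸ 𝔭)} (exists_pos r u hr f hf)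
  obtain ⟨hP, hfP, hPu, htr⟩ := hPS
  refine ⟨P, hP, hfP, hPu, le_antisymm ?_ htr⟩
  by_contra hlt
  rw [not_le] at hlt
  have h2 : ((1 + 1 : ℕ) : Cardinal) ≤ Algebra.trdeg κ (R ⧸ P) := by
    have := Order.succ_le_of_lt hlt
    have h5 : Order.succ ((1 : ℕ) : Cardinal) = ((1 : ℕ) : Cardinal) + 1 :=
      Cardinal.succ_natCast 1
    rw [Nat.cast_one] at h5
    rw [h5] at this
    rw [Nat.cast_add, Nat.cast_one]
    exact this
  -- an element of `ker u` outside `P`
  obtain ⟨x, hxu, hxP⟩ : ∃ x ∈ RingHom.ker u, x ∉ P := by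
    by_contra hcon
    push Not at hcon
    have hPe : P = RingHom.ker u := le_antisymm hPu hcon
    have hinj : Function.Injective (Ideal.Quotient.liftₐ P u (fun a ha => hPu ha)) := by
      rw [injective_iff_map_eq_zero]
      intro a
      obtain ⟨a, rfl⟩ := Ideal.Quotient.mk_surjective a
      intro ha
      rw [Ideal.Quotient.eq_zero_iff_mem, hPe]
      exact ha
    have h3 := trdeg_le_of_injective _ hinj
    have h4 : Algebra.trdeg κ κ = 0 := trdeg_eq_zero
    rw [h4] at h3
    exact absurd (hlt.trans_le h3) (by simp)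
  let u' : (R ⧸ P) →ₐ[κ] κ := Ideal.Quotient.liftₐ P u (fun a ha => hPu ha)
  have hu' : ∀ x, u' (Ideal.Quotient.mk P x) = u x := fun x => rfl
  obtain ⟨Q, hQ, hxQ, hQu, htrQ⟩ := cut u' 1 h2 (Ideal.Quotient.mk P x) (by rw [hu']; exact hxu)
  obtain ⟨k1, k2, k3, k4⟩ := pull u P hPu u' hu' Q hQ hQu
  have hmem : Q.comap (Ideal.Quotient.mk P) ∈ {𝔭 : Ideal R | 𝔭.IsPrime ∧ (∀ i, f i ∈ 𝔭) ∧
      𝔭 ≤ RingHom.ker u ∧ (1 : Cardinal) ≤ Algebra.trdeg κ (R ⧸ 𝔭)} := by
    refine ⟨k1, fun i => k2 (hfP i), k3, le_trans ?_ k4⟩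
    simpa using htrQ
  refine hmax _ hmem (lt_of_le_of_ne k2 ?_)
  intro heq
  apply hxP
  rw [heq]
  exact Ideal.mem_comap.2 hxQ

end Pool.Agent.Helper8.AlgCut
end

/- Helper16.DP.H40.AlgAvoid -/
section
set_option autoImplicit false

/-!
# Curves through a point of an integral affine variety avoiding a hypersurface (MP_0b9e0b_ag)
-/

namespace Pool.Agent.Helper40.AlgAvoid

open MvPolynomial Pool.Agent.Helper8.AlgCut

theorem cut_min {κ R : Type} [Field κ] [CommRing R] [IsDomain R] [Algebra κ R]
    [Algebra.FiniteType κ R] (r : ℕ) (hr : ((r + 1 : ℕ) : Cardinal) ≤ Algebra.trdeg κ R)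
    (f : R) (hf0 : f ≠ 0) (P : Ideal R) (hP : P ∈ (Ideal.span {f}).minimalPrimes) :
    (r : Cardinal) ≤ Algebra.trdeg κ (R ⧸ P) := by
  obtain ⟨s, g, hgi, hgf⟩ := exists_finite_inj_algHom_of_fg κ R
  let _ : Algebra (MvPolynomial (Fin s) κ) R := g.toRingHom.toAlgebra
  have hmap : ∀ x, algebraMap (MvPolynomial (Fin s) κ) R x = g x := fun _ => rfl
  have : IsScalarTower κ (MvPolynomial (Fin s) κ) R := IsScalarTower.of_algebraMap_eq'
    (g.comp_algebraMap).symm
  have : Module.Finite (MvPolynomial (Fin s) κ) R := hgf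
  have : Algebra.IsIntegral (MvPolynomial (Fin s) κ) R := inferInstance
  have : FaithfulSMul (MvPolynomial (Fin s) κ) R :=
    (faithfulSMul_iff_algebraMap_injective _ _).2 hgi
  have : IsNoetherianRing R := Algebra.FiniteType.isNoetherianRing κ R
  have htr : Algebra.trdeg κ R = s := by
    have h := trdeg_add_eq κ (MvPolynomial (Fin s) κ) (A := R)
    rw [trdeg_eq_zero (R := MvPolynomial (Fin s) κ) (A := R), add_zero,
      MvPolynomial.trdeg_of_isDomain] at h
    rw [← h]
    simp
  have hs : r + 1 ≤ s := by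
    rw [htr] at hr
    exact_mod_cast hr
  have hPp : P.IsPrime := hP.isPrime
  have hfP : f ∈ P := hP.1.2 (Ideal.mem_span_singleton_self f)
  have hht : P.height ≤ 1 := Ideal.height_le_one_of_isPrincipal_of_mem_minimalPrimes _ P hP
  have hq : P.under (MvPolynomial (Fin s) κ) ≠ ⊥ :=
    Ideal.comap_ne_bot_of_integral_mem hf0 hfP (Algebra.IsIntegral.isIntegral f)
  obtain ⟨π, hπP, hπ⟩ := Ideal.IsPrime.exists_mem_prime_of_ne_bot
    (inferInstance : (P.under (MvPolynomial (Fin s) κ)).IsPrime) hq
  have hπp : (Ideal.span {π}).IsPrime := (Ideal.span_singleton_prime hπ.ne_zero).2 hπ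
  have hqe : Ideal.span {π} = P.under (MvPolynomial (Fin s) κ) := by
    by_contra hne
    have hlt : Ideal.span {π} < P.under (MvPolynomial (Fin s) κ) := by
      refine lt_of_le_of_ne ?_ hne
      rwa [Ideal.span_singleton_le_iff_mem]
    obtain ⟨Q, hQP, hQp, hQo⟩ := Ideal.exists_ideal_lt_liesOver_of_lt P hlt
    have hQ0 : ⊥ < Q := by
      rw [bot_lt_iff_ne_bot]
      rintro rfl
      have h1 : π ∈ (⊥ : Ideal R).under (MvPolynomial (Fin s) κ) := by
        rw [← hQo.over]
        exact Ideal.mem_span_singleton_self π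
      exact hπ.ne_zero (by simpa using h1)
    have hbot : (⊥ : Ideal R).IsPrime := Ideal.isPrime_bot
    have h1 := Ideal.height_strict_mono_of_isPrime hQ0
    have h2 := Ideal.height_strict_mono_of_isPrime hQP
    have h3 : (1 : ℕ∞) ≤ Q.height := Order.one_le_iff_pos.2 (lt_of_le_of_lt bot_le h1)
    exact absurd hht (not_le.2 (lt_of_le_of_lt h3 h2))
  let φ : (MvPolynomial (Fin s) κ ⧸ Ideal.span {π}) →ₐ[κ] R ⧸ P :=
    Ideal.quotientMapₐ P g (by rw [hqe]; exact le_rfl)
  have hφ : Function.Injective φ := by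
    have hge : (P.comap g.toRingHom) = Ideal.span {π} := hqe.symm
    exact Ideal.quotientMap_injective' (f := g.toRingHom) (H := hge.ge) hge.le
  exact le_trans (trdeg_quot_prime π hπ r hs) (trdeg_le_of_injective φ hφ)

/-- The residue ring at a rational point has transcendence degree zero. -/
theorem trdeg_ker {κ R : Type} [Field κ] [CommRing R] [Algebra κ R] (u : R →ₐ[κ] κ)
    (P : Ideal R) (hP : P = RingHom.ker u) : Algebra.trdeg κ (R ⧸ P) = 0 := by
  have hPu : P ≤ RingHom.ker u := hP.le
  have hinj : Function.Injective (Ideal.Quotient.liftₐ P u (fun a ha => hPu ha)) := by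
    rw [injective_iff_map_eq_zero]
    intro a
    obtain ⟨a, rfl⟩ := Ideal.Quotient.mk_surjective a
    intro ha
    rw [Ideal.Quotient.eq_zero_iff_mem, hP]
    exact ha
  have h3 := trdeg_le_of_injective _ hinj
  have h4 : Algebra.trdeg κ κ = 0 := trdeg_eq_zero
  rw [h4] at h3
  exact le_antisymm h3 bot_le

theorem ker_isMaximal {κ R : Type} [Field κ] [CommRing R] [Algebra κ R] (u : R →ₐ[κ] κ) :
    (RingHom.ker u).IsMaximal := by
  apply RingHom.ker_isMaximal_of_surjective
  intro c
  exact ⟨algebraMap κ R c, by simp⟩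

/-- One step: a nonzero prime below the point avoiding `f`. -/
theorem step {κ R : Type} [Field κ] [CommRing R] [IsDomain R] [Algebra κ R]
    [Algebra.FiniteType κ R] (u : R →ₐ[κ] κ) (htr : ((1 + 1 : ℕ) : Cardinal) ≤ Algebra.trdeg κ R)
    (f : R) (hf : f ≠ 0) :
    ∃ 𝔮 : Ideal R, 𝔮.IsPrime ∧ 𝔮 ≠ ⊥ ∧ f ∉ 𝔮 ∧ 𝔮 ≤ RingHom.ker u ∧
      (1 : Cardinal) ≤ Algebra.trdeg κ (R ⧸ 𝔮) := by
  classical
  have : IsNoetherianRing R := Algebra.FiniteType.isNoetherianRing κ R
  have hmax := ker_isMaximal u
  have hfin := Ideal.finite_minimalPrimes_of_isNoetherianRing R (Ideal.span {f})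
  obtain ⟨h, hhu, hh⟩ : ∃ h ∈ RingHom.ker u,
      ∀ P ∈ insert ⊥ hfin.toFinset, h ∉ (P : Ideal R) := by
    by_contra hcon
    push Not at hcon
    have hsub : ((RingHom.ker u : Ideal R) : Set R) ⊆
        ⋃ P ∈ (↑(insert ⊥ hfin.toFinset) : Set (Ideal R)), ((P : Ideal R) : Set R) := by
      intro h hh
      obtain ⟨P, hP, hhP⟩ := hcon h hh
      exact Set.mem_biUnion (Finset.mem_coe.2 hP) hhP
    rw [Ideal.subset_union_prime (⊥ : Ideal R) (⊥ : Ideal R)] at hsub
    · obtain ⟨P, hP, hPu⟩ := hsub
      rw [Finset.mem_insert, Set.Finite.mem_toFinset] at hP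
      rcases hP with rfl | hP
      · have h1 : (⊥ : Ideal R) = RingHom.ker u := le_antisymm bot_le hPu
        have h2 := trdeg_ker u ⊥ h1
        rw [(AlgEquiv.quotientBot κ R).trdeg_eq] at h2
        rw [h2] at htr
        exact absurd htr (by simp)
      · have h1 : P = RingHom.ker u := (hmax.eq_of_le hP.isPrime.ne_top hPu).symm
        have h2 := cut_min 1 htr f hf P hP
        rw [trdeg_ker u P h1] at h2
        exact absurd h2 (by simp)
    · intro P hP _ _
      rw [Finset.mem_insert, Set.Finite.mem_toFinset] at hP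
      rcases hP with rfl | hP
      · exact Ideal.isPrime_bot
      · exact hP.isPrime
  have hh0 : h ≠ 0 := by
    intro h0
    exact hh ⊥ (Finset.mem_insert_self _ _) (by rw [h0]; exact zero_mem _)
  have hle : Ideal.span {h} ≤ RingHom.ker u := by
    rw [Ideal.span_singleton_le_iff_mem]
    exact hhu
  obtain ⟨Q, hQ, hQu⟩ := Ideal.exists_minimalPrimes_le hle
  have hQp : Q.IsPrime := hQ.isPrime
  have hhQ : h ∈ Q := hQ.1.2 (Ideal.mem_span_singleton_self h)
  refine ⟨Q, hQp, ?_, ?_, hQu, ?_⟩
  · rintro rfl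
    exact hh0 (by simpa using hhQ)
  · intro hfQ
    have hle2 : Ideal.span {f} ≤ Q := by
      rw [Ideal.span_singleton_le_iff_mem]
      exact hfQ
    obtain ⟨P, hP, hPQ⟩ := Ideal.exists_minimalPrimes_le hle2
    have hPp : P.IsPrime := hP.isPrime
    have hfP : f ∈ P := hP.1.2 (Ideal.mem_span_singleton_self f)
    rcases hPQ.lt_or_eq with hlt | rfl
    · have hht : Q.height ≤ 1 := Ideal.height_le_one_of_isPrincipal_of_mem_minimalPrimes _ Q hQ
      have hP0 : ⊥ < P := by
        rw [bot_lt_iff_ne_bot]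
        rintro rfl
        exact hf (by simpa using hfP)
      have hbot : (⊥ : Ideal R).IsPrime := Ideal.isPrime_bot
      have h1 := Ideal.height_strict_mono_of_isPrime hP0
      have h2 := Ideal.height_strict_mono_of_isPrime hlt
      have h3 : (1 : ℕ∞) ≤ P.height := Order.one_le_iff_pos.2 (lt_of_le_of_lt bot_le h1)
      exact absurd hht (not_le.2 (lt_of_le_of_lt h3 h2))
    · exact hh P (Finset.mem_insert_of_mem (hfin.mem_toFinset.2 hP)) hhQ
  · simpa using cut_min 1 htr h hh0 Q hQ

/-- Curves through a point, not contained in a given hypersurface. -/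
theorem curve_avoid {κ R : Type} [Field κ] [IsAlgClosed κ] [CommRing R] [IsDomain R] [Algebra κ R]
    [Algebra.FiniteType κ R] (u : R →ₐ[κ] κ) (htr : 1 ≤ Algebra.trdeg κ R) (f : R) (hf : f ≠ 0) :
    ∃ 𝔭 : Ideal R, 𝔭.IsPrime ∧ f ∉ 𝔭 ∧ 𝔭 ≤ RingHom.ker u ∧ Algebra.trdeg κ (R ⧸ 𝔭) = 1 := by
  have : IsNoetherianRing R := Algebra.FiniteType.isNoetherianRing κ R
  obtain ⟨P, hPS, hmax⟩ := set_has_maximal_iff_noetherian.2 ‹_›
    {𝔭 : Ideal R | 𝔭.IsPrime ∧ f ∉ 𝔭 ∧ 𝔭 ≤ RingHom.ker u ∧
      (1 : Cardinal) ≤ Algebra.trdeg κ (R ⧸ 𝔭)}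
    ⟨⊥, Ideal.isPrime_bot, by simpa using hf, bot_le, by
      rw [(AlgEquiv.quotientBot κ R).trdeg_eq]; exact htr⟩
  obtain ⟨hP, hfP, hPu, htrP⟩ := hPS
  refine ⟨P, hP, hfP, hPu, le_antisymm ?_ htrP⟩
  by_contra hlt
  rw [not_le] at hlt
  have h2 : ((1 + 1 : ℕ) : Cardinal) ≤ Algebra.trdeg κ (R ⧸ P) := by
    have := Order.succ_le_of_lt hlt
    have h5 : Order.succ ((1 : ℕ) : Cardinal) = ((1 : ℕ) : Cardinal) + 1 :=
      Cardinal.succ_natCast 1
    rw [Nat.cast_one] at h5
    rw [h5] at this
    rw [Nat.cast_add, Nat.cast_one]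
    exact this
  let u' : (R ⧸ P) →ₐ[κ] κ := Ideal.Quotient.liftₐ P u (fun a ha => hPu ha)
  have hu' : ∀ x, u' (Ideal.Quotient.mk P x) = u x := fun x => rfl
  have hf' : Ideal.Quotient.mk P f ≠ 0 := by
    rwa [Ne, Ideal.Quotient.eq_zero_iff_mem]
  obtain ⟨Q, hQ, hQ0, hfQ, hQu, htrQ⟩ := step u' h2 (Ideal.Quotient.mk P f) hf'
  obtain ⟨k1, k2, k3, k4⟩ := pull u P hPu u' hu' Q hQ hQu
  have hmem : Q.comap (Ideal.Quotient.mk P) ∈ {𝔭 : Ideal R | 𝔭.IsPrime ∧ f ∉ 𝔭 ∧
      𝔭 ≤ RingHom.ker u ∧ (1 : Cardinal) ≤ Algebra.trdeg κ (R ⧸ 𝔭)} :=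
    ⟨k1, fun h => hfQ (Ideal.mem_comap.1 h), k3, htrQ.trans k4⟩
  refine hmax _ hmem (lt_of_le_of_ne k2 ?_)
  intro heq
  apply hQ0
  rw [eq_bot_iff]
  intro y hy
  obtain ⟨y, rfl⟩ := Ideal.Quotient.mk_surjective y
  have h6 : y ∈ P := by
    rw [heq]
    exact Ideal.mem_comap.2 hy
  rw [Ideal.Quotient.eq_zero_iff_mem.2 h6]
  exact zero_mem _

/-- Points off a hypersurface. -/
theorem exists_point_ne {κ R : Type} [Field κ] [IsAlgClosed κ] [CommRing R] [IsDomain R]
    [Algebra κ R] [Algebra.FiniteType κ R] (f : R) (hf : f ≠ 0) : ∃ u : R →ₐ[κ] κ, u f ≠ 0 := by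
  have hnt : Nontrivial (Localization.Away f) := by
    refine (IsLocalization.injective (Localization.Away f)
      (powers_le_nonZeroDivisors_of_noZeroDivisors hf)).nontrivial
  obtain ⟨M, hM⟩ := Ideal.exists_maximal (Localization.Away f)
  let _ : Field (Localization.Away f ⧸ M) := Ideal.Quotient.field M
  have h1 : Algebra.FiniteType R (Localization.Away f) := inferInstance
  have h2 : Algebra.FiniteType κ (Localization.Away f) := Algebra.FiniteType.trans ‹_› h1
  have h3 : Algebra.FiniteType κ (Localization.Away f ⧸ M) :=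
    h2.of_surjective (Ideal.Quotient.mkₐ κ M) Ideal.Quotient.mk_surjective
  have h4 : Module.Finite κ (Localization.Away f ⧸ M) :=
    finite_of_finite_type_of_isJacobsonRing κ _
  have h5 : Function.Bijective (algebraMap κ (Localization.Away f ⧸ M)) :=
    IsAlgClosed.algebraMap_bijective_of_isIntegral
  let e : κ ≃ₐ[κ] (Localization.Away f ⧸ M) := AlgEquiv.ofBijective (Algebra.ofId κ _) h5
  let v : R →ₐ[κ] (Localization.Away f ⧸ M) :=
    (Ideal.Quotient.mkₐ κ M).comp (IsScalarTower.toAlgHom κ R (Localization.Away f))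
  refine ⟨(e.symm : (Localization.Away f ⧸ M) →ₐ[κ] κ).comp v, ?_⟩
  have h6 : IsUnit (v f) := by
    have h7 : IsUnit (algebraMap R (Localization.Away f) f) :=
      IsLocalization.Away.algebraMap_isUnit f
    exact h7.map (Ideal.Quotient.mk M)
  exact (h6.map (e.symm : (Localization.Away f ⧸ M) →ₐ[κ] κ)).ne_zero

end Pool.Agent.Helper40.AlgAvoid
end

/- Helper16.DP.PL.Alg -/
section
set_option autoImplicit false
set_option linter.unusedSectionVars false

/-! PL-15. Dimension theory for primes of a finitely generated algebra over a field.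

`trdeg_lt`: strict monotonicity (a nonzero element of `𝔮/𝔭` is transcendental over the lifts of an
algebraically independent family of `A/𝔮`).
`exists_cut`: a minimal prime over `𝔭 ⊔ (f)`, `f ∉ 𝔭`, is the preimage of a minimal prime over `(f)`
in `A/𝔭`: `cut_min`, with `Ideal.exists_minimalPrimes_le`.
`finite_div`: primes `𝔯 > 𝔭` with `trdeg A/𝔯 + 1 ≥ d = trdeg A/𝔭` which contain `f ∉ 𝔭` are minimal
over `𝔭 ⊔ (f)`. -/

namespace Pool.Agent.PL

variable {κ A : Type} [Field κ] [CommRing A] [Algebra κ A] [Algebra.FiniteType κ A]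

omit [Algebra.FiniteType κ A] in
/-- The quotient map `A/𝔭 → A/𝔮`. -/
theorem quot_factor (𝔭 𝔮 : Ideal A) (h : 𝔭 ≤ 𝔮) :
    ∃ g : (A ⧸ 𝔭) →ₐ[κ] (A ⧸ 𝔮), ∀ a : A, g (Ideal.Quotient.mk 𝔭 a) = Ideal.Quotient.mk 𝔮 a :=
  ⟨Ideal.Quotient.factorₐ κ h, fun a => rfl⟩

theorem exists_indep {R : Type} [CommRing R] [IsDomain R] [Algebra κ R] (d : ℕ)
    (hd : ((d : ℕ) : Cardinal) ≤ Algebra.trdeg κ R) :
    ∃ x : Fin d → R, AlgebraicIndependent κ x := by
  obtain ⟨s, hs⟩ := exists_isTranscendenceBasis κ R
  rw [← hs.cardinalMk_eq_trdeg, ← Cardinal.mk_fin, Cardinal.le_def] at hd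
  obtain ⟨e⟩ := hd
  exact ⟨fun i => (e i : R), hs.1.comp e e.injective⟩

theorem indep_lift {R S : Type} [CommRing R] [IsDomain R] [Algebra κ R] [CommRing S] [IsDomain S]
    [Algebra κ S] (g : R →ₐ[κ] S) (f : R) (hf : f ≠ 0) (hgf : g f = 0) (d : ℕ) (x : Fin d → R)
    (hx : AlgebraicIndependent κ (g ∘ x)) :
    ((d + 1 : ℕ) : Cardinal) ≤ Algebra.trdeg κ R := by
  have hx0 : AlgebraicIndependent κ x := hx.of_comp g
  have htr : Transcendental (Algebra.adjoin κ (Set.range x)) f := by
    intro halg
    obtain ⟨q, hq0, hq⟩ := halg.exists_nonzero_coeff_and_aeval_eq_zero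
      (mem_nonZeroDivisors_of_ne_zero hf)
    apply hq0
    have h1 : f ∣ (algebraMap (Algebra.adjoin κ (Set.range x)) R (q.coeff 0)) := by
      have h2 := map_dvd (Polynomial.aeval f) (Polynomial.X_dvd_sub_C (p := q))
      rw [map_sub, hq, zero_sub, dvd_neg, Polynomial.aeval_X, Polynomial.aeval_C] at h2
      exact h2
    obtain ⟨r, hr⟩ := h1
    have h3 : g ((q.coeff 0 : Algebra.adjoin κ (Set.range x)) : R) = 0 := by
      have h4 : ((q.coeff 0 : Algebra.adjoin κ (Set.range x)) : R) = f * r := hr
      rw [h4, map_mul, hgf, zero_mul]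
    have hmem : ((q.coeff 0 : Algebra.adjoin κ (Set.range x)) : R) ∈
        (MvPolynomial.aeval x : MvPolynomial (Fin d) κ →ₐ[κ] R).range := by
      rw [← Algebra.adjoin_range_eq_range_aeval]
      exact (q.coeff 0).2
    obtain ⟨P, hP⟩ := hmem
    have hP' : MvPolynomial.aeval x P = ((q.coeff 0 : Algebra.adjoin κ (Set.range x)) : R) := hP
    have h5 : MvPolynomial.aeval (g ∘ x) P = 0 := by
      rw [← h3, ← hP']
      have : (MvPolynomial.aeval (g ∘ x) : MvPolynomial (Fin d) κ →ₐ[κ] S) =
          g.comp (MvPolynomial.aeval x) := by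
        apply MvPolynomial.algHom_ext
        intro i
        simp
      rw [this]
      rfl
    have h6 : P = 0 := (algebraicIndependent_iff.1 hx) P h5
    apply Subtype.ext
    rw [← hP', h6, map_zero]
    rfl
  have hO := (hx0.option_iff_transcendental f).2 htr
  have h7 := hO.cardinalMk_le_trdeg
  refine le_trans ?_ h7
  rw [Cardinal.mk_fintype, Fintype.card_option, Fintype.card_fin]

theorem trdeg_lt (𝔭 𝔮 : Ideal A) (h𝔭 : 𝔭.IsPrime) (h𝔮 : 𝔮.IsPrime) (h : 𝔭 < 𝔮) (d : ℕ)
    (hd : ((d : ℕ) : Cardinal) ≤ Algebra.trdeg κ (A ⧸ 𝔮)) :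
    ((d + 1 : ℕ) : Cardinal) ≤ Algebra.trdeg κ (A ⧸ 𝔭) := by
  obtain ⟨g, hg⟩ := quot_factor (κ := κ) 𝔭 𝔮 h.le
  obtain ⟨y, hy⟩ := exists_indep d hd
  obtain ⟨f, hfq, hfp⟩ := SetLike.exists_of_lt h
  choose x hx using fun i => Ideal.Quotient.mk_surjective (y i)
  refine indep_lift g (Ideal.Quotient.mk 𝔭 f) ?_ ?_ d (fun i => Ideal.Quotient.mk 𝔭 (x i)) ?_
  · rwa [Ne, Ideal.Quotient.eq_zero_iff_mem]
  · rw [hg, Ideal.Quotient.eq_zero_iff_mem]
    exact hfq
  · have : g ∘ (fun i => Ideal.Quotient.mk 𝔭 (x i)) = y := by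
      funext i
      simp only [Function.comp_apply]
      rw [hg, hx]
    rw [this]
    exact hy

theorem trdeg_nat (𝔭 : Ideal A) (h𝔭 : 𝔭.IsPrime) : ∃ d : ℕ, Algebra.trdeg κ (A ⧸ 𝔭) = d := by
  have h : Algebra.trdeg κ (A ⧸ 𝔭) < Cardinal.aleph0 := trdeg_lt_aleph0_of_finiteType
  exact Cardinal.lt_aleph0.1 h

/-- A minimal prime over `𝔭 ⊔ (f)`. -/
theorem cut_sup (𝔭 𝔮 : Ideal A) (h𝔭 : 𝔭.IsPrime) (f : A) (hf : f ∉ 𝔭)
    (h𝔮 : 𝔮 ∈ (𝔭 ⊔ Ideal.span {f}).minimalPrimes) (d : ℕ)
    (hd : ((d + 1 : ℕ) : Cardinal) ≤ Algebra.trdeg κ (A ⧸ 𝔭)) :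
    ((d : ℕ) : Cardinal) ≤ Algebra.trdeg κ (A ⧸ 𝔮) := by
  have hq : 𝔮.IsPrime := h𝔮.isPrime
  have hpq : 𝔭 ≤ 𝔮 := le_sup_left.trans h𝔮.1.2
  have hfq : f ∈ 𝔮 := h𝔮.1.2 (Ideal.mem_sup_right (Ideal.mem_span_singleton_self f))
  set Q : Ideal (A ⧸ 𝔭) := 𝔮.map (Ideal.Quotient.mk 𝔭) with hQ
  have hker : RingHom.ker (Ideal.Quotient.mk 𝔭) ≤ 𝔮 := by rwa [Ideal.mk_ker]
  have hQp : Q.IsPrime := Ideal.map_isPrime_of_surjective Ideal.Quotient.mk_surjective hker
  have hQc : Q.comap (Ideal.Quotient.mk 𝔭) = 𝔮 := by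
    rw [hQ, Ideal.comap_map_of_surjective _ Ideal.Quotient.mk_surjective, sup_eq_left]
    intro a ha
    rw [Ideal.mem_comap, Ideal.mem_bot, Ideal.Quotient.eq_zero_iff_mem] at ha
    exact hpq ha
  have hmin : Q ∈ (Ideal.span {Ideal.Quotient.mk 𝔭 f}).minimalPrimes := by
    refine ⟨⟨hQp, ?_⟩, ?_⟩
    · rw [Ideal.span_singleton_le_iff_mem]
      exact Ideal.mem_map_of_mem _ hfq
    · rintro P ⟨hP, hfP⟩ hPQ
      have h1 : P.comap (Ideal.Quotient.mk 𝔭) ≤ 𝔮 := by
        rw [← hQc]
        exact Ideal.comap_mono hPQ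
      have h2 : 𝔭 ⊔ Ideal.span {f} ≤ P.comap (Ideal.Quotient.mk 𝔭) := by
        refine sup_le ?_ ?_
        · intro a ha
          rw [Ideal.mem_comap, Ideal.Quotient.eq_zero_iff_mem.2 ha]
          exact zero_mem _
        · rw [Ideal.span_singleton_le_iff_mem, Ideal.mem_comap]
          exact hfP (Ideal.mem_span_singleton_self _)
      have h3 : 𝔮 ≤ P.comap (Ideal.Quotient.mk 𝔭) :=
        h𝔮.2 ⟨Ideal.comap_isPrime _ _, h2⟩ h1
      rw [hQ, Ideal.map_le_iff_le_comap]
      exact h3
  have hf0 : Ideal.Quotient.mk 𝔭 f ≠ 0 := by rwa [Ne, Ideal.Quotient.eq_zero_iff_mem]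
  have h4 := Helper40.AlgAvoid.cut_min d hd _ hf0 Q hmin
  have e : ((A ⧸ 𝔭) ⧸ Q) ≃ₐ[κ] (A ⧸ 𝔮) := by
    rw [hQ]
    exact DoubleQuot.quotQuotEquivQuotOfLEₐ κ hpq
  rwa [e.trdeg_eq] at h4

theorem exists_cut (𝔭 𝔪 : Ideal A) (h𝔭 : 𝔭.IsPrime) (h𝔪 : 𝔪.IsPrime) (h : 𝔭 ≤ 𝔪) (f : A)
    (hf : f ∉ 𝔭) (hf𝔪 : f ∈ 𝔪) (d : ℕ)
    (hd : ((d + 1 : ℕ) : Cardinal) ≤ Algebra.trdeg κ (A ⧸ 𝔭)) :
    ∃ 𝔮 : Ideal A, 𝔮.IsPrime ∧ 𝔭 < 𝔮 ∧ 𝔮 ≤ 𝔪 ∧ f ∈ 𝔮 ∧
      ((d : ℕ) : Cardinal) ≤ Algebra.trdeg κ (A ⧸ 𝔮) := by
  have hle : 𝔭 ⊔ Ideal.span {f} ≤ 𝔪 := by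
    refine sup_le h ?_
    rwa [Ideal.span_singleton_le_iff_mem]
  obtain ⟨𝔮, h𝔮, h𝔮𝔪⟩ := Ideal.exists_minimalPrimes_le hle
  have hfq : f ∈ 𝔮 := h𝔮.1.2 (Ideal.mem_sup_right (Ideal.mem_span_singleton_self f))
  refine ⟨𝔮, h𝔮.isPrime, lt_of_le_of_ne (le_sup_left.trans h𝔮.1.2) ?_, h𝔮𝔪, hfq,
    cut_sup 𝔭 𝔮 h𝔭 f hf h𝔮 d hd⟩
  rintro rfl
  exact hf hfq

theorem finite_div (𝔭 : Ideal A) (h𝔭 : 𝔭.IsPrime) (d : ℕ) (hd : Algebra.trdeg κ (A ⧸ 𝔭) = d)
    (f : A) (hf : f ∉ 𝔭) :
    {𝔯 : Ideal A | 𝔯.IsPrime ∧ 𝔭 < 𝔯 ∧ f ∈ 𝔯 ∧ (d : Cardinal) ≤ Algebra.trdeg κ (A ⧸ 𝔯) + 1}.Finite :=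
  by
  have : IsNoetherianRing A := Algebra.FiniteType.isNoetherianRing κ A
  refine (Ideal.finite_minimalPrimes_of_isNoetherianRing A (𝔭 ⊔ Ideal.span {f})).subset ?_
  rintro 𝔯 ⟨h𝔯, hlt, hfr, htr⟩
  have hle : 𝔭 ⊔ Ideal.span {f} ≤ 𝔯 := by
    refine sup_le hlt.le ?_
    rwa [Ideal.span_singleton_le_iff_mem]
  obtain ⟨𝔮, h𝔮, h𝔮𝔯⟩ := Ideal.exists_minimalPrimes_le hle
  have hfq : f ∈ 𝔮 := h𝔮.1.2 (Ideal.mem_sup_right (Ideal.mem_span_singleton_self f))
  rcases h𝔮𝔯.lt_or_eq with hlt2 | rfl
  · exfalso
    have hpq : 𝔭 < 𝔮 := by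
      refine lt_of_le_of_ne (le_sup_left.trans h𝔮.1.2) ?_
      rintro rfl
      exact hf hfq
    obtain ⟨e, he⟩ := trdeg_nat (κ := κ) 𝔯 h𝔯
    have h1 := trdeg_lt (κ := κ) 𝔮 𝔯 h𝔮.isPrime h𝔯 hlt2 e he.ge
    have h2 := trdeg_lt (κ := κ) 𝔭 𝔮 h𝔭 h𝔮.isPrime hpq (e + 1) h1
    rw [hd] at h2
    rw [he] at htr
    have h3 : e + 1 + 1 ≤ d := by exact_mod_cast h2
    have h4 : d ≤ e + 1 := by exact_mod_cast htr
    omega
  · exact h𝔮

/-- If every element of `A` is congruent modulo `𝔯` to a polynomial in `n` elements, the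
transcendence degree is at most `n`. -/
theorem trdeg_le_of_gen (𝔯 : Ideal A) (h𝔯 : 𝔯.IsPrime) (n : ℕ) (x : Fin n → A)
    (h : ∀ a : A, ∃ P : MvPolynomial (Fin n) κ, a - MvPolynomial.aeval x P ∈ 𝔯) :
    Algebra.trdeg κ (A ⧸ 𝔯) ≤ n := by
  have hs : Function.Surjective ((Ideal.Quotient.mkₐ κ 𝔯).comp
      (MvPolynomial.aeval x : MvPolynomial (Fin n) κ →ₐ[κ] A)) := by
    intro a
    obtain ⟨a, rfl⟩ := Ideal.Quotient.mk_surjective a
    obtain ⟨P, hP⟩ := h a
    refine ⟨P, ?_⟩
    have : Ideal.Quotient.mk 𝔯 (MvPolynomial.aeval x P) = Ideal.Quotient.mk 𝔯 a :=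
      (Ideal.Quotient.eq.2 hP).symm
    exact this
  have h1 := trdeg_le_of_surjective _ hs
  refine h1.trans ?_
  rw [MvPolynomial.trdeg_of_isDomain]
  simp

end Pool.Agent.PL
end

/- Helper16.DP.HC.Spec -/
section
set_option autoImplicit false

/-!
Project HC (MP_0b9e0b_ag), module B1: specialisation of a point at a place, residually independent
elements, finiteness.
-/

namespace Pool.Agent.HC

open Pool.Agent.Helper16

variable {K σ : Type} [Field K] {N : Type} [Field N] [Algebra K N]

section res

variable (v : Place K N)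

theorem res_ne_zero_iff {a : N} (ha : a ∈ v.ring) : v.res a ≠ 0 ↔ v.val a = 1 := by
  rw [Ne, v.res_eq_zero_iff ha, not_lt]
  exact ⟨fun h => le_antisymm ha h, fun h => h.ge⟩

theorem mem_ring_of_val_one {a : N} (ha : v.val a = 1) : a ∈ v.ring := by
  rw [v.mem_ring, ha]

theorem res_div {a b : N} (ha : a ∈ v.ring) (hb : v.val b = 1) :
    a / b ∈ v.ring ∧ v.res (a / b) = v.res a / v.res b := by
  have hb1 := mem_ring_of_val_one v hb
  have hb0 : b ≠ 0 := by
    rintro rfl
    rw [map_zero] at hb
    exact zero_ne_one hb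
  have h1 : a / b ∈ v.ring := by
    rw [v.mem_ring, map_div₀, hb, div_one]
    exact ha
  refine ⟨h1, ?_⟩
  rw [eq_div_iff ((res_ne_zero_iff v hb1).2 hb), ← v.res_mul h1 hb1, div_mul_cancel₀ _ hb0]

theorem exists_spec [Finite σ] {x : σ → N} (hx : x ≠ 0) : ∃ y : σ → v.resField, SpecAt v x y := by
  obtain ⟨j1, hj1⟩ := Function.ne_iff.1 hx
  have : Nonempty σ := ⟨j1⟩
  obtain ⟨j0, hj0⟩ := Finite.exists_max fun j => v.val (x j)
  have h0 : x j0 ≠ 0 := by
    intro h0
    have := hj0 j1
    rw [h0, map_zero] at this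
    have h2 : v.val (x j1) = 0 := le_antisymm this zero_le
    rw [map_eq_zero] at h2
    exact hj1 h2
  have hv0 : v.val (x j0) ≠ 0 := by rwa [Ne, map_eq_zero]
  have h1 : ∀ j, (x j0)⁻¹ * x j ∈ v.ring := by
    intro j
    rw [v.mem_ring, map_mul, map_inv₀, mul_comm]
    exact mul_inv_le_one_of_le₀ (hj0 j) zero_le
  refine ⟨fun j => v.res ((x j0)⁻¹ * x j), ?_, (x j0)⁻¹, inv_ne_zero h0, fun j => ⟨h1 j, rfl⟩⟩
  intro h
  have h2 := congrFun h j0
  simp only [inv_mul_cancel₀ h0, Pi.zero_apply, v.res_one] at h2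
  exact one_ne_zero h2

end res

variable {v : Place K N}

theorem SpecAt.normal {x : σ → N} {y : σ → v.resField} (h : SpecAt v x y) :
    ∃ j0, x j0 ≠ 0 ∧ y j0 ≠ 0 ∧ ∀ i, x i / x j0 ∈ v.ring ∧ v.res (x i / x j0) = y i / y j0 := by
  obtain ⟨h0, c, hc, h⟩ := h
  obtain ⟨j0, hj0⟩ := Function.ne_iff.1 h0
  change y j0 ≠ 0 at hj0
  have h1 : v.val (c * x j0) = 1 := by
    rw [← res_ne_zero_iff v (h j0).1, ← (h j0).2]
    exact hj0
  have h2 : x j0 ≠ 0 := by
    intro h2
    rw [h2, mul_zero, map_zero] at h1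
    exact zero_ne_one h1
  refine ⟨j0, h2, hj0, fun i => ?_⟩
  have h3 := res_div v (h i).1 h1
  rw [mul_div_mul_left _ _ hc, ← (h i).2, ← (h j0).2] at h3
  exact h3

theorem SpecAt.unique {x : σ → N} {y y' : σ → v.resField} (h : SpecAt v x y)
    (h' : SpecAt v x y') : ∃ c : v.resField, c ≠ 0 ∧ y' = fun j => c * y j := by
  obtain ⟨j0, hx0, hy0, h1⟩ := h.normal
  obtain ⟨h0', c', hc', h'⟩ := h'
  obtain ⟨j1, hj1⟩ := Function.ne_iff.1 h0'
  change y' j1 ≠ 0 at hj1
  have h2 : v.val (c' * x j1) = 1 := by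
    rw [← res_ne_zero_iff v (h' j1).1, ← (h' j1).2]
    exact hj1
  have h3 : v.val (c' * x j0) = 1 := by
    refine le_antisymm (h' j0).1 ?_
    have h4 : c' * x j1 = c' * x j0 * (x j1 / x j0) := by
      field_simp
    rw [← h2, h4, map_mul]
    exact mul_le_of_le_one_right' (h1 j1).1
  have h5 : y' j0 ≠ 0 := by
    rw [(h' j0).2, res_ne_zero_iff v (h' j0).1]
    exact h3
  refine ⟨y' j0 / y j0, div_ne_zero h5 hy0, ?_⟩
  funext i
  have h6 := (res_div v (h' i).1 h3).2
  rw [mul_div_mul_left _ _ hc', (h1 i).2, ← (h' i).2, ← (h' j0).2] at h6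
  rw [div_eq_div_iff hy0 h5] at h6
  field_simp
  linear_combination - h6

theorem SpecAt.homIdeal_eq {x : σ → N} {y y' : σ → v.resField} (h : SpecAt v x y)
    (h' : SpecAt v x y') : homIdeal K y' = homIdeal K y := by
  obtain ⟨c, hc, rfl⟩ := h.unique h'
  exact homIdeal_scale y hc

theorem SpecAt.ratioField_eq {x : σ → N} {y y' : σ → v.resField} (h : SpecAt v x y)
    (h' : SpecAt v x y') : ratioField K y' = ratioField K y := by
  obtain ⟨c, hc, rfl⟩ := h.unique h'
  exact ratioField_scale y hc

theorem SpecAt.scale {x : σ → N} {y : σ → v.resField} (h : SpecAt v x y) {a : N} (ha : a ≠ 0) :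
    SpecAt v (fun j => a * x j) y := by
  obtain ⟨h0, c, hc, h⟩ := h
  refine ⟨h0, c / a, div_ne_zero hc ha, fun j => ?_⟩
  have : c / a * (a * x j) = c * x j := by field_simp
  rw [this]
  exact h j

theorem aeval_res (v : Place K N) {ι : Type} {z : ι → N} (hz : ∀ a, z a ∈ v.ring)
    (P : MvPolynomial ι K) :
    MvPolynomial.aeval z P ∈ v.ring ∧
      v.res (MvPolynomial.aeval z P) = MvPolynomial.aeval (fun a => v.res (z a)) P := by
  have h1 : MvPolynomial.aeval z P =
      ((MvPolynomial.aeval (fun a => (⟨z a, hz a⟩ : v.ring)) P : v.ring) : N) := by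
    exact (MvPolynomial.comp_aeval_apply (fun a => (⟨z a, hz a⟩ : v.ring)) v.ring.val P).symm
  have h2 : MvPolynomial.aeval z P ∈ v.ring := by
    rw [h1]
    exact Subtype.prop _
  refine ⟨h2, ?_⟩
  rw [v.res_of_mem h2]
  have h3 : (⟨MvPolynomial.aeval z P, h2⟩ : v.ring) =
      MvPolynomial.aeval (fun a => (⟨z a, hz a⟩ : v.ring)) P := Subtype.ext h1
  rw [h3]
  have h4 : (fun a => v.res (z a)) =
      fun a => (IsScalarTower.toAlgHom K v.ring v.resField) ⟨z a, hz a⟩ := by
    funext a
    rw [v.res_of_mem (hz a)]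
    rfl
  rw [h4]
  exact MvPolynomial.comp_aeval_apply (fun a => (⟨z a, hz a⟩ : v.ring))
    (IsScalarTower.toAlgHom K v.ring v.resField) P

/-- The values of forms at the specialised point. -/
theorem SpecAt.aeval_form {x : σ → N} {y : σ → v.resField} (h : SpecAt v x y) :
    ∃ c : N, c ≠ 0 ∧ ∀ (d : ℕ) (F : MvPolynomial σ K), F.IsHomogeneous d →
      c ^ d * MvPolynomial.aeval x F ∈ v.ring ∧
      MvPolynomial.aeval y F = v.res (c ^ d * MvPolynomial.aeval x F) := by
  obtain ⟨h0, c, hc, h⟩ := h
  refine ⟨c, hc, fun d F hF => ?_⟩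
  have h1 := aeval_res v (fun j => (h j).1) F
  rw [aeval_scale x c hF] at h1
  have h2 : y = fun j => v.res (c * x j) := funext fun j => (h j).2
  rw [h2]
  exact ⟨h1.1, h1.2.symm⟩

theorem SpecAt.isPt {I : Set (MvPolynomial σ K)} (hI : ∀ P ∈ I, ∃ d, P.IsHomogeneous d)
    {x : σ → N} {y : σ → v.resField} (h : SpecAt v x y) (hx : IsPt I x) : IsPt I y := by
  obtain ⟨c, hc, h1⟩ := h.aeval_form
  refine ⟨h.1, fun P hP => ?_⟩
  obtain ⟨d, hd⟩ := hI P hP
  rw [(h1 d P hd).2, hx.2 P hP, mul_zero, v.res_zero]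

/-! ### Residually independent elements -/

theorem indep_of_res {ι : Type} {z : ι → N} (hz : ∀ a, z a ∈ v.ring)
    (hind : AlgebraicIndependent K fun a => v.res (z a)) : AlgebraicIndependent K z := by
  rw [algebraicIndependent_iff] at hind ⊢
  intro P hP
  refine hind P ?_
  rw [← (aeval_res v hz P).2, hP, v.res_zero]

theorem val_one_of_indep {ι : Type} {z : ι → N} (hz : ∀ a, z a ∈ v.ring)
    (hind : AlgebraicIndependent K fun a => v.res (z a)) {a : N}
    (ha : a ∈ IntermediateField.adjoin K (Set.range z)) (ha0 : a ≠ 0) :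
    v.val a = 1 ∧ v.res a ∈ IntermediateField.adjoin K (Set.range fun a => v.res (z a)) := by
  obtain ⟨P, Q, rfl⟩ := (IntermediateField.mem_adjoin_range_iff K z a).1 ha
  have h1 : ∀ P : MvPolynomial ι K, MvPolynomial.aeval z P ≠ 0 →
      v.val (MvPolynomial.aeval z P) = 1 := by
    intro P hP
    rw [← res_ne_zero_iff v (aeval_res v hz P).1, (aeval_res v hz P).2]
    intro h0
    have := (algebraicIndependent_iff.1 hind) P h0
    rw [this, map_zero] at hP
    exact hP rfl
  have hP0 : MvPolynomial.aeval z P ≠ 0 := by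
    intro h
    rw [h, zero_div] at ha0
    exact ha0 rfl
  have hQ0 : MvPolynomial.aeval z Q ≠ 0 := by
    intro h
    rw [h, div_zero] at ha0
    exact ha0 rfl
  refine ⟨by rw [map_div₀, h1 P hP0, h1 Q hQ0, div_one], ?_⟩
  rw [(res_div v (aeval_res v hz P).1 (h1 Q hQ0)).2, (aeval_res v hz P).2, (aeval_res v hz Q).2]
  exact (IntermediateField.mem_adjoin_range_iff K _ _).2 ⟨P, Q, rfl⟩

theorem trdeg_le_of_inj {A B : Type} [CommRing A] [CommRing B] [Algebra K A] [Algebra K B]
    (f : A →ₐ[K] B) (hf : Function.Injective f) : Algebra.trdeg K A ≤ Algebra.trdeg K B :=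
  trdeg_le_of_injective f hf

/-- Abhyankar inequality. -/
theorem trdeg_resField_le (v : Place K N) {r : ℕ} (hN : Algebra.trdeg K N = r + 1) :
    Algebra.trdeg K v.resField ≤ r := by
  by_contra hcon
  rw [not_le] at hcon
  have h1 : ((r + 1 : ℕ) : Cardinal) ≤ Algebra.trdeg K v.resField := by
    rw [Nat.cast_add, Nat.cast_one, ← Cardinal.succ_natCast]
    exact Order.succ_le_of_lt hcon
  obtain ⟨y, hy⟩ := PL.exists_indep (r + 1) h1
  choose z hz hzy using fun i => v.res_surj (y i)
  obtain ⟨f, hf0, hf⟩ := v.exists_uniformizer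
  have hf1 : v.val f < 1 := by rw [hf]; exact exp_neg_one_lt
  have hf2 : f ∈ v.ring := hf1.le
  have h2 := PL.indep_lift (κ := K) (R := v.ring) (S := v.resField)
    (IsScalarTower.toAlgHom K v.ring v.resField) ⟨f, hf2⟩
    (fun h => hf0 (congrArg Subtype.val h))
    (by
      have : v.res f = 0 := (v.res_eq_zero_iff hf2).2 hf1
      rw [v.res_of_mem hf2] at this
      exact this) (r + 1) (fun i => ⟨z i, hz i⟩)
    (by
      have : (IsScalarTower.toAlgHom K v.ring v.resField ∘ fun i => (⟨z i, hz i⟩ : v.ring)) =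
          y := by
        funext i
        rw [← hzy i, v.res_of_mem (hz i)]
        rfl
      rw [this]
      exact hy)
  have h3 := trdeg_le_of_inj v.ring.val (Subtype.val_injective)
  rw [hN] at h3
  have h4 := h2.trans h3
  have h5 : ((r + 1 + 1 : ℕ) : Cardinal) ≤ ((r + 1 : ℕ) : Cardinal) := by
    refine h4.trans ?_
    rw [Nat.cast_add, Nat.cast_one]
  rw [Nat.cast_le] at h5
  omega

end Pool.Agent.HC
end

/- Helper16.DP.HC.LinMap -/
section
set_option autoImplicit false

/-!
Project HC (MP_0b9e0b_ag): functoriality of cycles and of rational equivalence under a linear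
embedding of projective spaces, given by a surjective homomorphism `φ` of polynomial rings which
sends the coordinates to linear forms.
-/

namespace Pool.Agent.HC

open Pool.Agent.Helper16

variable {K σ τ : Type} [Field K] {N : Type} [Field N] [Algebra K N]
  {φ : MvPolynomial σ K →ₐ[K] MvPolynomial τ K}

/-- The map sends forms of degree `d` to forms of degree `d`. -/
theorem lin_isHomogeneous (hφ : ∀ j, (φ (MvPolynomial.X j)).IsHomogeneous 1)
    {F : MvPolynomial σ K} {d : ℕ} (hF : F.IsHomogeneous d) : (φ F).IsHomogeneous d := by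
  have h0 : φ = MvPolynomial.aeval fun j => φ (MvPolynomial.X j) :=
    MvPolynomial.algHom_ext fun j => by rw [MvPolynomial.aeval_X]
  rw [h0, ← one_mul d]
  exact hF.aeval _ hφ

/-- The map commutes with the homogeneous components. -/
theorem lin_component (hφ : ∀ j, (φ (MvPolynomial.X j)).IsHomogeneous 1)
    (F : MvPolynomial σ K) (n : ℕ) :
    MvPolynomial.homogeneousComponent n (φ F) = φ (MvPolynomial.homogeneousComponent n F) := by
  conv_lhs => rw [← MvPolynomial.sum_homogeneousComponent F]
  rw [map_sum, map_sum]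
  have h1 : ∀ i, MvPolynomial.homogeneousComponent n
      (φ (MvPolynomial.homogeneousComponent i F)) =
      if i = n then φ (MvPolynomial.homogeneousComponent n F) else 0 := by
    intro i
    have h2 := lin_isHomogeneous hφ (MvPolynomial.homogeneousComponent_isHomogeneous i F)
    split_ifs with h
    · subst h
      exact MvPolynomial.homogeneousComponent_of_mem h2 |>.trans (if_pos rfl)
    · exact MvPolynomial.homogeneousComponent_of_mem h2 |>.trans (if_neg fun h' => h h'.symm)
  simp only [h1]
  rw [Finset.sum_ite_eq']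
  split_ifs with h
  · rfl
  · rw [Finset.mem_range, not_lt] at h
    rw [MvPolynomial.homogeneousComponent_eq_zero _ _ (by omega), map_zero]

/-- The image of a point under the linear embedding. -/
noncomputable def linPush (φ : MvPolynomial σ K →ₐ[K] MvPolynomial τ K) {N : Type} [Field N]
    [Algebra K N] (x : τ → N) : σ → N :=
  fun j => MvPolynomial.aeval x (φ (MvPolynomial.X j))

theorem aeval_linPush (x : τ → N) (F : MvPolynomial σ K) :
    MvPolynomial.aeval (linPush φ x) F = MvPolynomial.aeval x (φ F) := by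
  have h : (MvPolynomial.aeval (linPush φ x) : MvPolynomial σ K →ₐ[K] N) =
      (MvPolynomial.aeval x).comp φ :=
    MvPolynomial.algHom_ext fun j => by
      rw [MvPolynomial.aeval_X]
      rfl
  rw [h]
  rfl

theorem homIdeal_linPush (hφ : ∀ j, (φ (MvPolynomial.X j)).IsHomogeneous 1) (x : τ → N) :
    homIdeal K (linPush φ x) = (homIdeal K x).comap φ := by
  ext F
  rw [Ideal.mem_comap, mem_homIdeal_iff, mem_homIdeal_iff]
  refine forall_congr' fun n => ?_
  rw [aeval_linPush, ← lin_component hφ]

/-- The value of a form of degree one is a linear combination of the coordinates. -/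
theorem aeval_deg_one (x : τ → N) {F : MvPolynomial τ K} (hF : F.IsHomogeneous 1) :
    MvPolynomial.aeval x F ∈ Submodule.span K (Set.range x) := by
  classical
  rw [MvPolynomial.aeval_def, MvPolynomial.eval₂_eq]
  refine Submodule.sum_mem _ fun e he => ?_
  have h1 : e.sum (fun _ n => n) = 1 := by
    have := hF (MvPolynomial.mem_support_iff.1 he)
    rw [Finsupp.weight_apply] at this
    simpa [Finsupp.sum] using this
  obtain ⟨i, rfl⟩ := (Finsupp.sum_eq_one_iff e).1 h1
  rw [Finsupp.support_single _ one_ne_zero, Finset.prod_singleton, Finsupp.single_eq_same, pow_one,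
    ← Algebra.smul_def]
  exact Submodule.smul_mem _ _ (Submodule.subset_span ⟨i, rfl⟩)

theorem ratioField_le_of_span {x : τ → N} {x' : σ → N}
    (h : ∀ j, x' j ∈ Submodule.span K (Set.range x)) : ratioField K x' ≤ ratioField K x := by
  unfold ratioField
  rw [IntermediateField.adjoin_le_iff]
  rintro _ ⟨⟨i, j⟩, rfl⟩
  change x' i / x' j ∈ ratioField K x
  by_cases hj : x' j = 0
  · rw [hj, div_zero]
    exact zero_mem _
  · have hx : ∃ i0, x i0 ≠ 0 := by
      by_contra hc
      push Not at hc
      have h1 := h j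
      have h2 : Submodule.span K (Set.range x) ≤ ⊥ := by
        rw [Submodule.span_le]
        rintro _ ⟨i, rfl⟩
        exact hc i
      exact hj (h2 h1)
    obtain ⟨i0, hi0⟩ := hx
    have h3 : ∀ u ∈ Submodule.span K (Set.range x), u / x i0 ∈ ratioField K x := by
      intro u hu
      induction hu using Submodule.span_induction with
      | mem u hu =>
        obtain ⟨i, rfl⟩ := hu
        exact div_mem_ratioField x i i0
      | zero =>
        rw [zero_div]
        exact zero_mem _
      | add u w _ _ hu hw =>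
        rw [add_div]
        exact add_mem hu hw
      | smul a u _ hu =>
        rw [smul_div_assoc]
        exact (ratioField K x).smul_mem hu
    have h4 : x' i / x' j = (x' i / x i0) / (x' j / x i0) := by
      rw [div_div_div_cancel_right₀ hi0]
    rw [h4]
    exact div_mem (h3 _ (h i)) (h3 _ (h j))

/-- The coordinates of a point are linear combinations of the coordinates of the image. -/
theorem mem_span_linPush (hφ : ∀ j, (φ (MvPolynomial.X j)).IsHomogeneous 1)
    (hs : Function.Surjective φ) (x : τ → N) (i : τ) :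
    x i ∈ Submodule.span K (Set.range (linPush φ x)) := by
  obtain ⟨F, hF⟩ := hs (MvPolynomial.X i)
  have h1 : φ (MvPolynomial.homogeneousComponent 1 F) = MvPolynomial.X i := by
    rw [← lin_component hφ, hF]
    exact MvPolynomial.homogeneousComponent_of_mem (MvPolynomial.isHomogeneous_X K i) |>.trans
      (if_pos rfl)
  have h2 := aeval_deg_one (linPush φ x) (MvPolynomial.homogeneousComponent_isHomogeneous 1 F)
  rwa [aeval_linPush, h1, MvPolynomial.aeval_X] at h2

theorem linPush_ne_zero (hφ : ∀ j, (φ (MvPolynomial.X j)).IsHomogeneous 1)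
    (hs : Function.Surjective φ) {x : τ → N} (hx : x ≠ 0) : linPush φ x ≠ 0 := by
  intro h
  refine hx (funext fun i => ?_)
  have h1 := mem_span_linPush hφ hs x i
  have h2 : Submodule.span K (Set.range (linPush φ x)) ≤ ⊥ := by
    rw [Submodule.span_le]
    rintro _ ⟨j, rfl⟩
    rw [h]
    rfl
  exact h2 h1

theorem ratioField_linPush (hφ : ∀ j, (φ (MvPolynomial.X j)).IsHomogeneous 1)
    (hs : Function.Surjective φ) (x : τ → N) : ratioField K (linPush φ x) = ratioField K x :=
  le_antisymm (ratioField_le_of_span fun j => aeval_deg_one x (hφ j))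
    (ratioField_le_of_span (mem_span_linPush hφ hs x))

theorem SpecAt.linPush (hφ : ∀ j, (φ (MvPolynomial.X j)).IsHomogeneous 1)
    (hs : Function.Surjective φ) {v : Place K N} {x : τ → N} {y : τ → v.resField}
    (h : SpecAt v x y) : SpecAt v (linPush φ x) (linPush φ y) := by
  obtain ⟨hy, c, hc, h1⟩ := h
  refine ⟨linPush_ne_zero hφ hs hy, c, hc, fun j => ?_⟩
  have h2 := aeval_res v (fun i => (h1 i).1) (φ (MvPolynomial.X j))
  rw [aeval_scale x c (hφ j), pow_one] at h2
  have h3 : y = fun i => v.res (c * x i) := funext fun i => (h1 i).2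
  refine ⟨h2.1, ?_⟩
  change MvPolynomial.aeval y (φ (MvPolynomial.X j)) = _
  rw [h3]
  exact h2.2.symm

variable {I : Set (MvPolynomial τ K)} {J : Set (MvPolynomial σ K)} {s : ℕ}

theorem IsPt.linPush (hφ : ∀ j, (φ (MvPolynomial.X j)).IsHomogeneous 1)
    (hs : Function.Surjective φ) (hJ : ∀ F ∈ J, φ F ∈ Ideal.span I) {x : τ → N} (hx : IsPt I x) :
    IsPt J (linPush φ x) := by
  refine ⟨linPush_ne_zero hφ hs hx.1, fun F hF => ?_⟩
  rw [aeval_linPush]
  have h1 : Ideal.span I ≤ RingHom.ker (MvPolynomial.aeval x : MvPolynomial τ K →ₐ[K] N) := by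
    rw [Ideal.span_le]
    intro P hP
    exact hx.2 P hP
  exact h1 (hJ F hF)

/-- The pushforward of cycles. -/
noncomputable def linMapCyc (φ : MvPolynomial σ K →ₐ[K] MvPolynomial τ K) :
    (Ideal (MvPolynomial τ K) →₀ ℚ) →ₗ[ℚ] (Ideal (MvPolynomial σ K) →₀ ℚ) :=
  Finsupp.lmapDomain ℚ ℚ (Ideal.comap φ)

theorem linMapCyc_single (P : Ideal (MvPolynomial τ K)) (c : ℚ) :
    linMapCyc φ (Finsupp.single P c) = Finsupp.single (P.comap φ) c :=
  Finsupp.mapDomain_single

/-- The pushforward respects rational equivalence. -/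
theorem linMapCyc_rat (hφ : ∀ j, (φ (MvPolynomial.X j)).IsHomogeneous 1)
    (hs : Function.Surjective φ) (hJ : ∀ F ∈ J, φ F ∈ Ideal.span I) :
    rat I s ≤ (rat J s).comap (linMapCyc φ) := by
  unfold rat
  rw [Submodule.span_le]
  rintro z ⟨N, _, _, x, f, S, y, h1, h2, h3, h4, h5, h6, rfl⟩
  refine Submodule.subset_span ?_
  refine ⟨N, _, _, linPush φ x, f, S, fun v => linPush φ (y v), h1, h2, h3.linPush hφ hs hJ, h4,
    fun v => (h5 v).linPush hφ hs, fun v => ?_, ?_⟩
  · rw [h6 v, ratioField_linPush hφ hs]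
  · rw [map_sum]
    refine Finset.sum_congr rfl fun v _ => ?_
    rw [linMapCyc_single, homIdeal_linPush hφ, ratioField_linPush hφ hs]

/-- The image of an integral subscheme. -/
theorem IsSub.comap (hφ : ∀ j, (φ (MvPolynomial.X j)).IsHomogeneous 1)
    (hs : Function.Surjective φ) (hJ : ∀ F ∈ J, φ F ∈ Ideal.span I)
    {P : Ideal (MvPolynomial τ K)} (hP : IsSub I s P) : IsSub J s (P.comap φ) := by
  have := hP.prime
  refine ⟨Ideal.comap_isPrime _ _, fun F hF n => ?_, fun F hF => ?_, ?_⟩
  · rw [Ideal.mem_comap, ← lin_component hφ]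
    exact hP.hom _ hF n
  · have h1 : Ideal.span I ≤ P := Ideal.span_le.2 hP.le
    exact h1 (hJ F hF)
  · rw [← hP.dim]
    have h2 : Function.Surjective ((Ideal.Quotient.mkₐ K P).comp φ) :=
      (Ideal.Quotient.mkₐ_surjective K P).comp hs
    have h3 : P.comap φ = RingHom.ker ((Ideal.Quotient.mkₐ K P).comp φ) := by
      ext F
      rw [Ideal.mem_comap, RingHom.mem_ker, AlgHom.comp_apply, Ideal.Quotient.mkₐ_eq_mk,
        Ideal.Quotient.eq_zero_iff_mem]
    rw [h3]
    exact (Ideal.quotientKerAlgEquivOfSurjective h2).trdeg_eq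

/-- Every integral subscheme of the target which lies in the image is an image. -/
theorem exists_comap (hφ : ∀ j, (φ (MvPolynomial.X j)).IsHomogeneous 1)
    (hs : Function.Surjective φ) (hker : RingHom.ker φ ≤ Ideal.span J)
    (hI : ∀ F ∈ I, F ∈ (Ideal.span J).map φ)
    {Q : Ideal (MvPolynomial σ K)} (hQ : IsSub J s Q) :
    ∃ P, IsSub I s P ∧ Q = P.comap φ := by
  have hprime := hQ.prime
  have hJQ : Ideal.span J ≤ Q := Ideal.span_le.2 hQ.le
  have hkQ : RingHom.ker φ ≤ Q := hker.trans hJQ
  have h1 : (Q.map φ).comap φ = Q := by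
    rw [Ideal.comap_map_of_surjective' φ hs]
    exact sup_eq_left.2 hkQ
  have hp : (Q.map φ).IsPrime := Ideal.map_isPrime_of_surjective hs hkQ
  refine ⟨Q.map φ, ⟨hp, fun F hF n => ?_, fun F hF => Ideal.map_mono hJQ (hI F hF), ?_⟩, h1.symm⟩
  · obtain ⟨F', rfl⟩ := hs F
    have h2 : F' ∈ Q := by
      rw [← h1]
      exact hF
    rw [lin_component hφ]
    exact Ideal.mem_map_of_mem φ (hQ.hom _ h2 n)
  · rw [← hQ.dim]
    have h2 : Function.Surjective ((Ideal.Quotient.mkₐ K (Q.map φ)).comp φ) :=
      (Ideal.Quotient.mkₐ_surjective K _).comp hs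
    have h3 : Q = RingHom.ker ((Ideal.Quotient.mkₐ K (Q.map φ)).comp φ) := by
      conv_lhs => rw [← h1]
      ext F
      rw [Ideal.mem_comap, RingHom.mem_ker, AlgHom.comp_apply, Ideal.Quotient.mkₐ_eq_mk,
        Ideal.Quotient.eq_zero_iff_mem]
    have h4 := (Ideal.quotientKerAlgEquivOfSurjective h2).trdeg_eq
    have h5 := (Ideal.quotientEquivAlgOfEq K h3).trdeg_eq
    exact (h5.trans h4).symm

/-- The cycles of dimension `s` on the variety with equations `I` are generated modulo rational
equivalence by at most `c` of them and by those which lie in the hypersurface `L = 0`. -/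
def GenBy (I : Set (MvPolynomial τ K)) (s : ℕ) (L : MvPolynomial τ K) (c : ℕ) : Prop :=
  ∃ G : Finset (Ideal (MvPolynomial τ K)), G.card ≤ c ∧ (∀ P ∈ G, IsSub I s P) ∧
    ∀ W : Submodule ℚ (Ideal (MvPolynomial τ K) →₀ ℚ), rat I s ≤ W →
      (∀ Q, IsSub I s Q → L ∈ Q → Finsupp.single Q (1 : ℚ) ∈ W) →
      (∀ P ∈ G, Finsupp.single P (1 : ℚ) ∈ W) → ∀ Q, IsSub I s Q → Finsupp.single Q (1 : ℚ) ∈ W

/-- Generation is transported by linear embeddings. -/
theorem GenBy.transport (hφ : ∀ j, (φ (MvPolynomial.X j)).IsHomogeneous 1)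
    (hs : Function.Surjective φ) (hJ : ∀ F ∈ J, φ F ∈ Ideal.span I)
    (hker : RingHom.ker φ ≤ Ideal.span J) (hI : ∀ F ∈ I, F ∈ (Ideal.span J).map φ)
    {L : MvPolynomial σ K} {c : ℕ} (h : GenBy I s (φ L) c) : GenBy J s L c := by
  classical
  obtain ⟨G, hGc, hG, hGW⟩ := h
  refine ⟨G.image (Ideal.comap φ), Finset.card_image_le.trans hGc, fun P hP => ?_,
    fun W hW hL hGW' Q hQ => ?_⟩
  · obtain ⟨P', hP', rfl⟩ := Finset.mem_image.1 hP
    exact (hG P' hP').comap hφ hs hJ
  · obtain ⟨P, hP, rfl⟩ := exists_comap hφ hs hker hI hQ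
    rw [← linMapCyc_single]
    refine hGW (W.comap (linMapCyc φ)) ((linMapCyc_rat hφ hs hJ).trans
      (Submodule.comap_mono hW)) (fun Q' hQ' hLQ' => ?_) (fun P' hP' => ?_) P hP
    · rw [Submodule.mem_comap, linMapCyc_single]
      exact hL _ (hQ'.comap hφ hs hJ) hLQ'
    · rw [Submodule.mem_comap, linMapCyc_single]
      exact hGW' _ (Finset.mem_image_of_mem _ hP')

end Pool.Agent.HC
end

/- HC.Const -/
section
set_option autoImplicit false
set_option linter.unusedSectionVars false

/-!
Project HC (MP_0b9e0b_ag), module B2 (part): points over an extension of `k(t)` whose coordinates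
are, up to scaling, independent of `t`.
-/

namespace Pool.Agent.HC

open Pool.Agent.Helper16

variable {k σ : Type} [Field k]

/-- The extension to `k(t)` of an ideal over `k`. -/
noncomputable def extId (P : Ideal (MvPolynomial σ k)) : Ideal (MvPolynomial σ (RatFunc k)) :=
  P.map (MvPolynomial.map (algebraMap k (RatFunc k)))

/-- The variable of `k(t)` in an extension field. -/
noncomputable def tv (k N : Type) [Field k] [Field N] [Algebra (RatFunc k) N] : N :=
  algebraMap (RatFunc k) N RatFunc.X

variable {N : Type} [Field N] [Algebra k N] [Algebra (RatFunc k) N] [IsScalarTower k (RatFunc k) N]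

theorem aeval_mapK (x : σ → N) (F : MvPolynomial σ k) :
    MvPolynomial.aeval x (MvPolynomial.map (algebraMap k (RatFunc k)) F) =
      MvPolynomial.aeval x F := by
  rw [MvPolynomial.aeval_map_algebraMap]

theorem aeval_mem_ratioField (x : σ → N) (j0 : σ) {d : ℕ}
    {F : MvPolynomial σ k} (hF : F.IsHomogeneous d) :
    MvPolynomial.aeval x F / x j0 ^ d ∈ ratioField k x := by
  have h1 := aeval_scale x (x j0)⁻¹ hF
  have h2 : MvPolynomial.aeval x F / x j0 ^ d =
      MvPolynomial.aeval (fun j => (x j0)⁻¹ * x j) F := by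
    rw [h1, inv_pow, div_eq_inv_mul]
  rw [h2]
  have h3 : (fun j => (x j0)⁻¹ * x j) = fun j =>
      (ratioField k x).val ⟨x j / x j0, div_mem_ratioField x j j0⟩ := by
    funext j
    change _ = x j / x j0
    rw [div_eq_inv_mul]
  rw [h3, ← MvPolynomial.comp_aeval_apply]
  exact Subtype.prop _

/-- Clearing denominators in a form over `k(t)`. -/
theorem clear_denom {F : MvPolynomial σ (RatFunc k)} {d : ℕ} (hd : F.IsHomogeneous d) :
    ∃ (q : Polynomial k) (B : ℕ) (G : ℕ → MvPolynomial σ k), q ≠ 0 ∧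
      (∀ n, (G n).IsHomogeneous d) ∧
      MvPolynomial.C (algebraMap (Polynomial k) (RatFunc k) q) * F =
        ∑ n ∈ Finset.range B, MvPolynomial.C (RatFunc.X ^ n) *
          MvPolynomial.map (algebraMap k (RatFunc k)) (G n) := by
  classical
  obtain ⟨q, hq⟩ := IsLocalization.exist_integer_multiples (nonZeroDivisors (Polynomial k))
    F.support (fun e => F.coeff e)
  choose! p hp using hq
  set G : ℕ → MvPolynomial σ k := fun n =>
    ∑ e ∈ F.support, MvPolynomial.monomial e ((p e).coeff n) with hG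
  have hGh : ∀ n, (G n).IsHomogeneous d := by
    intro n
    refine MvPolynomial.IsHomogeneous.sum _ _ _ fun e he => ?_
    refine MvPolynomial.isHomogeneous_monomial _ ?_
    have := hd (MvPolynomial.mem_support_iff.1 he)
    rw [Finsupp.weight_apply] at this
    simpa [Finsupp.sum, Finsupp.degree] using this
  set B := (F.support.sup fun e => (p e).natDegree) + 1 with hB
  have hpe : ∀ e ∈ F.support, algebraMap (Polynomial k) (RatFunc k) (p e) =
      ∑ n ∈ Finset.range B, algebraMap k (RatFunc k) ((p e).coeff n) * RatFunc.X ^ n := by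
    intro e he
    conv_lhs => rw [Polynomial.as_sum_range' (p e) B
      (Nat.lt_succ_of_le (Finset.le_sup (f := fun e => (p e).natDegree) he))]
    rw [map_sum]
    refine Finset.sum_congr rfl fun n _ => ?_
    rw [← Polynomial.C_mul_X_pow_eq_monomial, map_mul, map_pow, RatFunc.algebraMap_X,
      RatFunc.algebraMap_C]
    rfl
  refine ⟨q, B, G, nonZeroDivisors.coe_ne_zero q, hGh, ?_⟩
  ext e
  rw [MvPolynomial.coeff_C_mul, MvPolynomial.coeff_sum]
  simp only [MvPolynomial.coeff_C_mul, MvPolynomial.coeff_map, hG, MvPolynomial.coeff_sum,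
    MvPolynomial.coeff_monomial, Finset.sum_ite_eq']
  by_cases he : e ∈ F.support
  · have h1 := hp e he
    rw [Algebra.smul_def] at h1
    rw [← h1, hpe e he]
    refine Finset.sum_congr rfl fun n _ => ?_
    rw [if_pos he, mul_comm]
  · rw [MvPolynomial.notMem_support_iff.1 he, mul_zero]
    simp only [if_neg he, map_zero, mul_zero, Finset.sum_const_zero]

/-- The value at a point of a form over `k(t)` whose denominators have been cleared. -/
theorem clear_eval {F : MvPolynomial σ (RatFunc k)} {q : Polynomial k} {B : ℕ}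
    {G : ℕ → MvPolynomial σ k}
    (h : MvPolynomial.C (algebraMap (Polynomial k) (RatFunc k) q) * F =
        ∑ n ∈ Finset.range B, MvPolynomial.C (RatFunc.X ^ n) *
          MvPolynomial.map (algebraMap k (RatFunc k)) (G n)) (x : σ → N) :
    algebraMap (RatFunc k) N (algebraMap (Polynomial k) (RatFunc k) q) * MvPolynomial.aeval x F =
      ∑ n ∈ Finset.range B, tv k N ^ n * MvPolynomial.aeval x (G n) := by
  have h2 := congrArg (MvPolynomial.aeval x) h
  rw [map_mul, MvPolynomial.aeval_C, map_sum] at h2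
  rw [h2]
  refine Finset.sum_congr rfl fun n _ => ?_
  rw [map_mul, MvPolynomial.aeval_C, aeval_mapK, map_pow]
  rfl

theorem clear_eval_iff {F : MvPolynomial σ (RatFunc k)} {q : Polynomial k} (hq : q ≠ 0) {B : ℕ}
    {G : ℕ → MvPolynomial σ k}
    (h : MvPolynomial.C (algebraMap (Polynomial k) (RatFunc k) q) * F =
        ∑ n ∈ Finset.range B, MvPolynomial.C (RatFunc.X ^ n) *
          MvPolynomial.map (algebraMap k (RatFunc k)) (G n)) (x : σ → N) :
    MvPolynomial.aeval x F = 0 ↔
      ∑ n ∈ Finset.range B, tv k N ^ n * MvPolynomial.aeval x (G n) = 0 := by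
  rw [← clear_eval h x, mul_eq_zero, or_iff_right]
  rw [map_eq_zero, map_eq_zero_iff _ (IsFractionRing.injective (Polynomial k) (RatFunc k))]
  exact hq

theorem homIdeal_const {x : σ → N} (hx : x ≠ 0) (ht : Transcendental (ratioField k x) (tv k N)) :
    homIdeal (RatFunc k) x = extId (homIdeal k x) := by
  classical
  obtain ⟨j0, hj0⟩ := Function.ne_iff.1 hx
  change x j0 ≠ 0 at hj0
  refine le_antisymm ?_ ?_
  · unfold homIdeal
    rw [Ideal.span_le]
    rintro F ⟨⟨d, hd⟩, hF⟩
    obtain ⟨q, B, G, hq, hGh, hqF⟩ := clear_denom hd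
    have hq0 : algebraMap (Polynomial k) (RatFunc k) q ≠ 0 :=
      (map_ne_zero_iff _ (IsFractionRing.injective (Polynomial k) (RatFunc k))).2 hq
    -- the forms `G n` vanish at `x`
    have hGx : ∀ n ∈ Finset.range B, MvPolynomial.aeval x (G n) = 0 := by
      let a : ℕ → ratioField k x := fun n => ⟨_, aeval_mem_ratioField x j0 (hGh n)⟩
      have h1 : ∑ n ∈ Finset.range B, tv k N ^ n * MvPolynomial.aeval x (G n) = 0 :=
        (clear_eval_iff hq hqF x).1 hF
      have h2 : Polynomial.aeval (tv k N) (∑ n ∈ Finset.range B, Polynomial.C (a n) *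
          Polynomial.X ^ n) = 0 := by
        rw [map_sum]
        have h3 : ∀ n, Polynomial.aeval (tv k N) (Polynomial.C (a n) * Polynomial.X ^ n) =
            tv k N ^ n * MvPolynomial.aeval x (G n) / x j0 ^ d := by
          intro n
          rw [map_mul, Polynomial.aeval_C, map_pow, Polynomial.aeval_X]
          change MvPolynomial.aeval x (G n) / x j0 ^ d * _ = _
          ring
        simp only [h3]
        rw [← Finset.sum_div, h1, zero_div]
      have h3 : (∑ n ∈ Finset.range B, Polynomial.C (a n) * Polynomial.X ^ n) = 0 := by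
        by_contra h4
        exact ht ⟨_, h4, h2⟩
      intro n hn
      have h4 := congrArg (fun P => Polynomial.coeff P n) h3
      simp only [Polynomial.finsetSum_coeff, Polynomial.coeff_C_mul_X_pow,
        Polynomial.coeff_zero] at h4
      rw [Finset.sum_eq_single n] at h4
      · rw [if_pos rfl] at h4
        have h5 : MvPolynomial.aeval x (G n) / x j0 ^ d = 0 := congrArg Subtype.val h4
        exact (div_eq_zero_iff.1 h5).resolve_right (pow_ne_zero _ hj0)
      · intro m _ hmn
        rw [if_neg (Ne.symm hmn)]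
      · intro h; exact absurd hn h
    have h6 : F = MvPolynomial.C (algebraMap (Polynomial k) (RatFunc k) q)⁻¹ *
        ∑ n ∈ Finset.range B, MvPolynomial.C (RatFunc.X ^ n) *
          MvPolynomial.map (algebraMap k (RatFunc k)) (G n) := by
      rw [← hqF, ← mul_assoc, ← MvPolynomial.C_mul, inv_mul_cancel₀ hq0, MvPolynomial.C_1, one_mul]
    rw [SetLike.mem_coe, h6]
    refine Ideal.mul_mem_left _ _ (sum_mem fun n hn => Ideal.mul_mem_left _ _ ?_)
    refine Ideal.mem_map_of_mem _ ?_
    exact (mem_homIdeal_form x (hGh n)).2 (hGx n hn)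
  · unfold extId
    rw [Ideal.map_le_iff_le_comap]
    intro F hF
    rw [Ideal.mem_comap]
    refine Submodule.span_induction ?_ ?_ ?_ ?_ hF
    · rintro G ⟨⟨d, hd⟩, hG⟩
      refine Ideal.subset_span ⟨⟨d, hd.map _⟩, ?_⟩
      rw [aeval_mapK, hG]
    · rw [map_zero]; exact zero_mem _
    · intro a b _ _ ha hb
      rw [map_add]; exact add_mem ha hb
    · intro a b _ hb
      rw [smul_eq_mul, map_mul]
      exact Ideal.mul_mem_left _ _ hb

end Pool.Agent.HC
end

/- Helper16.DP.H16.FF9 -/
section
set_option autoImplicit false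
set_option linter.style.haveILetI false

namespace Pool.Agent.Helper16

open Polynomial IntermediateField IsDedekindDomain

section

variable {K N : Type} [Field K] [Field N] [Algebra K N]

/-- Every non-trivial valuation ring of a function field `N/K` containing `K` is the ring of a
place. -/
theorem IsFunctionField.exists_place (hN : IsFunctionField K N) (O : ValuationSubring N)
    (hK : ∀ a : K, algebraMap K N a ∈ O) (y : N) (hy : y ∉ O) :
    ∃ v : Place K N, ∀ x, v.val x ≤ 1 ↔ x ∈ O := by
  have hy0 : y ≠ 0 := by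
    rintro rfl
    exact hy (zero_mem _)
  have hytr : Transcendental K y := by
    intro halg
    exact hy ((IntOver.of_isIntegral (s := (0 : N)) halg.isIntegral).mem_valuationSubring O hK
      (zero_mem _))
  have hs : Transcendental K y⁻¹ := transcendental_inv hytr
  haveI := hN.finiteDimensional y⁻¹ hs
  haveI := isDedekindDomain_IC y⁻¹ hs
  haveI := isFractionRing_IC y⁻¹ hs
  have hsO : y⁻¹ ∈ O := by
    rcases O.mem_or_inv_mem y with h | h
    · exact absurd h hy
    · exact h
  have hIC : ∀ b : IC K y⁻¹, (b : N) ∈ O := fun b =>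
    IntOver.mem_valuationSubring (K := K) b.2 O hK hsO
  let P : Ideal (IC K y⁻¹) :=
    { carrier := {b | O.valuation (b : N) < 1}
      add_mem' := fun {a b} ha hb => O.valuation.map_add_lt ha hb
      zero_mem' := by
        change O.valuation ((0 : IC K y⁻¹) : N) < 1
        simp
      smul_mem' := by
        intro c b hb
        change O.valuation ((c * b : IC K y⁻¹) : N) < 1
        have h1 : ((c * b : IC K y⁻¹) : N) = (c : N) * (b : N) := rfl
        rw [h1, map_mul, mul_comm]
        exact mul_lt_one_of_lt_of_le hb ((O.valuation_le_one_iff _).2 (hIC c)) }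
  have hmem : ∀ b : IC K y⁻¹, b ∈ P ↔ O.valuation (b : N) < 1 := fun b => Iff.rfl
  have hprime : P.IsPrime := by
    refine ⟨?_, ?_⟩
    · rw [Ideal.ne_top_iff_one, hmem]
      have h1 : ((1 : IC K y⁻¹) : N) = 1 := rfl
      rw [h1, map_one]
      exact lt_irrefl _
    · intro a b hab
      rw [hmem] at hab
      have h1 : ((a * b : IC K y⁻¹) : N) = (a : N) * (b : N) := rfl
      rw [h1, map_mul] at hab
      by_contra hcon
      rw [not_or, hmem, hmem, not_lt, not_lt] at hcon
      exact absurd hab (not_lt.2 (one_le_mul hcon.1 hcon.2))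
  have hsP : sIC K y⁻¹ ∈ P := by
    rw [hmem]
    change O.valuation y⁻¹ < 1
    rw [map_inv₀]
    apply inv_lt_one_of_one_lt₀
    rw [← not_le, O.valuation_le_one_iff]
    exact hy
  have hbot : P ≠ ⊥ := by
    intro h0
    rw [h0] at hsP
    exact sIC_ne_zero hs hsP
  let Q : HeightOneSpectrum (IC K y⁻¹) := ⟨P, hprime, hbot⟩
  have hsub : ∀ x, (placeOfPrime y⁻¹ hs Q).val x ≤ 1 → x ∈ O := by
    intro x hx
    obtain ⟨n, d, hnd⟩ := Q.exists_primeCompl_mul_eq_of_integer (K := N) x hx
    have hd : O.valuation (algebraMap (IC K y⁻¹) N d) = 1 := by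
      refine le_antisymm ((O.valuation_le_one_iff _).2 (hIC d)) ?_
      by_contra hlt
      rw [not_le] at hlt
      exact d.2 hlt
    have h1 := congrArg O.valuation hnd
    rw [map_mul, hd, mul_one] at h1
    rw [← O.valuation_le_one_iff, h1, O.valuation_le_one_iff]
    exact hIC n
  refine ⟨placeOfPrime y⁻¹ hs Q, fun x => ⟨hsub x, fun hx => ?_⟩⟩
  by_contra hlt
  rw [not_le] at hlt
  set w := placeOfPrime y⁻¹ hs Q with hw
  have hx0 : x ≠ 0 := by
    rintro rfl
    simp at hlt
  -- a power of `x` has larger value than `y`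
  have h3 : ∃ n : ℕ, w.val y ≤ (w.val x) ^ n := by
    have h4 : 0 < WithZero.log (w.val x) := by
      have := (WithZero.log_lt_log one_ne_zero (by simpa using hx0)).2 hlt
      simpa using this
    refine ⟨(WithZero.log (w.val y)).toNat, ?_⟩
    rw [← WithZero.log_le_log (by simpa using hy0) (pow_ne_zero _ (by simpa using hx0)),
      WithZero.log_pow]
    have h5 : WithZero.log (w.val y) ≤ ((WithZero.log (w.val y)).toNat : ℤ) := Int.self_le_toNat _
    have h6 : ((WithZero.log (w.val y)).toNat : ℤ) ≤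
        ((WithZero.log (w.val y)).toNat : ℤ) * WithZero.log (w.val x) := by
      nlinarith only [h4]
    simpa using h5.trans h6
  obtain ⟨n, hn⟩ := h3
  apply hy
  have h7 : y * (x ^ n)⁻¹ ∈ O := by
    apply hsub
    rw [map_mul, map_inv₀, map_pow]
    apply mul_inv_le_one_of_le₀ hn
    exact zero_le
  have h8 : y = (y * (x ^ n)⁻¹) * x ^ n := by
    field_simp
  rw [h8]
  exact O.mul_mem _ _ h7 (O.toSubring.pow_mem hx n)

theorem finite_classGroup [Finite K] (s : N) (hs : Transcendental K s) [FiniteDimensional K⟮s⟯ N] :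
    Finite (ClassGroup (IC K s)) := by
  classical
  letI := algX K s
  haveI := isDedekindDomain_IC s hs
  haveI := finite_integralClosure s hs
  haveI := faithfulX s hs
  haveI : FaithfulSMul K[X] (IC K s) := by
    rw [faithfulSMul_iff_algebraMap_injective]
    intro a b hab
    apply (faithfulSMul_iff_algebraMap_injective K[X] N).1 (faithfulX s hs)
    exact congrArg Subtype.val hab
  haveI : Module.Free K[X] (IC K s) := inferInstance
  letI := Fintype.ofFinite K
  have bS := Module.Free.chooseBasis K[X] (IC K s)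
  haveI : Algebra.IsAlgebraic K[X] (IC K s) := Algebra.IsIntegral.isAlgebraic
  haveI := ClassGroup.fintypeOfAdmissibleOfAlgebraic bS Polynomial.cardPowDegreeIsAdmissible
  exact Finite.of_fintype _

theorem placeOfPrime_val_eq_one_iff (s : N) (hs : Transcendental K s) [FiniteDimensional K⟮s⟯ N]
    (P : HeightOneSpectrum (IC K s)) (b : IC K s) :
    (placeOfPrime s hs P).val (b : N) = 1 ↔ b ∉ P.asIdeal := by
  rw [← placeOfPrime_val_lt s hs P b, not_lt]
  exact ⟨fun h => h.ge, fun h => le_antisymm (placeOfPrime_val_algebraMap s hs P b) h⟩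

/-- Over a finite field, every place with `s` regular has a function which vanishes there and at no
other place at which `s` is regular. -/
theorem IsFunctionField.exists_single_zero [Finite K] (hN : IsFunctionField K N) (s : N)
    (hs : Transcendental K s) (u : Place K N) (hu : u.val s ≤ 1) :
    ∃ φ : N, φ ≠ 0 ∧ u.val φ < 1 ∧ ∀ v : Place K N, v.val s ≤ 1 → v ≠ u → v.val φ = 1 := by
  haveI := hN.finiteDimensional s hs
  haveI := isDedekindDomain_IC s hs
  haveI := isFractionRing_IC s hs
  haveI := finite_classGroup s hs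
  obtain ⟨P, rfl⟩ := exists_placeOfPrime s hs u hu
  have hP0 : P.asIdeal ∈ nonZeroDivisors (Ideal (IC K s)) := mem_nonZeroDivisors_of_ne_zero P.ne_bot
  obtain ⟨n, hn, hn1⟩ := isOfFinOrder_iff_pow_eq_one.1
    (isOfFinOrder_of_finite (ClassGroup.mk0 (⟨P.asIdeal, hP0⟩ : nonZeroDivisors (Ideal (IC K s)))))
  rw [← map_pow] at hn1
  have hprin := (ClassGroup.mk0_eq_one_iff (I := P.asIdeal ^ n) (pow_mem hP0 n)).1 hn1
  obtain ⟨b, hb⟩ := hprin.principal
  change P.asIdeal ^ n = Ideal.span {b} at hb
  have hb0 : b ≠ 0 := by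
    rintro rfl
    rw [Ideal.span_singleton_eq_bot.2 rfl] at hb
    exact P.ne_bot (pow_eq_zero_iff (M₀ := Ideal (IC K s)) hn.ne' |>.1 hb)
  refine ⟨(b : N), fun h => hb0 (Subtype.ext h), ?_, ?_⟩
  · rw [placeOfPrime_val_lt]
    have h1 : b ∈ P.asIdeal ^ n := by
      rw [hb]
      exact Ideal.mem_span_singleton_self b
    exact Ideal.pow_le_self hn.ne' h1
  · intro v hv hvu
    obtain ⟨Q, rfl⟩ := exists_placeOfPrime s hs v hv
    rw [placeOfPrime_val_eq_one_iff]
    intro hbQ
    apply hvu
    have h1 : P.asIdeal ^ n ≤ Q.asIdeal := by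
      rw [hb, Ideal.span_singleton_le_iff_mem]
      exact hbQ
    have h2 : P.asIdeal ≤ Q.asIdeal := Q.isPrime.le_of_pow_le h1
    have h3 : P.asIdeal = Q.asIdeal := P.isMaximal.eq_of_le Q.isPrime.ne_top h2
    rw [HeightOneSpectrum.ext h3]

end

end Pool.Agent.Helper16
end

/- Helper16.DP.H16.FF10 -/
section
set_option autoImplicit false
set_option linter.style.haveILetI false

namespace Pool.Agent.Helper16

open Polynomial IntermediateField IsDedekindDomain

section

variable {K N : Type} [Field K] [Field N] [Algebra K N]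

/-- Functions with bounded pole order at a place. -/
def Place.filt (v : Place K N) (k : ℤ) : Submodule K N where
  carrier := {f | v.val f ≤ WithZero.exp k}
  add_mem' := fun {a b} ha hb => (v.val.map_add a b).trans (max_le ha hb)
  zero_mem' := by
    change v.val 0 ≤ _
    rw [map_zero]
    exact zero_le
  smul_mem' := by
    intro c x hx
    change v.val (c • x) ≤ _
    rw [Algebra.smul_def, map_mul]
    calc v.val (algebraMap K N c) * v.val x ≤ 1 * v.val x := by
          gcongr
          exact v.val_algebraMap_le c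
      _ = v.val x := one_mul _
      _ ≤ _ := hx

theorem Place.mem_filt (v : Place K N) (k : ℤ) (f : N) : f ∈ v.filt k ↔ v.val f ≤ WithZero.exp k :=
  Iff.rfl

theorem Place.finrank_le_cut (v : Place K N) (hv : Module.Finite K v.resField) (k : ℤ)
    (W : Submodule K N) [FiniteDimensional K W] (hW : W ≤ v.filt (k + 1)) :
    Module.finrank K W ≤ Module.finrank K (W ⊓ v.filt k : Submodule K N) + v.deg := by
  obtain ⟨π, hπ0, hπ⟩ := v.exists_uniformizer
  have hmem : ∀ f ∈ W, f * π ^ (k + 1) ∈ v.ring := by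
    intro f hf
    have h1 : v.val f ≤ WithZero.exp (k + 1) := hW hf
    rw [v.mem_ring, map_mul, map_zpow₀, hπ, ← WithZero.exp_zsmul]
    calc v.val f * WithZero.exp ((k + 1) • (-1 : ℤ)) ≤
          WithZero.exp (k + 1) * WithZero.exp ((k + 1) • (-1 : ℤ)) := by (clear * - h1; gcongr)
      _ = 1 := by
          rw [← WithZero.exp_add]
          simp
  let T : W →ₗ[K] v.resField :=
    { toFun := fun f => v.res ((f : N) * π ^ (k + 1))
      map_add' := by
        intro f g
        rw [← v.res_add (hmem _ f.2) (hmem _ g.2), ← add_mul]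
        rfl
      map_smul' := by
        intro c f
        have h1 : ((c • f : W) : N) * π ^ (k + 1) = algebraMap K N c * ((f : N) * π ^ (k + 1)) := by
          rw [Submodule.coe_smul, Algebra.smul_def, mul_assoc]
        rw [h1, v.res_mul (v.ring.algebraMap_mem c) (hmem _ f.2), v.res_algebraMap,
          RingHom.id_apply, Algebra.smul_def] }
  have h1 := LinearMap.finrank_range_add_finrank_ker T
  have h2 : Module.finrank K (LinearMap.range T) ≤ v.deg := Submodule.finrank_le _
  have h3 : Module.finrank K (LinearMap.ker T) ≤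
      Module.finrank K (W ⊓ v.filt k : Submodule K N) := by
    have h4 : ∀ f : LinearMap.ker T, ((f : W) : N) ∈ (W ⊓ v.filt k : Submodule K N) := by
      intro f
      refine ⟨(f : W).2, ?_⟩
      have h5 : v.res (((f : W) : N) * π ^ (k + 1)) = 0 := f.2
      rw [v.res_eq_zero_iff (hmem _ (f : W).2), map_mul, map_zpow₀, hπ, ← WithZero.exp_zsmul] at h5
      change v.val ((f : W) : N) ≤ _
      by_cases h6 : ((f : W) : N) = 0
      · rw [h6, map_zero]
        exact zero_le
      · have h7 : v.val ((f : W) : N) ≠ 0 := by simpa using h6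
        rw [← WithZero.exp_log h7] at h5 ⊢
        rw [← WithZero.exp_add, ← WithZero.exp_zero, WithZero.exp_lt_exp] at h5
        rw [WithZero.exp_le_exp]
        simp at h5
        omega
    let ι : LinearMap.ker T →ₗ[K] (W ⊓ v.filt k : Submodule K N) :=
      { toFun := fun f => ⟨((f : W) : N), h4 f⟩
        map_add' := fun f g => rfl
        map_smul' := fun c f => rfl }
    apply LinearMap.finrank_le_finrank_of_injective (f := ι)
    intro f g hfg
    have h8 : ((f : W) : N) = ((g : W) : N) :=
      congrArg (fun z : (W ⊓ v.filt k : Submodule K N) => (z : N)) hfg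
    exact Subtype.ext (Subtype.ext h8)
  omega

theorem Place.finrank_le_cut_nat (v : Place K N) (hv : Module.Finite K v.resField) (k : ℕ)
    (W : Submodule K N) [FiniteDimensional K W] (hW : W ≤ v.filt k) :
    Module.finrank K W ≤ Module.finrank K (W ⊓ v.filt 0 : Submodule K N) + k * v.deg := by
  induction k generalizing W with
  | zero =>
    have : W ⊓ v.filt 0 = W := inf_eq_left.2 (by simpa using hW)
    rw [this]
    omega
  | succ k ih =>
    have h1 := v.finrank_le_cut hv k W (by simpa using hW)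
    haveI : FiniteDimensional K (W ⊓ v.filt (k : ℤ) : Submodule K N) :=
      Submodule.finiteDimensional_inf_left _ _
    have h2 := ih (W ⊓ v.filt (k : ℤ)) inf_le_right
    have h3 : (W ⊓ v.filt (k : ℤ)) ⊓ v.filt 0 ≤ W ⊓ v.filt 0 :=
      inf_le_inf_right _ inf_le_left
    have h4 : Module.finrank K ((W ⊓ v.filt (k : ℤ)) ⊓ v.filt 0 : Submodule K N) ≤
        Module.finrank K (W ⊓ v.filt 0 : Submodule K N) := by
      haveI : FiniteDimensional K (W ⊓ v.filt 0 : Submodule K N) :=
        Submodule.finiteDimensional_inf_left _ _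
      exact Submodule.finrank_mono h3
    have h5 : (k + 1) * v.deg = k * v.deg + v.deg := by ring
    omega

theorem finrank_le_cut_finset (hres : ∀ v : Place K N, Module.Finite K v.resField)
    (T : Finset (Place K N)) (k : Place K N → ℕ)
    (W : Submodule K N) [FiniteDimensional K W] (hW : ∀ v ∈ T, W ≤ v.filt (k v)) :
    Module.finrank K W ≤
      Module.finrank K (W ⊓ ⨅ v ∈ T, v.filt 0 : Submodule K N) + ∑ v ∈ T, k v * v.deg := by
  classical
  induction T using Finset.induction_on with
  | empty =>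
    have h0 : W ⊓ ⨅ v ∈ (∅ : Finset (Place K N)), v.filt 0 = W := by simp
    rw [h0]
    simp
  | insert a T ha ih =>
    have h1 := ih (fun v hv => hW v (Finset.mem_insert_of_mem hv))
    haveI : FiniteDimensional K (W ⊓ ⨅ v ∈ T, v.filt 0 : Submodule K N) :=
      Submodule.finiteDimensional_inf_left _ _
    have h2 := a.finrank_le_cut_nat (hres a) (k a) (W ⊓ ⨅ v ∈ T, v.filt 0)
      (inf_le_left.trans (hW a (Finset.mem_insert_self _ _)))
    rw [Finset.sum_insert ha]
    have h3 : (W ⊓ ⨅ v ∈ T, v.filt 0) ⊓ a.filt 0 = W ⊓ ⨅ v ∈ insert a T, v.filt 0 := by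
      rw [Finset.iInf_insert, inf_assoc, inf_comm (⨅ v ∈ T, v.filt 0)]
    rw [h3] at h2
    omega

theorem exists_integral_basis (s : N) (hs : Transcendental K s) [FiniteDimensional K⟮s⟯ N] :
    ∃ x : Fin (Module.finrank K⟮s⟯ N) → N, LinearIndependent K⟮s⟯ x ∧ ∀ i, IntOver K s (x i) := by
  letI := algX K s
  letI := algXF K s
  haveI := towerXF (K := K) s
  haveI := isFractionRing_algXF s hs
  haveI := faithfulX s hs
  let b := Module.finBasis K⟮s⟯ N
  have h1 : ∀ i, ∃ d : K⟮s⟯, d ≠ 0 ∧ IntOver K s (d • b i) := by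
    intro i
    have halg : IsAlgebraic K[X] (b i) := by
      rw [IsFractionRing.isAlgebraic_iff K[X] K⟮s⟯ N]
      exact Algebra.IsAlgebraic.isAlgebraic _
    obtain ⟨y, hy, hint⟩ := halg.exists_integral_multiple
    refine ⟨algebraMap K[X] K⟮s⟯ y, ?_, ?_⟩
    · rw [Ne, FaithfulSMul.algebraMap_eq_zero_iff]
      exact hy
    · have h2 : algebraMap K[X] K⟮s⟯ y • b i = y • b i := by
        rw [algebraMap_smul]
      rw [h2]
      exact hint
  choose d hd hint using h1
  refine ⟨fun i => d i • b i, ?_, hint⟩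
  have := b.linearIndependent.units_smul (fun i => Units.mk0 (d i) (hd i))
  exact this

theorem linearIndependent_pow_mul (s : N) (hs : Transcendental K s) {n : ℕ} (x : Fin n → N)
    (hx : LinearIndependent K⟮s⟯ x) (M : ℕ) :
    LinearIndependent K (fun p : Fin M × Fin n => s ^ (p.1 : ℕ) * x p.2) := by
  have h1 : LinearIndependent K (fun a : Fin M => (AdjoinSimple.gen K s) ^ (a : ℕ)) := by
    have h2 : LinearIndependent K (fun a : ℕ => (AdjoinSimple.gen K s) ^ a) := by
      have h3 : Transcendental K (AdjoinSimple.gen K s) := by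
        intro h
        apply hs
        have := h.algebraMap (A := N)
        rwa [AdjoinSimple.algebraMap_gen] at this
      rw [transcendental_iff_injective] at h3
      have h4 := (Polynomial.basisMonomials K).linearIndependent.map'
        (aeval (AdjoinSimple.gen K s) : K[X] →ₐ[K] K⟮s⟯).toLinearMap
        (LinearMap.ker_eq_bot.2 h3)
      have h5 : (fun a : ℕ => (AdjoinSimple.gen K s) ^ a) =
          (aeval (AdjoinSimple.gen K s) : K[X] →ₐ[K] K⟮s⟯).toLinearMap ∘
            (Polynomial.basisMonomials K) := by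
        funext a
        simp [Polynomial.coe_basisMonomials, aeval_monomial]
      rw [h5]
      exact h4
    exact h2.comp _ Fin.val_injective
  have h5 := linearIndependent_smul h1 hx
  have h6 : (fun p : Fin M × Fin n => s ^ (p.1 : ℕ) * x p.2) =
      fun p : Fin M × Fin n => (AdjoinSimple.gen K s) ^ (p.1 : ℕ) • x p.2 := by
    funext p
    rw [Algebra.smul_def, map_pow, AdjoinSimple.algebraMap_gen]
  rw [h6]
  exact h5

theorem Place.finrank_le_of_algebraic (hN : IsFunctionField K N) (w : Place K N)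
    (W : Submodule K N) (hW : ∀ f ∈ W, IsAlgebraic K f) : Module.finrank K W ≤ w.deg := by
  haveI := w.finite_resField hN
  have hmem : ∀ f ∈ W, f ∈ w.ring := by
    intro f hf
    by_cases h0 : f = 0
    · rw [h0]; exact zero_mem _
    · rw [w.mem_ring, w.val_eq_one_of_algebraic (hW f hf) h0]
  let T : W →ₗ[K] w.resField :=
    { toFun := fun f => w.res (f : N)
      map_add' := by
        intro f g
        rw [← w.res_add (hmem _ f.2) (hmem _ g.2)]
        rfl
      map_smul' := by
        intro c f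
        have h1 : ((c • f : W) : N) = algebraMap K N c * (f : N) := by
          rw [Submodule.coe_smul, Algebra.smul_def]
        rw [h1, w.res_mul (w.ring.algebraMap_mem c) (hmem _ f.2), w.res_algebraMap,
          RingHom.id_apply, Algebra.smul_def] }
  apply LinearMap.finrank_le_finrank_of_injective (f := T)
  rw [← LinearMap.ker_eq_bot, LinearMap.ker_eq_bot']
  intro f hf
  by_contra h0
  have h0' : (f : N) ≠ 0 := fun h => h0 (Subtype.ext h)
  have h1 : w.res (f : N) = 0 := hf
  rw [w.res_eq_zero_iff (hmem _ f.2), w.val_eq_one_of_algebraic (hW f f.2) h0'] at h1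
  exact lt_irrefl _ h1

/-- There is a transcendental function whose only pole is at a given place. -/
theorem IsFunctionField.exists_single_pole (hN : IsFunctionField K N) (w : Place K N) :
    ∃ f : N, Transcendental K f ∧ ∀ v : Place K N, v ≠ w → v.val f ≤ 1 := by
  classical
  obtain ⟨y, hy0, hy⟩ := w.exists_uniformizer
  have hlt : w.val y < 1 := by rw [hy]; exact exp_neg_one_lt
  have hytr := w.transcendental_of_val_ne_one hy0 hlt.ne
  obtain ⟨T, hT, hsum, -⟩ := hN.zeros y hytr
  set s := y⁻¹ with hs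
  have hstr : Transcendental K s := transcendental_inv hytr
  haveI := hN.finiteDimensional s hstr
  have hn : Module.finrank K⟮s⟯ N = Module.finrank K⟮y⟯ N := by rw [hs, finrank_inv]
  obtain ⟨n, hnn⟩ : ∃ n, Module.finrank K⟮s⟯ N = n := ⟨_, rfl⟩
  rw [hnn] at hn
  obtain ⟨x, hxi, hxint⟩ : ∃ x : Fin n → N, LinearIndependent K⟮s⟯ x ∧ ∀ i, IntOver K s (x i) :=
    hnn ▸ exists_integral_basis s hstr
  have hwT : w ∈ T := (hT w).2 hlt
  -- the pole orders
  let k : Place K N → ℕ := fun v => (v.ord y).toNat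
  have hk : ∀ v ∈ T, (k v : ℤ) = v.ord y ∧ 1 ≤ k v := by
    intro v hv
    have h1 : 0 < v.ord y := (v.ord_pos_iff hy0).2 ((hT v).1 hv)
    refine ⟨Int.toNat_of_nonneg h1.le, ?_⟩
    have : (k v : ℤ) = v.ord y := Int.toNat_of_nonneg h1.le
    omega
  have hvs : ∀ v ∈ T, v.val s = WithZero.exp (k v : ℤ) := by
    intro v hv
    have h0 : v.val y ≠ 0 := by simpa using hy0
    rw [(hk v hv).1, hs, map_inv₀, Place.ord, ← WithZero.exp_log h0, WithZero.log_exp,
      WithZero.exp_neg]
  have hx0 : ∀ i, x i ≠ 0 := fun i => hxi.ne_zero i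
  obtain ⟨j, hj⟩ : ∃ j : ℕ, ∀ v ∈ T, ∀ i, WithZero.log (v.val (x i)) ≤ j := by
    refine ⟨∑ v ∈ T, ∑ i, (WithZero.log (v.val (x i))).toNat, fun v hv i => ?_⟩
    have h1 : (WithZero.log (v.val (x i))).toNat ≤ ∑ i, (WithZero.log (v.val (x i))).toNat :=
      Finset.single_le_sum (f := fun i => (WithZero.log (v.val (x i))).toNat)
        (fun _ _ => Nat.zero_le _) (Finset.mem_univ i)
    have h2 : ∑ i, (WithZero.log (v.val (x i))).toNat ≤
        ∑ v ∈ T, ∑ i, (WithZero.log (v.val (x i))).toNat :=
      Finset.single_le_sum (f := fun v : Place K N => ∑ i, (WithZero.log (v.val (x i))).toNat)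
        (fun _ _ => Nat.zero_le _) hv
    have h3 := Int.self_le_toNat (WithZero.log (v.val (x i)))
    push_cast
    have h4 : ((WithZero.log (v.val (x i))).toNat : ℤ) ≤
        ((∑ v ∈ T, ∑ i, (WithZero.log (v.val (x i))).toNat : ℕ) : ℤ) := by
      exact_mod_cast h1.trans h2
    push_cast at h4
    exact h3.trans h4
  set M : ℕ := j * n + w.deg with hM
  let F : Fin (M + 1) × Fin n → N := fun p => s ^ (p.1 : ℕ) * x p.2
  have hF : LinearIndependent K F := linearIndependent_pow_mul s hstr x hxi (M + 1)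
  let W : Submodule K N := Submodule.span K (Set.range F)
  haveI : FiniteDimensional K W := FiniteDimensional.span_of_finite K (Set.finite_range F)
  have hWdim : Module.finrank K W = (M + 1) * n := by
    rw [finrank_span_eq_card hF]
    simp
  have hW1 : ∀ v ∈ T, W ≤ v.filt (((M + j) * k v : ℕ) : ℤ) := by
    intro v hv
    rw [Submodule.span_le]
    rintro _ ⟨p, rfl⟩
    change v.val (s ^ (p.1 : ℕ) * x p.2) ≤ _
    rw [map_mul, map_pow, hvs v hv, ← WithZero.exp_log (show v.val (x p.2) ≠ 0 by simpa using hx0 p.2),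
      ← WithZero.exp_nsmul, ← WithZero.exp_add, WithZero.exp_le_exp]
    have h1 := hj v hv p.2
    have h2 : (p.1 : ℕ) ≤ M := Nat.lt_succ_iff.1 p.1.2
    have h3 := (hk v hv).2
    have h4 : (p.1 : ℕ) * k v + j ≤ (M + j) * k v := by (clear * - h3 h2; nlinarith only [h2, h3])
    have h5 : (((p.1 : ℕ) * k v + j : ℕ) : ℤ) ≤ (((M + j) * k v : ℕ) : ℤ) := by exact_mod_cast h4
    simp only [nsmul_eq_mul]
    push_cast at h5 ⊢
    linarith only [h1, h5]
  have hW2 : ∀ v : Place K N, v ∉ T → W ≤ v.filt 0 := by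
    intro v hv
    have h1 : v.val s ≤ 1 := by
      rw [hT, not_lt] at hv
      rw [hs, map_inv₀]
      exact inv_le_one_of_one_le₀ hv
    rw [Submodule.span_le]
    rintro _ ⟨p, rfl⟩
    change v.val (s ^ (p.1 : ℕ) * x p.2) ≤ _
    rw [map_mul, map_pow, WithZero.exp_zero]
    exact mul_le_one' (pow_le_one' h1 _) ((hxint p.2).mem_ring v h1)
  have hcut := finrank_le_cut_finset (fun v : Place K N => v.finite_resField hN) (T.erase w)
    (fun v => (M + j) * k v) W (fun v hv => hW1 v (Finset.mem_of_mem_erase hv))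
  set W' : Submodule K N := W ⊓ ⨅ v ∈ T.erase w, v.filt 0 with hW'
  have hsum2 : ∑ v ∈ T, k v * v.deg = n := by
    have : ((∑ v ∈ T, k v * v.deg : ℕ) : ℤ) = (n : ℤ) := by
      rw [hn, ← hsum]
      push_cast
      exact Finset.sum_congr rfl fun v hv => by rw [(hk v hv).1]
    exact_mod_cast this
  have hsum3 : ∑ v ∈ T.erase w, (M + j) * k v * v.deg = (M + j) * ∑ v ∈ T.erase w, k v * v.deg := by
    rw [Finset.mul_sum]
    exact Finset.sum_congr rfl fun v _ => by ring
  have hsum4 : k w * w.deg + ∑ v ∈ T.erase w, k v * v.deg = n := by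
    rw [← hsum2, Finset.add_sum_erase T (fun v => k v * v.deg) hwT]
  have hkw := (hk w hwT).2
  have hdw := w.deg_pos hN
  have hbig : w.deg < Module.finrank K W' := by
    rw [hWdim, hsum3] at hcut
    have h1 : 1 ≤ k w * w.deg := Nat.mul_pos hkw hdw
    set r := ∑ v ∈ T.erase w, k v * v.deg
    have h2 : r + 1 ≤ n := by omega
    have h3 : (M + j) * (r + 1) ≤ (M + j) * n := Nat.mul_le_mul_left _ h2
    (clear * - hM hcut h2; nlinarith only [hM, hcut, h2])
  by_contra hcon
  push Not at hcon
  have hall : ∀ f ∈ W', IsAlgebraic K f := by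
    intro f hf
    by_contra hftr
    obtain ⟨v, hvw, hv⟩ := hcon f hftr
    by_cases hvT : v ∈ T
    · have h1 : f ∈ ⨅ v ∈ T.erase w, v.filt 0 := hf.2
      rw [Submodule.mem_iInf] at h1
      have h2 := h1 v
      rw [Submodule.mem_iInf] at h2
      have h3 := h2 (Finset.mem_erase.2 ⟨hvw, hvT⟩)
      rw [v.mem_filt, WithZero.exp_zero] at h3
      exact absurd hv (not_lt.2 h3)
    · have h3 := hW2 v hvT hf.1
      rw [v.mem_filt, WithZero.exp_zero] at h3
      exact absurd hv (not_lt.2 h3)
  have := w.finrank_le_of_algebraic hN W' hall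
  omega

/-- Over a finite field, for two different places there is a function whose only zero is the first
and whose only pole is the second. -/
theorem IsFunctionField.exists_zero_pole [Finite K] (hN : IsFunctionField K N)
    (u w : Place K N) (huw : u ≠ w) :
    ∃ φ : N, Transcendental K φ ∧ u.val φ < 1 ∧ (∀ v : Place K N, v.val φ < 1 → v = u) ∧
      (∀ v : Place K N, 1 < v.val φ → v = w) := by
  obtain ⟨f, hf, hfp⟩ := hN.exists_single_pole w
  obtain ⟨φ, h0, h1, h2⟩ := hN.exists_single_zero f hf u (hfp u huw)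
  have htr := u.transcendental_of_val_ne_one h0 h1.ne
  have hpole : ∀ v : Place K N, 1 < v.val φ → v = w := by
    intro v hv
    by_contra hvw
    have h3 := h2 v (hfp v hvw)
    by_cases hvu : v = u
    · rw [hvu] at hv
      exact lt_asymm hv h1
    · rw [h3 hvu] at hv
      exact lt_irrefl _ hv
  refine ⟨φ, htr, h1, fun v hv => ?_, hpole⟩
  by_contra hvu
  by_cases hvw : v = w
  · -- `φ` has a pole, which must be `w`
    obtain ⟨T, hT, hs, hpos⟩ := hN.zeros φ⁻¹ (transcendental_inv htr)
    have hne : T.Nonempty := by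
      by_contra hemp
      rw [Finset.not_nonempty_iff_eq_empty] at hemp
      rw [hemp, Finset.sum_empty] at hs
      have : (0 : ℤ) < (Module.finrank K⟮φ⁻¹⟯ N : ℤ) := by exact_mod_cast hpos
      omega
    obtain ⟨v', hv'⟩ := hne
    rw [hT, map_inv₀, inv_lt_one₀ (zero_lt_iff.2 (by simpa using h0))] at hv'
    have h4 := hpole v' hv'
    rw [h4, ← hvw] at hv'
    exact lt_asymm hv' hv
  · have h3 := h2 v (hfp v hvw) hvu
    rw [h3] at hv
    exact lt_irrefl _ hv

end

end Pool.Agent.Helper16
end

/- Helper16.DP.H16.CH0 -/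
section
set_option autoImplicit false
set_option linter.style.haveILetI false

namespace Pool.Agent.Helper16

open Polynomial IntermediateField IsDedekindDomain

/-- A proper `K`-scheme recorded through its functor of field-valued points together with the
specialisation maps `X(N) → X(κ(v))` at places `v` of `N/K` given by the valuative criterion. -/
structure PtFunctor (K : Type) [Field K] where
  /-- field-valued points -/
  Pt : (N : Type) → [Field N] → [Algebra K N] → Type
  /-- functoriality -/
  map : {N N' : Type} → [Field N] → [Algebra K N] → [Field N'] → [Algebra K N'] →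
    (N →ₐ[K] N') → Pt N → Pt N'
  /-- specialisation at a place -/
  sp : {N : Type} → [Field N] → [Algebra K N] → (v : Place K N) → Pt N → Pt v.resField
  /-- functoriality: composition -/
  map_comp : ∀ {N N' N'' : Type} [Field N] [Algebra K N] [Field N'] [Algebra K N'] [Field N'']
    [Algebra K N''] (φ : N →ₐ[K] N') (ψ : N' →ₐ[K] N'') (x : Pt N),
    map (ψ.comp φ) x = map ψ (map φ x)

namespace PtFunctor

variable {K : Type} [Field K]

/-- Product of two schemes. -/
def prod (X Y : PtFunctor K) : PtFunctor K where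
  Pt N _ _ := X.Pt N × Y.Pt N
  map φ p := (X.map φ p.1, Y.map φ p.2)
  sp v p := (X.sp v p.1, Y.sp v p.2)
  map_comp φ ψ p := by rw [X.map_comp, Y.map_comp]

/-- The generators of rational equivalence on zero-cycles with `ℚ`-coefficients.
A point `x ∈ X(K̄)` represents `1/deg` times the closed point of `X` it defines. -/
def relations (X : PtFunctor K) : Set (X.Pt (AlgebraicClosure K) →₀ ℚ) :=
  {r | ∃ (σ : AlgebraicClosure K ≃ₐ[K] AlgebraicClosure K) (x : X.Pt (AlgebraicClosure K)),
      r = Finsupp.single (X.map σ.toAlgHom x) 1 - Finsupp.single x 1} ∪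
  {r | ∃ (N : Type) (_ : Field N) (_ : Algebra K N) (x : X.Pt N) (f : N)
      (S : Finset (Place K N)) (φ : (v : Place K N) → (v.resField →ₐ[K] AlgebraicClosure K)),
      IsFunctionField K N ∧ f ≠ 0 ∧ (∀ v, v ∈ S ↔ v.ord f ≠ 0) ∧
      r = ∑ v ∈ S, Finsupp.single (X.map (φ v) (X.sp v x)) ((v.ord f * (v.deg : ℤ) : ℤ) : ℚ)}

/-- Cycles rationally equivalent to zero. -/
noncomputable def ratEquiv (X : PtFunctor K) : Submodule ℚ (X.Pt (AlgebraicClosure K) →₀ ℚ) :=
  Submodule.span ℚ X.relations

/-- The Chow group of zero-cycles with rational coefficients. -/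
abbrev CH0 (X : PtFunctor K) : Type := (X.Pt (AlgebraicClosure K) →₀ ℚ) ⧸ X.ratEquiv

/-- The class of a point. -/
noncomputable def cl (X : PtFunctor K) (x : X.Pt (AlgebraicClosure K)) : X.CH0 :=
  X.ratEquiv.mkQ (Finsupp.single x 1)

theorem cl_conj (X : PtFunctor K) (σ : AlgebraicClosure K ≃ₐ[K] AlgebraicClosure K)
    (x : X.Pt (AlgebraicClosure K)) : X.cl (X.map σ.toAlgHom x) = X.cl x := by
  have h : Finsupp.single (X.map σ.toAlgHom x) 1 - Finsupp.single x 1 ∈ X.ratEquiv :=
    Submodule.subset_span (Or.inl ⟨σ, x, rfl⟩)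
  exact (Submodule.Quotient.eq _).2 h

theorem cl_rel (X : PtFunctor K) {N : Type} [Field N] [Algebra K N] (hN : IsFunctionField K N)
    (x : X.Pt N) (f : N) (hf : f ≠ 0) (S : Finset (Place K N)) (hS : ∀ v, v ∈ S ↔ v.ord f ≠ 0)
    (φ : (v : Place K N) → (v.resField →ₐ[K] AlgebraicClosure K)) :
    ∑ v ∈ S, ((v.ord f * (v.deg : ℤ) : ℤ) : ℚ) • X.cl (X.map (φ v) (X.sp v x)) = 0 := by
  have h : (∑ v ∈ S, Finsupp.single (X.map (φ v) (X.sp v x)) ((v.ord f * (v.deg : ℤ) : ℤ) : ℚ)) ∈
      X.ratEquiv :=
    Submodule.subset_span (Or.inr ⟨N, _, _, x, f, S, φ, hN, hf, hS, rfl⟩)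
  have h2 := (Submodule.Quotient.mk_eq_zero X.ratEquiv).2 h
  rw [← h2]
  change _ = X.ratEquiv.mkQ _
  rw [map_sum]
  refine Finset.sum_congr rfl fun v _ => ?_
  rw [cl, ← map_smul, Finsupp.smul_single, smul_eq_mul, mul_one]

/-- The degree of a zero-cycle. -/
noncomputable def degCycle (X : PtFunctor K) : (X.Pt (AlgebraicClosure K) →₀ ℚ) →ₗ[ℚ] ℚ :=
  Finsupp.lsum ℚ fun _ => LinearMap.id

theorem degCycle_single (X : PtFunctor K) (x : X.Pt (AlgebraicClosure K)) (a : ℚ) :
    X.degCycle (Finsupp.single x a) = a := by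
  simp [degCycle]

theorem ratEquiv_le_ker (X : PtFunctor K) : X.ratEquiv ≤ LinearMap.ker X.degCycle := by
  rw [ratEquiv, Submodule.span_le]
  rintro r (⟨σ, x, rfl⟩ | ⟨N, _, _, x, f, S, φ, hN, hf, hS, rfl⟩)
  · rw [SetLike.mem_coe, LinearMap.mem_ker, map_sub, degCycle_single, degCycle_single, sub_self]
  · rw [SetLike.mem_coe, LinearMap.mem_ker, map_sum]
    simp only [degCycle_single]
    obtain ⟨T, hT, hsum⟩ := hN.product_formula f
    have hST : S = T := by
      ext v
      rw [hS, hT]
    rw [hST]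
    exact_mod_cast congrArg (fun z : ℤ => (z : ℚ)) hsum

/-- The degree map on the Chow group. -/
noncomputable def deg (X : PtFunctor K) : X.CH0 →ₗ[ℚ] ℚ :=
  X.ratEquiv.liftQ X.degCycle X.ratEquiv_le_ker

theorem deg_cl (X : PtFunctor K) (x : X.Pt (AlgebraicClosure K)) : X.deg (X.cl x) = 1 := by
  change X.degCycle (Finsupp.single x 1) = 1
  exact degCycle_single X x 1

theorem span_cl (X : PtFunctor K) : Submodule.span ℚ (Set.range X.cl) = ⊤ := by
  rw [eq_top_iff]
  rintro z -
  obtain ⟨c, rfl⟩ := X.ratEquiv.mkQ_surjective z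
  induction c using Finsupp.induction_linear with
  | zero => rw [map_zero]; exact zero_mem _
  | add a b ha hb => rw [map_add]; exact add_mem ha hb
  | single x a =>
    have : X.ratEquiv.mkQ (Finsupp.single x a) = a • X.cl x := by
      rw [cl, ← map_smul, Finsupp.smul_single, smul_eq_mul, mul_one]
    rw [this]
    exact Submodule.smul_mem _ _ (Submodule.subset_span ⟨x, rfl⟩)

theorem exists_conj {κ : Type} [Field κ] [Algebra K κ] [Algebra.IsAlgebraic K κ]
    (φ φ' : κ →ₐ[K] AlgebraicClosure K) :
    ∃ σ : AlgebraicClosure K ≃ₐ[K] AlgebraicClosure K, σ.toAlgHom.comp φ = φ' := by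
  letI : Algebra κ (AlgebraicClosure K) := φ.toRingHom.toAlgebra
  haveI : IsScalarTower K κ (AlgebraicClosure K) :=
    IsScalarTower.of_algebraMap_eq fun a => (φ.commutes a).symm
  haveI : Algebra.IsAlgebraic κ (AlgebraicClosure K) :=
    Algebra.IsAlgebraic.tower_top (K := K) κ
  obtain ⟨ψ, hψ⟩ := IsAlgClosed.surjective_domRestrict_of_isAlgebraic (K := K) (L := κ)
    (E := AlgebraicClosure K) (M := AlgebraicClosure K) φ'
  have hb : Function.Bijective ψ := Algebra.IsAlgebraic.algHom_bijective ψ
  refine ⟨AlgEquiv.ofBijective ψ hb, ?_⟩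
  ext a
  have := DFunLike.congr_fun hψ a
  exact this

theorem cl_map_eq (X : PtFunctor K) {κ : Type} [Field κ] [Algebra K κ] [Algebra.IsAlgebraic K κ]
    (φ φ' : κ →ₐ[K] AlgebraicClosure K) (x : X.Pt κ) : X.cl (X.map φ x) = X.cl (X.map φ' x) := by
  obtain ⟨σ, hσ⟩ := exists_conj φ φ'
  rw [← hσ, X.map_comp, cl_conj]

theorem exists_emb {N : Type} [Field N] [Algebra K N] (hN : IsFunctionField K N) (v : Place K N) :
    Nonempty (v.resField →ₐ[K] AlgebraicClosure K) := by
  haveI := v.finite_resField hN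
  exact ⟨IsAlgClosed.lift⟩

/-- The class of the specialisation of an `N`-point at a place. -/
noncomputable def clv (X : PtFunctor K) {N : Type} [Field N] [Algebra K N]
    (v : Place K N) (x : X.Pt N) : X.CH0 :=
  open scoped Classical in
  if h : Nonempty (v.resField →ₐ[K] AlgebraicClosure K) then
    X.cl (X.map h.some (X.sp v x)) else 0

theorem clv_eq (X : PtFunctor K) {N : Type} [Field N] [Algebra K N] (hN : IsFunctionField K N)
    (v : Place K N) (x : X.Pt N) (φ : v.resField →ₐ[K] AlgebraicClosure K) :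
    X.clv v x = X.cl (X.map φ (X.sp v x)) := by
  haveI := v.finite_resField hN
  have h : Nonempty (v.resField →ₐ[K] AlgebraicClosure K) := ⟨φ⟩
  rw [clv, dif_pos h]
  exact X.cl_map_eq _ _ _

theorem clv_rel (X : PtFunctor K) {N : Type} [Field N] [Algebra K N] (hN : IsFunctionField K N)
    (x : X.Pt N) (f : N) (hf : f ≠ 0) (S : Finset (Place K N)) (hS : ∀ v, v ∈ S ↔ v.ord f ≠ 0) :
    ∑ v ∈ S, ((v.ord f * (v.deg : ℤ) : ℤ) : ℚ) • X.clv v x = 0 := by
  rw [← X.cl_rel hN x f hf S hS (fun v => (exists_emb hN v).some)]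
  refine Finset.sum_congr rfl fun v _ => ?_
  rw [X.clv_eq hN]

/-- If all zeros/poles of `f` specialise into `V`, except some zeros specialising to `y`, and there
is at least one of the latter kind, then the class of `y` is in `V`. -/
theorem cl_mem_of_relation (X : PtFunctor K) {N : Type} [Field N] [Algebra K N]
    (hN : IsFunctionField K N) (x : X.Pt N) (f : N) (hf : f ≠ 0) (V : Submodule ℚ X.CH0)
    (y : X.CH0)
    (h : ∀ v : Place K N, v.ord f ≠ 0 → X.clv v x ∈ V ∨ (0 < v.ord f ∧ X.clv v x = y))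
    (v₀ : Place K N) (hv₀ : 0 < v₀.ord f) (hv₀' : X.clv v₀ x = y) : y ∈ V := by
  classical
  obtain ⟨S, hS, -⟩ := hN.product_formula f
  have hrel := X.clv_rel hN x f hf S hS
  by_contra hy
  have h1 : ∀ v ∈ S, X.clv v x ∉ V → (0 < v.ord f ∧ X.clv v x = y) := by
    intro v hv hv'
    rcases h v ((hS v).1 hv) with h | h
    · exact absurd h hv'
    · exact h
  rw [← Finset.sum_filter_add_sum_filter_not S (fun v => X.clv v x ∈ V)] at hrel
  have h2 : ∑ v ∈ S.filter (fun v => X.clv v x ∈ V),
      ((v.ord f * (v.deg : ℤ) : ℤ) : ℚ) • X.clv v x ∈ V :=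
    Submodule.sum_mem _ fun v hv => Submodule.smul_mem _ _ (Finset.mem_filter.1 hv).2
  have h3 : ∑ v ∈ S.filter (fun v => ¬ X.clv v x ∈ V),
      ((v.ord f * (v.deg : ℤ) : ℤ) : ℚ) • X.clv v x =
      (∑ v ∈ S.filter (fun v => ¬ X.clv v x ∈ V), ((v.ord f * (v.deg : ℤ) : ℤ) : ℚ)) • y := by
    rw [Finset.sum_smul]
    refine Finset.sum_congr rfl fun v hv => ?_
    rw [Finset.mem_filter] at hv
    rw [(h1 v hv.1 hv.2).2]
  have h4 : 0 < ∑ v ∈ S.filter (fun v => ¬ X.clv v x ∈ V), ((v.ord f * (v.deg : ℤ) : ℤ) : ℚ) := by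
    apply Finset.sum_pos
    · intro v hv
      rw [Finset.mem_filter] at hv
      have h5 := (h1 v hv.1 hv.2).1
      have h6 := v.deg_pos hN
      have : 0 < v.ord f * (v.deg : ℤ) := mul_pos h5 (by exact_mod_cast h6)
      exact_mod_cast this
    · refine ⟨v₀, ?_⟩
      rw [Finset.mem_filter]
      exact ⟨(hS v₀).2 hv₀.ne', by rw [hv₀']; exact hy⟩
  rw [h3] at hrel
  apply hy
  have h7 : (∑ v ∈ S.filter (fun v => ¬ X.clv v x ∈ V), ((v.ord f * (v.deg : ℤ) : ℤ) : ℚ)) • y ∈ V := by
    have := (eq_neg_of_add_eq_zero_right hrel)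
    rw [this]
    exact neg_mem h2
  have h8 := V.smul_mem (∑ v ∈ S.filter (fun v => ¬ X.clv v x ∈ V), ((v.ord f * (v.deg : ℤ) : ℤ) : ℚ))⁻¹ h7
  rwa [smul_smul, inv_mul_cancel₀ h4.ne', one_smul] at h8

end PtFunctor

end Pool.Agent.Helper16
end

/- Helper16.DP.H16.TW1 -/
section
set_option autoImplicit false
set_option linter.style.haveILetI false

namespace Pool.Agent.Helper16

open Polynomial IntermediateField IsDedekindDomain

section trdeg

theorem trdeg_ratFunc (L : Type) [Field L] : Algebra.trdeg L (RatFunc L) = 1 := by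
  have h1 := trdeg_add_eq L L[X] (A := RatFunc L)
  haveI : Algebra.IsAlgebraic L[X] (RatFunc L) := IsLocalization.isAlgebraic (RatFunc L) (nonZeroDivisors L[X])
  rw [Polynomial.trdeg_of_isDomain, trdeg_eq_zero, add_zero] at h1
  exact h1.symm

theorem essFiniteType_ratFunc (L : Type) [Field L] : Algebra.EssFiniteType L (RatFunc L) := by
  haveI : Algebra.EssFiniteType L[X] (RatFunc L) :=
    Algebra.EssFiniteType.of_isLocalization (RatFunc L) (nonZeroDivisors L[X])
  exact Algebra.EssFiniteType.comp L L[X] (RatFunc L)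

theorem isFunctionField_ratFunc (L : Type) [Field L] : IsFunctionField L (RatFunc L) :=
  ⟨essFiniteType_ratFunc L, trdeg_ratFunc L⟩

/-- Finite extensions of function fields are function fields. -/
theorem IsFunctionField.of_finite {k K L : Type} [Field k] [Field K] [Field L] [Algebra k K]
    [Algebra K L] [Algebra k L] [IsScalarTower k K L] (hK : IsFunctionField k K)
    [FiniteDimensional K L] : IsFunctionField k L := by
  haveI := hK.1
  refine ⟨Algebra.EssFiniteType.comp k K L, ?_⟩
  have h1 := trdeg_add_eq k K (A := L)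
  rw [trdeg_eq_zero (R := K) (A := L), add_zero] at h1
  rw [← h1, hK.2]

/-- Intermediate fields of function fields. -/
theorem IsFunctionField.of_subfield {k L N : Type} [Field k] [Field L] [Field N] [Algebra k L]
    [Algebra L N] [Algebra k N] [IsScalarTower k L N] (h1 : Algebra.EssFiniteType k N)
    (h2 : Algebra.trdeg k L = 1) (h3 : Algebra.trdeg k N = 2) : IsFunctionField L N := by
  refine ⟨Algebra.EssFiniteType.of_comp k L N, ?_⟩
  have h4 := trdeg_add_eq k L (A := N)
  rw [h2, h3] at h4
  have h5 : (1 : Cardinal) + Algebra.trdeg L N = 1 + 1 := by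
    rw [h4]; norm_num
  exact Cardinal.eq_of_add_eq_add_left h5 Cardinal.one_lt_aleph0

end trdeg

section restr

variable {k K L N : Type} [Field k] [Field K] [Field L] [Field N] [Algebra k K] [Algebra k L]
  [Algebra k N] [Algebra L N] [Algebra K N] [IsScalarTower k L N] [IsScalarTower k K N]

theorem Place.val_const (v : Place K N) (a : k) (ha : a ≠ 0) : v.val (algebraMap k N a) = 1 := by
  rw [IsScalarTower.algebraMap_apply k K N]
  exact v.triv _ (by simpa using ha)

/-- Restriction of a place of `N/K` to a subfield `L ⊇ k` on which it is not trivial. -/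
theorem Place.exists_restrict (v : Place K N) (hL : IsFunctionField k L) (b : L) (hb0 : b ≠ 0)
    (hb : v.val (algebraMap L N b) ≠ 1) :
    ∃ u : Place k L, (∀ a : L, u.val a ≤ 1 ↔ v.val (algebraMap L N a) ≤ 1) ∧
      (∀ a : L, u.val a < 1 ↔ v.val (algebraMap L N a) < 1) := by
  let O : ValuationSubring L := v.val.valuationSubring.comap (algebraMap L N)
  have hO : ∀ a : L, a ∈ O ↔ v.val (algebraMap L N a) ≤ 1 := fun a => Iff.rfl
  have hk : ∀ a : k, algebraMap k L a ∈ O := by
    intro a
    rw [hO, ← IsScalarTower.algebraMap_apply k L N, IsScalarTower.algebraMap_apply k K N]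
    exact v.val_algebraMap_le _
  have hb0' : algebraMap L N b ≠ 0 := by simpa using hb0
  obtain ⟨y, hy⟩ : ∃ y, y ∉ O := by
    rcases lt_or_gt_of_ne hb with h | h
    · refine ⟨b⁻¹, ?_⟩
      rw [hO, map_inv₀, map_inv₀, not_le]
      exact (one_lt_inv₀ (zero_lt_iff.2 (by simpa using hb0'))).2 h
    · exact ⟨b, by rw [hO, not_le]; exact h⟩
  obtain ⟨u, hu⟩ := hL.exists_place O hk y hy
  have h1 : ∀ a : L, u.val a ≤ 1 ↔ v.val (algebraMap L N a) ≤ 1 := fun a => by
    rw [hu, hO]
  refine ⟨u, h1, fun a => ?_⟩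
  by_cases ha : a = 0
  · subst ha; simp
  have ha' : algebraMap L N a ≠ 0 := by simpa using ha
  have h2 := h1 a⁻¹
  rw [map_inv₀, map_inv₀, map_inv₀, inv_le_one₀ (zero_lt_iff.2 (by simpa using ha)),
    inv_le_one₀ (zero_lt_iff.2 (by simpa using ha'))] at h2
  rw [← not_le, ← not_le, h2]

/-- Residues of elements of `L` at a place which is not trivial on `L` are algebraic over the
constants `k`. -/
theorem Place.exists_residue_hom (v : Place K N) (u : Place k L)
    (h1 : ∀ a : L, u.val a ≤ 1 ↔ v.val (algebraMap L N a) ≤ 1)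
    (h2 : ∀ a : L, u.val a < 1 ↔ v.val (algebraMap L N a) < 1) :
    ∃ ρ : u.resField →+* v.resField, (∀ a : L, u.val a ≤ 1 →
      ρ (u.res a) = v.res (algebraMap L N a)) ∧
      (∀ c : k, ρ (algebraMap k u.resField c) = algebraMap K v.resField (algebraMap k K c)) := by
  let g : u.ring →+* v.ring :=
    { toFun := fun a => ⟨algebraMap L N (a : L), (h1 a).1 a.2⟩
      map_one' := Subtype.ext (map_one _)
      map_mul' := fun a b => Subtype.ext (map_mul _ _ _)
      map_zero' := Subtype.ext (map_zero _)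
      map_add' := fun a b => Subtype.ext (map_add _ _ _) }
  have hg : IsLocalHom g := by
    refine ⟨fun a ha => ?_⟩
    rw [Place.isUnit_iff] at ha ⊢
    refine le_antisymm a.2 ?_
    by_contra hlt
    rw [not_le] at hlt
    have h3 : v.val (algebraMap L N (a : L)) < 1 := (h2 a).1 hlt
    have h4 : v.val (algebraMap L N (a : L)) = 1 := ha
    exact absurd h4 h3.ne
  refine ⟨IsLocalRing.ResidueField.map g, fun a ha => ?_, fun c => ?_⟩
  · rw [u.res_of_mem (show a ∈ u.ring from ha),
      v.res_of_mem (show algebraMap L N a ∈ v.ring from (h1 a).1 ha),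
      IsLocalRing.ResidueField.map_residue]
    rfl
  · have h3 : algebraMap k u.resField c = IsLocalRing.residue u.ring (algebraMap k u.ring c) := rfl
    have h4 : algebraMap K v.resField (algebraMap k K c) =
      IsLocalRing.residue v.ring (algebraMap K v.ring (algebraMap k K c)) := rfl
    rw [h3, h4, IsLocalRing.ResidueField.map_residue]
    congr 1
    apply Subtype.ext
    change algebraMap L N (algebraMap k L c) = algebraMap K N (algebraMap k K c)
    rw [← IsScalarTower.algebraMap_apply, ← IsScalarTower.algebraMap_apply]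

end restr

end Pool.Agent.Helper16
end

/- Helper16.DP.HC.Fin -/
section
set_option autoImplicit false

/-!
Project HC (MP_0b9e0b_ag), module B1: finiteness of the places which occur in a relation, finiteness
of their residue fields, generic points.
-/

namespace Pool.Agent.HC

open Pool.Agent.Helper16

variable {K σ : Type} [Field K] {N : Type} [Field N] [Algebra K N]

/-! ### Change of the base field -/

/-- A place of `N` over a subfield on which it is trivial. -/
def overM (v : Place K N) (M : IntermediateField K N) (h : ∀ a ∈ M, a ≠ 0 → v.val a = 1) :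
    Place M N where
  val := v.val
  surj := v.surj
  triv := fun a ha => h a.1 a.2 (fun h0 => ha (Subtype.ext h0))

/-- A place over an extension field of `K` as a place over `K`. -/
def under (K : Type) {M N : Type} [Field K] [Field M] [Field N] [Algebra K M] [Algebra K N]
    [Algebra M N] [IsScalarTower K M N] (w : Place M N) : Place K N where
  val := w.val
  surj := w.surj
  triv := fun a ha => by
    rw [IsScalarTower.algebraMap_apply K M N]
    exact w.triv _ ((map_ne_zero_iff _ (algebraMap K M).injective).2 ha)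

theorem under_ord {M : Type} [Field M] [Algebra K M] [Algebra M N] [IsScalarTower K M N]
    (w : Place M N) (f : N) : (under K w).ord f = w.ord f := rfl

theorem under_overM (v : Place K N) (M : IntermediateField K N)
    (h : ∀ a ∈ M, a ≠ 0 → v.val a = 1) : under K (overM v M h) = v := rfl

/-! ### Transcendence bases among generators -/

open IntermediateField.algebraAdjoinAdjoin in
theorem exists_indep_sub {F : Type} [Field F] [Algebra K F] {ι : Type} (u : ι → F) {r : ℕ}
    (hr : Algebra.trdeg K (IntermediateField.adjoin K (Set.range u)) = r) :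
    ∃ e : Fin r → ι, AlgebraicIndependent K fun a => u (e a) := by
  have h1 : Algebra.trdeg K (Algebra.adjoin K (Set.range u)) = r := by
    rw [← hr]
    exact (trdeg_of_isAlgebraic K (Algebra.adjoin K (Set.range u))
      (T := IntermediateField.adjoin K (Set.range u))).symm
  let s : Set (Algebra.adjoin K (Set.range u)) :=
    Set.range fun i => ⟨u i, Algebra.subset_adjoin ⟨i, rfl⟩⟩
  have h2 : Algebra.adjoin K s = ⊤ := by
    rw [eq_top_iff]
    rintro ⟨a, ha⟩ -
    have h3 : Algebra.adjoin K (Set.range u) =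
        (Algebra.adjoin K s).map (Algebra.adjoin K (Set.range u)).val := by
      rw [AlgHom.map_adjoin]
      congr 1
      ext b
      constructor
      · rintro ⟨i, rfl⟩
        exact ⟨_, ⟨i, rfl⟩, rfl⟩
      · rintro ⟨_, ⟨i, rfl⟩, rfl⟩
        exact ⟨i, rfl⟩
    have h4 := ha
    rw [h3] at h4
    obtain ⟨b, hb, hba⟩ := h4
    have : b = ⟨a, ha⟩ := Subtype.ext hba
    rwa [← this]
  have h5 : Algebra.IsAlgebraic (Algebra.adjoin K s) (Algebra.adjoin K (Set.range u)) := by
    constructor
    intro a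
    have ha : a ∈ Algebra.adjoin K s := by rw [h2]; trivial
    exact isAlgebraic_algebraMap (⟨a, ha⟩ : Algebra.adjoin K s)
  obtain ⟨t, hts, ht⟩ := exists_isTranscendenceBasis_subset (R := K) s
  have h6 := ht.cardinalMk_eq_trdeg
  rw [h1, ← Cardinal.mk_fin, Cardinal.eq] at h6
  obtain ⟨g⟩ := h6
  have h7 : ∀ a : Fin r, ∃ i, ((g.symm a : t) : Algebra.adjoin K (Set.range u)) =
      ⟨u i, Algebra.subset_adjoin ⟨i, rfl⟩⟩ := by
    intro a
    obtain ⟨i, hi⟩ := hts (g.symm a).2
    exact ⟨i, hi.symm⟩
  choose e he using h7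
  refine ⟨e, ?_⟩
  have h8 := (ht.1.comp g.symm g.symm.injective).map' (f := (Algebra.adjoin K (Set.range u)).val)
    Subtype.val_injective
  have h9 : ((Algebra.adjoin K (Set.range u)).val ∘ ((↑) : t → _) ∘ g.symm) =
      fun a => u (e a) := by
    funext a
    simp only [Function.comp_apply]
    rw [he a]
    rfl
  rw [h9] at h8
  exact h8

theorem ratioField_eq_range {x : σ → N} {j0 : σ} (h : x j0 ≠ 0) :
    ratioField K x = IntermediateField.adjoin K (Set.range fun i => x i / x j0) := by
  rw [← ratioField_scale x (inv_ne_zero h), ratioField_of_one _ j0 (inv_mul_cancel₀ h)]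
  congr 1
  congr 1
  funext i
  rw [div_eq_mul_inv, mul_comm]

theorem exists_base {v : Place K N} {x : σ → N} {y : σ → v.resField} (h : SpecAt v x y) {r : ℕ}
    (hr : Algebra.trdeg K (ratioField K y) = r) :
    ∃ (j0 : σ) (e : Fin r → σ), (∀ a, x (e a) / x j0 ∈ v.ring) ∧
      AlgebraicIndependent K (fun a => v.res (x (e a) / x j0)) ∧
      ∀ a, v.res (x (e a) / x j0) ∈ ratioField K y := by
  obtain ⟨j0, hx0, hy0, h1⟩ := h.normal
  have h2 := ratioField_eq_range (K := K) hy0
  obtain ⟨e, he⟩ := exists_indep_sub (K := K) (fun i => y i / y j0) (r := r) (by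
    rw [← h2, hr])
  refine ⟨j0, e, fun a => (h1 _).1, ?_, fun a => ?_⟩
  · simpa only [(h1 _).2] using he
  · rw [(h1 _).2]
    exact div_mem_ratioField y _ _

theorem isFunctionField_of_indep {r : ℕ} {z : Fin r → N} (hz : AlgebraicIndependent K z)
    (hN : Algebra.EssFiniteType K N) (htr : Algebra.trdeg K N = r + 1) :
    IsFunctionField (IntermediateField.adjoin K (Set.range z)) N := by
  have h1 : Algebra.trdeg K (IntermediateField.adjoin K (Set.range z)) = r := by
    have h2 : Algebra.trdeg K (IntermediateField.adjoin K (Set.range z)) =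
        Algebra.trdeg K (MvPolynomial (Fin r) K) := by
      have h3 := open IntermediateField.algebraAdjoinAdjoin in
        trdeg_of_isAlgebraic K (Algebra.adjoin K (Set.range z))
          (T := IntermediateField.adjoin K (Set.range z))
      rw [h3]
      exact (hz.aevalEquiv).symm.trdeg_eq
    rw [h2, MvPolynomial.trdeg_of_isDomain]
    simp
  refine ⟨Algebra.EssFiniteType.of_comp K _ N, ?_⟩
  have h4 := trdeg_add_eq K (IntermediateField.adjoin K (Set.range z)) (A := N)
  rw [h1, htr, add_comm, add_comm (r : Cardinal) 1] at h4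
  exact (Cardinal.add_nat_inj r).1 h4

/-! ### Finiteness -/

/-- Only finitely many places occur in a relation. -/
theorem finite_places [Finite σ] {r : ℕ} (hN : Algebra.EssFiniteType K N)
    (htr : Algebra.trdeg K N = r + 1) (x : σ → N) (f : N) :
    {v : Place K N | v.ord f ≠ 0 ∧ ∃ y : σ → v.resField, SpecAt v x y ∧
      Algebra.trdeg K (ratioField K y) = r}.Finite := by
  classical
  have h1 : ∀ (j0 : σ) (e : Fin r → σ), {v : Place K N | v.ord f ≠ 0 ∧
      (∀ a, x (e a) / x j0 ∈ v.ring) ∧
      AlgebraicIndependent K (fun a => v.res (x (e a) / x j0))}.Finite := by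
    intro j0 e
    by_cases hz : AlgebraicIndependent K (fun a => x (e a) / x j0)
    · have hF := isFunctionField_of_indep hz hN htr
      obtain ⟨S, hS, -⟩ := hF.product_formula f
      refine Set.Finite.subset ((S.finite_toSet).image (under K)) ?_
      rintro v ⟨hv1, hv2, hv3⟩
      refine ⟨overM v _ fun a ha ha0 => (val_one_of_indep hv2 hv3 ha ha0).1, ?_, rfl⟩
      rw [Finset.mem_coe, hS]
      exact hv1
    · convert Set.finite_empty
      ext v
      simp only [Set.mem_ofPred_eq, Set.mem_empty_iff_false, iff_false]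
      rintro ⟨-, hv2, hv3⟩
      exact hz (indep_of_res hv2 hv3)
  refine Set.Finite.subset (Set.finite_iUnion fun j0 : σ => Set.finite_iUnion fun e : Fin r → σ =>
    h1 j0 e) ?_
  rintro v ⟨hv, y, hy, hr⟩
  obtain ⟨j0, e, h2, h3, -⟩ := exists_base hy hr
  exact Set.mem_iUnion.2 ⟨j0, Set.mem_iUnion.2 ⟨e, hv, h2, h3⟩⟩

/-- The residue field of a place which occurs in a relation is a finite extension of the field
of the specialised point. -/
theorem finite_resField {r : ℕ} (hN : Algebra.EssFiniteType K N)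
    (htr : Algebra.trdeg K N = r + 1) {v : Place K N} {x : σ → N} {y : σ → v.resField}
    (h : SpecAt v x y) (hr : Algebra.trdeg K (ratioField K y) = r) :
    Module.Finite (ratioField K y) v.resField := by
  classical
  obtain ⟨j0, e, h2, h3, h4⟩ := exists_base h hr
  have hF := isFunctionField_of_indep (indep_of_res h2 h3) hN htr
  have htriv := fun a ha ha0 => (val_one_of_indep (v := v) h2 h3 (a := a) ha ha0).1
  set M := IntermediateField.adjoin K (Set.range fun a => x (e a) / x j0) with hM
  let w : Place M N := overM v M htriv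
  have h5 := w.finite_resField hF
  obtain ⟨S, hS⟩ := h5.fg_top
  have h6 : ∀ s : w.resField, ∃ b ∈ v.ring, w.res b = s := fun s => w.res_surj s
  choose b hb hbs using h6
  refine ⟨⟨S.image fun s => v.res (b s), ?_⟩⟩
  rw [eq_top_iff]
  rintro a -
  obtain ⟨c, hc, rfl⟩ := v.res_surj a
  have h7 : w.res c ∈ Submodule.span M (S : Set w.resField) := by rw [hS]; trivial
  have hle : IntermediateField.adjoin K (Set.range fun a => v.res (x (e a) / x j0)) ≤
      ratioField K y := by
    rw [IntermediateField.adjoin_le_iff]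
    rintro _ ⟨a, rfl⟩
    exact h4 a
  have hMres : ∀ m : M, (m : N) ∈ v.ring ∧ v.res (m : N) ∈ ratioField K y := by
    intro m
    by_cases hm : (m : N) = 0
    · rw [hm]
      exact ⟨zero_mem _, by rw [v.res_zero]; exact zero_mem _⟩
    · have := val_one_of_indep (v := v) h2 h3 m.2 hm
      exact ⟨this.1.le, hle this.2⟩
  have key : ∀ s ∈ Submodule.span M (S : Set w.resField), ∀ d ∈ v.ring, w.res d = s →
      v.res d ∈ Submodule.span (ratioField K y) ((S.image fun s => v.res (b s)) :
        Set v.resField) := by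
    intro s hs
    induction hs using Submodule.span_induction with
    | mem s hs =>
      intro d hd hds
      have h8 : w.res (d - b s) = 0 := by
        rw [w.res_sub hd (hb s), hds, hbs, sub_self]
      have h9 : v.res (d - b s) = 0 := by
        rw [v.res_eq_zero_iff (sub_mem hd (hb s))]
        rwa [w.res_eq_zero_iff (show d - b s ∈ w.ring from sub_mem (S := Subalgebra K N) hd (hb s))]
          at h8
      rw [v.res_sub hd (hb s), sub_eq_zero] at h9
      rw [h9]
      refine Submodule.subset_span ?_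
      rw [Finset.coe_image]
      exact ⟨s, hs, rfl⟩
    | zero =>
      intro d hd hds
      have h9 : v.res d = 0 := by
        rw [v.res_eq_zero_iff hd]
        rwa [w.res_eq_zero_iff hd] at hds
      rw [h9]
      exact zero_mem _
    | add s t _ _ ihs iht =>
      intro d hd hds
      have h8 : w.res (d - b s) = t := by
        rw [w.res_sub hd (hb s), hds, hbs]
        ring
      have h9 := ihs (b s) (hb s) (hbs s)
      have h10 := iht (d - b s) (sub_mem (S := Subalgebra K N) hd (hb s)) h8
      have h11 := add_mem h9 h10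
      rw [v.res_sub hd (hb s)] at h11
      simpa using h11
    | smul m s _ ihs =>
      intro d hd hds
      have h8 := ihs (b s) (hb s) (hbs s)
      have hm := hMres m
      have h9 : w.res (d - m * b s) = 0 := by
        rw [w.res_sub hd (mul_mem (S := Subalgebra K N) hm.1 (hb s)), hds,
          w.res_mul (show (m : N) ∈ w.ring from hm.1) (hb s), hbs]
        have : w.res (m : N) = algebraMap M w.resField m := w.res_algebraMap m
        rw [this, Algebra.smul_def, sub_self]
      have h10 : v.res (d - m * b s) = 0 := by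
        rw [v.res_eq_zero_iff (sub_mem hd (mul_mem hm.1 (hb s)))]
        rwa [w.res_eq_zero_iff (show d - m * b s ∈ w.ring from
          sub_mem (S := Subalgebra K N) hd (mul_mem hm.1 (hb s)))] at h9
      rw [v.res_sub hd (mul_mem hm.1 (hb s)), sub_eq_zero, v.res_mul hm.1 (hb s)] at h10
      rw [h10]
      exact Submodule.smul_mem _ (⟨v.res m, hm.2⟩ : ratioField K y) h8
  exact key _ h7 c hc rfl

theorem finrank_pos {r : ℕ} (hN : Algebra.EssFiniteType K N)
    (htr : Algebra.trdeg K N = r + 1) {v : Place K N} {x : σ → N} {y : σ → v.resField}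
    (h : SpecAt v x y) (hr : Algebra.trdeg K (ratioField K y) = r) :
    0 < Module.finrank (ratioField K y) v.resField := by
  have := finite_resField hN htr h hr
  exact Module.finrank_pos

/-! ### Points and integral subschemes -/

theorem isSub_of_pt {I : Set (MvPolynomial σ K)} (hI : ∀ P ∈ I, ∃ d, P.IsHomogeneous d)
    {x : σ → N} (hx : IsPt I x) {r : ℕ} (hr : Algebra.trdeg K (ratioField K x) = r) :
    IsSub I r (homIdeal K x) where
  prime := homIdeal_prime x
  hom := homIdeal_hom x
  le := fun P hP => by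
    obtain ⟨d, hd⟩ := hI P hP
    exact (mem_homIdeal_form x hd).2 (hx.2 P hP)
  dim := by rw [trdeg_cone hx.1, hr]

theorem exists_pt {I : Set (MvPolynomial σ K)} {r : ℕ} {P : Ideal (MvPolynomial σ K)}
    (hP : IsSub I r P) :
    ∃ (N : Type) (_ : Field N) (_ : Algebra K N) (x : σ → N), IsPt I x ∧ homIdeal K x = P := by
  have := hP.prime
  refine ⟨FractionRing (MvPolynomial σ K ⧸ P), inferInstance, inferInstance,
    fun j => algebraMap (MvPolynomial σ K ⧸ P) _ (Ideal.Quotient.mk P (MvPolynomial.X j)), ?_⟩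
  have h1 : ∀ F : MvPolynomial σ K, MvPolynomial.aeval (fun j =>
      (algebraMap (MvPolynomial σ K ⧸ P) (FractionRing (MvPolynomial σ K ⧸ P)))
        (Ideal.Quotient.mk P (MvPolynomial.X j))) F =
      algebraMap (MvPolynomial σ K ⧸ P) (FractionRing (MvPolynomial σ K ⧸ P))
        (Ideal.Quotient.mk P F) := by
    intro F
    have := MvPolynomial.comp_aeval_apply (R := K) (S₁ := MvPolynomial σ K ⧸ P)
      (fun j => Ideal.Quotient.mk P (MvPolynomial.X j))
      (IsScalarTower.toAlgHom K (MvPolynomial σ K ⧸ P) (FractionRing (MvPolynomial σ K ⧸ P))) F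
    refine this.symm.trans ?_
    rw [IsScalarTower.toAlgHom_apply]
    congr 1
    have h2 := MvPolynomial.comp_aeval_apply (R := K) (S₁ := MvPolynomial σ K)
      (fun j => (MvPolynomial.X j : MvPolynomial σ K)) (Ideal.Quotient.mkₐ K P) F
    rw [MvPolynomial.aeval_X_left_apply] at h2
    exact h2.symm
  have h0 : ∀ F : MvPolynomial σ K, MvPolynomial.aeval (fun j =>
      (algebraMap (MvPolynomial σ K ⧸ P) (FractionRing (MvPolynomial σ K ⧸ P)))
        (Ideal.Quotient.mk P (MvPolynomial.X j))) F = 0 ↔ F ∈ P := by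
    intro F
    rw [h1, map_eq_zero_iff _ (IsFractionRing.injective _ _), Ideal.Quotient.eq_zero_iff_mem]
  refine ⟨⟨?_, fun F hF => (h0 F).2 (hP.le hF)⟩, eq_homIdeal _ hP.hom fun d F _ => (h0 F).symm⟩
  intro h2
  have h3 : ∀ j, (MvPolynomial.X j : MvPolynomial σ K) ∈ P := by
    intro j
    rw [← h0, MvPolynomial.aeval_X]
    exact congrFun h2 j
  have h4 : Algebra.IsAlgebraic K (MvPolynomial σ K ⧸ P) := by
    constructor
    intro a
    obtain ⟨F, rfl⟩ := Ideal.Quotient.mk_surjective a
    have h5 : Ideal.Quotient.mk P F = algebraMap K _ (MvPolynomial.constantCoeff F) := by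
      have h6 := MvPolynomial.comp_aeval_apply (R := K) (S₁ := MvPolynomial σ K)
        (fun j => (MvPolynomial.X j : MvPolynomial σ K)) (Ideal.Quotient.mkₐ K P) F
      rw [MvPolynomial.aeval_X_left_apply] at h6
      have h7 : (fun i => Ideal.Quotient.mkₐ K P (MvPolynomial.X i)) =
          fun _ => (0 : MvPolynomial σ K ⧸ P) := by
        funext i
        exact Ideal.Quotient.eq_zero_iff_mem.2 (h3 i)
      rw [h7, MvPolynomial.aeval_zero'] at h6
      exact h6
    rw [h5]
    exact isAlgebraic_algebraMap _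
  have h5 := hP.dim
  rw [trdeg_eq_zero] at h5
  exact absurd h5.symm (by simp)

/-- The generic point of an integral subscheme, over its field. -/
theorem exists_generic [Finite σ] {I : Set (MvPolynomial σ K)} {r : ℕ}
    {P : Ideal (MvPolynomial σ K)} (hP : IsSub I r P) :
    ∃ (N : Type) (_ : Field N) (_ : Algebra K N) (x : σ → N) (j0 : σ), IsPt I x ∧ x j0 = 1 ∧
      homIdeal K x = P ∧ ratioField K x = ⊤ ∧ Algebra.EssFiniteType K N ∧
      Algebra.trdeg K N = r := by
  obtain ⟨N, _, _, x, hx, rfl⟩ := exists_pt hP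
  obtain ⟨j0, hj0⟩ := Function.ne_iff.1 hx.1
  change x j0 ≠ 0 at hj0
  set L := ratioField K x with hL
  let x' : σ → L := fun j => ⟨x j / x j0, div_mem_ratioField x j j0⟩
  have h0 : (fun j => L.val (x' j)) = fun j => (x j0)⁻¹ * x j := by
    funext j
    change x j / x j0 = _
    rw [div_eq_mul_inv, mul_comm]
  have h1 : homIdeal K x' = homIdeal K x := by
    rw [← homIdeal_map L.val x', h0, homIdeal_scale x (inv_ne_zero hj0)]
  have hone : x' j0 = 1 := Subtype.ext (div_self hj0)
  have h2 : IsPt I x' := by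
    refine ⟨fun h => ?_, fun F hF => ?_⟩
    · have := congrFun h j0
      rw [hone] at this
      exact one_ne_zero this
    · have h3 : F ∈ homIdeal K x := hP.le hF
      rw [mem_homIdeal_iff] at h3
      rw [← MvPolynomial.sum_homogeneousComponent F, map_sum]
      refine Finset.sum_eq_zero fun i _ => ?_
      have h4 := h3 i
      rw [← mem_homIdeal_form x (MvPolynomial.homogeneousComponent_isHomogeneous i F), ← h1,
        mem_homIdeal_form x' (MvPolynomial.homogeneousComponent_isHomogeneous i F)] at h4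
      exact h4
  refine ⟨L, inferInstance, inferInstance, x', j0, h2, hone, h1, ?_, ?_, ?_⟩
  · apply IntermediateField.map_injective L.val
    rw [← ratioField_map, h0, ratioField_scale x (inv_ne_zero hj0), ← AlgHom.fieldRange_eq_map,
      IntermediateField.fieldRange_val]
  · rw [IntermediateField.essFiniteType_iff]
    exact IntermediateField.fg_adjoin_of_finite (Set.finite_range _)
  · have h3 := hP.dim
    rw [trdeg_cone hx.1] at h3
    exact Cardinal.add_one_inj.1 h3

/-- Integral subschemes of the same dimension, one of which contains the other, are equal. -/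
theorem isSub_eq_of_le [Finite σ] {I J : Set (MvPolynomial σ K)} {r : ℕ}
    {P Q : Ideal (MvPolynomial σ K)} (hP : IsSub I r P) (hQ : IsSub J r Q) (h : P ≤ Q) : P = Q := by
  by_contra hne
  have h1 := PL.trdeg_lt P Q hP.prime hQ.prime (lt_of_le_of_ne h hne) (r + 1) (by
    rw [hQ.dim]; push_cast; exact le_refl _)
  rw [hP.dim] at h1
  have h2 : ((r + 1 + 1 : ℕ) : Cardinal) ≤ ((r + 1 : ℕ) : Cardinal) := by
    refine h1.trans ?_
    push_cast
    exact le_refl _
  rw [Nat.cast_le] at h2
  omega

end Pool.Agent.HC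
end

/- HC.MonFin -/
section
set_option autoImplicit false

/-!
Project HC (MP_0b9e0b_ag): finite extensions of a finite field which contain given roots and the
field with `q ^ 2` elements.
-/

namespace Pool.Agent.HC

theorem exists_ext_roots (k : Type) [Field k] [Finite k] (p f : ℕ) (hp : p.Prime) [CharP k p]
    (hf : f ≠ 0) {ι : Type} [Finite ι] {m : ℕ} (hm : 0 < m) (a : ι → k) (ha : ∀ j, a j ≠ 0) :
    ∃ (k' : Type) (_ : Field k') (_ : Algebra k k') (μ : ℕ) (c : ι → k'),
      Module.Finite k k' ∧ CharP k' p ∧ Finite k' ∧ μ ≠ 0 ∧ Nat.card k' = (p ^ f) ^ (2 * μ) ∧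
        ∀ j, algebraMap k k' (a j) * c j ^ m = 1 := by
  classical
  have : Fact p.Prime := ⟨hp⟩
  let Ω := AlgebraicClosure k
  have h1 : ∀ j, ∃ z : Ω, z ^ m = (algebraMap k Ω (a j))⁻¹ := fun j =>
    IsAlgClosed.exists_pow_nat_eq _ hm
  choose c0 hc0 using h1
  let L := IntermediateField.adjoin k (Set.range c0)
  have hL : FiniteDimensional k L :=
    IntermediateField.finiteDimensional_adjoin fun x _ => Algebra.IsIntegral.isIntegral x
  have hLfin : Finite L := Module.finite_of_finite k
  have hLp : CharP L p := charP_of_injective_algebraMap (algebraMap k L).injective p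
  have : NeZero (2 * f) := ⟨by omega⟩
  let k' := FiniteField.Extension L p (2 * f)
  let alg : Algebra k k' := ((algebraMap L k').comp (algebraMap k L)).toAlgebra
  have htow : IsScalarTower k L k' := IsScalarTower.of_algebraMap_eq fun _ => rfl
  have hfin : Module.Finite k k' := Module.Finite.trans L k'
  have hfin' : Finite k' := Module.finite_of_finite k
  have hk'p : CharP k' p := charP_of_injective_algebraMap (algebraMap k k').injective p
  have : Fintype L := Fintype.ofFinite L
  obtain ⟨n, -, hn⟩ := FiniteField.card L p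
  refine ⟨k', inferInstance, alg, n, fun j => algebraMap L k' ⟨c0 j,
    IntermediateField.subset_adjoin k _ ⟨j, rfl⟩⟩, hfin, hk'p, hfin', n.ne_zero, ?_, fun j => ?_⟩
  · rw [FiniteField.natCard_extension, Nat.card_eq_fintype_card, hn, ← pow_mul, ← pow_mul]
    congr 1
    ring
  · rw [← map_pow, IsScalarTower.algebraMap_apply k L k', ← map_mul]
    have h2 : (algebraMap k L (a j)) * (⟨c0 j, IntermediateField.subset_adjoin k _ ⟨j, rfl⟩⟩ : L) ^ m
        = 1 := by
      apply Subtype.ext
      change algebraMap k Ω (a j) * c0 j ^ m = 1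
      rw [hc0, mul_inv_cancel₀ ((map_ne_zero _).2 (ha j))]
    rw [h2, map_one]

end Pool.Agent.HC
end

/- Helper16.DP.H16.TW2 -/
section
set_option autoImplicit false
set_option linter.style.haveILetI false

namespace Pool.Agent.Helper16

open Polynomial IntermediateField IsDedekindDomain

section twist

variable {k : Type} [Field k]

theorem trdeg_ratFunc_two (L : Type) [Field L] [Algebra k L] (h : Algebra.trdeg k L = 1) :
    Algebra.trdeg k (RatFunc L) = 2 := by
  have h1 := trdeg_add_eq k L (A := RatFunc L)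
  rw [h, trdeg_ratFunc] at h1
  rw [← h1]
  norm_num

theorem essFiniteType_k_ratFunc (L : Type) [Field L] [Algebra k L] (h : Algebra.EssFiniteType k L) :
    Algebra.EssFiniteType k (RatFunc L) := by
  haveI := essFiniteType_ratFunc L
  exact Algebra.EssFiniteType.comp k L (RatFunc L)

theorem isFunctionField_K : IsFunctionField k (RatFunc k) := isFunctionField_ratFunc k

/-- Two ring homomorphisms from `k(t)` which agree on `k` and on `t` are equal. -/
theorem ratFunc_hom_ext {A : Type} [Semiring A] {f g : RatFunc k →+* A}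
    (h1 : ∀ a : k, f (algebraMap k (RatFunc k) a) = g (algebraMap k (RatFunc k) a))
    (h2 : f RatFunc.X = g RatFunc.X) : f = g := by
  apply IsLocalization.ringHom_ext (nonZeroDivisors k[X])
  apply Polynomial.ringHom_ext
  · intro a
    have h3 : algebraMap k[X] (RatFunc k) (C a) = algebraMap k (RatFunc k) a := by
      rw [RatFunc.algebraMap_C]
      rfl
    simp only [RingHom.comp_apply, h3, h1]
  · simp only [RingHom.comp_apply, RatFunc.algebraMap_X, h2]

/-- `k(t) → N`, `t ↦ τ`, for `τ` transcendental. -/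
noncomputable def ratLift {N : Type} [Field N] [Algebra k N] (τ : N) (hτ : Transcendental k τ) :
    RatFunc k →ₐ[k] N :=
  RatFunc.liftAlgHom (aeval τ : k[X] →ₐ[k] N) (by
    intro p hp
    rw [Submonoid.mem_comap]
    apply mem_nonZeroDivisors_of_ne_zero
    intro h0
    exact nonZeroDivisors.ne_zero hp (transcendental_iff_injective.1 hτ (by rw [map_zero]; exact h0)))

theorem ratLift_X {N : Type} [Field N] [Algebra k N] (τ : N) (hτ : Transcendental k τ) :
    ratLift τ hτ RatFunc.X = τ := by
  rw [← RatFunc.algebraMap_X, ratLift, RatFunc.liftAlgHom_apply]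
  simp

/-- The field `L(X)` with the structure of `k(t)`-algebra given by `t ↦ τ`. -/
theorem exists_twist_algebra (L : Type) [Field L] [Algebra k L] (hL : IsFunctionField k L)
    (τ : RatFunc L) (hτ : Transcendental k τ) :
    ∃ (N : Type) (_ : Field N) (_ : Algebra k N) (_ : Algebra L N) (_ : Algebra (RatFunc k) N)
      (_ : IsScalarTower k L N) (_ : IsScalarTower k (RatFunc k) N) (e : RatFunc L ≃ₐ[L] N),
      algebraMap (RatFunc k) N RatFunc.X = e τ ∧ IsFunctionField (RatFunc k) N ∧
      IsFunctionField L N := by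
  letI ψ := ratLift τ hτ
  letI alg : Algebra (RatFunc k) (RatFunc L) := ψ.toRingHom.toAlgebra
  haveI st : IsScalarTower k (RatFunc k) (RatFunc L) := by
    refine IsScalarTower.of_algebraMap_eq fun a => ?_
    exact (ψ.commutes a).symm
  refine ⟨RatFunc L, inferInstance, inferInstance, inferInstance, alg, inferInstance, st,
    AlgEquiv.refl, ratLift_X τ hτ, ?_, isFunctionField_ratFunc L⟩
  exact IsFunctionField.of_subfield (k := k) (essFiniteType_k_ratFunc L hL.1)
    isFunctionField_K.2 (trdeg_ratFunc_two L hL.2)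

end twist

section close

variable {k N Γ : Type} [Field k] [Field N] [Algebra k N] [LinearOrderedCommGroupWithZero Γ]

theorem mul_lt_one_aux {a b : Γ} (ha : a ≤ 1) (hb : b < 1) : a * b < 1 :=
  calc a * b ≤ 1 * b := by (clear * - ha; gcongr)
    _ = b := one_mul b
    _ < 1 := hb

theorem val_aeval_le (v : Valuation N Γ) (hk : ∀ a : k, v (algebraMap k N a) ≤ 1) {x : N}
    (hx : v x ≤ 1) (p : k[X]) : v (aeval x p) ≤ 1 := by
  induction p using Polynomial.induction_on' with
  | add p q hp hq =>
    rw [map_add]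
    exact (v.map_add _ _).trans (max_le hp hq)
  | monomial n a =>
    rw [aeval_monomial, map_mul, map_pow]
    exact mul_le_one' (hk a) (pow_le_one' hx n)

theorem val_aeval_sub_lt (v : Valuation N Γ) (hk : ∀ a : k, v (algebraMap k N a) ≤ 1) {x y : N}
    (hx : v x ≤ 1) (hxy : v (x - y) < 1) (p : k[X]) : v (aeval x p - aeval y p) < 1 := by
  have hy : v y ≤ 1 := by
    have : y = x - (x - y) := by ring
    rw [this]
    exact (v.map_sub _ _).trans (max_le hx hxy.le)
  induction p using Polynomial.induction_on' with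
  | add p q hp hq =>
    have : aeval x (p + q) - aeval y (p + q) =
      (aeval x p - aeval y p) + (aeval x q - aeval y q) := by
      simp only [map_add]; ring
    rw [this]
    exact v.map_add_lt hp hq
  | monomial n a =>
    rw [aeval_monomial, aeval_monomial, ← mul_sub, map_mul]
    refine mul_lt_one_aux (hk a) ?_
    obtain ⟨c, hc⟩ : ∃ c, x ^ n - y ^ n = c * (x - y) ∧ v c ≤ 1 := by
      refine ⟨∑ i ∈ Finset.range n, x ^ i * y ^ (n - 1 - i), (geom_sum₂_mul x y n).symm, ?_⟩
      apply v.map_sum_le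
      intro i _
      rw [map_mul, map_pow, map_pow]
      exact mul_le_one' (pow_le_one' hx _) (pow_le_one' hy _)
    rw [hc.1, map_mul]
    exact mul_lt_one_aux hc.2 hxy

end close

section place

variable {k L N : Type} [Field k] [Field L] [Field N] [Algebra k L]
  [Algebra k N] [Algebra L N] [Algebra (RatFunc k) N] [IsScalarTower k L N]
  [IsScalarTower k (RatFunc k) N]

/-- A place of `N/L` at which `τ` specialises to an element transcendental over `k` is trivial on
`k(t)`. -/
theorem exists_place_of_close (w : Place L N) (t₀ : L) (ht₀ : Transcendental k t₀)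
    (hw : w.val (algebraMap (RatFunc k) N RatFunc.X - algebraMap L N t₀) < 1) :
    ∃ v : Place (RatFunc k) N, v.val = w.val := by
  have hk : ∀ a : k, w.val (algebraMap k N a) ≤ 1 := by
    intro a
    rw [IsScalarTower.algebraMap_apply k L N]
    exact w.val_algebraMap_le _
  have ht : w.val (algebraMap L N t₀) ≤ 1 := w.val_algebraMap_le _
  have hτ : w.val (algebraMap (RatFunc k) N RatFunc.X) ≤ 1 := by
    have : algebraMap (RatFunc k) N RatFunc.X =
      (algebraMap (RatFunc k) N RatFunc.X - algebraMap L N t₀) + algebraMap L N t₀ := by ring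
    rw [this]
    exact (w.val.map_add _ _).trans (max_le hw.le ht)
  have key : ∀ p : k[X], p ≠ 0 → w.val (algebraMap (RatFunc k) N (algebraMap k[X] (RatFunc k) p)) = 1 := by
    intro p hp
    have h1 : algebraMap (RatFunc k) N (algebraMap k[X] (RatFunc k) p) =
        aeval (algebraMap (RatFunc k) N RatFunc.X) p := by
      rw [aeval_algebraMap_apply]
      congr 1
      rw [← RatFunc.algebraMap_X, aeval_algebraMap_apply]
      simp
    have h2 : w.val (aeval (algebraMap L N t₀) p) = 1 := by
      rw [aeval_algebraMap_apply]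
      apply w.triv
      intro h0
      exact ht₀ ⟨p, hp, h0⟩
    have h3 := val_aeval_sub_lt w.val hk hτ hw p
    rw [h1]
    have h4 : aeval (algebraMap (RatFunc k) N RatFunc.X) p =
      (aeval (algebraMap (RatFunc k) N RatFunc.X) p - aeval (algebraMap L N t₀) p) +
        aeval (algebraMap L N t₀) p := by ring
    rw [h4, w.val.map_add_eq_of_lt_right (by rw [h2]; exact h3), h2]
  refine ⟨⟨w.val, w.surj, ?_⟩, rfl⟩
  intro a ha
  rw [← RatFunc.num_div_denom a, map_div₀, map_div₀, key _ (by simpa using ha),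
    key _ (RatFunc.denom_ne_zero a), div_one]

end place

end Pool.Agent.Helper16
end

/- Helper16.DP.H16.H1b -/
section
set_option autoImplicit false
set_option linter.style.haveILetI false
set_option linter.unusedSectionVars false

namespace Pool.Agent.Helper16

open Polynomial IntermediateField IsDedekindDomain
open scoped LinearAlgebra.Projectivization

section close

variable {k N Γ : Type} [Field k] [Field N] [Algebra k N] [LinearOrderedCommGroupWithZero Γ]
  {σ : Type}

theorem mval_aeval_le (v : Valuation N Γ) (hk : ∀ a : k, v (algebraMap k N a) ≤ 1) {x : σ → N}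
    (hx : ∀ i, v (x i) ≤ 1) (p : MvPolynomial σ k) : v (MvPolynomial.aeval x p) ≤ 1 := by
  induction p using MvPolynomial.induction_on with
  | C a => rw [MvPolynomial.aeval_C]; exact hk a
  | add p q hp hq =>
    rw [map_add]
    exact (v.map_add _ _).trans (max_le hp hq)
  | mul_X p i hp =>
    rw [map_mul, MvPolynomial.aeval_X, map_mul]
    exact mul_le_one' hp (hx i)

theorem mval_aeval_sub_lt (v : Valuation N Γ) (hk : ∀ a : k, v (algebraMap k N a) ≤ 1) {x y : σ → N}
    (hx : ∀ i, v (x i) ≤ 1) (hxy : ∀ i, v (x i - y i) < 1) (p : MvPolynomial σ k) :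
    v (MvPolynomial.aeval x p - MvPolynomial.aeval y p) < 1 := by
  have hy : ∀ i, v (y i) ≤ 1 := by
    intro i
    have : y i = x i - (x i - y i) := by ring
    rw [this]
    exact (v.map_sub _ _).trans (max_le (hx i) (hxy i).le)
  induction p using MvPolynomial.induction_on with
  | C a =>
    rw [MvPolynomial.aeval_C, MvPolynomial.aeval_C, sub_self, map_zero]
    exact zero_lt_one
  | add p q hp hq =>
    have : MvPolynomial.aeval x (p + q) - MvPolynomial.aeval y (p + q) =
      (MvPolynomial.aeval x p - MvPolynomial.aeval y p) +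
        (MvPolynomial.aeval x q - MvPolynomial.aeval y q) := by
      simp only [map_add]; ring
    rw [this]
    exact v.map_add_lt hp hq
  | mul_X p i hp =>
    have : MvPolynomial.aeval x (p * MvPolynomial.X i) - MvPolynomial.aeval y (p * MvPolynomial.X i) =
      MvPolynomial.aeval x p * (x i - y i) +
        y i * (MvPolynomial.aeval x p - MvPolynomial.aeval y p) := by
      simp only [map_mul, MvPolynomial.aeval_X]; ring
    rw [this]
    apply v.map_add_lt
    · rw [map_mul]
      exact mul_lt_one_aux (mval_aeval_le v hk hx p) (hxy i)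
    · rw [map_mul]
      exact mul_lt_one_aux (hy i) hp

end close

section aux

variable {k L N : Type} [Field k] [Field L] [Field N] [Algebra k L] [Algebra k N] [Algebra L N]
  [IsScalarTower k L N]

theorem transcendental_of_close (w : Place L N) (t₀ : L) (ht₀ : Transcendental k t₀) (τ : N)
    (hw : w.val (τ - algebraMap L N t₀) < 1) : Transcendental k τ := by
  have hk : ∀ a : k, w.val (algebraMap k N a) ≤ 1 := by
    intro a
    rw [IsScalarTower.algebraMap_apply k L N]
    exact w.val_algebraMap_le _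
  have hτ : w.val τ ≤ 1 := by
    have : τ = (τ - algebraMap L N t₀) + algebraMap L N t₀ := by ring
    rw [this]
    exact (w.val.map_add _ _).trans (max_le hw.le (w.val_algebraMap_le _))
  rintro ⟨p, hp, hp0⟩
  have h3 := val_aeval_sub_lt w.val hk hτ hw p
  rw [hp0, zero_sub, Valuation.map_neg, aeval_algebraMap_apply] at h3
  have h4 : w.val (algebraMap L N (aeval t₀ p)) = 1 := by
    apply w.triv
    intro h0
    exact ht₀ ⟨p, hp, h0⟩
  rw [h4] at h3
  exact lt_irrefl _ h3

theorem IsFunctionField.exists_zero {K N : Type} [Field K] [Field N] [Algebra K N]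
    (hN : IsFunctionField K N) (f : N) (hf : Transcendental K f) :
    ∃ v : Place K N, v.val f < 1 := by
  obtain ⟨T, hT, hs, hpos⟩ := hN.zeros f hf
  have hne : T.Nonempty := by
    by_contra hemp
    rw [Finset.not_nonempty_iff_eq_empty] at hemp
    rw [hemp, Finset.sum_empty] at hs
    have : (0 : ℤ) < (Module.finrank K⟮f⟯ N : ℤ) := by exact_mod_cast hpos
    omega
  obtain ⟨v, hv⟩ := hne
  exact ⟨v, (hT v).1 hv⟩

theorem ratFunc_X_transcendental (L : Type) [Field L] : Transcendental L (RatFunc.X : RatFunc L) := by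
  rw [transcendental_iff_injective]
  intro p q h
  have h2 : ∀ r : L[X], aeval (RatFunc.X : RatFunc L) r = algebraMap L[X] (RatFunc L) r := by
    intro r
    rw [← RatFunc.algebraMap_X, aeval_algebraMap_apply]
    simp
  rw [h2, h2] at h
  exact IsFractionRing.injective L[X] (RatFunc L) h

end aux

end Pool.Agent.Helper16
end

/- Helper16.DP.HC.Rel -/
section
set_option autoImplicit false

/-!
Project HC (MP_0b9e0b_ag): how a relation is used. Only the positivity of the multiplicities of the
component `Q` is needed.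
-/

namespace Pool.Agent.HC

open Pool.Agent.Helper16

variable {K σ : Type} [Field K]

theorem single_smul_mem {W : Submodule ℚ (Ideal (MvPolynomial σ K) →₀ ℚ)}
    {Q : Ideal (MvPolynomial σ K)} {a : ℚ} (ha : a ≠ 0) (h : Finsupp.single Q a ∈ W) :
    Finsupp.single Q 1 ∈ W := by
  have := W.smul_mem a⁻¹ h
  rwa [Finsupp.smul_single, smul_eq_mul, inv_mul_cancel₀ ha] at this

theorem single_mem_of_one {W : Submodule ℚ (Ideal (MvPolynomial σ K) →₀ ℚ)}
    {Q : Ideal (MvPolynomial σ K)} (a : ℚ) (h : Finsupp.single Q 1 ∈ W) :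
    Finsupp.single Q a ∈ W := by
  have := W.smul_mem a h
  rwa [Finsupp.smul_single, smul_eq_mul, mul_one] at this

/-- If the divisor of `f` on the point `x` consists of `Q`, with positive multiplicities and at
least once, and of elements of `W`, then `Q` is in `W`. -/
theorem rel_solve [Finite σ] {I : Set (MvPolynomial σ K)} {r : ℕ} {N : Type} [Field N]
    [Algebra K N] (hN : Algebra.EssFiniteType K N) (htr : Algebra.trdeg K N = r + 1) {x : σ → N}
    (hx : IsPt I x) {f : N} (hf : f ≠ 0) {W : Submodule ℚ (Ideal (MvPolynomial σ K) →₀ ℚ)}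
    (hW : rat I r ≤ W) {Q : Ideal (MvPolynomial σ K)}
    (h1 : ∀ (v : Place K N) (y : σ → v.resField), SpecAt v x y →
      Algebra.trdeg K (ratioField K y) = r → v.ord f ≠ 0 →
      (homIdeal K y = Q ∧ 0 < v.ord f) ∨ Finsupp.single (homIdeal K y) 1 ∈ W)
    (h2 : ∃ (v : Place K N) (y : σ → v.resField), SpecAt v x y ∧
      Algebra.trdeg K (ratioField K y) = r ∧ 0 < v.ord f ∧ homIdeal K y = Q) :
    Finsupp.single Q 1 ∈ W := by
  classical
  by_contra hcon
  choose y hy using fun v : Place K N => exists_spec v hx.1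
  have hfin := finite_places hN htr x f
  set S := hfin.toFinset with hS
  have hmem : ∀ v, v ∈ S ↔ v.ord f ≠ 0 ∧ Algebra.trdeg K (ratioField K (y v)) = r := by
    intro v
    rw [hS, Set.Finite.mem_toFinset, Set.mem_ofPred_eq]
    refine and_congr_right fun _ => ⟨?_, fun h => ⟨y v, hy v, h⟩⟩
    rintro ⟨y', h3, h4⟩
    rw [← h4, (hy v).ratioField_eq h3]
  have hz : (∑ v ∈ S, Finsupp.single (homIdeal K (y v))
      ((v.ord f * Module.finrank (ratioField K (y v)) v.resField : ℤ) : ℚ)) ∈ W := by
    refine hW (Submodule.subset_span ⟨N, inferInstance, inferInstance, x, f, S, y, hN, htr, hx,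
      hf, hy, hmem, rfl⟩)
  rw [← Finset.sum_filter_add_sum_filter_not S (fun v => homIdeal K (y v) = Q)] at hz
  have h3 : (∑ v ∈ S with ¬ homIdeal K (y v) = Q, Finsupp.single (homIdeal K (y v))
      ((v.ord f * Module.finrank (ratioField K (y v)) v.resField : ℤ) : ℚ)) ∈ W := by
    refine sum_mem fun v hv => single_mem_of_one _ ?_
    rw [Finset.mem_filter, hmem] at hv
    rcases h1 v (y v) (hy v) hv.1.2 hv.1.1 with h | h
    · exact absurd h.1 hv.2
    · exact h
  have h4 := (Submodule.add_mem_iff_left W h3).1 hz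
  have h5 : (∑ v ∈ S with homIdeal K (y v) = Q, Finsupp.single (homIdeal K (y v))
      ((v.ord f * Module.finrank (ratioField K (y v)) v.resField : ℤ) : ℚ)) =
      Finsupp.single Q (∑ v ∈ S with homIdeal K (y v) = Q,
        ((v.ord f * Module.finrank (ratioField K (y v)) v.resField : ℤ) : ℚ)) := by
    rw [Finsupp.single_finsetSum]
    refine Finset.sum_congr rfl fun v hv => ?_
    rw [(Finset.mem_filter.1 hv).2]
  rw [h5] at h4
  refine hcon (single_smul_mem (ne_of_gt ?_) h4)
  refine Finset.sum_pos (fun v hv => ?_) ?_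
  · rw [Finset.mem_filter, hmem] at hv
    rcases h1 v (y v) (hy v) hv.1.2 hv.1.1 with h | h
    · have h6 := finrank_pos hN htr (hy v) hv.1.2
      exact_mod_cast mul_pos h.2 (by exact_mod_cast h6)
    · rw [hv.2] at h
      exact absurd h hcon
  · obtain ⟨v, y', h6, h7, h8, h9⟩ := h2
    refine ⟨v, ?_⟩
    rw [Finset.mem_filter, hmem]
    refine ⟨⟨h8.ne', ?_⟩, ?_⟩
    · rw [← h7, (hy v).ratioField_eq h6]
    · rw [← h9, (hy v).homIdeal_eq h6]

end Pool.Agent.HC
end

/- Helper16.DP.HC.Tdeg -/
section
set_option autoImplicit false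

/-!
Project HC (MP_0b9e0b_ag): transcendence degrees of fields generated by finite sets, residues.
-/

namespace Pool.Agent.HC

open Pool.Agent.Helper16

variable {K : Type} [Field K] {N : Type} [Field N] [Algebra K N]

/-- The transcendence degree over `K` of the field generated by `S`. -/
noncomputable def tdeg (K : Type) {N : Type} [Field K] [Field N] [Algebra K N] (S : Set N) : ℕ :=
  Cardinal.toNat (Algebra.trdeg K (IntermediateField.adjoin K S))

open IntermediateField.algebraAdjoinAdjoin in
theorem trdeg_adjoin_field (S : Set N) : Algebra.trdeg K (IntermediateField.adjoin K S) =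
    Algebra.trdeg K (Algebra.adjoin K S) :=
  trdeg_of_isAlgebraic K (Algebra.adjoin K S) (T := IntermediateField.adjoin K S)

theorem tdeg_spec {S : Set N} (hS : S.Finite) :
    Algebra.trdeg K (IntermediateField.adjoin K S) = tdeg K S := by
  unfold tdeg
  rw [Cardinal.cast_toNat_of_lt_aleph0]
  rw [trdeg_adjoin_field]
  have h1 : (Algebra.adjoin K S).FG := Subalgebra.fg_def.2 ⟨S, hS, rfl⟩
  have : Algebra.FiniteType K (Algebra.adjoin K S) := by
    exact (Subalgebra.fg_iff_finiteType _).1 h1
  exact trdeg_lt_aleph0_of_finiteType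

theorem tdeg_eq_iff {S : Set N} (hS : S.Finite) (n : ℕ) :
    tdeg K S = n ↔ Algebra.trdeg K (IntermediateField.adjoin K S) = n := by
  rw [tdeg_spec hS, Nat.cast_inj]

theorem tdeg_mono {S T : Set N} (hS : S.Finite) (hT : T.Finite)
    (h : IntermediateField.adjoin K S ≤ IntermediateField.adjoin K T) : tdeg K S ≤ tdeg K T := by
  have h1 := trdeg_le_of_inj (IntermediateField.inclusion h)
    (IntermediateField.inclusion_injective h)
  rw [tdeg_spec hS, tdeg_spec hT, Nat.cast_le] at h1
  exact h1

theorem tdeg_mono' {S T : Set N} (hT : T.Finite) (h : S ⊆ T) : tdeg K S ≤ tdeg K T :=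
  tdeg_mono (hT.subset h) hT (IntermediateField.adjoin.mono K _ _ h)

theorem tower (S T : Set N) : Algebra.trdeg K (IntermediateField.adjoin K (S ∪ T)) =
    Algebra.trdeg K (IntermediateField.adjoin K S) +
      Algebra.trdeg (IntermediateField.adjoin K S)
        (IntermediateField.adjoin (IntermediateField.adjoin K S) T) := by
  have h0 : FaithfulSMul (IntermediateField.adjoin K S)
      (IntermediateField.adjoin (IntermediateField.adjoin K S) T) :=
    (faithfulSMul_iff_algebraMap_injective _ _).2 (RingHom.injective (algebraMap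
      (IntermediateField.adjoin K S)
      (IntermediateField.adjoin (IntermediateField.adjoin K S) T)))
  have h1 := trdeg_add_eq K (IntermediateField.adjoin K S)
    (A := IntermediateField.adjoin (IntermediateField.adjoin K S) T)
  rw [h1]
  have h2 := IntermediateField.adjoin_adjoin_left K S T
  rw [← h2]
  rfl

/-- Elements, as many as the transcendence degree of the field which they generate, are
algebraically independent. -/
theorem indep_of_trdeg {M : Type} [Field M] [Algebra M N] {β : Type} [Fintype β] (u : β → N)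
    (h : Algebra.trdeg M (IntermediateField.adjoin M (Set.range u)) = (Fintype.card β : ℕ)) :
    AlgebraicIndependent M u := by
  obtain ⟨e, he⟩ := exists_indep_sub (K := M) u h
  have h1 : Function.Injective e := fun a b hab => he.injective (by simp only [hab])
  have h2 : Function.Bijective e := by
    rw [Fintype.bijective_iff_injective_and_card]
    exact ⟨h1, Fintype.card_fin _⟩
  have h3 := (algebraicIndependent_equiv' (Equiv.ofBijective e h2) (g := fun a => u (e a))
    (f := u) rfl).1 he
  exact h3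

theorem trdeg_adjoin_le (T : Set N) (hT : T.Finite) :
    Algebra.trdeg K (IntermediateField.adjoin K T) ≤ T.ncard := by
  have h0 := tdeg_spec (K := K) hT
  have : Fintype T := hT.fintype
  have h1 : Algebra.trdeg K (IntermediateField.adjoin K (Set.range ((↑) : T → N))) =
    (tdeg K T : ℕ) := by
    rw [Subtype.range_coe]
    exact h0
  obtain ⟨e, he⟩ := exists_indep_sub (K := K) ((↑) : T → N) h1
  have h2 : Function.Injective e := fun a b hab => he.injective (by simp only [hab])
  have h3 := Fintype.card_le_of_injective e h2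
  rw [Fintype.card_fin] at h3
  rw [h0, Set.ncard_eq_toFinset_card' T, Set.toFinset_card]
  exact_mod_cast h3

theorem tdeg_union_le {S T : Set N} (hS : S.Finite) (hT : T.Finite) :
    tdeg K (S ∪ T) ≤ tdeg K S + T.ncard := by
  have h1 := tower (K := K) S T
  have h2 := trdeg_adjoin_le (K := IntermediateField.adjoin K S) T hT
  rw [tdeg_spec (hS.union hT), tdeg_spec hS, tdeg_spec hT] at h1
  have h3 : ((tdeg K (S ∪ T) : ℕ) : Cardinal) ≤ ((tdeg K S + T.ncard : ℕ) : Cardinal) := by
    rw [h1, Nat.cast_add]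
    exact add_le_add le_rfl (by rw [← tdeg_spec hT]; exact h2)
  exact_mod_cast h3

theorem indep_of_tdeg {S : Set N} (hS : S.Finite) {β : Type} [Fintype β] (u : β → N)
    (h : tdeg K (S ∪ Set.range u) = tdeg K S + Fintype.card β) :
    AlgebraicIndependent (IntermediateField.adjoin K S) u := by
  refine indep_of_trdeg u ?_
  have h1 := tower (K := K) S (Set.range u)
  have h2 : (tdeg K (S ∪ Set.range u) : Cardinal) = ((tdeg K S + Fintype.card β : ℕ) : Cardinal) := by
    rw [h]
  rw [tdeg_spec (hS.union (Set.finite_range u)), h2, tdeg_spec hS,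
    tdeg_spec (Set.finite_range u)] at h1
  rw [tdeg_spec (Set.finite_range u)]
  push_cast at h1 ⊢
  rw [add_comm, add_comm (tdeg K S : Cardinal)] at h1
  exact ((Cardinal.add_nat_inj _).1 h1).symm

theorem tdeg_union_of_algebraic {S T : Set N} (hS : S.Finite) (hT : T.Finite)
    (h : ∀ a ∈ T, IsAlgebraic (IntermediateField.adjoin K S) a) :
    tdeg K (S ∪ T) = tdeg K S := by
  have h1 := tower (K := K) S T
  have h2 : Algebra.trdeg (IntermediateField.adjoin K S)
        (IntermediateField.adjoin (IntermediateField.adjoin K S) T) = 0 := by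
    have := IntermediateField.isAlgebraic_adjoin (K := IntermediateField.adjoin K S) (L := N)
      (S := T) (fun x hx => (h x hx).isIntegral)
    exact trdeg_eq_zero
  rw [h2, add_zero, tdeg_spec (hS.union hT), tdeg_spec hS] at h1
  exact_mod_cast h1

theorem tdeg_insert_of_transcendental {S : Set N} (hS : S.Finite) {a : N}
    (h : Transcendental (IntermediateField.adjoin K S) a) :
    tdeg K (insert a S) = tdeg K S + 1 := by
  have h0 : insert a S = S ∪ {a} := by rw [Set.union_comm]; rfl
  have hle := tdeg_union_le (K := K) hS (Set.finite_singleton a)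
  rw [Set.ncard_singleton] at hle
  rw [h0]
  refine le_antisymm hle ?_
  by_contra hcon
  have h1 := tdeg_mono' (K := K) (hS.union (Set.finite_singleton a)) (Set.subset_union_left)
  have h2 : tdeg K (S ∪ {a}) = tdeg K S := by omega
  have h3 := tower (K := K) S {a}
  rw [tdeg_spec (hS.union (Set.finite_singleton a)), h2, tdeg_spec hS,
    tdeg_spec (Set.finite_singleton a)] at h3
  have h4 : tdeg (IntermediateField.adjoin K S) {a} = 0 := by
    have h5 : ((tdeg K S : ℕ) : Cardinal) =
        ((tdeg K S + tdeg (IntermediateField.adjoin K S) {a} : ℕ) : Cardinal) := by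
      push_cast
      exact h3
    have := Nat.cast_injective (R := Cardinal) h5
    omega
  rw [tdeg_eq_iff (Set.finite_singleton a), Nat.cast_zero, trdeg_eq_zero_iff] at h4
  refine h ?_
  have h6 := h4.isAlgebraic ⟨a, IntermediateField.mem_adjoin_simple_self _ a⟩
  exact (isAlgebraic_algebraMap_iff (A := N) (Subtype.val_injective)).2 h6

theorem isAlgebraic_of_tdeg {S : Set N} (hS : S.Finite) {a : N}
    (h : tdeg K (insert a S) ≤ tdeg K S) : IsAlgebraic (IntermediateField.adjoin K S) a := by
  by_contra hcon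
  have := tdeg_insert_of_transcendental hS hcon
  omega

theorem tdeg_range_of_indep {d : ℕ} {z : Fin d → N} (hz : AlgebraicIndependent K z) :
    tdeg K (Set.range z) = d := by
  rw [tdeg_eq_iff (Set.finite_range z), trdeg_adjoin_field, ← (hz.aevalEquiv).trdeg_eq,
    MvPolynomial.trdeg_of_isDomain]
  simp

theorem tdeg_image {N' : Type} [Field N'] [Algebra K N'] (φ : N →ₐ[K] N') (S : Set N) :
    tdeg K (φ '' S) = tdeg K S := by
  unfold tdeg
  rw [← IntermediateField.adjoin_map]
  rw [(IntermediateField.equivMap (IntermediateField.adjoin K S) φ).symm.trdeg_eq]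

/-! ### Residues -/

section res

variable (v : Place K N)

theorem val_eq_one_of_algebraic_over {M : IntermediateField K N}
    (hM : ∀ a ∈ M, a ≠ 0 → v.val a = 1) {b : N} (hb : IsAlgebraic M b) (hb0 : b ≠ 0) :
    v.val b = 1 :=
  (overM v M hM).val_eq_one_of_algebraic hb hb0

theorem exists_indep_res {S : Set N} (hS : S.Finite) :
    ∃ e : Fin (tdeg K (v.res '' S)) → S, AlgebraicIndependent K fun a => v.res (e a : N) := by
  have h1 : v.res '' S = Set.range fun a : S => v.res (a : N) := by
    ext b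
    simp
  have h2 := tdeg_spec (K := K) (hS.image v.res)
  rw [h1] at h2
  rw [h1]
  exact exists_indep_sub (K := K) (fun a : S => v.res (a : N)) h2

theorem indep_in_adjoin {S : Set N} {d : ℕ} {e : Fin d → S}
    (h : AlgebraicIndependent K fun a => (e a : N)) :
    AlgebraicIndependent K fun a => (⟨e a, IntermediateField.subset_adjoin K S (e a).2⟩ :
      IntermediateField.adjoin K S) :=
  AlgebraicIndependent.of_comp (IntermediateField.adjoin K S).val h

theorem tdeg_res_le {S : Set N} (hS : S.Finite) (hv : ∀ a ∈ S, a ∈ v.ring) :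
    tdeg K (v.res '' S) ≤ tdeg K S := by
  obtain ⟨e, he⟩ := exists_indep_res v hS
  have h1 := indep_of_res (v := v) (z := fun a => (e a : N)) (fun a => hv _ (e a).2) he
  have h3 := (indep_in_adjoin h1).cardinalMk_le_trdeg
  rw [tdeg_spec hS, Cardinal.mk_fin, Nat.cast_le] at h3
  exact h3

/-- Abhyankar inequality. -/
theorem tdeg_res_lt {S : Set N} (hS : S.Finite) (hv : ∀ a ∈ S, a ∈ v.ring)
    (hnt : ∃ a ∈ IntermediateField.adjoin K S, a ≠ 0 ∧ v.val a ≠ 1) :
    tdeg K (v.res '' S) < tdeg K S := by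
  refine lt_of_le_of_ne (tdeg_res_le v hS hv) fun heq => ?_
  obtain ⟨e, he⟩ := exists_indep_res v hS
  have h1 := indep_of_res (v := v) (z := fun a => (e a : N)) (fun a => hv _ (e a).2) he
  have h2 := indep_in_adjoin h1
  obtain ⟨b, hb, hb0, hb1⟩ := hnt
  have h3 := tdeg_range_of_indep h1
  have h4 : tdeg K (insert b (Set.range fun a => (e a : N))) ≤
      tdeg K (Set.range fun a => (e a : N)) := by
    refine le_trans ?_ (h3.trans heq).ge
    refine tdeg_mono ((Set.finite_range _).insert b) hS ?_
    rw [IntermediateField.adjoin_le_iff]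
    rintro c (rfl | ⟨a, rfl⟩)
    · exact hb
    · exact IntermediateField.subset_adjoin K S (e a).2
  exact hb1 (val_eq_one_of_algebraic_over v (fun a ha ha0 =>
    (val_one_of_indep (fun a => hv _ (e a).2) he ha ha0).1)
    (isAlgebraic_of_tdeg (Set.finite_range _) h4) hb0)

end res

end Pool.Agent.HC
end

/- Helper16.DP.HC.HS3 -/
section
set_option autoImplicit false
set_option linter.style.haveILetI false
set_option linter.unusedSectionVars false

/-! Project HC, part C1: consequences of one relation. -/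

namespace Pool.Agent.HC

open Pool.Agent.Helper16 IntermediateField

variable {K σ : Type} [Field K] [Finite σ] {N : Type} [Field N] [Algebra K N]

theorem exists_finset_places [Algebra.EssFiniteType K N] {r : ℕ} (hN : Algebra.trdeg K N = r + 1)
    {x : σ → N} {f : N} (y : (v : Place K N) → σ → v.resField)
    (hy : ∀ v, SpecAt v x (y v)) :
    ∃ S : Finset (Place K N), ∀ v, v ∈ S ↔
      v.ord f ≠ 0 ∧ Algebra.trdeg K (ratioField K (y v)) = r := by
  refine ⟨(finite_places (K := K) inferInstance hN x f).toFinset, fun v => ?_⟩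
  rw [Set.Finite.mem_toFinset]
  constructor
  · rintro ⟨h1, y', h2, h3⟩
    exact ⟨h1, by rw [h2.ratioField_eq (hy v), h3]⟩
  · rintro ⟨h1, h2⟩
    exact ⟨h1, y v, hy v, h2⟩

/-- One relation: if all its terms with one exception are in `V` then so is the exception. -/
theorem mem_of_rel [Algebra.EssFiniteType K N] {r : ℕ} (hN : Algebra.trdeg K N = r + 1)
    {I : Set (MvPolynomial σ K)} {x : σ → N} (hx : IsPt I x) {f : N} (hf : f ≠ 0)
    (V : Submodule ℚ (Ideal (MvPolynomial σ K) →₀ ℚ)) (hV : rat I r ≤ V)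
    (P : Ideal (MvPolynomial σ K))
    (h : ∀ (v : Place K N) (y : σ → v.resField), SpecAt v x y → v.ord f ≠ 0 →
      Algebra.trdeg K (ratioField K y) = r →
      Finsupp.single (homIdeal K y) 1 ∈ V ∨ (0 < v.ord f ∧ homIdeal K y = P))
    (v₀ : Place K N) (y₀ : σ → v₀.resField) (hy₀ : SpecAt v₀ x y₀)
    (ht₀ : Algebra.trdeg K (ratioField K y₀) = r) (ho₀ : 0 < v₀.ord f)
    (hP₀ : homIdeal K y₀ = P) : Finsupp.single P 1 ∈ V := by
  classical
  choose y hy using fun v : Place K N => exists_spec v hx.1
  obtain ⟨S, hS⟩ := exists_finset_places hN (f := f) y hy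
  have hrel : (∑ v ∈ S, Finsupp.single (homIdeal K (y v))
      ((v.ord f * Module.finrank (ratioField K (y v)) v.resField : ℤ) : ℚ)) ∈ V :=
    hV (Submodule.subset_span ⟨N, _, _, x, f, S, y, inferInstance, hN, hx, hf, hy, hS, rfl⟩)
  let p : Place K N → Prop := fun v => 0 < v.ord f ∧ homIdeal K (y v) = P
  rw [← Finset.sum_filter_add_sum_filter_not S p] at hrel
  have h2 : (∑ v ∈ S.filter (fun v => ¬ p v), Finsupp.single (homIdeal K (y v))
      ((v.ord f * Module.finrank (ratioField K (y v)) v.resField : ℤ) : ℚ)) ∈ V := by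
    refine Submodule.sum_mem _ fun v hv => ?_
    rw [Finset.mem_filter] at hv
    obtain ⟨h3, h4⟩ := (hS v).1 hv.1
    rcases h v (y v) (hy v) h3 h4 with h5 | h5
    · have h6 := V.smul_mem ((v.ord f * Module.finrank (ratioField K (y v)) v.resField : ℤ) : ℚ) h5
      rwa [Finsupp.smul_single, smul_eq_mul, mul_one] at h6
    · exact absurd h5 hv.2
  have h3 := (Submodule.add_mem_iff_left V h2).1 hrel
  have h4 : (∑ v ∈ S.filter p, Finsupp.single (homIdeal K (y v))
      ((v.ord f * Module.finrank (ratioField K (y v)) v.resField : ℤ) : ℚ)) =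
      (∑ v ∈ S.filter p, ((v.ord f * Module.finrank (ratioField K (y v)) v.resField : ℤ) : ℚ)) •
        Finsupp.single P 1 := by
    rw [Finset.sum_smul]
    refine Finset.sum_congr rfl fun v hv => ?_
    rw [(Finset.mem_filter.1 hv).2.2, Finsupp.smul_single, smul_eq_mul, mul_one]
  rw [h4] at h3
  have hpos : ∀ v ∈ S.filter p, (0 : ℚ) <
      ((v.ord f * Module.finrank (ratioField K (y v)) v.resField : ℤ) : ℚ) := by
    intro v hv
    rw [Finset.mem_filter] at hv
    have h5 := ((hS v).1 hv.1).2
    have h6 := finrank_pos inferInstance hN (hy v) h5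
    have h7 : (0 : ℤ) < Module.finrank (ratioField K (y v)) v.resField := by exact_mod_cast h6
    exact_mod_cast mul_pos hv.2.1 h7
  have hv₀ : v₀ ∈ S.filter p := by
    rw [Finset.mem_filter, hS]
    refine ⟨⟨ho₀.ne', ?_⟩, ho₀, ?_⟩
    · rw [hy₀.ratioField_eq (hy v₀), ht₀]
    · rw [hy₀.homIdeal_eq (hy v₀), hP₀]
  have hc : (0 : ℚ) < ∑ v ∈ S.filter p,
      ((v.ord f * Module.finrank (ratioField K (y v)) v.resField : ℤ) : ℚ) :=
    Finset.sum_pos hpos ⟨v₀, hv₀⟩
  have h5 := V.smul_mem (∑ v ∈ S.filter p,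
      ((v.ord f * Module.finrank (ratioField K (y v)) v.resField : ℤ) : ℚ))⁻¹ h3
  rwa [smul_smul, inv_mul_cancel₀ hc.ne', one_smul] at h5

end Pool.Agent.HC
end

/- Helper16.DP.HC.Param -/
section
set_option autoImplicit false

/-!
Project HC (MP_0b9e0b_ag): families of points parametrised by affine coordinates.
-/

namespace Pool.Agent.HC

open Pool.Agent.Helper16

/-- A family of points of the variety with equations `I`, parametrised by coordinates `ι`, of which
those in `D` are movable. -/
structure Param (K : Type) [Field K] {σ : Type} (I : Set (MvPolynomial σ K)) (ι : Type) where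
  /-- the domain of the family -/
  U : ∀ {N : Type} [Field N] [Algebra K N], (ι → N) → Prop
  /-- the points of the family -/
  Φ : ∀ {N : Type} [Field N] [Algebra K N], (ι → N) → σ → N
  /-- the movable coordinates -/
  D : Set ι
  /-- the boundary -/
  Bad : Ideal (MvPolynomial σ K) → Prop
  pt : ∀ {N : Type} [Field N] [Algebra K N] (c : ι → N), U c → IsPt I (Φ c)
  natU : ∀ {N N' : Type} [Field N] [Algebra K N] [Field N'] [Algebra K N'] (φ : N →ₐ[K] N')
    (c : ι → N), U (fun i => φ (c i)) ↔ U c
  natΦ : ∀ {N N' : Type} [Field N] [Algebra K N] [Field N'] [Algebra K N'] (φ : N →ₐ[K] N')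
    (c : ι → N), U c → Φ (fun i => φ (c i)) = fun j => φ (Φ c j)
  alg : ∀ {N : Type} [Field N] [Algebra K N] (c : ι → N), U c →
    ∀ i, IsAlgebraic (ratioField K (Φ c)) (c i)
  gen : ∀ {N : Type} [Field N] [Algebra K N] (c c' : ι → N) (a : ι), a ∈ D → U c →
    (∀ i, i ≠ a → c' i = c i) → Transcendental (IntermediateField.adjoin K (c '' {a}ᶜ)) (c' a) →
    U c'
  good : ∀ {N : Type} [Field N] [Algebra K N] (v : Place K N) (c : ι → N), U c →
    (∀ i, c i ∈ v.ring) → U (fun i => v.res (c i)) → SpecAt v (Φ c) (Φ fun i => v.res (c i))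
  bad : ∀ {N : Type} [Field N] [Algebra K N] (v : Place K N) (c : ι → N) (y : σ → v.resField),
    U c → SpecAt v (Φ c) y → ¬ ((∀ i, c i ∈ v.ring) ∧ U (fun i => v.res (c i))) →
    Bad (homIdeal K y)

namespace Param

variable {K σ ι : Type} [Field K] {I : Set (MvPolynomial σ K)} (P : Param K I ι)

/-- The cycles of dimension `s` in the boundary. -/
noncomputable def badSpan (s : ℕ) : Submodule ℚ (Ideal (MvPolynomial σ K) →₀ ℚ) :=
  Submodule.span ℚ {z | ∃ Q, IsSub I s Q ∧ P.Bad Q ∧ z = Finsupp.single Q 1}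

/-- The points of dimension `s` which are cylinders in the directions `B`. -/
noncomputable def cylSpan (s : ℕ) (B : Set ι) : Submodule ℚ (Ideal (MvPolynomial σ K) →₀ ℚ) :=
  Submodule.span ℚ {z | ∃ (N : Type) (_ : Field N) (_ : Algebra K N) (c : ι → N), P.U c ∧
    tdeg K (Set.range c) = s ∧ tdeg K (c '' Bᶜ) + B.ncard = s ∧
    z = Finsupp.single (homIdeal K (P.Φ c)) 1}

variable {P}

theorem ratioField_le {N : Type} [Field N] [Algebra K N] {c : ι → N} (hc : P.U c) :
    ratioField K (P.Φ c) ≤ IntermediateField.adjoin K (Set.range c) := by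
  set L := IntermediateField.adjoin K (Set.range c) with hL
  let c0 : ι → L := fun i => ⟨c i, IntermediateField.subset_adjoin K _ ⟨i, rfl⟩⟩
  have h1 : (fun i => L.val (c0 i)) = c := rfl
  have h2 : P.U c0 := by
    rw [← P.natU L.val, h1]
    exact hc
  have h3 := P.natΦ L.val c0 h2
  rw [h1] at h3
  rw [h3]
  unfold ratioField
  rw [IntermediateField.adjoin_le_iff]
  rintro _ ⟨p, rfl⟩
  exact (P.Φ c0 p.1 / P.Φ c0 p.2).2

theorem tdeg_ratioField [Finite σ] [Finite ι] {N : Type} [Field N] [Algebra K N] {c : ι → N}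
    (hc : P.U c) : Algebra.trdeg K (ratioField K (P.Φ c)) = tdeg K (Set.range c) := by
  set S := Set.range fun p : σ × σ => P.Φ c p.1 / P.Φ c p.2 with hS
  have h1 : ratioField K (P.Φ c) = IntermediateField.adjoin K S := rfl
  have hfin : S.Finite := Set.finite_range _
  have h2 := tdeg_union_of_algebraic (K := K) hfin (Set.finite_range c) (by
    rintro _ ⟨i, rfl⟩
    exact P.alg c hc i)
  rw [h1, tdeg_spec hfin, ← h2]
  congr 1
  refine le_antisymm (tdeg_mono (hfin.union (Set.finite_range c)) (Set.finite_range c) ?_)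
    (tdeg_mono' (hfin.union (Set.finite_range c)) Set.subset_union_right)
  rw [IntermediateField.adjoin_le_iff, Set.union_subset_iff]
  refine ⟨?_, IntermediateField.subset_adjoin K _⟩
  exact (IntermediateField.subset_adjoin K S).trans (h1 ▸ ratioField_le hc)

theorem homIdeal_nat {N N' : Type} [Field N] [Algebra K N] [Field N'] [Algebra K N']
    (φ : N →ₐ[K] N') {c : ι → N} (hc : P.U c) :
    homIdeal K (P.Φ fun i => φ (c i)) = homIdeal K (P.Φ c) := by
  rw [P.natΦ φ c hc, homIdeal_map]

end Param

end Pool.Agent.HC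
end

/- Helper16.DP.HC.HV5 -/
section
set_option autoImplicit false
set_option linter.style.haveILetI false
set_option linter.unusedSectionVars false

/-! Project HC, part H: the generic point of a family. -/

namespace Pool.Agent.HC

open Pool.Agent.Helper16 IntermediateField

namespace Param

variable {K σ ι : Type} [Field K] {I : Set (MvPolynomial σ K)} (P : Param K I ι)

open scoped Classical in
/-- The generic parameters, the parameters which are not movable being constants. -/
noncomputable def c0 (e : ι → K) : ι → FractionRing (MvPolynomial P.D K) := fun i =>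
  if h : i ∈ P.D then algebraMap (MvPolynomial P.D K) _ (MvPolynomial.X ⟨i, h⟩)
  else algebraMap K _ (e i)

/-- The ideal of the generic point of the family. -/
noncomputable def fund (e : ι → K) : Ideal (MvPolynomial σ K) := homIdeal K (P.Φ (P.c0 e))

variable {P}

theorem exists_hom [Finite ι] {N : Type} [Field N] [Algebra K N] {c : ι → N} {e : ι → K}
    (he : ∀ i, i ∉ P.D → c i = algebraMap K N (e i))
    (ht : tdeg K (Set.range c) = P.D.ncard) :
    ∃ φ : FractionRing (MvPolynomial P.D K) →ₐ[K] N, c = fun i => φ (P.c0 e i) := by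
  classical
  have : Fintype P.D := Fintype.ofFinite _
  let u : P.D → N := fun i => c i
  have h1 : IntermediateField.adjoin K (Set.range c) = IntermediateField.adjoin K (Set.range u) := by
    refine le_antisymm ?_ ?_
    · rw [IntermediateField.adjoin_le_iff]
      rintro _ ⟨i, rfl⟩
      by_cases hi : i ∈ P.D
      · exact IntermediateField.subset_adjoin K _ ⟨⟨i, hi⟩, rfl⟩
      · rw [SetLike.mem_coe, he i hi]
        exact IntermediateField.algebraMap_mem _ _
    · refine IntermediateField.adjoin.mono K _ _ ?_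
      rintro _ ⟨i, rfl⟩
      exact ⟨i, rfl⟩
  have h2 : AlgebraicIndependent K u := by
    refine indep_of_trdeg u ?_
    rw [← h1, tdeg_spec (Set.finite_range c), ht, Set.ncard_eq_toFinset_card', Set.toFinset_card]
  let φ : FractionRing (MvPolynomial P.D K) →ₐ[K] N :=
    IsFractionRing.liftAlgHom (g := MvPolynomial.aeval u) h2
  refine ⟨φ, ?_⟩
  funext i
  by_cases hi : i ∈ P.D
  · simp only [c0, dif_pos hi]
    rw [IsFractionRing.liftAlgHom_apply, IsFractionRing.lift_algebraMap]
    simp [u]
  · simp only [c0, dif_neg hi, he i hi]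
    exact (φ.commutes _).symm

theorem fund_eq [Finite ι] {N : Type} [Field N] [Algebra K N] {c : ι → N} {e : ι → K}
    (hc : P.U c) (he : ∀ i, i ∉ P.D → c i = algebraMap K N (e i))
    (ht : tdeg K (Set.range c) = P.D.ncard) : homIdeal K (P.Φ c) = P.fund e := by
  obtain ⟨φ, rfl⟩ := exists_hom he ht
  have h1 : P.U (P.c0 e) := (P.natU φ _).1 hc
  exact homIdeal_nat φ h1

end Param

end Pool.Agent.HC
end

/- Helper16.DP.HC.Same -/
section
set_option autoImplicit false

/-!
Project HC (MP_0b9e0b_ag): tuples which satisfy the same algebraic relations.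
-/

namespace Pool.Agent.HC

open Pool.Agent.Helper16

variable {K ι : Type} [Field K] {N N' : Type} [Field N] [Algebra K N] [Field N'] [Algebra K N']

theorem trdeg_quot_ker (c : ι → N) :
    Algebra.trdeg K (MvPolynomial ι K ⧸ RingHom.ker (MvPolynomial.aeval (R := K) c)) =
      Algebra.trdeg K (IntermediateField.adjoin K (Set.range c)) := by
  rw [trdeg_adjoin_field, Algebra.adjoin_range_eq_range_aeval]
  exact (Ideal.quotientKerEquivRange (MvPolynomial.aeval (R := K) c)).trdeg_eq

theorem tdeg_le_of_ker_le [Finite ι] (c : ι → N) (d : ι → N')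
    (h : ∀ F : MvPolynomial ι K, MvPolynomial.aeval c F = 0 → MvPolynomial.aeval d F = 0) :
    tdeg K (Set.range d) ≤ tdeg K (Set.range c) := by
  have hle : RingHom.ker (MvPolynomial.aeval (R := K) c) ≤
      RingHom.ker (MvPolynomial.aeval (R := K) d) := fun F hF => h F hF
  have h1 := trdeg_le_of_surjective (Ideal.Quotient.factorₐ K hle)
    (Ideal.Quotient.factor_surjective hle)
  rw [trdeg_quot_ker, trdeg_quot_ker, tdeg_spec (Set.finite_range c),
    tdeg_spec (Set.finite_range d), Nat.cast_le] at h1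
  exact h1

theorem ker_le_of_tdeg [Finite ι] (c : ι → N) (d : ι → N')
    (h : ∀ F : MvPolynomial ι K, MvPolynomial.aeval c F = 0 → MvPolynomial.aeval d F = 0)
    (htr : tdeg K (Set.range c) ≤ tdeg K (Set.range d)) (F : MvPolynomial ι K) :
    MvPolynomial.aeval c F = 0 ↔ MvPolynomial.aeval d F = 0 := by
  refine ⟨h F, fun hF => ?_⟩
  by_contra hcon
  have hlt : RingHom.ker (MvPolynomial.aeval (R := K) c) <
      RingHom.ker (MvPolynomial.aeval (R := K) d) :=
    lt_of_le_of_ne (fun F hF => h F hF) fun heq => hcon (by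
      have : F ∈ RingHom.ker (MvPolynomial.aeval (R := K) d) := hF
      rwa [← heq] at this)
  have h1 := PL.trdeg_lt _ _ (RingHom.ker_isPrime _) (RingHom.ker_isPrime _) hlt
    (tdeg K (Set.range d)) (by rw [trdeg_quot_ker, tdeg_spec (Set.finite_range d)])
  rw [trdeg_quot_ker, tdeg_spec (Set.finite_range c), Nat.cast_le] at h1
  omega

open IntermediateField.algebraAdjoinAdjoin in
/-- Tuples with the same algebraic relations generate isomorphic fields. -/
theorem exists_relHom (c : ι → N) (d : ι → N')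
    (h : ∀ F : MvPolynomial ι K, MvPolynomial.aeval c F = 0 ↔ MvPolynomial.aeval d F = 0) :
    ∃ φ : IntermediateField.adjoin K (Set.range c) →ₐ[K] N',
      ∀ i, φ ⟨c i, IntermediateField.subset_adjoin K _ ⟨i, rfl⟩⟩ = d i := by
  let A := Algebra.adjoin K (Set.range c)
  have hA : A = (MvPolynomial.aeval (R := K) c).range := Algebra.adjoin_range_eq_range_aeval K c
  let g1 : (MvPolynomial ι K ⧸ RingHom.ker (MvPolynomial.aeval (R := K) c)) →ₐ[K] N' :=
    Ideal.Quotient.liftₐ _ (MvPolynomial.aeval (R := K) d) fun F hF => (h F).1 hF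
  let g : A →ₐ[K] N' := g1.comp
    ((Ideal.quotientKerEquivRange (MvPolynomial.aeval (R := K) c)).symm.toAlgHom.comp
      (Subalgebra.equivOfEq _ _ hA).toAlgHom)
  have hg : Function.Injective g := by
    have h1 : Function.Injective g1 := by
      rw [injective_iff_map_eq_zero]
      intro a ha
      obtain ⟨F, rfl⟩ := Ideal.Quotient.mk_surjective a
      rw [Ideal.Quotient.eq_zero_iff_mem]
      exact (h F).2 ha
    exact h1.comp ((Ideal.quotientKerEquivRange (MvPolynomial.aeval (R := K) c)).symm.injective.comp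
      (Subalgebra.equivOfEq _ _ hA).injective)
  have hgi : ∀ i, g ⟨c i, Algebra.subset_adjoin ⟨i, rfl⟩⟩ = d i := by
    intro i
    have h2 : (Ideal.quotientKerEquivRange (MvPolynomial.aeval (R := K) c)).symm
        (Subalgebra.equivOfEq _ _ hA ⟨c i, Algebra.subset_adjoin ⟨i, rfl⟩⟩) =
        Ideal.Quotient.mk _ (MvPolynomial.X i) := by
      rw [AlgEquiv.symm_apply_eq]
      apply Subtype.ext
      change c i = MvPolynomial.aeval c (MvPolynomial.X i)
      rw [MvPolynomial.aeval_X]
    change g1 ((Ideal.quotientKerEquivRange (MvPolynomial.aeval (R := K) c)).symm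
        (Subalgebra.equivOfEq _ _ hA ⟨c i, Algebra.subset_adjoin ⟨i, rfl⟩⟩)) = d i
    rw [h2]
    change MvPolynomial.aeval d (MvPolynomial.X i) = d i
    rw [MvPolynomial.aeval_X]
  refine ⟨IsFractionRing.liftAlgHom (A := A) (K := IntermediateField.adjoin K (Set.range c)) hg,
    fun i => ?_⟩
  rw [← hgi i]
  exact IsFractionRing.lift_algebraMap (A := A)
    (K := IntermediateField.adjoin K (Set.range c)) (g := g.toRingHom) hg
    ⟨c i, Algebra.subset_adjoin ⟨i, rfl⟩⟩

theorem Param.same {σ : Type} {I : Set (MvPolynomial σ K)} (P : Param K I ι) {c : ι → N}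
    {d : ι → N'}
    (h : ∀ F : MvPolynomial ι K, MvPolynomial.aeval c F = 0 ↔ MvPolynomial.aeval d F = 0)
    (hc : P.U c) : P.U d ∧ homIdeal K (P.Φ d) = homIdeal K (P.Φ c) := by
  obtain ⟨φ, hφ⟩ := exists_relHom c d h
  let c0 : ι → IntermediateField.adjoin K (Set.range c) :=
    fun i => ⟨c i, IntermediateField.subset_adjoin K _ ⟨i, rfl⟩⟩
  have h1 : (fun i => (IntermediateField.adjoin K (Set.range c)).val (c0 i)) = c := rfl
  have h2 : (fun i => φ (c0 i)) = d := funext hφ
  have h3 : P.U c0 := by
    rw [← P.natU (IntermediateField.adjoin K (Set.range c)).val, h1]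
    exact hc
  refine ⟨?_, ?_⟩
  · rw [← h2]
    exact (P.natU φ c0).2 h3
  · rw [← h2, Param.homIdeal_nat φ h3]
    conv_rhs => rw [← h1]
    rw [Param.homIdeal_nat (IntermediateField.adjoin K (Set.range c)).val h3]

end Pool.Agent.HC
end

/- Helper16.DP.HC.HS1 -/
section
set_option autoImplicit false
set_option linter.style.haveILetI false
set_option linter.unusedSectionVars false

/-! Project HC, part C1: kernels of points of the plane, existence of places. -/

namespace Pool.Agent.HC

open Pool.Agent.Helper16 IntermediateField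

/-- The kernel of a point of the plane with transcendental coordinates on an irreducible curve. -/
theorem ker_eq_span {k Ω : Type} [Field k] [Field Ω] [Algebra k Ω]
    (ψ : MvPolynomial (Fin 2) k →ₐ[k] Ω) (h : MvPolynomial (Fin 2) k) (hirr : Irreducible h)
    (hh : ψ h = 0) (htr : ∃ a, Transcendental k (ψ a)) (g : MvPolynomial (Fin 2) k) :
    ψ g = 0 ↔ h ∣ g := by
  constructor
  · intro hg
    by_contra hdvd
    have hp : Prime h := UniqueFactorizationMonoid.irreducible_iff_prime.1 hirr
    have h1 : (Ideal.span {h}).IsPrime := (Ideal.span_singleton_prime hp.ne_zero).2 hp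
    let Q : Ideal (MvPolynomial (Fin 2) k) := RingHom.ker ψ.toRingHom
    have hQ : Q.IsPrime := RingHom.ker_isPrime _
    have hlt : Ideal.span {h} < Q := by
      refine lt_of_le_of_ne ?_ ?_
      · rw [Ideal.span_singleton_le_iff_mem]
        exact hh
      · intro he
        have : g ∈ Q := hg
        rw [← he, Ideal.mem_span_singleton] at this
        exact hdvd this
    have hd : ((1 : ℕ) : Cardinal) ≤ Algebra.trdeg k (MvPolynomial (Fin 2) k ⧸ Q) := by
      obtain ⟨a, ha⟩ := htr
      let e : (MvPolynomial (Fin 2) k ⧸ Q) →ₐ[k] Ω := Ideal.kerLiftAlg ψ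
      have h2 : Transcendental k (Ideal.Quotient.mk Q a) := by
        intro halg
        exact ha (halg.algHom e)
      have h3 : AlgebraicIndependent k (fun _ : Unit => Ideal.Quotient.mk Q a) :=
        algebraicIndependent_unique_type_iff.2 h2
      have := h3.cardinalMk_le_trdeg
      simpa using this
    have h2 := Pool.Agent.PL.trdeg_lt (κ := k) (Ideal.span {h}) Q h1 hQ hlt 1 hd
    have hbot : (⊥ : Ideal (MvPolynomial (Fin 2) k)) < Ideal.span {h} := by
      rw [bot_lt_iff_ne_bot, Ne, Ideal.span_singleton_eq_bot]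
      exact hp.ne_zero
    have h3 := Pool.Agent.PL.trdeg_lt (κ := k) ⊥ (Ideal.span {h}) Ideal.isPrime_bot h1 hbot 2 h2
    have h4 : Algebra.trdeg k (MvPolynomial (Fin 2) k ⧸ (⊥ : Ideal (MvPolynomial (Fin 2) k))) = 2 := by
      rw [(AlgEquiv.quotientBot k (MvPolynomial (Fin 2) k)).trdeg_eq, MvPolynomial.trdeg_of_isDomain]
      simp
    rw [h4] at h3
    have h5 : (3 : ℕ) ≤ 2 := by exact_mod_cast h3
    omega
  · rintro ⟨c, rfl⟩
    rw [map_mul, hh, zero_mul]

/-- Restriction of the field of constants of a place. -/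
def placeRestrict {K N : Type} [Field K] [Field N] [Algebra K N] (M : Type) [Field M]
    [Algebra K M] [Algebra M N] [IsScalarTower K M N] (v : Place M N) : Place K N where
  val := v.val
  surj := v.surj
  triv := fun c hc => by
    rw [IsScalarTower.algebraMap_apply K M N]
    exact v.triv _ (by simpa using hc)

open scoped algebraAdjoinAdjoin in
theorem transc_pair {K N : Type} [Field K] [Field N] [Algebra K N] (htr : Algebra.trdeg K N = 2)
    (a b : N) (halg : ∀ x : N, IsAlgebraic (Algebra.adjoin K {a, b}) x) :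
    Transcendental K a ∧ Transcendental K⟮a⟯ b := by
  have hr : Set.range ![a, b] = {a, b} := by simp [Set.pair_comm]
  haveI : Algebra.IsAlgebraic (Algebra.adjoin K (Set.range ![a, b])) N := by
    rw [hr]
    exact ⟨halg⟩
  have h1 : AlgebraicIndependent K ![a, b] :=
    (Algebra.IsAlgebraic.isTranscendenceBasis_of_le_trdeg_of_finite K ![a, b]
      (by rw [htr]; simp)).1
  refine ⟨h1.transcendental 0, ?_⟩
  have h2 := h1.transcendental_adjoin (s := {0}) (i := 1) (by simp)
  rw [Set.image_singleton] at h2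
  have h3 : Transcendental (Algebra.adjoin K {a}) b := h2
  intro h
  exact h3 ((IsFractionRing.isAlgebraic_iff (Algebra.adjoin K {a}) K⟮a⟯ N).2 h)

/-- A place with a zero of `b`, such that the residue of `a` is transcendental. -/
theorem exists_place_of_transc {K N : Type} [Field K] [Field N] [Algebra K N]
    [Algebra.EssFiniteType K N] (htr : Algebra.trdeg K N = 2) (a b : N) (ha : Transcendental K a)
    (hb : Transcendental K⟮a⟯ b) :
    ∃ v : Place K N, v.val b < 1 ∧ a ∈ v.ring ∧ Transcendental K (v.res a) := by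
  have h1 : Algebra.trdeg K K⟮a⟯ = 1 := by
    rw [← (RatFunc.algEquivOfTranscendental a ha).trdeg_eq, trdeg_ratFunc]
  have hff : IsFunctionField K⟮a⟯ N := IsFunctionField.of_subfield ‹_› h1 htr
  obtain ⟨S, hS, hsum, hpos⟩ := hff.zeros b hb
  have hne : S.Nonempty := by
    by_contra h
    rw [Finset.not_nonempty_iff_eq_empty] at h
    rw [h, Finset.sum_empty] at hsum
    omega
  obtain ⟨v, hv⟩ := hne
  have hvb := (hS v).1 hv
  have hval : ∀ P : Polynomial K, P ≠ 0 → v.val (Polynomial.aeval a P) = 1 := by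
    intro P hP
    have h0 : Polynomial.aeval (AdjoinSimple.gen K a) P ≠ 0 := by
      intro h
      have := congrArg (algebraMap K⟮a⟯ N) h
      rw [map_zero, ← Polynomial.aeval_algebraMap_apply] at this
      exact hP ((transcendental_iff.1 ha) P this)
    have := v.triv _ h0
    rwa [← Polynomial.aeval_algebraMap_apply] at this
  refine ⟨placeRestrict K⟮a⟯ v, hvb, ?_, ?_⟩
  · have := hval Polynomial.X Polynomial.X_ne_zero
    rw [Polynomial.aeval_X] at this
    exact this.le
  · have ham : a ∈ (placeRestrict (K := K) K⟮a⟯ v).ring := by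
      have := hval Polynomial.X Polynomial.X_ne_zero
      rw [Polynomial.aeval_X] at this
      exact this.le
    rw [transcendental_iff]
    intro P hP
    by_contra hP0
    obtain ⟨h5, h6⟩ := (placeRestrict (K := K) K⟮a⟯ v).res_aeval ham P
    rw [← h6, (placeRestrict (K := K) K⟮a⟯ v).res_eq_zero_iff h5] at hP
    have h7 := hval P hP0
    change v.val _ < 1 at hP
    rw [h7] at hP
    exact lt_irrefl _ hP

end Pool.Agent.HC
end

/- HC.Irr -/
section
set_option autoImplicit false
set_option linter.unusedSectionVars false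

/-! Project HC, part H: the curve `V ^ q - V + g * Z ^ (q + 1) = 0` is irreducible. -/

namespace Pool.Agent.HC

open Polynomial

/-- The equation of the curve; the variable `0` is `Z`, the variable `1` is `V`. -/
noncomputable def hcurve {k : Type} [Field k] (q : ℕ) (g : k) : MvPolynomial (Fin 2) k :=
  MvPolynomial.X 1 ^ q - MvPolynomial.X 1 + MvPolynomial.C g * MvPolynomial.X 0 ^ (q + 1)

theorem hcurve_irreducible {k : Type} [Field k] {q : ℕ} (hq : 2 ≤ q) {g : k} (hg : g ≠ 0) :
    Irreducible (hcurve q g) := by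
  let R := MvPolynomial (Fin 1) k
  let Y : R := MvPolynomial.X 0
  let b : R := MvPolynomial.C g⁻¹ * (Y ^ q - Y)
  have hY : Prime Y := MvPolynomial.X_prime
  have hP : (Ideal.span {Y}).IsPrime := (Ideal.span_singleton_prime hY.ne_zero).2 hY
  have hu : ∀ c : k, c ≠ 0 → IsUnit (MvPolynomial.C c : R) := fun c hc =>
    (isUnit_iff_ne_zero.2 hc).map MvPolynomial.C
  have hirr : Irreducible (X ^ (q + 1) + C b : R[X]) := by
    refine Polynomial.irreducible_of_eisenstein_criterion hP ?_ ?_ ?_ ?_ ?_
    · rw [(monic_X_pow_add_C b (Nat.succ_ne_zero q)).leadingCoeff]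
      exact hP.one_notMem
    · intro n hn
      rw [degree_X_pow_add_C (Nat.succ_pos q) b] at hn
      have hn' : n < q + 1 := by exact_mod_cast hn
      rw [coeff_add, coeff_X_pow, if_neg hn'.ne, zero_add, coeff_C]
      split_ifs
      · refine Ideal.mul_mem_left _ _ (sub_mem ?_ ?_)
        · exact Ideal.pow_mem_of_mem _ (Ideal.mem_span_singleton_self Y) q (by omega)
        · exact Ideal.mem_span_singleton_self Y
      · exact zero_mem _
    · rw [degree_X_pow_add_C (Nat.succ_pos q) b]
      exact_mod_cast Nat.succ_pos q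
    · rw [coeff_add, coeff_X_pow, if_neg (Nat.succ_ne_zero q).symm, zero_add, coeff_C_zero,
        Ideal.span_singleton_pow, Ideal.mem_span_singleton]
      intro h
      have h1 : Y ^ 2 ∣ Y ^ q - Y := by
        have h2 := (hu g⁻¹ (inv_ne_zero hg))
        exact (h2.dvd_mul_left).1 h
      have h2 : Y ^ 2 ∣ Y := by
        have h3 : Y ^ 2 ∣ Y ^ q := pow_dvd_pow Y hq
        have h4 := dvd_sub h3 h1
        rwa [sub_sub_cancel] at h4
      have h3 : Y * Y ∣ Y * 1 := by rwa [mul_one, ← sq]
      exact hY.not_unit (isUnit_of_dvd_one ((mul_dvd_mul_iff_left hY.ne_zero).1 h3))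
    · exact (monic_X_pow_add_C b (Nat.succ_ne_zero q)).isPrimitive
  have he : MvPolynomial.finSuccEquiv k 1 (hcurve q g) =
      C (MvPolynomial.C g) * (X ^ (q + 1) + C b) := by
    have h0 : MvPolynomial.finSuccEquiv k 1 (MvPolynomial.X 0) = X :=
      MvPolynomial.finSuccEquiv_X_zero
    have h1 : MvPolynomial.finSuccEquiv k 1 (MvPolynomial.X 1) = C Y :=
      MvPolynomial.finSuccEquiv_X_succ (j := 0)
    have h2 : MvPolynomial.finSuccEquiv k 1 (MvPolynomial.C g) = C (MvPolynomial.C g) := by
      have := DFunLike.congr_fun (MvPolynomial.finSuccEquiv_comp_C_eq_C (R := k) 1) g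
      rw [← this]
      exact (MvPolynomial.finSuccEquiv k 1).apply_symm_apply _
    unfold hcurve
    rw [map_add, map_sub, map_mul, map_pow, map_pow, h0, h1, h2, mul_add, ← map_mul]
    have h3 : (MvPolynomial.C g : R) * b = Y ^ q - Y := by
      change MvPolynomial.C g * (MvPolynomial.C g⁻¹ * (Y ^ q - Y)) = _
      rw [← mul_assoc, ← MvPolynomial.C_mul, mul_inv_cancel₀ hg, MvPolynomial.C_1, one_mul]
    rw [h3, map_sub, map_pow]
    ring
  have h1 : Irreducible (MvPolynomial.finSuccEquiv k 1 (hcurve q g)) := by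
    rw [he]
    exact (irreducible_isUnit_mul (isUnit_C.2 (hu g hg))).2 hirr
  exact (MulEquiv.irreducible_iff (MvPolynomial.finSuccEquiv k 1)).1 h1

end Pool.Agent.HC
end

/- Helper16.DP.HC.HW3a -/
section
set_option autoImplicit false
set_option linter.style.haveILetI false
set_option linter.unusedSectionVars false

/-! Project HC, part H: the curve `V ^ q - V + g * Z ^ (q + 1) = 0`, its function field and the
places over its points. -/

namespace Pool.Agent.HC

open Pool.Agent.Helper16 IntermediateField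

variable {k : Type} [Field k]

theorem aeval_hcurve {R : Type} [CommRing R] [Algebra k R] (q : ℕ) (g : k) (Z V : R) :
    MvPolynomial.aeval ![Z, V] (hcurve q g) = V ^ q - V + algebraMap k R g * Z ^ (q + 1) := by
  unfold hcurve
  simp

/-- The relations between the coordinates of a generic point of the curve. -/
theorem curve_ker {N : Type} [Field N] [Algebra k N] {q : ℕ} (hq : 2 ≤ q) {g : k} (hg : g ≠ 0)
    {Z V : N} (h : V ^ q - V + algebraMap k N g * Z ^ (q + 1) = 0)
    (htr : Transcendental k Z ∨ Transcendental k V) (F : MvPolynomial (Fin 2) k) :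
    MvPolynomial.aeval ![Z, V] F = 0 ↔ hcurve q g ∣ F := by
  refine ker_eq_span (MvPolynomial.aeval ![Z, V]) (hcurve q g) (hcurve_irreducible hq hg) ?_ ?_ F
  · rw [aeval_hcurve, h]
  · rcases htr with htr | htr
    · exact ⟨MvPolynomial.X 0, by rw [MvPolynomial.aeval_X]; exact htr⟩
    · exact ⟨MvPolynomial.X 1, by rw [MvPolynomial.aeval_X]; exact htr⟩

theorem curve_spec {N N' : Type} [Field N] [Algebra k N] [Field N'] [Algebra k N'] {q : ℕ}
    (hq : 2 ≤ q) {g : k} (hg : g ≠ 0)
    {Z V : N} (h : V ^ q - V + algebraMap k N g * Z ^ (q + 1) = 0)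
    (htr : Transcendental k Z ∨ Transcendental k V)
    {Z' V' : N'} (h' : V' ^ q - V' + algebraMap k N' g * Z' ^ (q + 1) = 0)
    (F : MvPolynomial (Fin 2) k) (hF : MvPolynomial.aeval ![Z, V] F = 0) :
    MvPolynomial.aeval ![Z', V'] F = 0 := by
  obtain ⟨G, rfl⟩ := (curve_ker hq hg h htr F).1 hF
  rw [map_mul, aeval_hcurve, h', zero_mul]

/-- The function field of the curve. -/
theorem exists_curveField (L : Type) [Field L] {q : ℕ} (hq : 2 ≤ q) (g : L) :
    ∃ (N : Type) (_ : Field N) (_ : Algebra L N) (Z V : N),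
      V ^ q - V + algebraMap L N g * Z ^ (q + 1) = 0 ∧ Transcendental L Z ∧
      IsFunctionField L N ∧ IntermediateField.adjoin L {Z, V} = ⊤ := by
  let Ω := AlgebraicClosure (RatFunc L)
  let Z : Ω := algebraMap (RatFunc L) Ω RatFunc.X
  have hZ : Transcendental L Z := by
    intro h
    have h1 : IsAlgebraic L (algebraMap (RatFunc L) Ω RatFunc.X) := h
    rw [isAlgebraic_algebraMap_iff (algebraMap (RatFunc L) Ω).injective] at h1
    exact RatFunc.transcendental_X h1
  obtain ⟨V, hV⟩ : ∃ V : Ω, V ^ q - V + algebraMap L Ω g * Z ^ (q + 1) = 0 := by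
    let p : Polynomial Ω := Polynomial.X ^ q - Polynomial.X +
      Polynomial.C (algebraMap L Ω g * Z ^ (q + 1))
    have hp : p.degree ≠ 0 := by
      have h1 : p.coeff q = 1 := by
        simp only [p, Polynomial.coeff_add, Polynomial.coeff_sub, Polynomial.coeff_X_pow,
          Polynomial.coeff_X, Polynomial.coeff_C]
        rw [if_pos trivial, if_neg (by omega), if_neg (by omega)]
        ring
      intro h0
      have h2 : p.natDegree = 0 := Polynomial.natDegree_eq_of_degree_eq_some h0
      have h3 := Polynomial.coeff_eq_zero_of_natDegree_lt (p := p) (n := q) (by omega)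
      rw [h1] at h3
      exact one_ne_zero h3
    obtain ⟨V, hV⟩ := IsAlgClosed.exists_root p hp
    refine ⟨V, ?_⟩
    have h1 : p.eval V = 0 := hV
    simpa [p] using h1
  let N := IntermediateField.adjoin L ({Z, V} : Set Ω)
  let Z' : N := ⟨Z, IntermediateField.subset_adjoin L _ (by simp)⟩
  let V' : N := ⟨V, IntermediateField.subset_adjoin L _ (by simp)⟩
  have hZ' : Transcendental L Z' := by
    intro h
    exact hZ (h.algebraMap (A := Ω))
  have htr : Algebra.trdeg L N = 1 := by
    refine le_antisymm ?_ ?_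
    · have h1 := trdeg_le_of_inj N.val Subtype.val_injective
      have h2 := trdeg_add_eq L (RatFunc L) (A := Ω)
      rw [trdeg_ratFunc, trdeg_eq_zero (R := RatFunc L) (A := Ω), add_zero] at h2
      rwa [← h2] at h1
    · have h3 : AlgebraicIndependent L (fun _ : Unit => Z') :=
        algebraicIndependent_unique_type_iff.2 hZ'
      have := h3.cardinalMk_le_trdeg
      simpa using this
  have hess : Algebra.EssFiniteType L N := by
    rw [IntermediateField.essFiniteType_iff]
    exact IntermediateField.fg_adjoin_of_finite (by simp)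
  refine ⟨N, inferInstance, inferInstance, Z', V', ?_, hZ', ⟨hess, htr⟩, ?_⟩
  · apply Subtype.ext
    exact hV
  · have h1 := IntermediateField.adjoin_map L ({Z', V'} : Set N) N.val
    have h2 : N.val '' ({Z', V'} : Set N) = {Z, V} := by
      rw [Set.image_insert_eq, Set.image_singleton]
      rfl
    rw [h2] at h1
    rw [eq_top_iff]
    rintro ⟨a, ha⟩ -
    have h3 : a ∈ (IntermediateField.adjoin L ({Z', V'} : Set N)).map N.val := by
      rw [h1]
      exact ha
    obtain ⟨b, hb, hba⟩ := h3
    have : b = ⟨a, ha⟩ := Subtype.ext hba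
    rwa [← this]

/-- A place of the function field of a curve over a point. -/
theorem exists_center {L N E : Type} [Field L] [Field N] [Algebra L N] [Field E] [Algebra L E]
    (hN : IsFunctionField L N) {Z V : N} (hZ : Transcendental L Z) {z v : E}
    (hz : IsAlgebraic L z)
    (h : ∀ F : MvPolynomial (Fin 2) L, MvPolynomial.aeval ![Z, V] F = 0 →
      MvPolynomial.aeval ![z, v] F = 0) :
    ∃ w : Place L N, Z ∈ w.ring ∧ V ∈ w.ring ∧ ∀ F : MvPolynomial (Fin 2) L,
      MvPolynomial.aeval ![z, v] F = 0 → MvPolynomial.aeval ![w.res Z, w.res V] F = 0 := by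
  let c : Fin 2 → N := ![Z, V]
  let ψ : MvPolynomial (Fin 2) L →+* N := (MvPolynomial.aeval c : _ →ₐ[L] N).toRingHom
  let f := ψ.rangeRestrict
  let J : Ideal (MvPolynomial (Fin 2) L) := RingHom.ker (MvPolynomial.aeval (R := L) ![z, v])
  have hJ : J.map f ≠ ⊤ := by
    rw [Ne, Ideal.eq_top_iff_one, Ideal.mem_map_iff_of_surjective f ψ.rangeRestrict_surjective]
    rintro ⟨F, hF, hF1⟩
    have h1 : MvPolynomial.aeval c F = 1 := congrArg Subtype.val hF1
    have h2 := h (F - 1) (by rw [map_sub, map_one]; change MvPolynomial.aeval c F - 1 = 0; rw [h1, sub_self])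
    have h3 : MvPolynomial.aeval ![z, v] F = 0 := hF
    rw [map_sub, map_one, h3, zero_sub, neg_eq_zero] at h2
    exact one_ne_zero h2
  obtain ⟨B, hB, hB'⟩ := Ideal.image_subset_nonunits_valuationSubring (J.map f) hJ
  have hmem : ∀ F : MvPolynomial (Fin 2) L, MvPolynomial.aeval c F ∈ B := fun F => hB ⟨F, rfl⟩
  have hnon : ∀ F : MvPolynomial (Fin 2) L, MvPolynomial.aeval ![z, v] F = 0 →
      MvPolynomial.aeval c F ∈ B.nonunits := fun F hF =>
    hB' ⟨f F, Ideal.mem_map_of_mem f hF, rfl⟩
  have hinv : ∀ a ∈ B.nonunits, a ≠ 0 → a⁻¹ ∉ B := by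
    intro a ha ha0 h1
    rw [ValuationSubring.mem_nonunits_iff] at ha
    rw [← ValuationSubring.valuation_le_one_iff, map_inv₀] at h1
    have h2 : B.valuation a ≠ 0 := (Valuation.ne_zero_iff _).2 ha0
    have h3 : 1 ≤ B.valuation a := by
      by_contra h4
      rw [not_le] at h4
      exact absurd h1 (not_le.2 (one_lt_inv_iff₀.2 ⟨zero_lt_iff.2 h2, h4⟩))
    exact absurd ha (not_lt.2 h3)
  obtain ⟨m, hm0, hm⟩ := hz
  let F0 : MvPolynomial (Fin 2) L := Polynomial.aeval (MvPolynomial.X 0) m
  have hF0 : MvPolynomial.aeval ![z, v] F0 = 0 := by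
    have h1 : MvPolynomial.aeval ![z, v] F0 = Polynomial.aeval z m := by
      change MvPolynomial.aeval ![z, v] (Polynomial.aeval (MvPolynomial.X 0) m) = _
      rw [← Polynomial.aeval_algHom_apply, MvPolynomial.aeval_X]
      rfl
    rw [h1, hm]
  have hF0' : MvPolynomial.aeval c F0 ≠ 0 := by
    have h1 : MvPolynomial.aeval c F0 = Polynomial.aeval Z m := by
      change MvPolynomial.aeval c (Polynomial.aeval (MvPolynomial.X 0) m) = _
      rw [← Polynomial.aeval_algHom_apply, MvPolynomial.aeval_X]
      rfl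
    rw [h1]
    intro h2
    exact hZ ⟨m, hm0, h2⟩
  obtain ⟨w, hw⟩ := hN.exists_place B (fun a => by
    have := hmem (MvPolynomial.C a)
    rwa [MvPolynomial.aeval_C] at this) _ (hinv _ (hnon F0 hF0) hF0')
  have hZm : Z ∈ w.ring := by
    rw [w.mem_ring, hw]
    have := hmem (MvPolynomial.X 0)
    rwa [MvPolynomial.aeval_X] at this
  have hVm : V ∈ w.ring := by
    rw [w.mem_ring, hw]
    have := hmem (MvPolynomial.X 1)
    rwa [MvPolynomial.aeval_X] at this
  refine ⟨w, hZm, hVm, fun F hF => ?_⟩
  have hcm : ∀ a, c a ∈ w.ring := by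
    intro a
    fin_cases a
    · exact hZm
    · exact hVm
  have h1 := aeval_res w hcm F
  have h2 : (fun a => w.res (c a)) = ![w.res Z, w.res V] := by
    funext a
    fin_cases a
    · rfl
    · rfl
  rw [h2] at h1
  rw [← h1.2, w.res_eq_zero_iff h1.1]
  have h3 := hnon F hF
  by_cases h0 : MvPolynomial.aeval c F = 0
  · rw [h0, map_zero]; exact zero_lt_one
  · have h4 := hinv _ h3 h0
    rw [← hw, not_le, map_inv₀] at h4
    exact (one_lt_inv_iff₀.1 h4).2

/-- Cylinders over the same point have the same relations. -/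
theorem cyl_same {ι N N' : Type} [Field N] [Algebra k N] [Field N'] [Algebra k N'] (D : Set ι)
    (c : ι → N) (d : ι → N') (A : IntermediateField k N) (hA : ∀ i, i ∉ D → c i ∈ A)
    (hind : AlgebraicIndependent A (fun i : D => c i)) (φ : A →ₐ[k] N')
    (hφ : ∀ i (hi : i ∉ D), φ ⟨c i, hA i hi⟩ = d i)
    (F : MvPolynomial ι k) (hF : MvPolynomial.aeval c F = 0) : MvPolynomial.aeval d F = 0 := by
  classical
  let s : ι → MvPolynomial D A := fun i => if h : i ∈ D then MvPolynomial.X ⟨i, h⟩ else
    MvPolynomial.C ⟨c i, hA i h⟩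
  let G : MvPolynomial D A := MvPolynomial.aeval s F
  have h1 : MvPolynomial.aeval (fun i : D => c i) G = MvPolynomial.aeval c F := by
    have h2 : ((MvPolynomial.aeval (R := A) fun i : D => c i).restrictScalars k).comp
        (MvPolynomial.aeval s) = MvPolynomial.aeval c := by
      apply MvPolynomial.algHom_ext
      intro i
      rw [AlgHom.comp_apply, MvPolynomial.aeval_X, MvPolynomial.aeval_X]
      change MvPolynomial.aeval (fun i : D => c i) (s i) = c i
      by_cases hi : i ∈ D
      · simp only [s, dif_pos hi, MvPolynomial.aeval_X]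
      · simp only [s, dif_neg hi, MvPolynomial.aeval_C]
        rfl
    exact DFunLike.congr_fun h2 F
  have hG : G = 0 := by
    rw [algebraicIndependent_iff] at hind
    exact hind G (by rw [h1, hF])
  have h3 : MvPolynomial.eval₂ (φ : A →+* N') (fun i : D => d i) G = MvPolynomial.aeval d F := by
    have h4 : ((MvPolynomial.eval₂Hom (φ : A →+* N') (fun i : D => d i)).comp
        (MvPolynomial.aeval s : MvPolynomial ι k →ₐ[k] MvPolynomial D A).toRingHom) =
        (MvPolynomial.aeval d : MvPolynomial ι k →ₐ[k] N').toRingHom := by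
      apply MvPolynomial.ringHom_ext
      · intro a
        change MvPolynomial.eval₂ (φ : A →+* N') (fun i : D => d i)
          (MvPolynomial.aeval s (MvPolynomial.C a)) = MvPolynomial.aeval d (MvPolynomial.C a)
        rw [MvPolynomial.aeval_C, MvPolynomial.aeval_C, MvPolynomial.algebraMap_apply,
          MvPolynomial.eval₂_C]
        exact φ.commutes a
      · intro i
        change MvPolynomial.eval₂ (φ : A →+* N') (fun i : D => d i)
          (MvPolynomial.aeval s (MvPolynomial.X i)) = MvPolynomial.aeval d (MvPolynomial.X i)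
        rw [MvPolynomial.aeval_X, MvPolynomial.aeval_X]
        by_cases hi : i ∈ D
        · simp only [s, dif_pos hi, MvPolynomial.eval₂_X]
        · simp only [s, dif_neg hi, MvPolynomial.eval₂_C]
          exact hφ i hi
    exact DFunLike.congr_fun h4 F
  rw [← h3, hG, MvPolynomial.eval₂_zero]

end Pool.Agent.HC
end

/- Helper16.DP.HC.FinF -/
section
set_option autoImplicit false

/-! Project HC: finite fields of order a power of `q ^ 2`. -/

namespace Pool.Agent.HC

/-- The field with `q ^ 2` elements is contained in `k`. -/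
theorem hk_of_card (k : Type) [Field k] [Finite k] {p f μ : ℕ}
    (hcard : Nat.card k = (p ^ f) ^ (2 * μ)) :
    ∀ (N : Type) (_ : Field N) (_ : Algebra k N) (x : N), x ^ ((p ^ f) ^ 2) = x →
      ∃ d : k, algebraMap k N d = x := by
  intro N _ _ x hx
  have : Fintype k := Fintype.ofFinite k
  rw [Nat.card_eq_fintype_card] at hcard
  have h1 : ∀ n : ℕ, x ^ (((p ^ f) ^ 2) ^ n) = x := by
    intro n
    induction n with
    | zero => rw [pow_zero, pow_one]
    | succ n ih => rw [pow_succ, pow_mul, ih, hx]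
  have h2 : x ^ Fintype.card k = x := by
    rw [hcard, pow_mul]
    exact h1 μ
  have hone : 1 < Fintype.card k := Fintype.one_lt_card
  have hroots := FiniteField.roots_X_pow_card_sub_X k
  have hdeg := FiniteField.X_pow_card_sub_X_natDegree_eq k hone
  have hmon : (Polynomial.X ^ Fintype.card k - Polynomial.X : Polynomial k).Monic := by
    refine Polynomial.monic_X_pow_sub ?_
    rw [Polynomial.degree_X]
    exact_mod_cast hone
  have hprod := Polynomial.prod_multiset_X_sub_C_of_monic_of_roots_card_eq hmon (by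
    rw [hroots, hdeg]
    rfl)
  rw [hroots] at hprod
  have h3 := congrArg (Polynomial.aeval x) hprod
  rw [map_sub, map_pow, Polynomial.aeval_X, h2, sub_self, map_multiset_prod,
    Multiset.prod_eq_zero_iff, Multiset.map_map, Multiset.mem_map] at h3
  obtain ⟨d, _, hd⟩ := h3
  refine ⟨d, ?_⟩
  rw [Function.comp_apply, map_sub, Polynomial.aeval_X, Polynomial.aeval_C, sub_eq_zero] at hd
  exact hd.symm

theorem exists_root_of_unity (k : Type) [Field k] [Finite k] {q μ : ℕ} (hq : 2 ≤ q) (hμ : μ ≠ 0)
    (hcard : Nat.card k = q ^ (2 * μ)) : ∃ ζ : kˣ, orderOf ζ = q ^ 2 - 1 := by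
  obtain ⟨g, hg⟩ := IsCyclic.exists_ofOrder_eq_natCard (α := kˣ)
  have h1 : Nat.card kˣ = (q ^ 2) ^ μ - 1 := by
    rw [Nat.card_units, hcard, pow_mul]
  have h2 : q ^ 2 - 1 ∣ (q ^ 2) ^ μ - 1 := by
    have := Nat.sub_dvd_pow_sub_pow (q ^ 2) 1 μ
    rwa [one_pow] at this
  have h4 : 4 ≤ q ^ 2 := by nlinarith only [hq]
  have h3 : 0 < (q ^ 2) ^ μ - 1 := by
    have : 1 < (q ^ 2) ^ μ := Nat.one_lt_pow hμ (by omega)
    omega
  obtain ⟨m, hm⟩ := h2
  have hm0 : m ≠ 0 := by
    rintro rfl
    rw [mul_zero] at hm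
    omega
  refine ⟨g ^ m, ?_⟩
  rw [orderOf_pow_of_dvd hm0 (by rw [hg, h1, hm]; exact Dvd.intro_left _ rfl), hg, h1, hm]
  exact Nat.mul_div_cancel _ (Nat.pos_of_ne_zero hm0)

theorem exists_c_eta (k : Type) [Field k] [Finite k] {p f μ : ℕ} (hp : p.Prime) [CharP k p]
    (hf : f ≠ 0) (hμ : μ ≠ 0) (hcard : Nat.card k = (p ^ f) ^ (2 * μ)) :
    ∃ c η : k, (c ^ (p ^ f)) ^ (p ^ f) = c ∧ c ^ (p ^ f) ≠ c ∧ η ^ (p ^ f + 1) = -1 := by
  set q := p ^ f with hqdef
  have hq : 2 ≤ q := by
    have : 1 < q := Nat.one_lt_pow hf hp.one_lt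
    omega
  obtain ⟨ζ, hζ⟩ := exists_root_of_unity k hq hμ hcard
  have h4 : 4 ≤ q ^ 2 := by nlinarith only [hq]
  have hz1 : ζ ^ (q ^ 2 - 1) = 1 := by rw [← hζ]; exact pow_orderOf_eq_one ζ
  have hz2 : ζ ^ (q ^ 2) = ζ := by
    have : q ^ 2 = (q ^ 2 - 1) + 1 := by omega
    rw [this, pow_succ, hz1, one_mul]
  have hc1 : ((ζ : k) ^ q) ^ q = ζ := by
    rw [← pow_mul, ← sq, ← Units.val_pow_eq_pow_val, hz2]
  have hlt : q - 1 < q ^ 2 - 1 := by
    have : q < q ^ 2 := by (clear * - h4; nlinarith only [h4])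
    omega
  have hc2 : (ζ : k) ^ q ≠ ζ := by
    intro h
    have h1 : ζ ^ (q - 1) = 1 := by
      have h2 : ζ ^ q = ζ := by
        apply Units.ext
        rw [Units.val_pow_eq_pow_val, h]
      have h3 : ζ ^ (q - 1) * ζ = 1 * ζ := by
        rw [← pow_succ, Nat.sub_add_cancel (by omega), h2, one_mul]
      exact mul_right_cancel h3
    have h2 := orderOf_dvd_of_pow_eq_one h1
    rw [hζ] at h2
    have h3 := Nat.le_of_dvd (by omega) h2
    omega
  refine ⟨ζ, ?_⟩
  rcases hp.eq_two_or_odd' with h2 | h2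
  · refine ⟨1, hc1, hc2, ?_⟩
    subst h2
    haveI : CharP k 2 := inferInstance
    rw [one_pow]
    exact (CharTwo.neg_eq (1 : k)).symm
  · -- odd characteristic
    have hqo : Odd q := h2.pow
    obtain ⟨m, hm⟩ := hqo
    have hm1 : 1 ≤ m := by omega
    refine ⟨((ζ ^ m : kˣ) : k), hc1, hc2, ?_⟩
    have h3 : m * (q + 1) * 2 = q ^ 2 - 1 := by
      have : q ^ 2 = (2 * m + 1) ^ 2 := by rw [hm]
      have h5 : (2 * m + 1) ^ 2 = m * (q + 1) * 2 + 1 := by rw [hm]; ring
      omega
    have h5 : ((ζ ^ m : kˣ) : k) ^ (q + 1) = ((ζ ^ (m * (q + 1)) : kˣ) : k) := by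
      rw [← Units.val_pow_eq_pow_val, ← pow_mul]
    rw [h5]
    have h6 : (((ζ ^ (m * (q + 1)) : kˣ) : k)) ^ 2 = 1 := by
      rw [← Units.val_pow_eq_pow_val, ← pow_mul, h3, hz1, Units.val_one]
    rw [sq, mul_self_eq_one_iff] at h6
    rcases h6 with h | h
    · exfalso
      have h7 : ζ ^ (m * (q + 1)) = 1 := Units.ext (by rw [h, Units.val_one])
      have h8 := Nat.le_of_dvd (Nat.mul_pos (by omega) (by omega)) (orderOf_dvd_of_pow_eq_one h7)
      rw [hζ] at h8
      have h9 : 0 < m * (q + 1) := Nat.mul_pos (by omega) (by omega)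
      omega
    · exact h

end Pool.Agent.HC
end
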