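import Mathlib
import Pool.Agent.HC.PDefs
import Pool.Agent.Helper16.DPG.G01

/- HC.Det -/
section
set_option autoImplicit false

/-!
Project HC (MP_0b9e0b_ag), module P1a: points `x` of `F + t G = 0` with `G(x) ≠ 0`. Then
`t = - F(x) / G(x)`, the field `K(x)`, `K = k(t)`, is `k(x)`, and the homogeneous ideal of `x` over
`K` is determined by the homogeneous ideal over `k`.
-/

namespace Pool.Agent.HC

open Pool.Agent.Helper16

variable {k σ : Type} [Field k]

theorem linQ_hom {F G : MvPolynomial σ k} {m : ℕ} (hF : F.IsHomogeneous m)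
    (hG : G.IsHomogeneous m) : (linQ F G).IsHomogeneous m := by
  unfold linQ
  refine (hF.map _).add ?_
  have h1 := (MvPolynomial.isHomogeneous_C σ (RatFunc.X : RatFunc k)).mul
    (hG.map (algebraMap k (RatFunc k)))
  rwa [zero_add] at h1

theorem aeval_linQ {N : Type} [Field N] [Algebra k N] [Algebra (RatFunc k) N]
    [IsScalarTower k (RatFunc k) N] (F G : MvPolynomial σ k) (x : σ → N) :
    MvPolynomial.aeval x (linQ F G) = MvPolynomial.aeval x F +
      algebraMap (RatFunc k) N RatFunc.X * MvPolynomial.aeval x G := by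
  unfold linQ
  rw [map_add, map_mul, MvPolynomial.aeval_map_algebraMap, MvPolynomial.aeval_map_algebraMap,
    MvPolynomial.aeval_C]

theorem algebraMap_poly {N : Type} [Field N] [Algebra k N] [Algebra (RatFunc k) N]
    [IsScalarTower k (RatFunc k) N] (p : Polynomial k) :
    algebraMap (RatFunc k) N (algebraMap (Polynomial k) (RatFunc k) p) =
      Polynomial.aeval (algebraMap (RatFunc k) N RatFunc.X) p := by
  have h1 : algebraMap (Polynomial k) (RatFunc k) p = Polynomial.aeval RatFunc.X p := by
    rw [RatFunc.aeval_X_left_eq_algebraMap]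
  rw [h1, Polynomial.aeval_algebraMap_apply]

theorem transcendental_X (N : Type) [Field N] [Algebra k N] [Algebra (RatFunc k) N]
    [IsScalarTower k (RatFunc k) N] :
    Transcendental k (algebraMap (RatFunc k) N RatFunc.X) := by
  rw [transcendental_iff]
  intro p hp
  rw [← algebraMap_poly] at hp
  have h1 := (map_eq_zero _).1 hp
  exact (map_eq_zero_iff _ (IsFractionRing.injective (Polynomial k) (RatFunc k))).1 h1

/-- The form `∑ p_i (-F)^i G^(n-i)`. -/
noncomputable def hpol (F G : MvPolynomial σ k) (n : ℕ) (p : Polynomial k) : MvPolynomial σ k :=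
  ∑ i ∈ Finset.range (n + 1), MvPolynomial.C (p.coeff i) * ((-F) ^ i * G ^ (n - i))

theorem hpol_hom {F G : MvPolynomial σ k} {m : ℕ} (hF : F.IsHomogeneous m)
    (hG : G.IsHomogeneous m) (n : ℕ) (p : Polynomial k) :
    (hpol F G n p).IsHomogeneous (m * n) := by
  unfold hpol
  refine MvPolynomial.IsHomogeneous.sum _ _ _ fun i hi => ?_
  rw [Finset.mem_range] at hi
  have h1 := (MvPolynomial.isHomogeneous_C σ (p.coeff i)).mul
    ((hF.neg.pow i).mul (hG.pow (n - i)))
  have h2 : 0 + (m * i + m * (n - i)) = m * n := by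
    rw [zero_add, ← Nat.mul_add]
    congr 1
    omega
  rwa [h2] at h1

theorem aeval_hpol {N : Type} [Field N] [Algebra k N] {F G : MvPolynomial σ k} {x : σ → N} {s : N}
    (hs : MvPolynomial.aeval x F + s * MvPolynomial.aeval x G = 0) {n : ℕ} {p : Polynomial k}
    (hn : p.natDegree ≤ n) :
    MvPolynomial.aeval x (hpol F G n p) =
      MvPolynomial.aeval x G ^ n * Polynomial.aeval s p := by
  unfold hpol
  rw [map_sum, Polynomial.aeval_eq_sum_range' (Nat.lt_succ_of_le hn), Finset.mul_sum]
  refine Finset.sum_congr rfl fun i hi => ?_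
  rw [Finset.mem_range] at hi
  have h1 : - MvPolynomial.aeval x F = s * MvPolynomial.aeval x G := by
    linear_combination - hs
  rw [map_mul, map_mul, map_pow, map_pow, map_neg, h1, MvPolynomial.aeval_C, Algebra.smul_def,
    mul_pow]
  have h2 : MvPolynomial.aeval x G ^ n =
      MvPolynomial.aeval x G ^ i * MvPolynomial.aeval x G ^ (n - i) := by
    rw [← pow_add]
    congr 1
    omega
  rw [h2]
  ring

/-- Clearing denominators and eliminating `t`. -/
theorem exists_num {F G : MvPolynomial σ k} {m : ℕ} (hF : F.IsHomogeneous m)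
    (hG : G.IsHomogeneous m) {d : ℕ} {P : MvPolynomial σ (RatFunc k)} (hP : P.IsHomogeneous d) :
    ∃ (n : ℕ) (b : Polynomial k) (Q : MvPolynomial σ k), b ≠ 0 ∧ Q.IsHomogeneous (m * n + d) ∧
      ∀ (N : Type) [Field N] [Algebra k N] [Algebra (RatFunc k) N] [IsScalarTower k (RatFunc k) N]
        (x : σ → N), MvPolynomial.aeval x (linQ F G) = 0 →
        MvPolynomial.aeval x Q = MvPolynomial.aeval x G ^ n *
          (algebraMap (RatFunc k) N (algebraMap (Polynomial k) (RatFunc k) b) *
            MvPolynomial.aeval x P) := by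
  classical
  obtain ⟨b, hb⟩ := IsLocalization.exist_integer_multiples_of_finset
    (nonZeroDivisors (Polynomial k)) (P.support.image fun e => P.coeff e)
  have h1 : ∀ e : σ →₀ ℕ, ∃ c : Polynomial k, algebraMap (Polynomial k) (RatFunc k) c =
      algebraMap (Polynomial k) (RatFunc k) b * P.coeff e := by
    intro e
    by_cases he : e ∈ P.support
    · obtain ⟨c, hc⟩ := hb _ (Finset.mem_image_of_mem _ he)
      refine ⟨c, ?_⟩
      rw [hc, Algebra.smul_def]
    · refine ⟨0, ?_⟩
      rw [MvPolynomial.notMem_support_iff.1 he, map_zero, mul_zero]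
  choose c hc using h1
  let n := P.support.sup fun e => (c e).natDegree
  refine ⟨n, b, ∑ e ∈ P.support, hpol F G n (c e) * MvPolynomial.monomial e 1,
    nonZeroDivisors.coe_ne_zero b, ?_, ?_⟩
  · refine MvPolynomial.IsHomogeneous.sum _ _ _ fun e he => ?_
    refine (hpol_hom hF hG n (c e)).mul ?_
    refine MvPolynomial.isHomogeneous_monomial _ ?_
    have := hP (MvPolynomial.mem_support_iff.1 he)
    rw [Finsupp.weight_apply] at this
    simpa [Finsupp.degree_apply, Finsupp.sum] using this
  · intro N _ _ _ _ x hx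
    rw [aeval_linQ] at hx
    rw [map_sum, MvPolynomial.aeval_def (R := RatFunc k), MvPolynomial.eval₂_eq, Finset.mul_sum,
      Finset.mul_sum]
    refine Finset.sum_congr rfl fun e he => ?_
    rw [map_mul, aeval_hpol hx (Finset.le_sup (f := fun e => (c e).natDegree) he),
      ← algebraMap_poly, hc, map_mul, MvPolynomial.aeval_monomial, map_one, one_mul]
    rw [Finsupp.prod]
    ring

/-- The homogeneous ideal over `K` is determined by the homogeneous ideal over `k`. -/
theorem homIdeal_det {F G : MvPolynomial σ k} {m : ℕ} (hF : F.IsHomogeneous m)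
    (hG : G.IsHomogeneous m) {N N' : Type} [Field N] [Algebra k N] [Algebra (RatFunc k) N]
    [IsScalarTower k (RatFunc k) N] [Field N'] [Algebra k N'] [Algebra (RatFunc k) N']
    [IsScalarTower k (RatFunc k) N'] {x : σ → N} {x' : σ → N'}
    (hx : MvPolynomial.aeval x (linQ F G) = 0) (hGx : MvPolynomial.aeval x G ≠ 0)
    (hx' : MvPolynomial.aeval x' (linQ F G) = 0) (hGx' : MvPolynomial.aeval x' G ≠ 0)
    (h : homIdeal k x = homIdeal k x') : homIdeal (RatFunc k) x = homIdeal (RatFunc k) x' := by
  refine homIdeal_ext x x' fun d P hP => ?_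
  obtain ⟨n, b, Q, hb, hQ, h1⟩ := exists_num hF hG hP
  have h2 : ∀ (M : Type) [Field M] [Algebra k M] [Algebra (RatFunc k) M]
      [IsScalarTower k (RatFunc k) M] (z : σ → M), MvPolynomial.aeval z (linQ F G) = 0 →
      MvPolynomial.aeval z G ≠ 0 → (MvPolynomial.aeval z Q = 0 ↔ MvPolynomial.aeval z P = 0) := by
    intro M _ _ _ _ z hz hGz
    rw [h1 M z hz, mul_eq_zero_iff_left (pow_ne_zero n hGz), mul_eq_zero_iff_left]
    rw [Ne, map_eq_zero, map_eq_zero_iff _ (IsFractionRing.injective (Polynomial k) (RatFunc k))]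
    exact hb
  rw [← h2 N x hx hGx, ← h2 N' x' hx' hGx', ← mem_homIdeal_form x hQ, h, mem_homIdeal_form x' hQ]

end Pool.Agent.HC
end
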