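import Mathlib
import Pool.Agent.Helper16.DPG.G04
import Pool.Agent.Helper16.DPG.G05

/- Helper16.DP.HC.ConstT -/
section
set_option autoImplicit false
set_option linter.unusedSectionVars false

/-!
Project HC (MP_0b9e0b_ag), module B2 (part): transcendence degrees over `k` and `k(t)`.
-/

namespace Pool.Agent.HC

open Pool.Agent.Helper16

variable {k σ : Type} [Field k]
variable {N : Type} [Field N] [Algebra k N] [Algebra (RatFunc k) N] [IsScalarTower k (RatFunc k) N]

/-! ### Transcendence degrees -/

/-- The field `k(x, t)`. -/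
noncomputable abbrev ratT (k : Type) {σ N : Type} [Field k] [Field N] [Algebra k N]
    [Algebra (RatFunc k) N] (x : σ → N) : IntermediateField (ratioField k x) N :=
  IntermediateField.adjoin (ratioField k x) {tv k N}

theorem algebraMap_mem_adjoin_tv (a : RatFunc k) (S : Set N) :
    algebraMap (RatFunc k) N a ∈ IntermediateField.adjoin k (S ∪ {tv k N}) := by
  have h1 : ∀ p : Polynomial k, algebraMap (RatFunc k) N (algebraMap (Polynomial k) (RatFunc k) p) ∈
      IntermediateField.adjoin k (S ∪ {tv k N}) := by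
    intro p
    induction p using Polynomial.induction_on' with
    | add p q hp hq => rw [map_add, map_add]; exact add_mem hp hq
    | monomial n a =>
      rw [← Polynomial.C_mul_X_pow_eq_monomial, map_mul, map_pow, RatFunc.algebraMap_X,
        RatFunc.algebraMap_C, map_mul, map_pow]
      refine mul_mem ?_ (pow_mem (IntermediateField.subset_adjoin _ _
        (Set.mem_union_right _ (Set.mem_singleton _))) n)
      have : algebraMap (RatFunc k) N (RatFunc.C a) = algebraMap k N a :=
        (IsScalarTower.algebraMap_apply k (RatFunc k) N a).symm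
      rw [this]
      exact IntermediateField.algebraMap_mem _ _
  rw [← RatFunc.num_div_denom a, map_div₀]
  exact div_mem (h1 _) (h1 _)

theorem ratT_restrict (x : σ → N) :
    (ratT k x).restrictScalars k = (ratioField (RatFunc k) x).restrictScalars k := by
  have h1 : (ratT k x).restrictScalars k = IntermediateField.adjoin k
      ((Set.range fun p : σ × σ => x p.1 / x p.2) ∪ {tv k N}) := by
    exact IntermediateField.adjoin_adjoin_left k
      (Set.range fun p : σ × σ => x p.1 / x p.2) {tv k N}
  rw [h1]
  refine le_antisymm ?_ ?_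
  · rw [IntermediateField.adjoin_le_iff]
    rintro a (⟨p, rfl⟩ | rfl)
    · exact div_mem_ratioField (K := RatFunc k) x p.1 p.2
    · exact (ratioField (RatFunc k) x).algebraMap_mem RatFunc.X
  · intro a ha
    have ha' : a ∈ IntermediateField.adjoin (RatFunc k)
        (Set.range fun p : σ × σ => x p.1 / x p.2) := ha
    induction ha' using IntermediateField.adjoin_induction with
    | mem y hy => exact IntermediateField.subset_adjoin _ _ (Or.inl hy)
    | algebraMap y => exact algebraMap_mem_adjoin_tv y _
    | add y z hy hz ihy ihz => exact add_mem (ihy hy) (ihz hz)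
    | mul y z hy hz ihy ihz => exact mul_mem (ihy hy) (ihz hz)
    | inv y hy ihy => exact inv_mem (ihy hy)

theorem trdeg_tower (x : σ → N) :
    Algebra.trdeg (RatFunc k) (ratioField (RatFunc k) x) + 1 =
      Algebra.trdeg k (ratioField k x) + Algebra.trdeg (ratioField k x) (ratT k x) := by
  have h1 := trdeg_add_eq k (RatFunc k) (A := ratioField (RatFunc k) x)
  rw [trdeg_ratFunc] at h1
  have h2 := trdeg_add_eq k (ratioField k x) (A := ratT k x)
  rw [add_comm, h1, h2]
  exact (IntermediateField.equivOfEq (ratT_restrict x)).symm.trdeg_eq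

theorem trdeg_ratT (x : σ → N) (ht : Transcendental (ratioField k x) (tv k N)) :
    Algebra.trdeg (ratioField k x) (ratT k x) = 1 := by
  rw [← (RatFunc.algEquivOfTranscendental (K := ratioField k x) (tv k N) ht).trdeg_eq]
  exact trdeg_ratFunc _

theorem trdeg_const (x : σ → N) (ht : Transcendental (ratioField k x) (tv k N)) :
    Algebra.trdeg (RatFunc k) (ratioField (RatFunc k) x) = Algebra.trdeg k (ratioField k x) := by
  have h := trdeg_tower (k := k) x
  rw [trdeg_ratT x ht] at h
  exact Cardinal.add_one_inj.1 h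

theorem trdeg_of_alg (x : σ → N) (ht : IsAlgebraic (ratioField k x) (tv k N)) :
    Algebra.trdeg (RatFunc k) (ratioField (RatFunc k) x) + 1 =
      Algebra.trdeg k (ratioField k x) := by
  have h := trdeg_tower (k := k) x
  have h1 : Algebra.IsAlgebraic (ratioField k x) (ratT k x) :=
    IntermediateField.isAlgebraic_adjoin (by
      intro a ha
      rw [Set.mem_singleton_iff.1 ha]
      exact ht.isIntegral)
  rw [h, trdeg_eq_zero (R := ratioField k x) (A := ratT k x), add_zero]

theorem isSub_const {I : Set (MvPolynomial σ k)} (hI : ∀ P ∈ I, ∃ d, P.IsHomogeneous d) {r : ℕ}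
    {x : σ → N} (hx : IsPt I x) (ht : Transcendental (ratioField k x) (tv k N))
    (hr : Algebra.trdeg (RatFunc k) (ratioField (RatFunc k) x) = r) :
    IsSub I r (homIdeal k x) where
  prime := homIdeal_prime x
  hom := homIdeal_hom x
  le := by
    intro P hP
    obtain ⟨d, hd⟩ := hI P hP
    exact (mem_homIdeal_form x hd).2 (hx.2 P hP)
  dim := by rw [trdeg_cone hx.1, ← trdeg_const x ht, hr]

theorem isPt_map_iff {I : Set (MvPolynomial σ k)} {x : σ → N} :
    IsPt (MvPolynomial.map (algebraMap k (RatFunc k)) '' I) x ↔ IsPt I x := by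
  unfold IsPt
  refine and_congr_right fun _ => ⟨fun h P hP => ?_, fun h P hP => ?_⟩
  · rw [← aeval_mapK]
    exact h _ ⟨P, hP, rfl⟩
  · obtain ⟨Q, hQ, rfl⟩ := hP
    rw [aeval_mapK]
    exact h Q hQ

end Pool.Agent.HC
end

/- Helper16.DP.HC.Trans -/
section
set_option autoImplicit false

/-!
Project HC (MP_0b9e0b_ag), module P1: from cycles on the projective space over `k` to cycles on
`X = {F + t G = 0}` over `K = k(t)`.
-/

namespace Pool.Agent.HC

open Pool.Agent.Helper16

/-! ### Residue fields over different base fields -/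

section resEquiv

variable {k₀ K N : Type} [Field k₀] [Field K] [Field N] [Algebra k₀ K] [Algebra k₀ N]
  [Algebra K N] [IsScalarTower k₀ K N]

/-- The valuation rings of a place over two base fields. -/
def ringEquiv (k₀ : Type) [Field k₀] [Algebra k₀ K] [Algebra k₀ N] [IsScalarTower k₀ K N]
    (v : Place K N) : (under k₀ v).ring ≃+* v.ring where
  toFun a := ⟨a.1, a.2⟩
  invFun a := ⟨a.1, a.2⟩
  left_inv _ := rfl
  right_inv _ := rfl
  map_mul' _ _ := rfl
  map_add' _ _ := rfl

/-- The residue fields of a place over two base fields. -/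
noncomputable def resEquiv (k₀ : Type) [Field k₀] [Algebra k₀ K] [Algebra k₀ N]
    [IsScalarTower k₀ K N] (v : Place K N) : (under k₀ v).resField ≃ₐ[k₀] v.resField :=
  AlgEquiv.ofRingEquiv (f := IsLocalRing.ResidueField.mapEquiv (ringEquiv k₀ v)) (by
    intro a
    rfl)

theorem resEquiv_res (v : Place K N) {a : N} (ha : a ∈ v.ring) :
    resEquiv k₀ v ((under k₀ v).res a) = v.res a := by
  have ha' : a ∈ (under k₀ v).ring := ha
  rw [v.res_of_mem ha, (under k₀ v).res_of_mem ha']
  rfl

theorem specAt_resEquiv {σ : Type} (v : Place K N) {x : σ → N} {y : σ → (under k₀ v).resField}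
    (h : SpecAt (under k₀ v) x y) : SpecAt v x fun j => resEquiv k₀ v (y j) := by
  obtain ⟨h0, c, hc, h⟩ := h
  refine ⟨fun h1 => h0 ?_, c, hc, fun j => ⟨(h j).1, ?_⟩⟩
  · funext j
    have h2 := congrFun h1 j
    simpa using h2
  · change resEquiv k₀ v (y j) = _
    rw [(h j).2]
    exact resEquiv_res v (h j).1

theorem finrank_resEquiv {σ : Type} (v : Place K N) (y : σ → (under k₀ v).resField) :
    Module.finrank (ratioField k₀ fun j => resEquiv k₀ v (y j)) v.resField =
      Module.finrank (ratioField k₀ y) (under k₀ v).resField := by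
  have h1 : ratioField k₀ (fun j => resEquiv k₀ v (y j)) =
      (ratioField k₀ y).map (resEquiv k₀ v : (under k₀ v).resField →ₐ[k₀] v.resField) :=
    ratioField_map (resEquiv k₀ v : (under k₀ v).resField →ₐ[k₀] v.resField) y
  rw [h1]
  exact (Algebra.finrank_eq_of_equiv_equiv
    (IntermediateField.equivMap (ratioField k₀ y)
      (resEquiv k₀ v : (under k₀ v).resField →ₐ[k₀] v.resField)).toRingEquiv
    (resEquiv k₀ v).toRingEquiv (by ext; rfl)).symm

end resEquiv

variable {k σ : Type} [Field k]

/-! ### The field of a point of `F + t G = 0` -/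

section point

variable {N : Type} [Field N] [Algebra k N] [Algebra (RatFunc k) N] [IsScalarTower k (RatFunc k) N]
  {F G : MvPolynomial σ k} {m : ℕ}

theorem tv_mem (hF : F.IsHomogeneous m) (hG : G.IsHomogeneous m) {x : σ → N} (hx0 : x ≠ 0)
    (hx : MvPolynomial.aeval x (linQ F G) = 0) (hGx : MvPolynomial.aeval x G ≠ 0) :
    tv k N ∈ ratioField k x := by
  obtain ⟨j0, hj0⟩ := Function.ne_iff.1 hx0
  change x j0 ≠ 0 at hj0
  rw [aeval_linQ] at hx
  have h1 := aeval_mem_ratioField (k := k) x j0 hF
  have h2 := aeval_mem_ratioField (k := k) x j0 hG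
  have h3 : tv k N = - (MvPolynomial.aeval x F / x j0 ^ m) / (MvPolynomial.aeval x G / x j0 ^ m) := by
    have h4 : x j0 ^ m ≠ 0 := pow_ne_zero _ hj0
    unfold tv
    field_simp
    linear_combination hx
  rw [h3]
  exact div_mem (neg_mem h1) h2

theorem ratioField_eq (hF : F.IsHomogeneous m) (hG : G.IsHomogeneous m) {x : σ → N} (hx0 : x ≠ 0)
    (hx : MvPolynomial.aeval x (linQ F G) = 0) (hGx : MvPolynomial.aeval x G ≠ 0) :
    (ratioField (RatFunc k) x).restrictScalars k = ratioField k x := by
  refine le_antisymm ?_ ?_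
  · have h1 := tv_mem hF hG hx0 hx hGx
    have h2 : ∀ a : RatFunc k, algebraMap (RatFunc k) N a ∈ ratioField k x := by
      intro a
      have h3 := algebraMap_mem_adjoin_tv (N := N) a (Set.range fun p : σ × σ => x p.1 / x p.2)
      refine (IntermediateField.adjoin_le_iff.2 ?_) h3
      rintro b (hb | hb)
      · exact IntermediateField.subset_adjoin k _ hb
      · rw [Set.mem_singleton_iff] at hb
        rw [hb]
        exact h1
    intro a ha
    rw [IntermediateField.mem_restrictScalars] at ha
    unfold ratioField at ha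
    induction ha using IntermediateField.adjoin_induction with
    | mem y hy => exact IntermediateField.subset_adjoin k _ hy
    | algebraMap y => exact h2 y
    | add y z _ _ ihy ihz => exact add_mem ihy ihz
    | mul y z _ _ ihy ihz => exact mul_mem ihy ihz
    | inv y _ ihy => exact inv_mem ihy
  · unfold ratioField
    rw [IntermediateField.adjoin_le_iff]
    intro a ha
    exact IntermediateField.subset_adjoin (RatFunc k) _ ha

theorem finrank_ratioField (hF : F.IsHomogeneous m) (hG : G.IsHomogeneous m) {x : σ → N}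
    (hx0 : x ≠ 0) (hx : MvPolynomial.aeval x (linQ F G) = 0)
    (hGx : MvPolynomial.aeval x G ≠ 0) :
    Module.finrank (ratioField (RatFunc k) x) N = Module.finrank (ratioField k x) N := by
  rw [← ratioField_eq hF hG hx0 hx hGx]
  rfl

theorem trdeg_ratioField (hF : F.IsHomogeneous m) (hG : G.IsHomogeneous m) {x : σ → N}
    (hx0 : x ≠ 0) (hx : MvPolynomial.aeval x (linQ F G) = 0)
    (hGx : MvPolynomial.aeval x G ≠ 0) :
    Algebra.trdeg (RatFunc k) (ratioField (RatFunc k) x) + 1 =
      Algebra.trdeg k (ratioField k x) :=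
  trdeg_of_alg x (isAlgebraic_algebraMap
    (⟨tv k N, tv_mem hF hG hx0 hx hGx⟩ : ratioField k x))

end point

/-! ### The map on cycles -/

/-- The integral subschemes `P` of the projective space over `k` and `Q` of `X` over `K` have a
common generic point. -/
def PhiRel (F G : MvPolynomial σ k) (P : Ideal (MvPolynomial σ k))
    (Q : Ideal (MvPolynomial σ (RatFunc k))) : Prop :=
  ∃ (N : Type) (_ : Field N) (_ : Algebra k N) (_ : Algebra (RatFunc k) N)
    (_ : IsScalarTower k (RatFunc k) N) (x : σ → N), homIdeal k x = P ∧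
    MvPolynomial.aeval x G ≠ 0 ∧ MvPolynomial.aeval x (linQ F G) = 0 ∧
    homIdeal (RatFunc k) x = Q

theorem PhiRel.unique {F G : MvPolynomial σ k} {m : ℕ} (hF : F.IsHomogeneous m)
    (hG : G.IsHomogeneous m) {P : Ideal (MvPolynomial σ k)}
    {Q Q' : Ideal (MvPolynomial σ (RatFunc k))} (h : PhiRel F G P Q) (h' : PhiRel F G P Q') :
    Q = Q' := by
  obtain ⟨N, _, _, _, _, x, h1, h2, h3, rfl⟩ := h
  obtain ⟨N', _, _, _, _, x', h1', h2', h3', rfl⟩ := h'
  exact homIdeal_det hF hG h3 h2 h3' h2' (h1.trans h1'.symm)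

open scoped Classical in
/-- The cycle of `X` with the same generic point (zero if there is none). -/
noncomputable def phiI (F G : MvPolynomial σ k) (P : Ideal (MvPolynomial σ k)) :
    Ideal (MvPolynomial σ (RatFunc k)) →₀ ℚ :=
  if h : ∃ Q, PhiRel F G P Q then Finsupp.single h.choose 1 else 0

theorem phiI_eq {F G : MvPolynomial σ k} {m : ℕ} (hF : F.IsHomogeneous m)
    (hG : G.IsHomogeneous m) {P : Ideal (MvPolynomial σ k)}
    {Q : Ideal (MvPolynomial σ (RatFunc k))} (h : PhiRel F G P Q) :
    phiI F G P = Finsupp.single Q 1 := by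
  have h1 : ∃ Q, PhiRel F G P Q := ⟨Q, h⟩
  unfold phiI
  rw [dif_pos h1, PhiRel.unique hF hG h1.choose_spec h]

theorem phiI_zero {F G : MvPolynomial σ k} {P : Ideal (MvPolynomial σ k)}
    (h : ¬ ∃ Q, PhiRel F G P Q) : phiI F G P = 0 := by
  unfold phiI
  rw [dif_neg h]

/-- The map on cycles. -/
noncomputable def phi (F G : MvPolynomial σ k) : (Ideal (MvPolynomial σ k) →₀ ℚ) →ₗ[ℚ]
    (Ideal (MvPolynomial σ (RatFunc k)) →₀ ℚ) :=
  Finsupp.linearCombination ℚ (phiI F G)

theorem phi_single (F G : MvPolynomial σ k) (P : Ideal (MvPolynomial σ k)) (a : ℚ) :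
    phi F G (Finsupp.single P a) = a • phiI F G P := by
  unfold phi
  rw [Finsupp.linearCombination_single]

theorem PhiRel.notMem {F G : MvPolynomial σ k} {m : ℕ} (hG : G.IsHomogeneous m)
    {P : Ideal (MvPolynomial σ k)}
    {Q : Ideal (MvPolynomial σ (RatFunc k))} (h : PhiRel F G P Q) : G ∉ P := by
  obtain ⟨N, _, _, _, _, x, rfl, h2, h3, rfl⟩ := h
  rwa [mem_homIdeal_form x hG]

/-- If `G` vanishes on the subscheme then its image is zero. -/
theorem phi_zero {F G : MvPolynomial σ k} {m : ℕ} (hG : G.IsHomogeneous m)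
    {P : Ideal (MvPolynomial σ k)} (hP : G ∈ P) : phi F G (Finsupp.single P 1) = 0 := by
  rw [phi_single, phiI_zero, smul_zero]
  rintro ⟨Q, hQ⟩
  exact hQ.notMem hG hP

/-- Every subscheme of `X` on which `G` does not vanish is in the image. -/
theorem phi_surj [Finite σ] {F G : MvPolynomial σ k} {m : ℕ} (hF : F.IsHomogeneous m)
    (hG : G.IsHomogeneous m) {r : ℕ} {Q : Ideal (MvPolynomial σ (RatFunc k))}
    (hQ : IsSub {linQ F G} r Q) (hGQ : MvPolynomial.map (algebraMap k (RatFunc k)) G ∉ Q) :
    ∃ P, IsSub (∅ : Set (MvPolynomial σ k)) (r + 1) P ∧ G ∉ P ∧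
      phi F G (Finsupp.single P 1) = Finsupp.single Q 1 := by
  obtain ⟨N, _, _, x, j0, hx, hj0, rfl, htop, hfin, htr⟩ := exists_generic hQ
  let _ : Algebra k N := ((algebraMap (RatFunc k) N).comp (algebraMap k (RatFunc k))).toAlgebra
  have : IsScalarTower k (RatFunc k) N := IsScalarTower.of_algebraMap_eq fun a => rfl
  have h1 : MvPolynomial.aeval x (linQ F G) = 0 := hx.2 _ rfl
  have h2 : MvPolynomial.aeval x G ≠ 0 := by
    rw [mem_homIdeal_form x (hG.map (algebraMap k (RatFunc k))),
      MvPolynomial.aeval_map_algebraMap] at hGQ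
    exact hGQ
  have h3 : PhiRel F G (homIdeal k x) (homIdeal (RatFunc k) x) :=
    ⟨N, inferInstance, inferInstance, inferInstance, inferInstance, x, rfl, h2, h1, rfl⟩
  refine ⟨homIdeal k x, ?_, h3.notMem hG, ?_⟩
  · refine isSub_of_pt (fun P hP => absurd hP (Set.notMem_empty P))
      ⟨hx.1, fun P hP => absurd hP (Set.notMem_empty P)⟩ ?_
    rw [← trdeg_ratioField hF hG hx.1 h1 h2]
    have h4 : Algebra.trdeg (RatFunc k) (ratioField (RatFunc k) x) = r := by
      rw [htop, IntermediateField.topEquiv.trdeg_eq, htr]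
    rw [h4]
    push_cast
    rfl
  · rw [phi_single, one_smul, phiI_eq hF hG h3]

end Pool.Agent.HC
end

/- Helper16.DP.HC.MonMap -/
section
set_option autoImplicit false
set_option linter.unusedSectionVars false
set_option linter.style.haveILetI false

/-!
Project HC (MP_0b9e0b_ag): pushforward of cycles under the maps `x ↦ (c_j x_j ^ s)`, from an
algebraic extension `K'` of `K` to `K`.
-/

namespace Pool.Agent.HC

open Pool.Agent.Helper16

variable {K K' σ : Type} [Field K] [Field K'] [Algebra K K'] {s : ℕ} {c : σ → K'}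

/-- The homomorphism `X_j ↦ c_j X_j ^ s`. -/
noncomputable def monHom (K : Type) {K' σ : Type} [Field K] [Field K'] [Algebra K K'] (c : σ → K')
    (s : ℕ) : MvPolynomial σ K →ₐ[K] MvPolynomial σ K' :=
  MvPolynomial.aeval fun j => MvPolynomial.C (c j) * MvPolynomial.X j ^ s

/-- The point with coordinates `c_j x_j ^ s`. -/
def monPush (c : σ → K') (s : ℕ) {N : Type} [Field N] [Algebra K' N] (x : σ → N) : σ → N :=
  fun j => algebraMap K' N (c j) * x j ^ s

section point

variable {N : Type} [Field N] [Algebra K N] [Algebra K' N] [IsScalarTower K K' N]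

theorem aeval_monPush (x : σ → N) (F : MvPolynomial σ K) :
    MvPolynomial.aeval (monPush c s x) F = MvPolynomial.aeval x (monHom K c s F) := by
  have h : (MvPolynomial.aeval (monPush c s x) : MvPolynomial σ K →ₐ[K] N) =
      ((MvPolynomial.aeval x : MvPolynomial σ K' →ₐ[K'] N).restrictScalars K).comp
        (monHom K c s) := by
    refine MvPolynomial.algHom_ext fun j => ?_
    rw [MvPolynomial.aeval_X, AlgHom.comp_apply, monHom, MvPolynomial.aeval_X,
      AlgHom.restrictScalars_apply, map_mul, map_pow, MvPolynomial.aeval_X, MvPolynomial.aeval_C]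
    rfl
  rw [h]
  rfl

theorem monHom_isHomogeneous {F : MvPolynomial σ K} {d : ℕ} (hF : F.IsHomogeneous d) :
    (monHom K c s F).IsHomogeneous (s * d) := by
  classical
  unfold monHom
  rw [MvPolynomial.aeval_def, MvPolynomial.eval₂_eq]
  refine MvPolynomial.IsHomogeneous.sum _ _ _ fun e he => ?_
  have h1 : ∑ i ∈ e.support, e i = d := by
    have := hF (MvPolynomial.mem_support_iff.1 he)
    rw [Finsupp.weight_apply] at this
    simpa [Finsupp.sum] using this
  have h2 : (∏ i ∈ e.support, (MvPolynomial.C (c i) * MvPolynomial.X i ^ s :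
      MvPolynomial σ K') ^ e i).IsHomogeneous (∑ i ∈ e.support, s * e i) := by
    refine MvPolynomial.IsHomogeneous.prod _ _ _ fun i _ => ?_
    have h3 : (MvPolynomial.C (c i) * MvPolynomial.X i ^ s : MvPolynomial σ K').IsHomogeneous
        (0 + s) :=
      (MvPolynomial.isHomogeneous_C σ (c i)).mul (by
        simpa using (MvPolynomial.isHomogeneous_X K' i).pow s)
    rw [zero_add] at h3
    exact h3.pow (e i)
  rw [← Finset.mul_sum, h1] at h2
  have h4 : (algebraMap K (MvPolynomial σ K')) (MvPolynomial.coeff e F) =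
      MvPolynomial.C (algebraMap K K' (MvPolynomial.coeff e F)) := rfl
  rw [h4, ← zero_add (s * d)]
  exact (MvPolynomial.isHomogeneous_C σ _).mul h2

theorem monHom_component (hs : 0 < s) (F : MvPolynomial σ K) (n : ℕ) :
    MvPolynomial.homogeneousComponent (s * n) (monHom K c s F) =
      monHom K c s (MvPolynomial.homogeneousComponent n F) := by
  conv_lhs => rw [← MvPolynomial.sum_homogeneousComponent F]
  rw [map_sum, map_sum]
  have h1 : ∀ i, MvPolynomial.homogeneousComponent (s * n)
      (monHom K c s (MvPolynomial.homogeneousComponent i F)) =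
      if i = n then monHom K c s (MvPolynomial.homogeneousComponent n F) else 0 := by
    intro i
    have h2 := monHom_isHomogeneous (c := c) (s := s)
      (MvPolynomial.homogeneousComponent_isHomogeneous i F)
    split_ifs with h
    · subst h
      exact MvPolynomial.homogeneousComponent_of_mem h2 |>.trans (if_pos rfl)
    · exact MvPolynomial.homogeneousComponent_of_mem h2 |>.trans
        (if_neg fun h' => h (Nat.eq_of_mul_eq_mul_left hs h').symm)
  simp only [h1]
  rw [Finset.sum_ite_eq']
  split_ifs with h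
  · rfl
  · rw [Finset.mem_range, not_lt] at h
    rw [MvPolynomial.homogeneousComponent_eq_zero _ _ (by omega), map_zero]

theorem homIdeal_monPush (hs : 0 < s) (x : σ → N) :
    homIdeal K (monPush c s x) = (homIdeal K' x).comap (monHom K c s) := by
  refine eq_homIdeal _ (fun F hF n => ?_) fun d F hF => ?_
  · rw [Ideal.mem_comap] at hF ⊢
    rw [← monHom_component hs]
    exact homIdeal_hom x _ hF _
  · rw [Ideal.mem_comap, mem_homIdeal_form x (monHom_isHomogeneous hF), aeval_monPush]

theorem monPush_ne_zero (hc : ∀ j, c j ≠ 0) {x : σ → N} (hx : x ≠ 0) : monPush c s x ≠ 0 := by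
  obtain ⟨j, hj⟩ := Function.ne_iff.1 hx
  intro h
  have h1 := congrFun h j
  exact mul_ne_zero ((map_ne_zero _).2 (hc j)) (pow_ne_zero s hj) h1

/-- The subfield generated by the ratios of the coordinates of the image. -/
theorem monField_le (x : σ → N) :
    (ratioField K (monPush c s x)).toSubfield ≤ (ratioField K' x).toSubfield := by
  have h1 : ratioField K (monPush c s x) ≤ (ratioField K' x).restrictScalars K := by
    unfold ratioField
    rw [IntermediateField.adjoin_le_iff]
    rintro _ ⟨⟨i, j⟩, rfl⟩
    change algebraMap K' N (c i) * x i ^ s / (algebraMap K' N (c j) * x j ^ s) ∈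
      IntermediateField.adjoin K' _
    rw [mul_div_mul_comm, ← div_pow]
    exact mul_mem (div_mem (IntermediateField.algebraMap_mem _ _)
      (IntermediateField.algebraMap_mem _ _)) (pow_mem (div_mem_ratioField x i j) s)
  exact h1

/-- The degree of the map on the closure of the point. -/
noncomputable def monDeg (K : Type) {K' σ : Type} [Field K] [Field K'] [Algebra K K'] (c : σ → K')
    (s : ℕ) {N : Type} [Field N] [Algebra K N] [Algebra K' N] (x : σ → N) : ℕ :=
  (ratioField K (monPush c s x)).toSubfield.relfinrank (ratioField K' x).toSubfield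

theorem monDeg_mul (x : σ → N) :
    monDeg K c s x * Module.finrank (ratioField K' x) N =
      Module.finrank (ratioField K (monPush c s x)) N :=
  Subfield.relfinrank_mul_finrank_top (monField_le x)

theorem monPush_map {N' : Type} [Field N'] [Algebra K' N'] (φ : N →ₐ[K'] N') (x : σ → N) :
    monPush c s (fun j => φ (x j)) = fun j => φ (monPush c s x j) := by
  funext j
  unfold monPush
  rw [map_mul, map_pow, φ.commutes]

theorem monDeg_map {N' : Type} [Field N'] [Algebra K N'] [Algebra K' N'] [IsScalarTower K K' N']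
    (φ : N →ₐ[K'] N') (x : σ → N) : monDeg K c s (fun j => φ (x j)) = monDeg K c s x := by
  unfold monDeg
  rw [monPush_map φ x, ratioField_map φ x]
  have h1 := ratioField_map (K := K) (φ.restrictScalars K) (monPush c s x)
  have h2 : (fun j => (φ.restrictScalars K) (monPush c s x j)) =
      fun j => φ (monPush c s x j) := rfl
  rw [h2] at h1
  rw [h1]
  exact Subfield.relfinrank_map_map _ _ (φ : N →+* N')

theorem monDeg_scale (x : σ → N) {a : N} (ha : a ≠ 0) :
    monDeg K c s (fun j => a * x j) = monDeg K c s x := by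
  unfold monDeg
  have h1 : monPush c s (fun j => a * x j) = fun j => a ^ s * monPush c s x j := by
    funext j
    unfold monPush
    ring
  rw [h1, ratioField_scale x ha, ratioField_scale _ (pow_ne_zero s ha)]

end point

section point2

variable {N : Type} [Field N] [Algebra K N] [Algebra K' N] [IsScalarTower K K' N]

/-- The generic point of the cone over the scheme with homogeneous prime ideal `P`. -/
noncomputable def genPt (P : Ideal (MvPolynomial σ K')) :
    σ → FractionRing (MvPolynomial σ K' ⧸ P) :=
  fun j => algebraMap (MvPolynomial σ K' ⧸ P) _ (Ideal.Quotient.mk P (MvPolynomial.X j))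

theorem exists_emb_gen (x : σ → N) (hP : (homIdeal K' x).IsPrime) :
    ∃ φ : FractionRing (MvPolynomial σ K' ⧸ homIdeal K' x) →ₐ[K'] RatFunc N,
      ∀ j, φ (genPt (homIdeal K' x) j) = algebraMap N (RatFunc N) (x j) * RatFunc.X := by
  let ψ : MvPolynomial σ K' →ₐ[K'] RatFunc N :=
    (IsScalarTower.toAlgHom K' (Polynomial N) (RatFunc N)).comp (coneMap K' x)
  have hψ : ∀ F, F ∈ homIdeal K' x ↔ ψ F = 0 := by
    intro F
    rw [homIdeal_eq_ker, RingHom.mem_ker]
    constructor
    · intro h
      change algebraMap (Polynomial N) (RatFunc N) (coneMap K' x F) = 0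
      rw [h, map_zero]
    · intro h
      change algebraMap (Polynomial N) (RatFunc N) (coneMap K' x F) = 0 at h
      exact (map_eq_zero_iff _ (IsFractionRing.injective (Polynomial N) (RatFunc N))).1 h
  let ψ' : (MvPolynomial σ K' ⧸ homIdeal K' x) →ₐ[K'] RatFunc N :=
    Ideal.Quotient.liftₐ _ ψ fun F hF => (hψ F).1 hF
  have hinj : Function.Injective ψ' := by
    rw [injective_iff_map_eq_zero]
    intro a ha
    obtain ⟨F, rfl⟩ := Ideal.Quotient.mk_surjective a
    exact Ideal.Quotient.eq_zero_iff_mem.2 ((hψ F).2 ha)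
  refine ⟨IsFractionRing.liftAlgHom (K := FractionRing (MvPolynomial σ K' ⧸ homIdeal K' x)) hinj,
    fun j => ?_⟩
  unfold genPt
  rw [IsFractionRing.liftAlgHom_apply, IsFractionRing.lift_algebraMap]
  change ψ (MvPolynomial.X j) = _
  change algebraMap (Polynomial N) (RatFunc N) (coneMap K' x (MvPolynomial.X j)) = _
  rw [coneMap, MvPolynomial.aeval_X, map_mul, RatFunc.algebraMap_X]
  rfl

open scoped Classical in
/-- The degree of the map on an integral subscheme. -/
noncomputable def mapDeg (K : Type) {K' σ : Type} [Field K] [Field K'] [Algebra K K'] (c : σ → K')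
    (s : ℕ) (P : Ideal (MvPolynomial σ K')) : ℕ :=
  if h : P.IsPrime then
    haveI := h
    monDeg K c s (genPt P)
  else 0

theorem mapDeg_homIdeal (x : σ → N) : mapDeg K c s (homIdeal K' x) = monDeg K c s x := by
  have hP := homIdeal_prime (K := K') x
  obtain ⟨φ, hφ⟩ := exists_emb_gen x hP
  rw [mapDeg, dif_pos hP]
  have h1 := monDeg_map (K := K) (c := c) (s := s) φ (genPt (homIdeal K' x))
  have h2 : (fun j => φ (genPt (homIdeal K' x) j)) =
      fun j => RatFunc.X * (IsScalarTower.toAlgHom K' N (RatFunc N)) (x j) := by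
    funext j
    rw [hφ j, mul_comm]
    rfl
  rw [h2] at h1
  rw [← h1]
  have h3 : (RatFunc.X : RatFunc N) ≠ 0 := RatFunc.X_ne_zero
  rw [monDeg_scale _ h3, monDeg_map]

end point2

section

variable {N : Type} [Field N] [Algebra K N] [Algebra K' N] [IsScalarTower K K' N]

/-- The inclusion of subfields over different base fields. -/
@[reducible]
def inclAlg {A : IntermediateField K N} {B : IntermediateField K' N}
    (h : A.toSubfield ≤ B.toSubfield) : Algebra A B :=
  RingHom.toAlgebra
    { toFun := fun a => ⟨a.1, h a.2⟩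
      map_one' := rfl
      map_zero' := rfl
      map_add' := fun _ _ => rfl
      map_mul' := fun _ _ => rfl }

theorem inclAlg_tower {A : IntermediateField K N} {B : IntermediateField K' N}
    (h : A.toSubfield ≤ B.toSubfield) :
    letI := inclAlg h
    IsScalarTower K A B := by
  letI := inclAlg h
  refine IsScalarTower.of_algebraMap_eq fun a => Subtype.ext ?_
  change _ = algebraMap K N a
  rw [IsScalarTower.algebraMap_apply K K' B]
  exact (IsScalarTower.algebraMap_apply K K' N a).symm

theorem inclAlg_tower' {A : IntermediateField K N} {B : IntermediateField K' N}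
    (h : A.toSubfield ≤ B.toSubfield) :
    letI := inclAlg h
    IsScalarTower A B N := by
  letI := inclAlg h
  exact IsScalarTower.of_algebraMap_eq fun a => rfl

theorem inclAlg_alg {A : IntermediateField K N} {B : IntermediateField K' N}
    (h : A.toSubfield ≤ B.toSubfield) (halg : ∀ b ∈ B, IsAlgebraic A b) :
    letI := inclAlg h
    Algebra.IsAlgebraic A B := by
  letI := inclAlg h
  haveI := inclAlg_tower' h
  constructor
  intro b
  have h1 := halg b b.2
  exact (isAlgebraic_algebraMap_iff (R := A) (S := B) (A := N)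
    (algebraMap B N).injective).1 h1

theorem trdeg_incl [Algebra.IsAlgebraic K K'] {A : IntermediateField K N}
    {B : IntermediateField K' N} (h : A.toSubfield ≤ B.toSubfield)
    (halg : ∀ b ∈ B, IsAlgebraic A b) : Algebra.trdeg K A = Algebra.trdeg K' B := by
  letI := inclAlg h
  haveI := inclAlg_tower h
  haveI := inclAlg_alg h halg
  have h1 := trdeg_of_isAlgebraic K A (T := B)
  have h2 := trdeg_add_eq K K' (A := B)
  have h3 : Algebra.trdeg K K' = 0 := trdeg_eq_zero
  rw [h3, zero_add] at h2
  rw [← h1, h2]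

theorem finrank_incl [Module.Finite K K'] {A : IntermediateField K N}
    {B : IntermediateField K' N} (h : A.toSubfield ≤ B.toSubfield)
    (halg : ∀ b ∈ B, IsAlgebraic A b) (hB : Algebra.EssFiniteType K' B) :
    0 < A.toSubfield.relfinrank B.toSubfield := by
  rw [Subfield.relfinrank_eq_finrank_of_le h]
  letI := inclAlg h
  haveI := inclAlg_tower h
  haveI := inclAlg_alg h halg
  haveI : Algebra.EssFiniteType K B := Algebra.EssFiniteType.comp K K' B
  haveI : Algebra.EssFiniteType A B := Algebra.EssFiniteType.of_comp K A B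
  haveI : Module.Finite A B := Algebra.finite_of_essFiniteType_of_isAlgebraic
  have h1 : 0 < Module.finrank A B := Module.finrank_pos
  exact h1

theorem monPush_alg [Algebra.IsAlgebraic K K'] (hs : 0 < s) (hc : ∀ j, c j ≠ 0) (x : σ → N) :
    ∀ b ∈ ratioField K' x, IsAlgebraic (ratioField K (monPush c s x)) b := by
  set A := ratioField K (monPush c s x) with hA
  have hK' : ∀ a : K', IsAlgebraic A (algebraMap K' N a) := by
    intro a
    have h1 : IsAlgebraic K a := Algebra.IsAlgebraic.isAlgebraic a
    have h2 : IsAlgebraic K (algebraMap K' N a) := h1.algebraMap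
    exact h2.tower_top A
  intro b hb
  unfold ratioField at hb
  induction hb using IntermediateField.adjoin_induction with
  | mem y hy =>
    obtain ⟨⟨i, j⟩, rfl⟩ := hy
    change IsAlgebraic A (x i / x j)
    refine IsAlgebraic.of_pow hs ?_
    have h1 : (x i / x j) ^ s = monPush c s x i / monPush c s x j *
        (algebraMap K' N (c j / c i)) := by
      unfold monPush
      rw [map_div₀, div_pow]
      have h2 : algebraMap K' N (c i) ≠ 0 := (map_ne_zero _).2 (hc i)
      have h3 : algebraMap K' N (c j) ≠ 0 := (map_ne_zero _).2 (hc j)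
      field_simp
    rw [h1]
    refine IsAlgebraic.mul ?_ (hK' _)
    exact isAlgebraic_algebraMap (R := A) (A := N) ⟨_, div_mem_ratioField (monPush c s x) i j⟩
  | algebraMap y => exact hK' y
  | add y z hy hz ihy ihz => exact ihy.add ihz
  | mul y z hy hz ihy ihz => exact ihy.mul ihz
  | inv y hy ihy => exact ihy.inv

theorem trdeg_monPush [Algebra.IsAlgebraic K K'] (hs : 0 < s) (hc : ∀ j, c j ≠ 0) (x : σ → N) :
    Algebra.trdeg K (ratioField K (monPush c s x)) = Algebra.trdeg K' (ratioField K' x) :=
  trdeg_incl (monField_le x) (monPush_alg hs hc x)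

theorem monDeg_pos [Finite σ] [Module.Finite K K'] (hs : 0 < s) (hc : ∀ j, c j ≠ 0) (x : σ → N) :
    0 < monDeg K c s x := by
  refine finrank_incl (monField_le x) (monPush_alg hs hc x) ?_
  unfold ratioField
  rw [IntermediateField.essFiniteType_iff]
  exact IntermediateField.fg_adjoin_of_finite (Set.finite_range _)

end

section

variable {N : Type} [Field N] [Algebra K N] [Algebra K' N] [IsScalarTower K K' N]

theorem resEquiv_symm_res (w : Place K' N) {a : N} (ha : a ∈ w.ring) :
    (resEquiv K w).symm (w.res a) = (under K w).res a := by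
  rw [← resEquiv_res (k₀ := K) w ha, AlgEquiv.symm_apply_apply]

/-- A place over `K` as a place over an algebraic extension of `K`. -/
def liftPl (K' : Type) [Field K'] [Algebra K K'] [Algebra K' N] [IsScalarTower K K' N]
    [Algebra.IsAlgebraic K K'] (v : Place K N) : Place K' N where
  val := v.val
  surj := v.surj
  triv := fun a ha => v.val_eq_one_of_algebraic
    ((Algebra.IsAlgebraic.isAlgebraic (R := K) a).algebraMap) ((map_ne_zero _).2 ha)

theorem under_liftPl [Algebra.IsAlgebraic K K'] (v : Place K N) :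
    under K (liftPl K' v) = v := rfl

theorem under_injective : Function.Injective (under K : Place K' N → Place K N) := by
  intro v w h
  have h1 := congrArg Place.val h
  exact Place.ext_val h1

/-- The specialisation of the image. -/
theorem SpecAt.monPush (hc : ∀ j, c j ≠ 0) {w : Place K' N} {x : σ → N} {y : σ → w.resField}
    (h : SpecAt w x y) :
    SpecAt (under K w) (monPush c s x) (fun j => (resEquiv K w).symm (monPush c s y j)) := by
  obtain ⟨hy, a, ha, h1⟩ := h
  refine ⟨fun h0 => ?_, a ^ s, pow_ne_zero s ha, fun j => ?_⟩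
  · refine monPush_ne_zero (s := s) hc hy (funext fun j => ?_)
    have h2 := congrFun h0 j
    exact (map_eq_zero_iff _ (resEquiv K w).symm.injective).1 h2
  · have h2 : a ^ s * Pool.Agent.HC.monPush c s x j = algebraMap K' N (c j) * (a * x j) ^ s := by
      unfold Pool.Agent.HC.monPush
      ring
    have h3 : algebraMap K' N (c j) ∈ w.ring := w.ring.algebraMap_mem _
    have h4 : algebraMap K' N (c j) * (a * x j) ^ s ∈ w.ring :=
      mul_mem h3 (pow_mem (h1 j).1 s)
    rw [h2]
    refine ⟨h4, ?_⟩
    rw [← resEquiv_symm_res w h4, w.res_mul h3 (pow_mem (h1 j).1 s), w.res_pow (h1 j).1,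
      ← (h1 j).2, w.res_algebraMap]
    rfl

end

end Pool.Agent.HC
end

/- Helper16.DP.HC.MonRel -/
section
set_option autoImplicit false
set_option linter.unusedSectionVars false
set_option linter.style.haveILetI false

/-!
Project HC (MP_0b9e0b_ag): the pushforward under `x ↦ (c_j x_j ^ s)` respects rational equivalence.
-/

namespace Pool.Agent.HC

open Pool.Agent.Helper16

variable {K K' σ : Type} [Field K] [Field K'] [Algebra K K'] {s : ℕ} {c : σ → K'}

/-- The pushforward of cycles. -/
noncomputable def monMap (K : Type) {K' σ : Type} [Field K] [Field K'] [Algebra K K'] (c : σ → K')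
    (s : ℕ) : (Ideal (MvPolynomial σ K') →₀ ℚ) →ₗ[ℚ] (Ideal (MvPolynomial σ K) →₀ ℚ) :=
  Finsupp.linearCombination ℚ
    (fun P => Finsupp.single (P.comap (monHom K c s)) (mapDeg K c s P : ℚ))

theorem monMap_single (P : Ideal (MvPolynomial σ K')) (a : ℚ) :
    monMap K c s (Finsupp.single P a) =
      Finsupp.single (P.comap (monHom K c s)) (a * (mapDeg K c s P : ℚ)) := by
  rw [monMap, Finsupp.linearCombination_single, Finsupp.smul_single, smul_eq_mul]

/-- The points of the first variety are mapped to points of the second. -/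
def MapsTo (c : σ → K') (s : ℕ) (I : Set (MvPolynomial σ K')) (J : Set (MvPolynomial σ K)) :
    Prop :=
  ∀ (N : Type) [Field N] [Algebra K N] [Algebra K' N] [IsScalarTower K K' N] (x : σ → N),
    IsPt I x → IsPt J (monPush c s x)

section rel

variable {I : Set (MvPolynomial σ K')} {J : Set (MvPolynomial σ K)} {r : ℕ}

theorem monMap_rat [Module.Finite K K'] (hs : 0 < s) (hc : ∀ j, c j ≠ 0) (hIJ : MapsTo c s I J) :
    rat I r ≤ (rat J r).comap (monMap K c s) := by
  classical
  unfold rat
  rw [Submodule.span_le]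
  rintro z ⟨N, _, _, x, f, S, y, h1, h2, h3, h4, h5, h6, rfl⟩
  refine Submodule.subset_span ?_
  letI : Algebra K N := ((algebraMap K' N).comp (algebraMap K K')).toAlgebra
  haveI : IsScalarTower K K' N := IsScalarTower.of_algebraMap_eq fun _ => rfl
  have htr : Algebra.trdeg K N = r + 1 := by
    have h7 := trdeg_add_eq K K' (A := N)
    have h8 : Algebra.trdeg K K' = 0 := trdeg_eq_zero
    rw [h8, zero_add] at h7
    rw [← h7, h2]
  have hess : Algebra.EssFiniteType K N := Algebra.EssFiniteType.comp K K' N
  refine ⟨N, inferInstance, inferInstance, monPush c s x, f, S.image (under K),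
    fun v j => (resEquiv K (liftPl K' v)).symm (monPush c s (y (liftPl K' v)) j),
    hess, htr, hIJ N x h3, h4, fun v => (h5 (liftPl K' v)).monPush hc, fun v => ?_, ?_⟩
  · have h7 : v ∈ S.image (under K) ↔ liftPl K' v ∈ S := by
      rw [Finset.mem_image]
      constructor
      · rintro ⟨w, hw, rfl⟩
        exact hw
      · intro h
        exact ⟨_, h, rfl⟩
    rw [h7, h6]
    have h8 : Algebra.trdeg K (ratioField K (fun j =>
        (resEquiv K (liftPl K' v)).symm (monPush c s (y (liftPl K' v)) j))) =
        Algebra.trdeg K' (ratioField K' (y (liftPl K' v))) := by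
      rw [← trdeg_monPush (K := K) hs hc (y (liftPl K' v))]
      exact trdeg_ratioField_map ((resEquiv K (liftPl K' v)).symm :
        (liftPl K' v).resField →ₐ[K] (under K (liftPl K' v)).resField) _
    have h9 : (liftPl K' v).ord f = v.ord f := rfl
    rw [h9]
    refine and_congr_right fun _ => ?_
    rw [← h8]
    rfl
  · rw [map_sum, Finset.sum_image (fun _ _ _ _ h => under_injective h)]
    refine Finset.sum_congr rfl fun w _ => ?_
    rw [monMap_single]
    have h7 : homIdeal K (fun j => (resEquiv K w).symm (monPush c s (y w) j)) =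
        (homIdeal K' (y w)).comap (monHom K c s) := by
      rw [← homIdeal_monPush hs]
      exact homIdeal_map ((resEquiv K w).symm :
        w.resField →ₐ[K] (under K w).resField) _
    have h8 : Module.finrank (ratioField K
        (fun j => (resEquiv K w).symm (monPush c s (y w) j))) (under K w).resField =
        mapDeg K c s (homIdeal K' (y w)) * Module.finrank (ratioField K' (y w)) w.resField := by
      have e1 : (fun j => resEquiv K w ((resEquiv K w).symm (monPush c s (y w) j))) =
          monPush c s (y w) := funext fun j => AlgEquiv.apply_symm_apply _ _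
      have e2 := finrank_resEquiv (k₀ := K) w
        (fun j => (resEquiv K w).symm (monPush c s (y w) j))
      rw [e1] at e2
      rw [mapDeg_homIdeal, monDeg_mul]
      exact e2.symm
    have h9 : (under K w).ord f = w.ord f := rfl
    have h10 : Finsupp.single (homIdeal K (fun j => (resEquiv K w).symm (monPush c s (y w) j)))
        (((under K w).ord f * Module.finrank (ratioField K
        (fun j => (resEquiv K w).symm (monPush c s (y w) j))) (under K w).resField : ℤ) : ℚ) =
        Finsupp.single ((homIdeal K' (y w)).comap (monHom K c s))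
          (((w.ord f * Module.finrank (ratioField K' (y w)) w.resField : ℤ) : ℚ) *
            (mapDeg K c s (homIdeal K' (y w)) : ℚ)) := by
      rw [h7, h8, h9]
      congr 1
      push_cast
      ring
    exact h10.symm

end rel

end Pool.Agent.HC
end

/- Helper16.DP.HC.MonGen -/
section
set_option autoImplicit false
set_option linter.unusedSectionVars false
set_option linter.style.haveILetI false

/-!
Project HC (MP_0b9e0b_ag): generators of the Chow groups of the image under
`x ↦ (c_j x_j ^ s)`.
-/

namespace Pool.Agent.HC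

open Pool.Agent.Helper16

variable {K K' σ : Type} [Field K] [Field K'] [Algebra K K'] {s : ℕ} {c : σ → K'}

/-- The points of the second variety come only from points of the first. -/
def Reflects (c : σ → K') (s : ℕ) (I : Set (MvPolynomial σ K')) (J : Set (MvPolynomial σ K)) :
    Prop :=
  ∀ (N : Type) [Field N] [Algebra K N] [Algebra K' N] [IsScalarTower K K' N] (x : σ → N),
    IsPt J (monPush c s x) → IsPt I x

variable {I : Set (MvPolynomial σ K')} {J : Set (MvPolynomial σ K)} {r : ℕ}

/-- The image of an integral subscheme. -/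
theorem IsSub.comap_mon [Algebra.IsAlgebraic K K'] (hs : 0 < s) (hc : ∀ j, c j ≠ 0)
    (hIJ : MapsTo c s I J) (hJ : ∀ F ∈ J, ∃ d, F.IsHomogeneous d)
    {P : Ideal (MvPolynomial σ K')} (hP : IsSub I r P) : IsSub J r (P.comap (monHom K c s)) := by
  obtain ⟨N, _, _, x, hx, rfl⟩ := exists_pt hP
  letI : Algebra K N := ((algebraMap K' N).comp (algebraMap K K')).toAlgebra
  haveI : IsScalarTower K K' N := IsScalarTower.of_algebraMap_eq fun _ => rfl
  rw [← homIdeal_monPush hs]
  refine isSub_of_pt hJ (hIJ N x hx) ?_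
  rw [trdeg_monPush hs hc]
  have h3 := hP.dim
  rw [trdeg_cone hx.1] at h3
  exact Cardinal.add_one_inj.1 h3

/-- Every integral subscheme of the target is an image. -/
theorem exists_comap_mon [Algebra.IsAlgebraic K K'] (hs : 0 < s) (hc : ∀ j, c j ≠ 0)
    (hIJ : Reflects c s I J) (hI : ∀ F ∈ I, ∃ d, F.IsHomogeneous d)
    {Q : Ideal (MvPolynomial σ K)} (hQ : IsSub J r Q) :
    ∃ P, IsSub I r P ∧ P.comap (monHom K c s) = Q := by
  obtain ⟨N, _, _, y, hy, rfl⟩ := exists_pt hQ
  let Ω := AlgebraicClosure N
  let e : K' →ₐ[K] Ω := IsAlgClosed.lift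
  letI : Algebra K' Ω := e.toRingHom.toAlgebra
  haveI : IsScalarTower K K' Ω := IsScalarTower.of_algebraMap_eq fun a => (e.commutes a).symm
  have h1 : ∀ j, ∃ z : Ω, z ^ s = algebraMap N Ω (y j) / algebraMap K' Ω (c j) := fun j =>
    IsAlgClosed.exists_pow_nat_eq _ hs
  choose x hx using h1
  let φ : N →ₐ[K] Ω := IsScalarTower.toAlgHom K N Ω
  have h2 : monPush c s x = fun j => φ (y j) := by
    funext j
    unfold monPush
    rw [hx j, mul_div_cancel₀ _ ((map_ne_zero _).2 (hc j))]
    rfl
  have h3 : IsPt J (monPush c s x) := by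
    rw [h2]
    refine ⟨fun h0 => hy.1 (funext fun j => ?_), fun F hF => ?_⟩
    · have := congrFun h0 j
      exact (map_eq_zero_iff _ φ.injective).1 this
    · have h4 : MvPolynomial.aeval (fun j => φ (y j)) F = φ (MvPolynomial.aeval y F) := by
        rw [← MvPolynomial.comp_aeval_apply]
      rw [h4, hy.2 F hF, map_zero]
  have h5 := hIJ Ω x h3
  refine ⟨homIdeal K' x, isSub_of_pt hI h5 ?_, ?_⟩
  · rw [← trdeg_monPush (K := K) hs hc, h2, trdeg_ratioField_map φ y]
    have h6 := hQ.dim
    rw [trdeg_cone hy.1] at h6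
    exact Cardinal.add_one_inj.1 h6
  · rw [← homIdeal_monPush hs, h2, homIdeal_map φ y]

theorem mapDeg_pos [Finite σ] [Module.Finite K K'] (hs : 0 < s) (hc : ∀ j, c j ≠ 0)
    {P : Ideal (MvPolynomial σ K')} (hP : IsSub I r P) : 0 < mapDeg K c s P := by
  obtain ⟨N, _, _, x, hx, rfl⟩ := exists_pt hP
  letI : Algebra K N := ((algebraMap K' N).comp (algebraMap K K')).toAlgebra
  haveI : IsScalarTower K K' N := IsScalarTower.of_algebraMap_eq fun _ => rfl
  rw [mapDeg_homIdeal]
  exact monDeg_pos hs hc x

/-- Generation is transported by the map `x ↦ (c_j x_j ^ s)`. -/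
theorem GenBy.mon [Finite σ] [Module.Finite K K'] (hs : 0 < s) (hc : ∀ j, c j ≠ 0)
    (hIJ : MapsTo c s I J) (hJI : Reflects c s I J) (hI : ∀ F ∈ I, ∃ d, F.IsHomogeneous d)
    (hJ : ∀ F ∈ J, ∃ d, F.IsHomogeneous d) {L : MvPolynomial σ K} {L' : MvPolynomial σ K'}
    (hL : ∀ P : Ideal (MvPolynomial σ K'), L' ∈ P → monHom K c s L ∈ P) {n : ℕ}
    (h : GenBy I r L' n) : GenBy J r L n := by
  classical
  obtain ⟨G, hGc, hG, hGW⟩ := h
  refine ⟨G.image (Ideal.comap (monHom K c s)), Finset.card_image_le.trans hGc, fun P hP => ?_,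
    fun W hW hLW hGW' Q hQ => ?_⟩
  · obtain ⟨P', hP', rfl⟩ := Finset.mem_image.1 hP
    exact (hG P' hP').comap_mon hs hc hIJ hJ
  · obtain ⟨P, hP, rfl⟩ := exists_comap_mon hs hc hJI hI hQ
    have key : ∀ (P' : Ideal (MvPolynomial σ K')),
        Finsupp.single (P'.comap (monHom K c s)) (1 : ℚ) ∈ W →
        Finsupp.single P' (1 : ℚ) ∈ W.comap (monMap K c s) := by
      intro P' hP'
      rw [Submodule.mem_comap, monMap_single, one_mul]
      have h1 := W.smul_mem (mapDeg K c s P' : ℚ) hP'
      rwa [Finsupp.smul_single, smul_eq_mul, mul_one] at h1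
    have h2 := hGW (W.comap (monMap K c s)) ((monMap_rat hs hc hIJ).trans
      (Submodule.comap_mono hW)) (fun Q' hQ' hLQ' => key Q' (hLW _
        (hQ'.comap_mon hs hc hIJ hJ) (hL Q' hLQ'))) (fun P' hP' => key P' (hGW' _
        (Finset.mem_image_of_mem _ hP'))) P hP
    rw [Submodule.mem_comap, monMap_single, one_mul] at h2
    have h3 : (mapDeg K c s P : ℚ) ≠ 0 := by
      exact_mod_cast (mapDeg_pos hs hc hP).ne'
    have h4 := W.smul_mem (mapDeg K c s P : ℚ)⁻¹ h2
    rwa [Finsupp.smul_single, smul_eq_mul, inv_mul_cancel₀ h3] at h4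

end Pool.Agent.HC
end

/- Helper16.DP.HC.TransRel -/
section
set_option autoImplicit false

/-!
Project HC (MP_0b9e0b_ag), module P1: the map from cycles on the projective space over `k` to
cycles on `X = {F + t G = 0}` over `K = k(t)` respects rational equivalence, modulo the cycles on
which `G` vanishes.
-/

namespace Pool.Agent.HC

open Pool.Agent.Helper16

variable {k σ : Type} [Field k] {F G : MvPolynomial σ k} {m : ℕ}

/-- The value of `- F / G` at a specialised point. -/
theorem res_quot {K N : Type} [Field K] [Algebra k K] [Field N] [Algebra k N] [Algebra K N]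
    [IsScalarTower k K N] (hF : F.IsHomogeneous m) (hG : G.IsHomogeneous m) (w : Place K N)
    {x : σ → N} {y : σ → w.resField} (h : SpecAt w x y) (hGy : MvPolynomial.aeval y G ≠ 0) :
    MvPolynomial.aeval x G ≠ 0 ∧
      - MvPolynomial.aeval x F / MvPolynomial.aeval x G ∈ w.ring ∧
      w.res (- MvPolynomial.aeval x F / MvPolynomial.aeval x G) =
        - MvPolynomial.aeval y F / MvPolynomial.aeval y G := by
  obtain ⟨h0, c, hc, h⟩ := h
  have hy : y = fun j => w.res (c * x j) := funext fun j => (h j).2
  have h1 : ∀ H : MvPolynomial σ k, H.IsHomogeneous m → c ^ m * MvPolynomial.aeval x H ∈ w.ring ∧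
      MvPolynomial.aeval y H = w.res (c ^ m * MvPolynomial.aeval x H) := by
    intro H hH
    have h2 : MvPolynomial.aeval (fun j => c * x j) H =
        MvPolynomial.aeval (fun j => c * x j) (MvPolynomial.map (algebraMap k K) H) := by
      rw [MvPolynomial.aeval_map_algebraMap]
    have h3 : MvPolynomial.aeval y H =
        MvPolynomial.aeval y (MvPolynomial.map (algebraMap k K) H) := by
      rw [MvPolynomial.aeval_map_algebraMap]
    have h4 := aeval_res w (fun j => (h j).1) (MvPolynomial.map (algebraMap k K) H)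
    rw [← h2, aeval_scale x c hH, ← hy, ← h3] at h4
    exact ⟨h4.1, h4.2.symm⟩
  have h2 := h1 G hG
  have h3 := h1 F hF
  have h4 : w.val (c ^ m * MvPolynomial.aeval x G) = 1 := by
    rw [← res_ne_zero_iff w h2.1, ← h2.2]
    exact hGy
  have h5 : MvPolynomial.aeval x G ≠ 0 := by
    intro h5
    rw [h5, mul_zero, map_zero] at h4
    exact zero_ne_one h4
  have h6 : - MvPolynomial.aeval x F / MvPolynomial.aeval x G =
      (- (c ^ m * MvPolynomial.aeval x F)) / (c ^ m * MvPolynomial.aeval x G) := by
    have := pow_ne_zero m hc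
    field_simp
  have h7 := res_div w (neg_mem h3.1) h4
  rw [h6]
  refine ⟨h5, h7.1, ?_⟩
  rw [h7.2, w.res_neg h3.1, ← h3.2, ← h2.2]

theorem PhiRel.transc (hF : F.IsHomogeneous m) (hG : G.IsHomogeneous m) {κ : Type} [Field κ]
    [Algebra k κ] {y : σ → κ} {Q : Ideal (MvPolynomial σ (RatFunc k))}
    (h : PhiRel F G (homIdeal k y) Q) :
    MvPolynomial.aeval y G ≠ 0 ∧
      Transcendental k (- MvPolynomial.aeval y F / MvPolynomial.aeval y G) := by
  have h0 := h.notMem hG
  rw [mem_homIdeal_form y hG] at h0
  refine ⟨h0, ?_⟩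
  rw [transcendental_iff]
  intro p hp
  obtain ⟨N, _, _, _, _, x, h1, h2, h3, -⟩ := h
  have h4 : MvPolynomial.aeval y F + (- MvPolynomial.aeval y F / MvPolynomial.aeval y G) *
      MvPolynomial.aeval y G = 0 := by
    field_simp
    ring
  have h5 := aeval_hpol h4 (le_refl p.natDegree)
  rw [hp, mul_zero, ← mem_homIdeal_form y (hpol_hom hF hG _ p), ← h1,
    mem_homIdeal_form x (hpol_hom hF hG _ p)] at h5
  rw [aeval_linQ] at h3
  rw [aeval_hpol h3 (le_refl p.natDegree)] at h5
  have h6 := (mul_eq_zero.1 h5).resolve_left (pow_ne_zero _ h2)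
  exact (transcendental_iff.1 (transcendental_X (k := k) N)) p h6

section field

variable {N : Type} [Field N] [Algebra k N] [Algebra (RatFunc k) N] [IsScalarTower k (RatFunc k) N]

/-- A place over `k` at which `t` has a transcendental residue is a place over `k(t)`. -/
theorem exists_under (w : Place k N) (h1 : tv k N ∈ w.ring)
    (h2 : Transcendental k (w.res (tv k N))) : ∃ v : Place (RatFunc k) N, under k v = w := by
  have h3 : ∀ p : Polynomial k, p ≠ 0 → w.val (Polynomial.aeval (tv k N) p) = 1 := by
    intro p hp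
    have h4 := w.res_aeval h1 p
    rw [← res_ne_zero_iff w h4.1, h4.2]
    intro h5
    exact hp ((transcendental_iff.1 h2) p h5)
  refine ⟨⟨w.val, w.surj, ?_⟩, rfl⟩
  intro a ha
  obtain ⟨p, q, hq, rfl⟩ := IsFractionRing.div_surjective (A := Polynomial k) a
  have hq0 : q ≠ 0 := nonZeroDivisors.ne_zero hq
  have hp0 : p ≠ 0 := by
    rintro rfl
    rw [map_zero, zero_div] at ha
    exact ha rfl
  rw [map_div₀, map_div₀, algebraMap_poly, algebraMap_poly]
  have h5 := h3 p hp0
  have h6 := h3 q hq0
  unfold tv at h5 h6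
  rw [h5, h6, div_one]

end field

/-- The span of the integral subschemes of `X` on which `G` vanishes. -/
noncomputable def spanG (F G : MvPolynomial σ k) (r : ℕ) :
    Submodule ℚ (Ideal (MvPolynomial σ (RatFunc k)) →₀ ℚ) :=
  Submodule.span ℚ {z | ∃ Q, IsSub {linQ F G} r Q ∧
    MvPolynomial.map (algebraMap k (RatFunc k)) G ∈ Q ∧ z = Finsupp.single Q 1}

/-- The finite set of places of a relation. -/
theorem exists_finset_rel {K N : Type} [Field K] [Field N] [Algebra K N] [Finite σ] {r : ℕ}
    (hN : Algebra.EssFiniteType K N) (htr : Algebra.trdeg K N = r + 1) (x : σ → N) (f : N)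
    (y : (v : Place K N) → σ → v.resField) (hy : ∀ v, SpecAt v x (y v)) :
    ∃ S : Finset (Place K N), ∀ v, v ∈ S ↔
      v.ord f ≠ 0 ∧ Algebra.trdeg K (ratioField K (y v)) = r := by
  refine ⟨(finite_places hN htr x f).toFinset, fun v => ?_⟩
  rw [Set.Finite.mem_toFinset]
  refine and_congr_right fun _ => ?_
  constructor
  · rintro ⟨y', h1, h2⟩
    rwa [← (hy v).ratioField_eq h1]
  · intro h
    exact ⟨y v, hy v, h⟩

/-- The transport of a relation for which `t = - F(x) / G(x)`. -/
theorem phi_rel_aux [Finite σ] (hF : F.IsHomogeneous m) (hG : G.IsHomogeneous m) {r : ℕ}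
    {N : Type} [Field N] [Algebra k N] [Algebra (RatFunc k) N] [IsScalarTower k (RatFunc k) N]
    (hN : Algebra.EssFiniteType k N) (htr : Algebra.trdeg k N = (r + 1 : ℕ) + 1) {x : σ → N}
    {f : N} (hx : x ≠ 0) (hf : f ≠ 0) (hGx : MvPolynomial.aeval x G ≠ 0)
    (hxt : MvPolynomial.aeval x (linQ F G) = 0) (S : Finset (Place k N))
    (y : (w : Place k N) → σ → w.resField) (hy : ∀ w, SpecAt w x (y w))
    (hS : ∀ w, w ∈ S ↔ w.ord f ≠ 0 ∧ Algebra.trdeg k (ratioField k (y w)) = (r + 1 : ℕ)) :
    phi F G (∑ w ∈ S, Finsupp.single (homIdeal k (y w))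
      ((w.ord f * Module.finrank (ratioField k (y w)) w.resField : ℤ) : ℚ)) ∈
      rat {linQ F G} r ⊔ spanG F G r := by
  classical
  let K := RatFunc k
  let y' : (v : Place K N) → σ → v.resField := fun v j => resEquiv k v (y (under k v) j)
  have hy' : ∀ v, SpecAt v x (y' v) := fun v => specAt_resEquiv v (hy (under k v))
  have hNK : Algebra.EssFiniteType K N := Algebra.EssFiniteType.of_comp k K N
  have htrK : Algebra.trdeg K N = r + 1 := by
    have h1 := trdeg_add_eq k K (A := N)
    rw [trdeg_ratFunc, htr, add_comm] at h1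
    have h2 := Cardinal.add_one_inj.1 h1
    rw [h2]
    push_cast
    rfl
  obtain ⟨SK, hSK⟩ := exists_finset_rel hNK htrK x f y' hy'
  have hpt : IsPt {linQ F G} x := ⟨hx, fun P hP => by
    rw [Set.mem_singleton_iff.1 hP]; exact hxt⟩
  have hI : ∀ P ∈ ({linQ F G} : Set (MvPolynomial σ K)), ∃ d, P.IsHomogeneous d := fun P hP =>
    ⟨m, by rw [Set.mem_singleton_iff.1 hP]; exact linQ_hom hF hG⟩
  have hpt' : ∀ v : Place K N, IsPt {linQ F G} (y' v) := fun v => (hy' v).isPt hI hpt
  have hyt : ∀ v : Place K N, MvPolynomial.aeval (y' v) (linQ F G) = 0 := fun v =>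
    (hpt' v).2 _ rfl
  have hhom : ∀ v : Place K N, homIdeal k (y' v) = homIdeal k (y (under k v)) := fun v =>
    homIdeal_map (resEquiv k v : (under k v).resField →ₐ[k] v.resField) (y (under k v))
  have htrk : ∀ v : Place K N, Algebra.trdeg k (ratioField k (y' v)) =
      Algebra.trdeg k (ratioField k (y (under k v))) := fun v =>
    trdeg_ratioField_map (resEquiv k v : (under k v).resField →ₐ[k] v.resField) (y (under k v))
  have hGv : ∀ v : Place K N, MvPolynomial.aeval (y' v) G ≠ 0 ↔
      MvPolynomial.aeval (y (under k v)) G ≠ 0 := by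
    intro v
    rw [Ne, ← mem_homIdeal_form (y' v) hG, hhom, mem_homIdeal_form _ hG]
  have hdim : ∀ v : Place K N, MvPolynomial.aeval (y' v) G ≠ 0 →
      (Algebra.trdeg K (ratioField K (y' v)) = r ↔
        Algebra.trdeg k (ratioField k (y (under k v))) = (r + 1 : ℕ)) := by
    intro v hv
    rw [← htrk v, ← trdeg_ratioField hF hG (hpt' v).1 (hyt v) hv]
    push_cast
    exact Cardinal.add_one_inj.symm
  have hphi : ∀ v : Place K N, MvPolynomial.aeval (y' v) G ≠ 0 →
      phiI F G (homIdeal k (y (under k v))) = Finsupp.single (homIdeal K (y' v)) 1 := by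
    intro v hv
    refine phiI_eq hF hG ?_
    exact ⟨v.resField, inferInstance, inferInstance, inferInstance, inferInstance, y' v, hhom v,
      hv, hyt v, rfl⟩
  let c : Place k N → ℚ := fun w =>
    ((w.ord f * Module.finrank (ratioField k (y w)) w.resField : ℤ) : ℚ)
  let c' : Place K N → ℚ := fun v =>
    ((v.ord f * Module.finrank (ratioField K (y' v)) v.resField : ℤ) : ℚ)
  have hc : ∀ v : Place K N, MvPolynomial.aeval (y' v) G ≠ 0 → c (under k v) = c' v := by
    intro v hv
    change ((_ : ℤ) : ℚ) = ((_ : ℤ) : ℚ)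
    rw [finrank_ratioField hF hG (hpt' v).1 (hyt v) hv, finrank_resEquiv, under_ord]
  set S' := SK.filter fun v => MvPolynomial.aeval (y' v) G ≠ 0 with hS'
  have key : phi F G (∑ w ∈ S, Finsupp.single (homIdeal k (y w)) (c w)) =
      ∑ v ∈ S', Finsupp.single (homIdeal K (y' v)) (c' v) := by
    have hsub : S'.image (under k) ⊆ S := by
      intro w hw
      rw [Finset.mem_image] at hw
      obtain ⟨v, hv, rfl⟩ := hw
      rw [hS', Finset.mem_filter, hSK] at hv
      rw [hS]
      exact ⟨hv.1.1, (hdim v hv.2).1 hv.1.2⟩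
    rw [map_sum]
    rw [← Finset.sum_subset hsub]
    · rw [Finset.sum_image]
      · refine Finset.sum_congr rfl fun v hv => ?_
        rw [hS', Finset.mem_filter] at hv
        rw [phi_single, hphi v hv.2, hc v hv.2, Finsupp.smul_single, smul_eq_mul, mul_one]
      · intro v _ v' _ h
        exact Place.ext_val (congrArg (fun w : Place k N => w.val) h)
    · intro w hw hw'
      rw [phi_single, phiI_zero, smul_zero]
      rintro ⟨Q, hQ⟩
      have h1 := hQ.transc hF hG
      have h2 := res_quot (K := k) hF hG w (hy w) h1.1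
      have h3 : tv k N = - MvPolynomial.aeval x F / MvPolynomial.aeval x G := by
        rw [aeval_linQ] at hxt
        unfold tv
        rw [eq_div_iff hGx]
        linear_combination hxt
      rw [← h3] at h2
      obtain ⟨v, rfl⟩ := exists_under w h2.2.1 (by rw [h2.2.2]; exact h1.2)
      apply hw'
      rw [Finset.mem_image]
      refine ⟨v, ?_, rfl⟩
      rw [hS', Finset.mem_filter, hSK]
      rw [hS] at hw
      have h4 := (hGv v).2 h1.1
      exact ⟨⟨hw.1, (hdim v h4).2 hw.2⟩, h4⟩
  have hrel : ∑ v ∈ SK, Finsupp.single (homIdeal K (y' v)) (c' v) ∈ rat {linQ F G} r :=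
    Submodule.subset_span ⟨N, inferInstance, inferInstance, x, f, SK, y', hNK, htrK, hpt, hf, hy',
      hSK, rfl⟩
  have hsplit := Finset.sum_filter_add_sum_filter_not SK
    (fun v => MvPolynomial.aeval (y' v) G ≠ 0)
    (fun v => Finsupp.single (homIdeal K (y' v)) (c' v))
  change phi F G (∑ w ∈ S, Finsupp.single (homIdeal k (y w)) (c w)) ∈ _
  rw [key, eq_sub_of_add_eq hsplit]
  refine sub_mem (Submodule.mem_sup_left hrel) (Submodule.mem_sup_right ?_)
  refine sum_mem fun v hv => ?_
  rw [Finset.mem_filter, hSK, not_not] at hv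
  have h5 : Finsupp.single (homIdeal K (y' v)) (c' v) =
      c' v • Finsupp.single (homIdeal K (y' v)) (1 : ℚ) := by
    rw [Finsupp.smul_single, smul_eq_mul, mul_one]
  rw [h5]
  refine Submodule.smul_mem _ _ (Submodule.subset_span ⟨_, isSub_of_pt hI (hpt' v) hv.1.2, ?_, rfl⟩)
  rw [mem_homIdeal_form _ (hG.map _), MvPolynomial.aeval_map_algebraMap]
  exact hv.2

/-- The image of a relation between cycles of dimension `r + 1` on the projective space over `k`
is a relation between cycles of dimension `r` on `X`, modulo the cycles on which `G` vanishes. -/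
theorem phi_rel [Finite σ] (hF : F.IsHomogeneous m) (hG : G.IsHomogeneous m) {r : ℕ}
    {z : Ideal (MvPolynomial σ k) →₀ ℚ} (hz : z ∈ rat (∅ : Set (MvPolynomial σ k)) (r + 1)) :
    phi F G z ∈ rat {linQ F G} r ⊔ spanG F G r := by
  classical
  unfold rat at hz
  induction hz using Submodule.span_induction with
  | zero => rw [map_zero]; exact zero_mem _
  | add z z' _ _ h h' => rw [map_add]; exact add_mem h h'
  | smul a z _ h => rw [map_smul]; exact Submodule.smul_mem _ _ h
  | mem z hz =>
    obtain ⟨N, _, _, x, f, S, y, hN, htr, hx, hf, hy, hS, rfl⟩ := hz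
    by_cases hcase : MvPolynomial.aeval x G ≠ 0 ∧
        Transcendental k (- MvPolynomial.aeval x F / MvPolynomial.aeval x G)
    · let τ : N := - MvPolynomial.aeval x F / MvPolynomial.aeval x G
      have hinj : Function.Injective (Polynomial.aeval τ : Polynomial k →ₐ[k] N) :=
        transcendental_iff_injective.1 hcase.2
      let θ : RatFunc k →ₐ[k] N := IsFractionRing.liftAlgHom (g := Polynomial.aeval τ) hinj
      let _ : Algebra (RatFunc k) N := θ.toRingHom.toAlgebra
      have : IsScalarTower k (RatFunc k) N := IsScalarTower.of_algebraMap_eq fun a =>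
        (θ.commutes a).symm
      have ht : algebraMap (RatFunc k) N RatFunc.X = τ := by
        change θ RatFunc.X = τ
        rw [← RatFunc.algebraMap_X, IsFractionRing.liftAlgHom_apply, IsFractionRing.lift_algebraMap]
        exact Polynomial.aeval_X τ
      refine phi_rel_aux hF hG hN htr hx.1 hf hcase.1 ?_ S y hy hS
      rw [aeval_linQ, ht]
      have := hcase.1
      change _ + - MvPolynomial.aeval x F / MvPolynomial.aeval x G * _ = 0
      field_simp
      ring
    · have h0 : phi F G (∑ w ∈ S, Finsupp.single (homIdeal k (y w))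
          ((w.ord f * Module.finrank (ratioField k (y w)) w.resField : ℤ) : ℚ)) = 0 := by
        rw [map_sum]
        refine Finset.sum_eq_zero fun w hw => ?_
        rw [phi_single, phiI_zero, smul_zero]
        rintro ⟨Q, hQ⟩
        have h1 := hQ.transc hF hG
        have h2 := res_quot (K := k) hF hG w (hy w) h1.1
        refine hcase ⟨h2.1, ?_⟩
        rw [transcendental_iff]
        intro p hp
        have h3 := w.res_aeval h2.2.1 p
        rw [hp, w.res_zero, h2.2.2] at h3
        exact (transcendental_iff.1 h1.2) p h3.2.symm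
      rw [h0]
      exact zero_mem _

end Pool.Agent.HC
end

/- Helper16.DP.HC.GaussF -/
section
set_option autoImplicit false
set_option linter.unusedSectionVars false
set_option linter.style.haveILetI false

/-!
Project HC (MP_0b9e0b_ag), module P4: degrees of algebraic extensions do not change if a variable
is adjoined.
-/

namespace Pool.Agent.HC

open Polynomial

/-- Common denominators. -/
theorem exists_common {F W : Type} [Field F] [Field W] [Algebra F W] (τ : W) {ι : Type}
    (s : Finset ι) (g : ι → W) (hg : ∀ i, g i ∈ IntermediateField.adjoin F {τ}) :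
    ∃ (D : F[X]) (P : ι → F[X]), aeval τ D ≠ 0 ∧ ∀ i ∈ s, aeval τ D * g i = aeval τ (P i) := by
  classical
  have h1 : ∀ i, ∃ r t : F[X], aeval τ t ≠ 0 ∧ g i = aeval τ r / aeval τ t := by
    intro i
    obtain ⟨r, t, h⟩ := (IntermediateField.mem_adjoin_simple_iff F (g i)).1 (hg i)
    by_cases ht : aeval τ t = 0
    · refine ⟨0, 1, ?_, ?_⟩
      · rw [map_one]; exact one_ne_zero
      · rw [h, ht, div_zero, map_zero, zero_div]
    · exact ⟨r, t, ht, h⟩
  choose r t ht hrt using h1
  refine ⟨∏ i ∈ s, t i, fun i => r i * ∏ j ∈ s.erase i, t j, ?_, fun i hi => ?_⟩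
  · rw [map_prod]
    exact Finset.prod_ne_zero_iff.2 fun i _ => ht i
  · rw [map_prod, ← Finset.mul_prod_erase s _ hi, map_mul, map_prod, hrt i]
    have := ht i
    (clear * - this; field_simp)

theorem finrank_tau {k W : Type} [Field k] [Field W] [Algebra k W] (F E : IntermediateField k W)
    (h : F ≤ E) (halg : ∀ a ∈ E, IsAlgebraic F a) (τ : W) (hT : Transcendental E τ)
    (htop : IntermediateField.adjoin E {τ} = ⊤) :
    Module.finrank (IntermediateField.adjoin F {τ}) W =
      Module.finrank F (IntermediateField.extendScalars h) := by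
  classical
  set A : IntermediateField F W := IntermediateField.extendScalars h with hA
  set L : IntermediateField F W := IntermediateField.adjoin F {τ} with hL
  haveI hAalg : Algebra.IsAlgebraic F A := by
    constructor
    rintro ⟨a, ha⟩
    have h1 : IsAlgebraic F (algebraMap A W ⟨a, ha⟩) := halg a ha
    exact (isAlgebraic_algebraMap_iff (algebraMap A W).injective).1 h1
  have hLD : A.LinearDisjoint L := by
    let b := Module.Basis.ofVectorSpace F A
    refine IntermediateField.LinearDisjoint.of_basis_left b ?_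
    rw [linearIndependent_iff']
    intro s g hg
    obtain ⟨D, P, hD, hP⟩ := exists_common (F := F) τ s (fun i => (g i : W)) (fun i => (g i).2)
    let Q : E[X] := ∑ i ∈ s, (P i).map (IntermediateField.inclusion h : F →+* E) *
      C (⟨(b i : W), (b i).2⟩ : E)
    have hQ : aeval τ Q = 0 := by
      rw [map_sum]
      have h1 : ∀ i ∈ s, aeval τ ((P i).map (IntermediateField.inclusion h : F →+* E) *
          C (⟨(b i : W), (b i).2⟩ : E)) = aeval τ D * (g i • (b i : W)) := by
        intro i hi
        rw [map_mul, aeval_C]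
        have h2 : aeval τ ((P i).map (IntermediateField.inclusion h : F →+* E)) =
            aeval τ (P i) := by
          rw [aeval_def, eval₂_map, aeval_def]
          rfl
        rw [h2, ← hP i hi, mul_assoc]
        rfl
      rw [Finset.sum_congr rfl h1, ← Finset.mul_sum]
      have h3 : ∑ i ∈ s, g i • (b i : W) = 0 := hg
      rw [h3, mul_zero]
    have hQ0 : Q = 0 := by
      by_contra h1
      exact hT ⟨Q, h1, hQ⟩
    have hPc : ∀ n, ∀ i ∈ s, (P i).coeff n = 0 := by
      intro n
      have h1 := congrArg (fun R => ((R.coeff n : E) : W)) hQ0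
      simp only [Q, finsetSum_coeff, coeff_mul_C, coeff_map, coeff_zero] at h1
      have h2 : ∑ i ∈ s, (P i).coeff n • b i = 0 := by
        apply Subtype.ext
        rw [ZeroMemClass.coe_zero]
        have h3 : ((0 : E) : W) = 0 := rfl
        rw [h3] at h1
        rw [← h1]
        have h4 : ((∑ i ∈ s, (P i).coeff n • b i : A) : W) =
            ∑ i ∈ s, (((P i).coeff n • b i : A) : W) := map_sum A.val _ _
        have h5 : ((∑ i ∈ s, (IntermediateField.inclusion h : F →+* E) ((P i).coeff n) *
            (⟨(b i : W), (b i).2⟩ : E) : E) : W) =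
            ∑ i ∈ s, (((IntermediateField.inclusion h : F →+* E) ((P i).coeff n) *
              (⟨(b i : W), (b i).2⟩ : E) : E) : W) := map_sum E.val _ _
        rw [h4, h5]
        rfl
      exact linearIndependent_iff'.1 b.linearIndependent s (fun i => (P i).coeff n) h2
    intro i hi
    have h1 : P i = 0 := by
      ext n
      rw [hPc n i hi, coeff_zero]
    have h2 := hP i hi
    rw [h1, map_zero] at h2
    exact Subtype.ext ((mul_eq_zero.1 h2).resolve_left hD)
  have h1 := hLD.adjoin_rank_eq_rank_left_of_isAlgebraic_left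
  have h2 : IntermediateField.adjoin L (A : Set W) = ⊤ := by
    rw [eq_top_iff]
    intro a _
    have ha : a ∈ IntermediateField.adjoin E {τ} := by rw [htop]; trivial
    have hτ : τ ∈ IntermediateField.adjoin L (A : Set W) := by
      have h3 : τ ∈ L := IntermediateField.subset_adjoin _ _ (Set.mem_singleton _)
      exact IntermediateField.algebraMap_mem _ (⟨τ, h3⟩ : L)
    induction ha using IntermediateField.adjoin_induction with
    | mem y hy =>
      rw [Set.mem_singleton_iff.1 hy]
      exact hτ
    | algebraMap y => exact IntermediateField.subset_adjoin _ _ y.2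
    | add y z hy hz ihy ihz => exact add_mem (ihy trivial) (ihz trivial)
    | mul y z hy hz ihy ihz => exact mul_mem (ihy trivial) (ihz trivial)
    | inv y hy ihy => exact inv_mem (ihy trivial)
  rw [h2, IntermediateField.rank_top'] at h1
  unfold Module.finrank
  rw [h1]

end Pool.Agent.HC
end

/- Helper16.DP.HC.Abh -/
section
set_option autoImplicit false

/-!
Project HC (MP_0b9e0b_ag), module B1: the inequality of Abhyankar for subfields. `k₀` is a subfield
of the base field `K` of the place (it may be `K` itself).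
-/

namespace Pool.Agent.HC

open Pool.Agent.Helper16

variable {k₀ K σ N : Type} [Field k₀] [Field K] [Field N] [Algebra k₀ K] [Algebra k₀ N]
  [Algebra K N] [IsScalarTower k₀ K N]

theorem res_algebraMap' (v : Place K N) (a : k₀) :
    algebraMap k₀ N a ∈ v.ring ∧ v.res (algebraMap k₀ N a) = algebraMap k₀ v.resField a := by
  rw [IsScalarTower.algebraMap_apply k₀ K N, IsScalarTower.algebraMap_apply k₀ K v.resField]
  exact ⟨v.ring.algebraMap_mem _, v.res_algebraMap _⟩

/-- Values of polynomials over the smaller field. -/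
theorem aeval_res' (v : Place K N) {ι : Type} {z : ι → N} (hz : ∀ a, z a ∈ v.ring)
    (P : MvPolynomial ι k₀) :
    MvPolynomial.aeval z P ∈ v.ring ∧
      v.res (MvPolynomial.aeval z P) = MvPolynomial.aeval (fun a => v.res (z a)) P := by
  have h1 : ∀ {A : Type} [CommRing A] [Algebra k₀ A] [Algebra K A] [IsScalarTower k₀ K A]
      (z : ι → A), MvPolynomial.aeval z P =
      MvPolynomial.aeval z (MvPolynomial.map (algebraMap k₀ K) P) := by
    intro A _ _ _ _ z
    rw [MvPolynomial.aeval_map_algebraMap]
  rw [h1 z, h1 (fun a => v.res (z a))]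
  exact aeval_res v hz _

open IntermediateField.algebraAdjoinAdjoin in
theorem exists_indep_sub' {k₁ F : Type} [Field k₁] [Field F] [Algebra k₁ F] {ι : Type} (u : ι → F)
    {r : ℕ} (hr : (r : Cardinal) ≤ Algebra.trdeg k₁ (IntermediateField.adjoin k₁ (Set.range u))) :
    ∃ e : Fin r → ι, AlgebraicIndependent k₁ fun a => u (e a) := by
  have h1 : (r : Cardinal) ≤ Algebra.trdeg k₁ (Algebra.adjoin k₁ (Set.range u)) := by
    refine hr.trans (le_of_eq ?_)
    exact trdeg_of_isAlgebraic k₁ (Algebra.adjoin k₁ (Set.range u))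
      (T := IntermediateField.adjoin k₁ (Set.range u))
  let s : Set (Algebra.adjoin k₁ (Set.range u)) :=
    Set.range fun i => ⟨u i, Algebra.subset_adjoin ⟨i, rfl⟩⟩
  have h2 : Algebra.adjoin k₁ s = ⊤ := by
    rw [eq_top_iff]
    rintro ⟨a, ha⟩ -
    have h3 : Algebra.adjoin k₁ (Set.range u) =
        (Algebra.adjoin k₁ s).map (Algebra.adjoin k₁ (Set.range u)).val := by
      rw [AlgHom.map_adjoin]
      congr 1
      ext b
      constructor
      · rintro ⟨i, rfl⟩
        exact ⟨_, ⟨i, rfl⟩, rfl⟩
      · rintro ⟨_, ⟨i, rfl⟩, rfl⟩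
        exact ⟨i, rfl⟩
    have h4 := ha
    rw [h3] at h4
    obtain ⟨b, hb, hba⟩ := h4
    have : b = ⟨a, ha⟩ := Subtype.ext hba
    rwa [← this]
  have h5 : Algebra.IsAlgebraic (Algebra.adjoin k₁ s) (Algebra.adjoin k₁ (Set.range u)) := by
    constructor
    intro a
    have ha : a ∈ Algebra.adjoin k₁ s := by rw [h2]; trivial
    exact isAlgebraic_algebraMap (⟨a, ha⟩ : Algebra.adjoin k₁ s)
  obtain ⟨t, hts, ht⟩ := exists_isTranscendenceBasis_subset (R := k₁) s
  have h6 := ht.cardinalMk_eq_trdeg
  rw [← h6, ← Cardinal.mk_fin, Cardinal.le_def] at h1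
  obtain ⟨g⟩ := h1
  have h7 : ∀ a : Fin r, ∃ i, ((g a : t) : Algebra.adjoin k₁ (Set.range u)) =
      ⟨u i, Algebra.subset_adjoin ⟨i, rfl⟩⟩ := by
    intro a
    obtain ⟨i, hi⟩ := hts (g a).2
    exact ⟨i, hi.symm⟩
  choose e he using h7
  refine ⟨e, ?_⟩
  have h8 := (ht.1.comp g g.injective).map' (f := (Algebra.adjoin k₁ (Set.range u)).val)
    Subtype.val_injective
  have h9 : ((Algebra.adjoin k₁ (Set.range u)).val ∘ ((↑) : t → _) ∘ g) =
      fun a => u (e a) := by
    funext a
    simp only [Function.comp_apply]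
    rw [he a]
    rfl
  rw [h9] at h8
  exact h8

/-- The ring homomorphism from the elements of the subfield `M` which are integral at `v`. -/
theorem abh (v : Place K N) {M : Type} [Field M] [Algebra k₀ M] [Algebra M N]
    [IsScalarTower k₀ M N] {s : ℕ} (hM : Algebra.trdeg k₀ M ≤ s + 1)
    (hv : ∃ m : M, m ≠ 0 ∧ v.val (algebraMap M N m) ≠ 1) {n : ℕ} (z : Fin n → M)
    (hz : ∀ i, v.val (algebraMap M N (z i)) ≤ 1)
    (hind : AlgebraicIndependent k₀ fun i => v.res (algebraMap M N (z i))) : n ≤ s := by
  obtain ⟨f, hf0, hf⟩ : ∃ f : M, f ≠ 0 ∧ v.val (algebraMap M N f) < 1 := by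
    obtain ⟨m, hm0, hm⟩ := hv
    rcases lt_or_gt_of_ne hm with h | h
    · exact ⟨m, hm0, h⟩
    · refine ⟨m⁻¹, inv_ne_zero hm0, ?_⟩
      rw [map_inv₀, map_inv₀]
      exact (inv_lt_one₀ (zero_lt_one.trans h)).2 h
  let R : Subalgebra k₀ M := (v.ring.restrictScalars k₀).comap (IsScalarTower.toAlgHom k₀ M N)
  have hR : ∀ a : R, algebraMap M N (a : M) ∈ v.ring := fun a => a.2
  let g : R →ₐ[k₀] v.resField :=
    { toFun := fun a => v.res (algebraMap M N (a : M))
      map_one' := by
        change v.res (algebraMap M N 1) = 1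
        rw [map_one, v.res_one]
      map_mul' := fun a b => by
        change v.res (algebraMap M N (a * b)) = _
        rw [map_mul, v.res_mul (hR a) (hR b)]
      map_zero' := by
        change v.res (algebraMap M N 0) = 0
        rw [map_zero, v.res_zero]
      map_add' := fun a b => by
        change v.res (algebraMap M N (a + b)) = _
        rw [map_add, v.res_add (hR a) (hR b)]
      commutes' := fun a => by
        change v.res (algebraMap M N (algebraMap k₀ M a)) = _
        rw [← IsScalarTower.algebraMap_apply]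
        exact (res_algebraMap' v a).2 }
  have h1 := PL.indep_lift (κ := k₀) (R := R) (S := v.resField) g ⟨f, hf.le⟩
    (fun h => hf0 (congrArg Subtype.val h))
    ((v.res_eq_zero_iff (x := algebraMap M N f) hf.le).2 hf) n (fun i => ⟨z i, hz i⟩) hind
  have h2 := (h1.trans (trdeg_le_of_inj R.val Subtype.val_injective)).trans hM
  have h3 : ((n + 1 : ℕ) : Cardinal) ≤ ((s + 1 : ℕ) : Cardinal) := by
    refine h2.trans ?_
    push_cast
    exact le_refl _
  rw [Nat.cast_le] at h3
  omega

theorem abh_adjoin (v : Place K N) {M : Type} [Field M] [Algebra k₀ M] [Algebra M N]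
    [IsScalarTower k₀ M N] {s : ℕ} (hM : Algebra.trdeg k₀ M ≤ s + 1)
    (hv : ∃ m : M, m ≠ 0 ∧ v.val (algebraMap M N m) ≠ 1) {ι : Type} (z : ι → M)
    (hz : ∀ i, v.val (algebraMap M N (z i)) ≤ 1) :
    Algebra.trdeg k₀ (IntermediateField.adjoin k₀
      (Set.range fun i => v.res (algebraMap M N (z i)))) ≤ s := by
  by_contra hcon
  rw [not_le] at hcon
  have h1 : ((s + 1 : ℕ) : Cardinal) ≤ Algebra.trdeg k₀ (IntermediateField.adjoin k₀
      (Set.range fun i => v.res (algebraMap M N (z i)))) := by
    rw [Nat.cast_add, Nat.cast_one, ← Cardinal.succ_natCast]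
    exact Order.succ_le_of_lt hcon
  obtain ⟨e, he⟩ := exists_indep_sub' _ h1
  have := abh v hM hv (fun a => z (e a)) (fun a => hz _) he
  omega

/-- If `v` is not trivial on the field `M` of the point `x`, of transcendence degree at most
`s + 1`, then the specialised point has a closure of dimension at most `s` over `k₀`. -/
theorem abh_spec {v : Place K N} {M : Type} [Field M] [Algebra k₀ M] [Algebra M N]
    [IsScalarTower k₀ M N] {s : ℕ} (hM : Algebra.trdeg k₀ M ≤ s + 1)
    (hv : ∃ m : M, m ≠ 0 ∧ v.val (algebraMap M N m) ≠ 1) {x : σ → M} {y : σ → v.resField}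
    (h : SpecAt v (fun j => algebraMap M N (x j)) y) :
    Algebra.trdeg k₀ (ratioField k₀ y) ≤ s := by
  obtain ⟨j0, hx0, hy0, h1⟩ := h.normal
  have h2 : ratioField k₀ y = IntermediateField.adjoin k₀
      (Set.range fun i => v.res (algebraMap M N (x i / x j0))) := by
    rw [ratioField_eq_range hy0]
    congr 1
    congr 1
    funext i
    rw [map_div₀, (h1 i).2]
  rw [h2]
  refine abh_adjoin v hM hv (fun i => x i / x j0) fun i => ?_
  rw [map_div₀]
  exact (h1 i).1

end Pool.Agent.HC
end

/- Helper16.DP.HC.CaseB -/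
section
set_option autoImplicit false
set_option linter.unusedSectionVars false
set_option linter.style.haveILetI false

/-!
Project HC (MP_0b9e0b_ag), module P3: every cycle on a variety over `k(t)` whose equations have
coefficients in `k` is rationally equivalent to a combination of integral subschemes defined
over `k`.
-/

namespace Pool.Agent.HC

open Pool.Agent.Helper16

variable {k σ : Type} [Field k]

/-! ### Relations -/

theorem exists_relation {K : Type} [Field K] [Finite σ] {N : Type} [Field N] [Algebra K N] {r : ℕ}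
    (hN : Algebra.EssFiniteType K N) (htr : Algebra.trdeg K N = r + 1)
    {I : Set (MvPolynomial σ K)} {x : σ → N} (hx : IsPt I x) {f : N} (hf : f ≠ 0) :
    ∃ (S : Finset (Place K N)) (y : (v : Place K N) → σ → v.resField),
      (∀ v, SpecAt v x (y v)) ∧
      (∀ v, v ∈ S ↔ v.ord f ≠ 0 ∧ Algebra.trdeg K (ratioField K (y v)) = r) ∧
      ∑ v ∈ S, Finsupp.single (homIdeal K (y v))
        ((v.ord f * Module.finrank (ratioField K (y v)) v.resField : ℤ) : ℚ) ∈ rat I r := by
  classical
  choose y hy using fun v : Place K N => exists_spec v hx.1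
  have hS := finite_places hN htr x f
  have hmem : ∀ v, v ∈ hS.toFinset ↔
      v.ord f ≠ 0 ∧ Algebra.trdeg K (ratioField K (y v)) = r := by
    intro v
    rw [Set.Finite.mem_toFinset]
    refine and_congr_right fun _ => ⟨?_, fun h => ⟨y v, hy v, h⟩⟩
    rintro ⟨y', hy', h⟩
    rw [← h, hy'.ratioField_eq (hy v)]
  refine ⟨hS.toFinset, y, hy, hmem, Submodule.subset_span ?_⟩
  exact ⟨N, inferInstance, inferInstance, x, f, hS.toFinset, y, hN, htr, hx, hf, hy, hmem, rfl⟩

/-- Moving a cycle: if all places of a relation with the wrong class give cycles in `W`, and the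
others have positive order, of which there is at least one, then the class lies in `W` modulo
rational equivalence. -/
theorem move_of_relation {K : Type} [Field K] [Finite σ] {N : Type} [Field N] [Algebra K N] {r : ℕ}
    (hN : Algebra.EssFiniteType K N) (htr : Algebra.trdeg K N = r + 1)
    {I : Set (MvPolynomial σ K)} {x : σ → N} (hx : IsPt I x) {f : N} (hf : f ≠ 0)
    (P : Ideal (MvPolynomial σ K)) (W : Submodule ℚ (Ideal (MvPolynomial σ K) →₀ ℚ))
    (h : ∀ (v : Place K N) (y : σ → v.resField), SpecAt v x y → v.ord f ≠ 0 →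
      Algebra.trdeg K (ratioField K y) = r →
      (homIdeal K y = P ∧ 0 < v.ord f) ∨ Finsupp.single (homIdeal K y) 1 ∈ W)
    (h0 : ∃ (v : Place K N) (y : σ → v.resField), SpecAt v x y ∧ 0 < v.ord f ∧
      Algebra.trdeg K (ratioField K y) = r ∧ homIdeal K y = P) :
    Finsupp.single P 1 ∈ W ⊔ rat I r := by
  classical
  obtain ⟨S, y, hy, hS, hrel⟩ := exists_relation hN htr hx hf
  by_cases hPW : Finsupp.single P (1 : ℚ) ∈ W
  · exact (le_sup_left : W ≤ W ⊔ rat I r) hPW
  set c : Place K N → ℚ := fun v =>
    ((v.ord f * Module.finrank (ratioField K (y v)) v.resField : ℤ) : ℚ) with hc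
  have h1 : ∑ v ∈ S with homIdeal K (y v) = P, Finsupp.single (homIdeal K (y v)) (c v) +
      ∑ v ∈ S with ¬ homIdeal K (y v) = P, Finsupp.single (homIdeal K (y v)) (c v) ∈
      rat I r := by
    rw [Finset.sum_filter_add_sum_filter_not]
    exact hrel
  have h2 : ∑ v ∈ S with homIdeal K (y v) = P, Finsupp.single (homIdeal K (y v)) (c v) =
      Finsupp.single P (∑ v ∈ S with homIdeal K (y v) = P, c v) := by
    rw [Finsupp.single_finsetSum]
    refine Finset.sum_congr rfl fun v hv => ?_
    rw [(Finset.mem_filter.1 hv).2]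
  have hpos : ∀ v ∈ S, homIdeal K (y v) = P → 0 < c v := by
    intro v hv hvP
    have h3 := (hS v).1 hv
    have h4 : 0 < v.ord f := by
      rcases h v (y v) (hy v) h3.1 h3.2 with h5 | h5
      · exact h5.2
      · rw [hvP] at h5
        exact absurd h5 hPW
    have h5 := finrank_pos hN htr (hy v) h3.2
    have h6 : (0 : ℤ) < v.ord f * (Module.finrank (ratioField K (y v)) v.resField : ℤ) :=
      mul_pos h4 (by exact_mod_cast h5)
    change (0 : ℚ) < ((v.ord f * (Module.finrank (ratioField K (y v)) v.resField : ℤ) : ℤ) : ℚ)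
    exact_mod_cast h6
  have h3 : 0 < ∑ v ∈ S with homIdeal K (y v) = P, c v := by
    refine Finset.sum_pos (fun v hv => ?_) ?_
    · rw [Finset.mem_filter] at hv
      exact hpos v hv.1 hv.2
    · obtain ⟨v, y', hy', h4, h5, h6⟩ := h0
      refine ⟨v, Finset.mem_filter.2 ⟨(hS v).2 ⟨h4.ne', ?_⟩, ?_⟩⟩
      · rw [← h5, hy'.ratioField_eq (hy v)]
      · rw [← h6, hy'.homIdeal_eq (hy v)]
  have h4 : ∑ v ∈ S with ¬ homIdeal K (y v) = P, Finsupp.single (homIdeal K (y v)) (c v) ∈ W := by
    refine sum_mem fun v hv => ?_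
    rw [Finset.mem_filter] at hv
    have h5 := (hS v).1 hv.1
    rcases h v (y v) (hy v) h5.1 h5.2 with h6 | h6
    · exact absurd h6.1 hv.2
    · rw [← mul_one (c v), ← smul_eq_mul, ← Finsupp.smul_single]
      exact W.smul_mem _ h6
  rw [h2] at h1
  have h5 : Finsupp.single P (∑ v ∈ S with homIdeal K (y v) = P, c v) ∈ W ⊔ rat I r := by
    have h6 := (W ⊔ rat I r).sub_mem ((le_sup_right : rat I r ≤ W ⊔ rat I r) h1)
      ((le_sup_left : W ≤ W ⊔ rat I r) h4)
    rwa [add_sub_cancel_right] at h6
  have h6 := (W ⊔ rat I r).smul_mem (∑ v ∈ S with homIdeal K (y v) = P, c v)⁻¹ h5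
  rwa [Finsupp.smul_single, smul_eq_mul, inv_mul_cancel₀ h3.ne'] at h6

/-! ### Places which are not trivial on a field independent of `t` -/

section nontriv

variable {M N : Type} [Field M] [Algebra k M] [Field N] [Algebra k N] [Algebra M N]
  [Algebra (RatFunc k) N] [IsScalarTower k M N] [IsScalarTower k (RatFunc k) N]

theorem res_tv (v : Place (RatFunc k) N) : v.res (tv k N) = tv k v.resField :=
  v.res_algebraMap _

/-- If a `K`-place `v` is not trivial on `M` then the residues of elements of `M` generate a field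
of smaller transcendence degree than `M`. -/
theorem trdeg_lt_of_nontriv {K : Type} [Field K] [Algebra k K] [Algebra K N] [IsScalarTower k K N]
    (v : Place K N) {x : σ → M} {y : σ → v.resField}
    (h : SpecAt v (fun j => algebraMap M N (x j)) y) {r : ℕ} (hM : Algebra.trdeg k M = r + 1)
    (hnt : ∃ a : M, a ≠ 0 ∧ v.val (algebraMap M N a) ≠ 1) :
    Algebra.trdeg k (ratioField k y) ≠ (r + 1 : ℕ) := by
  intro hr
  obtain ⟨j0, hx0, hy0, h1⟩ := h.normal
  have h2 := ratioField_eq_range (K := k) hy0
  obtain ⟨e, he⟩ := exists_indep_sub (K := k) (fun i => y i / y j0) (r := r + 1) (by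
    rw [← h2, hr])
  let R : Subalgebra k M := (v.ring.restrictScalars k).comap (IsScalarTower.toAlgHom k M N)
  let g : R →ₐ[k] v.resField := (IsScalarTower.toAlgHom k v.ring v.resField).comp
    (((IsScalarTower.toAlgHom k M N).comp R.val).codRestrict (v.ring.restrictScalars k)
      (fun a => a.2))
  have hg : ∀ a : R, g a = v.res (algebraMap M N a) := by
    intro a
    rw [v.res_of_mem (show algebraMap M N a ∈ v.ring from a.2)]
    rfl
  obtain ⟨b, hb0, hb⟩ := hnt
  have hf : ∃ f : M, f ≠ 0 ∧ v.val (algebraMap M N f) < 1 := by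
    rcases lt_or_gt_of_ne hb with hb | hb
    · exact ⟨b, hb0, hb⟩
    · refine ⟨b⁻¹, inv_ne_zero hb0, ?_⟩
      rw [map_inv₀, map_inv₀]
      exact inv_lt_one_of_one_lt₀ hb
  obtain ⟨f, hf0, hf⟩ := hf
  have hfR : algebraMap M N f ∈ v.ring := hf.le
  let z : Fin (r + 1) → R := fun a => ⟨x (e a) / x j0, by
      change algebraMap M N (x (e a) / x j0) ∈ v.ring
      rw [map_div₀]
      exact (h1 _).1⟩
  have hz : (g ∘ z) = fun a => y (e a) / y j0 := by
    funext a
    change g (z a) = _
    rw [hg]
    change v.res (algebraMap M N (x (e a) / x j0)) = _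
    rw [map_div₀]
    exact (h1 _).2
  have h3 := PL.indep_lift (κ := k) (R := R) (S := v.resField) g ⟨f, hfR⟩
    (fun h => hf0 (congrArg Subtype.val h))
    (by rw [hg]; exact (v.res_eq_zero_iff hfR).2 hf) (r + 1) z (by rw [hz]; exact he)
  have h4 := h3.trans (trdeg_le_of_inj R.val Subtype.val_injective)
  rw [hM] at h4
  have h5 : ((r + 1 + 1 : ℕ) : Cardinal) ≤ ((r + 1 : ℕ) : Cardinal) := by
    refine h4.trans ?_
    rw [Nat.cast_add, Nat.cast_one]
  rw [Nat.cast_le] at h5
  omega

theorem transc_of_nontriv (v : Place (RatFunc k) N) {x : σ → M} {y : σ → v.resField}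
    (h : SpecAt v (fun j => algebraMap M N (x j)) y) {r : ℕ} (hM : Algebra.trdeg k M = r + 1)
    (hr : Algebra.trdeg (RatFunc k) (ratioField (RatFunc k) y) = r)
    (hnt : ∃ a : M, a ≠ 0 ∧ v.val (algebraMap M N a) ≠ 1) :
    Transcendental (ratioField k y) (tv k v.resField) := by
  intro hc
  have h1 := trdeg_of_alg y hc
  rw [hr] at h1
  refine trdeg_lt_of_nontriv v h hM hnt ?_
  rw [← h1]
  push_cast
  rfl

end nontriv

end Pool.Agent.HC
end

/- HC.GaussVal -/
section
set_option autoImplicit false
set_option linter.unusedSectionVars false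

/-!
Project HC (MP_0b9e0b_ag), module P4: the Gauss valuation of polynomials over a valued field.
-/

namespace Pool.Agent.HC

open Polynomial

section

variable {M Γ : Type} [Field M] [LinearOrderedCommGroupWithZero Γ] (v : Valuation M Γ)

/-- The maximum of the values of the coefficients. -/
noncomputable def gv (p : M[X]) : Γ := p.support.sup fun i => v (p.coeff i)

theorem le_gv (p : M[X]) (i : ℕ) : v (p.coeff i) ≤ gv v p := by
  by_cases h : i ∈ p.support
  · exact Finset.le_sup (f := fun i => v (p.coeff i)) h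
  · rw [notMem_support_iff.1 h, map_zero]
    exact zero_le

theorem gv_le {p : M[X]} {c : Γ} (h : ∀ i, v (p.coeff i) ≤ c) : gv v p ≤ c :=
  Finset.sup_le fun i _ => h i

theorem exists_gv {p : M[X]} (hp : p ≠ 0) : ∃ i, p.coeff i ≠ 0 ∧ v (p.coeff i) = gv v p ∧
    ∀ j < i, v (p.coeff j) < gv v p := by
  classical
  obtain ⟨i, hi, hi'⟩ := Finset.exists_mem_eq_sup p.support (support_nonempty.2 hp)
    fun i => v (p.coeff i)
  have hex : ∃ i, v (p.coeff i) = gv v p := ⟨i, hi'.symm⟩
  have hpos : 0 < gv v p := by
    unfold gv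
    rw [hi']
    exact zero_lt_iff.2 ((Valuation.ne_zero_iff _).2 (mem_support_iff.1 hi))
  refine ⟨Nat.find hex, ?_, Nat.find_spec hex, fun j hj => ?_⟩
  · intro h0
    have h1 := Nat.find_spec hex
    rw [h0, map_zero] at h1
    exact hpos.ne h1
  · exact lt_of_le_of_ne (le_gv v p j) (Nat.find_min hex hj)

theorem gv_zero : gv v 0 = 0 := by
  refine le_antisymm (gv_le v fun i => ?_) zero_le
  rw [coeff_zero, map_zero]

theorem gv_pos {p : M[X]} (hp : p ≠ 0) : 0 < gv v p := by
  obtain ⟨i, h0, h1, _⟩ := exists_gv v hp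
  rw [← h1]
  exact zero_lt_iff.2 ((Valuation.ne_zero_iff _).2 h0)

theorem gv_C (a : M) : gv v (C a) = v a := by
  refine le_antisymm (gv_le v fun i => ?_) ?_
  · rw [coeff_C]
    split_ifs
    · exact le_refl _
    · rw [map_zero]; exact zero_le
  · have := le_gv v (C a) 0
    rwa [coeff_C_zero] at this

theorem gv_add (p q : M[X]) : gv v (p + q) ≤ max (gv v p) (gv v q) := by
  refine gv_le v fun i => ?_
  rw [coeff_add]
  exact (v.map_add _ _).trans (max_le_max (le_gv v p i) (le_gv v q i))

theorem gv_mul (p q : M[X]) : gv v (p * q) = gv v p * gv v q := by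
  classical
  by_cases hp : p = 0
  · rw [hp, zero_mul, gv_zero, zero_mul]
  by_cases hq : q = 0
  · rw [hq, mul_zero, gv_zero, mul_zero]
  refine le_antisymm (gv_le v fun n => ?_) ?_
  · rw [coeff_mul]
    refine v.map_sum_le fun x _ => ?_
    rw [map_mul]
    exact mul_le_mul' (le_gv v p _) (le_gv v q _)
  · obtain ⟨i, hi0, hi, hi'⟩ := exists_gv v hp
    obtain ⟨j, hj0, hj, hj'⟩ := exists_gv v hq
    have h1 : v ((p * q).coeff (i + j)) = gv v p * gv v q := by
      rw [coeff_mul, ← Finset.add_sum_erase _ _ (show (i, j) ∈ Finset.HasAntidiagonal.antidiagonal (i + j) from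
        Finset.HasAntidiagonal.mem_antidiagonal.2 rfl)]
      have h2 : v (p.coeff i * q.coeff j) = gv v p * gv v q := by rw [map_mul, hi, hj]
      have h0 : gv v p * gv v q ≠ 0 := mul_ne_zero (gv_pos v hp).ne' (gv_pos v hq).ne'
      have h3 : v (∑ x ∈ (Finset.HasAntidiagonal.antidiagonal (i + j)).erase (i, j), p.coeff x.1 * q.coeff x.2) <
          gv v p * gv v q := by
        refine v.map_sum_lt h0 fun x hx => ?_
        rw [Finset.mem_erase, Finset.HasAntidiagonal.mem_antidiagonal] at hx
        rw [map_mul]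
        rcases lt_trichotomy x.1 i with h | h | h
        · calc v (p.coeff x.1) * v (q.coeff x.2) ≤ v (p.coeff x.1) * gv v q :=
                mul_le_mul_right (le_gv v q _) _
            _ < gv v p * gv v q := mul_lt_mul_of_pos_right (hi' _ h) (gv_pos v hq)
        · exfalso
          refine hx.1 (Prod.ext h ?_)
          change x.2 = j
          omega
        · have h' : x.2 < j := by omega
          calc v (p.coeff x.1) * v (q.coeff x.2) ≤ gv v p * v (q.coeff x.2) :=
                mul_le_mul_left (le_gv v p _) _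
            _ < gv v p * gv v q := mul_lt_mul_of_pos_left (hj' _ h') (gv_pos v hp)
      rw [Valuation.map_add_eq_of_lt_left]
      · exact h2
      · rw [h2]; exact h3
    rw [← h1]
    exact le_gv v _ _

/-- The Gauss valuation. -/
noncomputable def gaussVal : Valuation M[X] Γ where
  toFun := gv v
  map_zero' := gv_zero v
  map_one' := by
    change gv v 1 = 1
    rw [← C_1, gv_C, map_one]
  map_mul' := gv_mul v
  map_add_le_max' := gv_add v

theorem gaussVal_le : nonZeroDivisors M[X] ≤ (gaussVal v).supp.primeCompl := by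
  intro p hp hp0
  have h1 : gv v p = 0 := hp0
  exact (gv_pos v (nonZeroDivisors.ne_zero hp)).ne' h1

/-- The Gauss valuation of rational functions. -/
noncomputable def gaussRat : Valuation (RatFunc M) Γ :=
  (gaussVal v).extendToLocalization (gaussVal_le v) (RatFunc M)

theorem gaussRat_algebraMap (p : M[X]) : gaussRat v (algebraMap M[X] (RatFunc M) p) = gv v p :=
  Valuation.extendToLocalization_apply_map_apply _ _ _ _

end

end Pool.Agent.HC
end

/- Helper16.DP.HC.GaussPl -/
section
set_option autoImplicit false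
set_option linter.unusedSectionVars false
set_option linter.style.haveILetI false

/-!
Project HC (MP_0b9e0b_ag), module P4: the places of `M(T)` over `k(t)` at which the variable `T`
is transcendental over the residues of `M` are the Gauss extensions of the places of `M`.
-/

namespace Pool.Agent.HC

open Pool.Agent.Helper16

variable {k σ : Type} [Field k] {M N : Type} [Field M] [Field N] [Algebra k M] [Algebra k N]
  [Algebra M N] [Algebra (RatFunc k) N] [IsScalarTower k (RatFunc k) N] [IsScalarTower k M N]

theorem exists_ratEquiv (hT : Transcendental M (tv k N))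
    (htop : IntermediateField.adjoin M {tv k N} = ⊤) :
    ∃ e : RatFunc M ≃ₐ[M] N, e RatFunc.X = tv k N ∧
      ∀ p : Polynomial M, e (algebraMap (Polynomial M) (RatFunc M) p) =
        Polynomial.aeval (tv k N) p := by
  let e : RatFunc M ≃ₐ[M] N := (RatFunc.algEquivOfTranscendental (K := M) (tv k N) hT).trans
    ((IntermediateField.equivOfEq htop).trans IntermediateField.topEquiv)
  have hX : e RatFunc.X = tv k N := by
    exact RatFunc.algEquivOfTranscendental_X (tv k N) hT
  refine ⟨e, hX, fun p => ?_⟩
  have h1 : (e : RatFunc M →ₐ[M] N).comp (IsScalarTower.toAlgHom M (Polynomial M) (RatFunc M)) =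
      Polynomial.aeval (tv k N) := by
    apply Polynomial.algHom_ext
    rw [Polynomial.aeval_X, AlgHom.comp_apply]
    change e (algebraMap (Polynomial M) (RatFunc M) Polynomial.X) = _
    rw [RatFunc.algebraMap_X, hX]
  exact DFunLike.congr_fun h1 p

theorem exists_frac (hT : Transcendental M (tv k N))
    (htop : IntermediateField.adjoin M {tv k N} = ⊤) (a : N) :
    ∃ p q : Polynomial M, q ≠ 0 ∧ a = Polynomial.aeval (tv k N) p / Polynomial.aeval (tv k N) q := by
  obtain ⟨e, -, he⟩ := exists_ratEquiv hT htop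
  refine ⟨(e.symm a).num, (e.symm a).denom, RatFunc.denom_ne_zero _, ?_⟩
  rw [← he, ← he, ← map_div₀, RatFunc.num_div_denom, e.apply_symm_apply]

theorem aeval_tv_map (p : Polynomial k) :
    Polynomial.aeval (tv k N) (p.map (algebraMap k M)) =
      algebraMap (RatFunc k) N (algebraMap (Polynomial k) (RatFunc k) p) := by
  rw [Polynomial.aeval_map_algebraMap]
  have h1 : (IsScalarTower.toAlgHom k (RatFunc k) N).comp
      (IsScalarTower.toAlgHom k (Polynomial k) (RatFunc k)) = Polynomial.aeval (tv k N) := by
    apply Polynomial.algHom_ext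
    rw [Polynomial.aeval_X, AlgHom.comp_apply]
    change algebraMap (RatFunc k) N (algebraMap (Polynomial k) (RatFunc k) Polynomial.X) = _
    rw [RatFunc.algebraMap_X]
    rfl
  exact (DFunLike.congr_fun h1 p).symm

/-- Existence of the Gauss extension. -/
theorem exists_gaussPlace (hT : Transcendental M (tv k N))
    (htop : IntermediateField.adjoin M {tv k N} = ⊤) (v : Place k M) :
    ∃ w : Place (RatFunc k) N, (∀ a : M, w.val (algebraMap M N a) = v.val a) ∧
      ∀ p : Polynomial M, w.val (Polynomial.aeval (tv k N) p) = gv v.val p := by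
  obtain ⟨e, heX, he⟩ := exists_ratEquiv hT htop
  let V : Valuation N (WithZero (Multiplicative ℤ)) :=
    (gaussRat v.val).comap (e.symm : N ≃+* RatFunc M).toRingHom
  have hV : ∀ p : Polynomial M, V (Polynomial.aeval (tv k N) p) = gv v.val p := by
    intro p
    rw [← he]
    change gaussRat v.val (e.symm (e _)) = _
    rw [e.symm_apply_apply, gaussRat_algebraMap]
  have hVM : ∀ a : M, V (algebraMap M N a) = v.val a := by
    intro a
    have := hV (Polynomial.C a)
    rwa [Polynomial.aeval_C, gv_C] at this
  have htriv : ∀ p : Polynomial k, p ≠ 0 →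
      V (algebraMap (RatFunc k) N (algebraMap (Polynomial k) (RatFunc k) p)) = 1 := by
    intro p hp
    rw [← aeval_tv_map (M := M), hV]
    refine le_antisymm (gv_le _ fun i => ?_) ?_
    · rw [Polynomial.coeff_map]
      exact v.val_algebraMap_le _
    · have h1 := le_gv v.val (p.map (algebraMap k M)) p.natDegree
      rwa [Polynomial.coeff_map, v.triv _ (by simpa using hp)] at h1
  refine ⟨⟨V, fun c => ?_, fun a ha => ?_⟩, hVM, hV⟩
  · obtain ⟨a, ha⟩ := v.surj c
    exact ⟨algebraMap M N a, by rw [hVM, ha]⟩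
  · rw [← RatFunc.num_div_denom a, map_div₀, map_div₀, htriv _ (by simpa using ha),
      htriv _ (RatFunc.denom_ne_zero a), div_one]

/-- The field generated by the residues of elements of `M`. -/
noncomputable def resM (k M : Type) {K N : Type} [Field k] [Field M] [Field K] [Field N]
    [Algebra k K] [Algebra k N] [Algebra M N] [Algebra K N] [IsScalarTower k K N]
    (w : Place K N) : IntermediateField k w.resField :=
  IntermediateField.adjoin k (Set.range fun a : {a : M // w.val (algebraMap M N a) ≤ 1} =>
    w.res (algebraMap M N (a : M)))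

theorem res_mem_resM (w : Place (RatFunc k) N) {a : M} (ha : w.val (algebraMap M N a) ≤ 1) :
    w.res (algebraMap M N a) ∈ resM k M w :=
  IntermediateField.subset_adjoin _ _ ⟨⟨a, ha⟩, rfl⟩

theorem trdeg_resM (w : Place (RatFunc k) N) {r : ℕ} (hM : Algebra.trdeg k M = r + 1)
    (hnt : ∃ a : M, a ≠ 0 ∧ w.val (algebraMap M N a) ≠ 1) :
    Algebra.trdeg k (resM k M w) ≤ r :=
  abh_adjoin w hM.le hnt (fun a : {a : M // w.val (algebraMap M N a) ≤ 1} => (a : M))
    (fun a => a.2)

theorem ratioField_le_resM (w : Place (RatFunc k) N) {x : σ → M} {y : σ → w.resField}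
    (h : SpecAt w (fun j => algebraMap M N (x j)) y) : ratioField k y ≤ resM k M w := by
  obtain ⟨j0, hx0, hy0, h1⟩ := h.normal
  rw [ratioField_eq_range hy0, IntermediateField.adjoin_le_iff]
  rintro _ ⟨i, rfl⟩
  have h2 := h1 i
  rw [← map_div₀] at h2
  change y i / y j0 ∈ resM k M w
  rw [← h2.2]
  exact res_mem_resM w h2.1

/-- If the specialised point has dimension `r` over `k(t)`, and the place is not trivial on `M`,
of transcendence degree `r + 1`, then `T` is transcendental over the residues of `M`, and these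
are algebraic over the field of the specialised point. -/
theorem transc_resM (w : Place (RatFunc k) N) {x : σ → M} {y : σ → w.resField}
    (h : SpecAt w (fun j => algebraMap M N (x j)) y) {r : ℕ} (hM : Algebra.trdeg k M = r + 1)
    (hr : Algebra.trdeg (RatFunc k) (ratioField (RatFunc k) y) = r)
    (hnt : ∃ a : M, a ≠ 0 ∧ w.val (algebraMap M N a) ≠ 1) :
    Algebra.trdeg k (ratioField k y) = r ∧ Transcendental (resM k M w) (tv k w.resField) ∧
      ∀ a ∈ resM k M w, IsAlgebraic (ratioField k y) a := by
  have h1 := transc_of_nontriv w h hM hr hnt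
  have h2 : Algebra.trdeg k (ratioField k y) = r := by rw [← trdeg_const y h1, hr]
  have h3 := ratioField_le_resM w h
  letI : Algebra (ratioField k y) (resM k M w) := (IntermediateField.inclusion h3).toAlgebra
  haveI : IsScalarTower k (ratioField k y) (resM k M w) := IsScalarTower.of_algebraMap_eq fun _ => rfl
  haveI : IsScalarTower (ratioField k y) (resM k M w) w.resField :=
    IsScalarTower.of_algebraMap_eq fun _ => rfl
  have h4 : Algebra.IsAlgebraic (ratioField k y) (resM k M w) := by
    rw [← trdeg_eq_zero_iff]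
    have h5 := trdeg_add_eq k (ratioField k y) (A := resM k M w)
    have h6 := trdeg_resM w hM hnt
    rw [← h5, h2] at h6
    have h7 : Algebra.trdeg (ratioField k y) (resM k M w) + r ≤ 0 + r := by
      rwa [zero_add, add_comm]
    have h8 := (Cardinal.add_le_add_iff_of_lt_aleph0 (Cardinal.natCast_lt_aleph0 (n := r))).1 h7
    exact le_antisymm h8 zero_le
  refine ⟨h2, ?_, fun a ha => ?_⟩
  · intro h5
    have h6 : IsAlgebraic (ratioField k y) (tv k w.resField) := by
      exact h5.restrictScalars (ratioField k y)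
    exact h1 h6
  · have h5 := h4.isAlgebraic ⟨a, ha⟩
    exact h5.algebraMap (A := w.resField)

end Pool.Agent.HC
end

/- Helper16.DP.HC.GaussR -/
section
set_option autoImplicit false
set_option linter.unusedSectionVars false
set_option linter.style.haveILetI false

/-!
Project HC (MP_0b9e0b_ag), module P4: uniqueness of the Gauss extension, residue fields.
-/

namespace Pool.Agent.HC

open Pool.Agent.Helper16

variable {k σ : Type} [Field k] {M N : Type} [Field M] [Field N] [Algebra k M] [Algebra k N]
  [Algebra M N] [Algebra (RatFunc k) N] [IsScalarTower k (RatFunc k) N] [IsScalarTower k M N]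

theorem res_sum {K N : Type} [Field K] [Field N] [Algebra K N] (w : Place K N) {ι : Type}
    (s : Finset ι) (f : ι → N) (hf : ∀ i ∈ s, f i ∈ w.ring) :
    ∑ i ∈ s, f i ∈ w.ring ∧ w.res (∑ i ∈ s, f i) = ∑ i ∈ s, w.res (f i) := by
  classical
  induction s using Finset.induction_on with
  | empty => simp [w.res_zero, zero_mem]
  | insert a s ha ih =>
    have h1 := ih fun i hi => hf i (Finset.mem_insert_of_mem hi)
    rw [Finset.sum_insert ha, Finset.sum_insert ha]
    have h2 := hf a (Finset.mem_insert_self _ _)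
    exact ⟨add_mem h2 h1.1, by rw [w.res_add h2 h1.1, h1.2]⟩

/-- The residue of the value at `T` of a polynomial with integral coefficients. -/
theorem res_aeval_tv (w : Place (RatFunc k) N) (n : ℕ) (a : ℕ → M)
    (ha : ∀ i, w.val (algebraMap M N (a i)) ≤ 1) :
    (∑ i ∈ Finset.range n, algebraMap M N (a i) * tv k N ^ i) ∈ w.ring ∧
      w.res (∑ i ∈ Finset.range n, algebraMap M N (a i) * tv k N ^ i) =
        ∑ i ∈ Finset.range n, w.res (algebraMap M N (a i)) * tv k w.resField ^ i := by
  have ht : tv k N ∈ w.ring := w.ring.algebraMap_mem _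
  have h1 := res_sum w (Finset.range n) (fun i => algebraMap M N (a i) * tv k N ^ i)
    (fun i _ => mul_mem (ha i) (pow_mem ht i))
  refine ⟨h1.1, ?_⟩
  rw [h1.2]
  refine Finset.sum_congr rfl fun i _ => ?_
  rw [w.res_mul (ha i) (pow_mem ht i), w.res_pow ht, res_tv]

theorem val_aeval_eq_one (w : Place (RatFunc k) N)
    (ht : Transcendental (resM k M w) (tv k w.resField)) (n : ℕ) (a : ℕ → M)
    (ha : ∀ i, w.val (algebraMap M N (a i)) ≤ 1) (i : ℕ) (hi : i < n)
    (hai : w.val (algebraMap M N (a i)) = 1) :
    w.val (∑ i ∈ Finset.range n, algebraMap M N (a i) * tv k N ^ i) = 1 := by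
  have h1 := res_aeval_tv w n a ha
  rw [← res_ne_zero_iff w h1.1, h1.2]
  intro h2
  let q : Polynomial (resM k M w) := ∑ i ∈ Finset.range n,
    Polynomial.C (⟨_, res_mem_resM w (ha i)⟩ : resM k M w) * Polynomial.X ^ i
  have hq : Polynomial.aeval (tv k w.resField) q = 0 := by
    rw [map_sum, ← h2]
    refine Finset.sum_congr rfl fun i _ => ?_
    rw [map_mul, Polynomial.aeval_C, map_pow, Polynomial.aeval_X]
    rfl
  have hq0 : q ≠ 0 := by
    intro h3
    have h4 := congrArg (fun P => Polynomial.coeff P i) h3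
    simp only [q, Polynomial.finsetSum_coeff, Polynomial.coeff_C_mul_X_pow,
      Polynomial.coeff_zero] at h4
    rw [Finset.sum_eq_single i] at h4
    · rw [if_pos rfl] at h4
      have h5 : w.res (algebraMap M N (a i)) = 0 := congrArg Subtype.val h4
      exact (res_ne_zero_iff w (ha i)).2 hai h5
    · intro m _ hmi
      rw [if_neg (Ne.symm hmi)]
    · intro h; exact absurd (Finset.mem_range.2 hi) h
  exact ht ⟨q, hq0, hq⟩

/-- The lemma of Gauss. -/
theorem gauss_of_transc (w : Place (RatFunc k) N)
    (ht : Transcendental (resM k M w) (tv k w.resField)) (p : Polynomial M) :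
    w.val (Polynomial.aeval (tv k N) p) = gv (w.val.comap (algebraMap M N)) p := by
  by_cases hp : p = 0
  · rw [hp, map_zero, map_zero, gv_zero]
  obtain ⟨i, hi0, hi, -⟩ := exists_gv (w.val.comap (algebraMap M N)) hp
  set a := p.coeff i with ha
  have hwa : w.val (algebraMap M N a) ≠ 0 := by
    rw [Ne, map_eq_zero, map_eq_zero]
    exact hi0
  have h1 := val_aeval_eq_one w ht (p.natDegree + 1) (fun j => p.coeff j / a)
    (fun j => by
      rw [map_div₀, map_div₀]
      have h2 := le_gv (w.val.comap (algebraMap M N)) p j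
      rw [← hi] at h2
      exact div_le_one_of_le₀ h2 zero_le) i
    (Nat.lt_succ_of_le (Polynomial.le_natDegree_of_ne_zero hi0))
    (by rw [← ha, div_self hi0, map_one, map_one])
  have h2 : Polynomial.aeval (tv k N) p = algebraMap M N a *
      ∑ j ∈ Finset.range (p.natDegree + 1), algebraMap M N (p.coeff j / a) * tv k N ^ j := by
    rw [Polynomial.aeval_eq_sum_range, Finset.mul_sum]
    refine Finset.sum_congr rfl fun j _ => ?_
    rw [← mul_assoc, ← map_mul, mul_div_cancel₀ _ hi0, Algebra.smul_def]
  rw [h2, map_mul, h1, mul_one, ← hi]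
  rfl

/-- The restriction of a Gauss place. -/
theorem exists_restrict_gauss (hT : Transcendental M (tv k N))
    (htop : IntermediateField.adjoin M {tv k N} = ⊤) (w : Place (RatFunc k) N)
    (ht : Transcendental (resM k M w) (tv k w.resField)) :
    ∃ v : Place k M, (∀ a : M, w.val (algebraMap M N a) = v.val a) ∧
      ∀ p : Polynomial M, w.val (Polynomial.aeval (tv k N) p) = gv v.val p := by
  have hg := gauss_of_transc w ht
  have hsurj : ∀ p : Polynomial M, ∃ a : M, w.val (Polynomial.aeval (tv k N) p) =
      w.val (algebraMap M N a) := by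
    intro p
    by_cases hp : p = 0
    · exact ⟨0, by rw [hp, map_zero, map_zero, map_zero, map_zero]⟩
    · obtain ⟨i, -, hi, -⟩ := exists_gv (w.val.comap (algebraMap M N)) hp
      exact ⟨p.coeff i, by rw [hg, ← hi]; rfl⟩
  refine ⟨⟨w.val.comap (algebraMap M N), fun c => ?_, fun a ha => ?_⟩, fun a => rfl, hg⟩
  · obtain ⟨b, rfl⟩ := w.surj c
    obtain ⟨p, q, -, rfl⟩ := exists_frac hT htop b
    obtain ⟨a, ha⟩ := hsurj p
    obtain ⟨b, hb⟩ := hsurj q
    refine ⟨a / b, ?_⟩
    change w.val (algebraMap M N (a / b)) = _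
    rw [map_div₀, map_div₀, map_div₀, ha, hb]
  · change w.val (algebraMap M N (algebraMap k M a)) = 1
    rw [← IsScalarTower.algebraMap_apply k M N]
    exact w.val_const a ha

theorem gauss_unique (hT : Transcendental M (tv k N))
    (htop : IntermediateField.adjoin M {tv k N} = ⊤) (v : Place k M) (w w' : Place (RatFunc k) N)
    (h : ∀ p : Polynomial M, w.val (Polynomial.aeval (tv k N) p) = gv v.val p)
    (h' : ∀ p : Polynomial M, w'.val (Polynomial.aeval (tv k N) p) = gv v.val p) : w = w' := by
  apply Place.ext_val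
  ext b
  obtain ⟨p, q, -, rfl⟩ := exists_frac hT htop b
  rw [map_div₀, map_div₀, h, h, h', h']

/-! ### Residue fields -/

theorem exists_resEmb (v : Place k M) (w : Place (RatFunc k) N)
    (h : ∀ a : M, w.val (algebraMap M N a) = v.val a) :
    ∃ j : v.resField →ₐ[k] w.resField, ∀ a : M, v.val a ≤ 1 →
      j (v.res a) = w.res (algebraMap M N a) := by
  have hring : ∀ a : v.ring, algebraMap M N (a : M) ∈ w.ring := by
    intro a
    rw [w.mem_ring, h]
    exact a.2
  let f : v.ring →+* w.resField :=
    { toFun := fun a => w.res (algebraMap M N (a : M))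
      map_one' := by
        change w.res (algebraMap M N 1) = 1
        rw [map_one, w.res_one]
      map_mul' := fun a b => by
        change w.res (algebraMap M N (a * b)) = _
        rw [map_mul, w.res_mul (hring a) (hring b)]
      map_zero' := by
        change w.res (algebraMap M N 0) = 0
        rw [map_zero, w.res_zero]
      map_add' := fun a b => by
        change w.res (algebraMap M N (a + b)) = _
        rw [map_add, w.res_add (hring a) (hring b)] }
  haveI : IsLocalHom f := by
    refine ⟨fun a ha => ?_⟩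
    rw [Place.isUnit_iff, ← h, ← res_ne_zero_iff w (hring a)]
    exact ha.ne_zero
  let g : v.resField →+* w.resField := IsLocalRing.ResidueField.lift f
  have hg : ∀ a : v.ring, g (IsLocalRing.residue v.ring a) = f a := fun a =>
    IsLocalRing.ResidueField.lift_residue_apply f a
  refine ⟨{ g with commutes' := fun c => ?_ }, fun a ha => ?_⟩
  · change g (algebraMap k v.resField c) = _
    rw [← v.res_algebraMap c, v.res_of_mem (v.ring.algebraMap_mem c), hg]
    change w.res (algebraMap M N (algebraMap k M c)) = _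
    rw [← IsScalarTower.algebraMap_apply k M N]
    exact (res_algebraMap' w c).2
  · change g (v.res a) = _
    rw [v.res_of_mem ha, hg]
    rfl

theorem SpecAt.map_emb {v : Place k M} {w : Place (RatFunc k) N}
    (h : ∀ a : M, w.val (algebraMap M N a) = v.val a) {j : v.resField →ₐ[k] w.resField}
    (hj : ∀ a : M, v.val a ≤ 1 → j (v.res a) = w.res (algebraMap M N a)) {x : σ → M}
    {y : σ → v.resField} (hy : SpecAt v x y) :
    SpecAt w (fun i => algebraMap M N (x i)) (fun i => j (y i)) := by
  obtain ⟨h0, c, hc, h1⟩ := hy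
  obtain ⟨j0, hj0⟩ := Function.ne_iff.1 h0
  refine ⟨fun h2 => hj0 ((map_eq_zero j).1 (congrFun h2 j0)), algebraMap M N c,
    (map_ne_zero _).2 hc, fun i => ?_⟩
  rw [← map_mul]
  refine ⟨?_, ?_⟩
  · rw [w.mem_ring, h]
    exact (h1 i).1
  · change j (y i) = _
    rw [(h1 i).2]
    exact hj _ (h1 i).1

theorem resM_eq_range {v : Place k M} {w : Place (RatFunc k) N}
    (h : ∀ a : M, w.val (algebraMap M N a) = v.val a) {j : v.resField →ₐ[k] w.resField}
    (hj : ∀ a : M, v.val a ≤ 1 → j (v.res a) = w.res (algebraMap M N a)) :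
    resM k M w = j.fieldRange := by
  refine le_antisymm ?_ ?_
  · unfold resM
    rw [IntermediateField.adjoin_le_iff]
    rintro _ ⟨⟨a, ha⟩, rfl⟩
    rw [h] at ha
    exact ⟨v.res a, hj a ha⟩
  · rintro _ ⟨b, rfl⟩
    obtain ⟨a, ha, rfl⟩ := v.res_surj b
    change j (v.res a) ∈ _
    rw [hj a ha]
    exact res_mem_resM w (by rw [h]; exact ha)

/-- At a Gauss place the variable is transcendental over the residues of `M`. -/
theorem transc_of_gauss {v : Place k M} {w : Place (RatFunc k) N}
    (h : ∀ a : M, w.val (algebraMap M N a) = v.val a)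
    (hg : ∀ p : Polynomial M, w.val (Polynomial.aeval (tv k N) p) = gv v.val p) :
    Transcendental (resM k M w) (tv k w.resField) := by
  classical
  rintro ⟨q, hq0, hq⟩
  obtain ⟨j, hj⟩ := exists_resEmb v w h
  have hlift : ∀ b : resM k M w, ∃ a : M, v.val a ≤ 1 ∧ w.res (algebraMap M N a) = b := by
    rintro ⟨b, hb⟩
    rw [resM_eq_range h hj] at hb
    obtain ⟨c, rfl⟩ := hb
    obtain ⟨a, ha, rfl⟩ := v.res_surj c
    exact ⟨a, ha, (hj a ha).symm⟩
  choose s hs hs' using hlift
  set n := q.natDegree + 1 with hn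
  set p : Polynomial M := ∑ i ∈ Finset.range n, Polynomial.C (s (q.coeff i)) * Polynomial.X ^ i
    with hp
  have hpc : ∀ i < n, p.coeff i = s (q.coeff i) := by
    intro i hi
    simp only [hp, Polynomial.finsetSum_coeff, Polynomial.coeff_C_mul_X_pow]
    rw [Finset.sum_eq_single i]
    · rw [if_pos rfl]
    · intro m _ hmi
      rw [if_neg (Ne.symm hmi)]
    · intro h; exact absurd (Finset.mem_range.2 hi) h
  have h1 := res_aeval_tv w n (fun i => s (q.coeff i)) (fun i => by rw [h]; exact hs _)
  have h2 : Polynomial.aeval (tv k N) p =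
      ∑ i ∈ Finset.range n, algebraMap M N (s (q.coeff i)) * tv k N ^ i := by
    rw [hp, map_sum]
    refine Finset.sum_congr rfl fun i _ => ?_
    rw [map_mul, Polynomial.aeval_C, map_pow, Polynomial.aeval_X]
  have h3 : w.res (Polynomial.aeval (tv k N) p) = 0 := by
    rw [h2, h1.2, ← hq, Polynomial.aeval_eq_sum_range]
    refine Finset.sum_congr rfl fun i _ => ?_
    rw [hs', Algebra.smul_def]
    rfl
  have h4 : w.val (Polynomial.aeval (tv k N) p) < 1 := by
    rw [← w.res_eq_zero_iff (by rw [h2]; exact h1.1)]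
    exact h3
  rw [hg] at h4
  have h5 : v.val (s q.leadingCoeff) < 1 := by
    refine lt_of_le_of_lt ?_ h4
    have := le_gv v.val p q.natDegree
    rwa [hpc _ (Nat.lt_succ_self _)] at this
  have h6 : w.res (algebraMap M N (s q.leadingCoeff)) = 0 := by
    rw [w.res_eq_zero_iff (by rw [w.mem_ring, h]; exact hs _), h]
    exact h5
  rw [hs'] at h6
  exact hq0 (Polynomial.leadingCoeff_eq_zero.1 (Subtype.ext h6))

end Pool.Agent.HC
end

/- Helper16.DP.HC.RatExt -/
section
set_option autoImplicit false
set_option linter.unusedSectionVars false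
set_option linter.style.haveILetI false

/-!
Project HC (MP_0b9e0b_ag), module P3: the field `M(T)` as an extension of `k(t)`, `t ↦ T`, and the
case B of the main theorem.
-/

namespace Pool.Agent.HC

open Pool.Agent.Helper16

variable {k σ : Type} [Field k]

/-- The field `M(T)` with the structure of `k(t)`-algebra given by `t ↦ T`. -/
theorem exists_ratExt (M : Type) [Field M] [Algebra k M] :
    ∃ (N : Type) (_ : Field N) (_ : Algebra k N) (_ : Algebra (RatFunc k) N) (_ : Algebra M N),
      IsScalarTower k (RatFunc k) N ∧ IsScalarTower k M N ∧ IsFunctionField M N ∧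
      Transcendental M (tv k N) ∧ IntermediateField.adjoin M {tv k N} = ⊤ := by
  have hX : Transcendental k (RatFunc.X : RatFunc M) :=
    Transcendental.restrictScalars (algebraMap k M).injective (RatFunc.transcendental_X)
  letI ψ := ratLift (k := k) (RatFunc.X : RatFunc M) hX
  letI alg : Algebra (RatFunc k) (RatFunc M) := ψ.toRingHom.toAlgebra
  haveI st : IsScalarTower k (RatFunc k) (RatFunc M) := by
    refine IsScalarTower.of_algebraMap_eq fun a => ?_
    exact (ψ.commutes a).symm
  have htv : tv k (RatFunc M) = RatFunc.X := ratLift_X _ hX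
  refine ⟨RatFunc M, inferInstance, inferInstance, alg, inferInstance, st, inferInstance,
    isFunctionField_ratFunc M, ?_, ?_⟩
  · rw [htv]
    exact RatFunc.transcendental_X
  · rw [htv, eq_top_iff]
    intro a _
    have h1 : ∀ p : Polynomial M, algebraMap (Polynomial M) (RatFunc M) p ∈
        IntermediateField.adjoin M {(RatFunc.X : RatFunc M)} := by
      intro p
      induction p using Polynomial.induction_on' with
      | add p q hp hq => rw [map_add]; exact add_mem hp hq
      | monomial n a =>
        rw [← Polynomial.C_mul_X_pow_eq_monomial, map_mul, map_pow, RatFunc.algebraMap_X,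
          RatFunc.algebraMap_C]
        refine mul_mem ?_ (pow_mem (IntermediateField.subset_adjoin _ _
          (Set.mem_singleton _)) n)
        exact IntermediateField.algebraMap_mem (IntermediateField.adjoin M _) a
    rw [← RatFunc.num_div_denom a]
    exact div_mem (h1 _) (h1 _)

theorem essFiniteType_ratFunc_base {N : Type} [Field N] [Algebra k N] [Algebra (RatFunc k) N]
    [IsScalarTower k (RatFunc k) N] (h : Algebra.EssFiniteType (RatFunc k) N) :
    Algebra.EssFiniteType k N := by
  haveI := essFiniteType_ratFunc k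
  exact Algebra.EssFiniteType.comp k (RatFunc k) N

theorem trdeg_base {N : Type} [Field N] [Algebra k N] [Algebra (RatFunc k) N]
    [IsScalarTower k (RatFunc k) N] :
    Algebra.trdeg k N = Algebra.trdeg (RatFunc k) N + 1 := by
  rw [← trdeg_add_eq k (RatFunc k) (A := N), trdeg_ratFunc, add_comm]

/-- Numerical data of `M(T)` over `k(t)`. -/
theorem ratExt_data {M N : Type} [Field M] [Field N] [Algebra k M] [Algebra k N] [Algebra M N]
    [Algebra (RatFunc k) N] [IsScalarTower k (RatFunc k) N] [IsScalarTower k M N] {r : ℕ}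
    (hF : IsFunctionField M N) (hM : Algebra.EssFiniteType k M) (htr : Algebra.trdeg k M = r) :
    Algebra.EssFiniteType (RatFunc k) N ∧ Algebra.trdeg (RatFunc k) N = r := by
  haveI := hM
  haveI := hF.1
  haveI : Algebra.EssFiniteType k N := Algebra.EssFiniteType.comp k M N
  refine ⟨Algebra.EssFiniteType.of_comp k (RatFunc k) N, ?_⟩
  have h1 := trdeg_base (k := k) (N := N)
  rw [← trdeg_add_eq k M (A := N), hF.2, htr] at h1
  exact (Cardinal.add_one_inj.1 h1).symm

/-- The embedding of `M` into the residue field of a place of `N/k(t)` which is trivial on `M` and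
at which `T` specialises to the element `t` of `M`. -/
theorem exists_resHom {M N : Type} [Field M] [Field N] [Algebra k M]
    [Algebra (RatFunc k) M] [IsScalarTower k (RatFunc k) M] [Algebra k N] [Algebra M N]
    [Algebra (RatFunc k) N] [IsScalarTower k (RatFunc k) N] [IsScalarTower k M N]
    (v : Place (RatFunc k) N) (hv : ∀ a : M, a ≠ 0 → v.val (algebraMap M N a) = 1)
    (hf : v.val (tv k N - algebraMap M N (tv k M)) < 1) :
    ∃ ρ : M →ₐ[RatFunc k] v.resField, ∀ a, algebraMap M N a ∈ v.ring ∧
      ρ a = v.res (algebraMap M N a) := by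
  have hring : ∀ a : M, algebraMap M N a ∈ v.ring := by
    intro a
    by_cases h : a = 0
    · rw [h, map_zero]; exact zero_mem _
    · rw [v.mem_ring, hv a h]
  let ρ : M →+* v.resField :=
    { toFun := fun a => v.res (algebraMap M N a)
      map_one' := by rw [map_one, v.res_one]
      map_zero' := by rw [map_zero, v.res_zero]
      map_mul' := fun a b => by rw [map_mul, v.res_mul (hring a) (hring b)]
      map_add' := fun a b => by rw [map_add, v.res_add (hring a) (hring b)] }
  have hfr : tv k N - algebraMap M N (tv k M) ∈ v.ring := hf.le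
  have hρ : ρ.comp (algebraMap (RatFunc k) M) = algebraMap (RatFunc k) v.resField := by
    refine ratFunc_hom_ext ?_ ?_
    · intro a
      change v.res (algebraMap M N (algebraMap (RatFunc k) M (algebraMap k (RatFunc k) a))) = _
      rw [← IsScalarTower.algebraMap_apply k (RatFunc k) M, ← IsScalarTower.algebraMap_apply k M N,
        IsScalarTower.algebraMap_apply k (RatFunc k) N, v.res_algebraMap]
    · change v.res (algebraMap M N (tv k M)) = _
      have h1 : v.res (tv k N - algebraMap M N (tv k M)) = 0 := (v.res_eq_zero_iff hfr).2 hf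
      have h2 : tv k N ∈ v.ring := v.ring.algebraMap_mem _
      rw [v.res_sub h2 (hring _), sub_eq_zero] at h1
      rw [← h1]
      exact v.res_algebraMap _
  refine ⟨{ ρ with commutes' := fun a => congrArg (fun g => g a) hρ }, fun a => ⟨hring a, rfl⟩⟩

theorem caseB_core [Finite σ] {M N : Type} [Field M] [Field N] [Algebra k M]
    [Algebra (RatFunc k) M] [IsScalarTower k (RatFunc k) M] [Algebra k N] [Algebra M N]
    [Algebra (RatFunc k) N] [IsScalarTower k (RatFunc k) N] [IsScalarTower k M N]
    (hF : IsFunctionField M N) (hT : Transcendental M (tv k N)) {r : ℕ}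
    (hM : Algebra.EssFiniteType (RatFunc k) M) (htr : Algebra.trdeg (RatFunc k) M = r)
    {I : Set (MvPolynomial σ k)} (hI : ∀ P ∈ I, ∃ d, P.IsHomogeneous d) {x : σ → M}
    (hx : IsPt I x) (hxr : Algebra.trdeg (RatFunc k) (ratioField (RatFunc k) x) = r) :
    Finsupp.single (homIdeal (RatFunc k) x) (1 : ℚ) ∈
      Submodule.span ℚ {z | ∃ Q, IsSub I r Q ∧ z = Finsupp.single (extId Q) 1} ⊔
      rat (MvPolynomial.map (algebraMap k (RatFunc k)) '' I) r := by
  have hMk : Algebra.EssFiniteType k M := essFiniteType_ratFunc_base hM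
  have htrk : Algebra.trdeg k M = r + 1 := by rw [trdeg_base, htr]
  have hN := ratExt_data (r := r + 1) hF hMk (by rw [htrk]; push_cast; rfl)
  set x' : σ → N := fun j => algebraMap M N (x j) with hx'
  have hx'0 : x' ≠ 0 := by
    obtain ⟨j0, hj0⟩ := Function.ne_iff.1 hx.1
    intro h
    have := congrFun h j0
    exact hj0 ((map_eq_zero _).1 this)
  have hx'k : IsPt I x' := by
    refine ⟨hx'0, fun P hP => ?_⟩
    have h1 : MvPolynomial.aeval x' P = algebraMap M N (MvPolynomial.aeval x P) :=
      MvPolynomial.aeval_algebraMap_apply N x P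
    rw [h1, hx.2 P hP, map_zero]
  have hx'I : IsPt (MvPolynomial.map (algebraMap k (RatFunc k)) '' I) x' := isPt_map_iff.2 hx'k
  have hIK : ∀ P ∈ MvPolynomial.map (algebraMap k (RatFunc k)) '' I, ∃ d, P.IsHomogeneous d := by
    rintro _ ⟨P, hP, rfl⟩
    obtain ⟨d, hd⟩ := hI P hP
    exact ⟨d, hd.map _⟩
  set τ : M := tv k M with hτ
  set f : N := tv k N - algebraMap M N τ with hf
  have hfT : Transcendental M f := by
    intro h
    refine hT ?_
    have h1 := h.add (isAlgebraic_algebraMap (R := M) (A := N) τ)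
    rwa [hf, sub_add_cancel] at h1
  have hf0 : f ≠ 0 := by
    rintro h
    rw [h] at hfT
    exact hfT isAlgebraic_zero
  have hτt : Transcendental k τ := by
    intro h
    have h1 : IsAlgebraic k (algebraMap (RatFunc k) M RatFunc.X) := h
    rw [isAlgebraic_algebraMap_iff (algebraMap (RatFunc k) M).injective] at h1
    exact RatFunc.transcendental_X h1
  refine move_of_relation hN.1 (by rw [hN.2]; push_cast; rfl) hx'I hf0 _ _ ?_ ?_
  · intro v y hy hv hr
    by_cases hnt : ∃ a : M, a ≠ 0 ∧ v.val (algebraMap M N a) ≠ 1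
    · right
      have ht := transc_of_nontriv v hy htrk hr hnt
      have hyI : IsPt (MvPolynomial.map (algebraMap k (RatFunc k)) '' I) y := hy.isPt hIK hx'I
      have hyk : IsPt I y := isPt_map_iff.1 hyI
      rw [homIdeal_const hy.1 ht]
      exact Submodule.subset_span ⟨_, isSub_const hI hyk ht hr, rfl⟩
    · left
      push Not at hnt
      have hord : 0 < v.ord f := by
        have h1 : tv k N ∈ v.ring := v.ring.algebraMap_mem _
        have h2 : algebraMap M N τ ∈ v.ring := by
          by_cases h : τ = 0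
          · rw [h, map_zero]; exact zero_mem _
          · rw [v.mem_ring, hnt τ h]
        have h3 : f ∈ v.ring := sub_mem h1 h2
        have h4 := (v.ord_nonneg_iff hf0).2 h3
        omega
      obtain ⟨ρ, hρ⟩ := exists_resHom (k := k) v hnt ((v.ord_pos_iff hf0).1 hord)
      refine ⟨?_, hord⟩
      have h5 : SpecAt v x' (fun j => ρ (x j)) := by
        refine ⟨?_, 1, one_ne_zero, fun j => ?_⟩
        · obtain ⟨j0, hj0⟩ := Function.ne_iff.1 hx.1
          intro h
          exact hj0 ((map_eq_zero ρ).1 (congrFun h j0))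
        · rw [one_mul]
          exact hρ (x j)
      rw [h5.homIdeal_eq hy, homIdeal_map]
  · obtain ⟨w, hw⟩ := hF.exists_zero f hfT
    obtain ⟨v, hv⟩ := exists_place_of_close w τ hτt hw
    have hnt : ∀ a : M, a ≠ 0 → v.val (algebraMap M N a) = 1 := by
      intro a ha
      rw [hv]
      exact w.triv a ha
    have hvf : v.val f < 1 := by rw [hv]; exact hw
    obtain ⟨ρ, hρ⟩ := exists_resHom (k := k) v hnt hvf
    refine ⟨v, fun j => ρ (x j), ⟨?_, 1, one_ne_zero, fun j => ?_⟩, (v.ord_pos_iff hf0).2 hvf, ?_, ?_⟩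
    · obtain ⟨j0, hj0⟩ := Function.ne_iff.1 hx.1
      intro h
      exact hj0 ((map_eq_zero ρ).1 (congrFun h j0))
    · rw [one_mul]
      exact hρ (x j)
    · rw [trdeg_ratioField_map, hxr]
    · exact homIdeal_map ρ x

/-- CASE B: every cycle of dimension `r` on a projective variety over `k(t)` with equations over
`k` is rationally equivalent to a combination of integral subschemes defined over `k`. -/
theorem caseB [Finite σ] {I : Set (MvPolynomial σ k)} (hI : ∀ P ∈ I, ∃ d, P.IsHomogeneous d)
    {r : ℕ} {P : Ideal (MvPolynomial σ (RatFunc k))}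
    (hP : IsSub (MvPolynomial.map (algebraMap k (RatFunc k)) '' I) r P) :
    Finsupp.single P (1 : ℚ) ∈
      Submodule.span ℚ {z | ∃ Q, IsSub I r Q ∧ z = Finsupp.single (extId Q) 1} ⊔
      rat (MvPolynomial.map (algebraMap k (RatFunc k)) '' I) r := by
  obtain ⟨M, _, _, x, j0, hx, hj0, rfl, htop, hEss, htr⟩ := exists_generic hP
  letI : Algebra k M := ((algebraMap (RatFunc k) M).comp (algebraMap k (RatFunc k))).toAlgebra
  haveI : IsScalarTower k (RatFunc k) M := IsScalarTower.of_algebraMap_eq fun _ => rfl
  obtain ⟨N, _, _, _, _, _, _, hF, hT, _⟩ := exists_ratExt (k := k) M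
  refine caseB_core hF hT hEss htr hI (isPt_map_iff.1 hx) ?_
  rw [htop, IntermediateField.topEquiv.trdeg_eq, htr]

end Pool.Agent.HC
end

/- Helper16.DP.HC.Transport -/
section
set_option autoImplicit false
set_option linter.unusedSectionVars false
set_option linter.style.haveILetI false

/-!
Project HC (MP_0b9e0b_ag), module P4: rational equivalence is preserved by the extension of
scalars from `k` to `k(t)`.
-/

namespace Pool.Agent.HC

open Pool.Agent.Helper16

theorem finrank_congr {k₁ k₂ W : Type} [Field k₁] [Field k₂] [Field W] [Algebra k₁ W]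
    [Algebra k₂ W] (S₁ : IntermediateField k₁ W) (S₂ : IntermediateField k₂ W)
    (h : ∀ a, a ∈ S₁ ↔ a ∈ S₂) : Module.finrank S₁ W = Module.finrank S₂ W := by
  let i : S₁ ≃+* S₂ :=
    { toFun := fun a => ⟨a, (h _).1 a.2⟩
      invFun := fun a => ⟨a, (h _).2 a.2⟩
      left_inv := fun _ => rfl
      right_inv := fun _ => rfl
      map_mul' := fun _ _ => rfl
      map_add' := fun _ _ => rfl }
  exact Algebra.finrank_eq_of_equiv_equiv i (RingEquiv.refl W) (by ext; rfl)

theorem finrank_map_emb {k A W : Type} [Field k] [Field A] [Field W] [Algebra k A] [Algebra k W]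
    (j : A →ₐ[k] W) (R : IntermediateField k A) (F E : IntermediateField k W) (hF : F = R.map j)
    (hE : E = j.fieldRange) (h : F ≤ E) :
    Module.finrank F (IntermediateField.extendScalars h) = Module.finrank R A := by
  subst hF
  subst hE
  let f : A →+* IntermediateField.extendScalars h :=
    { toFun := fun a => ⟨j a, ⟨a, rfl⟩⟩
      map_one' := Subtype.ext (map_one j)
      map_mul' := fun a b => Subtype.ext (map_mul j a b)
      map_zero' := Subtype.ext (map_zero j)
      map_add' := fun a b => Subtype.ext (map_add j a b) }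
  let e : A ≃+* IntermediateField.extendScalars h := RingEquiv.ofBijective f
    ⟨f.injective, by rintro ⟨_, ⟨a, rfl⟩⟩; exact ⟨a, rfl⟩⟩
  exact (Algebra.finrank_eq_of_equiv_equiv (R.equivMap j).toRingEquiv e (by ext; rfl)).symm

variable {k σ : Type} [Field k] {M N : Type} [Field M] [Field N] [Algebra k M] [Algebra k N]
  [Algebra M N] [Algebra (RatFunc k) N] [IsScalarTower k (RatFunc k) N] [IsScalarTower k M N]

theorem SpecAt.ratioField_eq' {w : Place (RatFunc k) N} {x : σ → N} {y y' : σ → w.resField}
    (h : SpecAt w x y) (h' : SpecAt w x y') : ratioField k y' = ratioField k y := by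
  obtain ⟨c, hc, rfl⟩ := h.unique h'
  exact ratioField_scale y hc

/-- The residue field of a Gauss place is generated by the residues of `M` and the variable. -/
theorem adjoin_resM (hT : Transcendental M (tv k N))
    (htop : IntermediateField.adjoin M {tv k N} = ⊤) {v : Place k M} {w : Place (RatFunc k) N}
    (h : ∀ a : M, w.val (algebraMap M N a) = v.val a)
    (hg : ∀ p : Polynomial M, w.val (Polynomial.aeval (tv k N) p) = gv v.val p) :
    IntermediateField.adjoin (resM k M w) {tv k w.resField} = ⊤ := by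
  rw [eq_top_iff]
  intro c _
  obtain ⟨b, hb, rfl⟩ := w.res_surj c
  obtain ⟨p, q, hq, hpq⟩ := exists_frac hT htop b
  obtain ⟨i, hi0, hi, -⟩ := exists_gv v.val hq
  set a := q.coeff i with ha
  have hva : v.val a ≠ 0 := (Valuation.ne_zero_iff _).2 hi0
  -- integral polynomials
  have key : ∀ p : Polynomial M, gv v.val p ≤ v.val a →
      algebraMap M N a⁻¹ * Polynomial.aeval (tv k N) p ∈ w.ring ∧
      w.res (algebraMap M N a⁻¹ * Polynomial.aeval (tv k N) p) ∈
        IntermediateField.adjoin (resM k M w) {tv k w.resField} := by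
    intro p hp
    have h1 : ∀ i, w.val (algebraMap M N (a⁻¹ * p.coeff i)) ≤ 1 := by
      intro i
      rw [h, map_mul, map_inv₀, mul_comm]
      exact mul_inv_le_one_of_le₀ ((le_gv v.val p i).trans hp) zero_le
    have h2 := res_aeval_tv w (p.natDegree + 1) (fun i => a⁻¹ * p.coeff i) h1
    have h3 : ∑ i ∈ Finset.range (p.natDegree + 1),
        algebraMap M N (a⁻¹ * p.coeff i) * tv k N ^ i =
        algebraMap M N a⁻¹ * Polynomial.aeval (tv k N) p := by
      rw [Polynomial.aeval_eq_sum_range, Finset.mul_sum]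
      refine Finset.sum_congr rfl fun j _ => ?_
      rw [Algebra.smul_def, map_mul, mul_assoc]
    rw [h3] at h2
    refine ⟨h2.1, ?_⟩
    rw [h2.2]
    refine sum_mem fun j _ => mul_mem ?_ (pow_mem (IntermediateField.subset_adjoin _ _
      (Set.mem_singleton _)) j)
    exact IntermediateField.algebraMap_mem _ (⟨_, res_mem_resM w (h1 j)⟩ : resM k M w)
  have hq1 := key q hi.ge
  have hqv : w.val (algebraMap M N a⁻¹ * Polynomial.aeval (tv k N) q) = 1 := by
    rw [map_mul, h, hg, ← hi, map_inv₀, inv_mul_cancel₀ hva]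
  have hp : gv v.val p ≤ v.val a := by
    have h1 : w.val b = gv v.val p / gv v.val q := by rw [hpq, map_div₀, hg, hg]
    have h2 : gv v.val p / gv v.val q ≤ 1 := by rw [← h1]; exact hb
    rw [← hi] at h2
    exact (div_le_one₀ (zero_lt_iff.2 hva)).1 h2
  have hp1 := key p hp
  have hbe : b = (algebraMap M N a⁻¹ * Polynomial.aeval (tv k N) p) /
      (algebraMap M N a⁻¹ * Polynomial.aeval (tv k N) q) := by
    rw [mul_div_mul_left, hpq]
    rw [Ne, map_eq_zero]
    exact inv_ne_zero hi0
  rw [hbe, (res_div w hp1.1 hqv).2]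
  exact div_mem hp1.2 hq1.2

/-- Comparison of a term of a relation over `k` with the term at the Gauss place. -/
theorem gauss_term [Finite σ] (hT : Transcendental M (tv k N))
    (htop : IntermediateField.adjoin M {tv k N} = ⊤) {v : Place k M} {w : Place (RatFunc k) N}
    (h : ∀ a : M, w.val (algebraMap M N a) = v.val a)
    (hg : ∀ p : Polynomial M, w.val (Polynomial.aeval (tv k N) p) = gv v.val p) {r : ℕ}
    (htr : Algebra.trdeg k M = r + 1) {x : σ → M} {y : σ → v.resField} (hy : SpecAt v x y)
    (hr : Algebra.trdeg k (ratioField k y) = r) {y' : σ → w.resField}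
    (hy' : SpecAt w (fun i => algebraMap M N (x i)) y') :
    Algebra.trdeg (RatFunc k) (ratioField (RatFunc k) y') = r ∧
    homIdeal (RatFunc k) y' = extId (homIdeal k y) ∧
    Module.finrank (ratioField (RatFunc k) y') w.resField =
      Module.finrank (ratioField k y) v.resField := by
  obtain ⟨j, hj⟩ := exists_resEmb v w h
  have hjy : SpecAt w (fun i => algebraMap M N (x i)) (fun i => j (y i)) := hy.map_emb h hj
  have ht := transc_of_gauss h hg
  have hle := ratioField_le_resM w hjy
  have ht' : Transcendental (ratioField k (fun i => j (y i))) (tv k w.resField) := by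
    letI : Algebra (ratioField k (fun i => j (y i))) (resM k M w) :=
      (IntermediateField.inclusion hle).toAlgebra
    haveI : IsScalarTower (ratioField k (fun i => j (y i))) (resM k M w) w.resField :=
      IsScalarTower.of_algebraMap_eq fun _ => rfl
    exact Transcendental.restrictScalars
      (algebraMap (ratioField k (fun i => j (y i))) (resM k M w)).injective ht
  have htrj : Algebra.trdeg (RatFunc k) (ratioField (RatFunc k) (fun i => j (y i))) = r := by
    rw [trdeg_const _ ht', trdeg_ratioField_map, hr]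
  have hnt : ∃ a : M, a ≠ 0 ∧ w.val (algebraMap M N a) ≠ 1 := by
    obtain ⟨f, hf0, hf⟩ := v.exists_uniformizer
    refine ⟨f, hf0, ?_⟩
    rw [h, hf]
    exact exp_neg_one_lt.ne
  have halg := (transc_resM w hjy htr htrj hnt).2.2
  refine ⟨?_, ?_, ?_⟩
  · rw [hjy.ratioField_eq hy', htrj]
  · rw [hjy.homIdeal_eq hy', homIdeal_const hjy.1 ht', homIdeal_map]
  · rw [hjy.ratioField_eq hy']
    have h1 := finrank_congr (ratioField (RatFunc k) (fun i => j (y i)))
      (ratT k (fun i => j (y i))) (fun a => by
        have h2 := ratT_restrict (k := k) (fun i => j (y i))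
        have h3 : a ∈ (ratT k (fun i => j (y i))).restrictScalars k ↔
            a ∈ (ratioField (RatFunc k) (fun i => j (y i))).restrictScalars k := by rw [h2]
        exact h3.symm)
    rw [h1, finrank_tau _ _ hle halg _ ht (adjoin_resM hT htop h hg)]
    exact finrank_map_emb j (ratioField k y) _ _ (ratioField_map j y) (resM_eq_range h hj) hle

/-- The extension of scalars of cycles. -/
noncomputable def extL (k σ : Type) [Field k] :
    (Ideal (MvPolynomial σ k) →₀ ℚ) →ₗ[ℚ] (Ideal (MvPolynomial σ (RatFunc k)) →₀ ℚ) :=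
  Finsupp.lmapDomain ℚ ℚ extId

theorem extL_single (P : Ideal (MvPolynomial σ k)) (c : ℚ) :
    extL k σ (Finsupp.single P c) = Finsupp.single (extId P) c := by
  unfold extL
  rw [Finsupp.lmapDomain_apply, Finsupp.mapDomain_single]

/-- Rational equivalence is preserved by extension of scalars. -/
theorem extL_rat [Finite σ] {I : Set (MvPolynomial σ k)} {r : ℕ}
    {z : Ideal (MvPolynomial σ k) →₀ ℚ} (hz : z ∈ rat I r) :
    extL k σ z ∈ rat (MvPolynomial.map (algebraMap k (RatFunc k)) '' I) r := by
  classical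
  refine Submodule.span_induction ?_ ?_ ?_ ?_ hz
  · rintro z ⟨M, _, _, x, f, S, y, hM, htr, hx, hf, hy, hS, rfl⟩
    obtain ⟨N, _, _, _, _, _, _, hF, hT, htop⟩ := exists_ratExt (k := k) M
    have hN := ratExt_data (r := r + 1) hF hM (by rw [htr]; push_cast; rfl)
    set x' : σ → N := fun j => algebraMap M N (x j) with hx'
    have hx'0 : x' ≠ 0 := by
      obtain ⟨j0, hj0⟩ := Function.ne_iff.1 hx.1
      intro h
      exact hj0 ((map_eq_zero _).1 (congrFun h j0))
    have hx'k : IsPt I x' := by
      refine ⟨hx'0, fun P hP => ?_⟩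
      have h1 : MvPolynomial.aeval x' P = algebraMap M N (MvPolynomial.aeval x P) :=
        MvPolynomial.aeval_algebraMap_apply N x P
      rw [h1, hx.2 P hP, map_zero]
    have hx'I : IsPt (MvPolynomial.map (algebraMap k (RatFunc k)) '' I) x' := isPt_map_iff.2 hx'k
    have hf' : algebraMap M N f ≠ 0 := (map_ne_zero _).2 hf
    obtain ⟨S', y', hy', hS', hrel⟩ := exists_relation hN.1 (by rw [hN.2]; push_cast; rfl)
      hx'I hf'
    choose g hg1 hg2 using fun v : Place k M => exists_gaussPlace hT htop v
    have hord : ∀ (v : Place k M) (w : Place (RatFunc k) N),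
        (∀ a : M, w.val (algebraMap M N a) = v.val a) →
        w.ord (algebraMap M N f) = v.ord f := by
      intro v w h
      unfold Place.ord
      rw [h]
    convert hrel using 1
    rw [map_sum]
    simp only [extL_single]
    refine Finset.sum_bij (fun v _ => g v) ?_ ?_ ?_ ?_
    · intro v hv
      have h1 := (hS v).1 hv
      have h2 := gauss_term hT htop (hg1 v) (hg2 v) htr (hy v) h1.2 (hy' (g v))
      exact (hS' _).2 ⟨by rw [hord v _ (hg1 v)]; exact h1.1, h2.1⟩
    · intro v _ v' _ h1
      apply Place.ext_val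
      ext a
      rw [← hg1 v, ← hg1 v', h1]
    · intro w hw
      have h1 := (hS' w).1 hw
      have hnt : ∃ a : M, a ≠ 0 ∧ w.val (algebraMap M N a) ≠ 1 := by
        refine ⟨f, hf, fun h2 => h1.1 ?_⟩
        exact (w.ord_eq_zero_iff hf').2 h2
      have h2 := transc_resM w (hy' w) htr h1.2 hnt
      obtain ⟨v, hv1, hv2⟩ := exists_restrict_gauss hT htop w h2.2.1
      refine ⟨v, (hS v).2 ⟨by rw [← hord v w hv1]; exact h1.1, ?_⟩,
        gauss_unique hT htop v _ _ (hg2 v) hv2⟩
      obtain ⟨j, hj⟩ := exists_resEmb v w hv1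
      have h3 : SpecAt w x' (fun i => j (y v i)) := (hy v).map_emb hv1 hj
      rw [← h2.1, h3.ratioField_eq' (hy' w), trdeg_ratioField_map]
    · intro v hv
      have h1 := (hS v).1 hv
      have h2 := gauss_term hT htop (hg1 v) (hg2 v) htr (hy v) h1.2 (hy' (g v))
      rw [h2.2.1, h2.2.2, hord v _ (hg1 v)]
  · rw [map_zero]; exact zero_mem _
  · intro a b _ _ ha hb
    rw [map_add]; exact add_mem ha hb
  · intro c a _ ha
    rw [map_smul]; exact Submodule.smul_mem _ _ ha

end Pool.Agent.HC
end

/- Helper16.DP.HC.Surj -/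
section
set_option autoImplicit false
set_option linter.unusedSectionVars false

/-!
Project HC (MP_0b9e0b_ag): cycles on `X = {F + t G = 0}` are rationally equivalent to cycles defined
over `k` on the base locus `F = G = 0`.
-/

namespace Pool.Agent.HC

open Pool.Agent.Helper16

variable {k σ : Type} [Field k]

theorem rat_mono {K : Type} [Field K] {I J : Set (MvPolynomial σ K)} {r : ℕ}
    (h : ∀ (N : Type) [Field N] [Algebra K N] (x : σ → N), IsPt I x → IsPt J x) :
    rat I r ≤ rat J r := by
  refine Submodule.span_mono ?_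
  rintro z ⟨N, _, _, x, f, S, y, h1, h2, h3, h4⟩
  exact ⟨N, _, _, x, f, S, y, h1, h2, h N x h3, h4⟩

theorem linQ_eval {N : Type} [Field N] [Algebra (RatFunc k) N] (F G : MvPolynomial σ k)
    {x : σ → N}
    (hF : MvPolynomial.aeval x (MvPolynomial.map (algebraMap k (RatFunc k)) F) = 0)
    (hG : MvPolynomial.aeval x (MvPolynomial.map (algebraMap k (RatFunc k)) G) = 0) :
    MvPolynomial.aeval x (linQ F G) = 0 := by
  unfold linQ
  rw [map_add, map_mul, hF, hG, mul_zero, add_zero]

theorem rat_base_le (F G : MvPolynomial σ k) (r : ℕ) :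
    rat (MvPolynomial.map (algebraMap k (RatFunc k)) '' {F, G}) r ≤ rat {linQ F G} r := by
  refine rat_mono fun N _ _ x hx => ⟨hx.1, fun P hP => ?_⟩
  rw [Set.mem_singleton_iff.1 hP]
  exact linQ_eval F G (hx.2 _ ⟨F, by simp, rfl⟩) (hx.2 _ ⟨G, by simp, rfl⟩)

/-- The cycles on the base locus defined over `k`. -/
theorem base_mem [Finite σ] {F G : MvPolynomial σ k} {m : ℕ} (hF : F.IsHomogeneous m)
    (hG : G.IsHomogeneous m) {r : ℕ} {Q : Ideal (MvPolynomial σ (RatFunc k))}
    (hQ : IsSub {linQ F G} r Q) (hGQ : MvPolynomial.map (algebraMap k (RatFunc k)) G ∈ Q) :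
    Finsupp.single Q (1 : ℚ) ∈ (cyc {F, G} r).map (extL k σ) ⊔ rat {linQ F G} r := by
  have hFQ : MvPolynomial.map (algebraMap k (RatFunc k)) F ∈ Q := by
    have h1 : linQ F G ∈ Q := hQ.le rfl
    have h2 : MvPolynomial.map (algebraMap k (RatFunc k)) F = linQ F G -
        MvPolynomial.C RatFunc.X * MvPolynomial.map (algebraMap k (RatFunc k)) G := by
      unfold linQ
      ring
    rw [h2]
    exact sub_mem h1 (Ideal.mul_mem_left _ _ hGQ)
  have hQ' : IsSub (MvPolynomial.map (algebraMap k (RatFunc k)) '' {F, G}) r Q :=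
    { prime := hQ.prime
      hom := hQ.hom
      le := by
        rintro _ ⟨P, hP, rfl⟩
        rcases hP with rfl | hP
        · exact hFQ
        · rw [Set.mem_singleton_iff.1 hP]
          exact hGQ
      dim := hQ.dim }
  have hI : ∀ P ∈ ({F, G} : Set (MvPolynomial σ k)), ∃ d, P.IsHomogeneous d := by
    rintro P (rfl | hP)
    · exact ⟨m, hF⟩
    · rw [Set.mem_singleton_iff.1 hP]
      exact ⟨m, hG⟩
  refine (sup_le_sup ?_ (rat_base_le F G r)) (caseB hI hQ')
  rw [Submodule.span_le]
  rintro _ ⟨P, hP, rfl⟩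
  refine ⟨Finsupp.single P 1, Finsupp.single_mem_supported ℚ _ hP, ?_⟩
  rw [extL_single]

/-- Cycles on the pencil: if `W` is the space of cycles of dimension `r + 1` on the projective space
which are rationally equivalent to cycles on which `G` vanishes then everything else follows. -/
theorem surj [Finite σ] {F G : MvPolynomial σ k} {m : ℕ} (hF : F.IsHomogeneous m)
    (hG : G.IsHomogeneous m) {r : ℕ}
    (h5 : ∀ P : Ideal (MvPolynomial σ k), IsSub ∅ (r + 1) P → Finsupp.single P (1 : ℚ) ∈
      Submodule.span ℚ {z | ∃ P' : Ideal (MvPolynomial σ k), G ∈ P' ∧ z = Finsupp.single P' 1} ⊔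
        rat ∅ (r + 1))
    {Q : Ideal (MvPolynomial σ (RatFunc k))} (hQ : IsSub {linQ F G} r Q) :
    Finsupp.single Q (1 : ℚ) ∈ (cyc {F, G} r).map (extL k σ) ⊔ rat {linQ F G} r := by
  by_cases hGQ : MvPolynomial.map (algebraMap k (RatFunc k)) G ∈ Q
  · exact base_mem hF hG hQ hGQ
  · obtain ⟨P, hP, -, hPQ⟩ := phi_surj hF hG hQ hGQ
    rw [← hPQ]
    obtain ⟨a, ha, b, hb, hab⟩ := Submodule.mem_sup.1 (h5 P hP)
    rw [← hab, map_add]
    have h1 : phi F G a = 0 := by
      refine Submodule.span_induction ?_ ?_ ?_ ?_ ha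
      · rintro _ ⟨P', hP', rfl⟩
        exact phi_zero hG hP'
      · rw [map_zero]
      · intro a b _ _ ha hb
        rw [map_add, ha, hb, add_zero]
      · intro c a _ ha
        rw [map_smul, ha, smul_zero]
    rw [h1, zero_add]
    have h2 : spanG F G r ≤ (cyc {F, G} r).map (extL k σ) ⊔ rat {linQ F G} r := by
      unfold spanG
      rw [Submodule.span_le]
      rintro _ ⟨Q', hQ', hGQ', rfl⟩
      exact base_mem hF hG hQ' hGQ'
    exact sup_le le_sup_right h2 (phi_rel hF hG hb)

end Pool.Agent.HC
end

/- Helper16.DP.HC.Dim -/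
section
set_option autoImplicit false
set_option linter.unusedSectionVars false

/-!
Project HC (MP_0b9e0b_ag): integral subschemes over `k` stay integral over `k(t)`; dimensions of
Chow groups.
-/

namespace Pool.Agent.HC

open Pool.Agent.Helper16

section

variable {K σ : Type} [Field K]

/-- The Chow group is spanned by the classes of a finite set of integral subschemes. -/
theorem finrank_CH_le {I : Set (MvPolynomial σ K)} {r : ℕ} (T : Finset (Ideal (MvPolynomial σ K)))
    (hTs : ∀ P ∈ T, IsSub I r P)
    (hT : ∀ P, IsSub I r P → Finsupp.single P (1 : ℚ) ∈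
      Submodule.span ℚ ((fun P => Finsupp.single P (1 : ℚ)) '' (T : Set (Ideal (MvPolynomial σ K)))) ⊔
        rat I r) :
    Module.Finite ℚ (CH I r) ∧ Module.finrank ℚ (CH I r) ≤ T.card := by
  classical
  set R := (rat I r).submoduleOf (cyc I r) with hR
  let u : T → CH I r := fun P => R.mkQ ⟨Finsupp.single P.1 1,
    Finsupp.single_mem_supported ℚ _ (hTs P.1 P.2)⟩
  have hle : cyc I r ≤ Submodule.span ℚ ((fun P => Finsupp.single P (1 : ℚ)) ''
      (T : Set (Ideal (MvPolynomial σ K)))) ⊔ rat I r := by
    intro z hz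
    have h1 : z = ∑ P ∈ z.support, z P • Finsupp.single P (1 : ℚ) := by
      conv_lhs => rw [← Finsupp.sum_single z]
      unfold Finsupp.sum
      refine Finset.sum_congr rfl fun P _ => ?_
      rw [Finsupp.smul_single, smul_eq_mul, mul_one]
    rw [h1]
    refine sum_mem fun P hP => Submodule.smul_mem _ _ (hT P ?_)
    exact (Finsupp.mem_supported ℚ z).1 hz hP
  have htop : Submodule.span ℚ (Set.range u) = ⊤ := by
    rw [eq_top_iff]
    rintro c -
    obtain ⟨⟨z, hz⟩, rfl⟩ := R.mkQ_surjective c
    obtain ⟨a, ha, b, hb, hab⟩ := Submodule.mem_sup.1 (hle hz)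
    have h1 : ∃ a' : cyc I r, (a' : Ideal (MvPolynomial σ K) →₀ ℚ) = a ∧
        R.mkQ a' ∈ Submodule.span ℚ (Set.range u) := by
      refine Submodule.span_induction ?_ ?_ ?_ ?_ ha
      · rintro _ ⟨P, hP, rfl⟩
        exact ⟨⟨Finsupp.single P 1, Finsupp.single_mem_supported ℚ _ (hTs P hP)⟩, rfl,
          Submodule.subset_span ⟨⟨P, hP⟩, rfl⟩⟩
      · exact ⟨0, rfl, by rw [map_zero]; exact zero_mem _⟩
      · rintro x y - - ⟨x', rfl, hx⟩ ⟨y', rfl, hy⟩
        exact ⟨x' + y', rfl, by rw [map_add]; exact add_mem hx hy⟩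
      · rintro c x - ⟨x', rfl, hx⟩
        exact ⟨c • x', rfl, by rw [map_smul]; exact Submodule.smul_mem _ _ hx⟩
    obtain ⟨a', rfl, ha'⟩ := h1
    have h2 : R.mkQ ⟨z, hz⟩ = R.mkQ a' := by
      rw [← sub_eq_zero, ← map_sub, Submodule.mkQ_apply, Submodule.Quotient.mk_eq_zero]
      change ((⟨z, hz⟩ - a' : cyc I r) : Ideal (MvPolynomial σ K) →₀ ℚ) ∈ rat I r
      have h3 : ((⟨z, hz⟩ - a' : cyc I r) : Ideal (MvPolynomial σ K) →₀ ℚ) = b := by
        change z - a' = b
        rw [← hab]
        abel
      rw [h3]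
      exact hb
    rw [h2]
    exact ha'
  have hfin : Module.Finite ℚ (CH I r) :=
    ⟨⟨Finset.univ.image u, by rw [Finset.coe_image, Finset.coe_univ, Set.image_univ, htop]⟩⟩
  refine ⟨hfin, ?_⟩
  have h1 := finrank_range_le_card (R := ℚ) (b := u)
  unfold Set.finrank at h1
  rw [htop, finrank_top] at h1
  simpa using h1

end

variable {k σ : Type} [Field k]

/-- Integral subschemes over `k` stay integral over `k(t)`. -/
theorem isSub_ext [Finite σ] {I : Set (MvPolynomial σ k)} (hI : ∀ P ∈ I, ∃ d, P.IsHomogeneous d)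
    {r : ℕ} {P : Ideal (MvPolynomial σ k)} (hP : IsSub I r P) :
    IsSub (MvPolynomial.map (algebraMap k (RatFunc k)) '' I) r (extId P) := by
  obtain ⟨M, _, _, x, j0, hx, hj0, rfl, htop, hEss, htr⟩ := exists_generic hP
  obtain ⟨N, _, _, _, _, _, _, hF, hT, _⟩ := exists_ratExt (k := k) M
  set x' : σ → N := fun j => algebraMap M N (x j) with hx'
  have hx'0 : x' ≠ 0 := by
    obtain ⟨j0, hj0⟩ := Function.ne_iff.1 hx.1
    intro h
    exact hj0 ((map_eq_zero _).1 (congrFun h j0))
  have hx'k : IsPt I x' := by
    refine ⟨hx'0, fun P hP => ?_⟩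
    have h1 : MvPolynomial.aeval x' P = algebraMap M N (MvPolynomial.aeval x P) :=
      MvPolynomial.aeval_algebraMap_apply N x P
    rw [h1, hx.2 P hP, map_zero]
  have hx'I : IsPt (MvPolynomial.map (algebraMap k (RatFunc k)) '' I) x' := isPt_map_iff.2 hx'k
  have hIK : ∀ P ∈ MvPolynomial.map (algebraMap k (RatFunc k)) '' I, ∃ d, P.IsHomogeneous d := by
    rintro _ ⟨P, hP, rfl⟩
    obtain ⟨d, hd⟩ := hI P hP
    exact ⟨d, hd.map _⟩
  let j : M →ₐ[k] N := IsScalarTower.toAlgHom k M N
  have hle : ratioField k x' ≤ j.fieldRange := by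
    have h1 : ratioField k x' = (ratioField k x).map j := ratioField_map j x
    rw [h1]
    rintro _ ⟨a, _, rfl⟩
    exact ⟨a, rfl⟩
  have ht : Transcendental (ratioField k x') (tv k N) := by
    rintro ⟨q, hq, hq0⟩
    have hex : ∀ a : ratioField k x', ∃ b : M, algebraMap M N b = a := fun a => by
      obtain ⟨b, hb⟩ := hle a.2
      exact ⟨b, hb⟩
    choose f hf using hex
    have hinj := (algebraMap M N).injective
    let i : ratioField k x' →+* M :=
      { toFun := f
        map_one' := hinj (by rw [hf, map_one]; rfl)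
        map_mul' := fun a b => hinj (by rw [hf, map_mul, hf, hf]; rfl)
        map_zero' := hinj (by rw [hf, map_zero]; rfl)
        map_add' := fun a b => hinj (by rw [hf, map_add, hf, hf]; rfl) }
    have hi : ∀ a, algebraMap M N (i a) = a := hf
    refine hT ⟨q.map i, (Polynomial.map_ne_zero_iff i.injective).2 hq, ?_⟩
    rw [← hq0, Polynomial.aeval_def, Polynomial.eval₂_map, Polynomial.aeval_def]
    congr 1
    ext a
    exact hi a
  have h1 : homIdeal (RatFunc k) x' = extId (homIdeal k x) := by
    rw [homIdeal_const hx'0 ht]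
    congr 1
    exact homIdeal_map j x
  rw [← h1]
  refine isSub_of_pt hIK hx'I ?_
  rw [trdeg_const x' ht]
  have h2 := trdeg_ratioField_map j x
  have h3 : (fun i => j (x i)) = x' := rfl
  rw [h3] at h2
  rw [h2, htop, IntermediateField.topEquiv.trdeg_eq, htr]

theorem isSub_ext_pencil [Finite σ] {F G : MvPolynomial σ k} {m : ℕ} (hF : F.IsHomogeneous m)
    (hG : G.IsHomogeneous m) {r : ℕ} {P : Ideal (MvPolynomial σ k)} (hP : IsSub {F, G} r P) :
    IsSub {linQ F G} r (extId P) := by
  have hI : ∀ P ∈ ({F, G} : Set (MvPolynomial σ k)), ∃ d, P.IsHomogeneous d := by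
    rintro P (rfl | hP)
    · exact ⟨m, hF⟩
    · rw [Set.mem_singleton_iff.1 hP]
      exact ⟨m, hG⟩
  have h1 := isSub_ext hI hP
  refine ⟨h1.prime, h1.hom, ?_, h1.dim⟩
  intro L hL
  rw [Set.mem_singleton_iff.1 hL]
  unfold linQ
  exact add_mem (h1.le ⟨F, by simp, rfl⟩) (Ideal.mul_mem_left _ _ (h1.le ⟨G, by simp, rfl⟩))

/-- The bound for the Chow group of a pencil by the number of generators of the Chow group of its
base locus. -/
theorem finrank_pencil_le [Finite σ] {F G : MvPolynomial σ k} {m : ℕ} (hF : F.IsHomogeneous m)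
    (hG : G.IsHomogeneous m) {r : ℕ}
    (h5 : ∀ P : Ideal (MvPolynomial σ k), IsSub ∅ (r + 1) P → Finsupp.single P (1 : ℚ) ∈
      Submodule.span ℚ {z | ∃ P' : Ideal (MvPolynomial σ k), G ∈ P' ∧ z = Finsupp.single P' 1} ⊔
        rat ∅ (r + 1))
    (T : Finset (Ideal (MvPolynomial σ k))) (hTs : ∀ P ∈ T, IsSub {F, G} r P)
    (hT : ∀ P, IsSub {F, G} r P → Finsupp.single P (1 : ℚ) ∈
      Submodule.span ℚ ((fun P => Finsupp.single P (1 : ℚ)) '' (T : Set (Ideal (MvPolynomial σ k)))) ⊔
        rat {F, G} r) :
    Module.Finite ℚ (CH {linQ F G} r) ∧ Module.finrank ℚ (CH {linQ F G} r) ≤ T.card := by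
  classical
  have h1 : ∀ P ∈ T.image extId, IsSub {linQ F G} r P := by
    intro P hP
    obtain ⟨P', hP', rfl⟩ := Finset.mem_image.1 hP
    exact isSub_ext_pencil hF hG (hTs P' hP')
  have h2 := finrank_CH_le (T.image extId) h1 (fun Q hQ => by
    obtain ⟨a, ⟨z, hz, rfl⟩, b, hb, hab⟩ := Submodule.mem_sup.1 (surj hF hG h5 hQ)
    rw [← hab]
    refine add_mem ?_ ((le_sup_right : rat {linQ F G} r ≤ _) hb)
    have hz' : z ∈ Submodule.span ℚ ((fun P => Finsupp.single P (1 : ℚ)) ''
        (T : Set (Ideal (MvPolynomial σ k)))) ⊔ rat {F, G} r := by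
      have h3 : z = ∑ P ∈ z.support, z P • Finsupp.single P (1 : ℚ) := by
        conv_lhs => rw [← Finsupp.sum_single z]
        unfold Finsupp.sum
        refine Finset.sum_congr rfl fun P _ => ?_
        rw [Finsupp.smul_single, smul_eq_mul, mul_one]
      rw [h3]
      refine sum_mem fun P hP => Submodule.smul_mem _ _ (hT P ?_)
      exact (Finsupp.mem_supported ℚ z).1 hz hP
    obtain ⟨a, ha, c, hc, hac⟩ := Submodule.mem_sup.1 hz'
    rw [← hac, map_add]
    refine add_mem ((le_sup_left : Submodule.span ℚ ((fun P => Finsupp.single P (1 : ℚ)) ''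
      (↑(T.image extId) : Set (Ideal (MvPolynomial σ (RatFunc k))))) ≤ _) ?_)
      ((le_sup_right : rat {linQ F G} r ≤ _) (rat_base_le F G r (extL_rat hc)))
    have h4 := Submodule.mem_map_of_mem (f := extL k σ) ha
    rw [Submodule.map_span] at h4
    refine Submodule.span_mono ?_ h4
    rintro _ ⟨_, ⟨P, hP, rfl⟩, rfl⟩
    refine ⟨extId P, ?_, ?_⟩
    · rw [Finset.coe_image]
      exact ⟨P, hP, rfl⟩
    · change _ = extL k σ (Finsupp.single P 1)
      rw [extL_single])
  exact ⟨h2.1, h2.2.trans Finset.card_image_le⟩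

end Pool.Agent.HC
end
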