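import Mathlib
import Pool.Agent.HC.DWDefs
import Pool.Agent.Helper16.DPG.G04

/- Helper16.DP.HC.LDW -/
section
set_option autoImplicit false

/-!
Project HC (MP_0b9e0b_ag), module DW-D2b: the L-polynomial of the hypersurfaces
`∏ x_j^(e_j) + t ∑ x_j^(q+1) = 0` and its order at the central point.
-/

namespace Pool.Agent.HC

namespace LDW

open Polynomial

/-- `a` is the logarithmic derivative of `P`: `X P' = P a`. -/
def IsLog (P a : PowerSeries ℚ) : Prop :=
  PowerSeries.X * PowerSeries.derivative ℚ P = P * a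

theorem isLog_one : IsLog 1 0 := by
  simp [IsLog]

theorem IsLog.mul {P Q a b : PowerSeries ℚ} (hP : IsLog P a) (hQ : IsLog Q b) :
    IsLog (P * Q) (a + b) := by
  unfold IsLog at *
  rw [Derivation.leibniz]
  simp only [smul_eq_mul]
  linear_combination P * hQ + Q * hP

theorem IsLog.pow {P a : PowerSeries ℚ} (hP : IsLog P a) (n : ℕ) : IsLog (P ^ n) (n • a) := by
  induction n with
  | zero => simpa using isLog_one
  | succ n ih =>
    rw [pow_succ, succ_nsmul]
    exact ih.mul hP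

theorem isLog_prod {ι : Type*} (s : Finset ι) (P a : ι → PowerSeries ℚ)
    (h : ∀ i ∈ s, IsLog (P i) (a i)) : IsLog (∏ i ∈ s, P i) (∑ i ∈ s, a i) := by
  classical
  induction s using Finset.induction_on with
  | empty => simpa using isLog_one
  | insert i s hi ih =>
    rw [Finset.prod_insert hi, Finset.sum_insert hi]
    exact (h i (Finset.mem_insert_self i s)).mul
      (ih fun j hj => h j (Finset.mem_insert_of_mem hj))

/-- The series `-∑_{n ≥ 1} α ^ n X ^ n`. -/
noncomputable def geo (α : ℚ) : PowerSeries ℚ :=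
  PowerSeries.mk fun n => if n = 0 then 0 else -α ^ n

theorem isLog_lin (α : ℚ) : IsLog ((1 - C α * X : ℚ[X]) : PowerSeries ℚ) (geo α) := by
  unfold IsLog
  have h1 : ((1 - C α * X : ℚ[X]) : PowerSeries ℚ) = 1 - PowerSeries.C α * PowerSeries.X := by
    push_cast
    rfl
  have h2 : PowerSeries.derivative ℚ (1 - PowerSeries.C α * PowerSeries.X) =
      -PowerSeries.C α := by
    rw [map_sub, Derivation.leibniz, PowerSeries.derivative_C, PowerSeries.derivative_X]
    simp
  rw [h1, h2]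
  ext n
  rcases n with _ | n
  · simp [geo]
  · rw [PowerSeries.coeff_succ_X_mul, sub_mul, one_mul, map_sub, mul_assoc,
      PowerSeries.coeff_C_mul, PowerSeries.coeff_succ_X_mul, map_neg, PowerSeries.coeff_C]
    unfold geo
    simp only [PowerSeries.coeff_mk]
    rcases eq_or_ne n 0 with hn | hn
    · subst hn; simp
    · rw [if_neg hn, if_neg hn, if_neg (Nat.succ_ne_zero n)]
      ring

/-- The numbers `(q ^ (N + 1 - c) ± q) / (q + 1)`. -/
def wDW (q N c : ℕ) : ℕ :=
  if Even c then (q ^ (N + 1 - c) - q) / (q + 1) else (q ^ (N + 1 - c) + q) / (q + 1)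

theorem wDW_spec {q N c : ℕ} (hq : 1 ≤ q) (hN : Even N) (hc : c ≤ N + 1) :
    ((q : ℤ) + 1) * (wDW q N c : ℤ) = -((-1) ^ c * ((-(q : ℤ)) ^ (N + 1 - c) + q)) := by
  have hmod : ((q : ℤ) + 1) ∣ (q : ℤ) ^ (N + 1 - c) - (-1) ^ (N + 1 - c) := by
    have := sub_dvd_pow_sub_pow (q : ℤ) (-1) (N + 1 - c)
    simpa using this
  unfold wDW
  by_cases h : Even c
  · rw [if_pos h]
    have h1 : Odd (N + 1 - c) := by
      rw [Nat.odd_sub hc]
      constructor
      · intro _; exact h
      · intro _; exact hN.add_one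
    have h2 : q ≤ q ^ (N + 1 - c) := by
      obtain ⟨m, hm⟩ := h1
      rw [hm]
      calc q = q ^ 1 := (pow_one q).symm
        _ ≤ q ^ (2 * m + 1) := Nat.pow_le_pow_right hq (by omega)
    have h3 : (q + 1) ∣ q ^ (N + 1 - c) - q := by
      have h4 : ((q : ℤ) + 1) ∣ (q : ℤ) ^ (N + 1 - c) - q := by
        rw [h1.neg_one_pow] at hmod
        have h5 : (q : ℤ) ^ (N + 1 - c) - q = ((q : ℤ) ^ (N + 1 - c) - (-1)) - ((q : ℤ) + 1) := by
          ring
        rw [h5]
        exact dvd_sub hmod (dvd_refl _)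
      have h6 : (((q + 1 : ℕ)) : ℤ) ∣ ((q ^ (N + 1 - c) - q : ℕ) : ℤ) := by
        rw [Nat.cast_sub h2]
        push_cast
        exact h4
      exact Int.natCast_dvd_natCast.mp h6
    have h7 : (q + 1) * ((q ^ (N + 1 - c) - q) / (q + 1)) = q ^ (N + 1 - c) - q :=
      Nat.mul_div_cancel' h3
    have h8 := congrArg (fun n : ℕ => (n : ℤ)) h7
    simp only [Nat.cast_mul, Nat.cast_sub h2, Nat.cast_pow, Nat.cast_add, Nat.cast_one] at h8
    rw [h8, h.neg_one_pow, h1.neg_pow]
    ring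
  · rw [if_neg h]
    have h' : Odd c := Nat.not_even_iff_odd.mp h
    have h1 : Even (N + 1 - c) := by
      rw [Nat.even_sub hc]
      constructor
      · intro h2
        exact absurd h2 (Nat.not_even_iff_odd.mpr hN.add_one)
      · intro h2
        exact absurd h2 h
    have h3 : (q + 1) ∣ q ^ (N + 1 - c) + q := by
      have h4 : ((q : ℤ) + 1) ∣ (q : ℤ) ^ (N + 1 - c) + q := by
        rw [h1.neg_one_pow] at hmod
        have h5 : (q : ℤ) ^ (N + 1 - c) + q = ((q : ℤ) ^ (N + 1 - c) - 1) + ((q : ℤ) + 1) := by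
          ring
        rw [h5]
        exact dvd_add hmod (dvd_refl _)
      have h6 : (((q + 1 : ℕ)) : ℤ) ∣ ((q ^ (N + 1 - c) + q : ℕ) : ℤ) := by
        push_cast
        exact h4
      exact Int.natCast_dvd_natCast.mp h6
    have h7 : (q + 1) * ((q ^ (N + 1 - c) + q) / (q + 1)) = q ^ (N + 1 - c) + q :=
      Nat.mul_div_cancel' h3
    have h8 := congrArg (fun n : ℕ => (n : ℤ)) h7
    simp only [Nat.cast_mul, Nat.cast_pow, Nat.cast_add, Nat.cast_one] at h8
    rw [h8, h'.neg_one_pow, h1.neg_pow]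
    ring

/-- The reciprocal roots. -/
def alDW (q mu N c : ℕ) : ℚ := (-(q : ℚ)) ^ (mu * (N + 1 - c))

/-- The polynomial `∏ (1 - α_c T) ^ (b_c)`. -/
noncomputable def polyDW (q mu N J : ℕ) : ℚ[X] :=
  ∏ c ∈ Finset.Icc 1 J, (1 - C (alDW q mu N c) * X) ^ (J.choose c * wDW q N c)

/-- The coefficients of the logarithmic derivative. -/
noncomputable def aDW (q mu N J : ℕ) (n : ℕ) : ℚ :=
  if n = 0 then 0 else
    -∑ c ∈ Finset.Icc 1 J, ((J.choose c * wDW q N c : ℕ) : ℚ) * alDW q mu N c ^ n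

theorem polyDW_log (q mu N J : ℕ) :
    IsLog ((polyDW q mu N J : ℚ[X]) : PowerSeries ℚ) (PowerSeries.mk (aDW q mu N J)) := by
  have h1 : ((polyDW q mu N J : ℚ[X]) : PowerSeries ℚ) =
      ∏ c ∈ Finset.Icc 1 J, ((1 - C (alDW q mu N c) * X : ℚ[X]) : PowerSeries ℚ) ^
        (J.choose c * wDW q N c) := by
    unfold polyDW
    rw [← Polynomial.coeToPowerSeries.ringHom_apply, map_prod]
    refine Finset.prod_congr rfl fun c _ => ?_
    rw [map_pow, Polynomial.coeToPowerSeries.ringHom_apply]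
  have h2 : PowerSeries.mk (aDW q mu N J) =
      ∑ c ∈ Finset.Icc 1 J, (J.choose c * wDW q N c) • geo (alDW q mu N c) := by
    ext n
    rw [map_sum, PowerSeries.coeff_mk]
    unfold aDW
    rcases eq_or_ne n 0 with hn | hn
    · rw [if_pos hn]
      symm
      refine Finset.sum_eq_zero fun c _ => ?_
      rw [map_nsmul]
      unfold geo
      rw [PowerSeries.coeff_mk, if_pos hn, smul_zero]
    · rw [if_neg hn, ← Finset.sum_neg_distrib]
      refine Finset.sum_congr rfl fun c _ => ?_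
      rw [map_nsmul]
      unfold geo
      rw [PowerSeries.coeff_mk, if_neg hn, nsmul_eq_mul]
      ring
  rw [h1, h2]
  exact isLog_prod _ _ _ fun c _ => (isLog_lin _).pow _

theorem polyDW_const (q mu N J : ℕ) :
    PowerSeries.constantCoeff ((polyDW q mu N J : ℚ[X]) : PowerSeries ℚ) = 1 := by
  rw [Polynomial.constantCoeff_coe, Polynomial.coeff_zero_eq_eval_zero]
  unfold polyDW
  rw [Polynomial.eval_prod]
  refine Finset.prod_eq_one fun c _ => ?_
  simp

theorem polyDW_root {q mu N J : ℕ} (hq : 2 ≤ q) (hmu : mu ≠ 0) (hN : Even N)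
    (hJ : J ≤ N + 1) :
    (polyDW q mu N J).rootMultiplicity (((((q : ℚ) ^ (2 * mu))) ^ (N / 2))⁻¹) =
      J * ((q ^ N + q) / (q + 1)) := by
  have hq0 : (q : ℚ) ≠ 0 := by
    have : q ≠ 0 := by omega
    exact_mod_cast this
  have hx : ((((q : ℚ) ^ (2 * mu))) ^ (N / 2)) = (q : ℚ) ^ (mu * N) := by
    obtain ⟨M, hM⟩ := hN
    have h1 : N / 2 = M := by (clear * - q J hM; omega)
    rw [h1, ← pow_mul, hM]
    congr 1
    ring
  have hal1 : alDW q mu N 1 = (q : ℚ) ^ (mu * N) := by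
    unfold alDW
    have h1 : N + 1 - 1 = N := by omega
    rw [h1, (hN.mul_left mu).neg_pow]
  rw [hx]
  have hne : ∀ c, 2 ≤ c → c ≤ N + 1 → alDW q mu N c * ((q : ℚ) ^ (mu * N))⁻¹ ≠ 1 := by
    intro c hc hc' h
    have h0 : (q : ℚ) ^ (mu * N) ≠ 0 := pow_ne_zero _ hq0
    have h1 : alDW q mu N c = (q : ℚ) ^ (mu * N) := by
      field_simp at h
      exact h
    have h2 : |alDW q mu N c| = (q : ℚ) ^ (mu * (N + 1 - c)) := by
      unfold alDW
      rw [abs_pow, abs_neg, Nat.abs_cast]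
    rw [h1, abs_of_pos (by positivity)] at h2
    have h3 : (1 : ℚ) < q := by exact_mod_cast (by omega : 1 < q)
    have h4 := pow_right_injective₀ (by (clear * - h3; linarith only [h3])) h3.ne' h2
    have h5 : N = N + 1 - c := Nat.eq_of_mul_eq_mul_left (Nat.pos_of_ne_zero hmu) h4
    omega
  rcases Nat.eq_zero_or_pos J with hJ0 | hJ0
  · subst hJ0
    simp [polyDW]
  have hsplit : polyDW q mu N J =
      (1 - C (alDW q mu N 1) * X) ^ (J.choose 1 * wDW q N 1) *
        ∏ c ∈ Finset.Icc 2 J, (1 - C (alDW q mu N c) * X) ^ (J.choose c * wDW q N c) := by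
    unfold polyDW
    rw [← Finset.Ioc_insert_left (by omega : 1 ≤ J), Finset.prod_insert (by simp)]
    rfl
  have hlin : ∀ α : ℚ, (1 - C α * X : ℚ[X]) ≠ 0 := by
    intro α h
    have h1 := congrArg (Polynomial.eval 0) h
    simp at h1
  have hrest : Polynomial.rootMultiplicity (((q : ℚ) ^ (mu * N))⁻¹)
      (∏ c ∈ Finset.Icc 2 J, (1 - C (alDW q mu N c) * X) ^ (J.choose c * wDW q N c)) = 0 := by
    apply Polynomial.rootMultiplicity_eq_zero
    intro h
    unfold Polynomial.IsRoot at h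
    rw [Polynomial.eval_prod, Finset.prod_eq_zero_iff] at h
    obtain ⟨c, hc, h1⟩ := h
    rw [Finset.mem_Icc] at hc
    rw [Polynomial.eval_pow] at h1
    have h2 := eq_zero_of_pow_eq_zero h1
    rw [Polynomial.eval_sub, Polynomial.eval_one, Polynomial.eval_mul, Polynomial.eval_C,
      Polynomial.eval_X, sub_eq_zero] at h2
    exact hne c hc.1 (hc.2.trans hJ) h2.symm
  have hfac : (1 - C (alDW q mu N 1) * X : ℚ[X]) =
      C (-(q : ℚ) ^ (mu * N)) * (X - C (((q : ℚ) ^ (mu * N))⁻¹)) := by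
    have h0 : (q : ℚ) ^ (mu * N) ≠ 0 := pow_ne_zero _ hq0
    rw [hal1, mul_sub, ← C_mul, neg_mul, mul_inv_cancel₀ h0, C_neg, C_neg, C_1]
    ring
  have hne0 : ∀ s : Finset ℕ,
      (∏ c ∈ s, (1 - C (alDW q mu N c) * X : ℚ[X]) ^ (J.choose c * wDW q N c)) ≠ 0 :=
    fun s => Finset.prod_ne_zero_iff.mpr fun c _ => pow_ne_zero _ (hlin _)
  rw [hsplit, Polynomial.rootMultiplicity_mul (mul_ne_zero (pow_ne_zero _ (hlin _)) (hne0 _)),
    hrest, add_zero, hfac, mul_pow, ← C_pow, Polynomial.rootMultiplicity_mul, 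
    Polynomial.rootMultiplicity_C, zero_add, Polynomial.rootMultiplicity_X_sub_C_pow,
    Nat.choose_one_right]
  · unfold wDW
    rw [if_neg (by decide)]
    have h1 : N + 1 - 1 = N := by omega
    rw [h1]
  · refine mul_ne_zero ?_ (pow_ne_zero _ (Polynomial.X_sub_C_ne_zero _))
    rw [Ne, Polynomial.C_eq_zero]
    exact pow_ne_zero _ (neg_ne_zero.mpr (pow_ne_zero _ hq0))

/-- The polynomial `L`, given the formula for the number of points. -/
theorem exists_of_count (k : Type) [Field k] [Finite k] (q mu N : ℕ) (hq : 2 ≤ q)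
    (hmu : mu ≠ 0) (hcard : Nat.card k = q ^ (2 * mu)) (hN : Even N)
    (e : Fin (N + 1) → ℕ) (J : ℕ) (hJN : J ≤ N + 1)
    (hcount : ∀ (κ : Type) [Field κ] [Algebra k κ] [Finite κ] (nu : ℕ), nu ≠ 0 →
      Nat.card κ = q ^ (2 * nu) →
      ((q : ℤ) + 1) * countDW κ e = ((q : ℤ) ^ (2 * nu) - 1) *
        ∑ c ∈ Finset.Icc 1 J, (-1) ^ c * (J.choose c : ℤ) *
          ((-(q : ℤ)) ^ (N + 1 - c) + q) * (-(q : ℤ)) ^ (nu * (N + 1 - c))) :
    ∃ L : Polynomial ℚ, IsLDW k e (L : PowerSeries ℚ) ∧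
      L.rootMultiplicity (((Nat.card k : ℚ) ^ (N / 2))⁻¹) = J * ((q ^ N + q) / (q + 1)) := by
  refine ⟨polyDW q mu N J, ⟨polyDW_const _ _ _ _, aDW q mu N J, ?_, ?_, polyDW_log _ _ _ _⟩, ?_⟩
  · simp [aDW]
  · intro κ _ _ hn
    have hfin : Module.Finite k κ := Module.finite_of_finrank_pos (Nat.pos_of_ne_zero hn)
    have hfinκ : Finite κ := Module.finite_of_finite k
    obtain ⟨n, hn'⟩ : ∃ n, n = Module.finrank k κ := ⟨_, rfl⟩
    rw [← hn'] at hn ⊢
    have hcardκ : Nat.card κ = q ^ (2 * (mu * n)) := by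
      rw [Module.natCard_eq_pow_finrank (K := k), hcard, ← pow_mul, ← hn', mul_assoc]
    have h1 := hcount κ (mu * n) (mul_ne_zero hmu hn) hcardκ
    have h2 : ∑ c ∈ Finset.Icc 1 J, (-1) ^ c * (J.choose c : ℤ) *
          ((-(q : ℤ)) ^ (N + 1 - c) + q) * (-(q : ℤ)) ^ (mu * n * (N + 1 - c)) =
        ((q : ℤ) + 1) * -∑ c ∈ Finset.Icc 1 J, ((J.choose c * wDW q N c : ℕ) : ℤ) *
          (-(q : ℤ)) ^ (mu * n * (N + 1 - c)) := by
      rw [mul_neg, Finset.mul_sum, ← Finset.sum_neg_distrib]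
      refine Finset.sum_congr rfl fun c hc => ?_
      rw [Finset.mem_Icc] at hc
      have h3 := wDW_spec (by omega : 1 ≤ q) hN (hc.2.trans hJN)
      push_cast
      linear_combination ((J.choose c : ℤ) * (-(q : ℤ)) ^ (mu * n * (N + 1 - c))) * h3
    rw [h2] at h1
    have hq1 : ((q : ℤ) + 1) ≠ 0 := by (clear * - hq; positivity)
    have h4 : countDW κ e = ((q : ℤ) ^ (2 * (mu * n)) - 1) *
        -∑ c ∈ Finset.Icc 1 J, ((J.choose c * wDW q N c : ℕ) : ℤ) *
          (-(q : ℤ)) ^ (mu * n * (N + 1 - c)) := by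
      apply mul_left_cancel₀ hq1
      rw [h1]
      ring
    rw [h4, hcardκ]
    unfold aDW alDW
    rw [if_neg hn]
    push_cast
    congr 2
    refine Finset.sum_congr rfl fun c _ => ?_
    congr 1
    rw [← pow_mul]
    congr 1
    ring
  · rw [hcard]
    push_cast
    exact polyDW_root hq hmu hN hJN

end LDW

end Pool.Agent.HC
end

/- HC.CountDW -/
section
set_option autoImplicit false

/-!
Project HC (MP_0b9e0b_ag): `countDW` from the number of zeros of the Fermat forms.
-/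

open Finset

namespace Pool.Agent.HC

/-- One fibre of the pencil: for fixed values `a = F(x)`, `b = G(x)`. -/
theorem dw_fibre {κ : Type} [Field κ] [Fintype κ] [DecidableEq κ] (a b : κ) :
    (∑ t : κˣ, (if a + (t : κ) * b = 0 then (1 : ℤ) else 0)) + (if b = 0 then (1 : ℤ) else 0) =
      (if a ≠ 0 then (1 : ℤ) else 0) + (Fintype.card κ : ℤ) * (if a = 0 ∧ b = 0 then 1 else 0) := by
  classical
  have hQ : 1 ≤ Fintype.card κ := Fintype.card_pos
  by_cases hb : b = 0
  · subst hb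
    by_cases ha : a = 0
    · subst ha
      simp [Fintype.card_units, Nat.cast_sub hQ]
    · simp [ha]
  · by_cases ha : a = 0
    · subst ha
      simp [hb]
    · have hc : ∀ t : κˣ, (a + (t : κ) * b = 0) ↔ t = Units.mk0 (-a / b) (div_ne_zero (neg_ne_zero.2 ha) hb) := by
        intro t
        constructor
        · intro h
          ext
          rw [Units.val_mk0, eq_div_iff hb]
          linear_combination h
        · intro h
          rw [h, Units.val_mk0, div_mul_cancel₀ _ hb, add_neg_cancel]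
      simp only [hc]
      simp [hb, ha]

theorem zeros_eq_sum {κ σ : Type} [Field κ] [Fintype κ] [DecidableEq κ] [Fintype σ]
    [DecidableEq σ] (P : MvPolynomial σ κ) :
    (zeros P : ℤ) = ∑ x : σ → κ, (if x ≠ 0 ∧ MvPolynomial.eval x P = 0 then (1 : ℤ) else 0) := by
  classical
  rw [zeros, Nat.card_eq_fintype_card, Fintype.card_subtype, Finset.card_filter]
  push_cast
  rfl

theorem eval_monForm {κ : Type} [Field κ] {N : ℕ} (e : Fin (N + 1) → ℕ) (x : Fin (N + 1) → κ) :
    MvPolynomial.eval x (monForm κ e) = ∏ j, x j ^ e j := by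
  simp [monForm, map_prod]

theorem eval_fermat {κ : Type} [Field κ] {N m : ℕ} (x : Fin (N + 1) → κ) :
    MvPolynomial.eval x (fermat κ N m) = ∑ j, x j ^ m := by
  simp [fermat, map_sum]

/-- The product of the indicators `x_j ≠ 0` over the `j` with `e_j ≠ 0`. -/
theorem mon_ne_zero {κ : Type} [Field κ] [DecidableEq κ] {N : ℕ} (e : Fin (N + 1) → ℕ)
    (x : Fin (N + 1) → κ) :
    (if ∏ j, x j ^ e j ≠ 0 then (1 : ℤ) else 0) =
      ∏ j ∈ Finset.univ.filter (fun j => e j ≠ 0), (if x j = 0 then (0 : ℤ) else 1) := by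
  classical
  by_cases h : ∏ j, x j ^ e j ≠ 0
  · rw [if_pos h]
    symm
    apply Finset.prod_eq_one
    intro j hj
    rw [Finset.mem_filter] at hj
    rw [Finset.prod_ne_zero_iff] at h
    have := h j (Finset.mem_univ j)
    rw [if_neg]
    intro h0
    exact this (by rw [h0, zero_pow hj.2])
  · rw [if_neg h]
    symm
    push Not at h
    rw [Finset.prod_eq_zero_iff] at h
    obtain ⟨j, -, hj⟩ := h
    have h1 : e j ≠ 0 := by
      intro h0
      rw [h0, pow_zero] at hj
      exact one_ne_zero hj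
    apply Finset.prod_eq_zero (i := j) (by simp [h1])
    rw [if_pos]
    exact (pow_eq_zero_iff h1).1 hj

theorem card_mon_ne_zero {κ : Type} [Field κ] [Fintype κ] [DecidableEq κ] {N : ℕ}
    (e : Fin (N + 1) → ℕ) (J : ℕ) (hJ : (Finset.univ.filter fun j => e j ≠ 0).card = J) :
    (∑ x : Fin (N + 1) → κ, (if ∏ j, x j ^ e j ≠ 0 then (1 : ℤ) else 0)) =
      (Fintype.card κ : ℤ) ^ (N + 1 - J) * ((Fintype.card κ : ℤ) - 1) ^ J := by
  classical
  have h1 : ∀ x : Fin (N + 1) → κ, (if ∏ j, x j ^ e j ≠ 0 then (1 : ℤ) else 0) =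
      ∏ j, (if e j ≠ 0 then (if x j = 0 then (0 : ℤ) else 1) else 1) := by
    intro x
    rw [mon_ne_zero, Finset.prod_filter]
  simp only [h1]
  have h2 := Finset.prod_univ_sum (R := ℤ) (fun _ : Fin (N + 1) => (Finset.univ : Finset κ))
    (fun j y => (if e j ≠ 0 then (if y = 0 then (0 : ℤ) else 1) else 1))
  rw [Fintype.piFinset_univ] at h2
  rw [← h2]
  have h3 : ∀ j : Fin (N + 1), (∑ y : κ, (if e j ≠ 0 then (if y = 0 then (0 : ℤ) else 1) else 1)) =
      if e j ≠ 0 then (Fintype.card κ : ℤ) - 1 else (Fintype.card κ : ℤ) := by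
    intro j
    by_cases hj : e j ≠ 0
    · simp only [if_pos hj]
      have : ∀ y : κ, (if y = 0 then (0 : ℤ) else 1) = 1 - (if y = 0 then (1 : ℤ) else 0) := by
        intro y
        split_ifs <;> norm_num
      simp only [this]
      rw [Finset.sum_sub_distrib]
      simp
    · simp only [if_neg hj]
      simp
  simp only [h3]
  rw [Finset.prod_ite, Finset.prod_const, Finset.prod_const, hJ, mul_comm]
  congr 2
  have h4 := Finset.card_filter_add_card_filter_not (s := (Finset.univ : Finset (Fin (N + 1))))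
    (fun j => e j ≠ 0)
  rw [hJ, Finset.card_univ, Fintype.card_fin] at h4
  omega

/-- The number of zeros of a Fermat form with the coordinates in `A` equal to zero. -/
theorem card_fermat_zero {κ : Type} [Field κ] [Fintype κ] [DecidableEq κ] {N m : ℕ} (hm : m ≠ 0)
    (A : Finset (Fin (N + 1))) :
    (∑ x : Fin (N + 1) → κ, (if ∑ j, x j ^ m = 0 then (1 : ℤ) else 0) *
      ∏ j ∈ A, (if x j = 0 then (1 : ℤ) else 0)) =
      (Nat.card {x : Fin (N + 1 - A.card) → κ // ∑ i, x i ^ m = 0} : ℤ) := by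
  classical
  have h1 : ∀ x : Fin (N + 1) → κ, (if ∑ j, x j ^ m = 0 then (1 : ℤ) else 0) *
      ∏ j ∈ A, (if x j = 0 then (1 : ℤ) else 0) =
      if (∑ j, x j ^ m = 0 ∧ ∀ j ∈ A, x j = 0) then (1 : ℤ) else 0 := by
    intro x
    rw [Finset.prod_ite_zero, Finset.prod_const_one]
    split_ifs <;> simp_all
  simp only [h1]
  have h2 : (∑ x : Fin (N + 1) → κ, (if (∑ j, x j ^ m = 0 ∧ ∀ j ∈ A, x j = 0) then (1 : ℤ) else 0)) =
      (Nat.card {x : Fin (N + 1) → κ // ∑ j, x j ^ m = 0 ∧ ∀ j ∈ A, x j = 0} : ℤ) := by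
    rw [Nat.card_eq_fintype_card, Fintype.card_subtype, Finset.card_filter]
    push_cast
    rfl
  rw [h2]
  congr 1
  have hcard : Fintype.card {j : Fin (N + 1) // j ∉ A} = N + 1 - A.card := by
    rw [Fintype.card_subtype_compl, Fintype.card_fin, Fintype.card_coe]
  let φ : {j : Fin (N + 1) // j ∉ A} ≃ Fin (N + 1 - A.card) := Fintype.equivFinOfCardEq hcard
  apply Nat.card_congr
  refine ⟨fun x => ⟨fun i => x.1 (φ.symm i).1, ?_⟩,
    fun y => ⟨fun j => if h : j ∈ A then 0 else y.1 (φ ⟨j, h⟩), ?_⟩, ?_, ?_⟩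
  · have h3 := x.2.1
    rw [← Fintype.sum_subtype_add_sum_subtype (fun j => j ∉ A) (fun j => x.1 j ^ m)] at h3
    have h4 : ∑ i : {j : Fin (N + 1) // ¬ j ∉ A}, x.1 i.1 ^ m = 0 := by
      apply Finset.sum_eq_zero
      intro i _
      rw [x.2.2 i.1 (not_not.1 i.2), zero_pow hm]
    rw [h4, add_zero] at h3
    exact (Equiv.sum_comp φ.symm (fun i : {j : Fin (N + 1) // j ∉ A} => x.1 i.1 ^ m)).trans h3
  · constructor
    · rw [← Fintype.sum_subtype_add_sum_subtype (fun j => j ∉ A)]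
      have h4 : ∑ i : {j : Fin (N + 1) // ¬ j ∉ A},
          (if h : i.1 ∈ A then (0 : κ) else y.1 (φ ⟨i.1, h⟩)) ^ m = 0 := by
        apply Finset.sum_eq_zero
        intro i _
        rw [dif_pos (not_not.1 i.2), zero_pow hm]
      rw [h4, add_zero]
      have h5 : ∀ i : {j : Fin (N + 1) // j ∉ A},
          (if h : i.1 ∈ A then (0 : κ) else y.1 (φ ⟨i.1, h⟩)) ^ m = y.1 (φ i) ^ m := by
        intro i
        rw [dif_neg i.2]
      simp only [h5]
      rw [Equiv.sum_comp φ (fun i => y.1 i ^ m)]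
      exact y.2
    · intro j hj
      exact dif_pos hj
  · intro x
    apply Subtype.ext
    funext j
    by_cases h : j ∈ A
    · simp only [dif_pos h]
      exact (x.2.2 j h).symm
    · simp only [dif_neg h, Equiv.symm_apply_apply]
  · intro y
    apply Subtype.ext
    funext i
    have h : (φ.symm i).1 ∉ A := (φ.symm i).2
    simp only [dif_neg h]
    rw [show (⟨(φ.symm i).1, h⟩ : {j : Fin (N + 1) // j ∉ A}) = φ.symm i from rfl,
      Equiv.apply_symm_apply]

/-- Zeros of the Fermat form off the monomial: inclusion and exclusion. -/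
theorem card_fermat_mon {κ : Type} [Field κ] [Fintype κ] [DecidableEq κ] {N : ℕ}
    (e : Fin (N + 1) → ℕ) (m J : ℕ) (hm : m ≠ 0)
    (hJ : (Finset.univ.filter fun j => e j ≠ 0).card = J) :
    (∑ x : Fin (N + 1) → κ, (if ∑ j, x j ^ m = 0 then (1 : ℤ) else 0) *
      (if ∏ j, x j ^ e j ≠ 0 then (1 : ℤ) else 0)) =
      ∑ c ∈ Finset.range (J + 1), (-1) ^ c * (J.choose c : ℤ) *
        (Nat.card {x : Fin (N + 1 - c) → κ // ∑ i, x i ^ m = 0} : ℤ) := by
  classical
  have h1 : ∀ x : Fin (N + 1) → κ, (if ∏ j, x j ^ e j ≠ 0 then (1 : ℤ) else 0) =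
      ∑ A ∈ (Finset.univ.filter fun j => e j ≠ 0).powerset, (-1) ^ A.card *
        ∏ j ∈ A, (if x j = 0 then (1 : ℤ) else 0) := by
    intro x
    rw [mon_ne_zero]
    have h2 : ∀ j, (if x j = 0 then (0 : ℤ) else 1) = -(if x j = 0 then (1 : ℤ) else 0) + 1 := by
      intro j
      split_ifs <;> norm_num
    simp only [h2]
    rw [Finset.prod_add]
    apply Finset.sum_congr rfl
    intro A _
    rw [Finset.prod_const_one, mul_one, Finset.prod_neg]
  simp only [h1, Finset.mul_sum]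
  rw [Finset.sum_comm]
  have h3 : ∀ A ∈ (Finset.univ.filter fun j => e j ≠ 0).powerset,
      (∑ x : Fin (N + 1) → κ, (if ∑ j, x j ^ m = 0 then (1 : ℤ) else 0) *
        ((-1) ^ A.card * ∏ j ∈ A, (if x j = 0 then (1 : ℤ) else 0))) =
      (fun c : ℕ => (-1 : ℤ) ^ c *
        (Nat.card {x : Fin (N + 1 - c) → κ // ∑ i, x i ^ m = 0} : ℤ)) A.card := by
    intro A _
    have h4 := card_fermat_zero (κ := κ) (N := N) hm A
    simp only
    rw [← h4, Finset.mul_sum]
    apply Finset.sum_congr rfl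
    intro x _
    ring
  rw [Finset.sum_congr rfl h3, Finset.sum_powerset_apply_card (fun c : ℕ => (-1 : ℤ) ^ c *
    (Nat.card {x : Fin (N + 1 - c) → κ // ∑ i, x i ^ m = 0} : ℤ)), hJ]
  apply Finset.sum_congr rfl
  intro c _
  rw [nsmul_eq_mul]
  ring

theorem countDW_eq (κ : Type) [Field κ] [Finite κ] {N : ℕ} (e : Fin (N + 1) → ℕ) (m J : ℕ)
    (hm : ∑ j, e j = m) (hm0 : m ≠ 0) (hJ : (Finset.univ.filter fun j => e j ≠ 0).card = J) :
    countDW κ e = (Nat.card κ : ℤ) * ((Nat.card κ : ℤ) ^ N - 1) -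
      (Nat.card κ : ℤ) ^ (N + 1 - J) * ((Nat.card κ : ℤ) - 1) ^ J -
      (Nat.card κ : ℤ) * (∑ c ∈ Finset.Icc 1 J, (-1) ^ (c + 1) * (J.choose c : ℤ) *
        (Nat.card {x : Fin (N + 1 - c) → κ // ∑ i, x i ^ m = 0} : ℤ) - 1) := by
  classical
  have : Fintype κ := Fintype.ofFinite κ
  rw [countDW, finsum_eq_sum_of_fintype, hm]
  simp only [Nat.card_eq_fintype_card (α := κ)]
  set Q : ℤ := (Fintype.card κ : ℤ) with hQdef
  have hQ : 1 ≤ Fintype.card κ := Fintype.card_pos
  -- the sum of the numbers of zeros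
  have hz : (∑ t : κˣ, (zeros (monForm κ e + MvPolynomial.C (t : κ) * fermat κ N m) : ℤ)) +
      (zeros (fermat κ N m) : ℤ) =
      (∑ x : Fin (N + 1) → κ, (if ∏ j, x j ^ e j ≠ 0 then (1 : ℤ) else 0)) +
      Q * ((∑ x : Fin (N + 1) → κ, (if ∑ j, x j ^ m = 0 then (1 : ℤ) else 0)) -
        (∑ x : Fin (N + 1) → κ, (if ∑ j, x j ^ m = 0 then (1 : ℤ) else 0) *
          (if ∏ j, x j ^ e j ≠ 0 then (1 : ℤ) else 0)) - 1) := by
    simp only [zeros_eq_sum]
    rw [Finset.sum_comm, ← Finset.sum_add_distrib]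
    have h1 : ∀ x : Fin (N + 1) → κ,
        (∑ t : κˣ, (if x ≠ 0 ∧ MvPolynomial.eval x
            (monForm κ e + MvPolynomial.C (t : κ) * fermat κ N m) = 0 then (1 : ℤ) else 0)) +
          (if x ≠ 0 ∧ MvPolynomial.eval x (fermat κ N m) = 0 then (1 : ℤ) else 0) =
        (if ∏ j, x j ^ e j ≠ 0 then (1 : ℤ) else 0) +
          Q * ((if ∑ j, x j ^ m = 0 then (1 : ℤ) else 0) -
            (if ∑ j, x j ^ m = 0 then (1 : ℤ) else 0) *
              (if ∏ j, x j ^ e j ≠ 0 then (1 : ℤ) else 0)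
            - (if x = 0 then (1 : ℤ) else 0)) := by
      intro x
      simp only [map_add, map_mul, MvPolynomial.eval_C, eval_monForm, eval_fermat]
      by_cases hx : x = 0
      · subst hx
        have h0 : ∑ j : Fin (N + 1), (0 : Fin (N + 1) → κ) j ^ m = 0 := by
          apply Finset.sum_eq_zero
          intro j _
          rw [Pi.zero_apply, zero_pow hm0]
        have h2 : ∏ j : Fin (N + 1), (0 : Fin (N + 1) → κ) j ^ e j = 0 := by
          have : ∃ j, e j ≠ 0 := by
            by_contra hcon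
            push Not at hcon
            apply hm0
            rw [← hm]
            exact Finset.sum_eq_zero (fun j _ => hcon j)
          obtain ⟨j, hj⟩ := this
          apply Finset.prod_eq_zero (Finset.mem_univ j)
          rw [Pi.zero_apply, zero_pow hj]
        rw [h0, h2]
        simp
      · have h3 := dw_fibre (∏ j, x j ^ e j) (∑ j, x j ^ m)
        simp only [ne_eq, hx, not_false_eq_true, true_and, if_false, sub_zero] at h3 ⊢
        rw [h3]
        congr 1
        rw [← hQdef]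
        congr 1
        by_cases ha : ∏ j, x j ^ e j = 0 <;> by_cases hb : ∑ j, x j ^ m = 0 <;> simp [ha, hb]
    rw [Finset.sum_congr rfl (fun x _ => h1 x), Finset.sum_add_distrib, ← Finset.mul_sum,
      Finset.sum_sub_distrib, Finset.sum_sub_distrib]
    congr 3
    simp
  have hA : (∑ x : Fin (N + 1) → κ, (if ∑ j, x j ^ m = 0 then (1 : ℤ) else 0)) =
      (Nat.card {x : Fin (N + 1) → κ // ∑ i, x i ^ m = 0} : ℤ) := by
    rw [Nat.card_eq_fintype_card, Fintype.card_subtype, Finset.card_filter]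
    push_cast
    rfl
  rw [card_mon_ne_zero e J hJ, card_fermat_mon e m J hm0 hJ, hA] at hz
  rw [Finset.range_eq_Ico, Finset.sum_eq_sum_Ico_succ_bot (Nat.succ_pos J)] at hz
  have hIcc : Finset.Ico (0 + 1) (J + 1) = Finset.Icc 1 J := by
    ext c
    simp only [Finset.mem_Ico, Finset.mem_Icc]
    omega
  rw [hIcc] at hz
  simp only [pow_zero, Nat.choose_zero_right, Nat.cast_one, one_mul, Nat.sub_zero] at hz
  have h5 : (∑ c ∈ Finset.Icc 1 J, (-1 : ℤ) ^ (c + 1) * (J.choose c : ℤ) *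
        (Nat.card {x : Fin (N + 1 - c) → κ // ∑ i, x i ^ m = 0} : ℤ)) =
      -(∑ c ∈ Finset.Icc 1 J, (-1 : ℤ) ^ c * (J.choose c : ℤ) *
        (Nat.card {x : Fin (N + 1 - c) → κ // ∑ i, x i ^ m = 0} : ℤ)) := by
    rw [← Finset.sum_neg_distrib]
    apply Finset.sum_congr rfl
    intro c _
    ring
  rw [h5, Finset.sum_sub_distrib, Finset.sum_const, Finset.card_univ, Fintype.card_units,
    nsmul_eq_mul, Nat.cast_sub hQ, ← hQdef]
  push_cast
  linear_combination -hz

/-- The formula for `countDW` over a field of order `q^(2μ)`, from the number of zeros of the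
Fermat forms of degree `q + 1`. -/
theorem countDW_formula_aux (κ : Type) [Field κ] [Finite κ] {N : ℕ} (e : Fin (N + 1) → ℕ)
    (q μ J : ℕ) (hq : ∑ j, e j = q + 1) (hcard : Nat.card κ = q ^ (2 * μ))
    (hJ : (Finset.univ.filter fun j => e j ≠ 0).card = J)
    (hS : ∀ n : ℕ, ((q : ℤ) ^ (2 * μ)) * (q + 1) *
        (Nat.card {x : Fin n → κ // ∑ i, x i ^ (q + 1) = 0} : ℤ) =
      (q + 1) * ((q : ℤ) ^ (2 * μ)) ^ n +
        ((q : ℤ) ^ (2 * μ) - 1) * ((-(q : ℤ)) ^ n + q) * (-(q : ℤ)) ^ (μ * n)) :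
    ((q : ℤ) + 1) * countDW κ e = ((q : ℤ) ^ (2 * μ) - 1) *
      ∑ c ∈ Finset.Icc 1 J, (-1) ^ c * (J.choose c : ℤ) *
        ((-(q : ℤ)) ^ (N + 1 - c) + q) * (-(q : ℤ)) ^ (μ * (N + 1 - c)) := by
  classical
  rw [countDW_eq κ e (q + 1) J hq (Nat.succ_ne_zero q) hJ]
  have hcardZ : (Nat.card κ : ℤ) = (q : ℤ) ^ (2 * μ) := by
    rw [hcard]
    push_cast
    rfl
  rw [hcardZ]
  set Q : ℤ := (q : ℤ) ^ (2 * μ) with hQ
  have hJN : J ≤ N + 1 := by
    rw [← hJ]
    exact (Finset.card_le_univ _).trans (by rw [Fintype.card_fin])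
  -- the binomial sum
  have hbin : (∑ c ∈ Finset.Icc 1 J, (-1 : ℤ) ^ c * (J.choose c : ℤ) * Q ^ (N + 1 - c)) =
      Q ^ (N + 1 - J) * (Q - 1) ^ J - Q ^ (N + 1) := by
    have h1 := add_pow (-1 : ℤ) Q J
    have h2 : Q ^ (N + 1 - J) * (Q - 1) ^ J =
        ∑ c ∈ Finset.range (J + 1), (-1 : ℤ) ^ c * (J.choose c : ℤ) * Q ^ (N + 1 - c) := by
      rw [show Q - 1 = -1 + Q by ring, h1, Finset.mul_sum]
      apply Finset.sum_congr rfl
      intro c hc
      rw [Finset.mem_range] at hc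
      have h3 : Q ^ (N + 1 - c) = Q ^ (N + 1 - J) * Q ^ (J - c) := by
        rw [← pow_add]
        congr 1
        omega
      rw [h3]
      ring
    rw [Finset.range_eq_Ico, Finset.sum_eq_sum_Ico_succ_bot (Nat.succ_pos J)] at h2
    have hIcc : Finset.Ico (0 + 1) (J + 1) = Finset.Icc 1 J := by
      ext c
      simp only [Finset.mem_Ico, Finset.mem_Icc]
      omega
    rw [hIcc] at h2
    simp only [pow_zero, Nat.choose_zero_right, Nat.cast_one, one_mul, Nat.sub_zero] at h2
    linear_combination -h2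
  have hsum : Q * ((q : ℤ) + 1) * (∑ c ∈ Finset.Icc 1 J, (-1 : ℤ) ^ (c + 1) * (J.choose c : ℤ) *
        (Nat.card {x : Fin (N + 1 - c) → κ // ∑ i, x i ^ (q + 1) = 0} : ℤ)) =
      -(((q : ℤ) + 1) *
        (∑ c ∈ Finset.Icc 1 J, (-1 : ℤ) ^ c * (J.choose c : ℤ) * Q ^ (N + 1 - c)) +
        (Q - 1) * ∑ c ∈ Finset.Icc 1 J, (-1) ^ c * (J.choose c : ℤ) *
          ((-(q : ℤ)) ^ (N + 1 - c) + q) * (-(q : ℤ)) ^ (μ * (N + 1 - c))) := by
    rw [Finset.mul_sum, Finset.mul_sum, Finset.mul_sum, ← Finset.sum_add_distrib,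
      ← Finset.sum_neg_distrib]
    apply Finset.sum_congr rfl
    intro c _
    have h4 := hS (N + 1 - c)
    rw [pow_succ (-1 : ℤ) c]
    linear_combination (-(-1 : ℤ) ^ c * (J.choose c : ℤ)) * h4
  rw [hbin] at hsum
  linear_combination -hsum

end Pool.Agent.HC
end

/- HC.HermA -/
section
/-!
DW-D1, first part: roots of unity in a finite field of order `q ^ (2 μ)`.
-/

set_option autoImplicit false

open Finset

namespace Pool.Agent.HC.Herm

theorem exists_prim (κ : Type) [Field κ] [Fintype κ] :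
    ∃ ζ : κ, IsPrimitiveRoot ζ (Fintype.card κ - 1) := by
  classical
  obtain ⟨g, hg⟩ := IsCyclic.exists_generator (α := κˣ)
  refine ⟨(g : κ), ?_⟩
  have h1 : orderOf g = Nat.card κˣ := orderOf_eq_card_of_forall_mem_zpowers hg
  have h2 : Nat.card κˣ = Fintype.card κ - 1 := by
    rw [Nat.card_eq_fintype_card, Fintype.card_units]
  rw [← h2, ← h1]
  exact IsPrimitiveRoot.coe_units_iff.2 (IsPrimitiveRoot.orderOf g)

theorem card_pow_eq_one (κ : Type) [Field κ] [Fintype κ] [DecidableEq κ] (k : ℕ) (hk : 0 < k)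
    (hdvd : k ∣ Fintype.card κ - 1) : #{c : κ | c ^ k = 1} = k := by
  obtain ⟨ζ, hζ⟩ := exists_prim κ
  obtain ⟨t, ht⟩ := hdvd
  have hpos : 0 < Fintype.card κ - 1 := by
    have := Fintype.one_lt_card (α := κ)
    omega
  have h1 : IsPrimitiveRoot (ζ ^ t) k := hζ.pow hpos (by rw [ht, mul_comm])
  have h2 := h1.card_nthRootsFinset
  have h3 : ({c : κ | c ^ k = 1} : Finset κ) = Polynomial.nthRootsFinset k (1 : κ) := by
    ext c
    rw [Polynomial.mem_nthRootsFinset hk]
    simp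
  rw [h3]
  exact h2

theorem exists_neg_one (κ : Type) [Field κ] [Fintype κ] (q μ : ℕ)
    (hcard : Fintype.card κ = q ^ (2 * μ)) (hchar : Even q ∨ Odd q)
    (h2 : Even q → (2 : κ) = 0) : ∃ A : κ, A ^ (q + 1) = -1 := by
  obtain ⟨ζ, hζ⟩ := exists_prim κ
  have hdvd : q ^ 2 - 1 ∣ Fintype.card κ - 1 := by
    rw [hcard, pow_mul]
    simpa using Nat.sub_dvd_pow_sub_pow (q ^ 2) 1 μ
  rcases hchar with he | ho
  · refine ⟨1, ?_⟩
    have : (1 : κ) + 1 = 0 := by
      have := h2 he
      rw [← this]; norm_num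
    rw [one_pow]
    exact eq_neg_of_add_eq_zero_left this
  · obtain ⟨M, hM⟩ := hdvd
    obtain ⟨j, hj⟩ := ho
    -- `q = 2 j + 1`, `q ^ 2 - 1 = (q + 1) * (2 j)`
    have h3 : q ^ 2 - 1 = (q + 1) * (2 * j) := by
      have : q ^ 2 = (q + 1) * (2 * j) + 1 := by rw [hj]; ring
      omega
    have hpos : 0 < Fintype.card κ - 1 := by
      have := Fintype.one_lt_card (α := κ)
      omega
    have h4 : Fintype.card κ - 1 = ((q + 1) * (j * M)) * 2 := by
      rw [hM, h3]; ring
    have h5 : IsPrimitiveRoot (ζ ^ ((q + 1) * (j * M))) 2 := hζ.pow hpos h4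
    have h6 : ζ ^ ((q + 1) * (j * M)) = -1 := h5.eq_neg_one_of_two_right
    exact ⟨ζ ^ (j * M), by rw [← pow_mul, mul_comm (j * M), h6]⟩

theorem exists_pair (κ : Type) [Field κ] [Fintype κ] [DecidableEq κ] (q μ : ℕ) (hq2 : 2 ≤ q)
    (hcard : Fintype.card κ = q ^ (2 * μ)) (h2 : Even q → (2 : κ) = 0) :
    ∃ A B : κ, A ≠ B ∧ A ^ (q + 1) = -1 ∧ B ^ (q + 1) = -1 := by
  obtain ⟨A, hA⟩ := exists_neg_one κ q μ hcard (Nat.even_or_odd q) h2
  have hdvd : q + 1 ∣ Fintype.card κ - 1 := by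
    have h1 : q ^ 2 - 1 ∣ Fintype.card κ - 1 := by
      rw [hcard, pow_mul]
      simpa using Nat.sub_dvd_pow_sub_pow (q ^ 2) 1 μ
    refine dvd_trans ?_ h1
    refine ⟨q - 1, ?_⟩
    obtain ⟨r, rfl⟩ : ∃ r, q = r + 1 := ⟨q - 1, by omega⟩
    have : (r + 1) ^ 2 = (r + 1 + 1) * (r + 1 - 1) + 1 := by
      rw [Nat.add_sub_cancel]; ring
    omega
  have hc := card_pow_eq_one κ (q + 1) (by omega) hdvd
  have h3 : 1 < #{c : κ | c ^ (q + 1) = 1} := by rw [hc]; omega
  obtain ⟨c, hc1, hc2⟩ := Finset.exists_mem_ne h3 1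
  rw [Finset.mem_filter] at hc1
  have hA0 : A ≠ 0 := by
    rintro rfl
    rw [zero_pow (by omega)] at hA
    exact one_ne_zero (neg_eq_zero.1 hA.symm)
  refine ⟨A, A * c, ?_, hA, ?_⟩
  · intro h
    apply hc2
    have : A * c = A * 1 := by rw [← h, mul_one]
    exact mul_left_cancel₀ hA0 this
  · rw [mul_pow, hA, hc1.2, mul_one]

end Pool.Agent.HC.Herm
end

/- Helper16.DP.HC.HermB -/
section
/-!
DW-D1, second part: the character sums `∑ ψ(d x^(q+1))`.
-/

set_option autoImplicit false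

open Finset

namespace Pool.Agent.HC.Herm

variable {κ : Type} [Field κ] [Fintype κ] [DecidableEq κ]

/-- the sum `∑ ψ(d x^(q+1))` -/
noncomputable def W (ψ : AddChar κ ℂ) (q : ℕ) (d : κ) : ℂ := ∑ x : κ, ψ (d * x ^ (q + 1))

theorem herm_identity (F : κ →+* κ) {q : ℕ} (hF : ∀ x, F x = x ^ q) {A B : κ}
    (hAB : A ≠ B) (hA : A ^ (q + 1) = -1) (hB : B ^ (q + 1) = -1) (x y : κ) :
    x ^ (q + 1) + y ^ (q + 1)
      = A / (A - B) * F (x + A * y) * (x + B * y) - B / (A - B) * (x + A * y) * F (x + B * y) := by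
  have hd : A - B ≠ 0 := sub_ne_zero.2 hAB
  have hA' : F A * A = -1 := by rw [hF, ← pow_succ, hA]
  have hB' : F B * B = -1 := by rw [hF, ← pow_succ, hB]
  have hx : x ^ (q + 1) = F x * x := by rw [hF, pow_succ]
  have hy : y ^ (q + 1) = F y * y := by rw [hF, pow_succ]
  rw [hx, hy, map_add, map_add, map_mul, map_mul]
  field_simp
  linear_combination (-(F y * (x + B * y))) * hA' + (F y * (x + A * y)) * hB'

theorem sum_char_hom (ψ : AddChar κ ℂ) (φ : κ →+ κ) :
    ∑ b : κ, ψ (φ b) = if ∀ b, ψ (φ b) = 1 then (Fintype.card κ : ℂ) else 0 := by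
  have h := AddChar.sum_eq_ite (ψ.compAddMonoidHom φ)
  simp only [AddChar.compAddMonoidHom_apply] at h
  rw [h]
  congr 1
  apply propext
  constructor
  · intro h1 b
    have := DFunLike.congr_fun h1 b
    simpa using this
  · intro h1
    ext b
    simpa using h1 b

theorem eq_zero_of_trivial {ψ : AddChar κ ℂ} (hψ : ψ.IsPrimitive) (t : κ)
    (h : ∀ y, ψ (t * y) = 1) : t = 0 := by
  by_contra ht
  apply hψ ht
  ext y
  simp [AddChar.mulShift_apply, h y]

/-- `W(d)^2` is `Q` or `Q q^2` -/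
theorem W_sq {ψ : AddChar κ ℂ} (hψ : ψ.IsPrimitive) (F : κ →+* κ) {q : ℕ} (hq2 : 2 ≤ q)
    (hF : ∀ x, F x = x ^ q) (hFs : Function.Surjective F)
    (hdvd : q ^ 2 - 1 ∣ Fintype.card κ - 1) {A B : κ}
    (hAB : A ≠ B) (hA : A ^ (q + 1) = -1) (hB : B ^ (q + 1) = -1) {d : κ} (hd : d ≠ 0) :
    W ψ q d ^ 2 = Fintype.card κ ∨ W ψ q d ^ 2 = Fintype.card κ * (q : ℂ) ^ 2 := by
  have hsub : A - B ≠ 0 := sub_ne_zero.2 hAB
  have hA0 : A ≠ 0 := by
    rintro rfl
    rw [zero_pow (by (clear * - κ hq2; omega))] at hA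
    exact one_ne_zero (neg_eq_zero.1 hA.symm)
  have hB0 : B ≠ 0 := by
    rintro rfl
    rw [zero_pow (by omega)] at hB
    exact one_ne_zero (neg_eq_zero.1 hB.symm)
  -- the bilinear expression
  let u : κ := d * (A / (A - B))
  let v : κ := d * (B / (A - B))
  have hv : v ≠ 0 := mul_ne_zero hd (div_ne_zero hB0 hsub)
  let φ : κ → (κ →+ κ) := fun a =>
    { toFun := fun b => u * F a * b - v * a * F b
      map_zero' := by simp
      map_add' := by intro b c; rw [map_add]; ring }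
  have hφ : ∀ a b, φ a b = u * F a * b - v * a * F b := fun _ _ => rfl
  -- change of variables
  let e : κ × κ ≃ κ × κ :=
    { toFun := fun z => (z.1 + A * z.2, z.1 + B * z.2)
      invFun := fun w => (w.1 - A * ((w.1 - w.2) / (A - B)), (w.1 - w.2) / (A - B))
      left_inv := by
        rintro ⟨x, y⟩
        simp only [Prod.mk.injEq]
        have : (x + A * y - (x + B * y)) / (A - B) = y := by
          rw [div_eq_iff hsub]; ring
        rw [this]
        exact ⟨by ring, rfl⟩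
      right_inv := by
        rintro ⟨a, b⟩
        simp only [Prod.mk.injEq]
        refine ⟨by ring, ?_⟩
        have : a - A * ((a - b) / (A - B)) + B * ((a - b) / (A - B))
            = a - (A - B) * ((a - b) / (A - B)) := by ring
        rw [this, mul_div_cancel₀ _ hsub]
        ring }
  have h1 : W ψ q d ^ 2 = ∑ a : κ, ∑ b : κ, ψ (φ a b) := by
    rw [sq, W, Finset.sum_mul_sum, ← Finset.sum_product', ← Finset.sum_product']
    rw [Finset.univ_product_univ]
    rw [← Equiv.sum_comp e (fun w : κ × κ => ψ (φ w.1 w.2))]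
    refine Finset.sum_congr rfl fun z _ => ?_
    rw [← AddChar.map_add_eq_mul, ← mul_add,
      herm_identity F hF hAB hA hB z.1 z.2, hφ]
    congr 1
    simp only [e, u, v, Equiv.coe_fn_mk]
    ring
  let K : Finset κ := {a : κ | ∀ b, ψ (φ a b) = 1}
  have h2 : W ψ q d ^ 2 = Fintype.card κ * (#K : ℂ) := by
    rw [h1]
    simp_rw [sum_char_hom ψ]
    rw [← Finset.sum_filter, Finset.sum_const, nsmul_eq_mul, mul_comm]
  have hK0 : (0 : κ) ∈ K := by
    simp only [K, Finset.mem_filter, Finset.mem_univ, true_and]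
    intro b
    rw [hφ]
    simp
  -- the field with `q ^ 2` elements
  let R : Finset κ := {c : κ | F (F c) = c}
  have hR : #R = q ^ 2 := by
    have h3 : R = insert 0 ({c : κ | c ^ (q ^ 2 - 1) = 1} : Finset κ) := by
      ext c
      simp only [R, Finset.mem_filter, Finset.mem_univ, true_and, Finset.mem_insert]
      have hFF : F (F c) = c ^ (q ^ 2) := by rw [hF (F c), hF c, ← pow_mul, sq]
      rw [hFF]
      have hq4 : 4 ≤ q ^ 2 := by nlinarith
      have hexp : q ^ 2 = (q ^ 2 - 1) + 1 := by omega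
      constructor
      · intro h
        by_cases hc : c = 0
        · exact Or.inl hc
        · right
          rw [hexp, pow_succ] at h
          exact mul_right_cancel₀ hc (by rw [h, one_mul])
      · rintro (h | h)
        · rw [h, zero_pow (by omega)]
        · rw [hexp, pow_succ, h, one_mul]
    have hq4 : 4 ≤ q ^ 2 := by nlinarith only [hq2]
    rw [h3, Finset.card_insert_of_notMem, card_pow_eq_one κ (q ^ 2 - 1) (by omega) hdvd]
    · omega
    · simp only [Finset.mem_filter, Finset.mem_univ, true_and]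
      rw [zero_pow (by omega)]
      exact zero_ne_one
  by_cases hK : ∃ a ∈ K, a ≠ 0
  · right
    obtain ⟨a1, ha1, ha10⟩ := hK
    have ha1' : ∀ b, ψ (u * F a1 * b - v * a1 * F b) = 1 := by
      simp only [K, Finset.mem_filter, Finset.mem_univ, true_and] at ha1
      exact ha1
    have hmem : ∀ c, a1 * c ∈ K ↔ c ∈ R := by
      intro c
      simp only [K, R, Finset.mem_filter, Finset.mem_univ, true_and]
      by_cases hc : c = 0
      · subst hc
        simp [hφ]
      have hFc : F c ≠ 0 := (map_ne_zero F).2 hc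
      have hFFc : F (F c) ≠ 0 := (map_ne_zero F).2 hFc
      constructor
      · intro h
        have h4 : ∀ y, ψ (v * a1 * (1 - c / F (F c)) * y) = 1 := by
          intro y
          obtain ⟨b', rfl⟩ := hFs y
          have h5 := h (b' / F c)
          rw [hφ, map_mul, map_div₀] at h5
          have h6 := ha1' b'
          have h7 : v * a1 * (1 - c / F (F c)) * F b'
              = (u * (F a1 * F c) * (b' / F c) - v * (a1 * c) * (F b' / F (F c)))
                - (u * F a1 * b' - v * a1 * F b') := by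
            field_simp
            ring
          rw [h7, AddChar.map_sub_eq_div, h5, h6, div_one]
        have h8 := eq_zero_of_trivial hψ _ h4
        have h9 : 1 - c / F (F c) = 0 := by
          rcases mul_eq_zero.1 h8 with h10 | h10
          · exact absurd h10 (mul_ne_zero hv ha10)
          · exact h10
        have h11 : c / F (F c) = 1 := (sub_eq_zero.1 h9).symm
        rw [div_eq_one_iff_eq hFFc] at h11
        exact h11.symm
      · intro h b
        have h5 := ha1' (F c * b)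
        rw [hφ]
        rw [map_mul F (F c) b, h] at h5
        rw [← h5, map_mul]
        congr 1
        ring
    have hKR : K = R.image (fun c => a1 * c) := by
      ext a
      rw [Finset.mem_image]
      constructor
      · intro ha
        refine ⟨a / a1, ?_, by (clear * - ha10; field_simp)⟩
        rw [← hmem, mul_div_cancel₀ _ ha10]
        exact ha
      · rintro ⟨c, hc, rfl⟩
        exact (hmem c).2 hc
    have hKc : #K = q ^ 2 := by
      rw [hKR, Finset.card_image_of_injective _ (mul_right_injective₀ ha10), hR]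
    rw [h2, hKc]
    push_cast
    rfl
  · left
    have hK1 : K = {0} := by
      ext a
      rw [Finset.mem_singleton]
      constructor
      · intro ha
        by_contra h0
        exact hK ⟨a, ha, h0⟩
      · rintro rfl
        exact hK0
    rw [h2, hK1]
    simp

/-- `W(d) = 1 + (q + 1) θ` with an algebraic integer `θ` -/
theorem W_int (ψ : AddChar κ ℂ) {q : ℕ} (hdvd : q + 1 ∣ Fintype.card κ - 1) (d : κ) :
    ∃ θ : ℂ, IsIntegral ℤ θ ∧ W ψ q d = 1 + ((q : ℂ) + 1) * θ := by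
  refine ⟨∑ c ∈ (univ.erase (0 : κ)).image (fun x => x ^ (q + 1)), ψ (d * c), ?_, ?_⟩
  · apply IsIntegral.sum
    intro c _
    have h1 : ψ (d * c) ^ (Fintype.card κ) = 1 := by
      rw [← AddChar.map_nsmul_eq_pow, card_nsmul_eq_zero, AddChar.map_zero_eq_one]
    refine IsIntegral.of_pow (Fintype.card_pos (α := κ)) ?_
    rw [h1]
    exact isIntegral_one
  · rw [W, ← Finset.add_sum_erase _ _ (Finset.mem_univ (0 : κ))]
    rw [zero_pow (by omega), mul_zero, AddChar.map_zero_eq_one]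
    congr 1
    rw [Finset.sum_comp (fun c => ψ (d * c)) (fun x : κ => x ^ (q + 1)), Finset.mul_sum]
    refine Finset.sum_congr rfl fun c hc => ?_
    rw [Finset.mem_image] at hc
    obtain ⟨x0, hx0, rfl⟩ := hc
    rw [Finset.mem_erase] at hx0
    have h2 : #{x ∈ univ.erase (0 : κ) | x ^ (q + 1) = x0 ^ (q + 1)} = q + 1 := by
      have h3 : ({x ∈ univ.erase (0 : κ) | x ^ (q + 1) = x0 ^ (q + 1)} : Finset κ)
          = ({c : κ | c ^ (q + 1) = 1} : Finset κ).image (fun c => x0 * c) := by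
        ext x
        simp only [Finset.mem_filter, Finset.mem_erase, Finset.mem_univ, and_true,
          Finset.mem_image, true_and]
        constructor
        · rintro ⟨hx, h4⟩
          refine ⟨x / x0, ?_, mul_div_cancel₀ _ hx0.1⟩
          rw [div_pow, h4, div_self (pow_ne_zero _ hx0.1)]
        · rintro ⟨c, hc, rfl⟩
          refine ⟨mul_ne_zero hx0.1 ?_, by rw [mul_pow, hc, mul_one]⟩
          rintro rfl
          rw [zero_pow (by omega)] at hc
          exact zero_ne_one hc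
      rw [h3, Finset.card_image_of_injective _ (mul_right_injective₀ hx0.1),
        card_pow_eq_one κ (q + 1) (by omega) hdvd]
    rw [h2, nsmul_eq_mul]
    push_cast
    ring

end Pool.Agent.HC.Herm
end

/- Helper16.DP.HC.HermCount -/
section
/-!
DW-D1: the number of zeros of `∑ x_i^(q+1)` over a finite field of order `q ^ (2 μ)`.
-/

set_option autoImplicit false

open Finset

namespace Pool.Agent.HC

namespace Herm

variable {κ : Type} [Field κ] [Fintype κ] [DecidableEq κ]

/-- an integer `z` with `z = 1 + (q+1) θ`, `θ` an algebraic integer, is `1` modulo `q + 1` -/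
theorem dvd_of_int {q : ℕ} {z : ℤ} {θ : ℂ} (hθ : IsIntegral ℤ θ)
    (h : (z : ℂ) = 1 + ((q : ℂ) + 1) * θ) : (q : ℤ) + 1 ∣ z - 1 := by
  have hq : ((q : ℂ) + 1) ≠ 0 := by exact_mod_cast Nat.succ_ne_zero q
  have h1 : θ = algebraMap ℚ ℂ (((z : ℚ) - 1) / ((q : ℚ) + 1)) := by
    have : θ = ((z : ℂ) - 1) / ((q : ℂ) + 1) := by
      rw [h]; field_simp; ring
    rw [this]
    simp
  rw [h1] at hθ
  have h2 : IsIntegral ℤ (((z : ℚ) - 1) / ((q : ℚ) + 1)) :=
    (isIntegral_algebraMap_iff (algebraMap ℚ ℂ).injective).1 hθ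
  obtain ⟨y, hy⟩ := IsIntegrallyClosed.isIntegral_iff.1 h2
  refine ⟨y, ?_⟩
  have hq' : ((q : ℚ) + 1) ≠ 0 := by exact_mod_cast Nat.succ_ne_zero q
  have h3 : (z : ℚ) - 1 = ((q : ℚ) + 1) * (y : ℚ) := by
    have : (algebraMap ℤ ℚ) y = (y : ℚ) := rfl
    rw [this] at hy
    rw [hy]
    (clear * - hq'; field_simp)
  exact_mod_cast h3

/-- `W(d)` is `(-q)^μ` or `(-q)^(μ+1)` -/
theorem W_val {ψ : AddChar κ ℂ} (hψ : ψ.IsPrimitive) (F : κ →+* κ) {q μ : ℕ} (hq2 : 2 ≤ q)
    (hF : ∀ x, F x = x ^ q) (hFs : Function.Surjective F)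
    (hcard : Fintype.card κ = q ^ (2 * μ)) (h2 : Even q → (2 : κ) = 0) {d : κ} (hd : d ≠ 0) :
    W ψ q d = (-(q : ℂ)) ^ μ ∨ W ψ q d = (-(q : ℂ)) ^ (μ + 1) := by
  have hdvd2 : q ^ 2 - 1 ∣ Fintype.card κ - 1 := by
    rw [hcard, pow_mul]
    simpa using Nat.sub_dvd_pow_sub_pow (q ^ 2) 1 μ
  have hdvd1 : q + 1 ∣ Fintype.card κ - 1 := by
    refine dvd_trans ?_ hdvd2
    refine ⟨q - 1, ?_⟩
    obtain ⟨r, rfl⟩ : ∃ r, q = r + 1 := ⟨q - 1, by omega⟩
    have : (r + 1) ^ 2 = (r + 1 + 1) * (r + 1 - 1) + 1 := by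
      rw [Nat.add_sub_cancel]; ring
    omega
  obtain ⟨A, B, hAB, hA, hB⟩ := exists_pair κ q μ hq2 hcard h2
  obtain ⟨θ, hθ, hW⟩ := W_int ψ hdvd1 d
  have hsq := W_sq hψ F hq2 hF hFs hdvd2 hAB hA hB hd
  -- in both cases the square is `((-q)^e)^2`
  have key : ∀ e : ℕ, W ψ q d ^ 2 = ((-(q : ℂ)) ^ e) ^ 2 → W ψ q d = (-(q : ℂ)) ^ e := by
    intro e he
    rcases sq_eq_sq_iff_eq_or_eq_neg.1 he with h | h
    · exact h
    · exfalso
      have h3 : ((-(-(q : ℤ)) ^ e : ℤ) : ℂ) = 1 + ((q : ℂ) + 1) * θ := by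
        rw [← hW, h]; push_cast; rfl
      have h4 := dvd_of_int hθ h3
      have h5 : (q : ℤ) + 1 ∣ (-(q : ℤ)) ^ e - 1 ^ e := by
        refine dvd_trans ?_ (sub_dvd_pow_sub_pow _ _ e)
        exact ⟨-1, by ring⟩
      rw [one_pow] at h5
      have h6 : (q : ℤ) + 1 ∣ 2 := by
        have h7 := dvd_add h4 h5
        have h8 : -(-(q : ℤ)) ^ e - 1 + ((-(q : ℤ)) ^ e - 1) = -2 := by ring
        rw [h8] at h7
        exact (dvd_neg).1 h7
      have h9 := Int.le_of_dvd (by norm_num) h6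
      omega
  rcases hsq with h | h
  · left
    apply key
    rw [h, hcard]
    push_cast
    rw [← pow_mul, mul_comm μ 2, pow_mul, pow_mul]
    congr 1
    ring
  · right
    apply key
    rw [h, hcard]
    push_cast
    rw [← pow_mul, mul_comm (μ + 1) 2, pow_mul, pow_mul, pow_succ]
    congr 1
    · congr 1
      ring
    · ring

theorem map_sum_prod (ψ : AddChar κ ℂ) {n : ℕ} (g : Fin n → κ) :
    ψ (∑ i, g i) = ∏ i, ψ (g i) := by
  induction n with
  | zero => simp
  | succ n ih => rw [Fin.sum_univ_succ, Fin.prod_univ_succ, AddChar.map_add_eq_mul, ih]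

/-- the number of zeros as a character sum -/
theorem card_eq_sum {ψ : AddChar κ ℂ} (hψ : ψ.IsPrimitive) (q n : ℕ) :
    (Fintype.card κ : ℂ) * (#{x : Fin n → κ | ∑ i, x i ^ (q + 1) = 0} : ℂ)
      = ∑ d : κ, W ψ q d ^ n := by
  have h1 : ∀ d : κ, W ψ q d ^ n = ∑ x : Fin n → κ, ψ ((∑ i, x i ^ (q + 1)) * d) := by
    intro d
    rw [W, Fintype.sum_pow]
    refine Finset.sum_congr rfl fun x _ => ?_
    rw [Finset.sum_mul, map_sum_prod]
    refine Finset.prod_congr rfl fun i _ => ?_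
    rw [mul_comm]
  simp_rw [h1]
  rw [Finset.sum_comm]
  have h2 : ∀ x : Fin n → κ, ∑ d : κ, ψ ((∑ i, x i ^ (q + 1)) * d)
      = if (∑ i, x i ^ (q + 1)) = 0 then (Fintype.card κ : ℂ) else 0 := by
    intro x
    have h3 := AddChar.sum_mulShift (∑ i, x i ^ (q + 1)) hψ
    have h4 : ∑ d : κ, ψ ((∑ i, x i ^ (q + 1)) * d) = ∑ d : κ, ψ (d * (∑ i, x i ^ (q + 1))) := by
      refine Finset.sum_congr rfl fun d _ => ?_
      rw [mul_comm]
    rw [h4, h3]
    split_ifs <;> simp
  simp_rw [h2]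
  rw [← Finset.sum_filter, Finset.sum_const, nsmul_eq_mul, mul_comm]

end Herm

open Herm

theorem card_herm (κ : Type) [Field κ] [Finite κ] (p f q μ : ℕ) [CharP κ p] (hp : p.Prime)
    (hf : f ≠ 0) (hq : q = p ^ f) (hmu : μ ≠ 0) (hcard : Nat.card κ = q ^ (2 * μ)) (n : ℕ) :
    ((q : ℤ) ^ (2 * μ)) * (q + 1) * (Nat.card {x : Fin n → κ // ∑ i, x i ^ (q + 1) = 0} : ℤ)
      = (q + 1) * ((q : ℤ) ^ (2 * μ)) ^ n
        + ((q : ℤ) ^ (2 * μ) - 1) * ((-(q : ℤ)) ^ n + q) * (-(q : ℤ)) ^ (μ * n) := by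
  classical
  haveI : Fintype κ := Fintype.ofFinite κ
  haveI : Fact p.Prime := ⟨hp⟩
  haveI : ExpChar κ p := ExpChar.prime hp
  have hcard' : Fintype.card κ = q ^ (2 * μ) := by rw [← Nat.card_eq_fintype_card, hcard]
  have hq2 : 2 ≤ q := by
    rw [hq]
    exact le_trans hp.two_le (Nat.le_self_pow hf p)
  let F : κ →+* κ := iterateFrobenius κ p f
  have hF : ∀ x, F x = x ^ q := by
    intro x
    rw [hq]
    exact iterateFrobenius_def p f x
  have hFs : Function.Surjective F := Finite.surjective_of_injective F.injective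
  have h2 : Even q → (2 : κ) = 0 := by
    intro he
    have hp2 : p = 2 := by
      rw [hq, Nat.even_pow] at he
      exact (hp.even_iff).1 he.1
    subst hp2
    exact_mod_cast CharP.cast_eq_zero κ 2
  obtain ⟨ψ, hψ⟩ : ∃ ψ : AddChar κ ℂ, ψ.IsPrimitive :=
    ⟨_, AddChar.FiniteField.primitiveChar_to_Complex_isPrimitive κ⟩
  have hval := fun (d : κ) (hd : d ≠ 0) => W_val hψ F hq2 hF hFs hcard' h2 hd
  set w : ℂ := (-(q : ℂ)) ^ μ with hw
  have hq0 : (q : ℂ) ≠ 0 := by exact_mod_cast (by omega : q ≠ 0)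
  have hw0 : w ≠ 0 := pow_ne_zero _ (neg_ne_zero.2 hq0)
  let D : Finset κ := univ.erase 0
  let D1 : Finset κ := {d ∈ D | W ψ q d = w}
  let D2 : Finset κ := {d ∈ D | ¬ W ψ q d = w}
  have hsum : ∀ m : ℕ, ∑ d ∈ D, W ψ q d ^ m = (#D1 : ℂ) * w ^ m + (#D2 : ℂ) * (-(q : ℂ) * w) ^ m := by
    intro m
    rw [← Finset.sum_filter_add_sum_filter_not D (fun d => W ψ q d = w)]
    congr 1
    · rw [Finset.sum_congr rfl (g := fun _ => w ^ m)
        (fun d hd => by rw [(Finset.mem_filter.1 hd).2]), Finset.sum_const, nsmul_eq_mul]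
    · rw [Finset.sum_congr rfl (g := fun _ => (-(q : ℂ) * w) ^ m) (fun d hd => ?_),
        Finset.sum_const, nsmul_eq_mul]
      rw [Finset.mem_filter] at hd
      rcases hval d (Finset.mem_erase.1 hd.1).1 with h | h
      · exact absurd h hd.2
      · rw [h, pow_succ, mul_comm]
  have hW0 : W ψ q 0 = (Fintype.card κ : ℂ) := by
    simp [W]
  have hall : ∀ m : ℕ, (Fintype.card κ : ℂ) * (#{x : Fin m → κ | ∑ i, x i ^ (q + 1) = 0} : ℂ)
      = (Fintype.card κ : ℂ) ^ m + ((#D1 : ℂ) * w ^ m + (#D2 : ℂ) * (-(q : ℂ) * w) ^ m) := by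
    intro m
    rw [card_eq_sum hψ q m, ← hsum m, ← Finset.add_sum_erase _ _ (Finset.mem_univ (0 : κ)), hW0]
  have hQ0 : (Fintype.card κ : ℂ) ≠ 0 := by
    exact_mod_cast (Fintype.card_pos (α := κ)).ne'
  -- the case `m = 1`
  have h1 := hall 1
  have hc1 : #{x : Fin 1 → κ | ∑ i, x i ^ (q + 1) = 0} = 1 := by
    rw [Finset.card_eq_one]
    refine ⟨0, ?_⟩
    ext x
    simp only [Finset.mem_filter, Finset.mem_univ, true_and, Finset.mem_singleton,
      Fin.sum_univ_one]
    constructor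
    · intro h
      have h3 : x 0 = 0 := pow_eq_zero_iff (by omega : q + 1 ≠ 0) |>.1 h
      funext i
      rw [Subsingleton.elim i 0, h3]
      rfl
    · intro h
      rw [h]
      simp
  rw [hc1] at h1
  have h3 : (#D1 : ℂ) = q * (#D2 : ℂ) := by
    have h4 : w * ((#D1 : ℂ) - q * (#D2 : ℂ)) = 0 := by
      linear_combination -h1
    rcases mul_eq_zero.1 h4 with h | h
    · exact absurd h hw0
    · exact sub_eq_zero.1 h
  have h5 : (#D1 : ℂ) + (#D2 : ℂ) = (Fintype.card κ : ℂ) - 1 := by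
    have h6 : #D1 + #D2 = Fintype.card κ - 1 := by
      rw [Finset.card_filter_add_card_filter_not, Finset.card_erase_of_mem (Finset.mem_univ _),
        Finset.card_univ]
    have h7 : #D1 + #D2 + 1 = Fintype.card κ := by
      have := Fintype.card_pos (α := κ)
      omega
    have h8 : ((#D1 + #D2 + 1 : ℕ) : ℂ) = (Fintype.card κ : ℂ) := by rw [h7]
    push_cast at h8
    linear_combination h8
  have h9 : ((q : ℂ) + 1) * (#D2 : ℂ) = (Fintype.card κ : ℂ) - 1 := by
    linear_combination h5 - h3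
  have h10 := hall n
  have hcn : Nat.card {x : Fin n → κ // ∑ i, x i ^ (q + 1) = 0}
      = #{x : Fin n → κ | ∑ i, x i ^ (q + 1) = 0} := by
    rw [Nat.card_eq_fintype_card, Fintype.card_subtype]
  rw [hcn]
  have hQ : (Fintype.card κ : ℂ) = (q : ℂ) ^ (2 * μ) := by rw [hcard']; push_cast; rfl
  rw [hQ] at h9 h10
  have hfin : ((q : ℂ) ^ (2 * μ)) * (q + 1) * (#{x : Fin n → κ | ∑ i, x i ^ (q + 1) = 0} : ℂ)
      = (q + 1) * ((q : ℂ) ^ (2 * μ)) ^ n
        + ((q : ℂ) ^ (2 * μ) - 1) * ((-(q : ℂ)) ^ n + q) * (-(q : ℂ)) ^ (μ * n) := by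
    have h11 : (-(q : ℂ)) ^ (μ * n) = w ^ n := by rw [hw, pow_mul]
    rw [h11]
    have h12 : (-(q : ℂ) * w) ^ n = (-(q : ℂ)) ^ n * w ^ n := mul_pow _ _ _
    rw [h12, h3] at h10
    linear_combination ((q : ℂ) + 1) * h10 + (w ^ n * (q + (-(q : ℂ)) ^ n)) * h9
  exact_mod_cast hfin

end Pool.Agent.HC
end

/- Helper16.DP.HC.LDWMain -/
section
set_option autoImplicit false

/-!
Project HC (MP_0b9e0b_ag), module DW-D2b: the L-polynomial of the hypersurfaces
`∏ x_j^(e_j) + t ∑ x_j^(q+1) = 0` and its order at the central point.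
-/

namespace Pool.Agent.HC

/-- The L-polynomial and its order, given the numbers of zeros of the Hermitian forms. -/
theorem exists_LDW_of (k : Type) [Field k] [Finite k] (q mu N : ℕ) (hq2 : 2 ≤ q)
    (hmu : mu ≠ 0) (hcard : Nat.card k = q ^ (2 * mu)) (hN : Even N)
    (e : Fin (N + 1) → ℕ) (he : ∑ j, e j = q + 1)
    (hS : ∀ (κ : Type) [Field κ] [Algebra k κ] [Finite κ] (ν : ℕ), ν ≠ 0 →
      Nat.card κ = q ^ (2 * ν) → ∀ n : ℕ, ((q : ℤ) ^ (2 * ν)) * (q + 1) *
        (Nat.card {x : Fin n → κ // ∑ i, x i ^ (q + 1) = 0} : ℤ) =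
      (q + 1) * ((q : ℤ) ^ (2 * ν)) ^ n +
        ((q : ℤ) ^ (2 * ν) - 1) * ((-(q : ℤ)) ^ n + q) * (-(q : ℤ)) ^ (ν * n)) :
    ∃ L : Polynomial ℚ, IsLDW k e (L : PowerSeries ℚ) ∧
      L.rootMultiplicity (((Nat.card k : ℚ) ^ (N / 2))⁻¹) =
        (Finset.univ.filter fun j => e j ≠ 0).card * ((q ^ N + q) / (q + 1)) := by
  have hJN : (Finset.univ.filter fun j => e j ≠ 0).card ≤ N + 1 := by
    refine (Finset.card_le_univ _).trans ?_
    simp
  refine LDW.exists_of_count k q mu N hq2 hmu hcard hN e _ hJN ?_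
  intro κ _ _ _ ν hν hκ
  exact countDW_formula_aux κ e q ν _ he hκ rfl (hS κ ν hν hκ)

/-- The L-polynomial of the hypersurfaces and its order at the central point. -/
theorem exists_LDW (k : Type) [Field k] [Finite k] (p f q mu N : ℕ) (hp : p.Prime) [CharP k p]
    (hf : f ≠ 0) (hq : q = p ^ f) (hmu : mu ≠ 0) (hcard : Nat.card k = q ^ (2 * mu))
    (hN : Even N) (_hN0 : N ≠ 0) (e : Fin (N + 1) → ℕ) (he : ∑ j, e j = q + 1) :
    ∃ L : Polynomial ℚ, IsLDW k e (L : PowerSeries ℚ) ∧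
      L.rootMultiplicity (((Nat.card k : ℚ) ^ (N / 2))⁻¹) =
        (Finset.univ.filter fun j => e j ≠ 0).card * ((q ^ N + q) / (q + 1)) := by
  have hq2 : 2 ≤ q := by
    rw [hq]
    calc 2 ≤ p := hp.two_le
      _ = p ^ 1 := (pow_one p).symm
      _ ≤ p ^ f := Nat.pow_le_pow_right hp.pos (Nat.one_le_iff_ne_zero.mpr hf)
  refine exists_LDW_of k q mu N hq2 hmu hcard hN e he ?_
  intro κ _ _ _ ν hν hκ n
  have : CharP κ p := charP_of_injective_algebraMap (algebraMap k κ).injective p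
  exact card_herm κ p f q ν hp hf hq hν hκ n

end Pool.Agent.HC
end

/- Helper16.DP.HC.Lin -/
section
set_option autoImplicit false
set_option linter.unusedSectionVars false
set_option linter.style.haveILetI false

/-!
Project HC (MP_0b9e0b_ag), module E1: linear embeddings of projective spaces transport cycles and
rational equivalence.
-/

namespace Pool.Agent.HC

open Pool.Agent.Helper16

variable {k : Type} [Field k]

/-- The image of the vector `u` under the matrix `B` with entries in `k`. -/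
def linMap {α β : Type} [Fintype β] (B : α → β → k) {R : Type} [CommRing R] [Algebra k R]
    (u : β → R) : α → R :=
  fun a => ∑ b, algebraMap k R (B a b) * u b

/-- The substitution given by the matrix `B`. -/
noncomputable def linSub {α β : Type} [Fintype β] (B : α → β → k) :
    MvPolynomial α k →ₐ[k] MvPolynomial β k :=
  MvPolynomial.aeval (linMap B MvPolynomial.X)

section basic

variable {α β : Type} [Fintype β] (B : α → β → k)

theorem linMap_map {R R' : Type} [CommRing R] [CommRing R'] [Algebra k R] [Algebra k R']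
    (φ : R →ₐ[k] R') (u : β → R) : (fun a => φ (linMap B u a)) = linMap B fun b => φ (u b) := by
  funext a
  unfold linMap
  rw [map_sum]
  refine Finset.sum_congr rfl fun b _ => ?_
  rw [map_mul, AlgHom.commutes]

theorem aeval_linMap {R : Type} [CommRing R] [Algebra k R] (u : β → R) (F : MvPolynomial α k) :
    MvPolynomial.aeval (linMap B u) F = MvPolynomial.aeval u (linSub B F) := by
  have h1 : MvPolynomial.aeval (linMap B u) =
      (MvPolynomial.aeval u).comp (linSub B) := by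
    apply MvPolynomial.algHom_ext
    intro a
    rw [MvPolynomial.aeval_X, AlgHom.comp_apply]
    unfold linSub
    rw [MvPolynomial.aeval_X]
    have := congrFun (linMap_map B (MvPolynomial.aeval u : MvPolynomial β k →ₐ[k] R)
      MvPolynomial.X) a
    rw [this]
    congr 1
    funext b
    rw [MvPolynomial.aeval_X]
  rw [h1, AlgHom.comp_apply]

theorem linSub_X (a : α) : linSub B (MvPolynomial.X a) = linMap B MvPolynomial.X a := by
  unfold linSub
  rw [MvPolynomial.aeval_X]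

variable {N : Type} [Field N] [Algebra k N]

theorem coneMap_linMap (u : β → N) :
    coneMap k (linMap B u) = (coneMap k u).comp (linSub B) := by
  apply MvPolynomial.algHom_ext
  intro a
  rw [AlgHom.comp_apply, linSub_X]
  unfold coneMap
  rw [MvPolynomial.aeval_X]
  have := congrFun (linMap_map B (MvPolynomial.aeval (fun j => Polynomial.C (u j) *
    Polynomial.X) : MvPolynomial β k →ₐ[k] Polynomial N) MvPolynomial.X) a
  rw [this]
  unfold linMap
  rw [map_sum, Finset.sum_mul]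
  refine Finset.sum_congr rfl fun b _ => ?_
  change _ = algebraMap k (Polynomial N) (B a b) *
    MvPolynomial.aeval (fun j => Polynomial.C (u j) * Polynomial.X) (MvPolynomial.X b)
  rw [MvPolynomial.aeval_X, map_mul, mul_assoc]
  rfl

theorem homIdeal_linMap (u : β → N) :
    homIdeal k (linMap B u) = (homIdeal k u).comap (linSub B) := by
  rw [homIdeal_eq_ker, homIdeal_eq_ker, coneMap_linMap]
  rfl

theorem ratioField_linMap_le (u : β → N) : ratioField k (linMap B u) ≤ ratioField k u := by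
  unfold ratioField
  rw [IntermediateField.adjoin_le_iff]
  rintro _ ⟨⟨a, a'⟩, rfl⟩
  change linMap B u a / linMap B u a' ∈ ratioField k u
  by_cases hu : u = 0
  · have : linMap B u a = 0 := by
      unfold linMap
      rw [hu]
      simp
    rw [this, zero_div]
    exact zero_mem _
  · obtain ⟨b0, hb0⟩ := Function.ne_iff.1 hu
    change u b0 ≠ 0 at hb0
    have h1 : ∀ a, linMap B u a / u b0 ∈ ratioField k u := by
      intro a
      unfold linMap
      rw [Finset.sum_div]
      refine sum_mem fun b _ => ?_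
      rw [mul_div_assoc]
      exact mul_mem ((ratioField k u).algebraMap_mem _) (div_mem_ratioField u b b0)
    rw [← div_div_div_cancel_right₀ hb0]
    exact div_mem (h1 a) (h1 a')

end basic

/-! ### Embeddings -/

variable {σ τ : Type} [Fintype σ] [Fintype τ]

/-- The matrix `C` is a left inverse of the matrix `B`. -/
def LeftInv (B : σ → τ → k) (C : τ → σ → k) : Prop :=
  ∀ {N : Type} [Field N] [Algebra k N] (u : τ → N), linMap C (linMap B u) = u

variable {B : σ → τ → k} {C : τ → σ → k}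

theorem LeftInv.ne_zero (h : LeftInv B C) {N : Type} [Field N] [Algebra k N] {u : τ → N}
    (hu : u ≠ 0) : linMap B u ≠ 0 := by
  intro h0
  apply hu
  rw [← h u, h0]
  funext t
  unfold linMap
  simp

theorem LeftInv.ratioField (h : LeftInv B C) {N : Type} [Field N] [Algebra k N] (u : τ → N) :
    HC.ratioField k (linMap B u) = HC.ratioField k u := by
  refine le_antisymm (ratioField_linMap_le B u) ?_
  have h1 := ratioField_linMap_le C (linMap B u)
  rwa [h u] at h1

theorem LeftInv.specAt (h : LeftInv B C) {N : Type} [Field N] [Algebra k N] {v : Place k N}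
    {u : τ → N} {y : τ → v.resField} (hy : SpecAt v u y) :
    SpecAt v (linMap B u) (linMap B y) := by
  obtain ⟨hy0, c, hc, hcy⟩ := hy
  refine ⟨h.ne_zero hy0, c, hc, fun i => ?_⟩
  have h1 : c * linMap B u i = MvPolynomial.aeval (fun t => c * u t)
      (linMap B (MvPolynomial.X : τ → MvPolynomial τ k) i) := by
    have := congrFun (linMap_map B (MvPolynomial.aeval (fun t => c * u t) :
      MvPolynomial τ k →ₐ[k] N) MvPolynomial.X) i
    rw [this]
    unfold linMap
    rw [Finset.mul_sum]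
    refine Finset.sum_congr rfl fun t _ => ?_
    change _ = algebraMap k N (B i t) * MvPolynomial.aeval (fun t => c * u t) (MvPolynomial.X t)
    rw [MvPolynomial.aeval_X]
    ring
  have h2 := aeval_res v (fun t => (hcy t).1)
    (linMap B (MvPolynomial.X : τ → MvPolynomial τ k) i)
  rw [← h1] at h2
  refine ⟨h2.1, ?_⟩
  rw [h2.2]
  have := congrFun (linMap_map B (MvPolynomial.aeval (fun t => v.res (c * u t)) :
    MvPolynomial τ k →ₐ[k] v.resField) MvPolynomial.X) i
  rw [this]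
  congr 1
  funext t
  change _ = MvPolynomial.aeval (fun t => v.res (c * u t)) (MvPolynomial.X t)
  rw [MvPolynomial.aeval_X]
  exact (hcy t).2

/-- Push-forward of cycles under the embedding given by the matrix `B`. -/
noncomputable def pushL (B : σ → τ → k) : (Ideal (MvPolynomial τ k) →₀ ℚ) →ₗ[ℚ]
    (Ideal (MvPolynomial σ k) →₀ ℚ) :=
  Finsupp.lmapDomain ℚ ℚ (Ideal.comap (linSub B))

theorem pushL_single (B : σ → τ → k) (P : Ideal (MvPolynomial τ k)) (a : ℚ) :
    pushL B (Finsupp.single P a) = Finsupp.single (P.comap (linSub B)) a := by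
  unfold pushL
  rw [Finsupp.lmapDomain_apply, Finsupp.mapDomain_single]

/-- Rational equivalence is preserved. -/
theorem pushL_rat (h : LeftInv B C) {I : Set (MvPolynomial σ k)} {I' : Set (MvPolynomial τ k)}
    (hI : ∀ {N : Type} [Field N] [Algebra k N] (u : τ → N), IsPt I' u → IsPt I (linMap B u))
    {r : ℕ} {z : Ideal (MvPolynomial τ k) →₀ ℚ} (hz : z ∈ rat I' r) :
    pushL B z ∈ rat I r := by
  have h1 : rat I' r ≤ (rat I r).comap (pushL B) := by
    unfold rat
    rw [Submodule.span_le]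
    rintro _ ⟨N, _, _, u, f, S, y, hN, htr, hu, hf, hy, hS, rfl⟩
    rw [SetLike.mem_coe, Submodule.mem_comap]
    refine Submodule.subset_span ⟨N, inferInstance, inferInstance, linMap B u, f, S,
      fun v => linMap B (y v), hN, htr, hI u hu, hf, fun v => h.specAt (hy v), fun v => ?_, ?_⟩
    · rw [hS, h.ratioField]
    · rw [map_sum]
      refine Finset.sum_congr rfl fun v _ => ?_
      rw [pushL_single, homIdeal_linMap, h.ratioField]
  exact h1 hz

theorem isSub_push (h : LeftInv B C) {I : Set (MvPolynomial σ k)}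
    {I' : Set (MvPolynomial τ k)} (hIh : ∀ P ∈ I, ∃ d, P.IsHomogeneous d)
    (hI : ∀ {N : Type} [Field N] [Algebra k N] (u : τ → N), IsPt I' u → IsPt I (linMap B u))
    {r : ℕ} {P : Ideal (MvPolynomial τ k)} (hP : IsSub I' r P) :
    IsSub I r (P.comap (linSub B)) := by
  obtain ⟨N, _, _, u, hu, rfl⟩ := exists_pt hP
  rw [← homIdeal_linMap]
  refine isSub_of_pt hIh (hI u hu) ?_
  have h1 := hP.dim
  rw [trdeg_cone hu.1] at h1
  rw [h.ratioField]
  exact Cardinal.add_one_inj.1 h1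

theorem exists_pull (h : LeftInv B C) {I : Set (MvPolynomial σ k)}
    {I' : Set (MvPolynomial τ k)} (hIh : ∀ P ∈ I', ∃ d, P.IsHomogeneous d)
    (hI : ∀ {N : Type} [Field N] [Algebra k N] (u : τ → N), IsPt I (linMap B u) → IsPt I' u)
    {r : ℕ} {Q : Ideal (MvPolynomial σ k)} (hQ : IsSub I r Q)
    (hfix : ∀ {N : Type} [Field N] [Algebra k N] (x : σ → N), homIdeal k x = Q →
      linMap B (linMap C x) = x) :
    ∃ P, IsSub I' r P ∧ P.comap (linSub B) = Q := by
  obtain ⟨N, _, _, x, hx, hxQ⟩ := exists_pt hQ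
  have h1 := hfix x hxQ
  refine ⟨homIdeal k (linMap C x), ?_, ?_⟩
  · refine isSub_of_pt hIh (hI _ (by rw [h1]; exact hx)) ?_
    rw [← h.ratioField, h1]
    have h2 := hQ.dim
    rw [← hxQ, trdeg_cone hx.1] at h2
    exact Cardinal.add_one_inj.1 h2
  · rw [← homIdeal_linMap, h1, hxQ]

end Pool.Agent.HC
end
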