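import Mathlib
import Mathlib.FieldTheory.RatFunc.AsPolynomial
import Pool.Agent.Helper16.DPG.G02
import Pool.Agent.Helper16.DPG.G03
import Pool.Agent.Helper16.DPG.G04

/- Helper16.DP.HC.PN1 -/
section
set_option autoImplicit false
set_option linter.unusedSectionVars false
set_option linter.style.haveILetI false

/-!
Project HC (MP_0b9e0b_ag), module P5, first part: moving cycles of the projective space into
coordinate hyperplanes. The relation is given by the function `T - x j` on the line `x + T e j`.
-/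

namespace Pool.Agent.HC

open Pool.Agent.Helper16

variable {K σ : Type} [Field K]

theorem isAlgebraic_mono {N : Type} [Field N] [Algebra K N] {A B : IntermediateField K N}
    (h : A ≤ B) {z : N} (hz : IsAlgebraic A z) : IsAlgebraic B z := by
  letI : Algebra A B := (IntermediateField.inclusion h).toRingHom.toAlgebra
  haveI : IsScalarTower A B N := IsScalarTower.of_algebraMap_eq fun _ => rfl
  exact hz.extendScalars (IntermediateField.inclusion_injective h)

/-- If the transcendence degree is smaller than the number of coordinates in `D` then one of them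
is algebraic over the others. -/
theorem exists_algebraic_coord {N : Type} [Field N] [Algebra K N] [DecidableEq σ] (x : σ → N)
    (D : Finset σ) (h : tdeg K (x '' (D : Set σ)) < D.card) :
    ∃ j ∈ D, IsAlgebraic (IntermediateField.adjoin K (x '' ((D.erase j : Finset σ) : Set σ)))
      (x j) := by
  induction D using Finset.induction_on with
  | empty => exact absurd h (by simp)
  | insert a D ha ih =>
    by_cases hal : IsAlgebraic (IntermediateField.adjoin K (x '' (D : Set σ))) (x a)
    · refine ⟨a, Finset.mem_insert_self a D, ?_⟩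
      rw [Finset.erase_insert ha]
      exact hal
    · have h1 := tdeg_insert_of_transcendental (D.finite_toSet.image x) hal
      rw [Finset.coe_insert, Set.image_insert_eq, h1, Finset.card_insert_of_notMem ha] at h
      obtain ⟨j, hj, hja⟩ := ih (by omega)
      refine ⟨j, Finset.mem_insert_of_mem hj, isAlgebraic_mono ?_ hja⟩
      refine IntermediateField.adjoin.mono K _ _ (Set.image_mono ?_)
      rw [Finset.coe_subset]
      exact Finset.erase_subset_erase j (Finset.subset_insert a D)

theorem mem_homIdeal_X {N : Type} [Field N] [Algebra K N] {y : σ → N} {a : σ} :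
    (MvPolynomial.X a : MvPolynomial σ K) ∈ homIdeal K y ↔ y a = 0 := by
  rw [mem_homIdeal_form y (MvPolynomial.isHomogeneous_X K a), MvPolynomial.aeval_X]

theorem essFiniteType_ratFuncL {L : Type} [Field L] [Algebra K L]
    (hL : Algebra.EssFiniteType K L) : Algebra.EssFiniteType K (RatFunc L) := by
  haveI := hL
  haveI := (isFunctionField_ratFunc L).1
  exact Algebra.EssFiniteType.comp K L (RatFunc L)

theorem trdeg_ratFuncL {L : Type} [Field L] [Algebra K L] {s : ℕ}
    (hL : Algebra.trdeg K L = s) : Algebra.trdeg K (RatFunc L) = s + 1 := by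
  rw [← trdeg_add_eq K L (A := RatFunc L), hL, (isFunctionField_ratFunc L).2]

/-- Embedding of the field `L` into the residue field of a place which is trivial on `L`. -/
theorem exists_resHomL {L N : Type} [Field L] [Field N] [Algebra K L] [Algebra K N] [Algebra L N]
    [IsScalarTower K L N] (v : Place K N)
    (hv : ∀ a : L, a ≠ 0 → v.val (algebraMap L N a) = 1) :
    ∃ ρ : L →ₐ[K] v.resField, ∀ a, algebraMap L N a ∈ v.ring ∧
      ρ a = v.res (algebraMap L N a) := by
  have hring : ∀ a : L, algebraMap L N a ∈ v.ring := by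
    intro a
    by_cases h : a = 0
    · rw [h, map_zero]; exact zero_mem _
    · rw [v.mem_ring, hv a h]
  refine ⟨{ toFun := fun a => v.res (algebraMap L N a)
            map_one' := by rw [map_one, v.res_one]
            map_zero' := by rw [map_zero, v.res_zero]
            map_mul' := fun a b => by rw [map_mul, v.res_mul (hring a) (hring b)]
            map_add' := fun a b => by rw [map_add, v.res_add (hring a) (hring b)]
            commutes' := fun a => by
              rw [← IsScalarTower.algebraMap_apply K L N, v.res_algebraMap] },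
    fun a => ⟨hring a, rfl⟩⟩

section move

variable {L : Type} [Field L] [Algebra K L]

/-- The point `x` with the coordinate `j` replaced by the variable `T`. -/
noncomputable def lineP [DecidableEq σ] (x : σ → L) (j : σ) : σ → RatFunc L :=
  fun m => if m = j then RatFunc.X else algebraMap L (RatFunc L) (x m)

theorem lineP_self [DecidableEq σ] (x : σ → L) (j : σ) : lineP x j j = RatFunc.X := if_pos rfl

theorem lineP_ne [DecidableEq σ] (x : σ → L) {j m : σ} (h : m ≠ j) :
    lineP x j m = algebraMap L (RatFunc L) (x m) := if_neg h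

theorem specAt_of_ring {N : Type} [Field N] [Algebra K N] (v : Place K N) {z : σ → N} {i : σ}
    (hi : z i = 1) (hz : ∀ m, z m ∈ v.ring) : SpecAt v z (fun m => v.res (z m)) := by
  refine ⟨fun h => ?_, 1, one_ne_zero, fun m => ?_⟩
  · have := congrFun h i
    simp only [hi, v.res_one, Pi.zero_apply] at this
    exact one_ne_zero this
  · rw [one_mul]
    exact ⟨hz m, rfl⟩

theorem move_step [Finite σ] [DecidableEq σ] {s : ℕ} {A : Finset σ} {i : σ}
    {W : Submodule ℚ (Ideal (MvPolynomial σ K) →₀ ℚ)}
    (hrat : rat (∅ : Set (MvPolynomial σ K)) s ≤ W)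
    (hW : ∀ Q, IsSub (∅ : Set (MvPolynomial σ K)) s Q → (∀ a ∈ A, MvPolynomial.X a ∈ Q) →
      MvPolynomial.X i ∈ Q → Finsupp.single Q 1 ∈ W)
    (hEss : Algebra.EssFiniteType K L) (htr : Algebra.trdeg K L = s) {x : σ → L}
    (htop : IntermediateField.adjoin K (Set.range x) = ⊤)
    (hxi : x i = 1) (hxA : ∀ a ∈ A, x a = 0) {j : σ} (hji : j ≠ i) (hjA : j ∉ A) {D : Finset σ}
    (hjD : j ∉ D) (halg : IsAlgebraic (IntermediateField.adjoin K (x '' (D : Set σ))) (x j))
    (IH : ∀ (N : Type) [Field N] [Algebra K N] (y : σ → N), y i = 1 → (∀ a ∈ A, y a = 0) →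
      tdeg K (Set.range y) = s → tdeg K (y '' (D : Set σ)) < tdeg K (x '' (D : Set σ)) →
      Finsupp.single (homIdeal K y) 1 ∈ W) :
    Finsupp.single (homIdeal K x) 1 ∈ W := by
  have hs : tdeg K (Set.range x) = s := by
    rw [tdeg_eq_iff (Set.finite_range x), htop, IntermediateField.topEquiv.trdeg_eq, htr]
  set N := RatFunc L with hNdef
  set z : σ → N := lineP x j with hz
  set f : N := RatFunc.X - algebraMap L N (x j) with hf
  have hzj : z j = RatFunc.X := lineP_self x j
  have hzm : ∀ m, m ≠ j → z m = algebraMap L N (x m) := fun m hm => lineP_ne x hm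
  have hzi : z i = 1 := by rw [hzm i hji.symm, hxi, map_one]
  have hzA : ∀ a ∈ A, z a = 0 := by
    intro a ha
    have : a ≠ j := fun h => hjA (h ▸ ha)
    rw [hzm a this, hxA a ha, map_zero]
  have hz0 : z ≠ 0 := by
    intro h
    have := congrFun h i
    rw [hzi] at this
    exact one_ne_zero this
  have hpt : IsPt (∅ : Set (MvPolynomial σ K)) z := ⟨hz0, fun P hP => absurd hP (by simp)⟩
  have hfT : Transcendental L f := by
    intro h
    have h1 := h.add (isAlgebraic_algebraMap (R := L) (A := N) (x j))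
    rw [hf, sub_add_cancel] at h1
    exact ratFunc_X_transcendental L h1
  have hf0 : f ≠ 0 := by
    rintro h
    rw [h] at hfT
    exact hfT isAlgebraic_zero
  have himg : z '' (D : Set σ) = (IsScalarTower.toAlgHom K L N) '' (x '' (D : Set σ)) := by
    rw [Set.image_image]
    refine Set.image_congr fun m hm => ?_
    have : m ≠ j := fun h => hjD (by rw [← h]; exact hm)
    exact hzm m this
  have hres0 : ∀ (v : Place K N), f ∈ v.ring → v.ord f ≠ 0 → 0 < v.ord f ∧ v.res f = 0 := by
    intro v hfr hord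
    have h1 := (v.ord_nonneg_iff hf0).2 hfr
    have h2 : 0 < v.ord f := by omega
    exact ⟨h2, (v.res_eq_zero_iff hfr).2 ((v.ord_pos_iff hf0).1 h2)⟩
  refine rel_solve (essFiniteType_ratFuncL hEss) (trdeg_ratFuncL htr) hpt hf0 hrat
    (Q := homIdeal K x) ?_ ?_
  · intro v y hy hyr hord
    by_cases hint : ∀ m, z m ∈ v.ring
    · have hy' := specAt_of_ring v hzi hint
      set y' : σ → v.resField := fun m => v.res (z m) with hy'def
      have hy'i : y' i = 1 := by
        change v.res (z i) = 1
        rw [hzi, v.res_one]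
      rw [hy'.homIdeal_eq hy]
      have hyr' : tdeg K (Set.range y') = s := by
        rw [tdeg_eq_iff (Set.finite_range y'), ← ratioField_of_one y' i hy'i,
          ← hy'.ratioField_eq hy, hyr]
      -- if the coordinate `x j` is integral then `y'` is the specialisation of `x`
      have hkey : algebraMap L N (x j) ∈ v.ring → 0 < v.ord f ∧
          ∀ m, y' m = v.res (algebraMap L N (x m)) := by
        intro hj
        have hXr : (RatFunc.X : N) ∈ v.ring := by
          have := hint j
          rwa [hzj] at this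
        have hfr : f ∈ v.ring := sub_mem hXr hj
        obtain ⟨h1, h2⟩ := hres0 v hfr hord
        refine ⟨h1, fun m => ?_⟩
        by_cases hm : m = j
        · rw [hm]
          change v.res (z j) = _
          rw [hzj]
          rw [hf, v.res_sub hXr hj, sub_eq_zero] at h2
          exact h2
        · change v.res (z m) = _
          rw [hzm m hm]
      by_cases htriv : ∀ a : L, a ≠ 0 → v.val (algebraMap L N a) = 1
      · left
        obtain ⟨ρ, hρ⟩ := exists_resHomL (K := K) v htriv
        obtain ⟨h1, h2⟩ := hkey (hρ (x j)).1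
        refine ⟨?_, h1⟩
        have h3 : y' = fun m => ρ (x m) := by
          funext m
          rw [h2 m, (hρ (x m)).2]
        rw [h3, homIdeal_map]
      · right
        refine IH _ y' hy'i (fun a ha => ?_) hyr' ?_
        · change v.res (z a) = 0
          rw [hzA a ha, v.res_zero]
        · have h1 : y' '' (D : Set σ) = v.res '' (z '' (D : Set σ)) := by
            rw [Set.image_image]
          have h2 : tdeg K (z '' (D : Set σ)) = tdeg K (x '' (D : Set σ)) := by
            rw [himg, tdeg_image]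
          rw [h1, ← h2]
          refine tdeg_res_lt v (D.finite_toSet.image z) (by rintro _ ⟨m, -, rfl⟩; exact hint m) ?_
          by_contra hcon
          push Not at hcon
          have halg' : IsAlgebraic (IntermediateField.adjoin K (z '' (D : Set σ)))
              (algebraMap L N (x j)) := by
            rw [himg]
            refine isAlgebraic_of_tdeg ((D.finite_toSet.image x).image _) ?_
            have h8 : insert (algebraMap L N (x j)) ((IsScalarTower.toAlgHom K L N) ''
                (x '' (D : Set σ))) = (IsScalarTower.toAlgHom K L N) ''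
                (x '' (D : Set σ) ∪ {x j}) := by
              rw [Set.union_singleton, Set.image_insert_eq]
              rfl
            rw [h8, tdeg_image, tdeg_image, tdeg_union_of_algebraic (D.finite_toSet.image x)
              (Set.finite_singleton _) (by
                rintro a rfl
                exact halg)]
          have h3 : algebraMap L N (x j) ∈ v.ring := by
            by_cases h : algebraMap L N (x j) = 0
            · rw [h]; exact zero_mem _
            · rw [v.mem_ring, val_eq_one_of_algebraic_over v hcon halg' h]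
          obtain ⟨-, h4⟩ := hkey h3
          have h5 : ∀ m, algebraMap L N (x m) ∈ v.ring := by
            intro m
            by_cases hm : m = j
            · rw [hm]; exact h3
            · rw [← hzm m hm]; exact hint m
          have h6 := tdeg_res_lt v (S := (IsScalarTower.toAlgHom K L N) '' (Set.range x))
            ((Set.finite_range x).image _) (by rintro _ ⟨_, ⟨m, rfl⟩, rfl⟩; exact h5 m) (by
              push Not at htriv
              obtain ⟨a, ha0, ha⟩ := htriv
              refine ⟨algebraMap L N a, ?_, ?_, ha⟩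
              · rw [← IntermediateField.adjoin_map, htop]
                exact ⟨a, trivial, rfl⟩
              · rwa [Ne, map_eq_zero])
          rw [tdeg_image, hs] at h6
          have h7 : v.res '' ((IsScalarTower.toAlgHom K L N) '' (Set.range x)) =
              Set.range y' := by
            ext b
            constructor
            · rintro ⟨_, ⟨_, ⟨m, rfl⟩, rfl⟩, rfl⟩
              exact ⟨m, h4 m⟩
            · rintro ⟨m, rfl⟩
              exact ⟨_, ⟨_, ⟨m, rfl⟩, rfl⟩, (h4 m).symm⟩
          rw [h7, hyr'] at h6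
          exact lt_irrefl _ h6
    · right
      push Not at hint
      obtain ⟨m, hm⟩ := hint
      have hyc := hy
      obtain ⟨hy0, c, hc, h⟩ := hy
      rw [v.mem_ring, not_le] at hm
      have hc1 : v.val c < 1 := by
        have h1 := (h m).1
        rw [v.mem_ring, map_mul] at h1
        by_contra h2
        rw [not_lt] at h2
        have h3 : v.val (z m) ≤ v.val c * v.val (z m) := le_mul_of_one_le_left zero_le h2
        exact absurd (hm.trans_le (h3.trans h1)) (lt_irrefl _)
      have hyi : y i = 0 := by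
        rw [(h i).2, hzi, mul_one, v.res_eq_zero_iff hc1.le]
        exact hc1
      have hyA : ∀ a ∈ A, y a = 0 := by
        intro a ha
        rw [(h a).2, hzA a ha, mul_zero, v.res_zero]
      exact hW _ (isSub_of_pt (by simp) ⟨hy0, fun P hP => absurd hP (by simp)⟩ hyr)
        (fun a ha => mem_homIdeal_X.2 (hyA a ha)) (mem_homIdeal_X.2 hyi)
  · obtain ⟨w, hw⟩ := (isFunctionField_ratFunc L).exists_zero f hfT
    set v : Place K N := under K w with hv
    have htriv : ∀ a : L, a ≠ 0 → v.val (algebraMap L N a) = 1 := fun a ha => w.triv a ha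
    obtain ⟨ρ, hρ⟩ := exists_resHomL (K := K) v htriv
    have hvf : v.val f < 1 := hw
    have hfr : f ∈ v.ring := hvf.le
    have hXr : (RatFunc.X : N) ∈ v.ring := by
      have : (RatFunc.X : N) = f + algebraMap L N (x j) := by rw [hf, sub_add_cancel]
      rw [this]
      exact add_mem hfr (hρ (x j)).1
    have hint : ∀ m, z m ∈ v.ring := by
      intro m
      by_cases hm : m = j
      · rw [hm, hzj]; exact hXr
      · rw [hzm m hm]; exact (hρ (x m)).1
    have hy' := specAt_of_ring v hzi hint
    have h3 : (fun m => v.res (z m)) = fun m => ρ (x m) := by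
      funext m
      by_cases hm : m = j
      · have h2 : v.res f = 0 := (v.res_eq_zero_iff hfr).2 hvf
        rw [hf, v.res_sub hXr (hρ (x j)).1, sub_eq_zero] at h2
        rw [hm, hzj, h2, (hρ (x j)).2]
      · rw [hzm m hm, (hρ (x m)).2]
    refine ⟨v, _, hy', ?_, (v.ord_pos_iff hf0).2 hvf, ?_⟩
    · rw [h3, trdeg_ratioField_map, ratioField_of_one x i hxi, ← tdeg_eq_iff (Set.finite_range x)]
      exact hs
    · rw [h3, homIdeal_map]

end move

end Pool.Agent.HC
end

/- Helper16.DP.HC.PN2 -/
section
set_option autoImplicit false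
set_option linter.unusedSectionVars false
set_option linter.style.haveILetI false

/-!
Project HC (MP_0b9e0b_ag), module P5, second part: every cycle of the projective space is
rationally equivalent to a multiple of a linear subspace, hence to a cycle in a given hypersurface.
-/

namespace Pool.Agent.HC

open Pool.Agent.Helper16

variable {K σ : Type} [Field K]

theorem move_all [Finite σ] [DecidableEq σ] {s : ℕ} {A : Finset σ} {i : σ}
    {W : Submodule ℚ (Ideal (MvPolynomial σ K) →₀ ℚ)}
    (hrat : rat (∅ : Set (MvPolynomial σ K)) s ≤ W)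
    (hW : ∀ Q, IsSub (∅ : Set (MvPolynomial σ K)) s Q → (∀ a ∈ A, MvPolynomial.X a ∈ Q) →
      MvPolynomial.X i ∈ Q → Finsupp.single Q 1 ∈ W) :
    ∀ (n : ℕ) (D : Finset σ), D.card = n → i ∉ D → (∀ a ∈ A, a ∉ D) →
      ∀ (N : Type) [Field N] [Algebra K N] (x : σ → N), x i = 1 → (∀ a ∈ A, x a = 0) →
      tdeg K (Set.range x) = s → tdeg K (x '' (D : Set σ)) < n →
      Finsupp.single (homIdeal K x) 1 ∈ W := by
  intro n
  induction n with
  | zero => intro D _ _ _ N _ _ x _ _ _ h; omega
  | succ n ih =>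
    intro D hD hiD hAD N _ _ x hxi hxA hs hlt
    set L := IntermediateField.adjoin K (Set.range x) with hL
    let x' : σ → L := fun m => ⟨x m, IntermediateField.subset_adjoin K _ ⟨m, rfl⟩⟩
    have hx' : (fun m => L.val (x' m)) = x := rfl
    have himg : ∀ T : Set σ, tdeg K (x' '' T) = tdeg K (x '' T) := by
      intro T
      rw [← tdeg_image L.val, Set.image_image]
      rfl
    have hEss : Algebra.EssFiniteType K L := by
      rw [IntermediateField.essFiniteType_iff]
      exact IntermediateField.fg_adjoin_of_finite (Set.finite_range _)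
    have htr : Algebra.trdeg K L = s := by
      rw [← tdeg_eq_iff (Set.finite_range x)]
      exact hs
    have htop : IntermediateField.adjoin K (Set.range x') = ⊤ := by
      apply IntermediateField.map_injective L.val
      rw [IntermediateField.adjoin_map, ← Set.range_comp, ← AlgHom.fieldRange_eq_map,
        IntermediateField.fieldRange_val]
      rfl
    obtain ⟨j, hj, hja⟩ := exists_algebraic_coord (K := K) x' D (by rw [himg, hD]; exact hlt)
    have hji : j ≠ i := fun h => hiD (h ▸ hj)
    have hjA : j ∉ A := fun h => hAD j h hj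
    have h1 := move_step hrat hW hEss htr htop (x := x') (Subtype.ext hxi)
      (fun a ha => Subtype.ext (hxA a ha)) hji hjA (Finset.notMem_erase j D) hja
      (fun M _ _ y hyi hyA hys hylt => by
        refine ih (D.erase j) (by rw [Finset.card_erase_of_mem hj, hD]; rfl)
          (fun h => hiD (Finset.mem_of_mem_erase h))
          (fun a ha h => hAD a ha (Finset.mem_of_mem_erase h)) M y hyi hyA hys ?_
        refine lt_of_lt_of_le hylt ?_
        rw [himg]
        have h2 : tdeg K (x '' ((D.erase j : Finset σ) : Set σ)) ≤ tdeg K (x '' (D : Set σ)) :=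
          tdeg_mono' (D.finite_toSet.image x) (Set.image_mono (by
            rw [Finset.coe_subset]
            exact Finset.erase_subset j D))
        omega)
    rw [← hx', homIdeal_map]
    exact h1

/-- The cycles which are rationally equivalent to cycles in the linear space `X a = 0`, `a ∈ A`. -/
noncomputable def linSpan (K : Type) {σ : Type} [Field K] (s : ℕ) (A : Finset σ) :
    Submodule ℚ (Ideal (MvPolynomial σ K) →₀ ℚ) :=
  rat (∅ : Set (MvPolynomial σ K)) s ⊔ Submodule.span ℚ {z | ∃ Q,
    IsSub (∅ : Set (MvPolynomial σ K)) s Q ∧ (∀ a ∈ A, MvPolynomial.X a ∈ Q) ∧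
    z = Finsupp.single Q 1}

theorem tdeg_of_isSub [Finite σ] {I : Set (MvPolynomial σ K)} {s : ℕ} {N : Type} [Field N]
    [Algebra K N] {x : σ → N} (h : IsSub I s (homIdeal K x)) {i : σ} (hi : x i = 1) :
    tdeg K (Set.range x) = s := by
  have hx0 : x ≠ 0 := by
    intro h0
    have := congrFun h0 i
    rw [hi] at this
    exact one_ne_zero this
  have h1 := h.dim
  rw [trdeg_cone hx0] at h1
  rw [tdeg_eq_iff (Set.finite_range x), ← ratioField_of_one x i hi]
  exact Cardinal.add_one_inj.1 h1

theorem mem_linSpan [Fintype σ] [DecidableEq σ] {s : ℕ} (A : Finset σ)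
    (hA : s + 1 + A.card ≤ Fintype.card σ) {P : Ideal (MvPolynomial σ K)}
    (hP : IsSub (∅ : Set (MvPolynomial σ K)) s P) : Finsupp.single P 1 ∈ linSpan K s A := by
  induction A using Finset.induction_on with
  | empty =>
    exact (le_sup_right : _ ≤ linSpan K s ∅) (Submodule.subset_span ⟨P, hP, by simp, rfl⟩)
  | insert i A hi ih =>
    rw [Finset.card_insert_of_notMem hi] at hA
    have hle : linSpan K s A ≤ linSpan K s (insert i A) := by
      refine sup_le le_sup_left (Submodule.span_le.2 ?_)
      rintro _ ⟨Q, hQ, hQA, rfl⟩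
      by_cases hiQ : (MvPolynomial.X i : MvPolynomial σ K) ∈ Q
      · refine (le_sup_right : _ ≤ linSpan K s (insert i A)) (Submodule.subset_span
          ⟨Q, hQ, fun a ha => ?_, rfl⟩)
        rcases Finset.mem_insert.1 ha with rfl | h
        · exact hiQ
        · exact hQA a h
      · obtain ⟨N, _, _, x, hx, rfl⟩ := exists_pt hQ
        rw [mem_homIdeal_X] at hiQ
        have h1 : homIdeal K (fun m => (x i)⁻¹ * x m) = homIdeal K x :=
          homIdeal_scale x (inv_ne_zero hiQ)
        set x' : σ → N := fun m => (x i)⁻¹ * x m with hx'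
        have hx'i : x' i = 1 := inv_mul_cancel₀ hiQ
        rw [← h1] at hQ hQA ⊢
        have hs := tdeg_of_isSub hQ hx'i
        refine move_all (s := s) (A := A) (i := i) (W := linSpan K s (insert i A)) le_sup_left
          ?_ _ (Finset.univ \ insert i A) rfl (by simp) (by
            intro a ha h
            rw [Finset.mem_sdiff, Finset.mem_insert, not_or] at h
            exact h.2.2 ha) N x' hx'i (fun a ha => mem_homIdeal_X.1 (hQA a ha)) hs ?_
        · intro Q' hQ' hA' hi'
          refine (le_sup_right : _ ≤ linSpan K s (insert i A)) (Submodule.subset_span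
            ⟨Q', hQ', fun a ha => ?_, rfl⟩)
          rcases Finset.mem_insert.1 ha with rfl | h
          · exact hi'
          · exact hA' a h
        · have h2 : tdeg K (x' '' ((Finset.univ \ insert i A : Finset σ) : Set σ)) ≤ s := by
            rw [← hs]
            exact tdeg_mono' (Set.finite_range x') (Set.image_subset_range _ _)
          have h3 : (Finset.univ \ insert i A : Finset σ).card =
              Fintype.card σ - (A.card + 1) := by
            rw [Finset.card_univ_sdiff, Finset.card_insert_of_notMem hi]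
          omega
    exact hle (ih (by omega))

/-! ### Linear spaces -/

/-- Set the coordinates in `A` equal to zero. -/
noncomputable def killA (K : Type) {σ : Type} [Field K] [DecidableEq σ] (A : Finset σ) :
    MvPolynomial σ K →ₐ[K] MvPolynomial {j : σ // j ∉ A} K :=
  MvPolynomial.aeval fun j => if h : j ∈ A then 0 else MvPolynomial.X ⟨j, h⟩

theorem killA_surjective [DecidableEq σ] (A : Finset σ) :
    Function.Surjective (killA K A) := by
  intro F
  refine ⟨MvPolynomial.rename Subtype.val F, ?_⟩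
  have h1 : (killA K A).comp (MvPolynomial.rename Subtype.val) =
      AlgHom.id K (MvPolynomial {j : σ // j ∉ A} K) := by
    apply MvPolynomial.algHom_ext
    intro j
    rw [AlgHom.comp_apply, MvPolynomial.rename_X]
    unfold killA
    rw [MvPolynomial.aeval_X, dif_neg j.2]
    rfl
  exact DFunLike.congr_fun h1 F

theorem mem_of_killA [DecidableEq σ] {A : Finset σ} {P : Ideal (MvPolynomial σ K)}
    (hPA : ∀ a ∈ A, (MvPolynomial.X a : MvPolynomial σ K) ∈ P) {F : MvPolynomial σ K}
    (hF : killA K A F = 0) : F ∈ P := by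
  have h2 : Ideal.Quotient.mkₐ K P =
      ((Ideal.Quotient.mkₐ K P).comp (MvPolynomial.rename Subtype.val)).comp (killA K A) := by
    apply MvPolynomial.algHom_ext
    intro j
    rw [AlgHom.comp_apply]
    unfold killA
    rw [MvPolynomial.aeval_X]
    by_cases h : j ∈ A
    · rw [dif_pos h, map_zero]
      exact Ideal.Quotient.eq_zero_iff_mem.2 (hPA j h)
    · rw [dif_neg h, AlgHom.comp_apply, MvPolynomial.rename_X]
  have h3 := DFunLike.congr_fun h2 F
  rw [AlgHom.comp_apply, hF, map_zero] at h3
  exact Ideal.Quotient.eq_zero_iff_mem.1 h3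

/-- The generic point of a linear space. -/
noncomputable def linPt (K : Type) {σ : Type} [Field K] [DecidableEq σ] (A : Finset σ) :
    σ → FractionRing (MvPolynomial {j : σ // j ∉ A} K) :=
  fun j => algebraMap _ _ (killA K A (MvPolynomial.X j))

theorem aeval_linPt [DecidableEq σ] (A : Finset σ) (F : MvPolynomial σ K) :
    MvPolynomial.aeval (linPt K A) F = algebraMap (MvPolynomial {j : σ // j ∉ A} K)
      (FractionRing (MvPolynomial {j : σ // j ∉ A} K)) (killA K A F) := by
  have h1 : MvPolynomial.aeval (linPt K A) = (IsScalarTower.toAlgHom K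
      (MvPolynomial {j : σ // j ∉ A} K) (FractionRing (MvPolynomial {j : σ // j ∉ A} K))).comp
      (killA K A) := by
    apply MvPolynomial.algHom_ext
    intro j
    rw [MvPolynomial.aeval_X]
    rfl
  exact DFunLike.congr_fun h1 F

theorem mem_homIdeal_linPt [DecidableEq σ] (A : Finset σ) (F : MvPolynomial σ K) :
    F ∈ homIdeal K (linPt K A) ↔ killA K A F = 0 := by
  have h0 : ∀ G : MvPolynomial σ K, MvPolynomial.aeval (linPt K A) G = 0 ↔ killA K A G = 0 := by
    intro G
    rw [aeval_linPt, map_eq_zero_iff _ (IsFractionRing.injective _ _)]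
  constructor
  · intro h
    rw [← h0, ← MvPolynomial.sum_homogeneousComponent F, map_sum]
    exact Finset.sum_eq_zero fun n _ => (mem_homIdeal_iff _ F).1 h n
  · intro h
    refine mem_of_killA (fun a ha => ?_) h
    rw [mem_homIdeal_X]
    unfold linPt killA
    rw [MvPolynomial.aeval_X, dif_pos ha, map_zero]

theorem isSub_linPt [Fintype σ] [DecidableEq σ] {A : Finset σ} {s : ℕ}
    (hA : Fintype.card {j : σ // j ∉ A} = s + 1) :
    IsSub (∅ : Set (MvPolynomial σ K)) s (homIdeal K (linPt K A)) where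
  prime := homIdeal_prime _
  hom := homIdeal_hom _
  le := by simp
  dim := by
    have h1 : homIdeal K (linPt K A) = RingHom.ker (killA K A) := by
      ext F
      rw [mem_homIdeal_linPt, RingHom.mem_ker]
    rw [h1, (Ideal.quotientKerAlgEquivOfSurjective (killA_surjective A)).trdeg_eq,
      MvPolynomial.trdeg_of_isDomain]
    simp [hA]

theorem linear_unique [Fintype σ] [DecidableEq σ] {A : Finset σ} {s : ℕ}
    (hA : Fintype.card {j : σ // j ∉ A} = s + 1) {P : Ideal (MvPolynomial σ K)}
    (hP : IsSub (∅ : Set (MvPolynomial σ K)) s P)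
    (hPA : ∀ a ∈ A, (MvPolynomial.X a : MvPolynomial σ K) ∈ P) :
    homIdeal K (linPt K A) = P :=
  isSub_eq_of_le (isSub_linPt hA) hP fun F hF => mem_of_killA hPA ((mem_homIdeal_linPt A F).1 hF)

end Pool.Agent.HC
end

/- Helper16.DP.HC.HV3 -/
section
set_option autoImplicit false
set_option linter.style.haveILetI false
set_option linter.unusedSectionVars false

/-! Project HC, part H: relations over `M(T)`. -/

namespace Pool.Agent.HC

open Pool.Agent.Helper16 IntermediateField

variable {k : Type} [Field k]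

/-- The place `T = 0` of `M(T)`. -/
theorem exists_T_place (M : Type) [Field M] [Algebra k M] :
    ∃ (w : Place k (RatFunc M)) (φ : M →ₐ[k] w.resField),
      (RatFunc.X : RatFunc M) ∈ w.ring ∧ w.res RatFunc.X = 0 ∧ 0 < w.ord RatFunc.X ∧
        ∀ m : M, algebraMap M (RatFunc M) m ∈ w.ring ∧ w.res (algebraMap M (RatFunc M) m) = φ m := by
  obtain ⟨v, hv⟩ := exists_place_of_prime (k := M) (A := Polynomial M) (N := RatFunc M)
    Polynomial.X Polynomial.prime_X
  let w : Place k (RatFunc M) := under k v
  have hring : ∀ m : M, algebraMap M (RatFunc M) m ∈ w.ring := fun m =>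
    v.ring.algebraMap_mem m
  have hX := hv Polynomial.X
  rw [RatFunc.algebraMap_X] at hX
  have hX1 : w.val (RatFunc.X : RatFunc M) < 1 := hX.2.2 (dvd_refl _)
  have hX0 : (RatFunc.X : RatFunc M) ∈ w.ring := hX1.le
  let φ : M →ₐ[k] w.resField :=
    { toFun := fun a => w.res (algebraMap M (RatFunc M) a)
      map_one' := by rw [map_one, w.res_one]
      map_zero' := by rw [map_zero, w.res_zero]
      map_mul' := fun a b => by rw [map_mul, w.res_mul (hring a) (hring b)]
      map_add' := fun a b => by rw [map_add, w.res_add (hring a) (hring b)]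
      commutes' := fun a => by
        rw [← IsScalarTower.algebraMap_apply, w.res_algebraMap] }
  exact ⟨w, φ, hX0, (w.res_eq_zero_iff hX0).2 hX1, (w.ord_pos_iff RatFunc.X_ne_zero).2 hX1,
    fun m => ⟨hring m, rfl⟩⟩

theorem essFinite_ratFunc (M : Type) [Field M] [Algebra k M] [Algebra.EssFiniteType k M] :
    Algebra.EssFiniteType k (RatFunc M) := by
  haveI := essFiniteType_ratFunc M
  exact Algebra.EssFiniteType.comp k M (RatFunc M)

theorem trdeg_ratFunc' (M : Type) [Field M] [Algebra k M] :
    Algebra.trdeg k (RatFunc M) = Algebra.trdeg k M + 1 := by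
  rw [← trdeg_add_eq k M (A := RatFunc M), trdeg_ratFunc]

/-- A relation with the function `T` over `M(T)`. -/
theorem mem_of_T {σ : Type} [Finite σ] {M : Type} [Field M] [Algebra k M]
    [Algebra.EssFiniteType k M] {r : ℕ} (htr : Algebra.trdeg k M = r)
    {I : Set (MvPolynomial σ k)} {x : σ → RatFunc M} (hx : IsPt I x)
    (V : Submodule ℚ (Ideal (MvPolynomial σ k) →₀ ℚ)) (hV : rat I r ≤ V) (x0 : σ → M)
    (hx0 : Algebra.trdeg k (ratioField k x0) = r)
    (hsp : ∀ (w : Place k (RatFunc M)) (φ : M →ₐ[k] w.resField),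
      (RatFunc.X : RatFunc M) ∈ w.ring → w.res RatFunc.X = 0 →
      (∀ m : M, algebraMap M (RatFunc M) m ∈ w.ring ∧ w.res (algebraMap M (RatFunc M) m) = φ m) →
      SpecAt w x (fun j => φ (x0 j)))
    (h : ∀ (w : Place k (RatFunc M)) (y : σ → w.resField), SpecAt w x y →
      w.ord RatFunc.X ≠ 0 → Algebra.trdeg k (ratioField k y) = r →
      Finsupp.single (homIdeal k y) 1 ∈ V ∨
        (0 < w.ord RatFunc.X ∧ homIdeal k y = homIdeal k x0)) :
    Finsupp.single (homIdeal k x0) 1 ∈ V := by
  haveI := essFinite_ratFunc (k := k) M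
  obtain ⟨w, φ, h1, h2, h3, h4⟩ := exists_T_place (k := k) M
  refine mem_of_rel (by rw [trdeg_ratFunc', htr]) hx RatFunc.X_ne_zero V hV _ h w
    (fun j => φ (x0 j)) (hsp w φ h1 h2 h4) ?_ h3 ?_
  · rw [trdeg_ratioField_map, hx0]
  · rw [homIdeal_map]

end Pool.Agent.HC
end

/- Helper16.DP.HC.HV2 -/
section
set_option autoImplicit false
set_option linter.style.haveILetI false
set_option linter.unusedSectionVars false

/-! Project HC, part H: specialisation of the flag parametrisation. -/

namespace Pool.Agent.HC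

open Pool.Agent.Helper16 IntermediateField

variable {k : Type} [Field k] {l : ℕ} {κ : Type} [Fintype κ]

/-- The residue map as an algebra homomorphism. -/
noncomputable def resH {N : Type} [Field N] [Algebra k N] (v : Place k N) :
    v.ring →ₐ[k] v.resField :=
  IsScalarTower.toAlgHom k v.ring v.resField

theorem resH_apply {N : Type} [Field N] [Algebra k N] (v : Place k N) {a : N} (ha : a ∈ v.ring) :
    resH v ⟨a, ha⟩ = v.res a := by
  rw [v.res_of_mem ha]
  rfl

theorem psi_congr (q : ℕ) (a : Fin l) {R : Type} [CommRing R] {X X' v v' : Fin l → R}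
    {Z Z' : κ → R} (hX : ∀ i, a < i → X i = X' i) (hv : ∀ i, v i = v' i) (hZ : ∀ j, Z j = Z' j) :
    psi q a X v Z = psi q a X' v' Z' := by
  have h1 : v = v' := funext hv
  have h2 : Z = Z' := funext hZ
  subst h1 h2
  funext j
  rcases j with i | i | i
  · rcases lt_trichotomy i a with hi | rfl | hi
    · rw [psi_X_lt _ _ _ _ _ hi, psi_X_lt _ _ _ _ _ hi]
    · rw [psi_X_self, psi_X_self]
    · rw [psi_X_gt _ _ _ _ _ hi, psi_X_gt _ _ _ _ _ hi, hX i hi]
  · rcases lt_trichotomy i a with hi | rfl | hi
    · rw [psi_Y_lt _ _ _ _ _ hi, psi_Y_lt _ _ _ _ _ hi]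
    · rw [psi_Y_self, psi_Y_self]
      congr 1
      exact Finset.sum_congr rfl fun j hj => by rw [hX j (Finset.mem_Ioi.1 hj)]
    · rw [psi_Y_gt _ _ _ _ _ hi, psi_Y_gt _ _ _ _ _ hi]
  · rw [psi_Z, psi_Z]

theorem me_congr (q : ℕ) (g : k) (a : Fin l) {R : Type} [CommRing R] [Algebra k R]
    {X X' v v' : Fin l → R} {Z Z' : κ → R} (hX : ∀ i, a < i → X i = X' i) (hv : ∀ i, v i = v' i)
    (hZ : ∀ j, Z j = Z' j) : me q g a X v Z = me q g a X' v' Z' := by
  have h1 : v = v' := funext hv
  have h2 : Z = Z' := funext hZ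
  subst h1 h2
  unfold me
  rw [Finset.sum_congr rfl fun j hj => by rw [hX j (Finset.mem_Ioi.1 hj)]]

section place

variable {N : Type} [Field N] [Algebra k N]

/-- Residues of the parametrised points. -/
theorem psi_res (q : ℕ) (a : Fin l) (w : Place k N) {X V : Fin l → N} {Z : κ → N}
    (hX : ∀ i, a < i → X i ∈ w.ring) (hV : ∀ i, V i ∈ w.ring) (hZ : ∀ j, Z j ∈ w.ring)
    (j : Fin l ⊕ Fin l ⊕ κ) :
    psi q a X V Z j ∈ w.ring ∧ w.res (psi q a X V Z j) =
      psi q a (fun i => w.res (X i)) (fun i => w.res (V i)) (fun i => w.res (Z i)) j := by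
  classical
  let X' : Fin l → N := fun i => if a < i then X i else 0
  have hX' : ∀ i, X' i ∈ w.ring := by
    intro i
    by_cases hi : a < i
    · simp only [X', if_pos hi]; exact hX i hi
    · simp only [X', if_neg hi]; exact zero_mem _
  have e1 : psi q a X V Z = psi q a X' V Z :=
    psi_congr q a (fun i hi => by simp only [X', if_pos hi]) (fun _ => rfl) (fun _ => rfl)
  have e2 : psi q a (fun i => w.res (X i)) (fun i => w.res (V i)) (fun i => w.res (Z i)) =
      psi q a (fun i => w.res (X' i)) (fun i => w.res (V i)) (fun i => w.res (Z i)) :=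
    psi_congr q a (fun i hi => by simp only [X', if_pos hi]) (fun _ => rfl) (fun _ => rfl)
  rw [e1, e2]
  let P : Fin l ⊕ Fin l ⊕ κ → w.ring := psi q a (fun i => ⟨X' i, hX' i⟩) (fun i => ⟨V i, hV i⟩)
    (fun i => ⟨Z i, hZ i⟩)
  have h1 : ((P j : w.ring) : N) = psi q a X' V Z j :=
    psi_map q a (Subalgebra.val w.ring : w.ring →+* N) _ _ _ j
  have h2 : psi q a X' V Z j ∈ w.ring := by
    rw [← h1]
    exact Subtype.prop _
  refine ⟨h2, ?_⟩
  have h3 := psi_map q a (resH w : w.ring →+* w.resField) (fun i => ⟨X' i, hX' i⟩)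
    (fun i => ⟨V i, hV i⟩) (fun i => ⟨Z i, hZ i⟩) j
  simp only [RingHom.coe_coe] at h3
  have e3 : (fun i => (resH w) ⟨X' i, hX' i⟩) = fun i => w.res (X' i) :=
    funext fun i => resH_apply w (hX' i)
  have e4 : (fun i => (resH w) ⟨V i, hV i⟩) = fun i => w.res (V i) :=
    funext fun i => resH_apply w (hV i)
  have e5 : (fun i => (resH w) ⟨Z i, hZ i⟩) = fun i => w.res (Z i) :=
    funext fun i => resH_apply w (hZ i)
  rw [e3, e4, e5] at h3
  rw [← h3]
  have h4 : (⟨psi q a X' V Z j, h2⟩ : w.ring) = P j := Subtype.ext h1.symm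
  change w.res _ = resH w (P j)
  rw [← h4, resH_apply]

/-- Residues of the equation. -/
theorem me_res (q : ℕ) (g : k) (a : Fin l) (w : Place k N) {X V : Fin l → N} {Z : κ → N}
    (hX : ∀ i, a < i → X i ∈ w.ring) (hV : ∀ i, V i ∈ w.ring) (hZ : ∀ j, Z j ∈ w.ring) :
    me q g a X V Z ∈ w.ring ∧ w.res (me q g a X V Z) =
      me q g a (fun i => w.res (X i)) (fun i => w.res (V i)) (fun i => w.res (Z i)) := by
  classical
  let X' : Fin l → N := fun i => if a < i then X i else 0
  have hX' : ∀ i, X' i ∈ w.ring := by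
    intro i
    by_cases hi : a < i
    · simp only [X', if_pos hi]; exact hX i hi
    · simp only [X', if_neg hi]; exact zero_mem _
  have e1 : me q g a X V Z = me q g a X' V Z :=
    me_congr q g a (fun i hi => by simp only [X', if_pos hi]) (fun _ => rfl) (fun _ => rfl)
  have e2 : me q g a (fun i => w.res (X i)) (fun i => w.res (V i)) (fun i => w.res (Z i)) =
      me q g a (fun i => w.res (X' i)) (fun i => w.res (V i)) (fun i => w.res (Z i)) :=
    me_congr q g a (fun i hi => by simp only [X', if_pos hi]) (fun _ => rfl) (fun _ => rfl)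
  rw [e1, e2]
  let P : w.ring := me q g a (fun i => ⟨X' i, hX' i⟩) (fun i => ⟨V i, hV i⟩)
    (fun i => ⟨Z i, hZ i⟩)
  have h1 : ((P : w.ring) : N) = me q g a X' V Z :=
    me_map q g a (Subalgebra.val w.ring) (fun i => ⟨X' i, hX' i⟩) (fun i => ⟨V i, hV i⟩)
      (fun i => ⟨Z i, hZ i⟩)
  have h2 : me q g a X' V Z ∈ w.ring := by
    rw [← h1]
    exact Subtype.prop _
  refine ⟨h2, ?_⟩
  have h3 := me_map q g a (resH w) (fun i => ⟨X' i, hX' i⟩)
    (fun i => ⟨V i, hV i⟩) (fun i => ⟨Z i, hZ i⟩)
  have e3 : (fun i => (resH w) ⟨X' i, hX' i⟩) = fun i => w.res (X' i) :=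
    funext fun i => resH_apply w (hX' i)
  have e4 : (fun i => (resH w) ⟨V i, hV i⟩) = fun i => w.res (V i) :=
    funext fun i => resH_apply w (hV i)
  have e5 : (fun i => (resH w) ⟨Z i, hZ i⟩) = fun i => w.res (Z i) :=
    funext fun i => resH_apply w (hZ i)
  rw [e3, e4, e5] at h3
  rw [← h3]
  have h4 : (⟨me q g a X' V Z, h2⟩ : w.ring) = P := Subtype.ext h1.symm
  change w.res _ = resH w P
  rw [← h4, resH_apply]

theorem spec_psi_mk (q : ℕ) (a : Fin l) (w : Place k N) {X V : Fin l → N} {Z : κ → N}
    (hX : ∀ i, a < i → X i ∈ w.ring) (hV : ∀ i, V i ∈ w.ring) (hZ : ∀ j, Z j ∈ w.ring) :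
    SpecAt w (psi q a X V Z)
      (psi q a (fun i => w.res (X i)) (fun i => w.res (V i)) (fun i => w.res (Z i))) := by
  refine ⟨?_, 1, one_ne_zero, fun j => ?_⟩
  · intro h
    have := congrFun h (Sum.inl a)
    rw [psi_X_self] at this
    exact one_ne_zero this
  · rw [one_mul]
    obtain ⟨h1, h2⟩ := psi_res q a w hX hV hZ j
    exact ⟨h1, h2.symm⟩

/-- The coordinates with index less than `a` of a specialisation are zero. -/
theorem spec_psi_lt (q : ℕ) (a : Fin l) (w : Place k N) {X V : Fin l → N} {Z : κ → N}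
    {y : Fin l ⊕ Fin l ⊕ κ → w.resField} (h : SpecAt w (psi q a X V Z) y) {i : Fin l}
    (hi : i < a) : y (Sum.inl i) = 0 := by
  obtain ⟨h0, c, hc, h⟩ := h
  rw [(h _).2, psi_X_lt _ _ _ _ _ hi, mul_zero, w.res_zero]

/-- Specialisations with nonzero coordinate `X_a`. -/
theorem spec_psi {q : ℕ} (hq : 0 < q) (a : Fin l) (w : Place k N) {X V : Fin l → N} {Z : κ → N}
    {y : Fin l ⊕ Fin l ⊕ κ → w.resField} (h : SpecAt w (psi q a X V Z) y)
    (ha : y (Sum.inl a) ≠ 0) :
    (∀ i, a < i → X i ∈ w.ring) ∧ (∀ i, V i ∈ w.ring) ∧ (∀ j, Z j ∈ w.ring) ∧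
      y = fun j => y (Sum.inl a) * psi q a (fun i => w.res (X i)) (fun i => w.res (V i))
        (fun i => w.res (Z i)) j := by
  have hsp := h
  obtain ⟨h0, c, hc, h⟩ := h
  have hca := h (Sum.inl a)
  rw [psi_X_self, mul_one] at hca
  have hval : w.val c = 1 := by
    rw [← res_ne_zero_iff w hca.1, ← hca.2]
    exact ha
  have hmem : ∀ j, psi q a X V Z j ∈ w.ring := by
    intro j
    have h1 := (h j).1
    rw [w.mem_ring, map_mul, hval, one_mul] at h1
    exact h1
  have hX : ∀ i, a < i → X i ∈ w.ring := by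
    intro i hi
    have := hmem (Sum.inl i)
    rwa [psi_X_gt _ _ _ _ _ hi] at this
  have hV1 : ∀ i, a < i → V i ∈ w.ring := by
    intro i hi
    have := hmem (Sum.inr (Sum.inl i))
    rw [psi_Y_gt _ _ _ _ _ hi, w.mem_ring, map_pow] at this
    rw [w.mem_ring]
    by_contra hcon
    rw [not_le] at hcon
    exact absurd this (not_le.2 (one_lt_pow₀ hcon hq.ne'))
  have hV : ∀ i, V i ∈ w.ring := by
    intro i
    rcases lt_trichotomy i a with hi | rfl | hi
    · have := hmem (Sum.inr (Sum.inl i))
      rwa [psi_Y_lt _ _ _ _ _ hi] at this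
    · have := hmem (Sum.inr (Sum.inl i))
      rw [psi_Y_self] at this
      have h2 : ∑ j ∈ Finset.Ioi i, X j * V j ∈ w.ring :=
        sum_mem fun j hj => mul_mem (hX j (Finset.mem_Ioi.1 hj)) (hV1 j (Finset.mem_Ioi.1 hj))
      have h3 := sub_mem this h2
      rwa [add_sub_cancel_right] at h3
    · exact hV1 i hi
  have hZ : ∀ j, Z j ∈ w.ring := by
    intro j
    have := hmem (Sum.inr (Sum.inr j))
    rwa [psi_Z] at this
  refine ⟨hX, hV, hZ, ?_⟩
  funext j
  obtain ⟨h1, h2⟩ := psi_res q a w hX hV hZ j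
  rw [← h2, (h j).2, hca.2, w.res_mul hca.1 h1]

end place

/-- Existence of the parameters. -/
theorem exists_psi {q : ℕ} (hq : 0 < q) (a : Fin l) {Ω : Type} [Field Ω] [IsAlgClosed Ω]
    (x : Fin l ⊕ Fin l ⊕ κ → Ω) (h0 : ∀ i, i < a → x (Sum.inl i) = 0)
    (h1 : x (Sum.inl a) = 1) : ∃ (X V : Fin l → Ω) (Z : κ → Ω), x = psi q a X V Z := by
  classical
  choose r hr using fun i : Fin l => IsAlgClosed.exists_pow_nat_eq (x (Sum.inr (Sum.inl i))) hq
  refine ⟨fun i => x (Sum.inl i), fun i => if i < a then x (Sum.inr (Sum.inl i)) else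
    if i = a then x (Sum.inr (Sum.inl a)) - ∑ j ∈ Finset.Ioi a, x (Sum.inl j) * r j else r i,
    fun j => x (Sum.inr (Sum.inr j)), ?_⟩
  funext j
  rcases j with i | i | i
  · rcases lt_trichotomy i a with hi | rfl | hi
    · rw [psi_X_lt _ _ _ _ _ hi, h0 i hi]
    · rw [psi_X_self, h1]
    · rw [psi_X_gt _ _ _ _ _ hi]
  · rcases lt_trichotomy i a with hi | rfl | hi
    · rw [psi_Y_lt _ _ _ _ _ hi, if_pos hi]
    · rw [psi_Y_self, if_neg (lt_irrefl i), if_pos rfl]
      have : ∑ j ∈ Finset.Ioi i, x (Sum.inl j) * (if j < i then x (Sum.inr (Sum.inl j)) else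
          if j = i then x (Sum.inr (Sum.inl i)) - ∑ j ∈ Finset.Ioi i, x (Sum.inl j) * r j
            else r j) = ∑ j ∈ Finset.Ioi i, x (Sum.inl j) * r j := by
        refine Finset.sum_congr rfl fun j hj => ?_
        have hj' := Finset.mem_Ioi.1 hj
        rw [if_neg hj'.not_gt, if_neg hj'.ne']
      rw [this]
      ring
    · rw [psi_Y_gt _ _ _ _ _ hi, if_neg hi.not_gt, if_neg hi.ne', hr]
  · rw [psi_Z]

end Pool.Agent.HC
end

/- Helper16.DP.HC.HV4 -/
section
set_option autoImplicit false
set_option linter.style.haveILetI false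
set_option linter.unusedSectionVars false

/-! Project HC, part H: the strata of type I. -/

namespace Pool.Agent.HC

open Pool.Agent.Helper16 IntermediateField

variable {k : Type} [Field k] {l : ℕ} {κ : Type} [Fintype κ]

/-- The coordinates `X` of the point with parameters `c` in the stratum of type I. -/
def Xf (q : ℕ) (g : k) (a b : Fin l) {N : Type} [Field N] [Algebra k N]
    (c : Fin l ⊕ Fin l ⊕ κ → N) : Fin l → N :=
  fun i => if i = b then
    - me q g a (fun i => if i = b then 0 else c (Sum.inl i)) (fun i => c (Sum.inr (Sum.inl i)))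
      (fun j => c (Sum.inr (Sum.inr j))) /
        (c (Sum.inr (Sum.inl b)) ^ (q ^ 2) - c (Sum.inr (Sum.inl b)))
    else c (Sum.inl i)

theorem me_update (q : ℕ) (g : k) {a b : Fin l} (hab : a < b) {R : Type} [CommRing R] [Algebra k R]
    (X v : Fin l → R) (Z : κ → R) (t : R) :
    me q g a (fun i => if i = b then t else X i) v Z =
      me q g a (fun i => if i = b then 0 else X i) v Z + t * (v b ^ (q ^ 2) - v b) := by
  have hb : b ∈ Finset.Ioi a := Finset.mem_Ioi.2 hab
  unfold me
  rw [← Finset.add_sum_erase _ _ hb, ← Finset.add_sum_erase (Finset.Ioi a) (fun j =>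
    (if j = b then 0 else X j) * (v j ^ (q ^ 2) - v j)) hb]
  simp only [if_true, zero_mul, zero_add]
  have h1 : ∑ x ∈ (Finset.Ioi a).erase b, (if x = b then t else X x) * (v x ^ (q ^ 2) - v x) =
      ∑ x ∈ (Finset.Ioi a).erase b, (if x = b then 0 else X x) * (v x ^ (q ^ 2) - v x) := by
    refine Finset.sum_congr rfl fun x hx => ?_
    rw [if_neg (Finset.ne_of_mem_erase hx), if_neg (Finset.ne_of_mem_erase hx)]
  rw [h1]
  ring

theorem me_Xf (q : ℕ) (g : k) {a b : Fin l} (hab : a < b) {N : Type} [Field N] [Algebra k N]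
    (c : Fin l ⊕ Fin l ⊕ κ → N)
    (hb : c (Sum.inr (Sum.inl b)) ^ (q ^ 2) ≠ c (Sum.inr (Sum.inl b))) :
    me q g a (Xf q g a b c) (fun i => c (Sum.inr (Sum.inl i)))
      (fun j => c (Sum.inr (Sum.inr j))) = 0 := by
  unfold Xf
  rw [me_update q g hab]
  rw [div_mul_cancel₀ _ (sub_ne_zero.2 hb)]
  ring

theorem Xf_map (q : ℕ) (g : k) (a b : Fin l) {N N' : Type} [Field N] [Algebra k N] [Field N']
    [Algebra k N'] (φ : N →ₐ[k] N') (c : Fin l ⊕ Fin l ⊕ κ → N) (i : Fin l) :
    Xf q g a b (fun j => φ (c j)) i = φ (Xf q g a b c i) := by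
  unfold Xf
  split_ifs with h
  · rw [map_div₀, map_neg, me_map, map_sub, map_pow]
    congr 3
    funext i
    split_ifs <;> simp
  · rfl

/-- The domain of the parameters of the stratum of type I. -/
def U1 (q : ℕ) (a b : Fin l) (δ : Fin l → k) {N : Type} [Field N] [Algebra k N]
    (c : Fin l ⊕ Fin l ⊕ κ → N) : Prop :=
  (∀ i, i ≤ a ∨ i = b → c (Sum.inl i) = 0) ∧
    (∀ i, a < i → i < b → c (Sum.inr (Sum.inl i)) = algebraMap k N (δ i)) ∧
    c (Sum.inr (Sum.inl b)) ^ (q ^ 2) ≠ c (Sum.inr (Sum.inl b))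

/-- The points which lie in smaller strata. -/
def Bad1 (q : ℕ) (g : k) (a b : Fin l) (δ : Fin l → k)
    (Q : Ideal (MvPolynomial (Fin l ⊕ Fin l ⊕ κ) k)) : Prop :=
  ∃ (N : Type) (_ : Field N) (_ : Algebra k N) (y : Fin l ⊕ Fin l ⊕ κ → N),
    IsPt {hform l κ q g} y ∧ homIdeal k y = Q ∧
      ((∀ i, i ≤ a → y (Sum.inl i) = 0) ∨
        ∃ (X V : Fin l → N) (Z : κ → N), y = psi q a X V Z ∧
          (∀ i, a < i → i < b → V i = algebraMap k N (δ i)) ∧ V b ^ (q ^ 2) = V b)

theorem isAlgebraic_psi {q : ℕ} (hq : 0 < q) (a : Fin l) {N : Type} [Field N] [Algebra k N]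
    (X V : Fin l → N) (Z : κ → N) :
    (∀ i, a < i → X i ∈ ratioField k (psi q a X V Z)) ∧
    (∀ i, IsAlgebraic (ratioField k (psi q a X V Z)) (V i)) ∧
    (∀ j, Z j ∈ ratioField k (psi q a X V Z)) := by
  have h0 : ∀ j, psi q a X V Z j ∈ ratioField k (psi q a X V Z) := by
    intro j
    have := div_mem_ratioField (K := k) (psi q a X V Z) j (Sum.inl a)
    rwa [psi_X_self, div_one] at this
  have halg : ∀ b : N, b ∈ ratioField k (psi q a X V Z) →
      IsAlgebraic (ratioField k (psi q a X V Z)) b := fun b hb =>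
    isAlgebraic_algebraMap (⟨b, hb⟩ : ratioField k (psi q a X V Z))
  have hX : ∀ i, a < i → X i ∈ ratioField k (psi q a X V Z) := by
    intro i hi
    have := h0 (Sum.inl i)
    rwa [psi_X_gt _ _ _ _ _ hi] at this
  have hV1 : ∀ i, a < i → IsAlgebraic (ratioField k (psi q a X V Z)) (V i) := by
    intro i hi
    have := h0 (Sum.inr (Sum.inl i))
    rw [psi_Y_gt _ _ _ _ _ hi] at this
    exact (halg _ this).of_pow hq
  refine ⟨hX, fun i => ?_, fun j => ?_⟩
  · rcases lt_trichotomy i a with hi | rfl | hi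
    · have := h0 (Sum.inr (Sum.inl i))
      rw [psi_Y_lt _ _ _ _ _ hi] at this
      exact halg _ this
    · have h1 := h0 (Sum.inr (Sum.inl i))
      rw [psi_Y_self] at h1
      have h2 : ∀ s : Finset (Fin l), s ⊆ Finset.Ioi i →
          IsAlgebraic (ratioField k (psi q i X V Z)) (∑ j ∈ s, X j * V j) := by
        classical
        intro s
        induction s using Finset.induction_on with
        | empty => intro _; rw [Finset.sum_empty]; exact isAlgebraic_zero
        | insert j s hj ih =>
          intro hs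
          rw [Finset.sum_insert hj]
          have hj' : i < j := Finset.mem_Ioi.1 (hs (Finset.mem_insert_self j s))
          exact ((halg _ (hX j hj')).mul (hV1 j hj')).add
            (ih fun x hx => hs (Finset.mem_insert_of_mem hx))
      have h3 := (halg _ h1).sub (h2 _ (Finset.Subset.refl _))
      rwa [add_sub_cancel_right] at h3
    · exact hV1 i hi
  · have := h0 (Sum.inr (Sum.inr j))
    rwa [psi_Z] at this

theorem isPt_psi {p f : ℕ} [hp : Fact p.Prime] (g : k) (a : Fin l) {N : Type} [Field N]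
    [Algebra k N] [CharP N p] {X V : Fin l → N} {Z : κ → N} (h : me (p ^ f) g a X V Z = 0) :
    IsPt {hform l κ (p ^ f) g} (psi (p ^ f) a X V Z) := by
  refine ⟨?_, ?_⟩
  · intro h
    have := congrFun h (Sum.inl a)
    rw [psi_X_self] at this
    exact one_ne_zero this
  · rintro P rfl
    rw [aeval_hform, hval_psi, h]

theorem charP_ext (p : ℕ) [CharP k p] (N : Type) [Field N] [Algebra k N] : CharP N p :=
  charP_of_injective_algebraMap (algebraMap k N).injective p

/-- The stratum of type I as a parametrised family. -/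
noncomputable def P1 (p f : ℕ) [hp : Fact p.Prime] [CharP k p] (g : k) (a b : Fin l) (hab : a < b)
    (δ : Fin l → k) : Param k {hform l κ (p ^ f) g} (Fin l ⊕ Fin l ⊕ κ) where
  U := fun c => U1 (p ^ f) a b δ c
  Φ := fun c => psi (p ^ f) a (Xf (p ^ f) g a b c) (fun i => c (Sum.inr (Sum.inl i)))
    (fun j => c (Sum.inr (Sum.inr j)))
  D := {x | (∃ i, x = Sum.inl i ∧ a < i ∧ i ≠ b) ∨
    (∃ i, x = Sum.inr (Sum.inl i) ∧ (i ≤ a ∨ b ≤ i)) ∨ ∃ j, x = Sum.inr (Sum.inr j)}
  Bad := Bad1 (p ^ f) g a b δ
  pt := by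
    intro N _ _ c hc
    haveI := charP_ext (k := k) p N
    exact isPt_psi g a (me_Xf (p ^ f) g hab c hc.2.2)
  natU := by
    intro N N' _ _ _ _ φ c
    unfold U1
    refine and_congr ?_ (and_congr ?_ ?_)
    · refine forall_congr' fun i => imp_congr_right fun _ => ?_
      rw [map_eq_zero]
    · refine forall_congr' fun i => imp_congr_right fun _ => imp_congr_right fun _ => ?_
      rw [← φ.commutes]
      exact (show Function.Injective φ from φ.toRingHom.injective).eq_iff
    · rw [← map_pow]
      exact (show Function.Injective φ from φ.toRingHom.injective).ne_iff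
  natΦ := by
    intro N N' _ _ _ _ φ c _
    funext j
    have h1 := psi_map (p ^ f) a (φ : N →+* N') (Xf (p ^ f) g a b c)
      (fun i => c (Sum.inr (Sum.inl i))) (fun j => c (Sum.inr (Sum.inr j))) j
    simp only [RingHom.coe_coe] at h1
    rw [h1]
    congr 1
    funext i
    exact Xf_map _ _ _ _ φ c i
  alg := by
    intro N _ _ c hc j
    obtain ⟨h1, h2, h3⟩ := isAlgebraic_psi (k := k) (pow_pos hp.out.pos f) a (Xf (p ^ f) g a b c)
      (fun i => c (Sum.inr (Sum.inl i))) (fun j => c (Sum.inr (Sum.inr j)))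
    rcases j with i | i | i
    · by_cases hi : i ≤ a ∨ i = b
      · rw [hc.1 i hi]
        exact isAlgebraic_zero
      · push Not at hi
        have h4 := h1 i hi.1
        have h5 : Xf (p ^ f) g a b c i = c (Sum.inl i) := by
          unfold Xf
          rw [if_neg hi.2]
        rw [h5] at h4
        exact isAlgebraic_algebraMap (⟨_, h4⟩ : ratioField k (psi (p ^ f) a (Xf (p ^ f) g a b c)
          (fun i => c (Sum.inr (Sum.inl i))) (fun j => c (Sum.inr (Sum.inr j)))))
    · exact h2 i
    · exact isAlgebraic_algebraMap (⟨_, h3 i⟩ : ratioField k (psi (p ^ f) a (Xf (p ^ f) g a b c)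
          (fun i => c (Sum.inr (Sum.inl i))) (fun j => c (Sum.inr (Sum.inr j)))))
  gen := by
    intro N _ _ c c' x hx hc hcc ht
    have hne : ∀ i, i ≤ a ∨ i = b → (Sum.inl i : Fin l ⊕ Fin l ⊕ κ) ≠ x := by
      rintro i hi rfl
      rcases hx with ⟨i', h1, h2, h3⟩ | ⟨i', h1, -⟩ | ⟨i', h1⟩
      · cases h1
        rcases hi with hi | hi
        · exact absurd h2 (not_lt.2 hi)
        · exact h3 hi
      · cases h1
      · cases h1
    have hne2 : ∀ i, a < i → i < b → (Sum.inr (Sum.inl i) : Fin l ⊕ Fin l ⊕ κ) ≠ x := by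
      rintro i hi hi' rfl
      rcases hx with ⟨i', h1, -⟩ | ⟨i', h1, h2⟩ | ⟨i', h1⟩
      · cases h1
      · cases h1
        rcases h2 with h2 | h2
        · exact absurd hi (not_lt.2 h2)
        · exact absurd hi' (not_lt.2 h2)
      · cases h1
    refine ⟨fun i hi => ?_, fun i hi hi' => ?_, ?_⟩
    · rw [hcc _ (hne i hi)]
      exact hc.1 i hi
    · rw [hcc _ (hne2 i hi hi')]
      exact hc.2.1 i hi hi'
    · by_cases hxb : Sum.inr (Sum.inl b) = x
      · intro h
        rw [hxb] at h
        apply ht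
        have hq1 : 1 < (p ^ f) ^ 2 ∨ (p ^ f) ^ 2 = 1 := by
          have : 0 < (p ^ f) ^ 2 := pow_pos (pow_pos hp.out.pos f) 2
          omega
        rcases hq1 with hq1 | hq1
        · refine ⟨Polynomial.X ^ ((p ^ f) ^ 2) - Polynomial.X, ?_, ?_⟩
          · exact FiniteField.X_pow_card_sub_X_ne_zero _ hq1
          · rw [map_sub, map_pow, Polynomial.aeval_X, h, sub_self]
        · exfalso
          apply hc.2.2
          rw [hq1, pow_one]
      · rw [hcc _ hxb]
        exact hc.2.2
  good := by
    intro N _ _ v c hc hci hcr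
    have hXi : ∀ i, (if i = b then 0 else c (Sum.inl i)) ∈ v.ring := by
      intro i
      split_ifs
      · exact zero_mem _
      · exact hci _
    have hme := me_res (p ^ f) g a v (X := fun i => if i = b then 0 else c (Sum.inl i))
      (V := fun i => c (Sum.inr (Sum.inl i))) (Z := fun j => c (Sum.inr (Sum.inr j)))
      (fun i _ => hXi i) (fun i => hci _) (fun i => hci _)
    have hden : c (Sum.inr (Sum.inl b)) ^ ((p ^ f) ^ 2) - c (Sum.inr (Sum.inl b)) ∈ v.ring ∧
        v.res (c (Sum.inr (Sum.inl b)) ^ ((p ^ f) ^ 2) - c (Sum.inr (Sum.inl b))) =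
        v.res (c (Sum.inr (Sum.inl b))) ^ ((p ^ f) ^ 2) - v.res (c (Sum.inr (Sum.inl b))) := by
      refine ⟨sub_mem (pow_mem (hci _) _) (hci _), ?_⟩
      rw [v.res_sub (pow_mem (hci _) _) (hci _), v.res_pow (hci _)]
    have hval : v.val (c (Sum.inr (Sum.inl b)) ^ ((p ^ f) ^ 2) - c (Sum.inr (Sum.inl b))) = 1 := by
      rw [← res_ne_zero_iff v hden.1, hden.2, sub_ne_zero]
      exact hcr.2.2
    have hXf : ∀ i, Xf (p ^ f) g a b c i ∈ v.ring ∧ v.res (Xf (p ^ f) g a b c i) =
        Xf (p ^ f) g a b (fun j => v.res (c j)) i := by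
      intro i
      unfold Xf
      split_ifs with h
      · obtain ⟨h1, h2⟩ := res_div v (neg_mem hme.1) hval
        refine ⟨h1, ?_⟩
        rw [h2, v.res_neg hme.1, hme.2, hden.2]
        congr 3
        funext i
        split_ifs
        · exact v.res_zero
        · rfl
      · exact ⟨hci _, rfl⟩
    have h1 := spec_psi_mk (k := k) (κ := κ) (p ^ f) a v (X := Xf (p ^ f) g a b c)
      (V := fun i => c (Sum.inr (Sum.inl i))) (Z := fun j => c (Sum.inr (Sum.inr j)))
      (fun i _ => (hXf i).1) (fun i => hci _) (fun i => hci _)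
    have h2 : (fun i => v.res (Xf (p ^ f) g a b c i)) =
        Xf (p ^ f) g a b (fun j => v.res (c j)) := funext fun i => (hXf i).2
    rw [h2] at h1
    exact h1
  bad := by
    intro N _ _ v c y hc hsp hnot
    haveI := charP_ext (k := k) p N
    have hpt : IsPt {hform l κ (p ^ f) g} (psi (p ^ f) a (Xf (p ^ f) g a b c)
        (fun i => c (Sum.inr (Sum.inl i))) (fun j => c (Sum.inr (Sum.inr j)))) :=
      isPt_psi g a (me_Xf (p ^ f) g hab c hc.2.2)
    have hpty : IsPt {hform l κ (p ^ f) g} y :=
      hsp.isPt (by rintro P rfl; exact ⟨_, hform_homogeneous _ _⟩) hpt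
    by_cases hya : y (Sum.inl a) = 0
    · refine ⟨v.resField, inferInstance, inferInstance, y, hpty, rfl, Or.inl fun i hi => ?_⟩
      rcases hi.lt_or_eq with hi | rfl
      · exact spec_psi_lt (p ^ f) a v hsp hi
      · exact hya
    · obtain ⟨h1, h2, h3, h4⟩ := spec_psi (pow_pos hp.out.pos f) a v hsp hya
      have hci : ∀ j, c j ∈ v.ring := by
        rintro (i | i | i)
        · by_cases hi : i ≤ a ∨ i = b
          · rw [hc.1 i hi]
            exact zero_mem _
          · push Not at hi
            have h5 := h1 i hi.1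
            unfold Xf at h5
            rwa [if_neg hi.2] at h5
        · exact h2 i
        · exact h3 i
      have hV : ∀ i, a < i → i < b → v.res (c (Sum.inr (Sum.inl i))) =
          algebraMap k v.resField (δ i) := by
        intro i hi hi'
        rw [hc.2.1 i hi hi', v.res_algebraMap]
      have hvb : v.res (c (Sum.inr (Sum.inl b))) ^ ((p ^ f) ^ 2) =
          v.res (c (Sum.inr (Sum.inl b))) := by
        by_contra hcon
        apply hnot
        refine ⟨hci, fun i hi => ?_, hV, hcon⟩
        change v.res (c (Sum.inl i)) = 0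
        rw [hc.1 i hi, v.res_zero]
      let y' : Fin l ⊕ Fin l ⊕ κ → v.resField := psi (p ^ f) a
        (fun i => v.res (Xf (p ^ f) g a b c i)) (fun i => v.res (c (Sum.inr (Sum.inl i))))
        (fun i => v.res (c (Sum.inr (Sum.inr i))))
      have hy' : homIdeal k y' = homIdeal k y := by
        rw [h4]
        exact (homIdeal_scale y' hya).symm
      have hsp' : SpecAt v (psi (p ^ f) a (Xf (p ^ f) g a b c)
        (fun i => c (Sum.inr (Sum.inl i))) (fun j => c (Sum.inr (Sum.inr j)))) y' :=
        spec_psi_mk (p ^ f) a v h1 h2 h3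
      refine ⟨v.resField, inferInstance, inferInstance, y',
        hsp'.isPt (by rintro P rfl; exact ⟨_, hform_homogeneous _ _⟩) hpt, hy',
        Or.inr ⟨_, _, _, rfl, hV, hvb⟩⟩

end Pool.Agent.HC
end

/- Helper16.DP.HC.HV6 -/
section
set_option autoImplicit false
set_option linter.style.haveILetI false
set_option linter.unusedSectionVars false

/-! Project HC, part H: the relation which kills the strata of type I. -/

namespace Pool.Agent.HC

open Pool.Agent.Helper16 IntermediateField

variable {k : Type} [Field k] {l : ℕ} {κ : Type} [Fintype κ]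

/-- The constants of a stratum. -/
def e1 (κ : Type) (δ : Fin l → k) : Fin l ⊕ Fin l ⊕ κ → k :=
  Sum.elim (fun _ => 0) (Sum.elim δ fun _ => 0)

theorem Xf_of_me {q : ℕ} {g : k} {a b : Fin l} (hab : a < b) {N : Type} [Field N] [Algebra k N]
    {X V : Fin l → N} {Z : κ → N} (hme : me q g a X V Z = 0) (hb : V b ^ (q ^ 2) ≠ V b)
    (c : Fin l ⊕ Fin l ⊕ κ → N) (hcX : ∀ i, a < i → i ≠ b → c (Sum.inl i) = X i)
    (hcV : ∀ i, c (Sum.inr (Sum.inl i)) = V i) (hcZ : ∀ j, c (Sum.inr (Sum.inr j)) = Z j) (i : Fin l)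
    (hi : a < i) : Xf q g a b c i = X i := by
  unfold Xf
  by_cases hib : i = b
  · subst hib
    rw [if_pos rfl]
    have h1 : me q g a (fun j => if j = i then 0 else c (Sum.inl j))
        (fun j => c (Sum.inr (Sum.inl j))) (fun j => c (Sum.inr (Sum.inr j))) =
        me q g a (fun j => if j = i then 0 else X j) V Z := by
      refine me_congr q g a (fun j hj => ?_) hcV hcZ
      by_cases hji : j = i
      · rw [if_pos hji, if_pos hji]
      · rw [if_neg hji, if_neg hji, hcX j hj hji]
    have h2 := me_update q g hab X V Z (X i)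
    have h3 : (fun j => if j = i then X i else X j) = X := by
      funext j
      split_ifs with h
      · rw [h]
      · rfl
    rw [h3, hme] at h2
    rw [h1, hcV, div_eq_iff (sub_ne_zero.2 hb)]
    linear_combination h2
  · rw [if_neg hib, hcX i hi hib]

/-- Points of the stratum of type I. -/
theorem exists_strat1 {p f : ℕ} [hp : Fact p.Prime] [CharP k p] {g : k} {a b : Fin l}
    (hab : a < b) (δ : Fin l → k) {N : Type} [Field N] [Algebra k N]
    {X V : Fin l → N} {Z : κ → N} (hme : me (p ^ f) g a X V Z = 0)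
    (hδ : ∀ i, a < i → i < b → V i = algebraMap k N (δ i))
    (hb : V b ^ ((p ^ f) ^ 2) ≠ V b) :
    ∃ c : Fin l ⊕ Fin l ⊕ κ → N, (P1 p f g a b hab δ).U c ∧
      (P1 p f g a b hab δ).Φ c = psi (p ^ f) a X V Z ∧
      ∀ i, i ∉ (P1 (κ := κ) p f g a b hab δ).D → c i = algebraMap k N (e1 κ δ i) := by
  classical
  let c : Fin l ⊕ Fin l ⊕ κ → N := Sum.elim (fun i => if i ≤ a ∨ i = b then 0 else X i)
    (Sum.elim V Z)
  have hcX : ∀ i, a < i → i ≠ b → c (Sum.inl i) = X i := by
    intro i hi hib
    simp only [c, Sum.elim_inl]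
    rw [if_neg]
    push Not
    exact ⟨hi, hib⟩
  refine ⟨c, ⟨fun i hi => ?_, fun i hi hi' => hδ i hi hi', hb⟩, ?_, ?_⟩
  · simp only [c, Sum.elim_inl, if_pos hi]
  · change psi (p ^ f) a (Xf (p ^ f) g a b c) (fun i => c (Sum.inr (Sum.inl i)))
      (fun j => c (Sum.inr (Sum.inr j))) = _
    exact psi_congr _ _ (fun i hi => Xf_of_me hab hme hb c hcX (fun _ => rfl) (fun _ => rfl) i hi)
      (fun _ => rfl) (fun _ => rfl)
  · rintro (i | i | j) hi
    · have h1 : i ≤ a ∨ i = b := by
        by_contra hcon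
        push Not at hcon
        exact hi (Or.inl ⟨i, rfl, hcon.1, hcon.2⟩)
      simp only [c, Sum.elim_inl, if_pos h1, e1, map_zero]
    · have h1 : a < i ∧ i < b := by
        by_contra hcon
        apply hi
        refine Or.inr (Or.inl ⟨i, rfl, ?_⟩)
        by_contra hcon2
        push Not at hcon2
        exact hcon hcon2
      exact hδ i h1.1 h1.2
    · exact absurd (Or.inr (Or.inr ⟨j, rfl⟩)) hi

/-- All points of dimension `s` with `X_i = 0` for `i ≤ a` are in `V`. -/
def WW (q : ℕ) (g : k) (κ : Type) [Fintype κ] (s : ℕ) (a : Fin l)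
    (V : Submodule ℚ (Ideal (MvPolynomial (Fin l ⊕ Fin l ⊕ κ) k) →₀ ℚ)) : Prop :=
  ∀ (N : Type) (_ : Field N) (_ : Algebra k N) (y : Fin l ⊕ Fin l ⊕ κ → N),
    IsPt {hform l κ q g} y → Algebra.trdeg k (ratioField k y) = s →
    (∀ i, i ≤ a → y (Sum.inl i) = 0) → Finsupp.single (homIdeal k y) 1 ∈ V

/-- All points of dimension `s` with `X_a = 1` and `V_i` in the finite field for the
`i` between `a` and `b` (inclusive) are in `V`. -/
def CC (q : ℕ) (g : k) (κ : Type) [Fintype κ] (s : ℕ) (a : Fin l) (B : ℕ)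
    (V : Submodule ℚ (Ideal (MvPolynomial (Fin l ⊕ Fin l ⊕ κ) k) →₀ ℚ)) : Prop :=
  ∀ (N : Type) (_ : Field N) (_ : Algebra k N) (X v : Fin l → N) (Z : κ → N),
    me q g a X v Z = 0 → Algebra.trdeg k (ratioField k (psi q a X v Z)) = s →
    (∀ i, a < i → i.val < B → v i ^ (q ^ 2) = v i) →
    Finsupp.single (homIdeal k (psi q a X v Z)) 1 ∈ V

theorem relI {p f : ℕ} [hp : Fact p.Prime] [CharP k p] {g : k} {a b b' : Fin l}
    (hab : a < b) (hab' : a < b') (hb' : b'.val + 1 = b.val) (δ : Fin l → k)
    (hδ : ∀ i, δ i ^ ((p ^ f) ^ 2) = δ i) {s : ℕ}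
    (V : Submodule ℚ (Ideal (MvPolynomial (Fin l ⊕ Fin l ⊕ κ) k) →₀ ℚ))
    (hV : rat {hform l κ (p ^ f) g} s ≤ V) (hW : WW (p ^ f) g κ s a V)
    (hC : CC (p ^ f) g κ s a (b.val + 1) V) {M : Type} [Field M] [Algebra k M]
    [Algebra.EssFiniteType k M] (hM : Algebra.trdeg k M = s) (c : Fin l ⊕ Fin l ⊕ κ → M)
    (hU : (P1 p f g a b hab δ).U c)
    (hs : tdeg k (Set.range c) = s) (hs' : (P1 (κ := κ) p f g a b hab δ).D.ncard = s) :
    Finsupp.single (homIdeal k ((P1 p f g a b hab δ).Φ c)) 1 ∈ V := by
  classical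
  haveI : CharP M p := charP_ext (k := k) p M
  haveI : CharP (RatFunc M) p := charP_ext (k := k) p (RatFunc M)
  have hbb : b' ≠ b := by
    intro h
    rw [h] at hb'
    omega
  let N := RatFunc M
  let T : N := RatFunc.X
  let X0 : Fin l → M := Xf (p ^ f) g a b c
  let V0 : Fin l → M := fun i => c (Sum.inr (Sum.inl i))
  let Z0 : κ → M := fun j => c (Sum.inr (Sum.inr j))
  have hme0 : me (p ^ f) g a X0 V0 Z0 = 0 := me_Xf (p ^ f) g hab c hU.2.2
  have hVb' : V0 b' = algebraMap k M (δ b') := hU.2.1 b' hab' (by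
    rw [Fin.lt_def]; omega)
  let E : N := algebraMap M N (X0 b') * (T ^ ((p ^ f) ^ 2) - T)
  let den : M := V0 b ^ ((p ^ f) ^ 2) - V0 b
  have hden : den ≠ 0 := sub_ne_zero.2 hU.2.2
  let X1 : Fin l → N := fun i => if i = b then algebraMap M N (X0 b) - E / algebraMap M N den
    else algebraMap M N (X0 i)
  let V1 : Fin l → N := fun i => if i = b' then algebraMap M N (V0 b') + T
    else algebraMap M N (V0 i)
  let Z1 : κ → N := fun j => algebraMap M N (Z0 j)
  have hme1 : me (p ^ f) g a X1 V1 Z1 = 0 := by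
    have h0 := congrArg (algebraMap M N) hme0
    rw [map_zero] at h0
    have h1 := me_map (p ^ f) g a (IsScalarTower.toAlgHom k M N) X0 V0 Z0
    have h2 : IsScalarTower.toAlgHom k M N (me (p ^ f) g a X0 V0 Z0) = 0 := h0
    rw [h2] at h1
    rw [h1]
    unfold me
    have hVa : V1 a = algebraMap M N (V0 a) := by
      simp only [V1]
      rw [if_neg hab'.ne]
    have hden' : algebraMap M N den ≠ 0 := by
      rwa [Ne, map_eq_zero]
    have hterm : ∀ j, X1 j * (V1 j ^ ((p ^ f) ^ 2) - V1 j) =
        IsScalarTower.toAlgHom k M N (X0 j) * (IsScalarTower.toAlgHom k M N (V0 j) ^ ((p ^ f) ^ 2) -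
          IsScalarTower.toAlgHom k M N (V0 j)) + (if j = b then -E else 0) +
          (if j = b' then E else 0) := by
      intro j
      change _ = algebraMap M N (X0 j) * (algebraMap M N (V0 j) ^ ((p ^ f) ^ 2) -
          algebraMap M N (V0 j)) + (if j = b then -E else 0) + (if j = b' then E else 0)
      by_cases hjb : j = b
      · subst hjb
        simp only [X1, V1, if_true, if_neg hbb.symm]
        have h3 : algebraMap M N (V0 j) ^ ((p ^ f) ^ 2) - algebraMap M N (V0 j) =
            algebraMap M N den := by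
          simp only [den, map_sub, map_pow]
        rw [h3, sub_mul, div_mul_cancel₀ _ hden']
        ring
      · by_cases hjb' : j = b'
        · subst hjb'
          simp only [X1, V1, if_true, if_neg hjb]
          have h4 : (algebraMap M N (V0 j)) ^ ((p ^ f) ^ 2) = algebraMap M N (V0 j) := by
            rw [← map_pow, hVb', ← map_pow, hδ]
          have h5 : (algebraMap M N (V0 j) + T) ^ ((p ^ f) ^ 2) =
              (algebraMap M N (V0 j)) ^ ((p ^ f) ^ 2) + T ^ ((p ^ f) ^ 2) := by
            rw [← pow_mul, add_pow_char_pow]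
          rw [h5, h4]
          simp only [E]
          ring
        · simp only [X1, V1, if_neg hjb, if_neg hjb']
          ring
    rw [Finset.sum_congr rfl fun j _ => hterm j, Finset.sum_add_distrib, Finset.sum_add_distrib,
      Finset.sum_ite_eq', Finset.sum_ite_eq', if_pos (Finset.mem_Ioi.2 hab),
      if_pos (Finset.mem_Ioi.2 hab'), hVa]
    have hZ : Z1 = fun j => IsScalarTower.toAlgHom k M N (Z0 j) := rfl
    rw [hZ]
    change _ = algebraMap M N (V0 a) ^ (p ^ f) - algebraMap M N (V0 a) + _ + _
    ring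
  have hΦ : (P1 p f g a b hab δ).Φ c = psi (p ^ f) a X0 V0 Z0 := rfl
  have hx0tr : Algebra.trdeg k (ratioField k ((P1 p f g a b hab δ).Φ c)) = s := by
    rw [Param.tdeg_ratioField hU, hs]
  have he : ∀ i, i ∉ (P1 (κ := κ) p f g a b hab δ).D → c i = algebraMap k M (e1 κ δ i) := by
    rintro (i | i | j) hi
    · have h1 : i ≤ a ∨ i = b := by
        by_contra hcon
        push Not at hcon
        exact hi (Or.inl ⟨i, rfl, hcon.1, hcon.2⟩)
      rw [hU.1 i h1]
      simp only [e1, Sum.elim_inl, map_zero]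
    · have h1 : a < i ∧ i < b := by
        by_contra hcon
        apply hi
        refine Or.inr (Or.inl ⟨i, rfl, ?_⟩)
        by_contra hcon2
        push Not at hcon2
        exact hcon hcon2
      exact hU.2.1 i h1.1 h1.2
    · exact absurd (Or.inr (Or.inr ⟨j, rfl⟩)) hi
  have hfund : homIdeal k ((P1 p f g a b hab δ).Φ c) = (P1 p f g a b hab δ).fund (e1 κ δ) :=
    Param.fund_eq hU he (by rw [hs, hs'])
  refine mem_of_T hM (x := psi (p ^ f) a X1 V1 Z1) (isPt_psi g a hme1) V hV _ hx0tr ?_ ?_
  · intro w φ hTm hT0 hφ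
    have hE : E ∈ w.ring ∧ w.res E = 0 := by
      have h1 : T ^ ((p ^ f) ^ 2) - T ∈ w.ring := sub_mem (pow_mem hTm _) hTm
      refine ⟨mul_mem (hφ _).1 h1, ?_⟩
      rw [w.res_mul (hφ _).1 h1, w.res_sub (pow_mem hTm _) hTm, w.res_pow hTm, hT0,
        zero_pow (pow_pos (pow_pos hp.out.pos f) 2).ne', sub_zero, mul_zero]
    have hdv : w.val (algebraMap M N den) = 1 := by
      rw [← res_ne_zero_iff w (hφ den).1, (hφ den).2, Ne, map_eq_zero]
      exact hden
    have hEd := res_div w hE.1 hdv
    have hX1 : ∀ i, X1 i ∈ w.ring ∧ w.res (X1 i) = φ (X0 i) := by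
      intro i
      simp only [X1]
      split_ifs with h
      · subst h
        refine ⟨sub_mem (hφ _).1 hEd.1, ?_⟩
        rw [w.res_sub (hφ _).1 hEd.1, hEd.2, hE.2, zero_div, sub_zero, (hφ _).2]
      · exact hφ _
    have hV1 : ∀ i, V1 i ∈ w.ring ∧ w.res (V1 i) = φ (V0 i) := by
      intro i
      simp only [V1]
      split_ifs with h
      · subst h
        refine ⟨add_mem (hφ _).1 hTm, ?_⟩
        rw [w.res_add (hφ _).1 hTm, hT0, add_zero, (hφ _).2]
      · exact hφ _
    have h1 := spec_psi_mk (k := k) (p ^ f) a w (X := X1) (V := V1) (Z := Z1)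
      (fun i _ => (hX1 i).1) (fun i => (hV1 i).1) (fun j => (hφ _).1)
    have h2 : (fun i => w.res (X1 i)) = fun i => φ (X0 i) := funext fun i => (hX1 i).2
    have h3 : (fun i => w.res (V1 i)) = fun i => φ (V0 i) := funext fun i => (hV1 i).2
    have h4 : (fun j => w.res (Z1 j)) = fun j => φ (Z0 j) := funext fun j => (hφ _).2
    rw [h2, h3, h4] at h1
    have h5 : (fun j => φ ((P1 p f g a b hab δ).Φ c j)) =
        psi (p ^ f) a (fun i => φ (X0 i)) (fun i => φ (V0 i)) (fun j => φ (Z0 j)) := by
      funext j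
      exact psi_map (p ^ f) a (φ : M →+* w.resField) X0 V0 Z0 j
    rw [h5]
    exact h1
  · intro w y hy hord htr
    haveI : CharP w.resField p := charP_ext (k := k) p w.resField
    have hpty : IsPt {hform l κ (p ^ f) g} y :=
      hy.isPt (by rintro P rfl; exact ⟨_, hform_homogeneous _ _⟩) (isPt_psi g a hme1)
    by_cases hya : y (Sum.inl a) = 0
    · left
      refine hW _ _ _ y hpty htr fun i hi => ?_
      rcases hi.lt_or_eq with hi | rfl
      · exact spec_psi_lt (p ^ f) a w hy hi
      · exact hya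
    · obtain ⟨h1, h2, h3, h4⟩ := spec_psi (pow_pos hp.out.pos f) a w hy hya
      have hVb1 : V1 b' = algebraMap M N (V0 b') + T := by simp only [V1, if_true]
      have hcm : algebraMap M N (V0 b') ∈ w.ring ∧
          w.res (algebraMap M N (V0 b')) = algebraMap k w.resField (δ b') := by
        rw [hVb', ← IsScalarTower.algebraMap_apply]
        exact ⟨w.ring.algebraMap_mem _, w.res_algebraMap _⟩
      have hTm : T ∈ w.ring := by
        have h5 := sub_mem (h2 b') hcm.1
        rwa [hVb1, add_sub_cancel_left] at h5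
      have hord' : 0 < w.ord T := by
        have h6 : 0 ≤ w.ord T := (w.ord_nonneg_iff (RatFunc.X_ne_zero (K := M))).2 hTm
        have h7 : w.ord T ≠ 0 := hord
        omega
      have hT0 : w.res T = 0 := (w.res_eq_zero_iff hTm).2
        ((w.ord_pos_iff (RatFunc.X_ne_zero (K := M))).1 hord')
      have hme2 := me_res (p ^ f) g a w h1 h2 h3
      rw [hme1, w.res_zero] at hme2
      have hV2 : ∀ i, a < i → i < b → w.res (V1 i) = algebraMap k w.resField (δ i) := by
        intro i hi hi'
        by_cases hib : i = b'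
        · subst hib
          rw [hVb1, w.res_add hcm.1 hTm, hT0, add_zero, hcm.2]
        · simp only [V1, if_neg hib]
          have h8 : V0 i = algebraMap k M (δ i) := hU.2.1 i hi hi'
          rw [h8, ← IsScalarTower.algebraMap_apply, w.res_algebraMap]
      let y' : Fin l ⊕ Fin l ⊕ κ → w.resField := psi (p ^ f) a (fun i => w.res (X1 i))
        (fun i => w.res (V1 i)) (fun i => w.res (Z1 i))
      have hyy : homIdeal k y = homIdeal k y' := by
        rw [h4]
        exact homIdeal_scale y' hya
      have hyr : Algebra.trdeg k (ratioField k y') = s := by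
        rw [← htr, h4]
        rw [ratioField_scale y' hya]
      by_cases hvb : w.res (V1 b) ^ ((p ^ f) ^ 2) = w.res (V1 b)
      · left
        rw [hyy]
        refine hC _ _ _ _ _ _ hme2.2.symm hyr fun i hi hi' => ?_
        by_cases hib : i = b
        · rw [hib]; exact hvb
        · have hib' : i < b := lt_of_le_of_ne (by rw [Fin.le_def]; omega) hib
          rw [hV2 i hi hib', ← map_pow, hδ]
      · right
        refine ⟨hord', ?_⟩
        obtain ⟨c2, hc2, hc2', hc2''⟩ := exists_strat1 (p := p) (f := f) hab δ hme2.2.symm hV2 hvb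
        have hyr2 := hyr
        change Algebra.trdeg k (ratioField k (psi (p ^ f) a (fun i => w.res (X1 i))
          (fun i => w.res (V1 i)) (fun i => w.res (Z1 i)))) = s at hyr2
        rw [← hc2', Param.tdeg_ratioField hc2, Nat.cast_inj] at hyr2
        rw [hyy, hfund]
        change homIdeal k (psi (p ^ f) a (fun i => w.res (X1 i))
          (fun i => w.res (V1 i)) (fun i => w.res (Z1 i))) = _
        rw [← hc2']
        exact Param.fund_eq hc2 hc2'' (by rw [hyr2, hs'])

end Pool.Agent.HC
end

/- Helper16.DP.HC.MoveA -/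
section
set_option autoImplicit false

/-!
Project HC (MP_0b9e0b_ag), moving lemma: two lemmas on places.
-/

namespace Pool.Agent.HC

open Pool.Agent.Helper16

variable {K ι : Type} [Field K] {N : Type} [Field N] [Algebra K N]

theorem isAlgebraic_over_image {E : Type} [Field E] [Algebra K E] (N : IntermediateField K E)
    (M : IntermediateField K N) (b : E) (h : IsAlgebraic (M.map N.val) b) : IsAlgebraic M b :=
  IsAlgebraic.of_ringHom_of_comp_eq (M.equivMap N.val) (RingHom.id E) (a := b) h
    (M.equivMap N.val).surjective Function.injective_id rfl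

theorem isFunctionField_of_trdeg {s : ℕ} (M : IntermediateField K N)
    (hM : Algebra.trdeg K M = s) (hN : Algebra.EssFiniteType K N)
    (htr : Algebra.trdeg K N = s + 1) : IsFunctionField M N := by
  refine ⟨Algebra.EssFiniteType.of_comp K M N, ?_⟩
  have h4 := trdeg_add_eq K M (A := N)
  rw [hM, htr, add_comm, add_comm (s : Cardinal) 1] at h4
  exact (Cardinal.add_nat_inj s).1 h4

/-- A place of `N`, trivial on `M`, at which a given non-constant polynomial in `X` vanishes. -/
theorem exists_root_place {s : ℕ} (M : IntermediateField K N)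
    (hM : Algebra.trdeg K M = s) (hN : Algebra.EssFiniteType K N)
    (htr : Algebra.trdeg K N = s + 1) {X : N} (hX : Transcendental M X) {g : Polynomial M}
    (hg : g.Monic) (hg0 : g.natDegree ≠ 0) :
    ∃ v : Place K N, (∀ b ∈ M, b ≠ 0 → v.val b = 1) ∧ X ∈ v.ring ∧
      v.val (Polynomial.aeval X g) < 1 := by
  have hF := isFunctionField_of_trdeg M hM hN htr
  have hf : Transcendental M (Polynomial.aeval X g) := hX.aeval g hg0 (by
    rw [hg.leadingCoeff]
    exact one_mem _)
  obtain ⟨S, hS, h1, h2⟩ := hF.zeros _ hf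
  have hne : S.Nonempty := by
    rw [Finset.nonempty_iff_ne_empty]
    rintro rfl
    rw [Finset.sum_empty] at h1
    rw [eq_comm, Int.natCast_eq_zero] at h1
    omega
  obtain ⟨w, hw⟩ := hne
  have hw1 := (hS w).1 hw
  have hint : IntOver M (Polynomial.aeval X g) X := by
    refine intOver_of_monic (g.map (algebraMap M N) - Polynomial.C (Polynomial.aeval X g)) ?_ ?_ ?_
    · refine (hg.map _).sub_of_left ?_
      refine lt_of_le_of_lt Polynomial.degree_C_le ?_
      rw [hg.degree_map, Polynomial.degree_eq_natDegree hg.ne_zero]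
      exact_mod_cast Nat.pos_of_ne_zero hg0
    · intro j
      rw [Polynomial.coeff_sub, Polynomial.coeff_map, Polynomial.coeff_C]
      have h5 : IntOver M (Polynomial.aeval X g) (algebraMap M N (g.coeff j)) := IntOver.const _ _
      split_ifs
      · have h6 : IntOver M (Polynomial.aeval X g) ((-1 : M) • Polynomial.aeval X g) :=
          (IntOver.self _).smul _
        have := h5.add h6
        rwa [neg_smul, one_smul, ← sub_eq_add_neg] at this
      · rwa [sub_zero]
    · rw [Polynomial.eval_sub, Polynomial.eval_C, Polynomial.eval_map, ← Polynomial.aeval_def,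
        sub_self]
  exact ⟨under K w, fun b hb hb0 => w.triv ⟨b, hb⟩ (fun h => hb0 (congrArg Subtype.val h)),
    hint.mem_ring w hw1.le, hw1⟩

section residue

variable {E : Type} [Field E] [Algebra K E] [Algebra N E] [IsScalarTower K N E]

theorem rel_of_residue (v : Place K N) (c : ι → E) (c' : ι → N) (B : Set ι) (a : ι)
    (haB : a ∉ B) (hcc : ∀ i, i ≠ a → algebraMap N E (c' i) = c i)
    (hind : AlgebraicIndependent (IntermediateField.adjoin K (c '' Bᶜ)) (fun i : B => c i))
    (hint : ∀ i, c' i ∈ v.ring)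
    (htriv : ∀ b ∈ IntermediateField.adjoin K (c' '' (insert a B)ᶜ), b ≠ 0 → v.val b = 1)
    (hroot : v.val (Polynomial.aeval (c' a)
      (minpoly (IntermediateField.adjoin K (c' '' (insert a B)ᶜ)) (c a))) < 1)
    (F : MvPolynomial ι K) (hF : MvPolynomial.aeval c F = 0) :
    MvPolynomial.aeval (fun i => v.res (c' i)) F = 0 := by
  classical
  set M2 := IntermediateField.adjoin K (c' '' (insert a B)ᶜ) with hM2
  set g := minpoly M2 (c a) with hg
  have hmem : ∀ b : M2, (b : N) ∈ v.ring := by
    intro b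
    by_cases hb : (b : N) = 0
    · rw [hb]
      exact zero_mem _
    · exact (htriv b b.2 hb).le
  let ψr : M2 →+* v.ring := M2.val.toRingHom.codRestrict v.ring hmem
  let ψ : M2 →+* v.resField := (IsLocalRing.residue v.ring).comp ψr
  have hψ : ∀ b : M2, ψ b = v.res (b : N) := fun b => (v.res_of_mem (hmem b)).symm
  have hevr : ∀ p : Polynomial M2, Polynomial.eval₂ ψ (v.res (c' a)) p =
      v.res (Polynomial.aeval (c' a) p) ∧ Polynomial.aeval (c' a) p ∈ v.ring := by
    intro p
    have h1 : Polynomial.aeval (c' a) p =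
        ((Polynomial.eval₂ ψr (⟨c' a, hint a⟩ : v.ring) p : v.ring) : N) := by
      rw [Polynomial.aeval_def]
      exact (Polynomial.hom_eval₂ p ψr v.ring.val.toRingHom ⟨c' a, hint a⟩).symm
    have h2 : Polynomial.aeval (c' a) p ∈ v.ring := by
      rw [h1]
      exact Subtype.prop _
    refine ⟨?_, h2⟩
    rw [v.res_of_mem h2]
    have h3 : (⟨Polynomial.aeval (c' a) p, h2⟩ : v.ring) =
        Polynomial.eval₂ ψr (⟨c' a, hint a⟩ : v.ring) p := Subtype.ext h1
    rw [h3, Polynomial.hom_eval₂, v.res_of_mem (hint a)]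
  have hg0 : Polynomial.eval₂ ψ (v.res (c' a)) g = 0 := by
    rw [(hevr g).1, v.res_eq_zero_iff (hevr g).2]
    exact hroot
  -- the two evaluations
  let E1 : MvPolynomial B (Polynomial M2) →+* E :=
    MvPolynomial.eval₂Hom (Polynomial.aeval (R := M2) (c a)).toRingHom (fun i : B => c i)
  let E2 : MvPolynomial B (Polynomial M2) →+* v.resField :=
    MvPolynomial.eval₂Hom (Polynomial.eval₂RingHom ψ (v.res (c' a))) (fun i : B => v.res (c' i))
  let e : ι → MvPolynomial B (Polynomial M2) := fun i =>
    if h : i ∈ B then MvPolynomial.X ⟨i, h⟩ else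
      if h' : i = a then MvPolynomial.C Polynomial.X else
        MvPolynomial.C (Polynomial.C ⟨c' i, IntermediateField.subset_adjoin K _
          ⟨i, by rw [Set.mem_compl_iff, Set.mem_insert_iff, not_or]; exact ⟨h', h⟩, rfl⟩⟩)
  have he1 : ∀ F : MvPolynomial ι K, E1 (MvPolynomial.aeval e F) = MvPolynomial.aeval c F := by
    intro F
    have h1 : E1.comp (MvPolynomial.aeval (R := K) e).toRingHom =
        (MvPolynomial.aeval (R := K) c).toRingHom := by
      apply MvPolynomial.ringHom_ext
      · intro r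
        change E1 (MvPolynomial.aeval e (MvPolynomial.C r)) = MvPolynomial.aeval c (MvPolynomial.C r)
        rw [MvPolynomial.aeval_C, MvPolynomial.aeval_C]
        change E1 (MvPolynomial.C (Polynomial.C (algebraMap K M2 r))) = _
        rw [MvPolynomial.eval₂Hom_C]
        change Polynomial.aeval (c a) (Polynomial.C (algebraMap K M2 r)) = _
        rw [Polynomial.aeval_C]
        exact (IsScalarTower.algebraMap_apply K N E r).symm
      · intro i
        change E1 (MvPolynomial.aeval e (MvPolynomial.X i)) = MvPolynomial.aeval c (MvPolynomial.X i)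
        rw [MvPolynomial.aeval_X, MvPolynomial.aeval_X]
        by_cases h : i ∈ B
        · simp only [e, dif_pos h]
          exact MvPolynomial.eval₂Hom_X' _ _ _
        · by_cases h' : i = a
          · simp only [e, dif_neg h, dif_pos h']
            rw [MvPolynomial.eval₂Hom_C]
            change Polynomial.aeval (c a) Polynomial.X = _
            rw [Polynomial.aeval_X, h']
          · simp only [e, dif_neg h, dif_neg h']
            rw [MvPolynomial.eval₂Hom_C]
            change Polynomial.aeval (c a) (Polynomial.C _) = _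
            rw [Polynomial.aeval_C]
            exact hcc i h'
    exact congrArg (fun φ : MvPolynomial ι K →+* E => φ F) h1
  have he2 : ∀ F : MvPolynomial ι K, E2 (MvPolynomial.aeval e F) =
      MvPolynomial.aeval (fun i => v.res (c' i)) F := by
    intro F
    have h1 : E2.comp (MvPolynomial.aeval (R := K) e).toRingHom =
        (MvPolynomial.aeval (R := K) (fun i => v.res (c' i))).toRingHom := by
      apply MvPolynomial.ringHom_ext
      · intro r
        change E2 (MvPolynomial.aeval e (MvPolynomial.C r)) =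
          MvPolynomial.aeval (fun i => v.res (c' i)) (MvPolynomial.C r)
        rw [MvPolynomial.aeval_C, MvPolynomial.aeval_C]
        change E2 (MvPolynomial.C (Polynomial.C (algebraMap K M2 r))) = _
        rw [MvPolynomial.eval₂Hom_C]
        change Polynomial.eval₂ ψ (v.res (c' a)) (Polynomial.C (algebraMap K M2 r)) = _
        rw [Polynomial.eval₂_C, hψ]
        exact v.res_algebraMap r
      · intro i
        change E2 (MvPolynomial.aeval e (MvPolynomial.X i)) =
          MvPolynomial.aeval (fun i => v.res (c' i)) (MvPolynomial.X i)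
        rw [MvPolynomial.aeval_X, MvPolynomial.aeval_X]
        by_cases h : i ∈ B
        · simp only [e, dif_pos h]
          exact MvPolynomial.eval₂Hom_X' _ _ _
        · by_cases h' : i = a
          · simp only [e, dif_neg h, dif_pos h']
            rw [MvPolynomial.eval₂Hom_C]
            change Polynomial.eval₂ ψ (v.res (c' a)) Polynomial.X = _
            rw [Polynomial.eval₂_X, h']
          · simp only [e, dif_neg h, dif_neg h']
            rw [MvPolynomial.eval₂Hom_C]
            change Polynomial.eval₂ ψ (v.res (c' a)) (Polynomial.C _) = _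
            rw [Polynomial.eval₂_C, hψ]
    exact congrArg (fun φ : MvPolynomial ι K →+* v.resField => φ F) h1
  -- the coefficients
  set L1 := IntermediateField.adjoin K (c '' Bᶜ) with hL1
  have hM2L : ∀ b : M2, algebraMap N E (b : N) ∈ L1 := by
    rintro ⟨b, hb⟩
    have h1 : (algebraMap N E b) ∈ M2.map (IsScalarTower.toAlgHom K N E) :=
      ⟨b, hb, rfl⟩
    rw [hM2, IntermediateField.adjoin_map] at h1
    refine IntermediateField.adjoin.mono K _ _ ?_ h1
    rintro _ ⟨_, ⟨i, hi, rfl⟩, rfl⟩
    rw [Set.mem_compl_iff, Set.mem_insert_iff, not_or] at hi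
    exact ⟨i, hi.2, (hcc i hi.1).symm⟩
  have haL : c a ∈ L1 := IntermediateField.subset_adjoin K _ ⟨a, haB, rfl⟩
  have hθ : ∀ p : Polynomial M2, Polynomial.aeval (c a) p ∈ L1 := by
    intro p
    induction p using Polynomial.induction_on' with
    | add p q hp hq => rw [map_add]; exact add_mem hp hq
    | monomial n b =>
      rw [Polynomial.aeval_monomial]
      exact mul_mem (hM2L b) (pow_mem haL n)
  let θ : Polynomial M2 →+* L1 :=
    (Polynomial.aeval (R := M2) (c a)).toRingHom.codRestrict L1 hθ
  have key : ∀ q : MvPolynomial B (Polynomial M2), E1 q = 0 → E2 q = 0 := by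
    intro q hq
    have h1 : MvPolynomial.aeval (fun i : B => c i) (MvPolynomial.map θ q) = E1 q := by
      rw [MvPolynomial.aeval_def, MvPolynomial.eval₂_map]
      rfl
    rw [hq] at h1
    have h2 := (algebraicIndependent_iff.1 hind) _ h1
    have h3 : ∀ m, Polynomial.eval₂ ψ (v.res (c' a)) (q.coeff m) = 0 := by
      intro m
      have h4 : θ (q.coeff m) = 0 := by
        rw [← MvPolynomial.coeff_map, h2, MvPolynomial.coeff_zero]
      have h5 : Polynomial.aeval (c a) (q.coeff m) = 0 := congrArg Subtype.val h4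
      obtain ⟨p, hp⟩ := minpoly.dvd M2 (c a) h5
      rw [hp, Polynomial.eval₂_mul, ← hg, hg0, zero_mul]
    change MvPolynomial.eval₂ (Polynomial.eval₂RingHom ψ (v.res (c' a)))
      (fun i : B => v.res (c' i)) q = 0
    rw [MvPolynomial.eval₂_eq]
    refine Finset.sum_eq_zero fun m _ => ?_
    rw [Polynomial.coe_eval₂RingHom, h3, zero_mul]
  rw [← he2]
  exact key _ (by rw [he1, hF])

end residue

end Pool.Agent.HC
end

/- Helper16.DP.HC.Move -/
section
set_option autoImplicit false

/-!
Project HC (MP_0b9e0b_ag): the moving lemma for a parametrised family of points.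
-/

namespace Pool.Agent.HC

open Pool.Agent.Helper16

variable {K σ ι : Type} [Field K] {I : Set (MvPolynomial σ K)}

namespace Param

variable (P : Param K I ι) [Finite σ] [Finite ι]

/-- One step of the moving lemma: from cylinders in the directions `B` to cylinders in the
directions `B` and `a`. -/
theorem move_core (hI : ∀ F ∈ I, ∃ d, F.IsHomogeneous d) {s : ℕ} {E : Type} [Field E]
    [Algebra K E] (c : ι → E) (X : E)
    (hX : Transcendental (IntermediateField.adjoin K (Set.range c)) X) (B : Set ι) (a : ι)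
    (haD : a ∈ P.D) (haB : a ∉ B) (hU : P.U c) (hs : tdeg K (Set.range c) = s)
    (hB : tdeg K (c '' Bᶜ) + B.ncard = s)
    (halg : IsAlgebraic (IntermediateField.adjoin K (c '' (insert a B)ᶜ)) (c a))
    {W : Submodule ℚ (Ideal (MvPolynomial σ K) →₀ ℚ)} (hW : rat I s ≤ W)
    (hbad : ∀ Q, IsSub I s Q → P.Bad Q → Finsupp.single Q 1 ∈ W)
    (hcyl : ∀ (N : Type) [Field N] [Algebra K N] (d : ι → N), P.U d →
      tdeg K (Set.range d) = s → tdeg K (d '' (insert a B)ᶜ) + (insert a B).ncard = s →
      Finsupp.single (homIdeal K (P.Φ d)) 1 ∈ W) :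
    Finsupp.single (homIdeal K (P.Φ c)) 1 ∈ W := by
  classical
  have hfin : ∀ (M : Type) (d : ι → M) (S : Set ι), (d '' S).Finite := fun M d S =>
    (Set.toFinite S).image d
  -- the point of the relation
  set c1 : ι → E := Function.update c a X with hc1
  have hc1a : c1 a = X := Function.update_self _ _ _
  have hc1i : ∀ i, i ≠ a → c1 i = c i := fun i hi => Function.update_of_ne hi _ _
  have himg : ∀ S : Set ι, a ∉ S → c1 '' S = c '' S := by
    intro S hS
    refine Set.image_congr fun i hi => hc1i i ?_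
    rintro rfl
    exact hS hi
  have hle1 : IntermediateField.adjoin K (c '' {a}ᶜ) ≤ IntermediateField.adjoin K (Set.range c) :=
    IntermediateField.adjoin.mono K _ _ (Set.image_subset_range _ _)
  have hXa : Transcendental (IntermediateField.adjoin K (c '' {a}ᶜ)) X := by
    refine fun h => hX ?_
    exact h.ringHom_of_comp_eq (IntermediateField.inclusion hle1).toRingHom (RingHom.id E)
      (IntermediateField.inclusion_injective hle1) rfl
  have hU1 : P.U c1 := P.gen c c1 a haD hU hc1i (by rw [hc1a]; exact hXa)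
  set N := IntermediateField.adjoin K (Set.range c1) with hN
  set c' : ι → N := fun i => ⟨c1 i, IntermediateField.subset_adjoin K _ ⟨i, rfl⟩⟩ with hc'
  have hval : (fun i => N.val (c' i)) = c1 := rfl
  have hU' : P.U c' := by
    rw [← P.natU N.val, hval]
    exact hU1
  have himg' : ∀ S : Set ι, N.val '' (c' '' S) = c1 '' S := by
    intro S
    rw [Set.image_image]
    rfl
  have hcompl : a ∉ ({a}ᶜ : Set ι) := fun h => h rfl
  have hcompl2 : a ∉ ((insert a B)ᶜ : Set ι) := fun h => h (Set.mem_insert _ _)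
  -- transcendence degrees
  have hsub : ({a}ᶜ : Set ι) ⊇ (insert a B)ᶜ := by
    intro i hi
    rw [Set.mem_compl_iff, Set.mem_insert_iff, not_or] at hi
    exact hi.1
  have hrange : Set.range c = c '' {a}ᶜ ∪ {c a} := by
    ext b
    constructor
    · rintro ⟨i, rfl⟩
      by_cases h : i = a
      · subst h
        exact Or.inr rfl
      · exact Or.inl ⟨i, h, rfl⟩
    · rintro (⟨i, -, rfl⟩ | rfl)
      · exact ⟨i, rfl⟩
      · exact ⟨a, rfl⟩
  have hrange1 : Set.range c1 = insert X (c '' {a}ᶜ) := by
    ext b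
    constructor
    · rintro ⟨i, rfl⟩
      by_cases h : i = a
      · subst h
        exact Or.inl hc1a
      · exact Or.inr ⟨i, h, (hc1i i h).symm⟩
    · rintro (rfl | ⟨i, hi, rfl⟩)
      · exact ⟨a, hc1a⟩
      · exact ⟨i, hc1i i hi⟩
  have halg1 : IsAlgebraic (IntermediateField.adjoin K (c '' {a}ᶜ)) (c a) := by
    have hle : IntermediateField.adjoin K (c '' (insert a B)ᶜ) ≤
        IntermediateField.adjoin K (c '' {a}ᶜ) :=
      IntermediateField.adjoin.mono K _ _ (Set.image_mono hsub)
    exact halg.ringHom_of_comp_eq (IntermediateField.inclusion hle).toRingHom (RingHom.id E)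
      (IntermediateField.inclusion_injective hle) rfl
  have ht1 : tdeg K (c '' {a}ᶜ) = s := by
    rw [← hs, hrange]
    refine (tdeg_union_of_algebraic (hfin _ _ _) (Set.finite_singleton _) ?_).symm
    rintro b rfl
    exact halg1
  have ht2 : tdeg K (Set.range c1) = s + 1 := by
    rw [hrange1, tdeg_insert_of_transcendental (hfin _ _ _) hXa, ht1]
  have htrN : Algebra.trdeg K N = s + 1 := by
    rw [hN, tdeg_spec (Set.finite_range c1), ht2]
    push_cast
    rfl
  have hessN : Algebra.EssFiniteType K N := by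
    rw [hN, IntermediateField.essFiniteType_iff]
    exact IntermediateField.fg_adjoin_of_finite (Set.finite_range _)
  -- the coefficients of the function
  set M1 := IntermediateField.adjoin K (c' '' {a}ᶜ) with hM1
  set M2 := IntermediateField.adjoin K (c' '' (insert a B)ᶜ) with hM2
  have hM21 : M2 ≤ M1 := IntermediateField.adjoin.mono K _ _ (Set.image_mono hsub)
  have ht3 : tdeg K (c' '' {a}ᶜ) = s := by
    rw [← tdeg_image N.val, himg', himg _ hcompl, ht1]
  have htrM1 : Algebra.trdeg K M1 = s := by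
    rw [hM1, tdeg_spec (hfin _ _ _), ht3]
  have hX1 : Transcendental M1 (c' a) := by
    intro h
    have h1 := tdeg_union_of_algebraic (K := K) (hfin _ c' {a}ᶜ) (Set.finite_singleton (c' a)) (by
      rintro b rfl
      exact h)
    rw [ht3, ← tdeg_image N.val, Set.image_union, himg', Set.image_singleton] at h1
    have h2 : c1 '' {a}ᶜ ∪ {N.val (c' a)} = Set.range c1 := by
      rw [himg _ hcompl, hrange1, Set.union_comm]
      change {c1 a} ∪ _ = _
      rw [hc1a]
      rfl
    rw [h2, ht2] at h1
    omega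
  have halg2 : IsAlgebraic M2 (c a) := by
    refine isAlgebraic_over_image N M2 (c a) ?_
    rw [hM2, IntermediateField.adjoin_map, himg', himg _ hcompl2]
    exact halg
  set g := minpoly M2 (c a) with hg
  have hgm : g.Monic := minpoly.monic halg2.isIntegral
  have hgd : g.natDegree ≠ 0 := (minpoly.natDegree_pos halg2.isIntegral).ne'
  set f := Polynomial.aeval (c' a) g with hf
  have hcc : ∀ i, i ≠ a → algebraMap N E (c' i) = c i := fun i hi => hc1i i hi
  have hind : AlgebraicIndependent (IntermediateField.adjoin K (c '' Bᶜ)) (fun i : B => c i) := by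
    have : Fintype B := Fintype.ofFinite B
    refine indep_of_tdeg (hfin _ _ _) _ ?_
    have h1 : c '' Bᶜ ∪ Set.range (fun i : B => c i) = Set.range c := by
      ext b
      constructor
      · rintro (⟨i, -, rfl⟩ | ⟨i, rfl⟩)
        · exact ⟨i, rfl⟩
        · exact ⟨i, rfl⟩
      · rintro ⟨i, rfl⟩
        by_cases h : i ∈ B
        · exact Or.inr ⟨⟨i, h⟩, rfl⟩
        · exact Or.inl ⟨i, h, rfl⟩
    rw [h1, hs, ← hB, Set.ncard_eq_toFinset_card' B, Set.toFinset_card]
  have hsame : ∀ v : Place K N, (∀ i, c' i ∈ v.ring) → (∀ b ∈ M2, b ≠ 0 → v.val b = 1) →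
      v.val f < 1 → s ≤ tdeg K (Set.range fun i => v.res (c' i)) →
      P.U (fun i => v.res (c' i)) ∧
        homIdeal K (P.Φ fun i => v.res (c' i)) = homIdeal K (P.Φ c) := by
    intro v h1 h2 h3 h4
    have h5 := rel_of_residue v c c' B a haB hcc hind h1 h2 h3
    exact P.same (ker_le_of_tdeg c (fun i => v.res (c' i)) h5 (by rw [hs]; exact h4)) hU
  have hf0 : f ≠ 0 := by
    intro h0
    refine hX1 ?_
    have h' : IsAlgebraic M2 (c' a) := ⟨g, hgm.ne_zero, h0⟩
    exact h'.ringHom_of_comp_eq (IntermediateField.inclusion hM21).toRingHom (RingHom.id N)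
      (IntermediateField.inclusion_injective hM21) rfl
  refine rel_solve hessN htrN (P.pt c' hU') hf0 hW ?_ ?_
  · intro v y hy hyr hord
    by_cases hgood : (∀ i, c' i ∈ v.ring) ∧ P.U (fun i => v.res (c' i))
    · obtain ⟨hint, hUr⟩ := hgood
      have hspec := P.good v c' hU' hint hUr
      have hyr' : tdeg K (Set.range fun i => v.res (c' i)) = s := by
        have h1 := Param.tdeg_ratioField hUr
        rw [← hy.ratioField_eq hspec] at hyr
        rw [hyr] at h1
        exact_mod_cast h1.symm
      rw [← hy.homIdeal_eq hspec]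
      by_cases htriv : ∀ b ∈ M2, b ≠ 0 → v.val b = 1
      · left
        have hfint : f ∈ v.ring := by
          rw [hf, Polynomial.aeval_eq_sum_range]
          refine sum_mem fun n _ => ?_
          rw [Algebra.smul_def]
          refine mul_mem ?_ (pow_mem (hint a) n)
          by_cases hb : algebraMap M2 N (g.coeff n) = 0
          · rw [hb]
            exact zero_mem _
          · exact (htriv _ (g.coeff n).2 hb).le
        have hpos : 0 < v.ord f := by
          have h1 : 0 ≤ v.ord f := (v.ord_nonneg_iff hf0).2 hfint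
          omega
        exact ⟨(hsame v hint htriv ((v.ord_pos_iff hf0).1 hpos) hyr'.ge).2, hpos⟩
      · right
        push Not at htriv
        obtain ⟨b, hb, hb0, hb1⟩ := htriv
        refine hcyl _ _ hUr hyr' ?_
        have h1 := tdeg_res_lt v (hfin _ c' (insert a B)ᶜ) (by
          rintro _ ⟨i, -, rfl⟩
          exact hint i) ⟨b, hb, hb0, hb1⟩
        rw [Set.image_image] at h1
        have h2 : tdeg K (c' '' (insert a B)ᶜ) ≤ tdeg K (c '' Bᶜ) := by
          rw [← tdeg_image N.val, himg', himg _ hcompl2]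
          refine tdeg_mono' (hfin _ _ _) (Set.image_mono ?_)
          exact Set.compl_subset_compl.2 (Set.subset_insert _ _)
        have h3 := Set.ncard_insert_of_notMem haB (Set.toFinite B)
        have h4 : Set.range (fun i => v.res (c' i)) =
            (fun i => v.res (c' i)) '' (insert a B)ᶜ ∪ (fun i => v.res (c' i)) '' (insert a B) := by
          rw [← Set.image_union, Set.compl_union_self, Set.image_univ]
        have h5 := tdeg_union_le (K := K) (hfin _ (fun i => v.res (c' i)) (insert a B)ᶜ)
          (hfin _ (fun i => v.res (c' i)) (insert a B))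
        rw [← h4, hyr'] at h5
        have h6 : ((fun i => v.res (c' i)) '' (insert a B)).ncard ≤ (insert a B).ncard :=
          Set.ncard_image_le (Set.toFinite _)
        omega
    · right
      have h1 := P.bad v c' y hU' hy hgood
      refine hbad _ ?_ h1
      exact isSub_of_pt hI (hy.isPt hI (P.pt c' hU')) hyr
  · obtain ⟨v, hv1, hv2, hv3⟩ := exists_root_place M1 htrM1 hessN htrN hX1
      (g := g.map (IntermediateField.inclusion hM21).toRingHom) (hgm.map _)
      (by rw [hgm.natDegree_map]; exact hgd)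
    have hfeq : Polynomial.aeval (c' a) (g.map (IntermediateField.inclusion hM21).toRingHom) =
        f := by
      rw [hf, Polynomial.aeval_def, Polynomial.eval₂_map, Polynomial.aeval_def]
      rfl
    rw [hfeq] at hv3
    have hint : ∀ i, c' i ∈ v.ring := by
      intro i
      by_cases hi : i = a
      · subst hi
        exact hv2
      · by_cases h0 : c' i = 0
        · rw [h0]
          exact zero_mem _
        · exact (hv1 _ (IntermediateField.subset_adjoin K _ ⟨i, hi, rfl⟩) h0).le
    have htdeg : s ≤ tdeg K (Set.range fun i => v.res (c' i)) := by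
      by_contra hcon
      have h1 : tdeg K ((fun i => v.res (c' i)) '' {a}ᶜ) = s := by
        have h2 : (fun i => v.res (c' i)) '' {a}ᶜ = v.res '' (c' '' {a}ᶜ) := by
          rw [Set.image_image]
        rw [h2]
        refine le_antisymm ?_ ?_
        · rw [← ht3]
          exact tdeg_res_le v (hfin _ _ _) (by
            rintro _ ⟨i, -, rfl⟩
            exact hint i)
        · -- the residue map is injective on `M1`
          let ψr : M1 →ₐ[K] v.ring := M1.val.codRestrict v.ring (fun b => by
            by_cases hb : (b : N) = 0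
            · change (b : N) ∈ v.ring
              rw [hb]
              exact zero_mem _
            · exact (hv1 _ b.2 hb).le)
          let ψ : M1 →ₐ[K] v.resField := (IsScalarTower.toAlgHom K v.ring v.resField).comp ψr
          have h3 : v.res '' (c' '' {a}ᶜ) =
              ψ '' ((fun i => (⟨c' i.1, IntermediateField.subset_adjoin K _ ⟨i.1, i.2, rfl⟩⟩ : M1)) ''
                (Set.univ : Set ({a}ᶜ : Set ι))) := by
            ext b
            simp only [Set.mem_image, Set.mem_univ, true_and, exists_exists_and_eq_and,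
              exists_exists_eq_and]
            constructor
            · rintro ⟨i, hi, rfl⟩
              exact ⟨⟨i, hi⟩, (v.res_of_mem (hint i)).symm⟩
            · rintro ⟨⟨i, hi⟩, rfl⟩
              exact ⟨i, hi, v.res_of_mem (hint i)⟩
          rw [h3, tdeg_image ψ, ← tdeg_image M1.val]
          have h4 : M1.val '' ((fun i => (⟨c' i.1, IntermediateField.subset_adjoin K _
              ⟨i.1, i.2, rfl⟩⟩ : M1)) '' (Set.univ : Set ({a}ᶜ : Set ι))) = c' '' {a}ᶜ := by
            ext b
            simp only [Set.mem_image, Set.mem_univ, true_and, exists_exists_eq_and]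
            constructor
            · rintro ⟨⟨i, hi⟩, rfl⟩
              exact ⟨i, hi, rfl⟩
            · rintro ⟨i, hi, rfl⟩
              exact ⟨⟨i, hi⟩, rfl⟩
          rw [h4, ht3]
      have h5 := tdeg_mono' (K := K) (Set.finite_range fun i => v.res (c' i))
        (Set.image_subset_range (fun i => v.res (c' i)) {a}ᶜ)
      omega
    obtain ⟨hUr, hid⟩ := hsame v hint (fun b hb hb0 => hv1 b (hM21 hb) hb0) hv3 htdeg
    refine ⟨v, _, P.good v c' hU' hint hUr, ?_, (v.ord_pos_iff hf0).2 hv3, hid⟩
    rw [Param.tdeg_ratioField hUr, Nat.cast_inj]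
    refine le_antisymm ?_ htdeg
    have h5 := rel_of_residue v c c' B a haB hcc hind hint
      (fun b hb hb0 => hv1 b (hM21 hb) hb0) hv3
    rw [← hs]
    exact tdeg_le_of_ker_le c (fun i => v.res (c' i)) h5

/-- The moving lemma: the cycles of dimension `s` of the family are, modulo rational equivalence,
in every submodule which contains those in the boundary and those which are cylinders in all
movable directions. -/
theorem move (hI : ∀ F ∈ I, ∃ d, F.IsHomogeneous d) {s : ℕ}
    {W : Submodule ℚ (Ideal (MvPolynomial σ K) →₀ ℚ)} (hW : rat I s ≤ W)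
    (hbad : ∀ Q, IsSub I s Q → P.Bad Q → Finsupp.single Q 1 ∈ W)
    (hcyl : ∀ (N : Type) [Field N] [Algebra K N] (d : ι → N), P.U d →
      tdeg K (Set.range d) = s → tdeg K (d '' P.Dᶜ) + P.D.ncard = s →
      Finsupp.single (homIdeal K (P.Φ d)) 1 ∈ W)
    {E : Type} [Field E] [Algebra K E] (c : ι → E) (hU : P.U c)
    (hs : tdeg K (Set.range c) = s) : Finsupp.single (homIdeal K (P.Φ c)) 1 ∈ W := by
  classical
  have key : ∀ (n : ℕ) (B : Set ι), B ⊆ P.D → (P.D \ B).ncard = n →
      ∀ (N : Type) [Field N] [Algebra K N] (d : ι → N), P.U d →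
      tdeg K (Set.range d) = s → tdeg K (d '' Bᶜ) + B.ncard = s →
      Finsupp.single (homIdeal K (P.Φ d)) 1 ∈ W := by
    intro n
    induction n with
    | zero =>
      intro B hBD hn N _ _ d hd hds hdB
      have h1 : P.D \ B = ∅ := (Set.ncard_eq_zero (Set.toFinite _)).1 hn
      have h2 : B = P.D := Set.Subset.antisymm hBD (Set.sdiff_eq_empty.1 h1)
      subst h2
      exact hcyl N d hd hds hdB
    | succ n ih =>
      intro B hBD hn N _ _ d hd hds hdB
      have hne : (P.D \ B).Nonempty := by
        rw [← Set.ncard_pos (Set.toFinite _), hn]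
        omega
      obtain ⟨a, haD, haB⟩ := hne
      have hcard : (P.D \ insert a B).ncard = n := by
        have h1 : P.D \ insert a B = (P.D \ B) \ {a} := by
          rw [Set.insert_eq, Set.union_comm, Set.sdiff_sdiff]
        have h2 : a ∈ P.D \ B := ⟨haD, haB⟩
        rw [h1, Set.ncard_sdiff_singleton_of_mem h2, hn]
        rfl
      have hins : insert a B ⊆ P.D := Set.insert_subset haD hBD
      have hBcard := Set.ncard_insert_of_notMem haB (Set.toFinite B)
      have hcyl' := ih (insert a B) hins hcard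
      by_cases hcase : tdeg K (d '' (insert a B)ᶜ) + (insert a B).ncard = s
      · exact hcyl' N d hd hds hcase
      let φ : N →ₐ[K] RatFunc N := IsScalarTower.toAlgHom K N (RatFunc N)
      have hφ : ∀ S : Set ι, (fun i => φ (d i)) '' S = φ '' (d '' S) := fun S => by
        rw [Set.image_image]
      have hrange : Set.range (fun i => φ (d i)) = φ '' (Set.range d) := by
        rw [← Set.range_comp]
        rfl
      rw [← Param.homIdeal_nat φ hd]
      refine P.move_core hI (fun i => φ (d i)) RatFunc.X ?_ B a haD haB ((P.natU φ d).2 hd) ?_ ?_ ?_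
        hW hbad hcyl'
      · intro h
        have hle : IntermediateField.adjoin K (Set.range fun i => φ (d i)) ≤ φ.fieldRange := by
          rw [IntermediateField.adjoin_le_iff]
          rintro _ ⟨i, rfl⟩
          exact ⟨d i, rfl⟩
        have h1 := h.ringHom_of_comp_eq (S := φ.fieldRange) (B := RatFunc N)
          (IntermediateField.inclusion hle).toRingHom (RingHom.id _)
          (IntermediateField.inclusion_injective hle) rfl
        refine RatFunc.transcendental_X (K := N) ?_
        refine IsAlgebraic.of_ringHom_of_comp_eq (R := N) (S := φ.fieldRange) (A := RatFunc N)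
          (B := RatFunc N) (AlgEquiv.ofInjectiveField φ) (RingHom.id (RatFunc N))
          (a := RatFunc.X) h1 (AlgEquiv.ofInjectiveField φ).surjective Function.injective_id rfl
      · rw [hrange, tdeg_image, hds]
      · rw [hφ, tdeg_image, hdB]
      · refine isAlgebraic_of_tdeg ((Set.toFinite _).image _) ?_
        have h1 : insert (φ (d a)) ((fun i => φ (d i)) '' (insert a B)ᶜ) =
            φ '' (d '' Bᶜ) := by
          rw [hφ, ← Set.image_insert_eq, ← Set.image_insert_eq]
          congr 2
          ext i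
          simp only [Set.mem_insert_iff, Set.mem_compl_iff, not_or]
          constructor
          · rintro (rfl | ⟨-, h⟩)
            · exact haB
            · exact h
          · intro h
            by_cases hi : i = a
            · exact Or.inl hi
            · exact Or.inr ⟨hi, h⟩
        rw [h1, hφ, tdeg_image, tdeg_image]
        have h2 := tdeg_union_le (K := K) ((Set.toFinite (insert a B)ᶜ).image d)
          (Set.finite_singleton (d a))
        rw [Set.ncard_singleton] at h2
        have h3 : d '' (insert a B)ᶜ ∪ {d a} = d '' Bᶜ := by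
          rw [← Set.image_singleton, ← Set.image_union]
          congr 1
          ext i
          simp only [Set.mem_union, Set.mem_insert_iff, Set.mem_compl_iff, not_or,
            Set.mem_singleton_iff]
          constructor
          · rintro (⟨-, h⟩ | rfl)
            · exact h
            · exact haB
          · intro h
            by_cases hi : i = a
            · exact Or.inr hi
            · exact Or.inl ⟨hi, h⟩
        rw [h3] at h2
        (clear * - P c n hds hdB hBcard hcase h2; omega)
  exact key _ ∅ (Set.empty_subset _) rfl E c hU hs (by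
    rw [Set.compl_empty, Set.image_univ, hs, Set.ncard_empty, add_zero])

theorem move_lt (hI : ∀ F ∈ I, ∃ d, F.IsHomogeneous d) {s : ℕ} (hlt : s < P.D.ncard)
    {W : Submodule ℚ (Ideal (MvPolynomial σ K) →₀ ℚ)} (hW : rat I s ≤ W)
    (hbad : ∀ Q, IsSub I s Q → P.Bad Q → Finsupp.single Q 1 ∈ W)
    {E : Type} [Field E] [Algebra K E] (c : ι → E) (hU : P.U c)
    (hs : tdeg K (Set.range c) = s) : Finsupp.single (homIdeal K (P.Φ c)) 1 ∈ W := by
  refine P.move hI hW hbad ?_ c hU hs
  intro N _ _ d _ _ h
  omega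

end Param

end Pool.Agent.HC
end

/- Helper16.DP.HC.HW2 -/
section
set_option autoImplicit false
set_option linter.style.haveILetI false
set_option linter.unusedSectionVars false

/-! Project HC, part H: the strata of type II (all `v_i`, `i > a`, in the finite field).
Skeleton by helper10, for helper7. See HV4.lean (P1) and HV6.lean (relI) for the models.

PLAN. U2: X_i = 0 (i <= a), v_i = delta_i (i > a), v_a ^ q - v_a + g * sum Z ^ (q + 1) = 0.
Movable: X_i (i > a), v_i (i < a): l - 1 coordinates. Bad: X_i = 0 for all i <= a.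
relII: target = a point c of P2 over M, trdeg M = s = tdeg (range c), a < e := last index.
Over N = M(T): V1 e = delta_e + T, V1 a = V0 a + tau * T with tau = - X0 e,
X1 e = - ((tau T)^q - tau T) / (T^(q^2) - T) (= - (tau^q T^(q-1) - tau) / (T^(q^2-1) - 1), at T = 0:
- tau = X0 e, needs q >= 2), the rest unchanged; me stays 0. Places with y(X_a) <> 0: T integral, so
res T = 0, v_e(w) = delta_e, so y is again a point of P2 with the same delta, of dimension s.
-/

namespace Pool.Agent.HC

open Pool.Agent.Helper16 IntermediateField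

variable {k : Type} [Field k] {l : ℕ} {κ : Type} [Fintype κ]

/-- The domain of the parameters of the stratum of type II. -/
def U2 (q : ℕ) (g : k) (a : Fin l) (δ : Fin l → k) {N : Type} [Field N] [Algebra k N]
    (c : Fin l ⊕ Fin l ⊕ κ → N) : Prop :=
  (∀ i, i ≤ a → c (Sum.inl i) = 0) ∧
    (∀ i, a < i → c (Sum.inr (Sum.inl i)) = algebraMap k N (δ i)) ∧
    c (Sum.inr (Sum.inl a)) ^ q - c (Sum.inr (Sum.inl a)) +
      algebraMap k N g * ∑ j, c (Sum.inr (Sum.inr j)) ^ (q + 1) = 0

theorem me_of_U2 {p f : ℕ} {g : k} {a : Fin l} {δ : Fin l → k}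
    (hδ : ∀ i, δ i ^ ((p ^ f) ^ 2) = δ i) {N : Type} [Field N] [Algebra k N]
    {c : Fin l ⊕ Fin l ⊕ κ → N} (hc : U2 (p ^ f) g a δ c) :
    me (p ^ f) g a (fun i => c (Sum.inl i)) (fun i => c (Sum.inr (Sum.inl i)))
      (fun j => c (Sum.inr (Sum.inr j))) = 0 := by
  unfold me
  rw [Finset.sum_eq_zero, add_zero]
  · exact hc.2.2
  · intro j hj
    change c (Sum.inl j) * (c (Sum.inr (Sum.inl j)) ^ ((p ^ f) ^ 2) -
      c (Sum.inr (Sum.inl j))) = 0
    rw [hc.2.1 j (Finset.mem_Ioi.1 hj), ← map_pow, hδ, sub_self, mul_zero]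

theorem U2_of_me {p f : ℕ} {g : k} {a : Fin l} {δ : Fin l → k}
    (hδ : ∀ i, δ i ^ ((p ^ f) ^ 2) = δ i) {N : Type} [Field N] [Algebra k N]
    {X V : Fin l → N} {Z : κ → N} (hme : me (p ^ f) g a X V Z = 0)
    (hV : ∀ i, a < i → V i = algebraMap k N (δ i)) :
    U2 (p ^ f) g a δ (Sum.elim (fun i => if i ≤ a then 0 else X i) (Sum.elim V Z)) := by
  refine ⟨fun i hi => by simp only [Sum.elim_inl, if_pos hi], fun i hi => hV i hi, ?_⟩
  unfold me at hme
  rw [Finset.sum_eq_zero, add_zero] at hme
  · exact hme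
  · intro j hj
    rw [hV j (Finset.mem_Ioi.1 hj), ← map_pow, hδ, sub_self, mul_zero]

/-- The stratum of type II as a parametrised family. -/
noncomputable def P2 (p f : ℕ) [hp : Fact p.Prime] [CharP k p] (g : k) (a : Fin l)
    (δ : Fin l → k) (hδ : ∀ i, δ i ^ ((p ^ f) ^ 2) = δ i) :
    Param k {hform l κ (p ^ f) g} (Fin l ⊕ Fin l ⊕ κ) where
  U := fun c => U2 (p ^ f) g a δ c
  Φ := fun c => psi (p ^ f) a (fun i => c (Sum.inl i)) (fun i => c (Sum.inr (Sum.inl i)))
    (fun j => c (Sum.inr (Sum.inr j)))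
  D := {x | (∃ i, x = Sum.inl i ∧ a < i) ∨ (∃ i, x = Sum.inr (Sum.inl i) ∧ i < a)}
  Bad := fun Q => ∃ (N : Type) (_ : Field N) (_ : Algebra k N) (y : Fin l ⊕ Fin l ⊕ κ → N),
    IsPt {hform l κ (p ^ f) g} y ∧ homIdeal k y = Q ∧ ∀ i, i ≤ a → y (Sum.inl i) = 0
  pt := by
    intro N _ _ c hc
    haveI := charP_ext (k := k) p N
    exact isPt_psi g a (me_of_U2 hδ hc)
  natU := by
    intro N N' _ _ _ _ φ c
    unfold U2
    refine and_congr ?_ (and_congr ?_ ?_)
    · refine forall_congr' fun i => imp_congr_right fun _ => ?_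
      rw [map_eq_zero]
    · refine forall_congr' fun i => imp_congr_right fun _ => ?_
      rw [← φ.commutes]
      exact (show Function.Injective φ from φ.toRingHom.injective).eq_iff
    · have h1 : φ (c (Sum.inr (Sum.inl a))) ^ (p ^ f) - φ (c (Sum.inr (Sum.inl a))) +
          algebraMap k N' g * ∑ j, φ (c (Sum.inr (Sum.inr j))) ^ (p ^ f + 1) =
          φ (c (Sum.inr (Sum.inl a)) ^ (p ^ f) - c (Sum.inr (Sum.inl a)) +
            algebraMap k N g * ∑ j, c (Sum.inr (Sum.inr j)) ^ (p ^ f + 1)) := by
        simp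
      rw [h1, map_eq_zero]
  natΦ := by
    intro N N' _ _ _ _ φ c _
    funext j
    have h1 := psi_map (p ^ f) a (φ : N →+* N') (fun i => c (Sum.inl i))
      (fun i => c (Sum.inr (Sum.inl i))) (fun j => c (Sum.inr (Sum.inr j))) j
    simp only [RingHom.coe_coe] at h1
    exact h1.symm
  alg := by
    intro N _ _ c hc j
    obtain ⟨h1, h2, h3⟩ := isAlgebraic_psi (k := k) (pow_pos hp.out.pos f) a
      (fun i => c (Sum.inl i)) (fun i => c (Sum.inr (Sum.inl i))) (fun j => c (Sum.inr (Sum.inr j)))
    rcases j with i | i | i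
    · by_cases hi : i ≤ a
      · rw [hc.1 i hi]
        exact isAlgebraic_zero
      · exact isAlgebraic_algebraMap (⟨_, h1 i (not_le.1 hi)⟩ : ratioField k (psi (p ^ f) a
          (fun i => c (Sum.inl i)) (fun i => c (Sum.inr (Sum.inl i)))
          (fun j => c (Sum.inr (Sum.inr j)))))
    · exact h2 i
    · exact isAlgebraic_algebraMap (⟨_, h3 i⟩ : ratioField k (psi (p ^ f) a
          (fun i => c (Sum.inl i)) (fun i => c (Sum.inr (Sum.inl i)))
          (fun j => c (Sum.inr (Sum.inr j)))))
  gen := by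
    intro N _ _ c c' x hx hc hcc ht
    have hne : ∀ i, i ≤ a → (Sum.inl i : Fin l ⊕ Fin l ⊕ κ) ≠ x := by
      rintro i hi rfl
      rcases hx with ⟨i', h1, h2⟩ | ⟨i', h1, -⟩
      · cases h1
        exact absurd h2 (not_lt.2 hi)
      · cases h1
    have hne2 : ∀ i, a ≤ i → (Sum.inr (Sum.inl i) : Fin l ⊕ Fin l ⊕ κ) ≠ x := by
      rintro i hi rfl
      rcases hx with ⟨i', h1, -⟩ | ⟨i', h1, h2⟩
      · cases h1
      · cases h1
        exact absurd h2 (not_lt.2 hi)
    have hne3 : ∀ j, (Sum.inr (Sum.inr j) : Fin l ⊕ Fin l ⊕ κ) ≠ x := by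
      rintro j rfl
      rcases hx with ⟨i', h1, -⟩ | ⟨i', h1, -⟩ <;> cases h1
    refine ⟨fun i hi => ?_, fun i hi => ?_, ?_⟩
    · rw [hcc _ (hne i hi)]
      exact hc.1 i hi
    · rw [hcc _ (hne2 i hi.le)]
      exact hc.2.1 i hi
    · rw [hcc _ (hne2 a le_rfl), Finset.sum_congr rfl fun j _ => by rw [hcc _ (hne3 j)]]
      exact hc.2.2
  good := by
    intro N _ _ v c hc hci hcr
    exact spec_psi_mk (k := k) (κ := κ) (p ^ f) a v (X := fun i => c (Sum.inl i))
      (V := fun i => c (Sum.inr (Sum.inl i))) (Z := fun j => c (Sum.inr (Sum.inr j)))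
      (fun i _ => hci _) (fun i => hci _) (fun i => hci _)
  bad := by
    intro N _ _ v c y hc hsp hnot
    haveI := charP_ext (k := k) p N
    have hpt : IsPt {hform l κ (p ^ f) g} (psi (p ^ f) a (fun i => c (Sum.inl i))
        (fun i => c (Sum.inr (Sum.inl i))) (fun j => c (Sum.inr (Sum.inr j)))) :=
      isPt_psi g a (me_of_U2 hδ hc)
    have hpty : IsPt {hform l κ (p ^ f) g} y :=
      hsp.isPt (by rintro P rfl; exact ⟨_, hform_homogeneous _ _⟩) hpt
    by_cases hya : y (Sum.inl a) = 0
    · refine ⟨v.resField, inferInstance, inferInstance, y, hpty, rfl, fun i hi => ?_⟩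
      rcases hi.lt_or_eq with hi | rfl
      · exact spec_psi_lt (p ^ f) a v hsp hi
      · exact hya
    · exfalso
      obtain ⟨h1, h2, h3, h4⟩ := spec_psi (pow_pos hp.out.pos f) a v hsp hya
      have hci : ∀ j, c j ∈ v.ring := by
        rintro (i | i | i)
        · by_cases hi : i ≤ a
          · rw [hc.1 i hi]
            exact zero_mem _
          · exact h1 i (not_le.1 hi)
        · exact h2 i
        · exact h3 i
      apply hnot
      refine ⟨hci, fun i hi => ?_, fun i hi => ?_, ?_⟩
      · change v.res (c (Sum.inl i)) = 0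
        rw [hc.1 i hi, v.res_zero]
      · change v.res (c (Sum.inr (Sum.inl i))) = _
        rw [hc.2.1 i hi, v.res_algebraMap]
      · have h5 := aeval_res v hci (MvPolynomial.X (Sum.inr (Sum.inl a)) ^ (p ^ f) -
          MvPolynomial.X (Sum.inr (Sum.inl a)) + MvPolynomial.C g *
            ∑ j, MvPolynomial.X (Sum.inr (Sum.inr j)) ^ (p ^ f + 1) :
              MvPolynomial (Fin l ⊕ Fin l ⊕ κ) k)
        simp only [map_add, map_sub, map_pow, map_mul, map_sum, MvPolynomial.aeval_X,
          MvPolynomial.aeval_C] at h5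
        rw [hc.2.2, v.res_zero] at h5
        exact h5.2.symm

/-- The relation which kills one stratum of type II, `a` not the last index. `hrest`: the other
points of dimension `s` of the strata of type II with the same `δ` are in `V`, or have the same
ideal as the target. -/
theorem relII {p f : ℕ} [hp : Fact p.Prime] [CharP k p] (hf : 0 < f) {g : k} {a e : Fin l}
    (hae : a < e) (δ : Fin l → k) (hδ : ∀ i, δ i ^ ((p ^ f) ^ 2) = δ i)
    {s : ℕ} (V : Submodule ℚ (Ideal (MvPolynomial (Fin l ⊕ Fin l ⊕ κ) k) →₀ ℚ))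
    (hV : rat {hform l κ (p ^ f) g} s ≤ V) (hW : WW (p ^ f) g κ s a V)
    {M : Type} [Field M] [Algebra k M] [Algebra.EssFiniteType k M]
    (hM : Algebra.trdeg k M = s) (c : Fin l ⊕ Fin l ⊕ κ → M)
    (hU : (P2 p f g a δ hδ).U c) (hs : tdeg k (Set.range c) = s)
    (hrest : ∀ (N : Type) (_ : Field N) (_ : Algebra k N) (c' : Fin l ⊕ Fin l ⊕ κ → N),
      (P2 p f g a δ hδ).U c' → tdeg k (Set.range c') = s →
      Finsupp.single (homIdeal k ((P2 p f g a δ hδ).Φ c')) 1 ∈ V ∨
        homIdeal k ((P2 p f g a δ hδ).Φ c') = homIdeal k ((P2 p f g a δ hδ).Φ c)) :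
    Finsupp.single (homIdeal k ((P2 p f g a δ hδ).Φ c)) 1 ∈ V := by
  classical
  haveI : CharP M p := charP_ext (k := k) p M
  haveI : CharP (RatFunc M) p := charP_ext (k := k) p (RatFunc M)
  have hea : a ≠ e := hae.ne
  have hq2 : 2 ≤ p ^ f := by
    calc 2 ≤ p := hp.out.two_le
      _ = p ^ 1 := (pow_one p).symm
      _ ≤ p ^ f := Nat.pow_le_pow_right hp.out.pos hf
  have hq4 : 2 ≤ (p ^ f) ^ 2 := hq2.trans (Nat.le_self_pow two_ne_zero _)
  let N := RatFunc M
  let T : N := RatFunc.X
  have hT0' : T ≠ 0 := RatFunc.X_ne_zero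
  let X0 : Fin l → M := fun i => c (Sum.inl i)
  let V0 : Fin l → M := fun i => c (Sum.inr (Sum.inl i))
  let Z0 : κ → M := fun j => c (Sum.inr (Sum.inr j))
  have hme0 : me (p ^ f) g a X0 V0 Z0 = 0 := me_of_U2 hδ hU
  have hVe : V0 e = algebraMap k M (δ e) := hU.2.1 e hae
  let τ : N := - algebraMap M N (X0 e)
  let num : N := τ ^ (p ^ f) * T ^ (p ^ f - 1) - τ
  let den : N := T ^ ((p ^ f) ^ 2 - 1) - 1
  have hden0 : den ≠ 0 := by
    intro h
    have h1 : T ^ ((p ^ f) ^ 2) = T := by
      have h2 : T ^ ((p ^ f) ^ 2) = T ^ ((p ^ f) ^ 2 - 1) * T := by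
        rw [← pow_succ]
        congr 1
        omega
      rw [h2, sub_eq_zero.1 h, one_mul]
    have h3 := RatFunc.transcendental_X (K := M)
    refine h3 ⟨Polynomial.X ^ ((p ^ f) ^ 2) - Polynomial.X,
      FiniteField.X_pow_card_sub_X_ne_zero _ (by omega), ?_⟩
    rw [map_sub, map_pow, Polynomial.aeval_X, sub_eq_zero]
    exact h1
  have hnT : num * T = (τ * T) ^ (p ^ f) - τ * T := by
    simp only [num]
    have h2 : T ^ (p ^ f) = T ^ (p ^ f - 1) * T := by
      rw [← pow_succ]
      congr 1
      omega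
    rw [mul_pow, h2]
    ring
  have hdT : den * T = T ^ ((p ^ f) ^ 2) - T := by
    simp only [den]
    have h2 : T ^ ((p ^ f) ^ 2) = T ^ ((p ^ f) ^ 2 - 1) * T := by
      rw [← pow_succ]
      congr 1
      omega
    rw [h2]
    ring
  let X1 : Fin l → N := fun i => if i = e then - (num / den) else algebraMap M N (X0 i)
  let V1 : Fin l → N := fun i => if i = e then algebraMap M N (V0 e) + T
    else if i = a then algebraMap M N (V0 a) + τ * T else algebraMap M N (V0 i)
  let Z1 : κ → N := fun j => algebraMap M N (Z0 j)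
  have hme1 : me (p ^ f) g a X1 V1 Z1 = 0 := by
    have h0 := congrArg (algebraMap M N) hme0
    rw [map_zero] at h0
    have h1 := me_map (p ^ f) g a (IsScalarTower.toAlgHom k M N) X0 V0 Z0
    have h2 : IsScalarTower.toAlgHom k M N (me (p ^ f) g a X0 V0 Z0) = 0 := h0
    rw [h2] at h1
    rw [h1]
    unfold me
    have hVa : V1 a ^ (p ^ f) - V1 a = (algebraMap M N (V0 a) ^ (p ^ f) - algebraMap M N (V0 a)) +
        num * T := by
      simp only [V1, if_neg hea, if_true]
      rw [add_pow_char_pow, hnT]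
      ring
    have hterm : ∀ j ∈ Finset.Ioi a, X1 j * (V1 j ^ ((p ^ f) ^ 2) - V1 j) =
        IsScalarTower.toAlgHom k M N (X0 j) * (IsScalarTower.toAlgHom k M N (V0 j) ^ ((p ^ f) ^ 2) -
          IsScalarTower.toAlgHom k M N (V0 j)) + (if j = e then - (num * T) else 0) := by
      intro j hj
      have hja : j ≠ a := (Finset.mem_Ioi.1 hj).ne'
      change _ = algebraMap M N (X0 j) * (algebraMap M N (V0 j) ^ ((p ^ f) ^ 2) -
          algebraMap M N (V0 j)) + (if j = e then - (num * T) else 0)
      by_cases hje : j = e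
      · subst hje
        simp only [X1, V1, if_true]
        have h4 : (algebraMap M N (V0 j)) ^ ((p ^ f) ^ 2) = algebraMap M N (V0 j) := by
          rw [← map_pow, hVe, ← map_pow, hδ]
        have h5 : (algebraMap M N (V0 j) + T) ^ ((p ^ f) ^ 2) =
            (algebraMap M N (V0 j)) ^ ((p ^ f) ^ 2) + T ^ ((p ^ f) ^ 2) := by
          rw [← pow_mul, add_pow_char_pow]
        rw [h5, h4]
        have h6 : algebraMap M N (V0 j) + T ^ ((p ^ f) ^ 2) - (algebraMap M N (V0 j) + T) =
            den * T := by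
          rw [hdT]
          ring
        rw [h6, neg_mul, ← mul_assoc, div_mul_cancel₀ _ hden0]
        ring
      · simp only [X1, V1, if_neg hje, if_neg hja]
        ring
    rw [Finset.sum_congr rfl hterm, Finset.sum_add_distrib, Finset.sum_ite_eq',
      if_pos (Finset.mem_Ioi.2 hae), hVa]
    have hZ : Z1 = fun j => IsScalarTower.toAlgHom k M N (Z0 j) := rfl
    rw [hZ]
    change _ = algebraMap M N (V0 a) ^ (p ^ f) - algebraMap M N (V0 a) + _ + _
    ring
  have hΦ : (P2 p f g a δ hδ).Φ c = psi (p ^ f) a X0 V0 Z0 := rfl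
  have hx0tr : Algebra.trdeg k (ratioField k ((P2 p f g a δ hδ).Φ c)) = s := by
    rw [Param.tdeg_ratioField hU, hs]
  refine mem_of_T hM (x := psi (p ^ f) a X1 V1 Z1) (isPt_psi g a hme1) V hV _ hx0tr ?_ ?_
  · intro w φ hTm hT0 hφ
    have hτ : τ ∈ w.ring ∧ w.res τ = - φ (X0 e) := by
      refine ⟨neg_mem (hφ _).1, ?_⟩
      simp only [τ]
      rw [w.res_neg (hφ _).1, (hφ _).2]
    have hnum : num ∈ w.ring ∧ w.res num = φ (X0 e) := by
      have h1 : τ ^ (p ^ f) * T ^ (p ^ f - 1) ∈ w.ring :=
        mul_mem (pow_mem hτ.1 _) (pow_mem hTm _)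
      refine ⟨sub_mem h1 hτ.1, ?_⟩
      simp only [num]
      rw [w.res_sub h1 hτ.1, w.res_mul (pow_mem hτ.1 _) (pow_mem hTm _), w.res_pow hTm, hT0,
        zero_pow (by omega), mul_zero, hτ.2]
      ring
    have hden : den ∈ w.ring ∧ w.res den = -1 := by
      refine ⟨sub_mem (pow_mem hTm _) (one_mem _), ?_⟩
      simp only [den]
      rw [w.res_sub (pow_mem hTm _) (one_mem _), w.res_pow hTm, hT0, zero_pow (by omega),
        w.res_one, zero_sub]
    have hdv : w.val den = 1 := by
      rw [← res_ne_zero_iff w hden.1, hden.2]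
      exact neg_ne_zero.2 one_ne_zero
    have hnd := res_div w hnum.1 hdv
    have hX1 : ∀ i, X1 i ∈ w.ring ∧ w.res (X1 i) = φ (X0 i) := by
      intro i
      simp only [X1]
      split_ifs with h
      · subst h
        refine ⟨neg_mem hnd.1, ?_⟩
        rw [w.res_neg hnd.1, hnd.2, hnum.2, hden.2, div_neg, div_one, neg_neg]
      · exact hφ _
    have hV1 : ∀ i, V1 i ∈ w.ring ∧ w.res (V1 i) = φ (V0 i) := by
      intro i
      simp only [V1]
      split_ifs with h h'
      · subst h
        refine ⟨add_mem (hφ _).1 hTm, ?_⟩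
        rw [w.res_add (hφ _).1 hTm, hT0, add_zero, (hφ _).2]
      · subst h'
        refine ⟨add_mem (hφ _).1 (mul_mem hτ.1 hTm), ?_⟩
        rw [w.res_add (hφ _).1 (mul_mem hτ.1 hTm), w.res_mul hτ.1 hTm, hT0, mul_zero, add_zero,
          (hφ _).2]
      · exact hφ _
    have h1 := spec_psi_mk (k := k) (p ^ f) a w (X := X1) (V := V1) (Z := Z1)
      (fun i _ => (hX1 i).1) (fun i => (hV1 i).1) (fun j => (hφ _).1)
    have h2 : (fun i => w.res (X1 i)) = fun i => φ (X0 i) := funext fun i => (hX1 i).2
    have h3 : (fun i => w.res (V1 i)) = fun i => φ (V0 i) := funext fun i => (hV1 i).2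
    have h4 : (fun j => w.res (Z1 j)) = fun j => φ (Z0 j) := funext fun j => (hφ _).2
    rw [h2, h3, h4] at h1
    have h5 : (fun j => φ ((P2 p f g a δ hδ).Φ c j)) =
        psi (p ^ f) a (fun i => φ (X0 i)) (fun i => φ (V0 i)) (fun j => φ (Z0 j)) := by
      funext j
      exact psi_map (p ^ f) a (φ : M →+* w.resField) X0 V0 Z0 j
    rw [h5]
    exact h1
  · intro w y hy hord htr
    haveI : CharP w.resField p := charP_ext (k := k) p w.resField
    have hpty : IsPt {hform l κ (p ^ f) g} y :=
      hy.isPt (by rintro P rfl; exact ⟨_, hform_homogeneous _ _⟩) (isPt_psi g a hme1)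
    by_cases hya : y (Sum.inl a) = 0
    · left
      refine hW _ _ _ y hpty htr fun i hi => ?_
      rcases hi.lt_or_eq with hi | rfl
      · exact spec_psi_lt (p ^ f) a w hy hi
      · exact hya
    · obtain ⟨h1, h2, h3, h4⟩ := spec_psi (pow_pos hp.out.pos f) a w hy hya
      have hVe1 : V1 e = algebraMap M N (V0 e) + T := by simp only [V1, if_true]
      have hcm : algebraMap M N (V0 e) ∈ w.ring ∧
          w.res (algebraMap M N (V0 e)) = algebraMap k w.resField (δ e) := by
        rw [hVe, ← IsScalarTower.algebraMap_apply]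
        exact ⟨w.ring.algebraMap_mem _, w.res_algebraMap _⟩
      have hTm : T ∈ w.ring := by
        have h5 := sub_mem (h2 e) hcm.1
        rwa [hVe1, add_sub_cancel_left] at h5
      have hord' : 0 < w.ord T := by
        have h6 : 0 ≤ w.ord T := (w.ord_nonneg_iff (RatFunc.X_ne_zero (K := M))).2 hTm
        have h7 : w.ord T ≠ 0 := hord
        omega
      have hT0 : w.res T = 0 := (w.res_eq_zero_iff hTm).2
        ((w.ord_pos_iff (RatFunc.X_ne_zero (K := M))).1 hord')
      have hme2 := me_res (p ^ f) g a w h1 h2 h3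
      rw [hme1, w.res_zero] at hme2
      have hV2 : ∀ i, a < i → w.res (V1 i) = algebraMap k w.resField (δ i) := by
        intro i hi
        by_cases hie : i = e
        · subst hie
          rw [hVe1, w.res_add hcm.1 hTm, hT0, add_zero, hcm.2]
        · simp only [V1, if_neg hie, if_neg hi.ne']
          have h8 : V0 i = algebraMap k M (δ i) := hU.2.1 i hi
          rw [h8, ← IsScalarTower.algebraMap_apply, w.res_algebraMap]
      let y' : Fin l ⊕ Fin l ⊕ κ → w.resField := psi (p ^ f) a (fun i => w.res (X1 i))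
        (fun i => w.res (V1 i)) (fun i => w.res (Z1 i))
      have hyy : homIdeal k y = homIdeal k y' := by
        rw [h4]
        exact homIdeal_scale y' hya
      have hyr : Algebra.trdeg k (ratioField k y') = s := by
        rw [← htr, h4]
        rw [ratioField_scale y' hya]
      have hc2 := U2_of_me (κ := κ) hδ hme2.2.symm hV2
      have hc2' : (P2 p f g a δ hδ).Φ (Sum.elim (fun i => if i ≤ a then 0 else w.res (X1 i))
          (Sum.elim (fun i => w.res (V1 i)) fun i => w.res (Z1 i))) = y' := by
        refine psi_congr _ _ (fun i hi => ?_) (fun _ => rfl) (fun _ => rfl)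
        simp only [Sum.elim_inl, if_neg (not_le.2 hi)]
      have hr2 := hyr
      rw [← hc2', Param.tdeg_ratioField hc2, Nat.cast_inj] at hr2
      rcases hrest _ _ _ _ hc2 hr2 with h | h
      · left
        rw [hyy, ← hc2']
        exact h
      · right
        refine ⟨hord', ?_⟩
        rw [hyy, ← hc2']
        exact h

theorem ncard_D2 (p f : ℕ) [hp : Fact p.Prime] [CharP k p] (g : k) (a : Fin l)
    (δ : Fin l → k) (hδ : ∀ i, δ i ^ ((p ^ f) ^ 2) = δ i) :
    (P2 (κ := κ) p f g a δ hδ).D.ncard + 1 = l := by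
  classical
  have h1 : (P2 (κ := κ) p f g a δ hδ).D =
      (fun i : Fin l => if a < i then (Sum.inl i : Fin l ⊕ Fin l ⊕ κ) else
        Sum.inr (Sum.inl i)) '' {a}ᶜ := by
    ext x
    constructor
    · rintro (⟨i, rfl, hi⟩ | ⟨i, rfl, hi⟩)
      · exact ⟨i, hi.ne', by simp only [if_pos hi]⟩
      · exact ⟨i, hi.ne, by simp only [if_neg hi.not_gt]⟩
    · rintro ⟨i, hi, rfl⟩
      by_cases h : a < i
      · simp only [if_pos h]
        exact Or.inl ⟨i, rfl, h⟩
      · simp only [if_neg h]
        exact Or.inr ⟨i, rfl, lt_of_le_of_ne (not_lt.1 h) hi⟩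
  rw [h1, Set.ncard_image_of_injective]
  · have h2 := Set.ncard_add_ncard_compl ({a} : Set (Fin l))
    rw [Set.ncard_singleton, Nat.card_eq_fintype_card, Fintype.card_fin] at h2
    omega
  · intro i j hij
    simp only at hij
    split_ifs at hij with h h' h'
    · exact Sum.inl_injective hij
    · exact Sum.inl_injective (Sum.inr_injective hij)

theorem tdeg_const {N : Type} [Field N] [Algebra k N] {S : Set N} (hS : S.Finite)
    (h : ∀ a ∈ S, ∃ d : k, algebraMap k N d = a) : tdeg k S = 0 := by
  have h1 := tdeg_union_of_algebraic (K := k) (S := (∅ : Set N)) (T := S) Set.finite_empty hS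
    (by
      intro a ha
      obtain ⟨d, rfl⟩ := h a ha
      rw [IsScalarTower.algebraMap_apply k (IntermediateField.adjoin k (∅ : Set N)) N]
      exact isAlgebraic_algebraMap _)
  rw [Set.empty_union] at h1
  rw [h1, tdeg_eq_iff Set.finite_empty, IntermediateField.adjoin_empty,
    (IntermediateField.botEquiv k N).trdeg_eq]
  exact trdeg_eq_zero

/-- Type II, no variable `Z`: `v_a` is in the field with `q` elements. Generators: the linear
spaces `(P2 ..).fund (e1 κ δ)` with `δ a ≠ 0` or `a` the last index, of dimension `l - 1`. -/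
theorem stepII0 [IsEmpty κ] {p f : ℕ} [hp : Fact p.Prime] [CharP k p] (hf : 0 < f) {g : k}
    (hk : ∀ (N : Type) (_ : Field N) (_ : Algebra k N) (x : N), x ^ ((p ^ f) ^ 2) = x →
      ∃ d : k, algebraMap k N d = x) (a : Fin l)
    {s : ℕ} (V : Submodule ℚ (Ideal (MvPolynomial (Fin l ⊕ Fin l ⊕ κ) k) →₀ ℚ))
    (hV : rat {hform l κ (p ^ f) g} s ≤ V) (hW : WW (p ^ f) g κ s a V)
    (hgen : ∀ (δ : Fin l → k) (hδ : ∀ i, δ i ^ ((p ^ f) ^ 2) = δ i), δ a ^ (p ^ f) = δ a →
      δ a ≠ 0 ∨ a.val + 1 = l → (∀ i, i < a → δ i = 0) → s + 1 = l →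
      Finsupp.single ((P2 p f g a δ hδ).fund (e1 κ δ)) 1 ∈ V) :
    CC (p ^ f) g κ s a l V := by
  classical
  intro N _ _ X v Z hme htr hv
  have hq2 : (p ^ f) ^ 2 ≠ 0 := (pow_pos (pow_pos hp.out.pos f) 2).ne'
  -- the constants of a point
  have hconst : ∀ (E : Type) (_ : Field E) (_ : Algebra k E) (b : E), b ^ (p ^ f) = b →
      ∃ d : k, algebraMap k E d = b ∧ d ^ (p ^ f) = d ∧ d ^ ((p ^ f) ^ 2) = d := by
    intro E _ _ b hb
    have h1 : b ^ ((p ^ f) ^ 2) = b := by rw [sq, pow_mul, hb, hb]
    obtain ⟨d, hd⟩ := hk E inferInstance inferInstance b h1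
    refine ⟨d, hd, ?_, ?_⟩
    · apply (algebraMap k E).injective
      rw [map_pow, hd, hb]
    · apply (algebraMap k E).injective
      rw [map_pow, hd, h1]
  have hva : v a ^ (p ^ f) = v a := by
    have h1 := hme
    unfold me at h1
    rw [Finset.univ_eq_empty, Finset.sum_empty, mul_zero, add_zero, Finset.sum_eq_zero,
      add_zero, sub_eq_zero] at h1
    · exact h1
    · intro j hj
      rw [hv j (Finset.mem_Ioi.1 hj) j.2, sub_self, mul_zero]
  have hd : ∀ i, ∃ d : k, (a < i → algebraMap k N d = v i) ∧ d ^ ((p ^ f) ^ 2) = d := by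
    intro i
    by_cases hi : a < i
    · obtain ⟨d, hd⟩ := hk N _ _ (v i) (hv i hi i.2)
      refine ⟨d, fun _ => hd, ?_⟩
      apply (algebraMap k N).injective
      rw [map_pow, hd, hv i hi i.2]
    · exact ⟨0, fun h => absurd h hi, zero_pow hq2⟩
  choose δ hδv hδ using hd
  -- points of the stratum of full dimension
  have key : ∀ (E : Type) (_ : Field E) (_ : Algebra k E) (d : Fin l ⊕ Fin l ⊕ κ → E),
      (P2 p f g a δ hδ).U d → tdeg k (d '' (P2 p f g a δ hδ).Dᶜ) = 0 ∧
      (tdeg k (Set.range d) = s → (P2 (κ := κ) p f g a δ hδ).D.ncard = s →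
      Finsupp.single (homIdeal k ((P2 p f g a δ hδ).Φ d)) 1 ∈ V ∨
      (¬ a.val + 1 = l ∧ homIdeal k ((P2 p f g a δ hδ).Φ d) = (P2 (κ := κ) p f g a δ hδ).fund
        (e1 κ fun i => if a < i then δ i else 0))) := by
    intro E _ _ d hd
    have hda : d (Sum.inr (Sum.inl a)) ^ (p ^ f) = d (Sum.inr (Sum.inl a)) := by
      have h1 := hd.2.2
      rw [Finset.univ_eq_empty, Finset.sum_empty, mul_zero, add_zero, sub_eq_zero] at h1
      exact h1
    obtain ⟨da, h1, h2, h3⟩ := hconst E _ _ _ hda
    let δ' : Fin l → k := fun i => if a < i then δ i else if i = a then da else 0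
    have hδ'a : δ' a = da := by simp only [δ', lt_irrefl, if_false, if_true]
    have hδ'gt : ∀ i, a < i → δ' i = δ i := fun i hi => by simp only [δ', if_pos hi]
    have hδ'lt : ∀ i, i < a → δ' i = 0 := fun i hi => by
      simp only [δ', if_neg hi.not_gt, if_neg hi.ne]
    have hδ' : ∀ i, δ' i ^ ((p ^ f) ^ 2) = δ' i := by
      intro i
      rcases lt_trichotomy i a with hi | rfl | hi
      · rw [hδ'lt i hi, zero_pow hq2]
      · rw [hδ'a, h3]
      · rw [hδ'gt i hi, hδ]
    have he : ∀ i, i ∉ (P2 (κ := κ) p f g a δ hδ).D → d i = algebraMap k E (e1 κ δ' i) := by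
      rintro (i | i | j) hi
      · have h4 : i ≤ a := by
          by_contra hcon
          exact hi (Or.inl ⟨i, rfl, not_le.1 hcon⟩)
        rw [hd.1 i h4]
        simp only [e1, Sum.elim_inl, map_zero]
      · have h4 : a ≤ i := by
          by_contra hcon
          exact hi (Or.inr ⟨i, rfl, not_le.1 hcon⟩)
        simp only [e1, Sum.elim_inl, Sum.elim_inr]
        rcases h4.lt_or_eq with h4 | rfl
        · rw [hδ'gt i h4]
          exact hd.2.1 i h4
        · rw [hδ'a, h1]
      · exact (IsEmpty.false j).elim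
    have hD0 : tdeg k (d '' (P2 p f g a δ hδ).Dᶜ) = 0 := by
      refine tdeg_const ((Set.toFinite _).image d) ?_
      rintro _ ⟨i, hi, rfl⟩
      exact ⟨_, (he i hi).symm⟩
    refine ⟨hD0, fun hds hdD => ?_⟩
    have hfund := Param.fund_eq hd he (by rw [hds, hdD])
    have hsl : s + 1 = l := by
      rw [← hdD]
      exact ncard_D2 p f g a δ hδ
    by_cases hcase : δ' a ≠ 0 ∨ a.val + 1 = l
    · left
      rw [hfund]
      exact hgen δ' hδ' (by rw [hδ'a, h2]) hcase hδ'lt hsl
    · right
      rw [not_or, not_not] at hcase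
      refine ⟨hcase.2, ?_⟩
      rw [hfund]
      congr 2
      funext i
      rcases lt_trichotomy i a with hi | rfl | hi
      · rw [hδ'lt i hi, if_neg hi.not_gt]
      · rw [hcase.1, if_neg (lt_irrefl i)]
      · rw [hδ'gt i hi, if_pos hi]
  have hc := U2_of_me (κ := κ) hδ hme (fun i hi => (hδv i hi).symm)
  have hc' : (P2 p f g a δ hδ).Φ (Sum.elim (fun i => if i ≤ a then 0 else X i)
      (Sum.elim v Z)) = psi (p ^ f) a X v Z := by
    refine psi_congr _ _ (fun i hi => ?_) (fun _ => rfl) (fun _ => rfl)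
    simp only [Sum.elim_inl, if_neg (not_le.2 hi)]
  rw [← hc', Param.tdeg_ratioField hc, Nat.cast_inj] at htr
  rw [← hc']
  refine (P2 p f g a δ hδ).move (by rintro P rfl; exact ⟨_, hform_homogeneous _ _⟩) hV ?_ ?_ _ hc
    htr
  · rintro Q hQ ⟨E, _, _, y, h1, rfl, h2⟩
    refine hW E _ _ y h1 ?_ h2
    have h3 := hQ.dim
    rw [trdeg_cone h1.1] at h3
    exact Cardinal.add_one_inj.1 h3
  · intro E _ _ d hd hds hdD
    rw [(key E _ _ d hd).1, zero_add] at hdD
    rcases (key E _ _ d hd).2 hds hdD with h | ⟨hlast, hfd⟩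
    · exact h
    -- the relation
    have hae : ∃ e : Fin l, a < e := ⟨⟨l - 1, by have := a.2; (clear * - g s X v Z hδ d this; omega)⟩, by
      rw [Fin.lt_def]
      have := a.2
      change a.val < l - 1
      omega⟩
    obtain ⟨e, hae⟩ := hae
    set L := IntermediateField.adjoin k (Set.range d) with hL
    let d0 : Fin l ⊕ Fin l ⊕ κ → L := fun i => ⟨d i, IntermediateField.subset_adjoin k _ ⟨i, rfl⟩⟩
    have e1' : (fun i => L.val (d0 i)) = d := rfl
    have hU0 : (P2 p f g a δ hδ).U d0 := by
      rw [← (P2 p f g a δ hδ).natU L.val, e1']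
      exact hd
    have hid : homIdeal k ((P2 p f g a δ hδ).Φ d) = homIdeal k ((P2 p f g a δ hδ).Φ d0) := by
      rw [← Param.homIdeal_nat L.val hU0, e1']
    have ht0 : tdeg k (Set.range d0) = s := by
      rw [← hds, ← tdeg_image L.val, ← Set.range_comp]
      rfl
    haveI : Algebra.EssFiniteType k L := by
      rw [IntermediateField.essFiniteType_iff]
      exact IntermediateField.fg_adjoin_of_finite (Set.finite_range d)
    have htL : Algebra.trdeg k L = s := by
      rw [hL, tdeg_spec (Set.finite_range d), hds]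
    rw [hid]
    refine relII hf hae δ hδ V hV hW htL d0 hU0 ht0 ?_
    intro E' _ _ c' hc'U hc's
    rcases (key E' _ _ c' hc'U).2 hc's hdD with h | ⟨-, h⟩
    · exact Or.inl h
    · right
      rw [h, ← hid, hfd]

end Pool.Agent.HC
end

/- Helper16.DP.HC.HV7 -/
section
set_option autoImplicit false
set_option linter.style.haveILetI false
set_option linter.unusedSectionVars false

/-! Project HC, part H: the induction step for the strata of type I. -/

namespace Pool.Agent.HC

open Pool.Agent.Helper16 IntermediateField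

/-- Coordinates with values in the field which they generate. -/
theorem exists_shrink {K : Type} [Field K] {ι : Type} [Finite ι] {N : Type} [Field N] [Algebra K N]
    (c : ι → N) {s : ℕ} (hs : tdeg K (Set.range c) = s) :
    ∃ (M : Type) (_ : Field M) (_ : Algebra K M) (c0 : ι → M) (φ : M →ₐ[K] N),
      Algebra.EssFiniteType K M ∧ Algebra.trdeg K M = s ∧ tdeg K (Set.range c0) = s ∧
        c = fun i => φ (c0 i) := by
  let M := IntermediateField.adjoin K (Set.range c)
  let c0 : ι → M := fun i => ⟨c i, IntermediateField.subset_adjoin K _ ⟨i, rfl⟩⟩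
  have hfg : M.FG := by
    refine ⟨(Set.finite_range c).toFinset, ?_⟩
    rw [Set.Finite.coe_toFinset]
  refine ⟨M, inferInstance, inferInstance, c0, M.val, ?_, ?_, ?_, rfl⟩
  · exact IntermediateField.essFiniteType_iff.2 hfg
  · rw [← hs]
    exact tdeg_spec (Set.finite_range c)
  · rw [← hs, ← tdeg_image M.val (Set.range c0)]
    congr 1
    rw [← Set.range_comp]
    rfl

theorem tdeg_eq_zero_of_const {K : Type} [Field K] {N : Type} [Field N] [Algebra K N] {S : Set N}
    (h : ∀ a ∈ S, ∃ e : K, algebraMap K N e = a) : tdeg K S = 0 := by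
  unfold tdeg
  have h1 : IntermediateField.adjoin K S = ⊥ := by
    rw [eq_bot_iff, IntermediateField.adjoin_le_iff]
    intro a ha
    obtain ⟨e, rfl⟩ := h a ha
    exact IntermediateField.algebraMap_mem _ _
  rw [h1]
  have h2 : Algebra.trdeg K (⊥ : IntermediateField K N) = 0 := trdeg_eq_zero
  rw [h2, map_zero]

variable {k : Type} [Field k] {l : ℕ} {κ : Type} [Fintype κ]

theorem hform_hom (q : ℕ) (g : k) : ∀ F ∈ ({hform l κ q g} : Set (MvPolynomial _ k)),
    ∃ d, F.IsHomogeneous d := by
  rintro P rfl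
  exact ⟨_, hform_homogeneous _ _⟩

theorem trdeg_of_isSub {σ : Type} {I : Set (MvPolynomial σ k)} {s : ℕ} {N : Type} [Field N]
    [Algebra k N] {y : σ → N} (hy : y ≠ 0) (h : IsSub I s (homIdeal k y)) :
    Algebra.trdeg k (ratioField k y) = s := by
  have h1 := h.dim
  rw [trdeg_cone hy] at h1
  exact Cardinal.add_one_inj.1 h1

/-- The ideal of the plane section `X_i = 0`, `i < a`, where `b = a + 1`. -/
noncomputable def PS (p f : ℕ) [hp : Fact p.Prime] [CharP k p] (g : k) (κ : Type) [Fintype κ]
    (a b : Fin l) (hab : a < b) : Ideal (MvPolynomial (Fin l ⊕ Fin l ⊕ κ) k) :=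
  (P1 (κ := κ) p f g a b hab (fun _ => 0)).fund (e1 κ fun _ => 0)

theorem stepI {p f : ℕ} [hp : Fact p.Prime] [CharP k p] {g : k}
    (hk : ∀ (N : Type) (_ : Field N) (_ : Algebra k N) (x : N), x ^ ((p ^ f) ^ 2) = x →
      ∃ d : k, algebraMap k N d = x) {a b : Fin l} (hab : a < b) {s : ℕ}
    (V : Submodule ℚ (Ideal (MvPolynomial (Fin l ⊕ Fin l ⊕ κ) k) →₀ ℚ))
    (hV : rat {hform l κ (p ^ f) g} s ≤ V) (hW : WW (p ^ f) g κ s a V)
    (hC : CC (p ^ f) g κ s a (b.val + 1) V)
    (hgen : a.val + 1 = b.val →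
      (P1 (κ := κ) p f g a b hab (fun _ => 0)).D.ncard = s →
      Finsupp.single (PS p f g κ a b hab) 1 ∈ V) :
    CC (p ^ f) g κ s a b.val V := by
  classical
  intro N _ _ X v Z hme htr hv
  haveI : CharP N p := charP_ext (k := k) p N
  by_cases hvb : v b ^ ((p ^ f) ^ 2) = v b
  · refine hC N _ _ X v Z hme htr fun i hi hi' => ?_
    by_cases hib : i = b
    · rw [hib, hvb]
    · exact hv i hi (by
        have : i.val ≠ b.val := fun h => hib (Fin.ext h)
        omega)
  · have hex : ∀ i : Fin l, ∃ d : k, d ^ ((p ^ f) ^ 2) = d ∧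
        (a < i → i < b → v i = algebraMap k N d) := by
      intro i
      by_cases hi : a < i ∧ i < b
      · obtain ⟨d, hd⟩ := hk N _ _ (v i) (hv i hi.1 hi.2)
        refine ⟨d, ?_, fun _ _ => hd.symm⟩
        have h1 := hv i hi.1 hi.2
        rw [← hd, ← map_pow] at h1
        exact (algebraMap k N).injective h1
      · refine ⟨0, zero_pow (pow_pos (pow_pos hp.out.pos f) 2).ne', fun h1 h2 => ?_⟩
        exact absurd ⟨h1, h2⟩ hi
    choose δ hδ hδv using hex
    -- for `b = a + 1` take the constants zero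
    obtain ⟨δ', hδ', hδ'v, hδ'0⟩ : ∃ δ' : Fin l → k, (∀ i, δ' i ^ ((p ^ f) ^ 2) = δ' i) ∧
        (∀ i, a < i → i < b → v i = algebraMap k N (δ' i)) ∧
        (a.val + 1 = b.val → δ' = fun _ => 0) := by
      by_cases h : a.val + 1 = b.val
      · refine ⟨fun _ => 0, fun _ => zero_pow (pow_pos (pow_pos hp.out.pos f) 2).ne', ?_,
          fun _ => rfl⟩
        intro i hi hi'
        rw [Fin.lt_def] at hi hi'
        omega
      · exact ⟨δ, hδ, fun i hi hi' => hδv i hi hi', fun h' => absurd h' h⟩
    obtain ⟨c, hU, hΦ, -⟩ := exists_strat1 (p := p) (f := f) hab δ' hme hδ'v hvb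
    have htd : tdeg k (Set.range c) = s := by
      have h1 := Param.tdeg_ratioField hU
      rw [hΦ, htr] at h1
      exact_mod_cast h1.symm
    rw [← hΦ]
    refine Param.move _ (hform_hom _ _) hV ?_ ?_ c hU htd
    · rintro Q hQ ⟨N', _, _, y, hpt, rfl, h⟩
      have hys := trdeg_of_isSub hpt.1 hQ
      rcases h with h | ⟨X', V', Z', rfl, h1, h2⟩
      · exact hW N' _ _ y hpt hys h
      · haveI : CharP N' p := charP_ext (k := k) p N'
        refine hC N' _ _ X' V' Z' ?_ hys fun i hi hi' => ?_
        · have := hpt.2 _ rfl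
          rwa [aeval_hform, hval_psi] at this
        · by_cases hib : i = b
          · rw [hib, h2]
          · have hib' : i < b := lt_of_le_of_ne (by rw [Fin.le_def]; omega) hib
            rw [h1 i hi hib', ← map_pow, hδ']
    · intro N' _ _ d hUd hd1 hd2
      have he : ∀ i, i ∉ (P1 (κ := κ) p f g a b hab δ').D →
          d i = algebraMap k N' (e1 κ δ' i) := by
        rintro (i | i | j) hi
        · have h1 : i ≤ a ∨ i = b := by
            by_contra hcon
            push Not at hcon
            exact hi (Or.inl ⟨i, rfl, hcon.1, hcon.2⟩)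
          rw [hUd.1 i h1]
          simp only [e1, Sum.elim_inl, map_zero]
        · have h1 : a < i ∧ i < b := by
            by_contra hcon
            apply hi
            refine Or.inr (Or.inl ⟨i, rfl, ?_⟩)
            by_contra hcon2
            push Not at hcon2
            exact hcon hcon2
          exact hUd.2.1 i h1.1 h1.2
        · exact absurd (Or.inr (Or.inr ⟨j, rfl⟩)) hi
      have h0 : tdeg k (d '' (P1 (κ := κ) p f g a b hab δ').Dᶜ) = 0 := by
        refine tdeg_eq_zero_of_const ?_
        rintro _ ⟨i, hi, rfl⟩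
        exact ⟨_, (he i hi).symm⟩
      rw [h0, zero_add] at hd2
      by_cases hab1 : a.val + 1 = b.val
      · obtain rfl := hδ'0 hab1
        rw [Param.fund_eq hUd he (by rw [hd1, hd2])]
        exact hgen hab1 hd2
      · obtain ⟨M, _, _, c0, φ, hM1, hM2, hM3, rfl⟩ := exists_shrink d hd1
        have hU0 : (P1 (κ := κ) p f g a b hab δ').U c0 := (Param.natU _ φ c0).1 hUd
        rw [Param.homIdeal_nat φ hU0]
        have hlt := Fin.lt_def.1 hab
        have hb0 : 0 < b.val := by omega
        let b' : Fin l := ⟨b.val - 1, by have := b.isLt; omega⟩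
        have hb' : b'.val + 1 = b.val := by
          change b.val - 1 + 1 = b.val
          omega
        have hab' : a < b' := by
          rw [Fin.lt_def]
          change a.val < b.val - 1
          omega
        exact relI hab hab' hb' δ' hδ' V hV hW hC hM2 c0 hU0 hM3 hd2

end Pool.Agent.HC
end

/- Helper16.DP.HC.HV10 -/
section
set_option autoImplicit false
set_option linter.style.haveILetI false
set_option linter.unusedSectionVars false

/-! Project HC, part H: identification of one generator by a hyperplane section. -/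

namespace Pool.Agent.HC

open Pool.Agent.Helper16 IntermediateField

variable {k : Type} [Field k] {l : ℕ} {κ : Type} [Fintype κ]

open scoped Classical in
theorem hval_add {q : ℕ} (hq : 0 < q) (g : k) {R : Type} [CommRing R] [Algebra k R]
    (x : Fin l ⊕ Fin l ⊕ κ → R) (a' : Fin l) (h0 : x (Sum.inl a') = 0) (T : R) :
    hval q g (fun j => x j + if j = Sum.inl a' then T else 0) =
      hval q g x + (T * x (Sum.inr (Sum.inl a')) ^ q - T ^ q * x (Sum.inr (Sum.inl a'))) := by
  unfold hval
  have h1 : ∀ i : Fin l,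
      ((x (Sum.inl i) + if (Sum.inl i : Fin l ⊕ Fin l ⊕ κ) = Sum.inl a' then T else 0) *
        (x (Sum.inr (Sum.inl i)) + if (Sum.inr (Sum.inl i) : Fin l ⊕ Fin l ⊕ κ) = Sum.inl a' then T
          else 0) ^ q -
        (x (Sum.inl i) + if (Sum.inl i : Fin l ⊕ Fin l ⊕ κ) = Sum.inl a' then T else 0) ^ q *
        (x (Sum.inr (Sum.inl i)) + if (Sum.inr (Sum.inl i) : Fin l ⊕ Fin l ⊕ κ) = Sum.inl a' then T
          else 0)) =
      (x (Sum.inl i) * x (Sum.inr (Sum.inl i)) ^ q -
        x (Sum.inl i) ^ q * x (Sum.inr (Sum.inl i))) +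
      (if i = a' then (T * x (Sum.inr (Sum.inl a')) ^ q - T ^ q * x (Sum.inr (Sum.inl a')))
        else 0) := by
    intro i
    by_cases hi : i = a'
    · subst hi
      simp only [if_true, h0, reduceCtorEq, if_false, zero_add, add_zero, zero_pow hq.ne', zero_mul,
        sub_zero]
    · have h2 : (Sum.inl i : Fin l ⊕ Fin l ⊕ κ) ≠ Sum.inl a' := fun h => hi (Sum.inl_injective h)
      simp only [if_neg hi, if_neg h2, reduceCtorEq, if_false, add_zero]
  rw [Finset.sum_congr rfl fun i _ => h1 i, Finset.sum_add_distrib, Finset.sum_ite_eq',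
    if_pos (Finset.mem_univ a')]
  have h3 : ∀ j : κ, (x (Sum.inr (Sum.inr j)) +
      if (Sum.inr (Sum.inr j) : Fin l ⊕ Fin l ⊕ κ) = Sum.inl a' then T else 0) ^ (q + 1) =
      x (Sum.inr (Sum.inr j)) ^ (q + 1) := by
    intro j
    simp only [reduceCtorEq, if_false, add_zero]
  rw [Finset.sum_congr rfl fun j _ => h3 j]
  ring

theorem ident {p f : ℕ} [hp : Fact p.Prime] [CharP k p] {g : k} {a a' : Fin l} (ha : a' < a)
    {s : ℕ} (V : Submodule ℚ (Ideal (MvPolynomial (Fin l ⊕ Fin l ⊕ κ) k) →₀ ℚ))
    (hV : rat {hform l κ (p ^ f) g} s ≤ V) {L : MvPolynomial (Fin l ⊕ Fin l ⊕ κ) k}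
    (hL : L.IsHomogeneous 1)
    (hcut : ∀ Q, IsSub {hform l κ (p ^ f) g} s Q → L ∈ Q → Finsupp.single Q 1 ∈ V)
    {M : Type} [Field M] [Algebra k M] [Algebra.EssFiniteType k M]
    (hM : Algebra.trdeg k M = s) (X v : Fin l → M) (Z : κ → M) (u : M)
    (hme : me (p ^ f) g a X v Z = 0) (hu : v a' = u ^ (p ^ f)) (hu2 : u ^ ((p ^ f) ^ 2) ≠ u)
    (htr : Algebra.trdeg k (ratioField k (psi (p ^ f) a X v Z)) = s)
    (hne : MvPolynomial.aeval (psi (p ^ f) a X v Z) L ≠ 0)
    (hrest : ∀ (N : Type) (_ : Field N) (_ : Algebra k N) (y : Fin l ⊕ Fin l ⊕ κ → N),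
      IsPt {hform l κ (p ^ f) g} y → Algebra.trdeg k (ratioField k y) = s →
      (∀ i, i < a' → y (Sum.inl i) = 0) → y (Sum.inl a') = 0 →
      Finsupp.single (homIdeal k y) 1 ∈ V ∨ homIdeal k y = homIdeal k (psi (p ^ f) a X v Z)) :
    Finsupp.single (homIdeal k (psi (p ^ f) a X v Z)) 1 ∈ V := by
  classical
  haveI : CharP M p := charP_ext (k := k) p M
  haveI : CharP (RatFunc M) p := charP_ext (k := k) p (RatFunc M)
  have hq : 0 < p ^ f := pow_pos hp.out.pos f
  let N := RatFunc M
  let T' : N := RatFunc.X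
  let den : M := u ^ ((p ^ f) ^ 2) - u
  have hden : den ≠ 0 := sub_ne_zero.2 hu2
  have hden' : algebraMap M N den ≠ 0 := by
    rwa [Ne, map_eq_zero]
  let T : N := (T' - T' ^ (p ^ f)) / algebraMap M N den
  let x0 : Fin l ⊕ Fin l ⊕ κ → M := psi (p ^ f) a X v Z
  let X1 : Fin l → N := fun i => algebraMap M N (X i)
  let V1 : Fin l → N := fun i => algebraMap M N (v i) +
    if i = a then T * algebraMap M N u + T' else 0
  let Z1 : κ → N := fun i => algebraMap M N (Z i)
  let x1 : Fin l ⊕ Fin l ⊕ κ → N := psi (p ^ f) a X1 V1 Z1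
  let x : Fin l ⊕ Fin l ⊕ κ → N := fun j => x1 j + if j = Sum.inl a' then T else 0
  have hTd : T * algebraMap M N den = T' - T' ^ (p ^ f) := div_mul_cancel₀ _ hden'
  have hx1a' : x1 (Sum.inl a') = 0 := psi_X_lt _ _ _ _ _ ha
  have hxa' : x (Sum.inl a') = T := by
    simp only [x, if_true, hx1a', zero_add]
  have hxj : ∀ j, j ≠ Sum.inl a' → x j = x1 j := by
    intro j hj
    simp only [x, if_neg hj, add_zero]
  have hxa : x (Sum.inl a) = 1 := by
    rw [hxj _ (fun h => ha.ne' (Sum.inl_injective h))]
    exact psi_X_self _ _ _ _ _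
  have hxlt : ∀ i, i < a' → x (Sum.inl i) = 0 := by
    intro i hi
    rw [hxj _ (fun h => hi.ne (Sum.inl_injective h))]
    exact psi_X_lt _ _ _ _ _ (hi.trans ha)
  have hme1 : me (p ^ f) g a X1 V1 Z1 = (T * algebraMap M N u + T') ^ (p ^ f) -
      (T * algebraMap M N u + T') := by
    have h0 := congrArg (algebraMap M N) hme
    rw [map_zero] at h0
    have h1 := me_map (p ^ f) g a (IsScalarTower.toAlgHom k M N) X v Z
    have h2 : IsScalarTower.toAlgHom k M N (me (p ^ f) g a X v Z) = 0 := h0
    rw [h2] at h1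
    have h3 : me (p ^ f) g a X1 V1 Z1 = me (p ^ f) g a (fun i => IsScalarTower.toAlgHom k M N (X i))
        (fun i => IsScalarTower.toAlgHom k M N (v i))
        (fun i => IsScalarTower.toAlgHom k M N (Z i)) +
        ((T * algebraMap M N u + T') ^ (p ^ f) - (T * algebraMap M N u + T')) := by
      unfold me
      have hVa : V1 a = algebraMap M N (v a) + (T * algebraMap M N u + T') := by
        simp only [V1, if_true]
      have hVj : ∀ j ∈ Finset.Ioi a, X1 j * (V1 j ^ ((p ^ f) ^ 2) - V1 j) =
          IsScalarTower.toAlgHom k M N (X j) * (IsScalarTower.toAlgHom k M N (v j) ^ ((p ^ f) ^ 2) -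
            IsScalarTower.toAlgHom k M N (v j)) := by
        intro j hj
        have hj' : j ≠ a := (Finset.mem_Ioi.1 hj).ne'
        simp only [V1, if_neg hj', add_zero]
        rfl
      rw [Finset.sum_congr rfl hVj, hVa, add_pow_char_pow]
      change _ = algebraMap M N (v a) ^ (p ^ f) - algebraMap M N (v a) + _ + _ + _
      simp only [Z1]
      change _ + _ + algebraMap k N g * ∑ j, (algebraMap M N (Z j)) ^ (p ^ f + 1) =
        _ + _ + algebraMap k N g * ∑ j, (algebraMap M N (Z j)) ^ (p ^ f + 1) + _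
      ring
    rw [h3, ← h1, zero_add]
  have hval0 : hval (p ^ f) g x = 0 := by
    have h1 := hval_add hq g x1 a' hx1a' T
    have h2 : hval (p ^ f) g x1 = me (p ^ f) g a X1 V1 Z1 := hval_psi g a X1 V1 Z1
    have h3 : x1 (Sum.inr (Sum.inl a')) = algebraMap M N u ^ (p ^ f) := by
      change psi (p ^ f) a X1 V1 Z1 (Sum.inr (Sum.inl a')) = _
      rw [psi_Y_lt _ _ _ _ _ ha]
      simp only [V1, if_neg ha.ne, add_zero, hu, map_pow]
    change hval (p ^ f) g (fun j => x1 j + if j = Sum.inl a' then T else 0) = 0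
    rw [h1, h2, hme1, h3, add_pow_char_pow, mul_pow, ← pow_mul, ← sq]
    have h4 : algebraMap M N den = algebraMap M N u ^ ((p ^ f) ^ 2) - algebraMap M N u := by
      simp only [den, map_sub, map_pow]
    rw [h4] at hTd
    linear_combination hTd
  have hptx : IsPt {hform l κ (p ^ f) g} x := by
    refine ⟨fun h => ?_, ?_⟩
    · have := congrFun h (Sum.inl a)
      rw [hxa] at this
      exact one_ne_zero this
    · rintro P rfl
      rw [aeval_hform, hval0]
  obtain ⟨w, φ, hTm, hT0, hTo, hφ⟩ := exists_T_place (k := k) M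
  have hdv : w.val (algebraMap M N den) = 1 := by
    rw [← res_ne_zero_iff w (hφ den).1, (hφ den).2, Ne, map_eq_zero]
    exact hden
  have hnum : T' - T' ^ (p ^ f) ∈ w.ring ∧ w.res (T' - T' ^ (p ^ f)) = 0 := by
    refine ⟨sub_mem hTm (pow_mem hTm _), ?_⟩
    rw [w.res_sub hTm (pow_mem hTm _), w.res_pow hTm, hT0, zero_pow hq.ne', sub_zero]
  have hTr : T ∈ w.ring ∧ w.res T = 0 := by
    have h1 := res_div w hnum.1 hdv
    exact ⟨h1.1, by rw [h1.2, hnum.2, zero_div]⟩
  have hV1 : ∀ i, V1 i ∈ w.ring ∧ w.res (V1 i) = φ (v i) := by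
    intro i
    simp only [V1]
    split_ifs with h
    · have h1 : T * algebraMap M N u + T' ∈ w.ring := add_mem (mul_mem hTr.1 (hφ u).1) hTm
      refine ⟨add_mem (hφ _).1 h1, ?_⟩
      rw [w.res_add (hφ _).1 h1, w.res_add (mul_mem hTr.1 (hφ u).1) hTm, w.res_mul hTr.1 (hφ u).1,
        hTr.2, hT0, zero_mul, zero_add, add_zero, (hφ _).2]
    · rw [add_zero]
      exact hφ _
  have hx1r : ∀ j, x1 j ∈ w.ring ∧ w.res (x1 j) = φ (x0 j) := by
    intro j
    obtain ⟨h1, h2⟩ := psi_res (p ^ f) a w (X := X1) (V := V1) (Z := Z1)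
      (fun i _ => (hφ _).1) (fun i => (hV1 i).1) (fun i => (hφ _).1) j
    refine ⟨h1, ?_⟩
    change w.res (psi (p ^ f) a X1 V1 Z1 j) = _
    rw [h2]
    have h3 : (fun i => w.res (X1 i)) = fun i => φ (X i) := funext fun i => (hφ _).2
    have h4 : (fun i => w.res (V1 i)) = fun i => φ (v i) := funext fun i => (hV1 i).2
    have h5 : (fun i => w.res (Z1 i)) = fun i => φ (Z i) := funext fun i => (hφ _).2
    rw [h3, h4, h5]
    exact (psi_map (p ^ f) a (φ : M →+* w.resField) X v Z j).symm
  have hxr : ∀ j, x j ∈ w.ring ∧ w.res (x j) = φ (x0 j) := by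
    intro j
    by_cases hj : j = Sum.inl a'
    · subst hj
      rw [hxa']
      refine ⟨hTr.1, ?_⟩
      rw [hTr.2]
      have : x0 (Sum.inl a') = 0 := psi_X_lt _ _ _ _ _ ha
      rw [this, map_zero]
    · rw [hxj j hj]
      exact hx1r j
  have hspec : SpecAt w x (fun j => φ (x0 j)) := by
    refine ⟨fun h => ?_, 1, one_ne_zero, fun j => ?_⟩
    · have := congrFun h (Sum.inl a)
      have h1 : x0 (Sum.inl a) = 1 := psi_X_self _ _ _ _ _
      change φ (x0 (Sum.inl a)) = 0 at this
      rw [h1, map_one] at this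
      exact one_ne_zero this
    · rw [one_mul]
      exact ⟨(hxr j).1, (hxr j).2.symm⟩
  -- the linear form
  have hLr := aeval_res w (z := x) (fun j => (hxr j).1) L
  have hLx : w.res (MvPolynomial.aeval x L) ≠ 0 := by
    rw [hLr.2]
    have h1 : (fun j => w.res (x j)) = fun j => φ (x0 j) := funext fun j => (hxr j).2
    rw [h1]
    have h2 : MvPolynomial.aeval (fun j => φ (x0 j)) L = φ (MvPolynomial.aeval x0 L) := by
      rw [← AlgHom.comp_apply]
      congr 1
      refine MvPolynomial.algHom_ext fun j => ?_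
      simp
    rw [h2, Ne, map_eq_zero]
    exact hne
  have hLx0 : MvPolynomial.aeval x L ≠ 0 := fun h => hLx (by rw [h, w.res_zero])
  have hTne : T ≠ 0 := by
    intro h
    rw [h, zero_mul] at hTd
    have h1 : T' * (1 - T' ^ (p ^ f - 1)) = 0 := by
      rw [mul_sub, mul_one, ← pow_succ', Nat.sub_add_cancel hq]
      exact hTd.symm
    rcases mul_eq_zero.1 h1 with h2 | h2
    · exact RatFunc.X_ne_zero h2
    · have h3 : w.res (1 - T' ^ (p ^ f - 1)) = 0 := by rw [h2, w.res_zero]
      rw [w.res_sub w.ring.one_mem (pow_mem hTm _), w.res_one, w.res_pow hTm, hT0] at h3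
      by_cases h4 : p ^ f - 1 = 0
      · have h5 : p ^ f = 1 := by omega
        apply hu2
        rw [h5, one_pow, pow_one]
      · rw [zero_pow h4, sub_zero] at h3
        exact one_ne_zero h3
  have hord : 0 < w.ord (T / MvPolynomial.aeval x L) := by
    have h1 : w.val (MvPolynomial.aeval x L) = 1 := (res_ne_zero_iff w hLr.1).1 hLx
    have h2 := res_div w hTr.1 h1
    have h3 : w.res (T / MvPolynomial.aeval x L) = 0 := by rw [h2.2, hTr.2, zero_div]
    exact (w.ord_pos_iff (div_ne_zero hTne hLx0)).2 ((w.res_eq_zero_iff h2.1).1 h3)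
  haveI := essFinite_ratFunc (k := k) M
  refine mem_of_rel (by rw [trdeg_ratFunc', hM]) hptx (div_ne_zero hTne hLx0) V hV _ ?_ w
    (fun j => φ (x0 j)) hspec ?_ hord ?_
  · intro w2 y hy hord2 hty
    have hpty : IsPt {hform l κ (p ^ f) g} y :=
      hy.isPt (by rintro P rfl; exact ⟨_, hform_homogeneous _ _⟩) hptx
    by_cases hLy : MvPolynomial.aeval y L = 0
    · left
      exact hcut _ (isSub_of_pt (hform_hom _ _) hpty hty) ((mem_homIdeal_form y hL).2 hLy)
    · obtain ⟨h0, c, hc, h⟩ := hy
      have hLc := aeval_res w2 (z := fun j => c * x j) (fun j => (h j).1) L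
      have hyc : (fun j => w2.res (c * x j)) = y := funext fun j => (h j).2.symm
      rw [hyc, aeval_scale x c hL, pow_one] at hLc
      have hv1 : w2.val (c * MvPolynomial.aeval x L) = 1 :=
        (res_ne_zero_iff w2 hLc.1).1 (by rw [hLc.2]; exact hLy)
      have h2 := res_div w2 (h (Sum.inl a')).1 hv1
      have h3 : c * x (Sum.inl a') / (c * MvPolynomial.aeval x L) =
          T / MvPolynomial.aeval x L := by
        rw [mul_div_mul_left _ _ hc, hxa']
      rw [h3] at h2
      have h4 : 0 ≤ w2.ord (T / MvPolynomial.aeval x L) :=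
        (w2.ord_nonneg_iff (div_ne_zero hTne hLx0)).2 h2.1
      have h5 : 0 < w2.ord (T / MvPolynomial.aeval x L) := lt_of_le_of_ne h4 (Ne.symm hord2)
      have h6 : w2.res (T / MvPolynomial.aeval x L) = 0 :=
        (w2.res_eq_zero_iff h2.1).2 ((w2.ord_pos_iff (div_ne_zero hTne hLx0)).1 h5)
      rw [h6] at h2
      have h7 : y (Sum.inl a') = 0 := by
        have h8 := h2.2.symm
        rw [← (h (Sum.inl a')).2, hLc.2] at h8
        exact (div_eq_zero_iff.1 h8).resolve_right hLy
      rcases hrest _ _ _ y hpty hty (fun i hi => by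
        rw [(h _).2, hxlt i hi, mul_zero, w2.res_zero]) h7 with h9 | h9
      · exact Or.inl h9
      · exact Or.inr ⟨h5, h9⟩
  · rw [trdeg_ratioField_map, htr]
  · rw [homIdeal_map]

end Pool.Agent.HC
end

/- Helper16.DP.HC.HX1 -/
section
set_option autoImplicit false
set_option linter.style.haveILetI false
set_option linter.unusedSectionVars false

/-! Project HC, part H: identification, second form; the generic points of the strata. -/

namespace Pool.Agent.HC

open Pool.Agent.Helper16 IntermediateField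

theorem tdeg_le_ncard {k : Type} [Field k] {N : Type} [Field N] [Algebra k N] {S : Set N}
    (hS : S.Finite) : tdeg k S ≤ S.ncard := by
  have h1 := trdeg_adjoin_le (K := k) S hS
  rw [tdeg_spec hS] at h1
  exact_mod_cast h1

theorem transc_of_card {k : Type} [Field k] {ι : Type} [Finite ι] {N : Type} [Field N]
    [Algebra k N] {c : ι → N} {B : Set ι} {i0 : ι} (hi0 : i0 ∈ B)
    (hs : tdeg k (Set.range c) = B.ncard)
    (halg : ∀ i, i ∉ B → IsAlgebraic (IntermediateField.adjoin k (c '' B)) (c i)) :
    Transcendental k (c i0) := by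
  intro h0
  have hfB : (c '' B).Finite := (Set.toFinite B).image c
  have hfB' : (c '' (B \ {i0})).Finite := (Set.toFinite _).image c
  have h1 : tdeg k (Set.range c) = tdeg k (c '' B) := by
    have h2 := tdeg_union_of_algebraic (K := k) hfB (Set.finite_range c) (by
      rintro _ ⟨i, rfl⟩
      by_cases hi : i ∈ B
      · exact isAlgebraic_algebraMap (⟨c i, IntermediateField.subset_adjoin k _
          ⟨i, hi, rfl⟩⟩ : IntermediateField.adjoin k (c '' B))
      · exact halg i hi)
    rwa [Set.union_eq_self_of_subset_left (Set.image_subset_range c B)] at h2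
  have h2 : tdeg k (c '' B) = tdeg k (c '' (B \ {i0})) := by
    have h3 := tdeg_union_of_algebraic (K := k) hfB' (Set.finite_singleton (c i0)) (by
      rintro _ rfl
      exact h0.tower_top _)
    have h4 : c '' (B \ {i0}) ∪ {c i0} = c '' B := by
      rw [← Set.image_singleton, ← Set.image_union, Set.diff_union_of_subset
        (Set.singleton_subset_iff.2 hi0)]
    rwa [h4] at h3
  have h3 : (c '' (B \ {i0})).ncard ≤ (B \ {i0}).ncard := Set.ncard_image_le (Set.toFinite _)
  have h4 := tdeg_le_ncard (k := k) hfB'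
  have h5 := Set.ncard_diff_singleton_lt_of_mem hi0 (Set.toFinite B)
  omega

variable {k : Type} [Field k] {l : ℕ} {κ : Type} [Fintype κ]

theorem ident' {p f : ℕ} [hp : Fact p.Prime] [CharP k p] {g : k} {a a' : Fin l} (ha : a' < a)
    (hf : 0 < f)
    {s : ℕ} (V : Submodule ℚ (Ideal (MvPolynomial (Fin l ⊕ Fin l ⊕ κ) k) →₀ ℚ))
    (hV : rat {hform l κ (p ^ f) g} s ≤ V) {L : MvPolynomial (Fin l ⊕ Fin l ⊕ κ) k}
    (hL : L.IsHomogeneous 1)
    (hcut : ∀ Q, IsSub {hform l κ (p ^ f) g} s Q → L ∈ Q → Finsupp.single Q 1 ∈ V)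
    {M : Type} [Field M] [Algebra k M] (X v : Fin l → M) (Z : κ → M)
    (hme : me (p ^ f) g a X v Z = 0) (hva : Transcendental k (v a'))
    (htr : Algebra.trdeg k (ratioField k (psi (p ^ f) a X v Z)) = s)
    (hne : MvPolynomial.aeval (psi (p ^ f) a X v Z) L ≠ 0)
    (hrest : ∀ (N : Type) (_ : Field N) (_ : Algebra k N) (y : Fin l ⊕ Fin l ⊕ κ → N),
      IsPt {hform l κ (p ^ f) g} y → Algebra.trdeg k (ratioField k y) = s →
      (∀ i, i < a' → y (Sum.inl i) = 0) → y (Sum.inl a') = 0 →
      Finsupp.single (homIdeal k y) 1 ∈ V ∨ homIdeal k y = homIdeal k (psi (p ^ f) a X v Z)) :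
    Finsupp.single (homIdeal k (psi (p ^ f) a X v Z)) 1 ∈ V := by
  classical
  have hq : 0 < p ^ f := pow_pos hp.out.pos f
  let Ω := AlgebraicClosure M
  let ψ : M →ₐ[k] Ω := IsScalarTower.toAlgHom k M Ω
  have hψ : Function.Injective ψ := ψ.toRingHom.injective
  obtain ⟨u, hu⟩ := IsAlgClosed.exists_pow_nat_eq (ψ (v a')) hq
  let X0 : Fin l → Ω := fun i => if a < i then ψ (X i) else 0
  let v0 : Fin l → Ω := fun i => ψ (v i)
  let Z0 : κ → Ω := fun i => ψ (Z i)
  let S : Set Ω := Set.range X0 ∪ Set.range v0 ∪ Set.range Z0 ∪ {u}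
  have hSf : S.Finite := (((Set.finite_range X0).union (Set.finite_range v0)).union
    (Set.finite_range Z0)).union (Set.finite_singleton u)
  let M1 := IntermediateField.adjoin k S
  have hS : ∀ z ∈ S, z ∈ M1 := fun z hz => IntermediateField.subset_adjoin k S hz
  let X1 : Fin l → M1 := fun i => ⟨X0 i, hS _ (Or.inl (Or.inl (Or.inl ⟨i, rfl⟩)))⟩
  let v1 : Fin l → M1 := fun i => ⟨v0 i, hS _ (Or.inl (Or.inl (Or.inr ⟨i, rfl⟩)))⟩
  let Z1 : κ → M1 := fun i => ⟨Z0 i, hS _ (Or.inl (Or.inr ⟨i, rfl⟩))⟩
  let u1 : M1 := ⟨u, hS _ (Or.inr rfl)⟩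
  have hinj : Function.Injective M1.val := Subtype.val_injective
  have hpsi : (fun j => M1.val (psi (p ^ f) a X1 v1 Z1 j)) =
      fun j => ψ (psi (p ^ f) a X v Z j) := by
    funext j
    have h1 := psi_map (p ^ f) a (M1.val : M1 →+* Ω) X1 v1 Z1 j
    have h2 := psi_map (p ^ f) a (ψ : M →+* Ω) X v Z j
    change M1.val (psi (p ^ f) a X1 v1 Z1 j) = psi (p ^ f) a X0 v0 Z0 j at h1
    change ψ (psi (p ^ f) a X v Z j) = _ at h2
    rw [h1, h2]
    exact congrFun (psi_congr (p ^ f) a (fun i hi => if_pos hi) (fun i => rfl) (fun i => rfl)) j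
  have hme1 : me (p ^ f) g a X1 v1 Z1 = 0 := by
    apply hinj
    rw [map_zero, me_map]
    change me (p ^ f) g a X0 v0 Z0 = 0
    rw [me_congr (p ^ f) g a (X := X0) (X' := fun i => ψ (X i)) (v := v0) (v' := fun i => ψ (v i))
      (Z := Z0) (Z' := fun i => ψ (Z i)) (fun i hi => if_pos hi) (fun i => rfl) (fun i => rfl),
      ← me_map, hme, map_zero]
  have hid : homIdeal k (psi (p ^ f) a X1 v1 Z1) = homIdeal k (psi (p ^ f) a X v Z) := by
    rw [← homIdeal_map M1.val, hpsi, homIdeal_map]
  have htr1 : Algebra.trdeg k (ratioField k (psi (p ^ f) a X1 v1 Z1)) = s := by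
    rw [← trdeg_ratioField_map M1.val, hpsi, trdeg_ratioField_map, htr]
  -- the transcendence degree of the field
  have hM1 : Algebra.trdeg k M1 = s := by
    have h1 : ∀ z ∈ S, IsAlgebraic (ratioField k (fun j => ψ (psi (p ^ f) a X v Z j))) z := by
      have h2 : (fun j => ψ (psi (p ^ f) a X v Z j)) = psi (p ^ f) a X0 v0 Z0 := by
        funext j
        have h2 := psi_map (p ^ f) a (ψ : M →+* Ω) X v Z j
        change ψ (psi (p ^ f) a X v Z j) = _ at h2
        rw [h2]
        exact (congrFun (psi_congr (p ^ f) a (fun i hi => if_pos hi) (fun i => rfl)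
          (fun i => rfl)) j).symm
      rw [h2]
      obtain ⟨h3, h4, h5⟩ := isAlgebraic_psi (k := k) hq a X0 v0 Z0
      rintro z (((⟨i, rfl⟩ | ⟨i, rfl⟩) | ⟨i, rfl⟩) | rfl)
      · by_cases hi : a < i
        · exact isAlgebraic_algebraMap (⟨X0 i, h3 i hi⟩ : ratioField k (psi (p ^ f) a X0 v0 Z0))
        · simp only [X0, if_neg hi]
          exact isAlgebraic_zero
      · exact h4 i
      · exact isAlgebraic_algebraMap (⟨Z0 i, h5 i⟩ : ratioField k (psi (p ^ f) a X0 v0 Z0))
      · have h6 := h4 a'
        change IsAlgebraic _ (ψ (v a')) at h6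
        rw [← hu] at h6
        exact h6.of_pow hq
    set R : Set Ω := Set.range fun pp : (Fin l ⊕ Fin l ⊕ κ) × (Fin l ⊕ Fin l ⊕ κ) =>
      ψ (psi (p ^ f) a X v Z pp.1) / ψ (psi (p ^ f) a X v Z pp.2) with hR
    have hRf : R.Finite := Set.finite_range _
    have h2 : ratioField k (fun j => ψ (psi (p ^ f) a X v Z j)) =
      IntermediateField.adjoin k R := rfl
    rw [h2] at h1
    have h3 := tdeg_union_of_algebraic (K := k) hRf hSf h1
    have h4 : IntermediateField.adjoin k R ≤ M1 := by
      rw [IntermediateField.adjoin_le_iff]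
      rintro _ ⟨pp, rfl⟩
      have h5 := congrFun hpsi pp.1
      have h6 := congrFun hpsi pp.2
      change ψ (psi (p ^ f) a X v Z pp.1) / ψ (psi (p ^ f) a X v Z pp.2) ∈ M1
      rw [← h5, ← h6]
      exact (psi (p ^ f) a X1 v1 Z1 pp.1 / psi (p ^ f) a X1 v1 Z1 pp.2).2
    have h5 : tdeg k (R ∪ S) = tdeg k S := by
      refine le_antisymm (tdeg_mono (hRf.union hSf) hSf ?_) (tdeg_mono' (hRf.union hSf)
        Set.subset_union_right)
      rw [IntermediateField.adjoin_le_iff, Set.union_subset_iff]
      exact ⟨(IntermediateField.subset_adjoin k R).trans h4, IntermediateField.subset_adjoin k S⟩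
    have h6 : Algebra.trdeg k (IntermediateField.adjoin k R) = s := by
      rw [← h2, trdeg_ratioField_map, htr]
    rw [tdeg_spec hSf, ← h5, h3, ← tdeg_spec hRf, h6]
  haveI : Algebra.EssFiniteType k M1 := by
    refine IntermediateField.essFiniteType_iff.2 ?_
    exact IntermediateField.fg_adjoin_of_finite hSf
  rw [← hid] at hrest ⊢
  refine ident ha V hV hL hcut hM1 X1 v1 Z1 u1 hme1 ?_ ?_ htr1 ?_ hrest
  · apply hinj
    rw [map_pow]
    exact hu.symm
  · intro h
    have h1 : u ^ ((p ^ f) ^ 2) = u := congrArg Subtype.val h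
    apply hva
    have h2 : (v a') ^ ((p ^ f) ^ 2) = v a' := by
      apply hψ
      rw [map_pow, ← hu, ← pow_mul, mul_comm, pow_mul, h1]
    have hq1 : 1 < (p ^ f) ^ 2 := by
      have h3 : 1 < p ^ f := one_lt_pow₀ hp.out.one_lt hf.ne'
      exact one_lt_pow₀ h3 two_ne_zero
    refine ⟨Polynomial.X ^ ((p ^ f) ^ 2) - Polynomial.X, ?_, ?_⟩
    · exact FiniteField.X_pow_card_sub_X_ne_zero _ hq1
    · rw [map_sub, map_pow, Polynomial.aeval_X, h2, sub_self]
  · intro h
    apply hne
    apply hψ
    have h1 := congrArg M1.val h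
    rw [map_zero] at h1 ⊢
    have h2 : ∀ (N : Type) [Field N] [Algebra k N] (φ : N →ₐ[k] Ω) (x : Fin l ⊕ Fin l ⊕ κ → N),
        φ (MvPolynomial.aeval x L) = MvPolynomial.aeval (fun j => φ (x j)) L := by
      intro N _ _ φ x
      rw [← AlgHom.comp_apply]
      congr 1
      refine MvPolynomial.algHom_ext fun j => ?_
      simp
    rw [h2, hpsi] at h1
    rw [h2, h1]

end Pool.Agent.HC
end
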