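import Mathlib
import Pool.Agent.HC.DWSmoothDef
import Pool.Agent.HC.SmoothDW
import Pool.Agent.HC.Diag
import Pool.Agent.HC.Short
import Pool.Agent.Helper16.DP.HC.DiagDef
import Pool.Agent.Helper16.DPG.G02
import Pool.Agent.Helper16.DPG.G04
import Pool.Agent.Helper16.DPG.G06
import Pool.Agent.Helper16.DPG.G07
import Pool.Agent.Helper16.DPG.G08

/- Helper16.DP.HC.PN3 -/
section
set_option autoImplicit false
set_option linter.unusedSectionVars false
set_option linter.style.haveILetI false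

/-!
Project HC (MP_0b9e0b_ag), module P5: cycles of dimension smaller than the dimension of the
projective space are rationally equivalent to cycles in a given hypersurface.
-/

namespace Pool.Agent.HC

open Pool.Agent.Helper16

variable {K σ : Type} [Field K]

/-- The cycles which are rationally equivalent to cycles in the hypersurface `G = 0`. -/
noncomputable def hypSpan {K σ : Type} [Field K] (s : ℕ) (G : MvPolynomial σ K) :
    Submodule ℚ (Ideal (MvPolynomial σ K) →₀ ℚ) :=
  rat (∅ : Set (MvPolynomial σ K)) s ⊔ Submodule.span ℚ {z | ∃ Q,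
    IsSub (∅ : Set (MvPolynomial σ K)) s Q ∧ G ∈ Q ∧ z = Finsupp.single Q 1}

theorem inf_rel [Fintype σ] [DecidableEq σ] {s : ℕ} {A : Finset σ}
    (hA : Fintype.card {j : σ // j ∉ A} = s + 1) {a0 : σ} (ha0 : a0 ∈ A)
    {G : MvPolynomial σ K} {m : ℕ} (hG : G.IsHomogeneous m) (hm : 0 < m)
    {P : Ideal (MvPolynomial σ K)} (hP : IsSub (∅ : Set (MvPolynomial σ K)) s P)
    (hPA : ∀ a ∈ A, (MvPolynomial.X a : MvPolynomial σ K) ∈ P) :
    Finsupp.single P 1 ∈ hypSpan s G := by
  by_cases hGP : G ∈ P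
  · exact (le_sup_right : _ ≤ hypSpan s G) (Submodule.subset_span ⟨P, hP, hGP, rfl⟩)
  have hP' := hP
  obtain ⟨L, _, _, x, j0, hx, hj0, rfl, htop, hEss, htr⟩ := exists_generic hP
  have hxA : ∀ a ∈ A, x a = 0 := fun a ha => mem_homIdeal_X.1 (hPA a ha)
  have hGx : MvPolynomial.aeval x G ≠ 0 := fun h => hGP ((mem_homIdeal_form x hG).2 h)
  have hja : j0 ≠ a0 := by
    intro h
    have := hxA a0 ha0
    rw [← h, hj0] at this
    exact one_ne_zero this
  set N := RatFunc L with hNdef
  set z : σ → N := lineP x a0 with hz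
  have hz0 : z a0 = RatFunc.X := lineP_self x a0
  have hzm : ∀ m, m ≠ a0 → z m = algebraMap L N (x m) := fun m hm => lineP_ne x hm
  have hzj : z j0 = 1 := by rw [hzm j0 hja, hj0, map_one]
  have hzA : ∀ a ∈ A, a ≠ a0 → z a = 0 := fun a ha h => by rw [hzm a h, hxA a ha, map_zero]
  have hzne : z ≠ 0 := by
    intro h
    have := congrFun h j0
    rw [hzj] at this
    exact one_ne_zero this
  have hpt : IsPt (∅ : Set (MvPolynomial σ K)) z := ⟨hzne, fun P hP => absurd hP (by simp)⟩
  -- the place `T = 0`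
  obtain ⟨w, hw⟩ := (isFunctionField_ratFunc L).exists_zero RatFunc.X (ratFunc_X_transcendental L)
  set v0 : Place K N := under K w with hv0
  have hX0 : v0.val (RatFunc.X : N) < 1 := hw
  have hXne : (RatFunc.X : N) ≠ 0 := RatFunc.X_ne_zero
  obtain ⟨ρ, hρ⟩ := exists_resHomL (K := K) v0 (L := L) (N := N) fun a ha => w.triv a ha
  have hint0 : ∀ m, z m ∈ v0.ring := by
    intro m
    by_cases hm : m = a0
    · rw [hm, hz0]; exact hX0.le
    · rw [hzm m hm]; exact (hρ (x m)).1
  have hy0 := specAt_of_ring v0 hzj hint0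
  have hρz : (fun m => v0.res (z m)) = fun m => ρ (x m) := by
    funext m
    by_cases hm : m = a0
    · rw [hm, hz0, hxA a0 ha0, map_zero, v0.res_eq_zero_iff hX0.le]
      exact hX0
    · rw [hzm m hm, (hρ (x m)).2]
  set g : N := MvPolynomial.aeval z G with hg
  have hg1 : v0.val g = 1 := by
    have h1 := aeval_res v0 hint0 G
    rw [← res_ne_zero_iff v0 h1.1, h1.2, hρz]
    have h2 : MvPolynomial.aeval (fun m => ρ (x m)) G = ρ (MvPolynomial.aeval x G) := by
      rw [← MvPolynomial.comp_aeval_apply]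
    rw [h2, Ne, map_eq_zero]
    exact hGx
  have hgne : g ≠ 0 := by
    intro h
    rw [h, map_zero] at hg1
    exact zero_ne_one hg1
  set f : N := RatFunc.X ^ m / g with hf
  have hf0 : f ≠ 0 := div_ne_zero (pow_ne_zero m hXne) hgne
  refine rel_solve (essFiniteType_ratFuncL hEss) (trdeg_ratFuncL htr) hpt hf0
    (W := hypSpan s G) le_sup_left (Q := homIdeal K x) ?_ ?_
  · intro v y hy hyr hord
    have hyc := hy
    obtain ⟨hyne, c, hc, h⟩ := hy
    have hsub : IsSub (∅ : Set (MvPolynomial σ K)) s (homIdeal K y) :=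
      isSub_of_pt (by simp) ⟨hyne, fun P hP => absurd hP (by simp)⟩ hyr
    have h1 := aeval_res v (fun m => (h m).1) G
    have h2 : (fun m => v.res (c * z m)) = y := funext fun m => ((h m).2).symm
    rw [h2, aeval_scale z c hG] at h1
    have hcT : c * RatFunc.X ∈ v.ring ∧ y a0 = v.res (c * RatFunc.X) := by
      have := h a0
      rwa [hz0] at this
    have hfv : f = (c * RatFunc.X) ^ m / (c ^ m * g) := by
      rw [hf, mul_pow, mul_div_mul_left _ _ (pow_ne_zero m hc)]
    have hcg : c ^ m * g ≠ 0 := mul_ne_zero (pow_ne_zero m hc) hgne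
    by_cases hya : y a0 = 0
    · left
      have hyA : ∀ a ∈ A, (MvPolynomial.X a : MvPolynomial σ K) ∈ homIdeal K y := by
        intro a ha
        rw [mem_homIdeal_X]
        by_cases haa : a = a0
        · rw [haa, hya]
        · rw [(h a).2, hzA a ha haa, mul_zero, v.res_zero]
      have h3 : homIdeal K y = homIdeal K x := by
        rw [← linear_unique hA hsub hyA, linear_unique hA hP' hPA]
      refine ⟨h3, (v.ord_pos_iff hf0).2 ?_⟩
      have h4 : v.val (c ^ m * g) = 1 := by
        rw [← res_ne_zero_iff v h1.1, h1.2]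
        intro h5
        exact hGP (h3 ▸ (mem_homIdeal_form y hG).2 h5)
      have h5 : v.val (c * RatFunc.X) < 1 := by
        rw [← v.res_eq_zero_iff hcT.1, ← hcT.2, hya]
      rw [hfv, map_div₀, h4, div_one, map_pow]
      exact pow_lt_one₀ zero_le h5 hm.ne'
    · right
      refine (le_sup_right : _ ≤ hypSpan s G) (Submodule.subset_span ⟨_, hsub, ?_, rfl⟩)
      rw [mem_homIdeal_form y hG, ← h1.2]
      by_contra h5
      rw [← Ne, res_ne_zero_iff v h1.1] at h5
      have h4 : v.val (c * RatFunc.X) = 1 := by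
        rw [← res_ne_zero_iff v hcT.1, ← hcT.2]
        exact hya
      have h6 : v.val f = 1 := by
        rw [hfv, map_div₀, h5, div_one, map_pow, h4, one_pow]
      exact hord ((v.ord_eq_zero_iff hf0).2 h6)
  · refine ⟨v0, _, hy0, ?_, (v0.ord_pos_iff hf0).2 ?_, ?_⟩
    · rw [hρz, trdeg_ratioField_map, htop, IntermediateField.topEquiv.trdeg_eq, htr]
    · rw [hf, map_div₀, hg1, div_one, map_pow]
      exact pow_lt_one₀ zero_le hX0 hm.ne'
    · rw [hρz, homIdeal_map]

/-- Cycles of dimension smaller than the dimension of the projective space are rationally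
equivalent to cycles in a given hypersurface. -/
theorem mem_hypSpan [Fintype σ] {s : ℕ} (hs : s + 1 < Fintype.card σ) {G : MvPolynomial σ K}
    {m : ℕ} (hG : G.IsHomogeneous m) (hm : 0 < m) {P : Ideal (MvPolynomial σ K)}
    (hP : IsSub (∅ : Set (MvPolynomial σ K)) s P) : Finsupp.single P 1 ∈ hypSpan s G := by
  classical
  obtain ⟨A, -, hA⟩ := Finset.exists_subset_card_eq
    (s := (Finset.univ : Finset σ)) (n := Fintype.card σ - (s + 1)) (by
      rw [Finset.card_univ]; omega)
  have hcard : Fintype.card {j : σ // j ∉ A} = s + 1 := by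
    rw [Fintype.card_subtype_compl, Fintype.card_coe, hA]
    (clear * - hs m A; omega)
  have hne : A.Nonempty := by
    rw [← Finset.card_pos, hA]
    omega
  obtain ⟨a0, ha0⟩ := hne
  have h1 := mem_linSpan A (by rw [hA]; omega) hP
  have h2 : linSpan K s A ≤ hypSpan s G := by
    refine sup_le le_sup_left (Submodule.span_le.2 ?_)
    rintro _ ⟨Q, hQ, hQA, rfl⟩
    exact inf_rel hcard ha0 hG hm hQ hQA
  exact h2 h1

end Pool.Agent.HC
end

/- Helper16.DP.HC.Union -/
section
set_option autoImplicit false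
set_option linter.unusedSectionVars false

/-!
Project HC (MP_0b9e0b_ag): unions of hypersurface sections, and the bound for pencils in a
projective space.
-/

namespace Pool.Agent.HC

open Pool.Agent.Helper16

section

variable {K σ ι : Type} [Field K] [Fintype ι] {L : ι → MvPolynomial σ K} {e : ι → ℕ}
  {G : MvPolynomial σ K} {r : ℕ}

/-- An integral subscheme of a union lies in one of the parts. -/
theorem isSub_prod {P : Ideal (MvPolynomial σ K)} (hP : IsSub {∏ j, L j ^ e j, G} r P) :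
    ∃ j, e j ≠ 0 ∧ IsSub {L j, G} r P := by
  have h1 : ∏ j, L j ^ e j ∈ P := hP.le (Or.inl rfl)
  have h2 : G ∈ P := hP.le (Or.inr rfl)
  have hprime := hP.prime
  obtain ⟨j, -, hj⟩ := (Ideal.IsPrime.prod_mem_iff (p := P)).1 h1
  have hej : e j ≠ 0 := by
    intro h0
    rw [h0, pow_zero] at hj
    exact hprime.one_notMem hj
  refine ⟨j, hej, hP.prime, hP.hom, ?_, hP.dim⟩
  rintro F (rfl | hF)
  · exact hprime.mem_of_pow_mem _ hj
  · rw [Set.mem_singleton_iff.1 hF]
    exact h2

theorem isSub_of_factor {P : Ideal (MvPolynomial σ K)} {j : ι} (hj : e j ≠ 0)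
    (hP : IsSub {L j, G} r P) : IsSub {∏ j, L j ^ e j, G} r P := by
  classical
  refine ⟨hP.prime, hP.hom, ?_, hP.dim⟩
  have h1 : L j ∈ P := hP.le (Or.inl rfl)
  rintro F (rfl | hF)
  · have h2 : L j ^ e j ∈ P := Ideal.pow_mem_of_mem _ h1 _ (Nat.pos_of_ne_zero hj)
    rw [SetLike.mem_coe, ← Finset.mul_prod_erase _ _ (Finset.mem_univ j)]
    exact Ideal.mul_mem_right _ _ h2
  · rw [Set.mem_singleton_iff.1 hF]
    exact hP.le (Or.inr rfl)

theorem rat_factor_le {j : ι} (hj : e j ≠ 0) :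
    rat {L j, G} r ≤ rat {∏ j, L j ^ e j, G} r := by
  refine rat_mono fun N _ _ x hx => ⟨hx.1, ?_⟩
  have h1 : MvPolynomial.aeval x (L j) = 0 := hx.2 _ (Or.inl rfl)
  rintro F (rfl | hF)
  · rw [map_prod]
    refine Finset.prod_eq_zero (Finset.mem_univ j) ?_
    rw [map_pow, h1, zero_pow hj]
  · rw [Set.mem_singleton_iff.1 hF]
    exact hx.2 _ (Or.inr rfl)

end

variable {k σ : Type} [Field k]

/-- The bound for pencils in a projective space. -/
theorem finrank_pencil_PN [Fintype σ] {F G : MvPolynomial σ k} {m : ℕ} (hF : F.IsHomogeneous m)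
    (hG : G.IsHomogeneous m) (hm : 0 < m) {r : ℕ} (hr : r + 2 < Fintype.card σ)
    (T : Finset (Ideal (MvPolynomial σ k))) (hTs : ∀ P ∈ T, IsSub {F, G} r P)
    (hT : ∀ P, IsSub {F, G} r P → Finsupp.single P (1 : ℚ) ∈
      Submodule.span ℚ ((fun P => Finsupp.single P (1 : ℚ)) '' (T : Set (Ideal (MvPolynomial σ k)))) ⊔
        rat {F, G} r) :
    Module.Finite ℚ (CH {linQ F G} r) ∧ Module.finrank ℚ (CH {linQ F G} r) ≤ T.card := by
  refine finrank_pencil_le hF hG (fun P hP => ?_) T hTs hT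
  have h1 := mem_hypSpan (s := r + 1) (by omega) hG hm hP
  have h2 : hypSpan (r + 1) G ≤ Submodule.span ℚ
      {z | ∃ P' : Ideal (MvPolynomial σ k), G ∈ P' ∧ z = Finsupp.single P' 1} ⊔
        rat ∅ (r + 1) := by
    unfold hypSpan
    refine sup_le le_sup_right (le_sup_of_le_left (Submodule.span_mono ?_))
    rintro z ⟨Q, -, hQ, rfl⟩
    exact ⟨Q, hQ, rfl⟩
  exact h2 h1

/-- The bound for the pencils `∏ L_j ^ (e_j) + t G` in a projective space. -/
theorem finrank_pencil_prod [Fintype σ] {ι : Type} [Fintype ι] {L : ι → MvPolynomial σ k}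
    {e : ι → ℕ} {G : MvPolynomial σ k} {m : ℕ} (hF : (∏ j, L j ^ e j).IsHomogeneous m)
    (hG : G.IsHomogeneous m) (hm : 0 < m) {r : ℕ} (hr : r + 2 < Fintype.card σ)
    (T : Finset (Ideal (MvPolynomial σ k)))
    (hTs : ∀ P ∈ T, ∃ j, e j ≠ 0 ∧ IsSub {L j, G} r P)
    (hT : ∀ j, e j ≠ 0 → ∀ P, IsSub {L j, G} r P → Finsupp.single P (1 : ℚ) ∈
      Submodule.span ℚ ((fun P => Finsupp.single P (1 : ℚ)) '' (T : Set (Ideal (MvPolynomial σ k)))) ⊔
        rat {∏ j, L j ^ e j, G} r) :
    Module.Finite ℚ (CH {linQ (∏ j, L j ^ e j) G} r) ∧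
      Module.finrank ℚ (CH {linQ (∏ j, L j ^ e j) G} r) ≤ T.card := by
  refine finrank_pencil_PN hF hG hm hr T (fun P hP => ?_) (fun P hP => ?_)
  · obtain ⟨j, hj, h⟩ := hTs P hP
    exact isSub_of_factor hj h
  · obtain ⟨j, hj, h⟩ := isSub_prod hP
    exact hT j hj P h

end Pool.Agent.HC
end

/- Helper16.DP.HC.Gen -/
section
set_option autoImplicit false

/-!
Project HC (MP_0b9e0b_ag): the general theorem on pencils in projective space.
-/

namespace Pool.Agent.HC

open Pool.Agent.Helper16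

variable {k σ : Type} [Field k] [Fintype σ]

theorem hyp_of_hypSpan {r : ℕ} (hr : r + 2 < Fintype.card σ) {G : MvPolynomial σ k} {m : ℕ}
    (hG : G.IsHomogeneous m) (hm : 0 < m) (P : Ideal (MvPolynomial σ k))
    (hP : IsSub ∅ (r + 1) P) : Finsupp.single P (1 : ℚ) ∈
      Submodule.span ℚ {z | ∃ P' : Ideal (MvPolynomial σ k), G ∈ P' ∧ z = Finsupp.single P' 1} ⊔
        rat ∅ (r + 1) := by
  have h1 := mem_hypSpan (s := r + 1) (by omega) hG hm hP
  unfold hypSpan at h1
  rw [sup_comm] at h1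
  have h2 : Submodule.span ℚ {z | ∃ Q, IsSub (∅ : Set (MvPolynomial σ k)) (r + 1) Q ∧ G ∈ Q ∧
      z = Finsupp.single Q (1 : ℚ)} ≤ Submodule.span ℚ {z | ∃ P' : Ideal (MvPolynomial σ k),
        G ∈ P' ∧ z = Finsupp.single P' (1 : ℚ)} := by
    refine Submodule.span_mono ?_
    rintro z ⟨Q, -, hQ, rfl⟩
    exact ⟨Q, hQ, rfl⟩
  exact sup_le_sup_right h2 _ h1

/-- If finitely many subvarieties generate the Chow group of the base locus of a pencil in `P^N`
they generate the Chow group of the generic member, in dimension `r ≤ N - 2`. -/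
theorem rank_pencil_le {r : ℕ} (hr : r + 2 < Fintype.card σ) {F G : MvPolynomial σ k} {m : ℕ}
    (hF : F.IsHomogeneous m) (hG : G.IsHomogeneous m) (hm : 0 < m)
    (T : Finset (Ideal (MvPolynomial σ k))) (hTs : ∀ P ∈ T, IsSub {F, G} r P)
    (hT : ∀ P, IsSub {F, G} r P → Finsupp.single P (1 : ℚ) ∈
      Submodule.span ℚ ((fun P => Finsupp.single P (1 : ℚ)) '' (T : Set (Ideal (MvPolynomial σ k)))) ⊔
        rat {F, G} r) :
    Module.rank ℚ (CH {linQ F G} r) ≤ T.card := by
  obtain ⟨h1, h2⟩ := finrank_pencil_le hF hG (hyp_of_hypSpan hr hG hm) T hTs hT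
  rw [← Module.finrank_eq_rank]
  exact_mod_cast h2

end Pool.Agent.HC
end

/- Helper16.DP.HC.DWFinal -/
section
set_option autoImplicit false

/-!
Project HC (MP_0b9e0b_ag): the final theorem from the generators of the Chow group of the base
locus.
-/

namespace Pool.Agent.HC

open Pool.Agent.Helper16

theorem monForm_homog (k : Type) [Field k] {N : ℕ} (e : Fin (N + 1) → ℕ) :
    (monForm k e).IsHomogeneous (∑ j, e j) := by
  unfold monForm
  refine MvPolynomial.IsHomogeneous.prod _ _ _ fun j _ => ?_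
  simpa using (MvPolynomial.isHomogeneous_X k j).pow (e j)

theorem fermat_homog (k : Type) [Field k] (N m : ℕ) : (fermat k N m).IsHomogeneous m := by
  unfold fermat
  refine MvPolynomial.IsHomogeneous.sum _ _ _ fun j _ => ?_
  simpa using (MvPolynomial.isHomogeneous_X k j).pow m

/-- The statement about the base locus from which everything follows. -/
def BaseGen (k : Type) [Field k] {N : ℕ} (e : Fin (N + 1) → ℕ) (q r : ℕ) : Prop :=
  ∃ T : Finset (Ideal (MvPolynomial (Fin (N + 1)) k)),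
    (∀ P ∈ T, IsSub {monForm k e, fermat k N (q + 1)} r P) ∧
    (T.card ≤ 1 + if 2 * r + 2 = N then
      (Finset.univ.filter fun j => e j ≠ 0).card * ((q ^ N + q) / (q + 1)) else 0) ∧
    ∀ P, IsSub {monForm k e, fermat k N (q + 1)} r P → Finsupp.single P (1 : ℚ) ∈
      Submodule.span ℚ ((fun P => Finsupp.single P (1 : ℚ)) ''
        (T : Set (Ideal (MvPolynomial (Fin (N + 1)) k)))) ⊔
        rat {monForm k e, fermat k N (q + 1)} r

theorem final_of (k : Type) [Field k] [Finite k] (p f μ N : ℕ) (hp : p.Prime) [CharP k p]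
    (hf : f ≠ 0) (hμ : μ ≠ 0) (hcard : Nat.card k = (p ^ f) ^ (2 * μ)) (_hN : 4 ≤ N)
    (e : Fin (N + 1) → ℕ) (he : ∑ j, e j = p ^ f + 1) (r : ℕ) (hr : r + 3 ≤ N)
    (h : BaseGen k e (p ^ f) r) :
    IsSmoothHyp (eqDW k e) ∧ ChowBound k e (p ^ f) r := by
  obtain ⟨T, hTs, hTc, hT⟩ := h
  have h1 : Module.rank ℚ (CH {eqDW k e} r) ≤ T.card := by
    unfold eqDW
    rw [he]
    refine rank_pencil_le (m := p ^ f + 1) (by rw [Fintype.card_fin]; omega) ?_ ?_ (by omega)
      T hTs hT
    · rw [← he]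
      exact monForm_homog k e
    · exact fermat_homog k N _
  refine ⟨fun E _ _ x hx h0 => smooth_eqDW k p f (p ^ f) hp hf rfl e he E x hx h0, ?_, ?_⟩
  · intro h2
    rw [if_neg h2, add_zero] at hTc
    refine h1.trans ?_
    exact_mod_cast hTc
  · intro h2
    rw [if_pos h2] at hTc
    obtain ⟨L, hL1, hL2⟩ := exists_LDW k p f (p ^ f) μ N hp hf rfl hμ hcard
      ⟨r + 1, by omega⟩ (by omega) e he
    have h3 : N / 2 = r + 1 := by omega
    rw [h3] at hL2
    refine ⟨L, hL1, hL2, h1.trans ?_⟩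
    rw [hL2]
    exact_mod_cast hTc

end Pool.Agent.HC
end

/- Helper16.DP.HC.UnionJ -/
section
set_option autoImplicit false
set_option linter.unusedSectionVars false

/-!
Project HC (MP_0b9e0b_ag): the generators of the union over the coordinate hyperplanes.
-/

namespace Pool.Agent.HC

open Pool.Agent.Helper16

/-- Generators of the union of the parts `L j = G = 0`. -/
theorem exists_union_gen {K σ ι : Type} [Field K] [Fintype ι]
    {L : ι → MvPolynomial σ K} {e : ι → ℕ} {G : MvPolynomial σ K} {r M : ℕ} {j0 : ι}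
    (hj0 : e j0 ≠ 0) (h1 : GenBy {L j0, G} r 1 (1 + M))
    (h2 : ∀ j, j ≠ j0 → e j ≠ 0 → GenBy {L j, G} r (L j0) M) :
    ∃ T : Finset (Ideal (MvPolynomial σ K)),
      (∀ P ∈ T, IsSub {∏ j, L j ^ e j, G} r P) ∧
      (T.card ≤ 1 + (Finset.univ.filter fun j => e j ≠ 0).card * M) ∧
      ∀ P, IsSub {∏ j, L j ^ e j, G} r P → Finsupp.single P (1 : ℚ) ∈
        Submodule.span ℚ ((fun P => Finsupp.single P (1 : ℚ)) ''
          (T : Set (Ideal (MvPolynomial σ K)))) ⊔ rat {∏ j, L j ^ e j, G} r := by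
  classical
  obtain ⟨T0, hc0, hs0, hW0⟩ := h1
  let J : Finset ι := (Finset.univ.filter fun j => e j ≠ 0).erase j0
  have hJ : ∀ j, j ∈ J ↔ j ≠ j0 ∧ e j ≠ 0 := fun j => by
    simp only [J, Finset.mem_erase, Finset.mem_filter, Finset.mem_univ, true_and]
  choose! S hSc hSs hSW using h2
  let T : Finset (Ideal (MvPolynomial σ K)) := T0 ∪ J.biUnion S
  have hJc : J.card + 1 = (Finset.univ.filter fun j => e j ≠ 0).card := by
    refine Finset.card_erase_add_one ?_
    rw [Finset.mem_filter]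
    exact ⟨Finset.mem_univ _, hj0⟩
  set W : Submodule ℚ (Ideal (MvPolynomial σ K) →₀ ℚ) :=
    Submodule.span ℚ ((fun P => Finsupp.single P (1 : ℚ)) ''
      (T : Set (Ideal (MvPolynomial σ K)))) ⊔ rat {∏ j, L j ^ e j, G} r with hWdef
  have hTW : ∀ P ∈ T, Finsupp.single P (1 : ℚ) ∈ W := fun P hP =>
    Submodule.mem_sup_left (Submodule.subset_span ⟨P, hP, rfl⟩)
  have hratW : ∀ j, e j ≠ 0 → rat {L j, G} r ≤ W := fun j hj =>
    (rat_factor_le hj).trans le_sup_right
  have hall0 : ∀ Q, IsSub {L j0, G} r Q → Finsupp.single Q (1 : ℚ) ∈ W := by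
    refine hW0 W (hratW j0 hj0) (fun Q hQ h => ?_) (fun P hP => ?_)
    · exact absurd h hQ.prime.one_notMem
    · exact hTW P (Finset.mem_union_left _ hP)
  have hall : ∀ j, e j ≠ 0 → ∀ Q, IsSub {L j, G} r Q → Finsupp.single Q (1 : ℚ) ∈ W := by
    intro j hj
    by_cases hjj : j = j0
    · rw [hjj]
      exact hall0
    refine hSW j hjj hj W (hratW j hj) (fun Q hQ h => ?_) (fun P hP => ?_)
    · refine hall0 Q ⟨hQ.prime, hQ.hom, ?_, hQ.dim⟩
      rintro F (rfl | hF)
      · exact h
      · exact hQ.le (Or.inr hF)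
    · exact hTW P (Finset.mem_union_right _ (Finset.mem_biUnion.2 ⟨j, (hJ j).2 ⟨hjj, hj⟩, hP⟩))
  refine ⟨T, fun P hP => ?_, ?_, fun P hP => ?_⟩
  · rcases Finset.mem_union.1 hP with h | h
    · exact isSub_of_factor hj0 (hs0 P h)
    · obtain ⟨j, hj, hPj⟩ := Finset.mem_biUnion.1 h
      exact isSub_of_factor ((hJ j).1 hj).2 (hSs j ((hJ j).1 hj).1 ((hJ j).1 hj).2 P hPj)
  · have h3 : (J.biUnion S).card ≤ J.card * M := by
      refine Finset.card_biUnion_le_card_mul _ _ _ fun j hj => ?_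
      exact hSc j ((hJ j).1 hj).1 ((hJ j).1 hj).2
    have h4 : T.card ≤ (1 + M) + J.card * M :=
      (Finset.card_union_le _ _).trans (Nat.add_le_add hc0 h3)
    rw [← hJc]
    refine h4.trans (le_of_eq ?_)
    ring
  · obtain ⟨j, hj, h⟩ := isSub_prod hP
    exact hall j hj P h

/-- The generators of the base locus from those of its parts. -/
theorem baseGen_of_genBy {k : Type} [Field k] {N : ℕ} {e : Fin (N + 1) → ℕ} {q r : ℕ}
    {j0 : Fin (N + 1)} (hj0 : e j0 ≠ 0)
    (h1 : GenBy {MvPolynomial.X j0, fermat k N (q + 1)} r 1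
      (1 + if 2 * r + 2 = N then (q ^ N + q) / (q + 1) else 0))
    (h2 : ∀ j, j ≠ j0 → e j ≠ 0 → GenBy {MvPolynomial.X j, fermat k N (q + 1)} r
      (MvPolynomial.X j0) (if 2 * r + 2 = N then (q ^ N + q) / (q + 1) else 0)) :
    BaseGen k e q r := by
  obtain ⟨T, hT1, hT2, hT3⟩ := exists_union_gen (L := fun j => MvPolynomial.X j) hj0 h1 h2
  refine ⟨T, hT1, ?_, hT3⟩
  refine hT2.trans (le_of_eq ?_)
  split_ifs
  · rfl
  · rw [mul_zero]

end Pool.Agent.HC
end

/- Helper16.DP.HC.DiagGen -/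
section
set_option autoImplicit false
set_option linter.unusedSectionVars false
set_option linter.style.haveILetI false

/-!
Project HC (MP_0b9e0b_ag): generators of the base locus of `∏ x_j^(e_j) + t ∑ a_j x_j^m = 0`, where
`m` divides `q + 1`, from those of the hyperplane sections of the Hermitian variety.
-/

namespace Pool.Agent.HC

open Pool.Agent.Helper16

section sec

variable {k k' : Type} [Field k] [Field k'] [Algebra k k'] {N m s : ℕ} {a : Fin (N + 1) → k}
  {c : Fin (N + 1) → k'}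

theorem aeval_diag_monPush (hac : ∀ j, algebraMap k k' (a j) * c j ^ m = 1) {E : Type} [Field E]
    [Algebra k E] [Algebra k' E] [IsScalarTower k k' E] (x : Fin (N + 1) → E) :
    MvPolynomial.aeval (monPush c s x) (diagForm a m) =
      MvPolynomial.aeval x (fermat k' N (s * m)) := by
  rw [aeval_diagForm, aeval_fermat]
  refine Finset.sum_congr rfl fun j _ => ?_
  unfold monPush
  have h1 := congrArg (algebraMap k' E) (hac j)
  rw [map_mul, map_one, map_pow, ← IsScalarTower.algebraMap_apply] at h1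
  rw [mul_pow, ← mul_assoc, h1, one_mul, pow_mul]

theorem mapsTo_sec (hc : ∀ j, c j ≠ 0) (hs : 0 < s)
    (hac : ∀ j, algebraMap k k' (a j) * c j ^ m = 1) (j : Fin (N + 1)) :
    MapsTo c s {MvPolynomial.X j, fermat k' N (s * m)} {MvPolynomial.X j, diagForm a m} := by
  intro E _ _ _ _ x hx
  refine ⟨monPush_ne_zero hc hx.1, ?_⟩
  have h1 : MvPolynomial.aeval x (MvPolynomial.X j : MvPolynomial (Fin (N + 1)) k') = 0 :=
    hx.2 _ (Or.inl rfl)
  rw [MvPolynomial.aeval_X] at h1
  rintro F (rfl | hF)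
  · rw [MvPolynomial.aeval_X]
    unfold monPush
    rw [h1, zero_pow hs.ne', mul_zero]
  · rw [Set.mem_singleton_iff.1 hF, aeval_diag_monPush hac]
    exact hx.2 _ (Or.inr rfl)

theorem reflects_sec (hc : ∀ j, c j ≠ 0) (hs : 0 < s)
    (hac : ∀ j, algebraMap k k' (a j) * c j ^ m = 1) (j : Fin (N + 1)) :
    Reflects c s {MvPolynomial.X j, fermat k' N (s * m)} {MvPolynomial.X j, diagForm a m} := by
  intro E _ _ _ _ x hx
  refine ⟨fun h => hx.1 (funext fun i => ?_), ?_⟩
  · unfold monPush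
    rw [h, Pi.zero_apply, zero_pow hs.ne', mul_zero]
  have h1 : MvPolynomial.aeval (monPush c s x)
      (MvPolynomial.X j : MvPolynomial (Fin (N + 1)) k) = 0 := hx.2 _ (Or.inl rfl)
  rw [MvPolynomial.aeval_X] at h1
  rintro F (rfl | hF)
  · rw [MvPolynomial.aeval_X]
    unfold monPush at h1
    rcases mul_eq_zero.1 h1 with h2 | h2
    · exact absurd h2 ((map_ne_zero _).2 (hc j))
    · exact pow_eq_zero_iff hs.ne' |>.1 h2
  · rw [Set.mem_singleton_iff.1 hF, ← aeval_diag_monPush hac]
    exact hx.2 _ (Or.inr rfl)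

theorem sec_homog (j : Fin (N + 1)) {G : MvPolynomial (Fin (N + 1)) k} {d : ℕ}
    (hG : G.IsHomogeneous d) :
    ∀ F ∈ ({MvPolynomial.X j, G} : Set (MvPolynomial (Fin (N + 1)) k)),
      ∃ n, F.IsHomogeneous n := by
  rintro F (rfl | hF)
  · exact ⟨1, MvPolynomial.isHomogeneous_X k j⟩
  · rw [Set.mem_singleton_iff.1 hF]
    exact ⟨d, hG⟩

theorem genBy_sec [Module.Finite k k'] (hc : ∀ j, c j ≠ 0) (hs : 0 < s)
    (hac : ∀ j, algebraMap k k' (a j) * c j ^ m = 1) (j : Fin (N + 1)) {r n : ℕ}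
    {L : MvPolynomial (Fin (N + 1)) k} {L' : MvPolynomial (Fin (N + 1)) k'}
    (hL : ∀ P : Ideal (MvPolynomial (Fin (N + 1)) k'), L' ∈ P → monHom k c s L ∈ P)
    (h : GenBy {MvPolynomial.X j, fermat k' N (s * m)} r L' n) :
    GenBy {MvPolynomial.X j, diagForm a m} r L n :=
  GenBy.mon hs hc (mapsTo_sec hc hs hac j) (reflects_sec hc hs hac j)
    (sec_homog j (fermat_homog k' N _)) (sec_homog j (diagForm_homog a m)) hL h

end sec

/-- Generators of the hyperplane sections of the Hermitian variety. -/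
def SecGen (p f N r M : ℕ) : Prop :=
  ∀ (k' : Type) [Field k'] [Finite k'] [CharP k' p] (μ : ℕ), μ ≠ 0 →
    Nat.card k' = (p ^ f) ^ (2 * μ) → ∀ j0 : Fin (N + 1),
      GenBy {MvPolynomial.X j0, fermat k' N (p ^ f + 1)} r 1 (1 + M) ∧
      ∀ j : Fin (N + 1), j ≠ j0 →
        GenBy {MvPolynomial.X j, fermat k' N (p ^ f + 1)} r (MvPolynomial.X j0) M

theorem genBy_diag (k : Type) [Field k] [Finite k] (p f : ℕ) (hp : p.Prime) [CharP k p]
    (hf : f ≠ 0) {N r M m : ℕ} (hm : m ∣ p ^ f + 1) (a : Fin (N + 1) → k) (ha : ∀ j, a j ≠ 0)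
    (h : SecGen p f N r M) (j0 : Fin (N + 1)) :
    GenBy {MvPolynomial.X j0, diagForm a m} r 1 (1 + M) ∧
      ∀ j : Fin (N + 1), j ≠ j0 →
        GenBy {MvPolynomial.X j, diagForm a m} r (MvPolynomial.X j0) M := by
  obtain ⟨s, hs⟩ := hm
  rw [mul_comm] at hs
  have hs0 : 0 < s := by
    rcases Nat.eq_zero_or_pos s with h0 | h0
    · rw [h0, zero_mul] at hs
      omega
    · exact h0
  have hm0 : 0 < m := by
    rcases Nat.eq_zero_or_pos m with h0 | h0
    · rw [h0, mul_zero] at hs
      omega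
    · exact h0
  obtain ⟨k', _, _, μ, c, hfin, hk'p, hk'f, hμ, hcard, hac⟩ :=
    exists_ext_roots k p f hp hf hm0 a ha
  have hc : ∀ j, c j ≠ 0 := by
    intro j h0
    have h1 := hac j
    rw [h0, zero_pow hm0.ne', mul_zero] at h1
    exact zero_ne_one h1
  obtain ⟨h1, h2⟩ := h k' μ hμ hcard j0
  rw [hs] at h1
  refine ⟨genBy_sec hc hs0 hac j0 (fun P hP => ?_) h1, fun j hj => ?_⟩
  · rw [map_one]
    exact hP
  · have h3 := h2 j hj
    rw [hs] at h3
    refine genBy_sec hc hs0 hac j (fun P hP => ?_) h3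
    unfold monHom
    rw [MvPolynomial.aeval_X]
    exact Ideal.mul_mem_left _ _ (Ideal.pow_mem_of_mem _ hP _ hs0)

/-- The bound for the Chow groups of `∏ x_j^(e_j) + t ∑ a_j x_j^m = 0`. -/
theorem rank_eqDiag_le (k : Type) [Field k] [Finite k] (p f : ℕ) (hp : p.Prime) [CharP k p]
    (hf : f ≠ 0) {N r M m : ℕ} (hm : m ∣ p ^ f + 1) (e : Fin (N + 1) → ℕ) (he : ∑ j, e j = m)
    (a : Fin (N + 1) → k) (ha : ∀ j, a j ≠ 0) (hr : r + 3 ≤ N) (h : SecGen p f N r M) :
    Module.rank ℚ (CH {eqDiag e a} r) ≤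
      ((1 + (Finset.univ.filter fun j => e j ≠ 0).card * M : ℕ) : Cardinal) := by
  have hm0 : 0 < m := Nat.pos_of_dvd_of_pos hm (by omega)
  have hex : ∃ j0, e j0 ≠ 0 := by
    by_contra hcon
    push Not at hcon
    rw [Finset.sum_eq_zero fun j _ => hcon j] at he
    omega
  obtain ⟨j0, hj0⟩ := hex
  obtain ⟨h1, h2⟩ := genBy_diag k p f hp hf hm a ha h j0
  obtain ⟨T, hTs, hTc, hT⟩ := exists_union_gen (e := e) (L := fun j => MvPolynomial.X j) hj0 h1
    (fun j hj _ => h2 j hj)
  have h3 : Module.rank ℚ (CH {eqDiag e a} r) ≤ T.card := by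
    unfold eqDiag
    rw [he]
    refine rank_pencil_le (m := m) (by rw [Fintype.card_fin]; omega) ?_ (diagForm_homog a m) hm0
      T hTs hT
    rw [← he]
    exact monForm_homog k e
  refine h3.trans ?_
  exact_mod_cast hTc

end Pool.Agent.HC
end

/- Helper16.DP.HC.Hyp -/
section
set_option autoImplicit false
set_option linter.unusedSectionVars false
set_option linter.style.haveILetI false

/-!
Project HC (MP_0b9e0b_ag), module E1: hyperbolic coordinates for the Fermat form of degree `q + 1`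
in the variables different from `x_j`.
-/

namespace Pool.Agent.HC

open Pool.Agent.Helper16

variable {k : Type} [Field k]

section single

variable {α β : Type} [Fintype β] [DecidableEq β]

theorem linMap_single {B : α → β → k} {a : α} {b : β} {c : k} (h : B a = Pi.single b c)
    {R : Type} [CommRing R] [Algebra k R] (u : β → R) :
    linMap B u a = algebraMap k R c * u b := by
  unfold linMap
  rw [h, Finset.sum_eq_single b]
  · rw [Pi.single_eq_same]
  · intro b' _ hb'
    rw [Pi.single_eq_of_ne hb', map_zero, zero_mul]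
  · intro hb
    exact absurd (Finset.mem_univ b) hb

theorem linMap_single_add {B : α → β → k} {a : α} {b b' : β} {c c' : k}
    (h : B a = Pi.single b c + Pi.single b' c') {R : Type} [CommRing R] [Algebra k R]
    (u : β → R) : linMap B u a = algebraMap k R c * u b + algebraMap k R c' * u b' := by
  have h1 : linMap B u a = linMap (fun _ : α => (Pi.single b c : β → k)) u a +
      linMap (fun _ : α => (Pi.single b' c' : β → k)) u a := by
    unfold linMap
    rw [← Finset.sum_add_distrib, h]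
    refine Finset.sum_congr rfl fun t _ => ?_
    rw [Pi.add_apply, map_add, add_mul]
  rw [h1, linMap_single (B := fun _ : α => (Pi.single b c : β → k)) (a := a) (b := b) rfl,
    linMap_single (B := fun _ : α => (Pi.single b' c' : β → k)) (a := a) (b := b') rfl]

end single

variable {l : ℕ} {κ : Type} [Fintype κ] [DecidableEq κ] {σ : Type} [Fintype σ] [DecidableEq σ]

/-- The coordinates `x_i`, `i ≠ j`, in terms of the hyperbolic coordinates; `x_j = 0`. -/
noncomputable def hypB (q : ℕ) (c η : k) (j : σ) (E : {i : σ // i ≠ j} ≃ Fin l ⊕ Fin l ⊕ κ) :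
    σ → (Fin l ⊕ Fin l ⊕ κ) → k :=
  fun i => if h : i = j then 0 else
    Sum.elim (fun a => Pi.single (Sum.inl a) ((c ^ q - c)⁻¹ * c ^ q) +
        Pi.single (Sum.inr (Sum.inl a)) (-(c ^ q - c)⁻¹))
      (Sum.elim (fun a => Pi.single (Sum.inl a) (-(η⁻¹ * (c ^ q - c)⁻¹ * c)) +
          Pi.single (Sum.inr (Sum.inl a)) (η⁻¹ * (c ^ q - c)⁻¹))
        (fun z => Pi.single (Sum.inr (Sum.inr z)) 1)) (E ⟨i, h⟩)

/-- The hyperbolic coordinates in terms of the coordinates `x_i`, `i ≠ j`. -/
noncomputable def hypC (q : ℕ) (c η : k) (j : σ) (E : {i : σ // i ≠ j} ≃ Fin l ⊕ Fin l ⊕ κ) :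
    (Fin l ⊕ Fin l ⊕ κ) → σ → k :=
  Sum.elim (fun a => Pi.single (E.symm (Sum.inl a)).1 1 +
      Pi.single (E.symm (Sum.inr (Sum.inl a))).1 η)
    (Sum.elim (fun a => Pi.single (E.symm (Sum.inl a)).1 c +
        Pi.single (E.symm (Sum.inr (Sum.inl a))).1 (η * c ^ q))
      (fun z => Pi.single (E.symm (Sum.inr (Sum.inr z))).1 1))

section forms

variable (q : ℕ) (c η : k) (j : σ) (E : {i : σ // i ≠ j} ≃ Fin l ⊕ Fin l ⊕ κ)
  {R : Type} [CommRing R] [Algebra k R]

theorem hypB_self (u : Fin l ⊕ Fin l ⊕ κ → R) : linMap (hypB q c η j E) u j = 0 := by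
  unfold linMap hypB
  refine Finset.sum_eq_zero fun t _ => ?_
  rw [dif_pos rfl, Pi.zero_apply, map_zero, zero_mul]

theorem hypB_of (t : Fin l ⊕ Fin l ⊕ κ) : hypB q c η j E (E.symm t).1 =
    Sum.elim (fun a => Pi.single (Sum.inl a) ((c ^ q - c)⁻¹ * c ^ q) +
        Pi.single (Sum.inr (Sum.inl a)) (-(c ^ q - c)⁻¹))
      (Sum.elim (fun a => Pi.single (Sum.inl a) (-(η⁻¹ * (c ^ q - c)⁻¹ * c)) +
          Pi.single (Sum.inr (Sum.inl a)) (η⁻¹ * (c ^ q - c)⁻¹))
        (fun z => Pi.single (Sum.inr (Sum.inr z)) 1)) t := by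
  unfold hypB
  rw [dif_neg (E.symm t).2]
  congr 1
  exact E.apply_symm_apply t

theorem hypB_inl (u : Fin l ⊕ Fin l ⊕ κ → R) (a : Fin l) :
    linMap (hypB q c η j E) u (E.symm (Sum.inl a)).1 =
      algebraMap k R ((c ^ q - c)⁻¹ * c ^ q) * u (Sum.inl a) +
        algebraMap k R (-(c ^ q - c)⁻¹) * u (Sum.inr (Sum.inl a)) :=
  linMap_single_add (hypB_of q c η j E (Sum.inl a)) u

theorem hypB_inr (u : Fin l ⊕ Fin l ⊕ κ → R) (a : Fin l) :
    linMap (hypB q c η j E) u (E.symm (Sum.inr (Sum.inl a))).1 =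
      algebraMap k R (-(η⁻¹ * (c ^ q - c)⁻¹ * c)) * u (Sum.inl a) +
        algebraMap k R (η⁻¹ * (c ^ q - c)⁻¹) * u (Sum.inr (Sum.inl a)) :=
  linMap_single_add (hypB_of q c η j E (Sum.inr (Sum.inl a))) u

theorem hypB_z (u : Fin l ⊕ Fin l ⊕ κ → R) (z : κ) :
    linMap (hypB q c η j E) u (E.symm (Sum.inr (Sum.inr z))).1 = u (Sum.inr (Sum.inr z)) := by
  rw [linMap_single (hypB_of q c η j E (Sum.inr (Sum.inr z))) u, map_one, one_mul]

theorem hypC_inl (x : σ → R) (a : Fin l) :
    linMap (hypC q c η j E) x (Sum.inl a) =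
      x (E.symm (Sum.inl a)).1 + algebraMap k R η * x (E.symm (Sum.inr (Sum.inl a))).1 := by
  rw [linMap_single_add (B := hypC q c η j E) (a := Sum.inl a) rfl x, map_one, one_mul]

theorem hypC_inr (x : σ → R) (a : Fin l) :
    linMap (hypC q c η j E) x (Sum.inr (Sum.inl a)) =
      algebraMap k R c * x (E.symm (Sum.inl a)).1 +
        algebraMap k R (η * c ^ q) * x (E.symm (Sum.inr (Sum.inl a))).1 :=
  linMap_single_add (B := hypC q c η j E) (a := Sum.inr (Sum.inl a)) rfl x

theorem hypC_z (x : σ → R) (z : κ) :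
    linMap (hypC q c η j E) x (Sum.inr (Sum.inr z)) = x (E.symm (Sum.inr (Sum.inr z))).1 := by
  rw [linMap_single (B := hypC q c η j E) (a := Sum.inr (Sum.inr z)) rfl x, map_one, one_mul]

end forms

variable {q : ℕ} {c η : k} {j : σ} {E : {i : σ // i ≠ j} ≃ Fin l ⊕ Fin l ⊕ κ}

theorem hyp_leftInv (hc : c ^ q ≠ c) (hη : η ≠ 0) :
    LeftInv (hypB q c η j E) (hypC q c η j E) := by
  intro N _ _ u
  have hs : algebraMap k N c ^ q - algebraMap k N c ≠ 0 := by
    rw [← map_pow, ← map_sub, Ne, map_eq_zero, sub_eq_zero]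
    exact hc
  have hη' : algebraMap k N η ≠ 0 := by rwa [Ne, map_eq_zero]
  funext t
  rcases t with a | a | z
  · rw [hypC_inl, hypB_inl, hypB_inr]
    simp only [map_mul, map_neg, map_inv₀, map_sub, map_pow]
    field_simp
    ring
  · rw [hypC_inr, hypB_inl, hypB_inr]
    simp only [map_mul, map_neg, map_inv₀, map_sub, map_pow]
    field_simp
    ring
  · rw [hypC_z, hypB_z]

theorem hyp_fix (hc : c ^ q ≠ c) (hη : η ≠ 0) {N : Type} [Field N] [Algebra k N] {x : σ → N}
    (hx : x j = 0) : linMap (hypB q c η j E) (linMap (hypC q c η j E) x) = x := by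
  have hs : algebraMap k N c ^ q - algebraMap k N c ≠ 0 := by
    rw [← map_pow, ← map_sub, Ne, map_eq_zero, sub_eq_zero]
    exact hc
  have hη' : algebraMap k N η ≠ 0 := by rwa [Ne, map_eq_zero]
  funext i
  by_cases h : i = j
  · rw [h, hypB_self, hx]
  · obtain ⟨t, ht⟩ : ∃ t, (E.symm t).1 = i := ⟨E ⟨i, h⟩, by rw [E.symm_apply_apply]⟩
    rw [← ht]
    rcases t with a | a | z
    · rw [hypB_inl, hypC_inl, hypC_inr]
      simp only [map_mul, map_neg, map_inv₀, map_sub, map_pow]
      field_simp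
      ring
    · rw [hypB_inr, hypC_inl, hypC_inr]
      simp only [map_mul, map_neg, map_inv₀, map_sub, map_pow]
      field_simp
      ring
    · rw [hypB_z, hypC_z]

theorem sum_ne_add {M : Type} [AddCommMonoid M] (j : σ) (g : σ → M) :
    ∑ i, g i = g j + ∑ i : {i : σ // i ≠ j}, g i.1 := by
  rw [← Finset.add_sum_erase Finset.univ g (Finset.mem_univ j)]
  congr 1
  refine Finset.sum_subtype _ (fun i => ?_) g
  simp

/-- The Fermat form in hyperbolic coordinates. -/
theorem fermat_hyp {p f : ℕ} [hp : Fact p.Prime] [CharP k p] (hc2 : (c ^ (p ^ f)) ^ (p ^ f) = c)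
    (hc : c ^ (p ^ f) ≠ c) (hη : η ^ (p ^ f + 1) = -1) {N : Type} [Field N] [Algebra k N]
    (u : Fin l ⊕ Fin l ⊕ κ → N) :
    ∑ i, (linMap (hypB (p ^ f) c η j E) u i) ^ (p ^ f + 1) =
      algebraMap k N (c ^ (p ^ f) - c)⁻¹ * hval (p ^ f) (c ^ (p ^ f) - c) u := by
  haveI : CharP N p := charP_of_injective_algebraMap (algebraMap k N).injective p
  have hs : algebraMap k N c ^ (p ^ f) - algebraMap k N c ≠ 0 := by
    rw [← map_pow, ← map_sub, Ne, map_eq_zero, sub_eq_zero]
    exact hc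
  have hη0 : η ≠ 0 := by
    rintro rfl
    rw [zero_pow (Nat.succ_ne_zero _)] at hη
    have := neg_eq_zero.1 hη.symm
    exact one_ne_zero this
  have hη' : algebraMap k N η ≠ 0 := by rwa [Ne, map_eq_zero]
  -- the identity for one hyperbolic plane
  have key : ∀ x y X Y : N, X = x + algebraMap k N η * y →
      Y = algebraMap k N c * x + algebraMap k N (η * c ^ (p ^ f)) * y →
      X * Y ^ (p ^ f) - X ^ (p ^ f) * Y = algebraMap k N (c ^ (p ^ f) - c) *
        (x ^ (p ^ f + 1) + y ^ (p ^ f + 1)) := by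
    intro x y X Y hX hY
    have e1 : X ^ (p ^ f) = x ^ (p ^ f) + algebraMap k N η ^ (p ^ f) * y ^ (p ^ f) := by
      rw [hX, add_pow_char_pow, mul_pow]
    have e3 : (algebraMap k N c ^ (p ^ f)) ^ (p ^ f) = algebraMap k N c := by
      rw [← map_pow, ← map_pow, hc2]
    have e4 : algebraMap k N η ^ (p ^ f) * algebraMap k N η = -1 := by
      rw [← pow_succ, ← map_pow, hη, map_neg, map_one]
    have e2 : Y ^ (p ^ f) = algebraMap k N c ^ (p ^ f) * x ^ (p ^ f) +
        algebraMap k N η ^ (p ^ f) * algebraMap k N c * y ^ (p ^ f) := by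
      rw [hY, add_pow_char_pow, mul_pow, mul_pow, map_mul, map_pow, mul_pow, e3]
    rw [e1, e2, hX, hY, map_sub, map_mul, map_pow]
    rw [pow_succ, pow_succ]
    linear_combination (algebraMap k N c - algebraMap k N c ^ (p ^ f)) * (y ^ (p ^ f) * y) * e4
  have hu := hyp_leftInv (j := j) (E := E) hc hη0 u
  set x : σ → N := linMap (hypB (p ^ f) c η j E) u with hx
  have hxj : x j = 0 := hypB_self _ _ _ _ _ _
  rw [sum_ne_add j, hxj, zero_pow (Nat.succ_ne_zero _), zero_add,
    ← E.symm.sum_comp (fun i : {i : σ // i ≠ j} => x i.1 ^ (p ^ f + 1)),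
    Fintype.sum_sum_type, Fintype.sum_sum_type]
  unfold hval
  rw [mul_add, ← mul_assoc, ← map_mul, inv_mul_cancel₀ (sub_ne_zero.2 hc), map_one, one_mul,
    ← add_assoc, ← Finset.sum_add_distrib, Finset.mul_sum]
  congr 1
  · refine Finset.sum_congr rfl fun a _ => ?_
    rw [key (x (E.symm (Sum.inl a)).1) (x (E.symm (Sum.inr (Sum.inl a))).1) (u (Sum.inl a))
      (u (Sum.inr (Sum.inl a))) ?_ ?_, ← mul_assoc, ← map_mul,
      inv_mul_cancel₀ (sub_ne_zero.2 hc), map_one, one_mul]
    · conv_lhs => rw [← hu]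
      rw [hypC_inl]
    · conv_lhs => rw [← hu]
      rw [hypC_inr]
  · refine Finset.sum_congr rfl fun z _ => ?_
    congr 1
    rw [hx, hypB_z]

end Pool.Agent.HC
end

/- Helper16.DP.HC.HW3b -/
section
set_option autoImplicit false
set_option linter.style.haveILetI false
set_option linter.unusedSectionVars false

/-! Project HC, part H: strata of type II with one variable `Z`, uniqueness. -/

namespace Pool.Agent.HC

open Pool.Agent.Helper16 IntermediateField

variable {k : Type} [Field k] {l : ℕ} {κ : Type} [Fintype κ]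

/-- The movable coordinates of the stratum of type II. -/
def D2 (κ : Type) (a : Fin l) : Set (Fin l ⊕ Fin l ⊕ κ) :=
  {x | (∃ i, x = Sum.inl i ∧ a < i) ∨ (∃ i, x = Sum.inr (Sum.inl i) ∧ i < a)}

theorem D2_ncard (p f : ℕ) [hp : Fact p.Prime] [CharP k p] (g : k) (a : Fin l)
    (δ : Fin l → k) (hδ : ∀ i, δ i ^ ((p ^ f) ^ 2) = δ i) : (D2 κ a).ncard + 1 = l :=
  ncard_D2 p f g a δ hδ

/-- The coordinates which are not movable, as functions on the curve. -/
noncomputable def red2 (κ : Type) (a : Fin l) (δ : Fin l → k) :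
    Fin l ⊕ Fin l ⊕ κ → MvPolynomial (Fin 2) k :=
  Sum.elim (fun _ => 0)
    (Sum.elim (fun i => if i = a then MvPolynomial.X 1 else MvPolynomial.C (δ i))
      (fun _ => MvPolynomial.X 0))

variable [Unique κ]

theorem red2_eval {q : ℕ} {g : k} {a : Fin l} {δ : Fin l → k} {N : Type} [Field N] [Algebra k N]
    {c : Fin l ⊕ Fin l ⊕ κ → N} (hU : U2 q g a δ c) {i : Fin l ⊕ Fin l ⊕ κ} (hi : i ∉ D2 κ a) :
    MvPolynomial.aeval ![c (Sum.inr (Sum.inr default)), c (Sum.inr (Sum.inl a))]
      (red2 κ a δ i) = c i := by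
  rcases i with i | i | j
  · have h1 : i ≤ a := by
      by_contra h
      exact hi (Or.inl ⟨i, rfl, not_le.1 h⟩)
    simp only [red2, Sum.elim_inl, map_zero]
    exact (hU.1 i h1).symm
  · simp only [red2, Sum.elim_inl, Sum.elim_inr]
    by_cases h : i = a
    · subst h
      rw [if_pos rfl, MvPolynomial.aeval_X]
      rfl
    · rw [if_neg h, MvPolynomial.aeval_C]
      have h1 : a < i := by
        rcases lt_trichotomy i a with h2 | h2 | h2
        · exact absurd (Or.inr ⟨i, rfl, h2⟩) hi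
        · exact absurd h2 h
        · exact h2
      exact (hU.2.1 i h1).symm
  · simp only [red2, Sum.elim_inr, MvPolynomial.aeval_X]
    rw [Subsingleton.elim j default]
    rfl

theorem U2_eq {q : ℕ} {g : k} {a : Fin l} {δ : Fin l → k} {N : Type} [Field N] [Algebra k N]
    {c : Fin l ⊕ Fin l ⊕ κ → N} (hU : U2 q g a δ c) :
    c (Sum.inr (Sum.inl a)) ^ q - c (Sum.inr (Sum.inl a)) +
      algebraMap k N g * c (Sum.inr (Sum.inr default)) ^ (q + 1) = 0 := by
  have := hU.2.2
  rwa [Fintype.sum_unique] at this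

/-- The dimension of the point of the curve. -/
theorem tdeg_D2 {q : ℕ} {g : k} {a : Fin l} {δ : Fin l → k} {N : Type} [Field N] [Algebra k N]
    {c : Fin l ⊕ Fin l ⊕ κ → N} (hU : U2 q g a δ c) :
    tdeg k (c '' (D2 κ a)ᶜ) =
      tdeg k {c (Sum.inr (Sum.inr default)), c (Sum.inr (Sum.inl a))} := by
  have hfin : (c '' (D2 κ a)ᶜ).Finite := (Set.toFinite _).image c
  refine le_antisymm (tdeg_mono hfin (Set.toFinite _) ?_) (tdeg_mono' hfin ?_)
  · rw [IntermediateField.adjoin_le_iff]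
    rintro _ ⟨i, hi, rfl⟩
    rw [← red2_eval hU hi]
    set A := IntermediateField.adjoin k
      {c (Sum.inr (Sum.inr default)), c (Sum.inr (Sum.inl a))} with hA
    let z : Fin 2 → A := ![⟨c (Sum.inr (Sum.inr default)),
      IntermediateField.subset_adjoin k _ (by simp)⟩,
      ⟨c (Sum.inr (Sum.inl a)), IntermediateField.subset_adjoin k _ (by simp)⟩]
    have h1 : ![c (Sum.inr (Sum.inr default)), c (Sum.inr (Sum.inl a))] =
        fun i => A.val (z i) := by
      funext i
      fin_cases i <;> rfl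
    rw [h1, ← MvPolynomial.comp_aeval_apply]
    exact Subtype.prop _
  · rintro x hx
    rcases hx with rfl | hx
    · exact ⟨_, by simp [D2], rfl⟩
    · rw [Set.mem_singleton_iff.1 hx]
      exact ⟨_, by simp [D2], rfl⟩

theorem tdeg_curve {q : ℕ} (hq : 2 ≤ q) {g : k} {N : Type} [Field N] [Algebra k N] {Z V : N}
    (h : V ^ q - V + algebraMap k N g * Z ^ (q + 1) = 0) :
    tdeg k {Z, V} ≤ 1 ∧ (tdeg k {Z, V} = 1 → Transcendental k Z) := by
  have hV : IsAlgebraic (IntermediateField.adjoin k {Z}) V := by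
    set A := IntermediateField.adjoin k {Z} with hA
    let z : A := ⟨Z, IntermediateField.subset_adjoin k _ (by simp)⟩
    let p : Polynomial A := Polynomial.X ^ q - Polynomial.X +
      Polynomial.C (algebraMap k A g * z ^ (q + 1))
    refine ⟨p, ?_, ?_⟩
    · intro h0
      have h1 : p.coeff q = 1 := by
        simp only [p, Polynomial.coeff_add, Polynomial.coeff_sub, Polynomial.coeff_X_pow,
          Polynomial.coeff_X, Polynomial.coeff_C]
        rw [if_pos trivial, if_neg (by omega), if_neg (by omega)]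
        ring
      rw [h0, Polynomial.coeff_zero] at h1
      exact zero_ne_one h1
    · simp only [p, map_add, map_sub, map_pow, Polynomial.aeval_X, Polynomial.aeval_C]
      exact h
  have h1 : tdeg k {Z, V} = tdeg k {Z} := by
    have := tdeg_union_of_algebraic (K := k) (Set.finite_singleton Z) (Set.finite_singleton V)
      (by rintro a ha; rw [Set.mem_singleton_iff.1 ha]; exact hV)
    rw [← this]
    congr 1
  have h2 : tdeg k {Z} ≤ 1 := by
    have h3 := trdeg_adjoin_le (K := k) {Z} (Set.finite_singleton Z)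
    rw [tdeg_spec (Set.finite_singleton Z), Set.ncard_singleton] at h3
    exact_mod_cast h3
  refine ⟨by rw [h1]; exact h2, fun h3 => ?_⟩
  intro h4
  rw [h1] at h3
  have h5 := tdeg_union_of_algebraic (K := k) Set.finite_empty (Set.finite_singleton Z)
    (by rintro a ha; rw [Set.mem_singleton_iff.1 ha]; exact h4.extendScalars (algebraMap k _).injective)
  rw [Set.empty_union, h3] at h5
  have h6 : tdeg k (∅ : Set N) = 0 := by
    have h7 := trdeg_adjoin_le (K := k) (∅ : Set N) Set.finite_empty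
    rw [tdeg_spec Set.finite_empty, Set.ncard_empty] at h7
    exact_mod_cast le_antisymm h7 zero_le
  omega

/-- Cylinders over the same point of the curve have the same ideal. -/
theorem cyl_unique {p f : ℕ} [hp : Fact p.Prime] [CharP k p] {g : k} (a : Fin l) (δ : Fin l → k)
    (hδ : ∀ i, δ i ^ ((p ^ f) ^ 2) = δ i)
    {N N' : Type} [Field N] [Algebra k N] [Field N'] [Algebra k N']
    (c : Fin l ⊕ Fin l ⊕ κ → N) (c' : Fin l ⊕ Fin l ⊕ κ → N')
    (hU : (P2 p f g a δ hδ).U c) (hU' : (P2 p f g a δ hδ).U c')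
    (hker : ∀ F : MvPolynomial (Fin 2) k,
      MvPolynomial.aeval ![c (Sum.inr (Sum.inr default)), c (Sum.inr (Sum.inl a))] F = 0 ↔
      MvPolynomial.aeval ![c' (Sum.inr (Sum.inr default)), c' (Sum.inr (Sum.inl a))] F = 0)
    (hc : tdeg k (Set.range c) = tdeg k (c '' (D2 κ a)ᶜ) + (D2 κ a).ncard)
    (hc' : tdeg k (Set.range c) ≤ tdeg k (Set.range c')) :
    homIdeal k ((P2 p f g a δ hδ).Φ c) = homIdeal k ((P2 p f g a δ hδ).Φ c') := by
  classical
  set D := D2 κ a with hD
  let c0 : (Dᶜ : Set _) → N := fun i => c i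
  let d0 : (Dᶜ : Set _) → N' := fun i => c' i
  have hr0 : Set.range c0 = c '' Dᶜ := by
    rw [Set.image_eq_range]
  have hiff : ∀ F : MvPolynomial (Dᶜ : Set _) k,
      MvPolynomial.aeval c0 F = 0 ↔ MvPolynomial.aeval d0 F = 0 := by
    intro F
    let G : MvPolynomial (Fin 2) k := MvPolynomial.aeval (fun i : (Dᶜ : Set _) => red2 κ a δ i) F
    have h1 : MvPolynomial.aeval ![c (Sum.inr (Sum.inr default)), c (Sum.inr (Sum.inl a))] G =
        MvPolynomial.aeval c0 F := by
      rw [MvPolynomial.comp_aeval_apply]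
      congr 2
      funext i
      exact red2_eval hU i.2
    have h2 : MvPolynomial.aeval ![c' (Sum.inr (Sum.inr default)), c' (Sum.inr (Sum.inl a))] G =
        MvPolynomial.aeval d0 F := by
      rw [MvPolynomial.comp_aeval_apply]
      congr 2
      funext i
      exact red2_eval hU' i.2
    rw [← h1, ← h2]
    exact hker G
  obtain ⟨φ, hφ⟩ := exists_relHom c0 d0 hiff
  let u : D → N := fun i => c i
  have hun : Set.range c = Set.range c0 ∪ Set.range u := by
    ext b
    constructor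
    · rintro ⟨i, rfl⟩
      by_cases hi : i ∈ D
      · exact Or.inr ⟨⟨i, hi⟩, rfl⟩
      · exact Or.inl ⟨⟨i, hi⟩, rfl⟩
    · rintro (⟨i, rfl⟩ | ⟨i, rfl⟩)
      · exact ⟨i, rfl⟩
      · exact ⟨i, rfl⟩
  have : Fintype D := Fintype.ofFinite _
  have hind : AlgebraicIndependent (IntermediateField.adjoin k (Set.range c0)) u := by
    refine indep_of_tdeg (Set.finite_range c0) u ?_
    rw [← hun, hc, hr0, ← Nat.card_eq_fintype_card]
    rfl
  have h1 := cyl_same D c c' (IntermediateField.adjoin k (Set.range c0))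
    (fun i hi => IntermediateField.subset_adjoin k _ ⟨⟨i, hi⟩, rfl⟩) hind φ
    (fun i hi => hφ ⟨i, hi⟩)
  have h2 := ker_le_of_tdeg c c' h1 hc'
  exact (Param.same (P2 p f g a δ hδ) h2 hU).2.symm

/-- Type II with one variable `Z`, uniqueness of the full-dimensional point. -/
theorem uniqII1 {p f : ℕ} [hp : Fact p.Prime] [CharP k p] (hf : 0 < f) {g : k} (hg : g ≠ 0)
    (a : Fin l) (δ : Fin l → k) (hδ : ∀ i, δ i ^ ((p ^ f) ^ 2) = δ i)
    {N N' : Type} [Field N] [Algebra k N] [Field N'] [Algebra k N']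
    (c : Fin l ⊕ Fin l ⊕ κ → N) (c' : Fin l ⊕ Fin l ⊕ κ → N')
    (hU : (P2 p f g a δ hδ).U c) (hU' : (P2 p f g a δ hδ).U c')
    (hs : tdeg k (Set.range c) = l) (hs' : tdeg k (Set.range c') = l) :
    homIdeal k ((P2 p f g a δ hδ).Φ c) = homIdeal k ((P2 p f g a δ hδ).Φ c') := by
  classical
  have hq : 2 ≤ p ^ f := by
    calc 2 ≤ p := hp.out.two_le
      _ = p ^ 1 := (pow_one p).symm
      _ ≤ p ^ f := Nat.pow_le_pow_right hp.out.pos hf
  have key : ∀ (N : Type) [Field N] [Algebra k N] (c : Fin l ⊕ Fin l ⊕ κ → N),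
      (P2 p f g a δ hδ).U c → tdeg k (Set.range c) = l →
      tdeg k (c '' (D2 κ a)ᶜ) = 1 ∧ Transcendental k (c (Sum.inr (Sum.inr default))) := by
    intro N _ _ c hU hs
    have h1 := tdeg_curve hq (U2_eq hU)
    rw [← tdeg_D2 hU] at h1
    have h2 : Set.range c = c '' (D2 κ a)ᶜ ∪ c '' (D2 κ a) := by
      rw [← Set.image_union, Set.compl_union_self, Set.image_univ]
    have h3 := tdeg_union_le (K := k) (S := c '' (D2 κ a)ᶜ) (T := c '' (D2 κ a))
      ((Set.toFinite _).image c) ((Set.toFinite _).image c)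
    rw [← h2, hs] at h3
    have h4 : (c '' (D2 κ a)).ncard ≤ (D2 κ a).ncard := Set.ncard_image_le (Set.toFinite _)
    have h5 := D2_ncard (κ := κ) p f g a δ hδ
    have h6 : tdeg k (c '' (D2 κ a)ᶜ) = 1 := by
      have := h1.1
      omega
    exact ⟨h6, h1.2 h6⟩
  have h1 := key N c hU hs
  have h2 := key N' c' hU' hs'
  refine cyl_unique a δ hδ c c' hU hU' (fun F => ?_) ?_ (by rw [hs, hs'])
  · rw [curve_ker hq hg (U2_eq hU) (Or.inl h1.2), curve_ker hq hg (U2_eq hU') (Or.inl h2.2)]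
  · rw [hs, h1.1]
    have := D2_ncard (κ := κ) p f g a δ hδ
    omega

end Pool.Agent.HC
end

/- Helper16.DP.HC.HW3 -/
section
set_option autoImplicit false
set_option linter.style.haveILetI false
set_option linter.unusedSectionVars false

/-! Project HC, part H: strata of type II with one variable `Z`, over a finite field. -/

namespace Pool.Agent.HC

open Pool.Agent.Helper16 IntermediateField

variable {k : Type} [Field k] {l : ℕ} {κ : Type} [Fintype κ]

/-- A bad cycle of dimension `s` is in `V`. -/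
theorem bad_mem {p f : ℕ} [hp : Fact p.Prime] [CharP k p] {g : k} {a : Fin l} {δ : Fin l → k}
    {hδ : ∀ i, δ i ^ ((p ^ f) ^ 2) = δ i} {s : ℕ}
    {V : Submodule ℚ (Ideal (MvPolynomial (Fin l ⊕ Fin l ⊕ κ) k) →₀ ℚ)}
    (hW : WW (p ^ f) g κ s a V) {Q : Ideal (MvPolynomial (Fin l ⊕ Fin l ⊕ κ) k)}
    (hdim : Algebra.trdeg k (MvPolynomial (Fin l ⊕ Fin l ⊕ κ) k ⧸ Q) = s + 1)
    (hQ : (P2 p f g a δ hδ).Bad Q) : Finsupp.single Q 1 ∈ V := by
  obtain ⟨N, _, _, y, hy, rfl, h0⟩ := hQ
  refine hW N _ _ y hy ?_ h0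
  rw [trdeg_cone hy.1] at hdim
  exact Cardinal.add_one_inj.1 hdim

theorem isAlgebraic_of_tdeg_zero {N : Type} [Field N] [Algebra k N] {S : Set N} (hS : S.Finite)
    (h : tdeg k S = 0) {a : N} (ha : a ∈ S) : IsAlgebraic k a := by
  have h1 := tdeg_spec (K := k) hS
  rw [h, Nat.cast_zero, trdeg_eq_zero_iff] at h1
  have h2 := h1.isAlgebraic ⟨a, IntermediateField.subset_adjoin k S ha⟩
  exact h2.algebraMap (A := N)

/-- The values of a polynomial at a place. -/
theorem val_aeval_two {N : Type} [Field N] [Algebra k N] (v : Place k N) {Z V : N}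
    (hZ : Z ∈ v.ring) (hV : V ∈ v.ring) (F : MvPolynomial (Fin 2) k) :
    MvPolynomial.aeval ![v.res Z, v.res V] F = 0 ↔
      v.val (MvPolynomial.aeval ![Z, V] F) < 1 := by
  have hcm : ∀ a, (![Z, V] : Fin 2 → N) a ∈ v.ring := by
    intro a
    fin_cases a
    · exact hZ
    · exact hV
  have h1 := aeval_res v hcm F
  have h2 : (fun a => v.res ((![Z, V] : Fin 2 → N) a)) = ![v.res Z, v.res V] := by
    funext a
    fin_cases a <;> rfl
  rw [h2] at h1
  rw [← h1.2, v.res_eq_zero_iff h1.1]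

/-- The function field of the curve over `L`, a place over a given closed point of the curve over
`k`, and a function with this single zero on the affine curve. -/
theorem exists_curve_fn [Finite k] {q : ℕ} (hq : 2 ≤ q) {g : k} (hg : g ≠ 0) {L N : Type}
    [Field L] [Algebra k L] [Field N] [Algebra k N] [Algebra L N] [IsScalarTower k L N] {z v : N}
    (hz : IsAlgebraic k z) (heq : v ^ q - v + algebraMap k N g * z ^ (q + 1) = 0) :
    ∃ (N1 : Type) (_ : Field N1) (_ : Algebra k N1) (_ : Algebra L N1)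
      (_ : IsScalarTower k L N1) (Z1 V1 φ : N1) (w : Place L N1),
      V1 ^ q - V1 + algebraMap k N1 g * Z1 ^ (q + 1) = 0 ∧ IsFunctionField L N1 ∧
      Z1 ∈ w.ring ∧ V1 ∈ w.ring ∧
      (∀ F : MvPolynomial (Fin 2) k, MvPolynomial.aeval ![z, v] F = 0 →
        w.val (MvPolynomial.aeval ![Z1, V1] F) < 1) ∧ φ ≠ 0 ∧ w.val φ < 1 ∧
      ∀ v' : Place k N1, Z1 ∈ v'.ring → v'.val φ ≠ 1 → v'.val φ < 1 ∧
        ∀ F : MvPolynomial (Fin 2) k, v'.val (MvPolynomial.aeval ![Z1, V1] F) < 1 ↔
          w.val (MvPolynomial.aeval ![Z1, V1] F) < 1 := by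
  obtain ⟨N1, _, _, Z1, V1, heq1, hZ1, hN1, -⟩ := exists_curveField L hq (algebraMap k L g)
  letI : Algebra k N1 := ((algebraMap L N1).comp (algebraMap k L)).toAlgebra
  haveI : IsScalarTower k L N1 := IsScalarTower.of_algebraMap_eq fun _ => rfl
  have hgL : algebraMap k L g ≠ 0 := (map_ne_zero _).2 hg
  have heqL : v ^ q - v + algebraMap L N (algebraMap k L g) * z ^ (q + 1) = 0 := by
    rw [← IsScalarTower.algebraMap_apply k L N]; exact heq
  obtain ⟨w, hwZ, hwV, hw⟩ := exists_center hN1 hZ1 (z := z) (v := v)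
    (hz.extendScalars (algebraMap k L).injective)
    (fun F hF => curve_spec hq hgL heq1 (Or.inl hZ1) heqL F hF)
  have hwF : ∀ F : MvPolynomial (Fin 2) k, MvPolynomial.aeval ![z, v] F = 0 →
      w.val (MvPolynomial.aeval ![Z1, V1] F) < 1 := by
    intro F hF
    have h1 := hw (MvPolynomial.map (algebraMap k L) F) (by
      rw [MvPolynomial.aeval_map_algebraMap]; exact hF)
    rw [val_aeval_two w hwZ hwV, MvPolynomial.aeval_map_algebraMap] at h1
    exact h1
  have hZ1k : Transcendental k Z1 :=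
    Transcendental.restrictScalars (algebraMap k L).injective hZ1
  have heqk : V1 ^ q - V1 + algebraMap k N1 g * Z1 ^ (q + 1) = 0 := heq1
  let N0 : IntermediateField k N1 := IntermediateField.adjoin k {Z1, V1}
  have hmem : ∀ F : MvPolynomial (Fin 2) k, MvPolynomial.aeval ![Z1, V1] F ∈ N0 := by
    intro F
    let zz : Fin 2 → N0 := ![⟨Z1, IntermediateField.subset_adjoin k _ (by simp)⟩,
      ⟨V1, IntermediateField.subset_adjoin k _ (by simp)⟩]
    have h1 : (![Z1, V1] : Fin 2 → N1) = fun i => N0.val (zz i) := by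
      funext i
      fin_cases i <;> rfl
    rw [h1, ← MvPolynomial.comp_aeval_apply]
    exact Subtype.prop _
  have hN0 : IsFunctionField k N0 := by
    refine ⟨?_, ?_⟩
    · rw [IntermediateField.essFiniteType_iff]
      exact IntermediateField.fg_adjoin_of_finite (by simp)
    · have h1 := tdeg_curve hq heqk
      have h2 := tdeg_spec (K := k) (S := ({Z1, V1} : Set N1)) (by simp)
      have h3 : tdeg k ({Z1, V1} : Set N1) ≠ 0 := by
        intro h0
        exact hZ1k (isAlgebraic_of_tdeg_zero (by simp) h0 (by simp))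
      have h4 : tdeg k ({Z1, V1} : Set N1) = 1 := by
        have := h1.1
        omega
      rw [h2, h4, Nat.cast_one]
  -- a nonzero element of `N0` which vanishes at the point
  obtain ⟨m, hm0, hm⟩ := hz
  let F0 : MvPolynomial (Fin 2) k := Polynomial.aeval (MvPolynomial.X 0) m
  have hF0 : ∀ (A : Type) [Field A] [Algebra k A] (x y : A),
      MvPolynomial.aeval ![x, y] F0 = Polynomial.aeval x m := by
    intro A _ _ x y
    change MvPolynomial.aeval ![x, y] (Polynomial.aeval (MvPolynomial.X 0) m) = _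
    rw [← Polynomial.aeval_algHom_apply, MvPolynomial.aeval_X]
    rfl
  have hb0 : MvPolynomial.aeval ![Z1, V1] F0 ≠ 0 := by
    rw [hF0]
    intro h
    exact hZ1k ⟨m, hm0, h⟩
  have hb1 : w.val (MvPolynomial.aeval ![Z1, V1] F0) < 1 := hwF F0 (by rw [hF0, hm])
  obtain ⟨u, hu1, hu2⟩ := w.exists_restrict (k := k) (L := N0) hN0
    ⟨_, hmem F0⟩ (fun h => hb0 (congrArg Subtype.val h)) hb1.ne
  have hZ0 : Z1 ∈ N0 := IntermediateField.subset_adjoin k _ (by simp)
  have hZ0t : Transcendental k (⟨Z1, hZ0⟩ : N0) := by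
    intro h
    exact hZ1k (h.algebraMap (A := N1))
  obtain ⟨φ, hφ0, hφu, hφ⟩ := hN0.exists_single_zero ⟨Z1, hZ0⟩ hZ0t u ((hu1 _).2 hwZ)
  refine ⟨N1, inferInstance, inferInstance, inferInstance, inferInstance, Z1, V1, φ, w, heqk, hN1,
    hwZ, hwV, hwF, fun h => hφ0 (Subtype.ext h), (hu2 φ).1 hφu, ?_⟩
  intro v' hv'Z hv'φ
  obtain ⟨u', hu1', hu2'⟩ := v'.exists_restrict (k := k) (L := N0) hN0 φ hφ0 hv'φ
  have heq' : u' = u := by
    by_contra hne
    have h1 := hφ u' ((hu1' _).2 hv'Z) hne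
    have h2 : v'.val (algebraMap N0 N1 φ) ≤ 1 := (hu1' φ).1 h1.le
    have h3 : ¬ v'.val (algebraMap N0 N1 φ) < 1 := fun h => by
      have := (hu2' φ).2 h
      rw [h1] at this
      exact lt_irrefl _ this
    exact hv'φ (le_antisymm h2 (not_lt.1 h3))
  subst heq'
  refine ⟨(hu2' φ).1 hφu, fun F => ?_⟩
  exact (hu2' ⟨_, hmem F⟩).symm.trans (hu2 ⟨_, hmem F⟩)


/-- The cylinder over a closed point of the curve. -/
theorem cylII [Unique κ] [Finite k] {p f : ℕ} [hp : Fact p.Prime] [CharP k p] (hf : 0 < f)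
    {g : k} (hg : g ≠ 0) (a : Fin l) (δ : Fin l → k) (hδ : ∀ i, δ i ^ ((p ^ f) ^ 2) = δ i)
    {s : ℕ} (V : Submodule ℚ (Ideal (MvPolynomial (Fin l ⊕ Fin l ⊕ κ) k) →₀ ℚ))
    (hV : rat {hform l κ (p ^ f) g} s ≤ V) (hW : WW (p ^ f) g κ s a V)
    {N : Type} [Field N] [Algebra k N] (c : Fin l ⊕ Fin l ⊕ κ → N)
    (hU : (P2 p f g a δ hδ).U c) (h0 : tdeg k (c '' (D2 κ a)ᶜ) = 0)
    (hs : tdeg k (Set.range c) = s) (hsl : s + 1 = l) :
    Finsupp.single (homIdeal k ((P2 p f g a δ hδ).Φ c)) 1 ∈ V := by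
  classical
  have hq : 2 ≤ p ^ f := by
    calc 2 ≤ p := hp.out.two_le
      _ = p ^ 1 := (pow_one p).symm
      _ ≤ p ^ f := Nat.pow_le_pow_right hp.out.pos hf
  have hI : ∀ F ∈ ({hform l κ (p ^ f) g} : Set _), ∃ d, F.IsHomogeneous d := by
    rintro F hF
    rw [Set.mem_singleton_iff.1 hF]
    exact ⟨_, hform_homogeneous _ _⟩
  set D := D2 κ a with hD
  have hDn : D.ncard + 1 = l := D2_ncard p f g a δ hδ
  set z : N := c (Sum.inr (Sum.inr default)) with hz
  set v : N := c (Sum.inr (Sum.inl a)) with hv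
  have h00 : tdeg k {z, v} = 0 := by rw [← tdeg_D2 hU]; exact h0
  have hzalg : IsAlgebraic k z := isAlgebraic_of_tdeg_zero (by simp) h00 (by simp)
  let L : IntermediateField k N := IntermediateField.adjoin k (c '' D)
  have hfinD : (c '' D).Finite := (Set.toFinite _).image c
  have htD : tdeg k (c '' D) = s := by
    have h1 := tdeg_union_of_algebraic (K := k) hfinD ((Set.toFinite Dᶜ).image c) (by
      intro b hb
      exact (isAlgebraic_of_tdeg_zero ((Set.toFinite _).image c) h0 hb).extendScalars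
        (algebraMap k _).injective)
    rw [← Set.image_union, Set.union_compl_self, Set.image_univ, hs] at h1
    exact h1.symm
  have hLtr : Algebra.trdeg k L = s := by rw [tdeg_spec hfinD, htD]
  have hLess : Algebra.EssFiniteType k L := by
    rw [IntermediateField.essFiniteType_iff]
    exact IntermediateField.fg_adjoin_of_finite hfinD
  obtain ⟨N1, _, _, _, _, Z1, V1, φ, w, heq1, hN1, hwZ, hwV, hwF, hφ0, hwφ, hφ⟩ :=
    exists_curve_fn (k := k) hq hg (L := L) (N := N) hzalg (U2_eq hU)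
  haveI := hLess
  haveI := hN1.1
  have hess : Algebra.EssFiniteType k N1 := Algebra.EssFiniteType.comp k L N1
  have htr1 : Algebra.trdeg k N1 = s + 1 := by
    rw [← trdeg_add_eq k L (A := N1), hLtr, hN1.2]
  -- the point
  let c1 : Fin l ⊕ Fin l ⊕ κ → N1 := fun i => if h : i ∈ D then
    algebraMap L N1 ⟨c i, IntermediateField.subset_adjoin k _ ⟨i, h, rfl⟩⟩ else
    MvPolynomial.aeval ![Z1, V1] (red2 κ a δ i)
  have hc1D : ∀ i (h : i ∈ D), c1 i =
      algebraMap L N1 ⟨c i, IntermediateField.subset_adjoin k _ ⟨i, h, rfl⟩⟩ := fun i h => dif_pos h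
  have hc1C : ∀ i, i ∉ D → c1 i = MvPolynomial.aeval ![Z1, V1] (red2 κ a δ i) :=
    fun i h => dif_neg h
  have hnX : ∀ i, i ≤ a → (Sum.inl i : Fin l ⊕ Fin l ⊕ κ) ∉ D := by
    rintro i hi (⟨j, hj, hj'⟩ | ⟨j, hj, hj'⟩)
    · rw [Sum.inl_injective hj] at hi
      exact absurd hi (not_le.2 hj')
    · exact absurd hj (by simp)
  have hnV : ∀ i, a ≤ i → (Sum.inr (Sum.inl i) : Fin l ⊕ Fin l ⊕ κ) ∉ D := by
    rintro i hi (⟨j, hj, hj'⟩ | ⟨j, hj, hj'⟩)
    · exact absurd hj (by simp)
    · rw [Sum.inl_injective (Sum.inr_injective hj)] at hi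
      exact absurd hi (not_le.2 hj')
  have hnZ : (Sum.inr (Sum.inr default) : Fin l ⊕ Fin l ⊕ κ) ∉ D := by
    rintro (⟨j, hj, hj'⟩ | ⟨j, hj, hj'⟩)
    · exact absurd hj (by simp)
    · exact absurd (Sum.inr_injective hj) (by simp)
  have e1 : ∀ i, i ≤ a → c1 (Sum.inl i) = 0 := by
    intro i hi
    rw [hc1C _ (hnX i hi)]
    simp [red2]
  have e2 : ∀ i, a < i → c1 (Sum.inr (Sum.inl i)) = algebraMap k N1 (δ i) := by
    intro i hi
    rw [hc1C _ (hnV i hi.le)]
    simp [red2, hi.ne']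
  have e3 : c1 (Sum.inr (Sum.inl a)) = V1 := by
    rw [hc1C _ (hnV a le_rfl)]
    simp [red2]
  have e4 : c1 (Sum.inr (Sum.inr default)) = Z1 := by
    rw [hc1C _ hnZ]
    simp [red2]
  have hU1 : (P2 p f g a δ hδ).U c1 := by
    refine ⟨e1, e2, ?_⟩
    rw [Fintype.sum_unique, e3, e4]
    exact heq1
  have hcs : tdeg k (Set.range c) = tdeg k (c '' (D2 κ a)ᶜ) + (D2 κ a).ncard := by
    have h1 : (D2 κ a).ncard + 1 = l := hDn
    have h2 : tdeg k (c '' (D2 κ a)ᶜ) = 0 := h0
    rw [hs, h2]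
    omega
  -- comparison with a residue point
  have hcmp : ∀ (v' : Place k N1), (∀ i, c1 i ∈ v'.ring) →
      (P2 p f g a δ hδ).U (fun i => v'.res (c1 i)) →
      (∀ F : MvPolynomial (Fin 2) k, v'.val (MvPolynomial.aeval ![Z1, V1] F) < 1 ↔
          w.val (MvPolynomial.aeval ![Z1, V1] F) < 1) →
      s ≤ tdeg k (Set.range fun i => v'.res (c1 i)) →
      homIdeal k ((P2 p f g a δ hδ).Φ c) =
        homIdeal k ((P2 p f g a δ hδ).Φ fun i => v'.res (c1 i)) := by
    intro v' hring hU2 hF hle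
    have hZr : Z1 ∈ v'.ring := by rw [← e4]; exact hring _
    have hVr : V1 ∈ v'.ring := by rw [← e3]; exact hring _
    refine cyl_unique a δ hδ c _ hU hU2 ?_ hcs (by rw [hs]; exact hle)
    have h1 : ∀ F : MvPolynomial (Fin 2) k, MvPolynomial.aeval ![z, v] F = 0 →
        MvPolynomial.aeval ![v'.res Z1, v'.res V1] F = 0 := by
      intro F hF0
      rw [val_aeval_two v' hZr hVr, hF]
      exact hwF F hF0
    have h2 := ker_le_of_tdeg ![z, v] ![v'.res Z1, v'.res V1] h1 (by
      have h3 : Set.range ![z, v] = {z, v} := by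
        rw [Matrix.range_cons, Matrix.range_cons, Matrix.range_empty, Set.union_empty,
          Set.singleton_union]
      rw [h3, h00]
      exact Nat.zero_le _)
    intro F
    have h3 := h2 F
    rw [← e4, ← e3] at h3
    exact h3
  refine rel_solve hess htr1 ((P2 p f g a δ hδ).pt c1 hU1) hφ0 hV ?_ ?_
  · intro v' y hy hys hord
    by_cases hgood : (∀ i, c1 i ∈ v'.ring) ∧ (P2 p f g a δ hδ).U (fun i => v'.res (c1 i))
    · left
      obtain ⟨hring, hU2⟩ := hgood
      have hgd := (P2 p f g a δ hδ).good v' c1 hU1 hring hU2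
      have hZr : Z1 ∈ v'.ring := by rw [← e4]; exact hring _
      have hφ1 : v'.val φ ≠ 1 := fun h => hord ((v'.ord_eq_zero_iff hφ0).2 h)
      obtain ⟨h1, h2⟩ := hφ v' hZr hφ1
      have h3 : tdeg k (Set.range fun i => v'.res (c1 i)) = s := by
        have h4 := Param.tdeg_ratioField hU2
        rw [hy.ratioField_eq hgd, hys, Nat.cast_inj] at h4
        exact h4.symm
      refine ⟨?_, (v'.ord_pos_iff hφ0).2 h1⟩
      rw [hcmp v' hring hU2 h2 h3.ge, hgd.homIdeal_eq hy]
    · right
      refine bad_mem hW ?_ ((P2 p f g a δ hδ).bad v' c1 y hU1 hy hgood)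
      rw [trdeg_cone hy.1, hys]
  · let w' : Place k N1 := under k w
    have hLr : ∀ b : L, algebraMap L N1 b ∈ w'.ring := fun b => w.val_algebraMap_le b
    have hZr : Z1 ∈ w'.ring := hwZ
    have hVr : V1 ∈ w'.ring := hwV
    have hring : ∀ i, c1 i ∈ w'.ring := by
      intro i
      by_cases h : i ∈ D
      · rw [hc1D i h]; exact hLr _
      · rw [hc1C i h]
        exact (aeval_res w' (z := ![Z1, V1]) (by
          intro b
          fin_cases b
          · exact hZr
          · exact hVr) _).1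
    let ρ : L →ₐ[k] w'.resField :=
      { toFun := fun b => w'.res (algebraMap L N1 b)
        map_one' := by rw [map_one, w'.res_one]
        map_zero' := by rw [map_zero, w'.res_zero]
        map_mul' := fun a b => by rw [map_mul, w'.res_mul (hLr a) (hLr b)]
        map_add' := fun a b => by rw [map_add, w'.res_add (hLr a) (hLr b)]
        commutes' := fun b => by
          rw [← IsScalarTower.algebraMap_apply, w'.res_algebraMap] }
    have hU2 : (P2 p f g a δ hδ).U (fun i => w'.res (c1 i)) := by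
      refine ⟨fun i hi => ?_, fun i hi => ?_, ?_⟩
      · change w'.res (c1 (Sum.inl i)) = 0
        rw [e1 i hi, w'.res_zero]
      · change w'.res (c1 (Sum.inr (Sum.inl i))) = _
        rw [e2 i hi, w'.res_algebraMap]
      · have h1 := (val_aeval_two w' hZr hVr (hcurve (p ^ f) g)).2 (by
          rw [aeval_hcurve, heq1, map_zero]; exact zero_lt_one)
        rw [aeval_hcurve, ← e3, ← e4] at h1
        rw [Fintype.sum_unique]
        exact h1
    have hle : s ≤ tdeg k (Set.range fun i => w'.res (c1 i)) := by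
      let c0 : D → L := fun i => ⟨c i, IntermediateField.subset_adjoin k _ ⟨i, i.2, rfl⟩⟩
      have h1 : L.val '' Set.range c0 = c '' D := by
        rw [← Set.range_comp, Set.image_eq_range]
        rfl
      have h2 : tdeg k (Set.range c0) = s := by
        rw [← tdeg_image L.val, h1, htD]
      have h3 : ρ '' Set.range c0 ⊆ Set.range fun i => w'.res (c1 i) := by
        rintro _ ⟨_, ⟨i, rfl⟩, rfl⟩
        refine ⟨i, ?_⟩
        change w'.res (c1 i) = w'.res (algebraMap L N1 _)
        rw [hc1D i i.2]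
      rw [← h2, ← tdeg_image ρ]
      exact tdeg_mono' (Set.finite_range _) h3
    have hge : tdeg k (Set.range fun i => w'.res (c1 i)) ≤ s := by
      have h1 := trdeg_resField_le w' htr1
      have h2 := trdeg_le_of_inj (IntermediateField.adjoin k
        (Set.range fun i => w'.res (c1 i))).val Subtype.val_injective
      have h3 := h2.trans h1
      rw [tdeg_spec (Set.finite_range _), Nat.cast_le] at h3
      exact h3
    refine ⟨w', _, (P2 p f g a δ hδ).good w' c1 hU1 hring hU2, ?_,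
      (w'.ord_pos_iff hφ0).2 hwφ, ?_⟩
    · rw [Param.tdeg_ratioField hU2, le_antisymm hge hle]
    · exact (hcmp w' hring hU2 (fun F => Iff.rfl) hle).symm

/-- Type II with one variable `Z`, over a finite field. -/
theorem stepII1 [Unique κ] [Finite k] {p f : ℕ} [hp : Fact p.Prime] [CharP k p] (hf : 0 < f)
    {g : k} (hg : g ≠ 0)
    (hk : ∀ (N : Type) (_ : Field N) (_ : Algebra k N) (x : N), x ^ ((p ^ f) ^ 2) = x →
      ∃ d : k, algebraMap k N d = x) (a : Fin l)
    {s : ℕ} (V : Submodule ℚ (Ideal (MvPolynomial (Fin l ⊕ Fin l ⊕ κ) k) →₀ ℚ))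
    (hV : rat {hform l κ (p ^ f) g} s ≤ V) (hW : WW (p ^ f) g κ s a V)
    (hgen : a.val + 1 = l → s = l → ∀ (N : Type) (_ : Field N) (_ : Algebra k N)
      (c : Fin l ⊕ Fin l ⊕ κ → N), (∀ i, i ≤ a → c (Sum.inl i) = 0) →
      c (Sum.inr (Sum.inl a)) ^ (p ^ f) - c (Sum.inr (Sum.inl a)) +
        algebraMap k N g * ∑ j, c (Sum.inr (Sum.inr j)) ^ (p ^ f + 1) = 0 →
      tdeg k (Set.range c) = l →
      Finsupp.single (homIdeal k (psi (p ^ f) a (fun i => c (Sum.inl i))
        (fun i => c (Sum.inr (Sum.inl i))) (fun j => c (Sum.inr (Sum.inr j))))) 1 ∈ V) :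
    CC (p ^ f) g κ s a l V := by
  classical
  intro N _ _ X v Z hme htr hv
  have hq2 : (p ^ f) ^ 2 ≠ 0 := (pow_pos (pow_pos hp.out.pos f) 2).ne'
  have hq : 2 ≤ p ^ f := by
    calc 2 ≤ p := hp.out.two_le
      _ = p ^ 1 := (pow_one p).symm
      _ ≤ p ^ f := Nat.pow_le_pow_right hp.out.pos hf
  have hd : ∀ i, ∃ d : k, (a < i → algebraMap k N d = v i) ∧ d ^ ((p ^ f) ^ 2) = d := by
    intro i
    by_cases hi : a < i
    · obtain ⟨d, hd⟩ := hk N _ _ (v i) (hv i hi i.2)
      refine ⟨d, fun _ => hd, ?_⟩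
      apply (algebraMap k N).injective
      rw [map_pow, hd, hv i hi i.2]
    · exact ⟨0, fun h => absurd h hi, zero_pow hq2⟩
  choose δ hδv hδ using hd
  have hc := U2_of_me (κ := κ) hδ hme (fun i hi => (hδv i hi).symm)
  have hc' : (P2 p f g a δ hδ).Φ (Sum.elim (fun i => if i ≤ a then 0 else X i)
      (Sum.elim v Z)) = psi (p ^ f) a X v Z := by
    refine psi_congr _ _ (fun i hi => ?_) (fun _ => rfl) (fun _ => rfl)
    simp only [Sum.elim_inl, if_neg (not_le.2 hi)]
  rw [← hc', Param.tdeg_ratioField hc, Nat.cast_inj] at htr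
  rw [← hc']
  refine (P2 p f g a δ hδ).move (by rintro P rfl; exact ⟨_, hform_homogeneous _ _⟩) hV ?_ ?_ _ hc
    htr
  · intro Q hQ hbad
    exact bad_mem hW hQ.dim hbad
  · intro E _ _ d hd hds hdD
    have hn := ncard_D2 (κ := κ) p f g a δ hδ
    have h1 := tdeg_curve hq (U2_eq hd)
    rw [← tdeg_D2 hd] at h1
    have hD : (P2 (κ := κ) p f g a δ hδ).D = D2 κ a := rfl
    rw [hD] at hdD hn
    rcases Nat.lt_or_ge (tdeg k (d '' (D2 κ a)ᶜ)) 1 with h2 | h2
    · have h3 : tdeg k (d '' (D2 κ a)ᶜ) = 0 := by omega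
      exact cylII hf hg a δ hδ V hV hW d hd h3 hds (by omega)
    · have h3 : s = l := by
        have := h1.1
        omega
      by_cases hlast : a.val + 1 = l
      · exact hgen hlast h3 E _ _ d hd.1 hd.2.2 (by rw [hds, h3])
      · have hae : ∃ e : Fin l, a < e := ⟨⟨l - 1, by have := a.2; omega⟩, by
          rw [Fin.lt_def]
          have := a.2
          change a.val < l - 1
          omega⟩
        obtain ⟨e, hae⟩ := hae
        set L := IntermediateField.adjoin k (Set.range d) with hL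
        let d0 : Fin l ⊕ Fin l ⊕ κ → L :=
          fun i => ⟨d i, IntermediateField.subset_adjoin k _ ⟨i, rfl⟩⟩
        have e1' : (fun i => L.val (d0 i)) = d := rfl
        have hU0 : (P2 p f g a δ hδ).U d0 := by
          rw [← (P2 p f g a δ hδ).natU L.val, e1']
          exact hd
        have hid : homIdeal k ((P2 p f g a δ hδ).Φ d) = homIdeal k ((P2 p f g a δ hδ).Φ d0) := by
          rw [← Param.homIdeal_nat L.val hU0, e1']
        have ht0 : tdeg k (Set.range d0) = s := by
          rw [← hds, ← tdeg_image L.val, ← Set.range_comp]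
          rfl
        haveI : Algebra.EssFiniteType k L := by
          rw [IntermediateField.essFiniteType_iff]
          exact IntermediateField.fg_adjoin_of_finite (Set.finite_range d)
        have htL : Algebra.trdeg k L = s := by
          rw [hL, tdeg_spec (Set.finite_range d), hds]
        rw [hid]
        refine relII hf hae δ hδ V hV hW htL d0 hU0 ht0 ?_
        intro E' _ _ c' hc'U hc's
        right
        exact uniqII1 hf hg a δ hδ c' d0 hc'U hU0 (by rw [hc's, h3]) (by rw [ht0, h3])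

end Pool.Agent.HC
end

/- Helper16.DP.HC.HX0 -/
section
set_option autoImplicit false
set_option linter.style.haveILetI false
set_option linter.unusedSectionVars false

/-! Project HC, part H: the generators in the middle dimension, and their number. -/

namespace Pool.Agent.HC

open Pool.Agent.Helper16 IntermediateField

namespace Param

variable {K σ ι : Type} [Field K] {I : Set (MvPolynomial σ K)} (P : Param K I ι)

theorem tdeg_c0 [Finite ι] (e : ι → K) : tdeg K (Set.range (P.c0 e)) = P.D.ncard := by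
  classical
  have : Fintype P.D := Fintype.ofFinite _
  let u : P.D → FractionRing (MvPolynomial P.D K) := fun i =>
    algebraMap (MvPolynomial P.D K) _ (MvPolynomial.X i)
  have h1 : IntermediateField.adjoin K (Set.range (P.c0 e)) =
      IntermediateField.adjoin K (Set.range u) := by
    refine le_antisymm ?_ ?_
    · rw [IntermediateField.adjoin_le_iff]
      rintro _ ⟨i, rfl⟩
      by_cases hi : i ∈ P.D
      · simp only [c0, dif_pos hi]
        exact IntermediateField.subset_adjoin K _ ⟨⟨i, hi⟩, rfl⟩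
      · simp only [c0, dif_neg hi]
        exact IntermediateField.algebraMap_mem _ _
    · refine IntermediateField.adjoin.mono K _ _ ?_
      rintro _ ⟨i, rfl⟩
      refine ⟨i, ?_⟩
      simp only [c0, dif_pos i.2]
      rfl
  have h2 : AlgebraicIndependent K u :=
    (MvPolynomial.algebraicIndependent_X P.D K).map'
      (f := IsScalarTower.toAlgHom K (MvPolynomial P.D K) (FractionRing (MvPolynomial P.D K)))
      (IsFractionRing.injective _ _)
  have h3 : Fintype.card P.D = P.D.ncard := by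
    rw [Set.ncard_eq_toFinset_card', Set.toFinset_card]
  let ε : Fin P.D.ncard ≃ P.D := (Fintype.equivFinOfCardEq h3).symm
  have h4 : Set.range u = Set.range (u ∘ ε) := (ε.surjective.range_comp u).symm
  have h5 : tdeg K (Set.range (P.c0 e)) = tdeg K (Set.range u) := by
    unfold tdeg
    rw [h1]
  rw [h5, h4]
  exact tdeg_range_of_indep (h2.comp ε ε.injective)

theorem isSub_fund [Finite σ] [Finite ι] (hI : ∀ F ∈ I, ∃ d, F.IsHomogeneous d) {e : ι → K}
    (hU : P.U (P.c0 e)) : IsSub I P.D.ncard (P.fund e) := by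
  refine isSub_of_pt hI (P.pt _ hU) ?_
  rw [tdeg_ratioField hU, P.tdeg_c0]

end Param

variable {k : Type} [Field k] {l : ℕ} {κ : Type} [Fintype κ]

theorem U_c0_P2 [IsEmpty κ] {p f : ℕ} [hp : Fact p.Prime] [CharP k p] {g : k} (a : Fin l)
    (δ : Fin l → k) (hδ : ∀ i, δ i ^ ((p ^ f) ^ 2) = δ i) (ha : δ a ^ (p ^ f) = δ a) :
    (P2 (κ := κ) p f g a δ hδ).U ((P2 (κ := κ) p f g a δ hδ).c0 (e1 κ δ)) := by
  classical
  have h1 : ∀ i, i ≤ a → (Sum.inl i : Fin l ⊕ Fin l ⊕ κ) ∉ (P2 (κ := κ) p f g a δ hδ).D := by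
    rintro i hi (⟨i', h, h'⟩ | ⟨i', h, -⟩)
    · cases h
      exact absurd h' (not_lt.2 hi)
    · cases h
  have h2 : ∀ i, a ≤ i →
      (Sum.inr (Sum.inl i) : Fin l ⊕ Fin l ⊕ κ) ∉ (P2 (κ := κ) p f g a δ hδ).D := by
    rintro i hi (⟨i', h, -⟩ | ⟨i', h, h'⟩)
    · cases h
    · cases h
      exact absurd h' (not_lt.2 hi)
  refine ⟨fun i hi => ?_, fun i hi => ?_, ?_⟩
  · unfold Param.c0
    rw [dif_neg (h1 i hi)]
    simp only [e1, Sum.elim_inl, map_zero]
  · unfold Param.c0
    rw [dif_neg (h2 i hi.le)]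
    simp only [e1, Sum.elim_inl, Sum.elim_inr]
  · rw [Finset.univ_eq_empty, Finset.sum_empty, mul_zero, add_zero]
    unfold Param.c0
    rw [dif_neg (h2 a le_rfl)]
    simp only [e1, Sum.elim_inl, Sum.elim_inr]
    rw [← map_pow, ha, sub_self]

theorem isSub_fund_P2 [IsEmpty κ] {p f : ℕ} [hp : Fact p.Prime] [CharP k p] {g : k} (a : Fin l)
    (δ : Fin l → k) (hδ : ∀ i, δ i ^ ((p ^ f) ^ 2) = δ i) (ha : δ a ^ (p ^ f) = δ a) :
    IsSub {hform l κ (p ^ f) g} (l - 1) ((P2 (κ := κ) p f g a δ hδ).fund (e1 κ δ)) := by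
  have h1 := (P2 (κ := κ) p f g a δ hδ).isSub_fund
    (by rintro P rfl; exact ⟨_, hform_homogeneous _ _⟩) (U_c0_P2 a δ hδ ha)
  have h2 := ncard_D2 (κ := κ) p f g a δ hδ
  have h3 : (P2 (κ := κ) p f g a δ hδ).D.ncard = l - 1 := by (clear * - h2; omega)
  rwa [h3] at h1

/-! ### The number of generators -/

theorem sum_pow_aux (u Q : ℕ) (hQ : Q = u * (u + 2) + 1) (n : ℕ) :
    u * (u + 2) * ∑ a ∈ Finset.range n, Q ^ (n - a) + Q = Q ^ (n + 1) := by
  induction n with
  | zero => simp
  | succ n ih =>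
    rw [Finset.sum_range_succ]
    have h1 : ∑ a ∈ Finset.range n, Q ^ (n + 1 - a) = Q * ∑ a ∈ Finset.range n, Q ^ (n - a) := by
      rw [Finset.mul_sum]
      refine Finset.sum_congr rfl fun a ha => ?_
      rw [← pow_succ']
      congr 1
      have := Finset.mem_range.1 ha
      omega
    have h2 : n + 1 - n = 1 := by omega
    rw [h1, h2, pow_one]
    have h3 : Q ^ (n + 1 + 1) = Q * Q ^ (n + 1) := pow_succ' Q (n + 1)
    rw [h3, ← ih]
    have h4 : u * (u + 2) * Q + Q = Q * Q := by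
      conv_rhs => rw [hQ]
      rw [hQ]
      ring
    calc u * (u + 2) * (Q * ∑ a ∈ Finset.range n, Q ^ (n - a) + Q) + Q
        = Q * (u * (u + 2) * ∑ a ∈ Finset.range n, Q ^ (n - a)) + (u * (u + 2) * Q + Q) := by ring
      _ = Q * (u * (u + 2) * ∑ a ∈ Finset.range n, Q ^ (n - a) + Q) := by rw [h4]; ring

theorem sum_gen_eq {q : ℕ} (hq : 0 < q) {l : ℕ} (hl : 0 < l) :
    (∑ a : Fin l, (if a.val + 1 = l then q else (q - 1) * (q ^ 2) ^ (l - 1 - a.val))) * (q + 1) =
      q ^ (2 * l) + q := by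
  obtain ⟨n, rfl⟩ : ∃ n, l = n + 1 := ⟨l - 1, by omega⟩
  obtain ⟨u, rfl⟩ : ∃ u, q = u + 1 := ⟨q - 1, by omega⟩
  rw [Fin.sum_univ_castSucc]
  have h1 : ∀ a : Fin n, (if (Fin.castSucc a).val + 1 = n + 1 then u + 1 else
      (u + 1 - 1) * ((u + 1) ^ 2) ^ (n + 1 - 1 - (Fin.castSucc a).val)) =
      u * ((u + 1) ^ 2) ^ (n - a.val) := by
    intro a
    have := a.2
    rw [Fin.val_castSucc, if_neg (by omega)]
    congr 2
  have h2 : (if (Fin.last n).val + 1 = n + 1 then u + 1 else
      (u + 1 - 1) * ((u + 1) ^ 2) ^ (n + 1 - 1 - (Fin.last n).val)) = u + 1 := by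
    rw [Fin.val_last, if_pos rfl]
  rw [Finset.sum_congr rfl fun a _ => h1 a, h2, ← Finset.mul_sum,
    Fin.sum_univ_eq_sum_range (fun a => ((u + 1) ^ 2) ^ (n - a)) n]
  have h3 := sum_pow_aux u ((u + 1) ^ 2) (by ring) n
  rw [pow_mul]
  rw [← h3]
  ring

theorem card_roots_le {q : ℕ} (hq : 1 < q) (R : Finset k) (hR : ∀ x ∈ R, x ^ q = x) :
    R.card ≤ q := by
  classical
  have h0 := FiniteField.X_pow_card_sub_X_ne_zero k hq
  have h1 : R ⊆ (Polynomial.X ^ q - Polynomial.X : Polynomial k).roots.toFinset := by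
    intro x hx
    rw [Multiset.mem_toFinset, Polynomial.mem_roots h0, Polynomial.IsRoot, Polynomial.eval_sub,
      Polynomial.eval_pow, Polynomial.eval_X, hR x hx, sub_self]
  refine (Finset.card_le_card h1).trans ((Multiset.toFinset_card_le _).trans ?_)
  refine (Polynomial.card_roots' _).trans ?_
  rw [FiniteField.X_pow_card_sub_X_natDegree_eq k hq]

theorem prod_aux (a : Fin l) (c Q : ℕ) :
    ∏ i : Fin l, (if i < a then 1 else if i = a then c else Q) = c * Q ^ (l - 1 - a.val) := by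
  classical
  rw [← Finset.mul_prod_erase Finset.univ _ (Finset.mem_univ a), if_neg (lt_irrefl a), if_pos rfl]
  congr 1
  have h1 : ∏ x ∈ Finset.univ.erase a, (if x < a then 1 else if x = a then c else Q) =
      ∏ x ∈ Finset.univ.erase a, (if a < x then Q else 1) := by
    refine Finset.prod_congr rfl fun x hx => ?_
    have hxa := Finset.ne_of_mem_erase hx
    rcases lt_or_gt_of_ne hxa with h | h
    · rw [if_pos h, if_neg h.not_gt]
    · rw [if_neg h.not_gt, if_neg hxa, if_pos h]
  rw [h1, ← Finset.prod_filter, Finset.prod_const]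
  congr 1
  have h2 : (Finset.univ.erase a).filter (fun x => a < x) = Finset.Ioi a := by
    ext x
    simp only [Finset.mem_filter, Finset.mem_erase, Finset.mem_univ, and_true, Finset.mem_Ioi]
    exact ⟨fun h => h.2, fun h => ⟨h.ne', h⟩⟩
  rw [h2, Fin.card_Ioi]

theorem count2 [IsEmpty κ] {p f : ℕ} [hp : Fact p.Prime] [CharP k p] (hf : 0 < f) {g : k}
    (hl : 0 < l) :
    ∃ G : Finset (Ideal (MvPolynomial (Fin l ⊕ Fin l ⊕ κ) k)),
      G.card ≤ ((p ^ f) ^ (2 * l) + p ^ f) / (p ^ f + 1) ∧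
      (∀ P ∈ G, IsSub {hform l κ (p ^ f) g} (l - 1) P) ∧
      ∀ (a : Fin l) (δ : Fin l → k) (hδ : ∀ i, δ i ^ ((p ^ f) ^ 2) = δ i),
        δ a ^ (p ^ f) = δ a → (δ a ≠ 0 ∨ a.val + 1 = l) → (∀ i, i < a → δ i = 0) →
        (P2 (κ := κ) p f g a δ hδ).fund (e1 κ δ) ∈ G := by
  classical
  have hq : 1 < p ^ f := Nat.one_lt_pow hf.ne' hp.out.one_lt
  have hq2 : 1 < (p ^ f) ^ 2 := Nat.one_lt_pow two_ne_zero hq
  let R1 : Finset k := (Polynomial.X ^ (p ^ f) - Polynomial.X : Polynomial k).roots.toFinset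
  let R2 : Finset k := (Polynomial.X ^ ((p ^ f) ^ 2) - Polynomial.X : Polynomial k).roots.toFinset
  have hR1 : ∀ x, x ∈ R1 ↔ x ^ (p ^ f) = x := by
    intro x
    rw [Multiset.mem_toFinset, Polynomial.mem_roots (FiniteField.X_pow_card_sub_X_ne_zero k hq),
      Polynomial.IsRoot, Polynomial.eval_sub, Polynomial.eval_pow, Polynomial.eval_X, sub_eq_zero]
  have hR2 : ∀ x, x ∈ R2 ↔ x ^ ((p ^ f) ^ 2) = x := by
    intro x
    rw [Multiset.mem_toFinset, Polynomial.mem_roots (FiniteField.X_pow_card_sub_X_ne_zero k hq2),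
      Polynomial.IsRoot, Polynomial.eval_sub, Polynomial.eval_pow, Polynomial.eval_X, sub_eq_zero]
  let A : Fin l → Fin l → Finset k := fun a i =>
    if i < a then {0} else if i = a then (if a.val + 1 = l then R1 else R1.erase 0) else R2
  have hA : ∀ a, ∀ δ ∈ Fintype.piFinset (A a), δ a ^ (p ^ f) = δ a ∧
      ∀ i, δ i ^ ((p ^ f) ^ 2) = δ i := by
    intro a δ hδ
    rw [Fintype.mem_piFinset] at hδ
    have h1 : δ a ^ (p ^ f) = δ a := by
      have h2 := hδ a
      simp only [A, lt_irrefl, if_false, if_true] at h2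
      rw [← hR1]
      split_ifs at h2
      · exact h2
      · exact Finset.mem_of_mem_erase h2
    refine ⟨h1, fun i => ?_⟩
    rcases lt_trichotomy i a with hi | rfl | hi
    · have h2 := hδ i
      simp only [A, if_pos hi, Finset.mem_singleton] at h2
      rw [h2, zero_pow (by omega)]
    · rw [sq, pow_mul, h1, h1]
    · have h2 := hδ i
      simp only [A, if_neg hi.not_gt, if_neg hi.ne'] at h2
      exact (hR2 _).1 h2
  refine ⟨Finset.univ.biUnion fun a => (Fintype.piFinset (A a)).attach.image fun δ =>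
    (P2 (κ := κ) p f g a δ.1 (hA a δ.1 δ.2).2).fund (e1 κ δ.1), ?_, ?_, ?_⟩
  · rw [Nat.le_div_iff_mul_le (by omega), ← sum_gen_eq (by omega) hl]
    refine Nat.mul_le_mul_right _ (Finset.card_biUnion_le.trans (Finset.sum_le_sum fun a _ => ?_))
    refine Finset.card_image_le.trans ?_
    rw [Finset.card_attach, Fintype.card_piFinset]
    have hc1 : R1.card ≤ p ^ f := card_roots_le hq R1 fun x hx => (hR1 x).1 hx
    have hc2 : R2.card ≤ (p ^ f) ^ 2 := card_roots_le hq2 R2 fun x hx => (hR2 x).1 hx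
    have hc3 : (R1.erase 0).card ≤ p ^ f - 1 := by
      rw [Finset.card_erase_of_mem ((hR1 0).2 (zero_pow (by omega)))]
      omega
    have h2 : ∀ i, (A a i).card ≤ (if i < a then 1 else if i = a then
        (if a.val + 1 = l then p ^ f else p ^ f - 1) else (p ^ f) ^ 2) := by
      intro i
      simp only [A]
      split_ifs
      · rw [Finset.card_singleton]
      · exact hc1
      · exact hc3
      · exact hc2
    refine (Finset.prod_le_prod' fun i _ => h2 i).trans (le_of_eq ?_)
    rw [prod_aux]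
    split_ifs with h
    · have h3 : l - 1 - a.val = 0 := by omega
      rw [h3, pow_zero, mul_one]
    · rfl
  · intro P hP
    rw [Finset.mem_biUnion] at hP
    obtain ⟨a, -, hP⟩ := hP
    rw [Finset.mem_image] at hP
    obtain ⟨δ, -, rfl⟩ := hP
    exact isSub_fund_P2 a _ _ (hA a δ.1 δ.2).1
  · intro a δ hδ h1 h2 h3
    rw [Finset.mem_biUnion]
    refine ⟨a, Finset.mem_univ _, ?_⟩
    rw [Finset.mem_image]
    have hmem : δ ∈ Fintype.piFinset (A a) := by
      rw [Fintype.mem_piFinset]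
      intro i
      simp only [A]
      rcases lt_trichotomy i a with hi | rfl | hi
      · rw [if_pos hi, h3 i hi, Finset.mem_singleton]
      · rw [if_neg (lt_irrefl i), if_pos rfl]
        split_ifs with h4
        · exact (hR1 _).2 h1
        · exact Finset.mem_erase.2 ⟨h2.resolve_right h4, (hR1 _).2 h1⟩
      · rw [if_neg hi.not_gt, if_neg hi.ne']
        exact (hR2 _).2 (hδ i)
    exact ⟨⟨δ, hmem⟩, Finset.mem_attach _ _, rfl⟩

end Pool.Agent.HC
end

/- Helper16.DP.HC.HV8 -/
section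
set_option autoImplicit false
set_option linter.style.haveILetI false
set_option linter.unusedSectionVars false

/-! Project HC, part H: the strata of type III. -/

namespace Pool.Agent.HC

open Pool.Agent.Helper16 IntermediateField

variable {k : Type} [Field k] {l : ℕ} {κ : Type} [Fintype κ]

/-- The domain of the stratum of type III. -/
def U3 (κ : Type) (a : Fin l) {N : Type} [Field N] (c : Fin l ⊕ Fin l ⊕ κ → N) : Prop :=
  (∀ i, c (Sum.inl i) = 0) ∧ (∀ i, i < a → c (Sum.inr (Sum.inl i)) = 0) ∧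
    c (Sum.inr (Sum.inl a)) = 1 ∧ ∀ j, c (Sum.inr (Sum.inr j)) = 0

theorem hval_zero {q : ℕ} (hq : 0 < q) (g : k) {N : Type} [Field N] [Algebra k N]
    {c : Fin l ⊕ Fin l ⊕ κ → N} (h1 : ∀ i, c (Sum.inl i) = 0)
    (h2 : ∀ j, c (Sum.inr (Sum.inr j)) = 0) : hval q g c = 0 := by
  unfold hval
  rw [Finset.sum_eq_zero fun i _ => ?_, Finset.sum_eq_zero fun j _ => ?_, mul_zero, add_zero]
  · rw [h2, zero_pow (Nat.succ_ne_zero q)]
  · rw [h1, zero_pow hq.ne', zero_mul, zero_mul, sub_zero]

/-- The stratum of type III as a parametrised family. -/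
noncomputable def P3 (κ : Type) [Fintype κ] (q : ℕ) (hq : 0 < q) (g : k) (a : Fin l) :
    Param k {hform l κ q g} (Fin l ⊕ Fin l ⊕ κ) where
  U := fun c => U3 κ a c
  Φ := fun c => c
  D := {x | ∃ i, x = Sum.inr (Sum.inl i) ∧ a < i}
  Bad := fun Q => ∃ (N : Type) (_ : Field N) (_ : Algebra k N) (y : Fin l ⊕ Fin l ⊕ κ → N),
    IsPt {hform l κ q g} y ∧ homIdeal k y = Q ∧ (∀ i, y (Sum.inl i) = 0) ∧
      (∀ i, i ≤ a → y (Sum.inr (Sum.inl i)) = 0) ∧ ∀ j, y (Sum.inr (Sum.inr j)) = 0
  pt := by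
    intro N _ _ c hc
    refine ⟨fun h => ?_, ?_⟩
    · have := congrFun h (Sum.inr (Sum.inl a))
      rw [hc.2.2.1] at this
      exact one_ne_zero this
    · rintro P rfl
      rw [aeval_hform, hval_zero hq g hc.1 hc.2.2.2]
  natU := by
    intro N N' _ _ _ _ φ c
    unfold U3
    simp only [map_eq_zero]
    refine and_congr Iff.rfl (and_congr Iff.rfl (and_congr ?_ Iff.rfl))
    exact map_eq_one_iff φ (show Function.Injective φ from φ.toRingHom.injective)
  natΦ := by
    intro N N' _ _ _ _ φ c _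
    rfl
  alg := by
    intro N _ _ c hc i
    have h1 := div_mem_ratioField (K := k) c i (Sum.inr (Sum.inl a))
    rw [hc.2.2.1, div_one] at h1
    exact isAlgebraic_algebraMap (⟨_, h1⟩ : ratioField k c)
  gen := by
    intro N _ _ c c' x hx hc hcc _
    obtain ⟨i, rfl, hi⟩ := hx
    refine ⟨fun j => ?_, fun j hj => ?_, ?_, fun j => ?_⟩
    · rw [hcc _ (by simp), hc.1]
    · rw [hcc _ ?_, hc.2.1 j hj]
      intro h
      cases h
      exact lt_asymm hi hj
    · rw [hcc _ ?_, hc.2.2.1]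
      intro h
      cases h
      exact lt_irrefl _ hi
    · rw [hcc _ (by simp), hc.2.2.2]
  good := by
    intro N _ _ v c hc hci hcr
    refine ⟨fun h => ?_, 1, one_ne_zero, fun j => ?_⟩
    · have := congrFun h (Sum.inr (Sum.inl a))
      exact one_ne_zero (hcr.2.2.1.symm.trans this)
    · rw [one_mul]
      exact ⟨hci j, rfl⟩
  bad := by
    intro N _ _ v c y hc hsp hnot
    have hpt : IsPt {hform l κ q g} c := by
      refine ⟨fun h => ?_, ?_⟩
      · have := congrFun h (Sum.inr (Sum.inl a))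
        rw [hc.2.2.1] at this
        exact one_ne_zero this
      · rintro P rfl
        rw [aeval_hform, hval_zero hq g hc.1 hc.2.2.2]
    have hpty : IsPt {hform l κ q g} y :=
      hsp.isPt (by rintro P rfl; exact ⟨_, hform_homogeneous _ _⟩) hpt
    obtain ⟨h0, d, hd, h⟩ := hsp
    have hz : ∀ j, c j = 0 → y j = 0 := by
      intro j hj
      rw [(h j).2, hj, mul_zero, v.res_zero]
    refine ⟨v.resField, inferInstance, inferInstance, y, hpty, rfl, fun i => hz _ (hc.1 i),
      fun i hi => ?_, fun j => hz _ (hc.2.2.2 j)⟩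
    rcases hi.lt_or_eq with hi | rfl
    · exact hz _ (hc.2.1 i hi)
    · by_contra hcon
      apply hnot
      have hda := h (Sum.inr (Sum.inl i))
      rw [hc.2.2.1, mul_one] at hda
      have hval : v.val d = 1 := by
        rw [← res_ne_zero_iff v hda.1, ← hda.2]
        exact hcon
      have hmem : ∀ j, c j ∈ v.ring := by
        intro j
        have h1 := (h j).1
        rw [v.mem_ring, map_mul, hval, one_mul] at h1
        exact h1
      refine ⟨hmem, fun j => ?_, fun j hj => ?_, ?_, fun j => ?_⟩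
      · change v.res (c _) = 0
        rw [hc.1, v.res_zero]
      · change v.res (c _) = 0
        rw [hc.2.1 j hj, v.res_zero]
      · change v.res (c _) = 1
        rw [hc.2.2.1, v.res_one]
      · change v.res (c _) = 0
        rw [hc.2.2.2, v.res_zero]

/-- The constants of the stratum of type III. -/
noncomputable def e3 (k : Type) [Field k] (κ : Type) (a : Fin l) : Fin l ⊕ Fin l ⊕ κ → k :=
  Sum.elim (fun _ => 0) (Sum.elim (fun i => if i = a then 1 else 0) fun _ => 0)

/-- The linear space `X = 0`, `Z = 0`, `Y_i = 0` for `i < a`. -/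
noncomputable def LS (κ : Type) [Fintype κ] (q : ℕ) (hq : 0 < q) (g : k) (a : Fin l) :
    Ideal (MvPolynomial (Fin l ⊕ Fin l ⊕ κ) k) :=
  (P3 κ q hq g a).fund (e3 k κ a)

theorem U3_const {a : Fin l} {N : Type} [Field N] [Algebra k N] {c : Fin l ⊕ Fin l ⊕ κ → N}
    (hc : U3 κ a c) {q : ℕ} {hq : 0 < q} {g : k} :
    ∀ i, i ∉ (P3 κ q hq g a).D → c i = algebraMap k N (e3 k κ a i) := by
  rintro (i | i | j) hi
  · rw [hc.1]
    simp only [e3, Sum.elim_inl, map_zero]
  · have h1 : ¬ a < i := fun h => hi ⟨i, rfl, h⟩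
    rcases (not_lt.1 h1).lt_or_eq with h | rfl
    · rw [hc.2.1 i h]
      simp only [e3, Sum.elim_inl, Sum.elim_inr, if_neg h.ne, map_zero]
    · rw [hc.2.2.1]
      simp only [e3, Sum.elim_inl, Sum.elim_inr, if_true, map_one]
  · rw [hc.2.2.2]
    simp only [e3, Sum.elim_inr, map_zero]

theorem ncard_D3 (κ : Type) [Fintype κ] (q : ℕ) (hq : 0 < q) (g : k) (a : Fin l) :
    (P3 κ q hq g a).D.ncard = l - 1 - a := by
  have h1 : (P3 κ q hq g a).D = (fun i : Fin l => (Sum.inr (Sum.inl i) : Fin l ⊕ Fin l ⊕ κ)) ''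
      (Finset.Ioi a : Set (Fin l)) := by
    ext x
    simp only [P3, Set.mem_setOf_eq, Set.mem_image, Finset.coe_Ioi, Set.mem_Ioi]
    constructor
    · rintro ⟨i, rfl, hi⟩
      exact ⟨i, hi, rfl⟩
    · rintro ⟨i, hi, rfl⟩
      exact ⟨i, rfl, hi⟩
  rw [h1, Set.ncard_image_of_injective _ (fun i j h => by simpa using h), Set.ncard_coe_finset,
    Fin.card_Ioi]

/-- All points of dimension `s` with `X = 0` are in `V`. -/
theorem stepIII [Subsingleton κ] {q : ℕ} (hq : 0 < q) {g : k} (hg : g ≠ 0) {s : ℕ}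
    (V : Submodule ℚ (Ideal (MvPolynomial (Fin l ⊕ Fin l ⊕ κ) k) →₀ ℚ))
    (hV : rat {hform l κ q g} s ≤ V)
    (hgen : ∀ a : Fin l, a.val + s + 1 = l → Finsupp.single (LS κ q hq g a) 1 ∈ V)
    {N : Type} [Field N] [Algebra k N] (y : Fin l ⊕ Fin l ⊕ κ → N)
    (hy : IsPt {hform l κ q g} y) (hys : Algebra.trdeg k (ratioField k y) = s)
    (h0 : ∀ i, y (Sum.inl i) = 0) : Finsupp.single (homIdeal k y) 1 ∈ V := by
  have hZ : ∀ (N : Type) [Field N] [Algebra k N] (y : Fin l ⊕ Fin l ⊕ κ → N),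
      IsPt {hform l κ q g} y → (∀ i, y (Sum.inl i) = 0) → ∀ j, y (Sum.inr (Sum.inr j)) = 0 := by
    intro N _ _ y hy h0 j
    have h1 := hy.2 _ rfl
    rw [aeval_hform] at h1
    unfold hval at h1
    rw [Finset.sum_eq_zero fun i _ => by rw [h0, zero_pow hq.ne', zero_mul, zero_mul, sub_zero],
      zero_add, Fintype.sum_subsingleton _ j] at h1
    have h2 := (mul_eq_zero.1 h1).resolve_left fun h => hg ((map_eq_zero _).1 h)
    exact pow_eq_zero_iff (Nat.succ_ne_zero q) |>.1 h2
  -- downward induction on the first nonzero coordinate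
  have key : ∀ (m : ℕ) (n : ℕ), n + m = l → ∀ (N : Type) [Field N] [Algebra k N]
      (y : Fin l ⊕ Fin l ⊕ κ → N), IsPt {hform l κ q g} y →
      Algebra.trdeg k (ratioField k y) = s → (∀ i, y (Sum.inl i) = 0) →
      (∀ i : Fin l, i.val < n → y (Sum.inr (Sum.inl i)) = 0) →
      Finsupp.single (homIdeal k y) 1 ∈ V := by
    intro m
    induction m with
    | zero =>
      intro n hn N _ _ y hy _ h0 h1
      exfalso
      apply hy.1
      funext x
      rcases x with i | i | j
      · exact h0 i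
      · exact h1 i (by have := i.isLt; omega)
      · exact hZ N y hy h0 j
    | succ m ih =>
      intro n hn N _ _ y hy hys h0 h1
      let a : Fin l := ⟨n, by omega⟩
      by_cases hya : y (Sum.inr (Sum.inl a)) = 0
      · refine ih (n + 1) (by omega) N y hy hys h0 fun i hi => ?_
        by_cases hin : i.val = n
        · have : i = a := Fin.ext hin
          rw [this, hya]
        · exact h1 i (by omega)
      · let c : Fin l ⊕ Fin l ⊕ κ → N := fun j => (y (Sum.inr (Sum.inl a)))⁻¹ * y j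
        have hU : (P3 κ q hq g a).U c := by
          refine ⟨fun i => ?_, fun i hi => ?_, ?_, fun j => ?_⟩
          · simp only [c, h0, mul_zero]
          · simp only [c, h1 i hi, mul_zero]
          · exact inv_mul_cancel₀ hya
          · simp only [c, hZ N y hy h0 j, mul_zero]
        have h2 : homIdeal k c = homIdeal k y := homIdeal_scale y (inv_ne_zero hya)
        have h3 : ratioField k c = ratioField k y := ratioField_scale y (inv_ne_zero hya)
        have htd : tdeg k (Set.range c) = s := by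
          have h4 := Param.tdeg_ratioField hU
          change Algebra.trdeg k (ratioField k c) = _ at h4
          rw [h3, hys] at h4
          exact_mod_cast h4.symm
        rw [← h2]
        refine Param.move (P := P3 κ q hq g a) (hform_hom _ _) hV ?_ ?_ c hU htd
        · rintro Q hQ ⟨N', _, _, y', hpt, rfl, h4, h5, h6⟩
          refine ih (n + 1) (by omega) N' y' hpt (trdeg_of_isSub hpt.1 hQ) h4 fun i hi => ?_
          exact h5 i (by rw [Fin.le_def]; change i.val ≤ n; omega)
        · intro N' _ _ d hUd hd1 hd2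
          have he := U3_const (k := k) (hUd : U3 κ a d) (q := q) (hq := hq) (g := g)
          have h0' : tdeg k (d '' (P3 κ q hq g a).Dᶜ) = 0 := by
            refine tdeg_eq_zero_of_const ?_
            rintro _ ⟨i, hi, rfl⟩
            exact ⟨_, (he i hi).symm⟩
          rw [h0', zero_add] at hd2
          have h7 := Param.fund_eq hUd he (by rw [hd1, hd2])
          change homIdeal k d = _ at h7
          change Finsupp.single (homIdeal k d) 1 ∈ V
          rw [h7]
          refine hgen a ?_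
          rw [ncard_D3] at hd2
          change n + s + 1 = l
          change l - 1 - n = s at hd2
          omega
  exact key l 0 (by omega) N y hy hys h0 fun i hi => absurd hi (Nat.not_lt_zero _)

end Pool.Agent.HC
end

/- Helper16.DP.HC.HV9 -/
section
set_option autoImplicit false
set_option linter.style.haveILetI false
set_option linter.unusedSectionVars false

/-! Project HC, part H: assembly of the strata. -/

namespace Pool.Agent.HC

open Pool.Agent.Helper16 IntermediateField

variable {k : Type} [Field k] {l : ℕ} {κ : Type} [Fintype κ]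

/-- A point with first nonzero coordinate `X_a` is of the form `psi`, over a larger field. -/
theorem exists_psi_pt {p f : ℕ} [hp : Fact p.Prime] [CharP k p] {g : k} (a : Fin l)
    {N : Type} [Field N] [Algebra k N] (y : Fin l ⊕ Fin l ⊕ κ → N)
    (hy : IsPt {hform l κ (p ^ f) g} y) (h0 : ∀ i, i < a → y (Sum.inl i) = 0)
    (ha : y (Sum.inl a) ≠ 0) :
    ∃ (Ω : Type) (_ : Field Ω) (_ : Algebra k Ω) (X V : Fin l → Ω) (Z : κ → Ω),
      me (p ^ f) g a X V Z = 0 ∧ homIdeal k (psi (p ^ f) a X V Z) = homIdeal k y ∧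
      Algebra.trdeg k (ratioField k (psi (p ^ f) a X V Z)) =
        Algebra.trdeg k (ratioField k y) := by
  let c : Fin l ⊕ Fin l ⊕ κ → N := fun j => (y (Sum.inl a))⁻¹ * y j
  have h2 : homIdeal k c = homIdeal k y := homIdeal_scale y (inv_ne_zero ha)
  have h3 : ratioField k c = ratioField k y := ratioField_scale y (inv_ne_zero ha)
  have hc : hval (p ^ f) g c = 0 := by
    have h4 : hform l κ (p ^ f) g ∈ homIdeal k c := by
      rw [h2]
      exact (mem_homIdeal_form y (hform_homogeneous _ _)).2 (hy.2 _ rfl)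
    have h5 := (mem_homIdeal_form c (hform_homogeneous _ _)).1 h4
    rwa [aeval_hform] at h5
  let Ω := AlgebraicClosure N
  let φ : N →ₐ[k] Ω := IsScalarTower.toAlgHom k N Ω
  obtain ⟨X, V, Z, h⟩ := exists_psi (Ω := Ω) (pow_pos hp.out.pos f) a (fun j => φ (c j))
    (fun i hi => by simp only [c, h0 i hi, mul_zero, map_zero])
    (by simp only [c, inv_mul_cancel₀ ha, map_one])
  haveI : CharP Ω p := charP_ext (k := k) p Ω
  refine ⟨Ω, inferInstance, inferInstance, X, V, Z, ?_, ?_, ?_⟩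
  · rw [← hval_psi, ← h, ← hval_map, hc, map_zero]
  · rw [← h, homIdeal_map, h2]
  · rw [← h, trdeg_ratioField_map, h3]

theorem assemble [Subsingleton κ] {p f : ℕ} [hp : Fact p.Prime] [CharP k p] {g : k} (hg : g ≠ 0)
    (hk : ∀ (N : Type) (_ : Field N) (_ : Algebra k N) (x : N), x ^ ((p ^ f) ^ 2) = x →
      ∃ d : k, algebraMap k N d = x) {s : ℕ}
    (V : Submodule ℚ (Ideal (MvPolynomial (Fin l ⊕ Fin l ⊕ κ) k) →₀ ℚ))
    (hV : rat {hform l κ (p ^ f) g} s ≤ V)
    (hI : ∀ (a b : Fin l) (hab : a < b), a.val + 1 = b.val →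
      (P1 (κ := κ) p f g a b hab (fun _ => 0)).D.ncard = s →
      Finsupp.single (PS p f g κ a b hab) 1 ∈ V)
    (hII : ∀ a : Fin l, WW (p ^ f) g κ s a V → CC (p ^ f) g κ s a l V)
    (hIII : ∀ a : Fin l, a.val + s + 1 = l →
      Finsupp.single (LS κ (p ^ f) (pow_pos hp.out.pos f) g a) 1 ∈ V) :
    ∀ Q, IsSub {hform l κ (p ^ f) g} s Q → Finsupp.single Q 1 ∈ V := by
  have key : ∀ (m : ℕ) (n : ℕ), n + m = l → ∀ (N : Type) [Field N] [Algebra k N]
      (y : Fin l ⊕ Fin l ⊕ κ → N), IsPt {hform l κ (p ^ f) g} y →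
      Algebra.trdeg k (ratioField k y) = s → (∀ i : Fin l, i.val < n → y (Sum.inl i) = 0) →
      Finsupp.single (homIdeal k y) 1 ∈ V := by
    intro m
    induction m with
    | zero =>
      intro n hn N _ _ y hy hys h0
      exact stepIII (pow_pos hp.out.pos f) hg V hV hIII y hy hys fun i =>
        h0 i (by have := i.isLt; omega)
    | succ m ih =>
      intro n hn N _ _ y hy hys h0
      let a : Fin l := ⟨n, by omega⟩
      have hW : WW (p ^ f) g κ s a V := by
        intro N' _ _ y' hy' hys' h0'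
        refine ih (n + 1) (by omega) N' y' hy' hys' fun i hi => h0' i ?_
        rw [Fin.le_def]
        change i.val ≤ n
        omega
      have hC : ∀ (j B : ℕ), B + j = l → n + 1 ≤ B → CC (p ^ f) g κ s a B V := by
        intro j
        induction j with
        | zero =>
          intro B hB _
          rw [show B = l by omega]
          exact hII a hW
        | succ j ihj =>
          intro B hB hB'
          let b : Fin l := ⟨B, by omega⟩
          have hab : a < b := by
            rw [Fin.lt_def]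
            change n < B
            omega
          exact stepI hk hab V hV hW (ihj (B + 1) (by omega) (by omega)) (hI a b hab)
      by_cases hya : y (Sum.inl a) = 0
      · refine hW N _ _ y hy hys fun i hi => ?_
        rcases hi.lt_or_eq with hi | rfl
        · exact h0 i hi
        · exact hya
      · obtain ⟨Ω, _, _, X, v, Z, h1, h2, h3⟩ := exists_psi_pt a y hy
          (fun i hi => h0 i hi) hya
        rw [← h2]
        refine hC (l - (n + 1)) (n + 1) (by omega) le_rfl Ω _ _ X v Z h1 (by rw [h3, hys]) ?_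
        intro i hi hi'
        rw [Fin.lt_def] at hi
        change n < i.val at hi
        omega
  intro Q hQ
  obtain ⟨N, _, _, y, hy, rfl⟩ := exists_pt hQ
  exact key l 0 (by omega) N y hy (trdeg_of_isSub hy.1 hQ) fun i hi => absurd hi (Nat.not_lt_zero _)

end Pool.Agent.HC
end

/- Helper16.DP.HC.HX2 -/
section
set_option autoImplicit false
set_option linter.style.haveILetI false
set_option linter.unusedSectionVars false

/-! Project HC, part H: assembly from a level on; the generic points. -/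

namespace Pool.Agent.HC

open Pool.Agent.Helper16 IntermediateField

variable {k : Type} [Field k] {l : ℕ} {κ : Type} [Fintype κ]

theorem CC_down {p f : ℕ} [hp : Fact p.Prime] [CharP k p] {g : k}
    (hk : ∀ (N : Type) (_ : Field N) (_ : Algebra k N) (x : N), x ^ ((p ^ f) ^ 2) = x →
      ∃ d : k, algebraMap k N d = x) {s : ℕ}
    (V : Submodule ℚ (Ideal (MvPolynomial (Fin l ⊕ Fin l ⊕ κ) k) →₀ ℚ))
    (hV : rat {hform l κ (p ^ f) g} s ≤ V) {a : Fin l} (hW : WW (p ^ f) g κ s a V)
    (hC : CC (p ^ f) g κ s a l V) (n0 : ℕ) (hn0 : a.val + 1 ≤ n0)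
    (hI : ∀ (b : Fin l) (hab : a < b), n0 ≤ b.val → a.val + 1 = b.val →
      (P1 (κ := κ) p f g a b hab (fun _ => 0)).D.ncard = s →
      Finsupp.single (PS p f g κ a b hab) 1 ∈ V) :
    ∀ (j B : ℕ), B + j = l → n0 ≤ B → CC (p ^ f) g κ s a B V := by
  intro j
  induction j with
  | zero =>
    intro B hB _
    rw [show B = l by omega]
    exact hC
  | succ j ihj =>
    intro B hB hB'
    let b : Fin l := ⟨B, by omega⟩
    have hab : a < b := by
      rw [Fin.lt_def]
      change a.val < B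
      omega
    exact stepI hk hab V hV hW (ihj (B + 1) (by omega) (by omega)) (hI b hab hB')

theorem assembleFrom [Subsingleton κ] {p f : ℕ} [hp : Fact p.Prime] [CharP k p] {g : k}
    (hg : g ≠ 0)
    (hk : ∀ (N : Type) (_ : Field N) (_ : Algebra k N) (x : N), x ^ ((p ^ f) ^ 2) = x →
      ∃ d : k, algebraMap k N d = x) {s : ℕ}
    (V : Submodule ℚ (Ideal (MvPolynomial (Fin l ⊕ Fin l ⊕ κ) k) →₀ ℚ))
    (hV : rat {hform l κ (p ^ f) g} s ≤ V) (n0 : ℕ) (hn0 : n0 ≤ l)
    (hI : ∀ (a b : Fin l) (hab : a < b), n0 ≤ a.val → a.val + 1 = b.val →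
      (P1 (κ := κ) p f g a b hab (fun _ => 0)).D.ncard = s →
      Finsupp.single (PS p f g κ a b hab) 1 ∈ V)
    (hII : ∀ a : Fin l, n0 ≤ a.val → WW (p ^ f) g κ s a V → CC (p ^ f) g κ s a l V)
    (hIII : ∀ a : Fin l, a.val + s + 1 = l →
      Finsupp.single (LS κ (p ^ f) (pow_pos hp.out.pos f) g a) 1 ∈ V)
    {N : Type} [Field N] [Algebra k N] (y : Fin l ⊕ Fin l ⊕ κ → N)
    (hy : IsPt {hform l κ (p ^ f) g} y) (hys : Algebra.trdeg k (ratioField k y) = s)
    (h0 : ∀ i : Fin l, i.val < n0 → y (Sum.inl i) = 0) :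
    Finsupp.single (homIdeal k y) 1 ∈ V := by
  have key : ∀ (m : ℕ) (n : ℕ), n + m = l → n0 ≤ n → ∀ (N : Type) [Field N] [Algebra k N]
      (y : Fin l ⊕ Fin l ⊕ κ → N), IsPt {hform l κ (p ^ f) g} y →
      Algebra.trdeg k (ratioField k y) = s → (∀ i : Fin l, i.val < n → y (Sum.inl i) = 0) →
      Finsupp.single (homIdeal k y) 1 ∈ V := by
    intro m
    induction m with
    | zero =>
      intro n hn _ N _ _ y hy hys h0
      exact stepIII (pow_pos hp.out.pos f) hg V hV hIII y hy hys fun i =>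
        h0 i (by have := i.isLt; omega)
    | succ m ih =>
      intro n hn hn' N _ _ y hy hys h0
      let a : Fin l := ⟨n, by omega⟩
      have hW : WW (p ^ f) g κ s a V := by
        intro N' _ _ y' hy' hys' h0'
        refine ih (n + 1) (by omega) (by omega) N' y' hy' hys' fun i hi => h0' i ?_
        rw [Fin.le_def]
        change i.val ≤ n
        (clear * - n0 m hi; omega)
      have hC := CC_down hk V hV hW (hII a hn' hW) (n + 1) le_rfl
        (fun b hab _ h1 h2 => hI a b hab hn' h1 h2)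
      by_cases hya : y (Sum.inl a) = 0
      · refine hW N _ _ y hy hys fun i hi => ?_
        rcases hi.lt_or_eq with hi | rfl
        · exact h0 i hi
        · exact hya
      · obtain ⟨Ω, _, _, X, v, Z, h1, h2, h3⟩ := exists_psi_pt a y hy
          (fun i hi => h0 i hi) hya
        rw [← h2]
        refine hC (l - (n + 1)) (n + 1) (by omega) le_rfl Ω _ _ X v Z h1 (by rw [h3, hys]) ?_
        intro i hi hi'
        rw [Fin.lt_def] at hi
        change n < i.val at hi
        omega
  exact key (l - n0) n0 (by omega) le_rfl N y hy hys h0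

theorem ncard_D1 {p f : ℕ} [hp : Fact p.Prime] [CharP k p] {g : k} {a b : Fin l} (hab : a < b)
    (h1 : a.val + 1 = b.val) (δ : Fin l → k) :
    (P1 (κ := κ) p f g a b hab δ).D.ncard + a.val + 2 = 2 * l + Fintype.card κ := by
  classical
  have h2 : (P1 (κ := κ) p f g a b hab δ).D = (((Finset.Ioi a).erase b).disjSum
      ((Finset.univ : Finset (Fin l)).disjSum (Finset.univ : Finset κ)) :
        Finset (Fin l ⊕ Fin l ⊕ κ)) := by
    ext x
    rcases x with i | i | j
    · simp only [P1, Set.mem_setOf_eq, Sum.inl.injEq, exists_eq_left', reduceCtorEq, false_and,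
        exists_false, or_false, Finset.mem_coe, Finset.inl_mem_disjSum, Finset.mem_erase,
        Finset.mem_Ioi]
      tauto
    · have : i ≤ a ∨ b ≤ i := by
        rw [Fin.le_def, Fin.le_def]
        omega
      simp only [P1, Set.mem_setOf_eq, reduceCtorEq, false_and, exists_false, Sum.inr.injEq,
        Sum.inl.injEq, exists_eq_left', false_or, or_false, Finset.mem_coe,
        Finset.inr_mem_disjSum, Finset.inl_mem_disjSum, Finset.mem_univ, iff_true]
      exact this
    · simp [P1]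
  rw [h2, Set.ncard_coe_finset, Finset.card_disjSum, Finset.card_disjSum,
    Finset.card_erase_of_mem (Finset.mem_Ioi.2 hab), Fin.card_Ioi, Finset.card_univ,
    Finset.card_univ, Fintype.card_fin]
  have := b.isLt
  omega

theorem c0_const {K σ ι : Type} [Field K] {I : Set (MvPolynomial σ K)} {P : Param K I ι}
    (e : ι → K) {i : ι} (hi : i ∉ P.D) : P.c0 e i = algebraMap K _ (e i) := by
  unfold Param.c0
  rw [dif_neg hi]

theorem c0_transc {K σ ι : Type} [Field K] {I : Set (MvPolynomial σ K)} {P : Param K I ι}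
    (e : ι → K) {i : ι} (hi : i ∈ P.D) : Transcendental K (P.c0 e i) := by
  unfold Param.c0
  rw [dif_pos hi]
  exact (transcendental_algebraMap_iff (IsFractionRing.injective _ _)).2
    (MvPolynomial.transcendental_X K _)

theorem pow_ne_of_transc {N : Type} [Field N] [Algebra k N] {x : N} (hx : Transcendental k x)
    {n : ℕ} (hn : 1 < n) : x ^ n ≠ x := by
  intro h
  apply hx
  refine ⟨Polynomial.X ^ n - Polynomial.X, ?_, ?_⟩
  · exact FiniteField.X_pow_card_sub_X_ne_zero _ hn
  · rw [map_sub, map_pow, Polynomial.aeval_X, h, sub_self]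

theorem one_lt_qq {p f : ℕ} [hp : Fact p.Prime] (hf : 0 < f) : 1 < (p ^ f) ^ 2 := by
  have h3 : 1 < p ^ f := one_lt_pow₀ hp.out.one_lt hf.ne'
  exact one_lt_pow₀ h3 two_ne_zero

theorem U1_c0 {p f : ℕ} [hp : Fact p.Prime] [CharP k p] (hf : 0 < f) {g : k} {a b : Fin l}
    (hab : a < b) (δ : Fin l → k) :
    (P1 (κ := κ) p f g a b hab δ).U ((P1 (κ := κ) p f g a b hab δ).c0 (e1 κ δ)) := by
  refine ⟨fun i hi => ?_, fun i hi hi' => ?_, ?_⟩
  · rw [c0_const]
    · simp only [e1, Sum.elim_inl, map_zero]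
    · rintro (⟨i', h1, h2, h3⟩ | ⟨i', h1, -⟩ | ⟨i', h1⟩)
      · cases h1
        rcases hi with hi | hi
        · exact absurd h2 (not_lt.2 hi)
        · exact h3 hi
      · cases h1
      · cases h1
  · rw [c0_const]
    · simp only [e1, Sum.elim_inl, Sum.elim_inr]
    · rintro (⟨i', h1, -⟩ | ⟨i', h1, h2⟩ | ⟨i', h1⟩)
      · cases h1
      · cases h1
        rcases h2 with h2 | h2
        · exact absurd hi (not_lt.2 h2)
        · exact absurd hi' (not_lt.2 h2)
      · cases h1
  · have h1 : (Sum.inr (Sum.inl b) : Fin l ⊕ Fin l ⊕ κ) ∈ (P1 (κ := κ) p f g a b hab δ).D :=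
      Or.inr (Or.inl ⟨b, rfl, Or.inr le_rfl⟩)
    have h2 := c0_transc (e1 κ δ) h1
    exact pow_ne_of_transc h2 (one_lt_qq hf)

theorem U3_c0 {q : ℕ} (hq : 0 < q) {g : k} (a : Fin l) :
    (P3 κ q hq g a).U ((P3 κ q hq g a).c0 (e3 k κ a)) := by
  refine ⟨fun i => ?_, fun i hi => ?_, ?_, fun j => ?_⟩
  · rw [c0_const]
    · simp only [e3, Sum.elim_inl, map_zero]
    · rintro ⟨i', h1, -⟩
      cases h1
  · rw [c0_const]
    · simp only [e3, Sum.elim_inl, Sum.elim_inr, if_neg hi.ne, map_zero]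
    · rintro ⟨i', h1, h2⟩
      cases h1
      exact lt_asymm hi h2
  · rw [c0_const]
    · simp only [e3, Sum.elim_inl, Sum.elim_inr, if_true, map_one]
    · rintro ⟨i', h1, h2⟩
      cases h1
      exact lt_irrefl _ h2
  · rw [c0_const]
    · simp only [e3, Sum.elim_inr, map_zero]
    · rintro ⟨i', h1, -⟩
      cases h1

/-- The points of the plane section of dimension `s`. -/
theorem eqA {p f : ℕ} [hp : Fact p.Prime] [CharP k p] {g : k} {a b : Fin l} (hab : a < b)
    (h1 : a.val + 1 = b.val) {s : ℕ}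
    (hs : (P1 (κ := κ) p f g a b hab (fun _ => 0)).D.ncard = s)
    (V : Submodule ℚ (Ideal (MvPolynomial (Fin l ⊕ Fin l ⊕ κ) k) →₀ ℚ))
    (hW : WW (p ^ f) g κ s a V) (hC : CC (p ^ f) g κ s a (b.val + 1) V)
    {N : Type} [Field N] [Algebra k N] (y : Fin l ⊕ Fin l ⊕ κ → N)
    (hy : IsPt {hform l κ (p ^ f) g} y) (hys : Algebra.trdeg k (ratioField k y) = s)
    (h0 : ∀ i, i < a → y (Sum.inl i) = 0) :
    Finsupp.single (homIdeal k y) 1 ∈ V ∨ homIdeal k y = PS p f g κ a b hab := by
  by_cases hya : y (Sum.inl a) = 0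
  · left
    refine hW N _ _ y hy hys fun i hi => ?_
    rcases hi.lt_or_eq with hi | rfl
    · exact h0 i hi
    · exact hya
  · obtain ⟨Ω, _, _, X, v, Z, h2, h3, h4⟩ := exists_psi_pt a y hy h0 hya
    rw [hys] at h4
    rw [← h3]
    by_cases hvb : v b ^ ((p ^ f) ^ 2) = v b
    · left
      refine hC Ω _ _ X v Z h2 h4 fun i hi hi' => ?_
      have : i = b := by
        rw [Fin.lt_def] at hi
        exact Fin.ext (by omega)
      rw [this, hvb]
    · right
      obtain ⟨c, hU, hΦ, he⟩ := exists_strat1 (p := p) (f := f) hab (fun _ => 0) h2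
        (fun i hi hi' => by
          rw [Fin.lt_def] at hi hi'
          omega) hvb
      have htd : tdeg k (Set.range c) = s := by
        have h5 := Param.tdeg_ratioField hU
        rw [hΦ, h4] at h5
        exact_mod_cast h5.symm
      rw [← hΦ]
      exact Param.fund_eq hU he (by rw [htd, hs])

end Pool.Agent.HC
end

/- Helper16.DP.HC.HX3 -/
section
set_option autoImplicit false
set_option linter.style.haveILetI false
set_option linter.unusedSectionVars false

/-! Project HC, part H: identification of the generators in the three cases. -/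

namespace Pool.Agent.HC

open Pool.Agent.Helper16 IntermediateField

variable {k : Type} [Field k] {l : ℕ} {κ : Type} [Fintype κ]

/-- The linear forms which are used for the identification. -/
structure LinOK (q : ℕ) (L : MvPolynomial (Fin l ⊕ Fin l ⊕ κ) k) : Prop where
  hom : L.IsHomogeneous 1
  ne : ∀ (N : Type) [Field N] [Algebra k N] (a : Fin l) (X v : Fin l → N) (Z : κ → N),
    0 < a.val → (∀ i, i < a → v i ≠ 0) → (∀ j, Z j ≠ 0) →
      MvPolynomial.aeval (psi q a X v Z) L ≠ 0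
  zero : ∀ (N : Type) [Field N] [Algebra k N] (y : Fin l ⊕ Fin l ⊕ κ → N),
    (∀ i, y (Sum.inl i) = 0) → (∀ j, y (Sum.inr (Sum.inr j)) = 0) →
      (IsEmpty κ → ∀ i : Fin l, i.val = 0 → y (Sum.inr (Sum.inl i)) = 0) →
        MvPolynomial.aeval y L = 0

theorem linOK_Z [Unique κ] (q : ℕ) :
    LinOK q (MvPolynomial.X (Sum.inr (Sum.inr default)) :
      MvPolynomial (Fin l ⊕ Fin l ⊕ κ) k) where
  hom := MvPolynomial.isHomogeneous_X _ _
  ne := by
    intro N _ _ a X v Z _ _ hZ
    rw [MvPolynomial.aeval_X, psi_Z]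
    exact hZ _
  zero := by
    intro N _ _ y _ hZ _
    rw [MvPolynomial.aeval_X]
    exact hZ _

theorem linOK_XY [IsEmpty κ] (q : ℕ) (i0 : Fin l) (h0 : i0.val = 0) {α β : k} (hβ : β ≠ 0) :
    LinOK q (MvPolynomial.C α * MvPolynomial.X (Sum.inl i0) +
      MvPolynomial.C β * MvPolynomial.X (Sum.inr (Sum.inl i0)) :
      MvPolynomial (Fin l ⊕ Fin l ⊕ κ) k) where
  hom := by
    refine MvPolynomial.IsHomogeneous.add ?_ ?_
    · exact MvPolynomial.IsHomogeneous.C_mul (MvPolynomial.isHomogeneous_X _ _) _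
    · exact MvPolynomial.IsHomogeneous.C_mul (MvPolynomial.isHomogeneous_X _ _) _
  ne := by
    intro N _ _ a X v Z ha hv _
    have hlt : i0 < a := by
      rw [Fin.lt_def]
      omega
    rw [map_add, map_mul, map_mul, MvPolynomial.aeval_X, MvPolynomial.aeval_X,
      psi_X_lt _ _ _ _ _ hlt, psi_Y_lt _ _ _ _ _ hlt, mul_zero, zero_add, MvPolynomial.aeval_C]
    exact mul_ne_zero (by rwa [Ne, map_eq_zero]) (hv _ hlt)
  zero := by
    intro N _ _ y hX _ hY
    rw [map_add, map_mul, map_mul, MvPolynomial.aeval_X, MvPolynomial.aeval_X, hX,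
      hY inferInstance i0 h0, mul_zero, mul_zero, add_zero]

section ident

variable {p f : ℕ} [hp : Fact p.Prime] [CharP k p] {g : k}

theorem identA (hf : 0 < f) {a b : Fin l} (hab : a < b) (h1 : a.val + 1 = b.val)
    (ha0 : 0 < a.val) {s : ℕ} (hsD : (P1 (κ := κ) p f g a b hab (fun _ => 0)).D.ncard = s)
    (V : Submodule ℚ (Ideal (MvPolynomial (Fin l ⊕ Fin l ⊕ κ) k) →₀ ℚ))
    (hV : rat {hform l κ (p ^ f) g} s ≤ V) {L : MvPolynomial (Fin l ⊕ Fin l ⊕ κ) k}
    (hL : LinOK (p ^ f) L)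
    (hcut : ∀ Q, IsSub {hform l κ (p ^ f) g} s Q → L ∈ Q → Finsupp.single Q 1 ∈ V)
    (hW : WW (p ^ f) g κ s a V) (hC : CC (p ^ f) g κ s a (b.val + 1) V) :
    Finsupp.single (PS p f g κ a b hab) 1 ∈ V := by
  let P := P1 (κ := κ) p f g a b hab (fun _ => 0)
  let c := P.c0 (e1 κ fun _ => 0)
  have hU : P.U c := U1_c0 hf hab _
  have htd : tdeg k (Set.range c) = s := by rw [Param.tdeg_c0, hsD]
  have htr : Algebra.trdeg k (ratioField k (P.Φ c)) = s := by rw [Param.tdeg_ratioField hU, htd]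
  let a' : Fin l := ⟨a.val - 1, by have := a.isLt; omega⟩
  have ha' : a' < a := by
    rw [Fin.lt_def]
    change a.val - 1 < a.val
    omega
  have hvt : ∀ i, i < a → Transcendental k (c (Sum.inr (Sum.inl i))) := fun i hi =>
    c0_transc _ (Or.inr (Or.inl ⟨i, rfl, Or.inl hi.le⟩))
  have hZt : ∀ j, Transcendental k (c (Sum.inr (Sum.inr j))) := fun j =>
    c0_transc _ (Or.inr (Or.inr ⟨j, rfl⟩))
  have hne : ∀ {N : Type} [Field N] [Algebra k N] {x : N}, Transcendental k x → x ≠ 0 := by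
    intro N _ _ x hx h
    rw [h] at hx
    exact hx isAlgebraic_zero
  refine ident' (a' := a') ha' hf V hV hL.hom hcut (Xf (p ^ f) g a b c)
    (fun i => c (Sum.inr (Sum.inl i))) (fun j => c (Sum.inr (Sum.inr j)))
    (me_Xf (p ^ f) g hab c hU.2.2) (hvt a' ha') htr
    (hL.ne _ a _ _ _ ha0 (fun i hi => hne (hvt i hi)) (fun j => hne (hZt j))) ?_
  intro N _ _ y hy hys h0 h0'
  refine eqA hab h1 hsD V hW hC y hy hys fun i hi => ?_
  by_cases h : i = a'
  · rw [h, h0']
  · refine h0 i ?_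
    rw [Fin.lt_def] at hi ⊢
    have h2 : i.val ≠ a'.val := fun h3 => h (Fin.ext h3)
    change i.val < a.val - 1
    change i.val ≠ a.val - 1 at h2
    omega

theorem identB [Unique κ] (hf : 0 < f) (hg : g ≠ 0) {a : Fin l} (ha : a.val + 1 = l)
    (ha0 : 0 < a.val)
    (V : Submodule ℚ (Ideal (MvPolynomial (Fin l ⊕ Fin l ⊕ κ) k) →₀ ℚ))
    (hV : rat {hform l κ (p ^ f) g} l ≤ V) {L : MvPolynomial (Fin l ⊕ Fin l ⊕ κ) k}
    (hL : LinOK (p ^ f) L)
    (hcut : ∀ Q, IsSub {hform l κ (p ^ f) g} l Q → L ∈ Q → Finsupp.single Q 1 ∈ V)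
    {N : Type} [Field N] [Algebra k N] (c : Fin l ⊕ Fin l ⊕ κ → N)
    (hX : ∀ i, i ≤ a → c (Sum.inl i) = 0)
    (heq : c (Sum.inr (Sum.inl a)) ^ (p ^ f) - c (Sum.inr (Sum.inl a)) +
        algebraMap k N g * ∑ j, c (Sum.inr (Sum.inr j)) ^ (p ^ f + 1) = 0)
    (htd : tdeg k (Set.range c) = l) :
    Finsupp.single (homIdeal k (psi (p ^ f) a (fun i => c (Sum.inl i))
        (fun i => c (Sum.inr (Sum.inl i))) (fun j => c (Sum.inr (Sum.inr j))))) 1 ∈ V := by
  classical
  have hq2 : (p ^ f) ^ 2 ≠ 0 := (pow_pos (pow_pos hp.out.pos f) 2).ne'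
  have hq1 : 1 < p ^ f := one_lt_pow₀ hp.out.one_lt hf.ne'
  have hlast : ∀ i : Fin l, ¬ a < i := by
    intro i hi
    rw [Fin.lt_def] at hi
    have := i.isLt
    omega
  have hδ : ∀ i : Fin l, (fun _ : Fin l => (0 : k)) i ^ ((p ^ f) ^ 2) = (fun _ => 0) i :=
    fun i => zero_pow hq2
  have hU : (P2 (κ := κ) p f g a (fun _ => 0) hδ).U c :=
    ⟨hX, fun i hi => absurd hi (hlast i), heq⟩
  have htr : Algebra.trdeg k (ratioField k ((P2 (κ := κ) p f g a (fun _ => 0) hδ).Φ c)) =
      (l : ℕ) := by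
    rw [Param.tdeg_ratioField hU, htd]
  let a' : Fin l := ⟨a.val - 1, by have := a.isLt; omega⟩
  have ha' : a' < a := by
    rw [Fin.lt_def]
    change a.val - 1 < a.val
    omega
  -- the movable coordinates are transcendental
  let B : Set (Fin l ⊕ Fin l ⊕ κ) := (((∅ : Finset (Fin l)).disjSum
      ((Finset.Iio a).disjSum (Finset.univ : Finset κ)) : Finset (Fin l ⊕ Fin l ⊕ κ)))
  have hB : B.ncard = l := by
    rw [Set.ncard_coe_finset, Finset.card_disjSum, Finset.card_disjSum, Fin.card_Iio,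
      Finset.card_empty, Finset.card_univ, Fintype.card_unique]
    omega
  have hBX : ∀ i, (Sum.inl i : Fin l ⊕ Fin l ⊕ κ) ∉ B := by
    intro i hi
    simp [B] at hi
  have hBY : ∀ i, (Sum.inr (Sum.inl i) : Fin l ⊕ Fin l ⊕ κ) ∈ B ↔ i < a := by
    intro i
    simp [B]
  have hBZ : ∀ j, (Sum.inr (Sum.inr j) : Fin l ⊕ Fin l ⊕ κ) ∈ B := by
    intro j
    simp only [B, Finset.mem_coe, Finset.inr_mem_disjSum]
    exact Finset.mem_univ j
  have halg : ∀ i, i ∉ B → IsAlgebraic (IntermediateField.adjoin k (c '' B)) (c i) := by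
    rintro (i | i | j) hi
    · rw [hX i (not_lt.1 (hlast i))]
      exact isAlgebraic_zero
    · have hia : i = a := le_antisymm (not_lt.1 (hlast i)) (not_lt.1 fun h => hi ((hBY i).2 h))
      subst hia
      let z : IntermediateField.adjoin k (c '' B) := ⟨algebraMap k N g *
        ∑ j, c (Sum.inr (Sum.inr j)) ^ (p ^ f + 1), mul_mem (IntermediateField.algebraMap_mem _ _)
          (sum_mem fun j _ => pow_mem (IntermediateField.subset_adjoin k (c '' B)
            (Set.mem_image_of_mem c (hBZ j))) _)⟩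
      refine ⟨Polynomial.X ^ (p ^ f) - Polynomial.X + Polynomial.C z, ?_, ?_⟩
      · intro h
        have h1 := congrArg (fun P => Polynomial.coeff P (p ^ f)) h
        simp only [Polynomial.coeff_add, Polynomial.coeff_sub, Polynomial.coeff_X_pow,
          Polynomial.coeff_C, if_true, Polynomial.coeff_zero, Polynomial.coeff_X,
          if_neg hq1.ne, if_neg (by omega : ¬ p ^ f = 0)] at h1
        simp at h1
      · rw [map_add, map_sub, map_pow, Polynomial.aeval_X, Polynomial.aeval_C]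
        exact heq
    · exact absurd (hBZ j) hi
  have hvt : ∀ i, i < a → Transcendental k (c (Sum.inr (Sum.inl i))) := fun i hi =>
    transc_of_card ((hBY i).2 hi) (by rw [htd, hB]) halg
  have hZt : ∀ j, Transcendental k (c (Sum.inr (Sum.inr j))) := fun j =>
    transc_of_card (hBZ j) (by rw [htd, hB]) halg
  have hne : ∀ {N : Type} [Field N] [Algebra k N] {x : N}, Transcendental k x → x ≠ 0 := by
    intro N _ _ x hx h
    rw [h] at hx
    exact hx isAlgebraic_zero
  refine ident' (a' := a') ha' hf V hV hL.hom hcut (fun i => c (Sum.inl i))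
    (fun i => c (Sum.inr (Sum.inl i))) (fun j => c (Sum.inr (Sum.inr j)))
    (me_of_U2 hδ hU) (hvt a' ha') htr
    (hL.ne _ a _ _ _ ha0 (fun i hi => hne (hvt i hi)) (fun j => hne (hZt j))) ?_
  intro N' _ _ y hy hys h0 h0'
  have h00 : ∀ i, i < a → y (Sum.inl i) = 0 := by
    intro i hi
    by_cases h : i = a'
    · rw [h, h0']
    · refine h0 i ?_
      rw [Fin.lt_def] at hi ⊢
      have h2 : i.val ≠ a'.val := fun h3 => h (Fin.ext h3)
      change i.val < a.val - 1
      change i.val ≠ a.val - 1 at h2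
      omega
  by_cases hya : y (Sum.inl a) = 0
  · left
    refine stepIII (pow_pos hp.out.pos f) hg V hV (fun a0 h => by omega) y hy hys fun i => ?_
    rcases (not_lt.1 (hlast i)).lt_or_eq with hi | rfl
    · exact h00 i hi
    · exact hya
  · right
    obtain ⟨Ω, _, _, X, v, Z, h2, h3, h4⟩ := exists_psi_pt a y hy h00 hya
    rw [hys] at h4
    have hU' := U2_of_me (κ := κ) hδ h2 (fun i hi => absurd hi (hlast i))
    have hΦ : psi (p ^ f) a X v Z = (P2 (κ := κ) p f g a (fun _ => 0) hδ).Φ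
        (Sum.elim (fun i => if i ≤ a then 0 else X i) (Sum.elim v Z)) :=
      psi_congr _ _ (fun i hi => absurd hi (hlast i)) (fun _ => rfl) (fun _ => rfl)
    have htd' : tdeg k (Set.range (Sum.elim (fun i => if i ≤ a then 0 else X i)
        (Sum.elim v Z))) = l := by
      have h5 := Param.tdeg_ratioField (P := P2 (κ := κ) p f g a (fun _ => 0) hδ) hU'
      rw [← hΦ, h4] at h5
      exact_mod_cast h5.symm
    rw [← h3, hΦ]
    exact uniqII1 hf hg a (fun _ => 0) hδ _ c hU' hU htd' htd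

theorem identC [IsEmpty κ] (hf : 0 < f) (hg : g ≠ 0)
    (hk : ∀ (N : Type) (_ : Field N) (_ : Algebra k N) (x : N), x ^ ((p ^ f) ^ 2) = x →
      ∃ d : k, algebraMap k N d = x) {a : Fin l} (ha : a.val + 1 = l)
    (ha0 : 0 < a.val) {s : ℕ} (hs : s + 1 = l)
    (V : Submodule ℚ (Ideal (MvPolynomial (Fin l ⊕ Fin l ⊕ κ) k) →₀ ℚ))
    (hV : rat {hform l κ (p ^ f) g} s ≤ V) {L : MvPolynomial (Fin l ⊕ Fin l ⊕ κ) k}
    (hL : LinOK (p ^ f) L)
    (hcut : ∀ Q, IsSub {hform l κ (p ^ f) g} s Q → L ∈ Q → Finsupp.single Q 1 ∈ V)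
    (hLS : ∀ a0 : Fin l, a0.val + s + 1 = l →
      Finsupp.single (LS κ (p ^ f) (pow_pos hp.out.pos f) g a0) 1 ∈ V)
    (hδ0 : ∀ i : Fin l, (fun _ : Fin l => (0 : k)) i ^ ((p ^ f) ^ 2) = (fun _ => 0) i)
    (hrest : ∀ (δ : Fin l → k) (hδ : ∀ i, δ i ^ ((p ^ f) ^ 2) = δ i), δ a ^ (p ^ f) = δ a →
      (∀ i, i < a → δ i = 0) → (P2 (κ := κ) p f g a δ hδ).fund (e1 κ δ) ≠
        (P2 (κ := κ) p f g a (fun _ => 0) hδ0).fund (e1 κ fun _ => 0) →
      Finsupp.single ((P2 (κ := κ) p f g a δ hδ).fund (e1 κ δ)) 1 ∈ V) :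
    Finsupp.single ((P2 (κ := κ) p f g a (fun _ => 0) hδ0).fund (e1 κ fun _ => 0)) 1 ∈ V := by
  classical
  have hlast : ∀ i : Fin l, ¬ a < i := by
    intro i hi
    rw [Fin.lt_def] at hi
    have := i.isLt
    omega
  let P := P2 (κ := κ) p f g a (fun _ => 0) hδ0
  let c := P.c0 (e1 κ fun _ => 0)
  have hU : P.U c := U_c0_P2 a _ hδ0 (zero_pow (pow_pos hp.out.pos f).ne')
  have hsD : P.D.ncard = s := by
    have := ncard_D2 (κ := κ) p f g a (fun _ => 0) hδ0
    change P.D.ncard + 1 = l at this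
    omega
  have htd : tdeg k (Set.range c) = s := by rw [Param.tdeg_c0, hsD]
  have htr : Algebra.trdeg k (ratioField k (P.Φ c)) = s := by rw [Param.tdeg_ratioField hU, htd]
  let a' : Fin l := ⟨a.val - 1, by have := a.isLt; omega⟩
  have ha' : a' < a := by
    rw [Fin.lt_def]
    change a.val - 1 < a.val
    omega
  have hvt : ∀ i, i < a → Transcendental k (c (Sum.inr (Sum.inl i))) := fun i hi =>
    c0_transc _ (Or.inr ⟨i, rfl, hi⟩)
  have hne : ∀ {N : Type} [Field N] [Algebra k N] {x : N}, Transcendental k x → x ≠ 0 := by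
    intro N _ _ x hx h
    rw [h] at hx
    exact hx isAlgebraic_zero
  refine ident' (a' := a') ha' hf V hV hL.hom hcut (fun i => c (Sum.inl i))
    (fun i => c (Sum.inr (Sum.inl i))) (fun j => c (Sum.inr (Sum.inr j)))
    (me_of_U2 hδ0 hU) (hvt a' ha') htr
    (hL.ne _ a _ _ _ ha0 (fun i hi => hne (hvt i hi)) (fun j => isEmptyElim j)) ?_
  intro N' _ _ y hy hys h0 h0'
  have h00 : ∀ i, i < a → y (Sum.inl i) = 0 := by
    intro i hi
    by_cases h : i = a'
    · rw [h, h0']
    · refine h0 i ?_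
      rw [Fin.lt_def] at hi ⊢
      have h2 : i.val ≠ a'.val := fun h3 => h (Fin.ext h3)
      change i.val < a.val - 1
      change i.val ≠ a.val - 1 at h2
      omega
  by_cases hya : y (Sum.inl a) = 0
  · left
    refine stepIII (pow_pos hp.out.pos f) hg V hV hLS y hy hys fun i => ?_
    rcases (not_lt.1 (hlast i)).lt_or_eq with hi | rfl
    · exact h00 i hi
    · exact hya
  · obtain ⟨Ω, _, _, X, v, Z, h2, h3, h4⟩ := exists_psi_pt a y hy h00 hya
    rw [hys] at h4
    -- `v a` is in the field with `q` elements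
    have hva : v a ^ (p ^ f) = v a := by
      unfold me at h2
      rw [Finset.sum_eq_zero (fun i hi => absurd (Finset.mem_Ioi.1 hi) (hlast i)),
        Finset.univ_eq_empty (α := κ), Finset.sum_empty, mul_zero, add_zero, add_zero,
        sub_eq_zero] at h2
      exact h2
    have hva2 : v a ^ ((p ^ f) ^ 2) = v a := by rw [sq, pow_mul, hva, hva]
    obtain ⟨d, hd⟩ := hk Ω _ _ (v a) hva2
    have hdq : d ^ (p ^ f) = d := (algebraMap k Ω).injective (by rw [map_pow, hd, hva])
    have hdq2 : d ^ ((p ^ f) ^ 2) = d := by rw [sq, pow_mul, hdq, hdq]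
    let δ : Fin l → k := fun i => if i = a then d else 0
    have hδ : ∀ i, δ i ^ ((p ^ f) ^ 2) = δ i := by
      intro i
      simp only [δ]
      split_ifs
      · exact hdq2
      · exact zero_pow (pow_pos (pow_pos hp.out.pos f) 2).ne'
    have hU' := U2_of_me (κ := κ) hδ h2 (fun i hi => absurd hi (hlast i))
    have hΦ : psi (p ^ f) a X v Z = (P2 (κ := κ) p f g a δ hδ).Φ
        (Sum.elim (fun i => if i ≤ a then 0 else X i) (Sum.elim v Z)) :=
      psi_congr _ _ (fun i hi => absurd hi (hlast i)) (fun _ => rfl) (fun _ => rfl)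
    have htd' : tdeg k (Set.range (Sum.elim (fun i => if i ≤ a then 0 else X i)
        (Sum.elim v Z))) = s := by
      have h5 := Param.tdeg_ratioField (P := P2 (κ := κ) p f g a δ hδ) hU'
      rw [← hΦ, h4] at h5
      exact_mod_cast h5.symm
    have hsD' : (P2 (κ := κ) p f g a δ hδ).D.ncard = s := by
      have := ncard_D2 (κ := κ) p f g a δ hδ
      omega
    have he : ∀ i, i ∉ (P2 (κ := κ) p f g a δ hδ).D →
        (Sum.elim (fun i => if i ≤ a then 0 else X i) (Sum.elim v Z)) i =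
          algebraMap k Ω (e1 κ δ i) := by
      rintro (i | i | j) hi
      · simp only [Sum.elim_inl, e1, if_pos (not_lt.1 (hlast i)), map_zero]
      · have hia : i = a := le_antisymm (not_lt.1 (hlast i))
          (not_lt.1 fun h => hi (Or.inr ⟨i, rfl, h⟩))
        subst hia
        simp only [Sum.elim_inl, Sum.elim_inr, e1, δ, if_true, hd]
      · exact isEmptyElim j
    have hfund : homIdeal k y = (P2 (κ := κ) p f g a δ hδ).fund (e1 κ δ) := by
      rw [← h3, hΦ]
      exact Param.fund_eq hU' he (by rw [htd', hsD'])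
    by_cases hcase : (P2 (κ := κ) p f g a δ hδ).fund (e1 κ δ) =
        (P2 (κ := κ) p f g a (fun _ => 0) hδ0).fund (e1 κ fun _ => 0)
    · right
      rw [hfund, hcase]
      rfl
    · left
      rw [hfund]
      refine hrest δ hδ ?_ ?_ hcase
      · simp only [δ, if_true, hdq]
      · intro i hi
        simp only [δ, if_neg hi.ne]

theorem LS_mem (hf : 0 < f) {s : ℕ} {a : Fin l} (ha : a.val + s + 1 = l)
    (ha0 : IsEmpty κ → 0 < a.val)
    (V : Submodule ℚ (Ideal (MvPolynomial (Fin l ⊕ Fin l ⊕ κ) k) →₀ ℚ))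
    {L : MvPolynomial (Fin l ⊕ Fin l ⊕ κ) k} (hL : LinOK (p ^ f) L)
    (hcut : ∀ Q, IsSub {hform l κ (p ^ f) g} s Q → L ∈ Q → Finsupp.single Q 1 ∈ V) :
    Finsupp.single (LS κ (p ^ f) (pow_pos hp.out.pos f) g a) 1 ∈ V := by
  have hU := U3_c0 (κ := κ) (pow_pos hp.out.pos f : 0 < p ^ f) (g := g) a
  have h1 := Param.isSub_fund (P := P3 κ (p ^ f) (pow_pos hp.out.pos f) g a)
    (hI := hform_hom (κ := κ) (l := l) (p ^ f) g) hU
  rw [ncard_D3] at h1
  have h2 : l - 1 - a = s := by (clear * - f ha; omega)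
  rw [h2] at h1
  refine hcut _ h1 ?_
  refine (mem_homIdeal_form _ hL.hom).2 (hL.zero _ _ hU.1 hU.2.2.2 fun he i hi => ?_)
  refine hU.2.1 i ?_
  rw [Fin.lt_def]
  have := ha0 he
  omega

end ident

end Pool.Agent.HC
end

/- Helper16.DP.HC.HX4 -/
section
set_option autoImplicit false
set_option linter.style.haveILetI false
set_option linter.unusedSectionVars false

/-! Project HC, part H: generators of the Chow groups of Hermitian varieties. -/

namespace Pool.Agent.HC

open Pool.Agent.Helper16 IntermediateField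

variable {k : Type} [Field k] {l : ℕ} {κ : Type} [Fintype κ]

variable {p f : ℕ} [hp : Fact p.Prime] [CharP k p] {g : k}

/-- No variable `Z`: generators. -/
theorem H1e [IsEmpty κ] (hf : 0 < f) (hg : g ≠ 0)
    (hk : ∀ (N : Type) (_ : Field N) (_ : Algebra k N) (x : N), x ^ ((p ^ f) ^ 2) = x →
      ∃ d : k, algebraMap k N d = x) {s : ℕ} (hs : s + 2 ≤ 2 * l) :
    ∃ G : Finset (Ideal (MvPolynomial (Fin l ⊕ Fin l ⊕ κ) k)),
      G.card ≤ 1 + (if s + 1 = l then ((p ^ f) ^ (2 * l) + p ^ f) / (p ^ f + 1) else 0) ∧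
      (∀ P ∈ G, IsSub {hform l κ (p ^ f) g} s P) ∧
      ∀ V : Submodule ℚ (Ideal (MvPolynomial (Fin l ⊕ Fin l ⊕ κ) k) →₀ ℚ),
        rat {hform l κ (p ^ f) g} s ≤ V → (∀ P ∈ G, Finsupp.single P 1 ∈ V) →
        ∀ Q, IsSub {hform l κ (p ^ f) g} s Q → Finsupp.single Q 1 ∈ V := by
  classical
  rcases lt_trichotomy (s + 1) l with h | h | h
  · -- linear spaces
    let a : Fin l := ⟨l - 1 - s, by omega⟩
    have ha : a.val + s + 1 = l := by
      change l - 1 - s + s + 1 = l
      omega
    refine ⟨{LS κ (p ^ f) (pow_pos hp.out.pos f) g a}, ?_, ?_, ?_⟩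
    · rw [Finset.card_singleton]
      omega
    · intro P hP
      rw [Finset.mem_singleton] at hP
      subst hP
      have h1 := Param.isSub_fund (P := P3 κ (p ^ f) (pow_pos hp.out.pos f) g a)
        (hI := hform_hom (κ := κ) (l := l) (p ^ f) g) (U3_c0 _ a)
      rw [ncard_D3] at h1
      have h2 : l - 1 - a = s := by omega
      rw [h2] at h1
      exact h1
    · intro V hV hG
      refine assemble hg hk V hV ?_ ?_ ?_
      · intro a1 b1 hab1 h1 h2
        have h3 := ncard_D1 (κ := κ) (p := p) (f := f) (g := g) hab1 h1 (fun _ => 0)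
        have := b1.isLt
        omega
      · intro a1 hW
        exact stepII0 hf hk a1 V hV hW fun δ hδ _ _ _ h1 => by (clear * - ha h1; omega)
      · intro a1 h1
        have : a1 = a := Fin.ext (by omega)
        rw [this]
        exact hG _ (Finset.mem_singleton_self _)
  · -- the middle dimension
    obtain ⟨G, hG1, hG2, hG3⟩ := count2 (κ := κ) (k := k) (p := p) (g := g) hf (l := l) (by omega)
    have hl1 : l - 1 = s := by omega
    rw [hl1] at hG2
    let a : Fin l := ⟨0, by omega⟩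
    refine ⟨insert (LS κ (p ^ f) (pow_pos hp.out.pos f) g a) G, ?_, ?_, ?_⟩
    · rw [if_pos h]
      refine (Finset.card_insert_le _ _).trans ?_
      omega
    · intro P hP
      rw [Finset.mem_insert] at hP
      rcases hP with rfl | hP
      · have h1 := Param.isSub_fund (P := P3 κ (p ^ f) (pow_pos hp.out.pos f) g a)
          (hI := hform_hom (κ := κ) (l := l) (p ^ f) g) (U3_c0 _ a)
        rw [ncard_D3] at h1
        have h2 : l - 1 - a = s := by
          change l - 1 - 0 = s
          omega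
        rw [h2] at h1
        exact h1
      · exact hG2 P hP
    · intro V hV hG
      refine assemble hg hk V hV ?_ ?_ ?_
      · intro a1 b1 hab1 h1 h2
        have h3 := ncard_D1 (κ := κ) (p := p) (f := f) (g := g) hab1 h1 (fun _ => 0)
        have := b1.isLt
        (clear * - h G hl1 h1 h2 h3; omega)
      · intro a1 hW
        exact stepII0 hf hk a1 V hV hW fun δ hδ h1 h2 h3 _ =>
          hG _ (Finset.mem_insert_of_mem (hG3 a1 δ hδ h1 h2 h3))
      · intro a1 h1
        have : a1 = a := Fin.ext (by change a1.val = 0; omega)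
        rw [this]
        exact hG _ (Finset.mem_insert_self _ _)
  · -- plane sections
    let a : Fin l := ⟨2 * l - 2 - s, by (clear * - f hs h; omega)⟩
    let b : Fin l := ⟨2 * l - 2 - s + 1, by omega⟩
    have hab : a < b := by
      rw [Fin.lt_def]
      exact Nat.lt_succ_self _
    have hb : a.val + 1 = b.val := rfl
    have hsD : (P1 (κ := κ) p f g a b hab (fun _ => 0)).D.ncard = s := by
      have h3 := ncard_D1 (κ := κ) (p := p) (f := f) (g := g) hab hb (fun _ => 0)
      rw [Fintype.card_eq_zero (α := κ)] at h3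
      change _ + (2 * l - 2 - s) + 2 = 2 * l + 0 at h3
      omega
    refine ⟨{PS p f g κ a b hab}, ?_, ?_, ?_⟩
    · rw [Finset.card_singleton]
      omega
    · intro P hP
      rw [Finset.mem_singleton] at hP
      subst hP
      have h1 := Param.isSub_fund (P := P1 (κ := κ) p f g a b hab (fun _ => 0))
        (hI := hform_hom (κ := κ) (l := l) (p ^ f) g) (U1_c0 hf hab _)
      rw [hsD] at h1
      exact h1
    · intro V hV hG
      refine assemble hg hk V hV ?_ ?_ ?_
      · intro a1 b1 hab1 h1 h2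
        have h3 := ncard_D1 (κ := κ) (p := p) (f := f) (g := g) hab1 h1 (fun _ => 0)
        have h4 := ncard_D1 (κ := κ) (p := p) (f := f) (g := g) hab hb (fun _ => 0)
        have h5 : a1 = a := Fin.ext (by (clear * - hsD h2 h3 h4; omega))
        subst h5
        have h6 : b1 = b := Fin.ext (by (clear * - hb h4 hab1 h1; omega))
        subst h6
        exact hG _ (Finset.mem_singleton_self _)
      · intro a1 hW
        exact stepII0 hf hk a1 V hV hW fun δ hδ _ _ _ h1 => by omega
      · intro a1 h1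
        omega

/-- No variable `Z`: generators modulo a hyperplane section. -/
theorem H2e [IsEmpty κ] (hf : 0 < f) (hg : g ≠ 0)
    (hk : ∀ (N : Type) (_ : Field N) (_ : Algebra k N) (x : N), x ^ ((p ^ f) ^ 2) = x →
      ∃ d : k, algebraMap k N d = x) {s : ℕ} (hs : s + 3 ≤ 2 * l) (hl : 2 ≤ l)
    {L : MvPolynomial (Fin l ⊕ Fin l ⊕ κ) k} (hL : LinOK (p ^ f) L) :
    ∃ G : Finset (Ideal (MvPolynomial (Fin l ⊕ Fin l ⊕ κ) k)),
      G.card ≤ (if s + 1 = l then ((p ^ f) ^ (2 * l) + p ^ f) / (p ^ f + 1) else 0) ∧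
      (∀ P ∈ G, IsSub {hform l κ (p ^ f) g} s P) ∧
      ∀ V : Submodule ℚ (Ideal (MvPolynomial (Fin l ⊕ Fin l ⊕ κ) k) →₀ ℚ),
        rat {hform l κ (p ^ f) g} s ≤ V →
        (∀ Q, IsSub {hform l κ (p ^ f) g} s Q → L ∈ Q → Finsupp.single Q 1 ∈ V) →
        (∀ P ∈ G, Finsupp.single P 1 ∈ V) →
        ∀ Q, IsSub {hform l κ (p ^ f) g} s Q → Finsupp.single Q 1 ∈ V := by
  classical
  rcases lt_trichotomy (s + 1) l with h | h | h
  · -- linear spaces
    refine ⟨∅, by simp, by simp, ?_⟩
    intro V hV hcut _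
    refine assemble hg hk V hV ?_ ?_ ?_
    · intro a1 b1 hab1 h1 h2
      have h3 := ncard_D1 (κ := κ) (p := p) (f := f) (g := g) hab1 h1 (fun _ => 0)
      have := b1.isLt
      omega
    · intro a1 hW
      exact stepII0 hf hk a1 V hV hW fun δ hδ _ _ _ h1 => by omega
    · intro a1 h1
      exact LS_mem hf h1 (fun _ => by omega) V hL hcut
  · -- the middle dimension
    obtain ⟨G, hG1, hG2, hG3⟩ := count2 (κ := κ) (k := k) (p := p) (g := g) hf (l := l) (by omega)
    have hl1 : l - 1 = s := by omega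
    rw [hl1] at hG2
    let a0 : Fin l := ⟨0, by omega⟩
    let a : Fin l := ⟨l - 1, by omega⟩
    have ha : a.val + 1 = l := by
      change l - 1 + 1 = l
      omega
    have hδ0 : ∀ i : Fin l, (fun _ : Fin l => (0 : k)) i ^ ((p ^ f) ^ 2) = (fun _ => 0) i :=
      fun i => zero_pow (pow_pos (pow_pos hp.out.pos f) 2).ne'
    have hPG := hG3 a (fun _ => 0) hδ0 (zero_pow (pow_pos hp.out.pos f).ne') (Or.inr ha)
      (fun _ _ => rfl)
    refine ⟨insert (LS κ (p ^ f) (pow_pos hp.out.pos f) g a0)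
      (G.erase ((P2 (κ := κ) p f g a (fun _ => 0) hδ0).fund (e1 κ fun _ => 0))), ?_, ?_, ?_⟩
    · rw [if_pos h]
      refine (Finset.card_insert_le _ _).trans ?_
      rw [Finset.card_erase_of_mem hPG]
      have := Finset.card_pos.2 ⟨_, hPG⟩
      omega
    · intro P hP
      rw [Finset.mem_insert] at hP
      rcases hP with rfl | hP
      · have h1 := Param.isSub_fund (P := P3 κ (p ^ f) (pow_pos hp.out.pos f) g a0)
          (hI := hform_hom (κ := κ) (l := l) (p ^ f) g) (U3_c0 _ a0)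
        rw [ncard_D3] at h1
        have h2 : l - 1 - a0 = s := by
          change l - 1 - 0 = s
          omega
        rw [h2] at h1
        exact h1
      · exact hG2 P (Finset.mem_of_mem_erase hP)
    · intro V hV hcut hG
      have hLS : ∀ a1 : Fin l, a1.val + s + 1 = l →
          Finsupp.single (LS κ (p ^ f) (pow_pos hp.out.pos f) g a1) 1 ∈ V := by
        intro a1 h1
        have : a1 = a0 := Fin.ext (by change a1.val = 0; omega)
        rw [this]
        exact hG _ (Finset.mem_insert_self _ _)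
      have hstar := identC hf hg hk ha (by change 0 < l - 1; omega) h V hV hL hcut hLS hδ0
        fun δ hδ h1 h2 h3 => hG _ (Finset.mem_insert_of_mem (Finset.mem_erase.2
          ⟨h3, hG3 a δ hδ h1 (Or.inr ha) h2⟩))
      refine assemble hg hk V hV ?_ ?_ hLS
      · intro a1 b1 hab1 h1 h2
        have h3 := ncard_D1 (κ := κ) (p := p) (f := f) (g := g) hab1 h1 (fun _ => 0)
        have := b1.isLt
        (clear * - ha h1 h2 h3; omega)
      · intro a1 hW
        refine stepII0 hf hk a1 V hV hW fun δ hδ h1 h2 h3 _ => ?_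
        by_cases h4 : (P2 (κ := κ) p f g a1 δ hδ).fund (e1 κ δ) =
          (P2 (κ := κ) p f g a (fun _ => 0) hδ0).fund (e1 κ fun _ => 0)
        · rw [h4]
          exact hstar
        · exact hG _ (Finset.mem_insert_of_mem (Finset.mem_erase.2
            ⟨h4, hG3 a1 δ hδ h1 h2 h3⟩))
  · -- plane sections
    refine ⟨∅, by simp, by simp, ?_⟩
    intro V hV hcut _
    let a : Fin l := ⟨2 * l - 2 - s, by (clear * - f hs h; omega)⟩
    let b : Fin l := ⟨2 * l - 2 - s + 1, by omega⟩
    have hab : a < b := by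
      rw [Fin.lt_def]
      exact Nat.lt_succ_self _
    have hb : a.val + 1 = b.val := rfl
    have haval : a.val = 2 * l - 2 - s := rfl
    have hsD : (P1 (κ := κ) p f g a b hab (fun _ => 0)).D.ncard = s := by
      have h3 := ncard_D1 (κ := κ) (p := p) (f := f) (g := g) hab hb (fun _ => 0)
      rw [Fintype.card_eq_zero (α := κ)] at h3
      (clear * - haval h3; omega)
    have hII : ∀ a1 : Fin l, WW (p ^ f) g κ s a1 V → CC (p ^ f) g κ s a1 l V := fun a1 hW =>
      stepII0 hf hk a1 V hV hW fun δ hδ _ _ _ h1 => by omega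
    have hW : WW (p ^ f) g κ s a V := by
      intro N _ _ y hy hys h0
      refine assembleFrom hg hk V hV (a.val + 1) (by have := a.isLt; omega) ?_
        (fun a1 _ => hII a1) (fun a1 h1 => by omega) y hy hys ?_
      · intro a1 b1 hab1 h0 h1 h2
        have h3 := ncard_D1 (κ := κ) (p := p) (f := f) (g := g) hab1 h1 (fun _ => 0)
        rw [Fintype.card_eq_zero (α := κ)] at h3
        (clear * - haval hsD h0 h2 h3; omega)
      · intro i hi
        exact h0 i (by rw [Fin.le_def]; omega)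
    have hC : CC (p ^ f) g κ s a (b.val + 1) V := by
      refine CC_down hk V hV hW (hII a hW) (b.val + 1) (by omega) ?_ (l - (b.val + 1)) _
        (by have := b.isLt; omega) le_rfl
      intro b1 hab1 h0 h1 h2
      omega
    have hstar := identA hf hab hb (by omega) hsD V hV hL hcut hW hC
    refine assemble hg hk V hV ?_ hII (fun a1 h1 => by omega)
    intro a1 b1 hab1 h1 h2
    have h3 := ncard_D1 (κ := κ) (p := p) (f := f) (g := g) hab1 h1 (fun _ => 0)
    have h4 := ncard_D1 (κ := κ) (p := p) (f := f) (g := g) hab hb (fun _ => 0)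
    have h5 : a1 = a := Fin.ext (by omega)
    subst h5
    have h6 : b1 = b := Fin.ext (by omega)
    subst h6
    exact hstar

/-- One variable `Z`: one generator. -/
theorem H1u [Unique κ] [Finite k] (hf : 0 < f) (hg : g ≠ 0)
    (hk : ∀ (N : Type) (_ : Field N) (_ : Algebra k N) (x : N), x ^ ((p ^ f) ^ 2) = x →
      ∃ d : k, algebraMap k N d = x) {s : ℕ} (hs : s + 1 ≤ 2 * l) :
    ∃ G : Finset (Ideal (MvPolynomial (Fin l ⊕ Fin l ⊕ κ) k)),
      G.card ≤ 1 ∧
      (∀ P ∈ G, IsSub {hform l κ (p ^ f) g} s P) ∧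
      ∀ V : Submodule ℚ (Ideal (MvPolynomial (Fin l ⊕ Fin l ⊕ κ) k) →₀ ℚ),
        rat {hform l κ (p ^ f) g} s ≤ V → (∀ P ∈ G, Finsupp.single P 1 ∈ V) →
        ∀ Q, IsSub {hform l κ (p ^ f) g} s Q → Finsupp.single Q 1 ∈ V := by
  classical
  rcases lt_trichotomy s l with h | h | h
  · -- linear spaces
    let a : Fin l := ⟨l - 1 - s, by omega⟩
    have ha : a.val + s + 1 = l := by
      change l - 1 - s + s + 1 = l
      omega
    refine ⟨{LS κ (p ^ f) (pow_pos hp.out.pos f) g a}, ?_, ?_, ?_⟩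
    · rw [Finset.card_singleton]
    · intro P hP
      rw [Finset.mem_singleton] at hP
      subst hP
      have h1 := Param.isSub_fund (P := P3 κ (p ^ f) (pow_pos hp.out.pos f) g a)
        (hI := hform_hom (κ := κ) (l := l) (p ^ f) g) (U3_c0 _ a)
      rw [ncard_D3] at h1
      have h2 : l - 1 - a = s := by omega
      rw [h2] at h1
      exact h1
    · intro V hV hG
      refine assemble hg hk V hV ?_ ?_ ?_
      · intro a1 b1 hab1 h1 h2
        have h3 := ncard_D1 (κ := κ) (p := p) (f := f) (g := g) hab1 h1 (fun _ => 0)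
        have := b1.isLt
        (clear * - ha h1 h2 h3; omega)
      · intro a1 hW
        exact stepII1 hf hg hk a1 V hV hW fun _ h1 => by omega
      · intro a1 h1
        have : a1 = a := Fin.ext (by omega)
        rw [this]
        exact hG _ (Finset.mem_singleton_self _)
  · -- the cone over the curve
    subst h
    let a : Fin s := ⟨s - 1, by omega⟩
    have ha : a.val + 1 = s := by
      change s - 1 + 1 = s
      omega
    have hlast : ∀ i : Fin s, ¬ a < i := by
      intro i hi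
      rw [Fin.lt_def] at hi
      have := i.isLt
      omega
    have hδ : ∀ i : Fin s, (fun _ : Fin s => (0 : k)) i ^ ((p ^ f) ^ 2) = (fun _ => 0) i :=
      fun i => zero_pow (pow_pos (pow_pos hp.out.pos f) 2).ne'
    let P := P2 (κ := κ) p f g a (fun _ => 0) hδ
    have hI : ∀ V : Submodule ℚ (Ideal (MvPolynomial (Fin s ⊕ Fin s ⊕ κ) k) →₀ ℚ),
        rat {hform s κ (p ^ f) g} s ≤ V →
        (∀ (N : Type) (_ : Field N) (_ : Algebra k N) (c : Fin s ⊕ Fin s ⊕ κ → N), P.U c →
          tdeg k (Set.range c) = s → Finsupp.single (homIdeal k (P.Φ c)) 1 ∈ V) →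
        ∀ Q, IsSub {hform s κ (p ^ f) g} s Q → Finsupp.single Q 1 ∈ V := by
      intro V hV hG
      refine assemble hg hk V hV ?_ ?_ (fun a1 h1 => by omega)
      · intro a1 b1 hab1 h1 h2
        have h3 := ncard_D1 (κ := κ) (p := p) (f := f) (g := g) hab1 h1 (fun _ => 0)
        rw [Fintype.card_unique (α := κ)] at h3
        have := b1.isLt
        omega
      · intro a1 hW
        refine stepII1 hf hg hk a1 V hV hW fun h1 _ N _ _ c h2 h3 h4 => ?_
        have h5 : a1 = a := Fin.ext (by omega)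
        subst h5
        exact hG N _ _ c ⟨h2, fun i hi => absurd hi (hlast i), h3⟩ h4
    by_cases hex : ∃ (N : Type) (_ : Field N) (_ : Algebra k N) (c : Fin s ⊕ Fin s ⊕ κ → N),
        P.U c ∧ tdeg k (Set.range c) = s
    · obtain ⟨N, _, _, c, hU, htd⟩ := hex
      refine ⟨{homIdeal k (P.Φ c)}, by rw [Finset.card_singleton], ?_, ?_⟩
      · intro Q hQ
        rw [Finset.mem_singleton] at hQ
        subst hQ
        exact isSub_of_pt (hform_hom _ _) (P.pt c hU) (by rw [Param.tdeg_ratioField hU, htd])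
      · intro V hV hG
        refine hI V hV fun N' _ _ c' hU' htd' => ?_
        rw [uniqII1 hf hg a (fun _ => 0) hδ c' c hU' hU htd' htd]
        exact hG _ (Finset.mem_singleton_self _)
    · refine ⟨∅, by simp, by simp, ?_⟩
      intro V hV _
      exact hI V hV fun N' _ _ c' hU' htd' => absurd ⟨N', _, _, c', hU', htd'⟩ hex
  · -- plane sections
    let a : Fin l := ⟨2 * l - 1 - s, by omega⟩
    let b : Fin l := ⟨2 * l - 1 - s + 1, by omega⟩
    have hab : a < b := by
      rw [Fin.lt_def]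
      exact Nat.lt_succ_self _
    have hb : a.val + 1 = b.val := rfl
    have haval : a.val = 2 * l - 1 - s := rfl
    have hsD : (P1 (κ := κ) p f g a b hab (fun _ => 0)).D.ncard = s := by
      have h3 := ncard_D1 (κ := κ) (p := p) (f := f) (g := g) hab hb (fun _ => 0)
      rw [Fintype.card_unique (α := κ)] at h3
      omega
    refine ⟨{PS p f g κ a b hab}, ?_, ?_, ?_⟩
    · rw [Finset.card_singleton]
    · intro P hP
      rw [Finset.mem_singleton] at hP
      subst hP
      have h1 := Param.isSub_fund (P := P1 (κ := κ) p f g a b hab (fun _ => 0))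
        (hI := hform_hom (κ := κ) (l := l) (p ^ f) g) (U1_c0 hf hab _)
      rw [hsD] at h1
      exact h1
    · intro V hV hG
      refine assemble hg hk V hV ?_ ?_ ?_
      · intro a1 b1 hab1 h1 h2
        have h3 := ncard_D1 (κ := κ) (p := p) (f := f) (g := g) hab1 h1 (fun _ => 0)
        have h4 := ncard_D1 (κ := κ) (p := p) (f := f) (g := g) hab hb (fun _ => 0)
        have h5 : a1 = a := Fin.ext (by (clear * - haval hsD h2 h3 h4; omega))
        subst h5
        have h6 : b1 = b := Fin.ext (by omega)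
        subst h6
        exact hG _ (Finset.mem_singleton_self _)
      · intro a1 hW
        exact stepII1 hf hg hk a1 V hV hW fun _ h1 => by omega
      · intro a1 h1
        omega

/-- One variable `Z`: no generator modulo a hyperplane section. -/
theorem H2u [Unique κ] [Finite k] (hf : 0 < f) (hg : g ≠ 0)
    (hk : ∀ (N : Type) (_ : Field N) (_ : Algebra k N) (x : N), x ^ ((p ^ f) ^ 2) = x →
      ∃ d : k, algebraMap k N d = x) {s : ℕ} (hs : s + 2 ≤ 2 * l) (hl : 2 ≤ l)
    {L : MvPolynomial (Fin l ⊕ Fin l ⊕ κ) k} (hL : LinOK (p ^ f) L)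
    (V : Submodule ℚ (Ideal (MvPolynomial (Fin l ⊕ Fin l ⊕ κ) k) →₀ ℚ))
    (hV : rat {hform l κ (p ^ f) g} s ≤ V)
    (hcut : ∀ Q, IsSub {hform l κ (p ^ f) g} s Q → L ∈ Q → Finsupp.single Q 1 ∈ V) :
    ∀ Q, IsSub {hform l κ (p ^ f) g} s Q → Finsupp.single Q 1 ∈ V := by
  classical
  rcases lt_trichotomy s l with h | h | h
  · -- linear spaces
    refine assemble hg hk V hV ?_ ?_ ?_
    · intro a1 b1 hab1 h1 h2
      have h3 := ncard_D1 (κ := κ) (p := p) (f := f) (g := g) hab1 h1 (fun _ => 0)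
      have := b1.isLt
      omega
    · intro a1 hW
      exact stepII1 hf hg hk a1 V hV hW fun _ h1 => by omega
    · intro a1 h1
      exact LS_mem hf h1 (fun he => isEmptyElim (default : κ)) V hL hcut
  · -- the cone over the curve
    subst h
    refine assemble hg hk V hV ?_ ?_ (fun a1 h1 => by omega)
    · intro a1 b1 hab1 h1 h2
      have h3 := ncard_D1 (κ := κ) (p := p) (f := f) (g := g) hab1 h1 (fun _ => 0)
      rw [Fintype.card_unique (α := κ)] at h3
      have := b1.isLt
      omega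
    · intro a1 hW
      refine stepII1 hf hg hk a1 V hV hW fun h1 _ N _ _ c h2 h3 h4 => ?_
      exact identB hf hg h1 (by omega) V hV hL hcut c h2 h3 h4
  · -- plane sections
    let a : Fin l := ⟨2 * l - 1 - s, by omega⟩
    let b : Fin l := ⟨2 * l - 1 - s + 1, by (clear * - f hs h; omega)⟩
    have hab : a < b := by
      rw [Fin.lt_def]
      exact Nat.lt_succ_self _
    have hb : a.val + 1 = b.val := rfl
    have haval : a.val = 2 * l - 1 - s := rfl
    have hsD : (P1 (κ := κ) p f g a b hab (fun _ => 0)).D.ncard = s := by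
      have h3 := ncard_D1 (κ := κ) (p := p) (f := f) (g := g) hab hb (fun _ => 0)
      rw [Fintype.card_unique (α := κ)] at h3
      omega
    have hII : ∀ a1 : Fin l, WW (p ^ f) g κ s a1 V → CC (p ^ f) g κ s a1 l V := fun a1 hW =>
      stepII1 hf hg hk a1 V hV hW fun _ h1 => by omega
    have hW : WW (p ^ f) g κ s a V := by
      intro N _ _ y hy hys h0
      refine assembleFrom hg hk V hV (a.val + 1) (by have := a.isLt; (clear * - κ p g hab hb haval; omega)) ?_
        (fun a1 _ => hII a1) (fun a1 h1 => by omega) y hy hys ?_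
      · intro a1 b1 hab1 h0 h1 h2
        have h3 := ncard_D1 (κ := κ) (p := p) (f := f) (g := g) hab1 h1 (fun _ => 0)
        rw [Fintype.card_unique (α := κ)] at h3
        (clear * - haval hsD h0 h2 h3; omega)
      · intro i hi
        exact h0 i (by rw [Fin.le_def]; omega)
    have hC : CC (p ^ f) g κ s a (b.val + 1) V := by
      refine CC_down hk V hV hW (hII a hW) (b.val + 1) (by omega) ?_ (l - (b.val + 1)) _
        (by have := b.isLt; omega) le_rfl
      intro b1 hab1 h0 h1 h2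
      omega
    have hstar := identA hf hab hb (by omega) hsD V hV hL hcut hW hC
    refine assemble hg hk V hV ?_ hII (fun a1 h1 => by omega)
    intro a1 b1 hab1 h1 h2
    have h3 := ncard_D1 (κ := κ) (p := p) (f := f) (g := g) hab1 h1 (fun _ => 0)
    have h4 := ncard_D1 (κ := κ) (p := p) (f := f) (g := g) hab hb (fun _ => 0)
    have h5 : a1 = a := Fin.ext (by omega)
    subst h5
    have h6 : b1 = b := Fin.ext (by omega)
    subst h6
    exact hstar

end Pool.Agent.HC
end

/- Helper16.DP.HC.BaseGenA -/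
section
set_option autoImplicit false
set_option linter.unusedSectionVars false
set_option linter.style.haveILetI false

/-!
Project HC (MP_0b9e0b_ag), module E1: the generators of the Chow group of the base locus of the
pencil spanned by a monomial and the Fermat form.
-/

namespace Pool.Agent.HC

open Pool.Agent.Helper16

variable {k : Type} [Field k]

/-- The integral subschemes with the property `Z` are generated by at most `c` integral subschemes,
modulo those which lie in the hypersurface `L = 0`. -/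
def GenMod {σ : Type} (I : Set (MvPolynomial σ k)) (r : ℕ) (Z : Ideal (MvPolynomial σ k) → Prop)
    (L : MvPolynomial σ k) (c : ℕ) : Prop :=
  ∃ G : Finset (Ideal (MvPolynomial σ k)), G.card ≤ c ∧ (∀ P ∈ G, IsSub I r P) ∧
    ∀ W : Submodule ℚ (Ideal (MvPolynomial σ k) →₀ ℚ), rat I r ≤ W →
      (∀ Q, IsSub I r Q → L ∈ Q → Finsupp.single Q 1 ∈ W) →
      (∀ P ∈ G, Finsupp.single P 1 ∈ W) →
      ∀ Q, IsSub I r Q → Z Q → Finsupp.single Q 1 ∈ W

theorem genMod_one {σ : Type} {I : Set (MvPolynomial σ k)} {r : ℕ}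
    {Z : Ideal (MvPolynomial σ k) → Prop} {c : ℕ}
    (h : ∃ G : Finset (Ideal (MvPolynomial σ k)), G.card ≤ c ∧ (∀ P ∈ G, IsSub I r P) ∧
      ∀ W : Submodule ℚ (Ideal (MvPolynomial σ k) →₀ ℚ), rat I r ≤ W →
        (∀ P ∈ G, Finsupp.single P 1 ∈ W) →
        ∀ Q, IsSub I r Q → Z Q → Finsupp.single Q 1 ∈ W) (L : MvPolynomial σ k) :
    GenMod I r Z L c := by
  obtain ⟨G, h1, h2, h3⟩ := h
  exact ⟨G, h1, h2, fun W hW _ hG => h3 W hW hG⟩

section chart

variable {l : ℕ} {κ : Type} [Fintype κ] [DecidableEq κ] {σ : Type} [Fintype σ] [DecidableEq σ]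
  {p f : ℕ} [hp : Fact p.Prime] [CharP k p] {c η : k} {j : σ}
  {E : {i : σ // i ≠ j} ≃ Fin l ⊕ Fin l ⊕ κ}

theorem eta_ne_zero (hη : η ^ (p ^ f + 1) = -1) : η ≠ 0 := by
  rintro rfl
  rw [zero_pow (Nat.succ_ne_zero _)] at hη
  exact one_ne_zero (neg_eq_zero.1 hη.symm)

/-- Generators in a chart. -/
theorem chart (hc2 : (c ^ (p ^ f)) ^ (p ^ f) = c) (hc : c ^ (p ^ f) ≠ c)
    (hη : η ^ (p ^ f + 1) = -1) {e : σ → ℕ} (hj : e j ≠ 0) {r : ℕ} {L : MvPolynomial σ k} {n : ℕ}
    (h : GenMod {hform l κ (p ^ f) (c ^ (p ^ f) - c)} r (fun _ => True)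
      (linSub (hypB (p ^ f) c η j E) L) n) :
    GenMod {∏ i, (MvPolynomial.X i : MvPolynomial σ k) ^ e i,
      ∑ i, (MvPolynomial.X i : MvPolynomial σ k) ^ (p ^ f + 1)} r
      (fun Q => MvPolynomial.X j ∈ Q) L n := by
  classical
  have hη0 := eta_ne_zero hη
  have hinv : LeftInv (hypB (p ^ f) c η j E) (hypC (p ^ f) c η j E) :=
    fun {N} _ _ u => hyp_leftInv hc hη0 u
  have hsne : c ^ (p ^ f) - c ≠ 0 := sub_ne_zero.2 hc
  set g : k := c ^ (p ^ f) - c with hg
  set B := hypB (p ^ f) c η j E with hB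
  set I : Set (MvPolynomial σ k) := {∏ i, (MvPolynomial.X i : MvPolynomial σ k) ^ e i,
      ∑ i, (MvPolynomial.X i : MvPolynomial σ k) ^ (p ^ f + 1)} with hI
  set I' : Set (MvPolynomial (Fin l ⊕ Fin l ⊕ κ) k) := {hform l κ (p ^ f) g} with hI'
  have hIh : ∀ P ∈ I, ∃ d, P.IsHomogeneous d := by
    rintro P (rfl | hP)
    · refine ⟨∑ i, e i, ?_⟩
      refine MvPolynomial.IsHomogeneous.prod _ _ _ fun i _ => ?_
      simpa using (MvPolynomial.isHomogeneous_X k i).pow (e i)
    · rw [Set.mem_singleton_iff.1 hP]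
      refine ⟨p ^ f + 1, ?_⟩
      refine MvPolynomial.IsHomogeneous.sum _ _ _ fun i _ => ?_
      simpa using (MvPolynomial.isHomogeneous_X k i).pow (p ^ f + 1)
  have hI'h : ∀ P ∈ I', ∃ d, P.IsHomogeneous d := by
    intro P hP
    rw [Set.mem_singleton_iff.1 hP]
    exact ⟨_, hform_homogeneous _ _⟩
  have hfer : ∀ {N : Type} [Field N] [Algebra k N] (x : σ → N),
      MvPolynomial.aeval x (∑ i, (MvPolynomial.X i : MvPolynomial σ k) ^ (p ^ f + 1)) =
        ∑ i, x i ^ (p ^ f + 1) := by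
    intro N _ _ x
    rw [map_sum]
    refine Finset.sum_congr rfl fun i _ => ?_
    rw [map_pow, MvPolynomial.aeval_X]
  have h1 : ∀ {N : Type} [Field N] [Algebra k N] (u : Fin l ⊕ Fin l ⊕ κ → N), IsPt I' u →
      IsPt I (linMap B u) := by
    intro N _ _ u hu
    refine ⟨hinv.ne_zero hu.1, ?_⟩
    rintro P (rfl | hP)
    · rw [map_prod]
      refine Finset.prod_eq_zero (Finset.mem_univ j) ?_
      rw [map_pow, MvPolynomial.aeval_X, hypB_self, zero_pow hj]
    · rw [Set.mem_singleton_iff.1 hP, hfer, fermat_hyp hc2 hc hη u, ← aeval_hform,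
        hu.2 _ (Set.mem_singleton _), mul_zero]
  have h2 : ∀ {N : Type} [Field N] [Algebra k N] (u : Fin l ⊕ Fin l ⊕ κ → N),
      IsPt I (linMap B u) → IsPt I' u := by
    intro N _ _ u hu
    refine ⟨?_, ?_⟩
    · rintro rfl
      refine hu.1 ?_
      funext i
      unfold linMap
      simp
    · intro P hP
      rw [Set.mem_singleton_iff.1 hP]
      have h3 := hu.2 _ (Or.inr rfl)
      rw [hfer, fermat_hyp hc2 hc hη u, ← aeval_hform, mul_eq_zero, map_eq_zero,
        inv_eq_zero] at h3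
      rcases h3 with h3 | h3
      · exact absurd h3 hsne
      · exact h3
  obtain ⟨G, hG1, hG2, hG3⟩ := h
  refine ⟨G.image (Ideal.comap (linSub B)), Finset.card_image_le.trans hG1, ?_, ?_⟩
  · intro P hP
    obtain ⟨P', hP', rfl⟩ := Finset.mem_image.1 hP
    exact isSub_push hinv hIh h1 (hG2 P' hP')
  · intro W hW hcut hGW Q hQ hjQ
    have hjQ' : (MvPolynomial.X j : MvPolynomial σ k) ∈ Q := hjQ
    obtain ⟨P, hP, rfl⟩ := exists_pull hinv hI'h h2 hQ (fun x hx => by
      refine hyp_fix hc hη0 ?_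
      rw [← hx] at hjQ'
      exact mem_homIdeal_X.1 hjQ')
    have h3 := hG3 (W.comap (pushL B)) (fun z hz => hW (pushL_rat hinv h1 hz))
      (fun Q' hQ' hL => by
        rw [Submodule.mem_comap, pushL_single]
        exact hcut _ (isSub_push hinv hIh h1 hQ') hL)
      (fun P' hP' => by
        rw [Submodule.mem_comap, pushL_single]
        exact hGW _ (Finset.mem_image_of_mem _ hP')) P hP trivial
    rw [Submodule.mem_comap, pushL_single] at h3
    exact h3

end chart

/-- There is a chart in which a given coordinate goes to a given place. -/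
theorem exists_equiv_at {α β : Type} [Fintype α] [Fintype β] [DecidableEq β]
    (h : Fintype.card α = Fintype.card β) (a : α) (b : β) : ∃ E : α ≃ β, E a = b := by
  let E0 := Fintype.equivOfCardEq h
  exact ⟨E0.trans (Equiv.swap (E0 a) b), by simp⟩

section union

variable {σ : Type} [Fintype σ] [DecidableEq σ] {I : Set (MvPolynomial σ k)} {r : ℕ}
  {e : σ → ℕ} {G : MvPolynomial σ k}

/-- The union over the components. -/
theorem union_gen {M : ℕ} {j0 : σ} (hj0 : e j0 ≠ 0)
    (h1 : GenMod {∏ i, (MvPolynomial.X i : MvPolynomial σ k) ^ e i, G} r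
      (fun Q => MvPolynomial.X j0 ∈ Q) 1 (1 + M))
    (h2 : ∀ j, j ≠ j0 → e j ≠ 0 →
      GenMod {∏ i, (MvPolynomial.X i : MvPolynomial σ k) ^ e i, G} r
        (fun Q => MvPolynomial.X j ∈ Q) (MvPolynomial.X j0) M) :
    ∃ T : Finset (Ideal (MvPolynomial σ k)),
      (∀ P ∈ T, IsSub {∏ i, (MvPolynomial.X i : MvPolynomial σ k) ^ e i, G} r P) ∧
      T.card ≤ 1 + (Finset.univ.filter fun j => e j ≠ 0).card * M ∧
      ∀ P, IsSub {∏ i, (MvPolynomial.X i : MvPolynomial σ k) ^ e i, G} r P →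
        Finsupp.single P (1 : ℚ) ∈ Submodule.span ℚ ((fun P => Finsupp.single P (1 : ℚ)) ''
          (T : Set (Ideal (MvPolynomial σ k)))) ⊔
          rat {∏ i, (MvPolynomial.X i : MvPolynomial σ k) ^ e i, G} r := by
  classical
  set I : Set (MvPolynomial σ k) := {∏ i, (MvPolynomial.X i : MvPolynomial σ k) ^ e i, G} with hI
  set J := Finset.univ.filter fun j => e j ≠ 0 with hJ
  obtain ⟨G0, hG0, hG0s, hG0g⟩ := h1
  have h3 : ∀ j : σ, ∃ G1 : Finset (Ideal (MvPolynomial σ k)), G1.card ≤ M ∧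
      (∀ P ∈ G1, IsSub I r P) ∧ (j ≠ j0 → e j ≠ 0 →
        ∀ W : Submodule ℚ (Ideal (MvPolynomial σ k) →₀ ℚ), rat I r ≤ W →
          (∀ Q, IsSub I r Q → MvPolynomial.X j0 ∈ Q → Finsupp.single Q 1 ∈ W) →
          (∀ P ∈ G1, Finsupp.single P 1 ∈ W) →
          ∀ Q, IsSub I r Q → MvPolynomial.X j ∈ Q → Finsupp.single Q 1 ∈ W) := by
    intro j
    by_cases hj : j ≠ j0 ∧ e j ≠ 0
    · obtain ⟨G1, ha, hb, hc⟩ := h2 j hj.1 hj.2
      exact ⟨G1, ha, hb, fun _ _ => hc⟩
    · exact ⟨∅, by simp, by simp, fun h4 h5 => absurd ⟨h4, h5⟩ hj⟩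
  choose G1 hG1 hG1s hG1g using h3
  refine ⟨G0 ∪ (J.erase j0).biUnion G1, ?_, ?_, ?_⟩
  · intro P hP
    rcases Finset.mem_union.1 hP with h | h
    · exact hG0s P h
    · obtain ⟨j, -, hj⟩ := Finset.mem_biUnion.1 h
      exact hG1s j P hj
  · have hjJ : j0 ∈ J := by
      rw [hJ, Finset.mem_filter]
      exact ⟨Finset.mem_univ _, hj0⟩
    have h4 : ((J.erase j0).biUnion G1).card ≤ (J.erase j0).card * M :=
      Finset.card_biUnion_le_card_mul _ _ _ fun j _ => hG1 j
    have h5 : (J.erase j0).card + 1 = J.card := Finset.card_erase_add_one hjJ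
    calc (G0 ∪ (J.erase j0).biUnion G1).card ≤ G0.card + ((J.erase j0).biUnion G1).card :=
          Finset.card_union_le _ _
      _ ≤ (1 + M) + (J.erase j0).card * M := add_le_add hG0 h4
      _ = 1 + J.card * M := by rw [← h5]; ring
  · intro P hP
    set W := Submodule.span ℚ ((fun P => Finsupp.single P (1 : ℚ)) ''
          ((G0 ∪ (J.erase j0).biUnion G1 : Finset (Ideal (MvPolynomial σ k))) :
            Set (Ideal (MvPolynomial σ k)))) ⊔ rat I r with hW
    have hmem : ∀ Q ∈ G0 ∪ (J.erase j0).biUnion G1, Finsupp.single Q 1 ∈ W := fun Q hQ =>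
      (le_sup_left : _ ≤ W) (Submodule.subset_span ⟨Q, hQ, rfl⟩)
    have hrat : rat I r ≤ W := le_sup_right
    have hA : ∀ Q, IsSub I r Q → MvPolynomial.X j0 ∈ Q → Finsupp.single Q 1 ∈ W :=
      fun Q hQ hj => hG0g W hrat (fun Q' hQ' h1' => absurd h1' hQ'.prime.one_notMem)
        (fun P' hP' => hmem _ (Finset.mem_union_left _ hP')) Q hQ hj
    obtain ⟨j, hj, hPj⟩ := isSub_prod (L := fun i => (MvPolynomial.X i : MvPolynomial σ k))
      (e := e) (G := G) hP
    have hXj : (MvPolynomial.X j : MvPolynomial σ k) ∈ P := hPj.le (Or.inl rfl)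
    by_cases hjj : j = j0
    · rw [hjj] at hXj
      exact hA P hP hXj
    · refine hG1g j hjj hj W hrat hA (fun P' hP' => hmem _ (Finset.mem_union_right _ ?_)) P hP hXj
      refine Finset.mem_biUnion.2 ⟨j, ?_, hP'⟩
      rw [Finset.mem_erase, hJ, Finset.mem_filter]
      exact ⟨hjj, Finset.mem_univ _, hj⟩

end union

section main

variable {p f : ℕ} [hp : Fact p.Prime] [CharP k p] {c η : k} {N : ℕ}

theorem chart_even (hf : 0 < f) (hc2 : (c ^ (p ^ f)) ^ (p ^ f) = c) (hc : c ^ (p ^ f) ≠ c)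
    (hη : η ^ (p ^ f + 1) = -1)
    (hk : ∀ (N : Type) (_ : Field N) (_ : Algebra k N) (x : N), x ^ ((p ^ f) ^ 2) = x →
      ∃ d : k, algebraMap k N d = x) {l : ℕ} (hl : 2 ≤ l) (hN : N = 2 * l)
    {e : Fin (N + 1) → ℕ} {r : ℕ} (hr : r + 3 ≤ N) {j : Fin (N + 1)} (hj : e j ≠ 0) :
    GenMod {∏ i, (MvPolynomial.X i : MvPolynomial (Fin (N + 1)) k) ^ e i,
      ∑ i, (MvPolynomial.X i : MvPolynomial (Fin (N + 1)) k) ^ (p ^ f + 1)} r
      (fun Q => MvPolynomial.X j ∈ Q) 1
      (1 + if r + 1 = l then ((p ^ f) ^ (2 * l) + p ^ f) / (p ^ f + 1) else 0) ∧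
    ∀ j0, j0 ≠ j → GenMod {∏ i, (MvPolynomial.X i : MvPolynomial (Fin (N + 1)) k) ^ e i,
      ∑ i, (MvPolynomial.X i : MvPolynomial (Fin (N + 1)) k) ^ (p ^ f + 1)} r
      (fun Q => MvPolynomial.X j ∈ Q) (MvPolynomial.X j0)
      (if r + 1 = l then ((p ^ f) ^ (2 * l) + p ^ f) / (p ^ f + 1) else 0) := by
  have hg : c ^ (p ^ f) - c ≠ 0 := sub_ne_zero.2 hc
  have hcard : Fintype.card {i : Fin (N + 1) // i ≠ j} =
      Fintype.card (Fin l ⊕ Fin l ⊕ Fin 0) := by
    simp [hN]
    omega
  refine ⟨?_, ?_⟩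
  · let E := Fintype.equivOfCardEq hcard
    refine chart (E := E) hc2 hc hη hj (genMod_one ?_ _)
    obtain ⟨G, h1, h2, h3⟩ := H1e (κ := Fin 0) (l := l) (p := p) (g := c ^ (p ^ f) - c) hf hg hk
      (s := r) (by omega)
    exact ⟨G, h1, h2, fun W hW hG Q hQ _ => h3 W hW hG Q hQ⟩
  · intro j0 hj0
    let i0 : Fin l := ⟨0, by omega⟩
    obtain ⟨E, hE⟩ := exists_equiv_at hcard ⟨j0, hj0⟩ (Sum.inl i0)
    refine chart (E := E) hc2 hc hη hj ?_
    have hL : linSub (hypB (p ^ f) c η j E) (MvPolynomial.X j0) =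
        MvPolynomial.C ((c ^ (p ^ f) - c)⁻¹ * c ^ (p ^ f)) * MvPolynomial.X (Sum.inl i0) +
        MvPolynomial.C (-(c ^ (p ^ f) - c)⁻¹) * MvPolynomial.X (Sum.inr (Sum.inl i0)) := by
      rw [linSub_X]
      have h1 : (E.symm (Sum.inl i0)).1 = j0 := by
        rw [← hE, E.symm_apply_apply]
      have h2 := hypB_inl (p ^ f) c η j E (MvPolynomial.X : _ → MvPolynomial _ k) i0
      rw [h1] at h2
      exact h2
    rw [hL]
    obtain ⟨G, h1, h2, h3⟩ := H2e (κ := Fin 0) (l := l) (p := p) (g := c ^ (p ^ f) - c) hf hg hk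
      (s := r) (by omega) hl (linOK_XY (p ^ f) i0 rfl
        (α := (c ^ (p ^ f) - c)⁻¹ * c ^ (p ^ f)) (neg_ne_zero.2 (inv_ne_zero hg)))
    exact ⟨G, h1, h2, fun W hW hcut hG Q hQ _ => h3 W hW hcut hG Q hQ⟩

theorem chart_odd [Finite k] (hf : 0 < f) (hc2 : (c ^ (p ^ f)) ^ (p ^ f) = c)
    (hc : c ^ (p ^ f) ≠ c) (hη : η ^ (p ^ f + 1) = -1)
    (hk : ∀ (N : Type) (_ : Field N) (_ : Algebra k N) (x : N), x ^ ((p ^ f) ^ 2) = x →
      ∃ d : k, algebraMap k N d = x) {l : ℕ} (hl : 2 ≤ l) (hN : N = 2 * l + 1)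
    {e : Fin (N + 1) → ℕ} {r : ℕ} (hr : r + 3 ≤ N) {j : Fin (N + 1)} (hj : e j ≠ 0) :
    GenMod {∏ i, (MvPolynomial.X i : MvPolynomial (Fin (N + 1)) k) ^ e i,
      ∑ i, (MvPolynomial.X i : MvPolynomial (Fin (N + 1)) k) ^ (p ^ f + 1)} r
      (fun Q => MvPolynomial.X j ∈ Q) 1 1 ∧
    ∀ j0, j0 ≠ j → GenMod {∏ i, (MvPolynomial.X i : MvPolynomial (Fin (N + 1)) k) ^ e i,
      ∑ i, (MvPolynomial.X i : MvPolynomial (Fin (N + 1)) k) ^ (p ^ f + 1)} r
      (fun Q => MvPolynomial.X j ∈ Q) (MvPolynomial.X j0) 0 := by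
  have hg : c ^ (p ^ f) - c ≠ 0 := sub_ne_zero.2 hc
  have hcard : Fintype.card {i : Fin (N + 1) // i ≠ j} =
      Fintype.card (Fin l ⊕ Fin l ⊕ Fin 1) := by
    simp [hN]
    omega
  refine ⟨?_, ?_⟩
  · let E := Fintype.equivOfCardEq hcard
    refine chart (E := E) hc2 hc hη hj (genMod_one ?_ _)
    obtain ⟨G, h1, h2, h3⟩ := H1u (κ := Fin 1) (l := l) (p := p) (g := c ^ (p ^ f) - c) hf hg hk
      (s := r) (by omega)
    exact ⟨G, h1, h2, fun W hW hG Q hQ _ => h3 W hW hG Q hQ⟩
  · intro j0 hj0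
    obtain ⟨E, hE⟩ := exists_equiv_at hcard ⟨j0, hj0⟩ (Sum.inr (Sum.inr default))
    refine chart (E := E) hc2 hc hη hj ?_
    have hL : linSub (hypB (p ^ f) c η j E) (MvPolynomial.X j0) =
        MvPolynomial.X (Sum.inr (Sum.inr default)) := by
      rw [linSub_X]
      have h1 : (E.symm (Sum.inr (Sum.inr default))).1 = j0 := by
        rw [← hE, E.symm_apply_apply]
      have h2 := hypB_z (p ^ f) c η j E (MvPolynomial.X : _ → MvPolynomial _ k) default
      rw [h1] at h2
      exact h2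
    rw [hL]
    refine ⟨∅, by simp, by simp, fun W hW hcut _ Q hQ _ => ?_⟩
    exact H2u (κ := Fin 1) (l := l) (p := p) (g := c ^ (p ^ f) - c) hf hg hk
      (s := r) (by omega) hl (linOK_Z (p ^ f)) W hW hcut Q hQ

theorem baseGen_of [Finite k] (hf : 0 < f) (hc2 : (c ^ (p ^ f)) ^ (p ^ f) = c)
    (hc : c ^ (p ^ f) ≠ c) (hη : η ^ (p ^ f + 1) = -1)
    (hk : ∀ (N : Type) (_ : Field N) (_ : Algebra k N) (x : N), x ^ ((p ^ f) ^ 2) = x →
      ∃ d : k, algebraMap k N d = x) (hN : 4 ≤ N) {e : Fin (N + 1) → ℕ}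
    (he : ∃ j, e j ≠ 0) {r : ℕ} (hr : r + 3 ≤ N) : BaseGen k e (p ^ f) r := by
  obtain ⟨j0, hj0⟩ := he
  have key : ∀ M : ℕ, (∀ j, e j ≠ 0 →
      GenMod {∏ i, (MvPolynomial.X i : MvPolynomial (Fin (N + 1)) k) ^ e i,
        ∑ i, (MvPolynomial.X i : MvPolynomial (Fin (N + 1)) k) ^ (p ^ f + 1)} r
        (fun Q => MvPolynomial.X j ∈ Q) 1 (1 + M) ∧
      ∀ j0, j0 ≠ j → GenMod {∏ i, (MvPolynomial.X i : MvPolynomial (Fin (N + 1)) k) ^ e i,
        ∑ i, (MvPolynomial.X i : MvPolynomial (Fin (N + 1)) k) ^ (p ^ f + 1)} r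
        (fun Q => MvPolynomial.X j ∈ Q) (MvPolynomial.X j0) M) →
      M = (if 2 * r + 2 = N then ((p ^ f) ^ N + p ^ f) / (p ^ f + 1) else 0) →
      BaseGen k e (p ^ f) r := by
    intro M h1 hM
    obtain ⟨T, hT1, hT2, hT3⟩ := union_gen (σ := Fin (N + 1)) hj0 (h1 j0 hj0).1
      (fun j hjj hj => (h1 j hj).2 j0 (Ne.symm hjj))
    refine ⟨T, hT1, ?_, hT3⟩
    refine hT2.trans ?_
    rw [hM]
    split_ifs with h
    · exact le_refl _
    · rw [mul_zero]
  rcases Nat.even_or_odd' N with ⟨l, hl | hl⟩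
  · refine key (if r + 1 = l then ((p ^ f) ^ (2 * l) + p ^ f) / (p ^ f + 1) else 0)
      (fun j hj => chart_even hf hc2 hc hη hk (by omega) hl hr hj) ?_
    by_cases h : r + 1 = l
    · rw [if_pos h, if_pos (by (clear * - f hl h; omega)), hl]
    · rw [if_neg h, if_neg (by omega)]
  · refine key 0 (fun j hj => chart_odd hf hc2 hc hη hk (by omega) hl hr hj) ?_
    rw [if_neg (by omega)]

end main

end Pool.Agent.HC
end

/- Helper16.DP.HC.SecGen -/
section
set_option autoImplicit false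
set_option linter.unusedSectionVars false
set_option linter.style.haveILetI false

/-!
Project HC (MP_0b9e0b_ag): generators of the hyperplane sections `x_j = 0` of the Hermitian variety.
-/

namespace Pool.Agent.HC

open Pool.Agent.Helper16

theorem prod_single {k : Type} [Field k] {N : ℕ} (j : Fin (N + 1)) :
    ∏ i, (MvPolynomial.X i : MvPolynomial (Fin (N + 1)) k) ^ (Pi.single j 1 : Fin (N + 1) → ℕ) i =
      MvPolynomial.X j := by
  classical
  rw [Finset.prod_eq_single j]
  · rw [Pi.single_eq_same, pow_one]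
  · intro i _ hij
    rw [Pi.single_eq_of_ne hij, pow_zero]
  · intro h
    exact absurd (Finset.mem_univ j) h

theorem genBy_of_genMod {k : Type} [Field k] {N q r n : ℕ} {j : Fin (N + 1)}
    {L : MvPolynomial (Fin (N + 1)) k}
    (h : GenMod {∏ i, (MvPolynomial.X i : MvPolynomial (Fin (N + 1)) k) ^
        (Pi.single j 1 : Fin (N + 1) → ℕ) i,
      ∑ i, (MvPolynomial.X i : MvPolynomial (Fin (N + 1)) k) ^ (q + 1)} r
      (fun Q => MvPolynomial.X j ∈ Q) L n) :
    GenBy {MvPolynomial.X j, fermat k N (q + 1)} r L n := by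
  rw [prod_single] at h
  obtain ⟨G, h1, h2, h3⟩ := h
  exact ⟨G, h1, h2, fun W hW hL hG Q hQ => h3 W hW hL hG Q hQ (hQ.le (Or.inl rfl))⟩

theorem secGen (p f : ℕ) (hp : p.Prime) (hf : f ≠ 0) {N r : ℕ} (hN : 4 ≤ N) (hr : r + 3 ≤ N) :
    SecGen p f N r (if 2 * r + 2 = N then ((p ^ f) ^ N + p ^ f) / (p ^ f + 1) else 0) := by
  intro k _ _ _ μ hμ hcard j0
  have : Fact p.Prime := ⟨hp⟩
  have hk := hk_of_card k hcard
  obtain ⟨c, η, hc2, hc, hη⟩ := exists_c_eta k hp hf hμ hcard
  have hj : ∀ j : Fin (N + 1), (Pi.single j 1 : Fin (N + 1) → ℕ) j ≠ 0 := fun j => by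
    rw [Pi.single_eq_same]
    exact one_ne_zero
  rcases Nat.even_or_odd' N with ⟨l, hl | hl⟩
  · have hM : (if 2 * r + 2 = N then ((p ^ f) ^ N + p ^ f) / (p ^ f + 1) else 0) =
        if r + 1 = l then ((p ^ f) ^ (2 * l) + p ^ f) / (p ^ f + 1) else 0 := by
      by_cases h : r + 1 = l
      · rw [if_pos h, if_pos (by omega), hl]
      · rw [if_neg h, if_neg (by omega)]
    rw [hM]
    refine ⟨genBy_of_genMod (chart_even (Nat.pos_of_ne_zero hf) hc2 hc hη hk (by omega) hl hr
      (hj j0)).1, fun j hjj => ?_⟩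
    exact genBy_of_genMod ((chart_even (Nat.pos_of_ne_zero hf) hc2 hc hη hk (by omega) hl hr
      (hj j)).2 j0 (Ne.symm hjj))
  · rw [if_neg (by omega)]
    refine ⟨genBy_of_genMod (chart_odd (Nat.pos_of_ne_zero hf) hc2 hc hη hk (by omega) hl hr
      (hj j0)).1, fun j hjj => ?_⟩
    exact genBy_of_genMod ((chart_odd (Nat.pos_of_ne_zero hf) hc2 hc hη hk (by omega) hl hr
      (hj j)).2 j0 (Ne.symm hjj))

end Pool.Agent.HC
end

/- Helper16.DP.HC.DiagFinal -/
section
set_option autoImplicit false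

/-!
Project HC (MP_0b9e0b_ag): the final theorem for `∏ x_j^(e_j) + t ∑ a_j x_j^m = 0`.
-/

namespace Pool.Agent.HC

open Pool.Agent.Helper16

theorem final_diag (k : Type) [Field k] [Finite k] (p f m N : ℕ) (hp : p.Prime) [CharP k p]
    (hf : f ≠ 0) (hm : m ∣ p ^ f + 1) (hN : 4 ≤ N) (e : Fin (N + 1) → ℕ) (he : ∑ j, e j = m)
    (a : Fin (N + 1) → k) (ha : ∀ j, a j ≠ 0) (r : ℕ) (hr : r + 3 ≤ N) :
    IsSmoothHyp (eqDiag e a) ∧ ChowBoundDiag e a (p ^ f) r := by
  have h1 := rank_eqDiag_le k p f hp hf hm e he a ha hr (secGen p f hp hf hN hr)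
  rw [← dimCH_eq] at h1
  refine ⟨smooth_eqDiag k e he ?_ a ha, fun h2 => ?_, fun h2 => ?_, fun h2 h3 _ hμ => ?_⟩
  · intro h0
    rw [CharP.cast_eq_zero_iff k p] at h0
    have h3 : p ∣ p ^ f + 1 := h0.trans hm
    rw [Nat.dvd_add_right (dvd_pow_self p hf)] at h3
    exact hp.one_lt.ne' (Nat.dvd_one.1 h3)
  · rw [if_neg h2, mul_zero, add_zero, Nat.cast_one] at h1
    exact h1
  · rw [if_pos h2] at h1
    exact h1
  · obtain ⟨μ, hμ0, hμ1⟩ := hμ
    obtain ⟨L, hL1, hL2⟩ := exists_LDW k p f (p ^ f) μ N hp hf rfl hμ0 hμ1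
      ⟨r + 1, by omega⟩ (by omega) e h3
    have h4 : N / 2 = r + 1 := by omega
    rw [h4] at hL2
    exact ⟨L, hL1, hL2⟩

end Pool.Agent.HC
end

/- Helper16.DP.HC.GenG -/
section
set_option autoImplicit false

/-!
Project HC (MP_0b9e0b_ag): pencils `∏ x_j^(e_j) + t (∑ a_j x_j^m + g ∏ x_j) = 0` where `g` is an
arbitrary form and the last product is over the `j` with `e_j > 0`: the bound for the Chow groups.
-/

namespace Pool.Agent.HC

open Pool.Agent.Helper16

section congr

variable {K σ : Type} [Field K] {I I' : Set (MvPolynomial σ K)} {r : ℕ}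

theorem IsSub.of_le {P : Ideal (MvPolynomial σ K)} (h : IsSub I r P) (hI : I' ⊆ P) :
    IsSub I' r P :=
  ⟨h.prime, h.hom, hI, h.dim⟩

/-- Equations with the same points have the same generators. -/
theorem GenBy.congr {L : MvPolynomial σ K} {c : ℕ}
    (h1 : ∀ P : Ideal (MvPolynomial σ K), I ⊆ P ↔ I' ⊆ P)
    (h2 : ∀ (N : Type) [Field N] [Algebra K N] (x : σ → N), IsPt I x → IsPt I' x)
    (h : GenBy I r L c) : GenBy I' r L c := by
  obtain ⟨G, hc, hG, hW⟩ := h
  refine ⟨G, hc, fun P hP => (hG P hP).of_le ((h1 P).1 (hG P hP).le), fun W hrat hL hGW Q hQ => ?_⟩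
  refine hW W ((rat_mono h2).trans hrat) (fun Q hQ hLQ => ?_) hGW Q (hQ.of_le ((h1 Q).2 hQ.le))
  exact hL Q (hQ.of_le ((h1 Q).1 hQ.le)) hLQ

end congr

section defs

variable {k : Type} [Field k] {N : ℕ}

theorem prodForm_homog (e : Fin (N + 1) → ℕ) :
    (prodForm k e).IsHomogeneous (Finset.univ.filter fun j => e j ≠ 0).card := by
  unfold prodForm
  have h := MvPolynomial.IsHomogeneous.prod (Finset.univ.filter fun j => e j ≠ 0)
    (fun j => (MvPolynomial.X j : MvPolynomial (Fin (N + 1)) k)) (fun _ => 1)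
    (fun j _ => MvPolynomial.isHomogeneous_X k j)
  rwa [Finset.sum_const, smul_eq_mul, mul_one] at h

theorem card_le_sum (e : Fin (N + 1) → ℕ) :
    (Finset.univ.filter fun j => e j ≠ 0).card ≤ ∑ j, e j := by
  rw [Finset.card_eq_sum_ones, Finset.sum_filter]
  refine Finset.sum_le_sum fun j _ => ?_
  split_ifs with h
  · exact Nat.one_le_iff_ne_zero.2 h
  · exact Nat.zero_le _

theorem formG_homog (e : Fin (N + 1) → ℕ) (a : Fin (N + 1) → k)
    {g : MvPolynomial (Fin (N + 1)) k}
    (hg : g.IsHomogeneous (∑ j, e j - (Finset.univ.filter fun j => e j ≠ 0).card)) :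
    (formG e a g).IsHomogeneous (∑ j, e j) := by
  refine (diagForm_homog a _).add ?_
  have h := hg.mul (prodForm_homog (k := k) e)
  rwa [Nat.sub_add_cancel (card_le_sum e)] at h

theorem X_dvd_prodForm {e : Fin (N + 1) → ℕ} {j : Fin (N + 1)} (hj : e j ≠ 0) :
    MvPolynomial.X j ∣ prodForm k e :=
  Finset.dvd_prod_of_mem _ (Finset.mem_filter.2 ⟨Finset.mem_univ j, hj⟩)

/-- On `x_j = 0` the form `formG` is the diagonal form. -/
theorem genBy_formG {e : Fin (N + 1) → ℕ} {a : Fin (N + 1) → k}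
    (g : MvPolynomial (Fin (N + 1)) k) {j : Fin (N + 1)} (hj : e j ≠ 0) {r c : ℕ}
    {L : MvPolynomial (Fin (N + 1)) k}
    (h : GenBy {MvPolynomial.X j, diagForm a (∑ j, e j)} r L c) :
    GenBy {MvPolynomial.X j, formG e a g} r L c := by
  obtain ⟨Y, hY⟩ := X_dvd_prodForm (k := k) hj
  refine h.congr (fun P => ?_) (fun M _ _ x hx => ?_)
  · have key : MvPolynomial.X j ∈ P → (formG e a g ∈ P ↔ diagForm a (∑ j, e j) ∈ P) := by
      intro hX
      have h1 : g * prodForm k e ∈ P := by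
        rw [hY]
        exact Ideal.mul_mem_left _ _ (Ideal.mul_mem_right _ _ hX)
      unfold formG
      exact ⟨fun h2 => (Ideal.add_mem_iff_left P h1).1 h2,
        fun h2 => (Ideal.add_mem_iff_left P h1).2 h2⟩
    constructor
    · intro h1
      have hX : MvPolynomial.X j ∈ P := h1 (Or.inl rfl)
      have hD : diagForm a (∑ j, e j) ∈ P := h1 (Or.inr rfl)
      rintro F (rfl | hF)
      · exact hX
      · rw [Set.mem_singleton_iff.1 hF]
        exact (key hX).2 hD
    · intro h1
      have hX : MvPolynomial.X j ∈ P := h1 (Or.inl rfl)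
      have hD : formG e a g ∈ P := h1 (Or.inr rfl)
      rintro F (rfl | hF)
      · exact hX
      · rw [Set.mem_singleton_iff.1 hF]
        exact (key hX).1 hD
  · have hX : MvPolynomial.aeval x (MvPolynomial.X j : MvPolynomial (Fin (N + 1)) k) = 0 :=
      hx.2 _ (Or.inl rfl)
    have hD : MvPolynomial.aeval x (diagForm a (∑ j, e j)) = 0 := hx.2 _ (Or.inr rfl)
    refine ⟨hx.1, ?_⟩
    rintro F (rfl | hF)
    · exact hX
    · rw [Set.mem_singleton_iff.1 hF]
      unfold formG
      rw [map_add, hD, zero_add, map_mul, hY, map_mul, hX, zero_mul, mul_zero]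

/-- The bound for the Chow groups. -/
theorem rank_eqG_le (k : Type) [Field k] [Finite k] (p f : ℕ) (hp : p.Prime) [CharP k p]
    (hf : f ≠ 0) {N r M m : ℕ} (hm : m ∣ p ^ f + 1) (e : Fin (N + 1) → ℕ) (he : ∑ j, e j = m)
    (a : Fin (N + 1) → k) (ha : ∀ j, a j ≠ 0) {g : MvPolynomial (Fin (N + 1)) k}
    (hg : g.IsHomogeneous (∑ j, e j - (Finset.univ.filter fun j => e j ≠ 0).card))
    (hr : r + 3 ≤ N) (h : SecGen p f N r M) :
    Module.rank ℚ (CH {eqG e a g} r) ≤
      ((1 + (Finset.univ.filter fun j => e j ≠ 0).card * M : ℕ) : Cardinal) := by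
  have hm0 : 0 < m := Nat.pos_of_dvd_of_pos hm (by omega)
  have hex : ∃ j0, e j0 ≠ 0 := by
    by_contra hcon
    push Not at hcon
    rw [Finset.sum_eq_zero fun j _ => hcon j] at he
    omega
  obtain ⟨j0, hj0⟩ := hex
  obtain ⟨h1, h2⟩ := genBy_diag k p f hp hf hm a ha h j0
  rw [← he] at h1 h2
  obtain ⟨T, hTs, hTc, hT⟩ := exists_union_gen (e := e) (L := fun j => MvPolynomial.X j) hj0
    (genBy_formG g hj0 h1) (fun j hj hj' => genBy_formG g hj' (h2 j hj))
  have h3 : Module.rank ℚ (CH {eqG e a g} r) ≤ T.card := by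
    unfold eqG
    refine rank_pencil_le (m := m) (by rw [Fintype.card_fin]; omega) ?_ ?_ hm0 T hTs hT
    · rw [← he]
      exact monForm_homog k e
    · rw [← he]
      exact formG_homog e a hg
  refine h3.trans ?_
  exact_mod_cast hTc

end defs

end Pool.Agent.HC
end

/- Helper16.DP.HC.SmoothG -/
section
set_option autoImplicit false

/-!
Project HC (MP_0b9e0b_ag): the hypersurfaces `x_0^m + t (∑ a_j x_j^m + g x_0) = 0` are smooth for
every form `g`.
-/

namespace Pool.Agent.HC

open MvPolynomial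

section finite

variable {k E : Type} [Field k] [Field E] [Algebra k E] {N : ℕ}

/-- If `y_j^(n+1)`, `j ≠ j0`, is a polynomial of degree at most `n` in the `y_j`, where `y_{j0}` is
one, then the `y_j` generate a finite algebra. -/
theorem mem_box_span {n : ℕ} (y : Fin (N + 1) → E) (j0 : Fin (N + 1)) (hy : y j0 = 1)
    (h : ∀ j, j ≠ j0 → ∃ Q : MvPolynomial (Fin (N + 1)) k, Q.totalDegree ≤ n ∧
      y j ^ (n + 1) = aeval y Q) (d : ℕ) :
    ∀ P : MvPolynomial (Fin (N + 1)) k, P.totalDegree ≤ d → aeval y P ∈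
      Submodule.span k (Set.range fun α : Fin (N + 1) → Fin (n + 1) => ∏ j, y j ^ (α j : ℕ)) := by
  classical
  set S := Submodule.span k (Set.range fun α : Fin (N + 1) → Fin (n + 1) => ∏ j, y j ^ (α j : ℕ))
    with hS
  -- monomials
  have mono : ∀ (d : ℕ), (∀ P : MvPolynomial (Fin (N + 1)) k, P.totalDegree < d → aeval y P ∈ S) →
      ∀ α : Fin (N + 1) →₀ ℕ, (α.sum fun _ e => e) ≤ d → aeval y (monomial α (1 : k)) ∈ S := by
    intro d ih α hα
    have hval : aeval y (monomial α (1 : k)) = ∏ j, y j ^ α j := by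
      rw [aeval_monomial, map_one, one_mul, Finsupp.prod_fintype _ _ (fun i => pow_zero _)]
    by_cases hbox : ∀ j, j ≠ j0 → α j ≤ n
    · rw [hval]
      refine Submodule.subset_span ⟨fun j => if hj : j = j0 then 0 else
        ⟨α j, Nat.lt_succ_of_le (hbox j hj)⟩, ?_⟩
      refine Finset.prod_congr rfl fun j _ => ?_
      by_cases hj : j = j0
      · subst hj
        simp only [hy, one_pow]
      · simp only [dif_neg hj]
    · push Not at hbox
      obtain ⟨j, hj, hjn⟩ := hbox
      obtain ⟨Q, hQd, hQ⟩ := h j hj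
      -- `α = β + (n + 1) e_j`
      have hle : Finsupp.single j (n + 1) ≤ α := by
        rw [Finsupp.single_le_iff]
        exact hjn
      obtain ⟨β, hβ⟩ := exists_add_of_le hle
      have hsum : (α.sum fun _ e => e) = (n + 1) + (β.sum fun _ e => e) := by
        rw [hβ, Finsupp.sum_add_index' (fun _ => rfl) (fun _ _ _ => rfl),
          Finsupp.sum_single_index rfl]
      have h1 : aeval y (monomial α (1 : k)) = aeval y (Q * monomial β (1 : k)) := by
        have h2 : (monomial α (1 : k)) = X j ^ (n + 1) * monomial β (1 : k) := by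
          rw [X_pow_eq_monomial, monomial_mul, one_mul, hβ]
        rw [h2, map_mul, map_mul, map_pow, aeval_X, hQ]
      rw [h1]
      refine ih _ ?_
      have h3 : (Q * monomial β (1 : k)).totalDegree ≤ n + (β.sum fun _ e => e) := by
        refine (totalDegree_mul _ _).trans (Nat.add_le_add hQd ?_)
        exact totalDegree_monomial_le _ _
      omega
  induction d using Nat.strong_induction_on with
  | _ d ih =>
    intro P hP
    have ih' : ∀ P : MvPolynomial (Fin (N + 1)) k, P.totalDegree < d → aeval y P ∈ S :=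
      fun P hP => ih _ hP P le_rfl
    have h4 := mono d ih'
    rw [P.as_sum, map_sum]
    refine Submodule.sum_mem _ fun α hα => ?_
    have h5 : monomial α (coeff α P) = C (coeff α P) * monomial α (1 : k) := by
      rw [C_mul_monomial, mul_one]
    rw [h5, map_mul, aeval_C, ← Algebra.smul_def]
    refine Submodule.smul_mem _ _ (h4 α ?_)
    exact (le_totalDegree hα).trans hP

/-- The values of polynomials are algebraic. -/
theorem isAlgebraic_of_box {n : ℕ} (y : Fin (N + 1) → E) (j0 : Fin (N + 1)) (hy : y j0 = 1)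
    (h : ∀ j, j ≠ j0 → ∃ Q : MvPolynomial (Fin (N + 1)) k, Q.totalDegree ≤ n ∧
      y j ^ (n + 1) = aeval y Q) (P : MvPolynomial (Fin (N + 1)) k) :
    IsAlgebraic k (aeval y P) := by
  set S := Submodule.span k (Set.range fun α : Fin (N + 1) → Fin (n + 1) => ∏ j, y j ^ (α j : ℕ))
    with hS
  have hfin : FiniteDimensional k S := FiniteDimensional.span_of_finite k (Set.finite_range _)
  have hle : Subalgebra.toSubmodule (aeval (R := k) y).range ≤ S := by
    rintro _ ⟨Q, rfl⟩
    exact mem_box_span y j0 hy h _ Q le_rfl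
  have hfg : (Subalgebra.toSubmodule (aeval (R := k) y).range).FG := by
    have : FiniteDimensional k (Subalgebra.toSubmodule (aeval (R := k) y).range) :=
      Submodule.finiteDimensional_of_le hle
    exact (Submodule.fg_iff_finiteDimensional _).2 this
  exact (IsIntegral.of_mem_of_fg _ hfg _ ⟨P, rfl⟩).isAlgebraic

end finite

/-- The generic member is smooth if only one `e_j` is positive. -/
theorem smooth_eqG_one (k : Type) [Field k] {N : ℕ} (hN : 1 ≤ N) (e : Fin (N + 1) → ℕ) {m : ℕ}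
    (he : ∑ j, e j = m) (hm : (m : k) ≠ 0) (a : Fin (N + 1) → k) (ha : ∀ j, a j ≠ 0)
    {g : MvPolynomial (Fin (N + 1)) k}
    (hg : g.IsHomogeneous (∑ j, e j - (Finset.univ.filter fun j => e j ≠ 0).card))
    (hJ : (Finset.univ.filter fun j => e j ≠ 0).card = 1) :
    IsSmoothHyp (eqG e a g) := by
  classical
  intro E _ _ x hx h0
  by_contra hcon
  push Not at hcon
  have hm0 : m ≠ 0 := by
    rintro rfl
    exact hm Nat.cast_zero
  let _ : Algebra k E := ((algebraMap (RatFunc k) E).comp (algebraMap k (RatFunc k))).toAlgebra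
  have : IsScalarTower k (RatFunc k) E := IsScalarTower.of_algebraMap_eq fun _ => rfl
  set T : E := algebraMap (RatFunc k) E RatFunc.X with hTdef
  have hT : T ≠ 0 := by
    rw [hTdef, Ne, map_eq_zero]
    exact RatFunc.X_ne_zero
  obtain ⟨j0, hj0⟩ := Finset.card_eq_one.1 hJ
  have hej : ∀ j, j ≠ j0 → e j = 0 := by
    intro j hj
    by_contra h
    have h1 : j ∈ Finset.univ.filter fun j => e j ≠ 0 :=
      Finset.mem_filter.2 ⟨Finset.mem_univ _, h⟩
    rw [hj0, Finset.mem_singleton] at h1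
    exact hj h1
  have hej0 : e j0 = m := by
    rw [← he, Finset.sum_eq_single j0 (fun j _ hj => hej j hj)
      (fun h => absurd (Finset.mem_univ _) h)]
  have hmonK : monForm k e = X j0 ^ m := by
    unfold monForm
    rw [Finset.prod_eq_single j0 (fun j _ hj => by rw [hej j hj, pow_zero])
      (fun h => absurd (Finset.mem_univ _) h), hej0]
  have hprod : prodForm k e = X j0 := by
    unfold prodForm
    rw [hj0, Finset.prod_singleton]
  set G := formG e a g with hGdef
  have hGhom : G.IsHomogeneous m := by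
    rw [← he]
    exact formG_homog e a hg
  have hGeq : G = diagForm a m + g * X j0 := by
    rw [hGdef]
    unfold formG
    rw [he, hprod]
  rw [he, hJ] at hg
  -- values of polynomials over `k`
  have hmapE : ∀ P : MvPolynomial (Fin (N + 1)) k,
      aeval x (MvPolynomial.map (algebraMap k (RatFunc k)) P) = aeval x P := fun P =>
    MvPolynomial.aeval_map_algebraMap (RatFunc k) x P
  -- the equation
  have heq : x j0 ^ m + T * aeval x G = 0 := by
    have h1 := h0
    unfold eqG linQ at h1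
    rw [map_add, map_mul, aeval_C, hmapE, hmapE, hmonK, map_pow, aeval_X] at h1
    exact h1
  -- the derivatives
  have hder : ∀ j, j ≠ j0 → algebraMap k E (a j * m) * x j ^ (m - 1) +
      aeval x (pderiv j g) * x j0 = 0 := by
    intro j hj
    have h1 := hcon j
    unfold eqG linQ at h1
    rw [map_add, Derivation.leibniz, pderiv_C, smul_zero, add_zero, smul_eq_mul, map_add, map_mul,
      aeval_C, pderiv_map, pderiv_map, hmapE, hmapE, hmonK, ← hGdef, hGeq, map_add,
      pderiv_diagForm, Derivation.leibniz, Derivation.leibniz_pow, pderiv_X_of_ne hj.symm] at h1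
    simp only [smul_zero, zero_add, smul_eq_mul, mul_zero, map_zero, map_add, map_mul, aeval_C,
      map_pow, aeval_X, map_natCast] at h1
    have h2 := (mul_eq_zero.1 h1).resolve_left hT
    rw [map_mul, map_natCast]
    linear_combination h2
  have hamj : ∀ j, algebraMap k E (a j * m) ≠ 0 := fun j =>
    (map_ne_zero _).2 (mul_ne_zero (ha j) hm)
  have hexj : ∃ j, j ≠ j0 := by
    have : Nontrivial (Fin (N + 1)) := Fin.nontrivial_iff_two_le.2 (by omega)
    exact exists_ne j0
  obtain ⟨j1, hj1⟩ := hexj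
  by_cases hxj : x j0 = 0
  · -- the point lies on `x_{j0} = 0`
    have h1 : ∀ j, j ≠ j0 → x j = 0 := by
      intro j hj
      have h2 := hder j hj
      rw [hxj, mul_zero, add_zero] at h2
      exact eq_zero_of_pow_eq_zero ((mul_eq_zero.1 h2).resolve_left (hamj j))
    refine hx (funext fun j => ?_)
    by_cases hj : j = j0
    · rw [hj, hxj, Pi.zero_apply]
    · exact h1 j hj
  -- the point lies on `x_{j0} = 1`
  set c : E := (x j0)⁻¹ with hc
  have hc0 : c ≠ 0 := inv_ne_zero hxj
  set y : Fin (N + 1) → E := fun j => c * x j with hydef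
  have hy : y j0 = 1 := by
    rw [hydef]
    exact inv_mul_cancel₀ hxj
  have hscale : ∀ {F : MvPolynomial (Fin (N + 1)) k} {d : ℕ}, F.IsHomogeneous d →
      aeval y F = c ^ d * aeval x F := fun {F d} hF => aeval_scale x c hF
  have heqy : 1 + T * aeval y G = 0 := by
    rw [hscale hGhom]
    have h1 : c ^ m * x j0 ^ m = 1 := by rw [← mul_pow, hc, inv_mul_cancel₀ hxj, one_pow]
    linear_combination c ^ m * heq - h1
  have hm1 : m ≠ 1 := by
    intro h1
    have h2 := hder j1 hj1
    rw [h1] at hg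
    have h3 : g = C (coeff 0 g) := by
      have := (totalDegree_eq_zero_iff_eq_C (p := g)).1 (by
        have := hg.totalDegree_le
        omega)
      exact this
    rw [h3, pderiv_C, map_zero, zero_mul, add_zero, h1, Nat.sub_self, pow_zero, mul_one] at h2
    rw [h1] at hamj
    exact hamj j1 h2
  have hbox : ∀ j, j ≠ j0 → ∃ Q : MvPolynomial (Fin (N + 1)) k, Q.totalDegree ≤ m - 2 ∧
      y j ^ (m - 2 + 1) = aeval y Q := by
    intro j hj
    refine ⟨C (-(a j * m)⁻¹) * pderiv j g, ?_, ?_⟩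
    · refine (totalDegree_mul _ _).trans ?_
      rw [totalDegree_C, zero_add]
      have h1 := (hg.pderiv (i := j)).totalDegree_le
      exact h1.trans (by omega)
    · rw [map_mul, aeval_C, hscale hg.pderiv]
      have h1 := hder j hj
      have h2 : m - 2 + 1 = m - 1 := by omega
      rw [h2]
      have h3 : y j ^ (m - 1) = c ^ (m - 1) * x j ^ (m - 1) := by
        rw [hydef]
        exact mul_pow _ _ _
      rw [h3]
      have h4 : c ^ (m - 1) = c ^ (m - 1 - 1) * c := by
        rw [← pow_succ]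
        congr 1
        omega
      have h5 : c * x j0 = 1 := inv_mul_cancel₀ hxj
      have h6 : algebraMap k E (-(a j * m)⁻¹) * algebraMap k E (a j * m) = -1 := by
        rw [← map_mul, neg_mul, inv_mul_cancel₀ (mul_ne_zero (ha j) hm), map_neg, map_one]
      have h7 : x j ^ (m - 1) = algebraMap k E (-(a j * m)⁻¹) * (aeval x (pderiv j g) * x j0) := by
        linear_combination (-algebraMap k E (-(a j * m)⁻¹)) * h1 + x j ^ (m - 1) * h6
      rw [h7, h4]
      linear_combination (c ^ (m - 1 - 1) * algebraMap k E (-(a j * m)⁻¹) *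
        aeval x (pderiv j g)) * h5
  have halg : IsAlgebraic k (aeval y G) := isAlgebraic_of_box y j0 hy hbox G
  have hTinv : T = (-aeval y G)⁻¹ := by
    refine eq_inv_of_mul_eq_one_left ?_
    linear_combination -heqy
  have halgT : IsAlgebraic k T := by
    rw [hTinv]
    exact halg.neg.inv
  rw [hTdef] at halgT
  exact RatFunc.transcendental_X ((isAlgebraic_algebraMap_iff
    (algebraMap (RatFunc k) E).injective).1 halgT)

theorem formG_zero {k : Type} [Field k] {N : ℕ} (e : Fin (N + 1) → ℕ) (a : Fin (N + 1) → k) :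
    formG e a 0 = diagForm a (∑ j, e j) := by
  unfold formG
  rw [zero_mul, add_zero]

theorem eqG_zero {k : Type} [Field k] {N : ℕ} (e : Fin (N + 1) → ℕ) (a : Fin (N + 1) → k) :
    eqG e a 0 = eqDiag e a := by
  unfold eqG eqDiag
  rw [formG_zero]

end Pool.Agent.HC
end

/- Helper16.DP.HC.CountG -/
section
set_option autoImplicit false

/-!
Project HC (MP_0b9e0b_ag): the L-function of the hypersurfaces
`∏ x_j^(e_j) + t (∑ a_j x_j^m + g ∏ x_j) = 0`.
-/

open Finset

namespace Pool.Agent.HC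

/-- The sum of the numbers of zeros of the members does not change if `G` does not change on the
zeros of `F`. -/
theorem sum_zeros_congr {κ σ : Type} [Field κ] [Fintype κ] [DecidableEq κ] [Fintype σ]
    [DecidableEq σ] {F G G' : MvPolynomial σ κ}
    (h : ∀ x : σ → κ, MvPolynomial.eval x F = 0 →
      (MvPolynomial.eval x G = 0 ↔ MvPolynomial.eval x G' = 0)) :
    (∑ t : κˣ, (zeros (F + MvPolynomial.C (t : κ) * G) : ℤ)) + (zeros G : ℤ) =
      (∑ t : κˣ, (zeros (F + MvPolynomial.C (t : κ) * G') : ℤ)) + (zeros G' : ℤ) := by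
  classical
  simp only [zeros_eq_sum]
  rw [Finset.sum_comm, ← Finset.sum_add_distrib, Finset.sum_comm (s := (univ : Finset κˣ)),
    ← Finset.sum_add_distrib]
  refine Finset.sum_congr rfl fun x _ => ?_
  by_cases hx : x = 0
  · simp [hx]
  simp only [ne_eq, hx, not_false_eq_true, true_and, map_add, map_mul, MvPolynomial.eval_C]
  rw [dw_fibre, dw_fibre]
  congr 2
  by_cases ha : MvPolynomial.eval x F = 0
  · have h1 := h x ha
    by_cases hb : MvPolynomial.eval x G = 0
    · rw [if_pos ⟨ha, hb⟩, if_pos ⟨ha, h1.1 hb⟩]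
    · rw [if_neg fun h2 => hb h2.2, if_neg fun h2 => hb (h1.2 h2.2)]
  · rw [if_neg fun h2 => ha h2.1, if_neg fun h2 => ha h2.1]

/-- The point counts do not see `g`. -/
theorem countG_eq {k : Type} [Field k] (κ : Type) [Field κ] [Finite κ] [Algebra k κ] {N : ℕ}
    (e : Fin (N + 1) → ℕ) (g : MvPolynomial (Fin (N + 1)) k) :
    countG κ e (formG e (fun _ => (1 : k)) g) = countDW κ e := by
  classical
  have : Fintype κ := Fintype.ofFinite κ
  have key := sum_zeros_congr (F := monForm κ e)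
    (G := MvPolynomial.map (algebraMap k κ) (formG e (fun _ => (1 : k)) g))
    (G' := fermat κ N (∑ j, e j)) (fun x hx => by
      rw [eval_monForm, Finset.prod_eq_zero_iff] at hx
      obtain ⟨j, -, hj⟩ := hx
      have hej : e j ≠ 0 := by
        intro h0
        rw [h0, pow_zero] at hj
        exact one_ne_zero hj
      have hxj : x j = 0 := (pow_eq_zero_iff hej).1 hj
      have h1 : MvPolynomial.eval x (MvPolynomial.map (algebraMap k κ)
          (formG e (fun _ => (1 : k)) g)) = MvPolynomial.eval x (fermat κ N (∑ j, e j)) := by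
        obtain ⟨Y, hY⟩ := X_dvd_prodForm (k := k) hej
        unfold formG
        rw [map_add, map_add, map_mul, map_mul, hY, map_mul, map_mul, MvPolynomial.map_X,
          MvPolynomial.eval_X, hxj, zero_mul, mul_zero, add_zero]
        simp [diagForm, fermat]
      rw [h1])
  unfold countG countDW
  rw [finsum_eq_sum_of_fintype, finsum_eq_sum_of_fintype]
  simp only [Finset.sum_sub_distrib]
  linear_combination -key

theorem ordG_of_ordDW {k : Type} [Field k] [Finite k] {N : ℕ} {e : Fin (N + 1) → ℕ}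
    (g : MvPolynomial (Fin (N + 1)) k) {r n : ℕ} (h : OrdDW k e r n) :
    OrdG e (formG e (fun _ => (1 : k)) g) r n := by
  obtain ⟨L, ⟨hL1, c, hc0, hc, hL2⟩, hL⟩ := h
  refine ⟨L, ⟨hL1, c, hc0, fun κ _ _ hκ => ?_, hL2⟩, hL⟩
  have hfin : Module.Finite k κ := Module.finite_of_finrank_pos (Nat.pos_of_ne_zero hκ)
  have hfinκ : Finite κ := Module.finite_of_finite k
  rw [hc κ hκ, countG_eq]

end Pool.Agent.HC
end

/- Helper16.DP.HC.GFinal -/
section
set_option autoImplicit false

/-!
Project HC (MP_0b9e0b_ag): the final theorem for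
`∏ x_j^(e_j) + t (∑ a_j x_j^m + g ∏ x_j) = 0`, where `g` is an arbitrary form and the last product
is over the `j` with `e_j > 0`.
-/

namespace Pool.Agent.HC

open Pool.Agent.Helper16

theorem final_G (k : Type) [Field k] [Finite k] (p f m N : ℕ) (hp : p.Prime) [CharP k p]
    (hf : f ≠ 0) (hm : m ∣ p ^ f + 1) (hN : 4 ≤ N) (e : Fin (N + 1) → ℕ) (he : ∑ j, e j = m)
    (a : Fin (N + 1) → k) (ha : ∀ j, a j ≠ 0) (g : MvPolynomial (Fin (N + 1)) k)
    (hg : g.IsHomogeneous (m - (Finset.univ.filter fun j => e j ≠ 0).card)) (r : ℕ)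
    (hr : r + 3 ≤ N) :
    (g = 0 ∨ (Finset.univ.filter fun j => e j ≠ 0).card = 1 → IsSmoothHyp (eqG e a g)) ∧
      ChowBoundG e a g (p ^ f) r := by
  have hg' : g.IsHomogeneous (∑ j, e j - (Finset.univ.filter fun j => e j ≠ 0).card) := by
    rw [he]
    exact hg
  have h1 := rank_eqG_le k p f hp hf hm e he a ha hg' hr (secGen p f hp hf hN hr)
  rw [← dimCH_eq] at h1
  have hmk : (m : k) ≠ 0 := by
    intro h0
    rw [CharP.cast_eq_zero_iff k p] at h0
    have h3 : p ∣ p ^ f + 1 := h0.trans hm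
    rw [Nat.dvd_add_right (dvd_pow_self p hf)] at h3
    exact hp.one_lt.ne' (Nat.dvd_one.1 h3)
  refine ⟨fun h0 => ?_, fun h2 => ?_, fun h2 => ?_, fun h2 h3 h4 hμ => ?_⟩
  · rcases h0 with h0 | h0
    · rw [h0, eqG_zero]
      exact smooth_eqDiag k e he hmk a ha
    · exact smooth_eqG_one k (by omega) e he hmk a ha hg' h0
  · rw [if_neg h2, mul_zero, add_zero, Nat.cast_one] at h1
    exact h1
  · rw [if_pos h2] at h1
    exact h1
  · obtain ⟨μ, hμ0, hμ1⟩ := hμ
    obtain ⟨L, hL1, hL2⟩ := exists_LDW k p f (p ^ f) μ N hp hf rfl hμ0 hμ1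
      ⟨r + 1, by omega⟩ (by (clear * - k p f m e hr h2 μ; omega)) e h3
    have h5 : N / 2 = r + 1 := by omega
    rw [h5] at hL2
    have ha1 : a = fun _ => (1 : k) := funext h4
    rw [ha1]
    exact ordG_of_ordDW g ⟨L, hL1, hL2⟩

end Pool.Agent.HC
end
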